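import Mathlib

/-! Definitions for MP_3a36cd_an: parabolic leaves of entire vector fields on `ℂ²`. -/

open Set Metric Filter Topology Real

namespace Pool.Agent.ParLeaf

/-- `u` is subharmonic on the open set `Ω ⊆ ℂ` (used for bounded functions `u` only). -/
def SubharmonicOn (u : ℂ → ℝ) (Ω : Set ℂ) : Prop :=
  UpperSemicontinuousOn u Ω ∧
    ∀ c r, 0 < r → closedBall c r ⊆ Ω → u c ≤ circleAverage u c r

/-- `φ` is a holomorphic immersion of the disc `ball c r` into `ℂ² ∖ S`, tangent to the vector field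
`Z = P ∂_z + Q ∂_w`, i.e. a regular parametrisation of a piece of a complex integral curve. -/
def IsLeafDisc (P Q : ℂ × ℂ → ℂ) (φ : ℂ → ℂ × ℂ) (c : ℂ) (r : ℝ) : Prop :=
  ∀ s ∈ ball c r, (P (φ s), Q (φ s)) ≠ 0 ∧
    ∃ a : ℂ, a ≠ 0 ∧ HasDerivAt φ (a • (P (φ s), Q (φ s))) s

/-- The leaf of `Z` through `p`: all points which can be joined to `p` by a finite chain of pieces of
integral curves. -/
def Leaf (P Q : ℂ × ℂ → ℂ) (p : ℂ × ℂ) : Set (ℂ × ℂ) :=
  {q | Relation.ReflTransGen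
    (fun x y => ∃ φ c r, IsLeafDisc P Q φ c r ∧ x ∈ φ '' ball c r ∧ y ∈ φ '' ball c r) p q}

/-- `u` is subharmonic on the immersed Riemann surface `L` (a leaf): it is subharmonic in every
local parametrisation of `L`. -/
def LeafSubharmonic (P Q : ℂ × ℂ → ℂ) (L : Set (ℂ × ℂ)) (u : ℂ × ℂ → ℝ) : Prop :=
  ∀ φ c r, IsLeafDisc P Q φ c r → φ '' ball c r ⊆ L → SubharmonicOn (u ∘ φ) (ball c r)

/-- The leaf through `p` is a parabolic Riemann surface: every bounded subharmonic function on it is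
constant. -/
def ParabolicAt (P Q : ℂ × ℂ → ℂ) (p : ℂ × ℂ) : Prop :=
  ∀ u : ℂ × ℂ → ℝ, (∃ C : ℝ, ∀ q ∈ Leaf P Q p, |u q| ≤ C) →
    LeafSubharmonic P Q (Leaf P Q p) u →
      ∀ q ∈ Leaf P Q p, ∀ q' ∈ Leaf P Q p, u q = u q'

/-- Plurisubharmonic functions on `ℂ²` (with values in `[-∞, ∞)`): upper semicontinuous and, on every
complex disc, below the circle average of every continuous majorant on the boundary circle. -/
def PSH (u : ℂ × ℂ → EReal) : Prop :=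
  UpperSemicontinuous u ∧ (∀ x, u x < ⊤) ∧
    ∀ a b : ℂ × ℂ, ∀ g : ℂ → ℝ, Continuous g → (∀ ζ : ℂ, ‖ζ‖ = 1 → u (a + ζ • b) ≤ g ζ) →
      u a ≤ (circleAverage g 0 1 : ℝ)

/-- Pluripolar subsets of `ℂ²`. -/
def Pluripolar (E : Set (ℂ × ℂ)) : Prop :=
  ∃ u : ℂ × ℂ → EReal, PSH u ∧ (∃ x, u x ≠ ⊥) ∧ ∀ x ∈ E, u x = ⊥

/-- The union of the parabolic leaves. -/
def ParabolicSet (P Q : ℂ × ℂ → ℂ) : Set (ℂ × ℂ) :=
  {p | (P p, Q p) ≠ 0 ∧ ParabolicAt P Q p}

end Pool.Agent.ParLeaf
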