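import Pool.Agent.H.MP_3a36cd_an.Leaves2

/-! MP_3a36cd_an, module Exc: the exceptional set. -/

open Set Metric Filter Topology Complex

namespace Pool.Agent.ParLeaf

namespace SolDomain

variable {P Q : ℂ × ℂ → ℂ} (D : SolDomain P Q) (hP : Differentiable ℂ P) (hQ : Differentiable ℂ Q)

/-- The exceptional set: points of leaves with nontrivial holonomy. -/
def Exc : Set (ℂ × ℂ) :=
  {p | ∃ hp : P p ≠ 0, ∃ y y' : (D.M.Fib (D.M.pr (D.base hP hQ p hp)).2).carrier,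
    (D.M.Fib (D.M.pr (D.base hP hQ p hp)).2).Reach ⟨D.base hP hQ p hp, rfl⟩ y ∧
    (D.M.Fib (D.M.pr (D.base hP hQ p hp)).2).Reach ⟨D.base hP hQ p hp, rfl⟩ y' ∧
    D.kap y.1 = D.kap y'.1 ∧ y ≠ y'}

/-! ### walks in the fibre direction -/

/-- successive translations in the direction of the fibre -/
def excWalk (M : RD (ℂ × ℂ × ℂ)) : M.carrier → List ℂ → M.carrier
  | e, [] => e
  | e, ζ :: l => excWalk M (M.tr e (ζ, 0)) l

/-- all the steps of the walk are admissible -/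
def excValid (M : RD (ℂ × ℂ × ℂ)) : M.carrier → List ℂ → Prop
  | _, [] => True
  | e, ζ :: l => ‖ζ‖ < M.rad e ∧ excValid M (M.tr e (ζ, 0)) l

theorem excWalk_append (M : RD (ℂ × ℂ × ℂ)) (l l' : List ℂ) : ∀ e : M.carrier,
    excWalk M e (l ++ l') = excWalk M (excWalk M e l) l' := by
  induction l with
  | nil => intro e; rfl
  | cons ζ l ih => intro e; exact ih _

theorem excValid_append (M : RD (ℂ × ℂ × ℂ)) (l l' : List ℂ) : ∀ e : M.carrier,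
    (excValid M e (l ++ l') ↔ excValid M e l ∧ excValid M (excWalk M e l) l') := by
  induction l with
  | nil => intro e; simp [excValid, excWalk]
  | cons ζ l ih =>
    intro e
    simp only [List.cons_append, excValid, excWalk, ih, and_assoc]

theorem exc_norm_zero_right (ζ : ℂ) : ‖((ζ, 0) : ℂ × ℂ × ℂ)‖ = ‖ζ‖ := RD.norm_fst ζ

theorem exc_pr_walk (M : RD (ℂ × ℂ × ℂ)) (l : List ℂ) : ∀ e : M.carrier, excValid M e l →
    M.pr (excWalk M e l) = M.pr e + (l.sum, 0) := by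
  induction l with
  | nil => intro e _; simp [excWalk]
  | cons ζ l ih =>
    intro e he
    simp only [excWalk, List.sum_cons]
    rw [ih _ he.2, M.pr_tr e (ζ, 0) (by rw [exc_norm_zero_right]; exact he.1), add_assoc]
    simp

/-- small translations commute with walks -/
theorem exc_commute (M : RD (ℂ × ℂ × ℂ)) (l : List ℂ) : ∀ e : M.carrier, excValid M e l →
    ∃ η > 0, ∀ v : ℂ × ℂ × ℂ, ‖v‖ < η →
      excValid M (M.tr e v) l ∧ excWalk M (M.tr e v) l = M.tr (excWalk M e l) v := by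
  induction l with
  | nil => intro e _; exact ⟨1, one_pos, fun v _ => ⟨trivial, rfl⟩⟩
  | cons ζ l ih =>
    intro e he
    obtain ⟨η, hη, h⟩ := ih _ he.2
    have hz : ‖((ζ, 0) : ℂ × ℂ × ℂ)‖ < M.rad e := by rw [exc_norm_zero_right]; exact he.1
    have h0 : (0 : ℝ) ≤ ‖ζ‖ := norm_nonneg _
    have hr := M.rad_tr e (ζ, 0) hz
    rw [exc_norm_zero_right] at hr
    refine ⟨min η (M.rad e - ‖ζ‖), lt_min hη (sub_pos.2 he.1), fun v hv => ?_⟩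
    have hv1 : ‖v‖ < η := hv.trans_le (min_le_left _ _)
    have hv2 : ‖v‖ < M.rad e - ‖ζ‖ := hv.trans_le (min_le_right _ _)
    have hve : ‖v‖ < M.rad e := by linarith
    have hrv := M.rad_tr e v hve
    have hsum : ‖v + ((ζ, 0) : ℂ × ℂ × ℂ)‖ < M.rad e := by
      refine (norm_add_le _ _).trans_lt ?_
      rw [exc_norm_zero_right]; linarith
    have hcomm : M.tr (M.tr e v) (ζ, 0) = M.tr (M.tr e (ζ, 0)) v := by
      rw [M.tr_tr e v (ζ, 0) hve (by rw [exc_norm_zero_right]; linarith) hsum,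
        M.tr_tr e (ζ, 0) v hz (by linarith) (by rwa [add_comm]), add_comm]
    obtain ⟨h1, h2⟩ := h v hv1
    refine ⟨⟨by linarith, ?_⟩, ?_⟩
    · rw [hcomm]; exact h1
    · simp only [excWalk]
      rw [hcomm]; exact h2

/-- approximation of walks by walks with steps in a dense set -/
theorem exc_approx (M : RD (ℂ × ℂ × ℂ)) {A : Set ℂ} (hA : Dense A) (e : M.carrier) (l : List ℂ) :
    excValid M e l → ∀ η > 0, ∃ l' : List ℂ, (∀ x ∈ l', x ∈ A) ∧ excValid M e l' ∧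
      ∃ δ : ℂ, ‖δ‖ < η ∧ ‖δ‖ < M.rad (excWalk M e l) ∧
        excWalk M e l' = M.tr (excWalk M e l) (δ, 0) := by
  induction l using List.reverseRecOn with
  | nil =>
    intro _ η hη
    refine ⟨[], by simp, trivial, 0, by simpa using hη, by simpa using M.rad_pos _, ?_⟩
    exact (M.tr_zero _).symm
  | append_singleton l ζ ih =>
    intro hv η hη
    rw [excValid_append] at hv
    obtain ⟨hv1, hv2, -⟩ := hv
    set e1 := excWalk M e l with he1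
    have hgap : 0 < M.rad e1 - ‖ζ‖ := sub_pos.2 hv2
    set g := M.rad e1 - ‖ζ‖ with hg
    obtain ⟨l', hl'A, hl'v, δ₁, hδ₁, hδ₁r, hw⟩ := ih hv1 (g / 3) (by positivity)
    obtain ⟨ζ', hζ'A, hζ'⟩ : ∃ ζ' ∈ A, ‖(ζ - δ₁) - ζ'‖ < min η (g / 3) := by
      obtain ⟨x, hx, hxA⟩ := hA.exists_mem_open isOpen_ball
        (⟨ζ - δ₁, mem_ball_self (lt_min hη (by positivity))⟩ :
          (ball (ζ - δ₁) (min η (g / 3))).Nonempty)
      refine ⟨x, hx, ?_⟩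
      rw [mem_ball, dist_comm, dist_eq_norm] at hxA
      exact hxA
    set δ := ζ' + δ₁ - ζ with hδ
    have hδn : ‖δ‖ < min η (g / 3) := by
      have h4 : ζ - δ₁ - ζ' = -δ := by rw [hδ]; ring
      rw [h4, norm_neg] at hζ'
      exact hζ'
    have hδ1 : ‖δ‖ < η := hδn.trans_le (min_le_left _ _)
    have hδ2 : ‖δ‖ < g / 3 := hδn.trans_le (min_le_right _ _)
    have hzz : ‖((ζ, 0) : ℂ × ℂ × ℂ)‖ < M.rad e1 := by rw [exc_norm_zero_right]; exact hv2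
    have hr1 := M.rad_tr e1 (ζ, 0) hzz
    rw [exc_norm_zero_right] at hr1
    have hdd : ‖((δ₁, 0) : ℂ × ℂ × ℂ)‖ < M.rad e1 := by rw [exc_norm_zero_right]; exact hδ₁r
    have hr2 := M.rad_tr e1 (δ₁, 0) hdd
    rw [exc_norm_zero_right] at hr2
    have hζ'n : ‖ζ'‖ < M.rad (M.tr e1 (δ₁, 0)) := by
      have : ζ' = ζ - δ₁ + δ := by rw [hδ]; ring
      have h3 : ‖ζ'‖ ≤ ‖ζ‖ + ‖δ₁‖ + ‖δ‖ := by
        rw [this]
        exact (norm_add_le _ _).trans (by gcongr; exact norm_sub_le _ _)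
      linarith
    have hwalk : excWalk M e (l ++ [ζ]) = M.tr e1 (ζ, 0) := by
      rw [excWalk_append]; rfl
    have hsum : ‖ζ + δ‖ < M.rad e1 := by
      have := norm_add_le ζ δ
      linarith
    refine ⟨l' ++ [ζ'], ?_, ?_, δ, hδ1, ?_, ?_⟩
    · intro x hx
      rcases List.mem_append.1 hx with h | h
      · exact hl'A x h
      · rw [List.mem_singleton.1 h]; exact hζ'A
    · rw [excValid_append]
      refine ⟨hl'v, ?_, trivial⟩
      rw [hw]; exact hζ'n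
    · rw [hwalk]; linarith
    · rw [hwalk, excWalk_append, hw]
      show M.tr (M.tr e1 (δ₁, 0)) (ζ', 0) = _
      have e2 : ((δ₁, 0) : ℂ × ℂ × ℂ) + (ζ', 0) = (ζ + δ, 0) := by
        rw [hδ]; ext <;> simp; ring
      have e3 : ((ζ, 0) : ℂ × ℂ × ℂ) + (δ, 0) = (ζ + δ, 0) := by ext <;> simp
      rw [M.tr_tr e1 (δ₁, 0) (ζ', 0) hdd (by rw [exc_norm_zero_right]; exact hζ'n)
          (by rw [e2, exc_norm_zero_right]; exact hsum),
        M.tr_tr e1 (ζ, 0) (δ, 0) hzz (by rw [exc_norm_zero_right]; linarith)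
          (by rw [e3, exc_norm_zero_right]; exact hsum), e2, e3]

/-- reachable points of the fibre are end points of walks -/
theorem exc_walk_of_reach (M : RD (ℂ × ℂ × ℂ)) {e : M.carrier}
    {y : (M.Fib (M.pr e).2).carrier} (h : (M.Fib (M.pr e).2).Reach ⟨e, rfl⟩ y) :
    ∃ l : List ℂ, excValid M e l ∧ excWalk M e l = y.1 := by
  have h' : Relation.ReflTransGen _ _ _ := h
  induction h' with
  | refl => exact ⟨[], trivial, rfl⟩
  | tail _ hbc ih =>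
    rename_i b c hab
    obtain ⟨l, hl, hl'⟩ := ih hab
    obtain ⟨ζ, hζ, rfl⟩ := hbc
    have hζ' : ‖ζ‖ < M.rad b.1 := hζ
    refine ⟨l ++ [ζ], ?_, ?_⟩
    · rw [excValid_append]
      refine ⟨hl, ?_, trivial⟩
      rw [hl']; exact hζ'
    · rw [excWalk_append, hl', RD.fib_tr_val M _ _ hζ']
      rfl

/-! ### germs and their values -/

theorem exc_isSol_mono {F : ℂ × ℂ × ℂ → ℂ} {U V : Set (ℂ × ℂ × ℂ)} (h : IsSol P Q F U)
    (hVU : V ⊆ U) : IsSol P Q F V :=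
  ⟨h.1.mono hVU, fun y hy => h.2 y (hVU hy)⟩

theorem exc_rep (e : D.M.carrier) : ∃ F, IsSol P Q F (ball (D.M.pr e) (D.M.rad e)) ∧
    D.germ (D.M.pr e) F = e ∧ ∀ v, ‖v‖ < D.M.rad e → D.W (D.M.tr e v) = F (D.M.pr e + v) := by
  obtain ⟨F, hF, hg⟩ := D.exists_rep e
  refine ⟨F, hF, hg, fun v hv => ?_⟩
  have h1 := D.tr_germ (D.M.pr e) F (D.M.rad e) (D.M.rad_pos e) (D.rad_le_one e) hF v hv
  rw [hg] at h1
  rw [h1]
  refine D.W_germ (D.M.pr e + v) F (D.M.rad e - ‖v‖) (sub_pos.2 hv)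
    (exc_isSol_mono hF (ball_subset_ball' ?_))
  rw [dist_eq_norm]
  simp

/-- the value of the germ as a function of the fibre coordinate solves the equation -/
theorem exc_sol (e : D.M.carrier) {h : ℂ × ℂ} (hh : ‖h‖ < D.M.rad e) {z : ℂ}
    (hz : z ∈ ball (D.M.pr e).1 (D.M.rad e)) :
    P (z, D.W (D.M.tr e (z - (D.M.pr e).1, h))) ≠ 0 ∧
      HasDerivAt (fun z => D.W (D.M.tr e (z - (D.M.pr e).1, h)))
        (Q (z, D.W (D.M.tr e (z - (D.M.pr e).1, h))) /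
          P (z, D.W (D.M.tr e (z - (D.M.pr e).1, h)))) z := by
  obtain ⟨F, hF, -, hW⟩ := D.exc_rep e
  have key : ∀ z' ∈ ball (D.M.pr e).1 (D.M.rad e),
      D.W (D.M.tr e (z' - (D.M.pr e).1, h)) = F (z', (D.M.pr e).2 + h) := by
    intro z' hz'
    rw [mem_ball, dist_eq_norm] at hz'
    rw [hW _ (by rw [Prod.norm_def]; exact max_lt hz' hh)]
    congr 1
    ext <;> simp
  have hmem : (z, (D.M.pr e).2 + h) ∈ ball (D.M.pr e) (D.M.rad e) := by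
    rw [mem_ball, dist_eq_norm, Prod.norm_def]
    rw [mem_ball, dist_eq_norm] at hz
    refine max_lt hz ?_
    simpa using hh
  obtain ⟨h1, h2⟩ := hF.2 _ hmem
  rw [key z hz]
  refine ⟨h1, ?_⟩
  refine h2.congr_of_eventuallyEq ?_
  filter_upwards [isOpen_ball.mem_nhds hz] with z' hz' using key z' hz'

/-- two solutions which agree at one point agree on the whole disc -/
theorem exc_uniq {e e' : D.M.carrier} (hP : Differentiable ℂ P) (hQ : Differentiable ℂ Q)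
    (h1 : (D.M.pr e).1 = (D.M.pr e').1) {ρ : ℝ}
    (hρ : ρ ≤ D.M.rad e) (hρ' : ρ ≤ D.M.rad e') {h h' : ℂ × ℂ} (hh : ‖h‖ < D.M.rad e)
    (hh' : ‖h'‖ < D.M.rad e') {ζ₀ : ℂ} (hζ₀ : ‖ζ₀‖ < ρ)
    (heq : D.W (D.M.tr e (ζ₀, h)) = D.W (D.M.tr e' (ζ₀, h'))) {ζ : ℂ} (hζ : ‖ζ‖ < ρ) :
    D.W (D.M.tr e (ζ, h)) = D.W (D.M.tr e' (ζ, h')) := by
  have hsub : ∀ ξ : ℂ, ‖ξ‖ < ρ → (D.M.pr e).1 + ξ ∈ ball (D.M.pr e).1 ρ := by
    intro ξ hξ; rw [mem_ball, dist_eq_norm]; simpa using hξ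
  have key := sol_unique hP hQ (U := ball (D.M.pr e).1 ρ) isOpen_ball
    (convex_ball _ _).isPreconnected
    (f := fun z => D.W (D.M.tr e (z - (D.M.pr e).1, h)))
    (g := fun z => D.W (D.M.tr e' (z - (D.M.pr e').1, h')))
    (fun z hz => D.exc_sol e hh (ball_subset_ball hρ hz))
    (fun z hz => D.exc_sol e' hh' (by rw [← h1]; exact ball_subset_ball hρ' hz))
    (hsub ζ₀ hζ₀) (by simpa [← h1] using heq)
  simpa [← h1] using key (hsub ζ hζ)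

theorem exc_differentiableOn (e : D.M.carrier) :
    DifferentiableOn ℂ (fun v => D.W (D.M.tr e v)) (ball 0 (D.M.rad e)) := by
  obtain ⟨F, hF, -, hW⟩ := D.exc_rep e
  have h1 : DifferentiableOn ℂ (fun v => F (D.M.pr e + v)) (ball 0 (D.M.rad e)) := by
    refine hF.1.comp (by fun_prop) ?_
    intro v hv
    rw [mem_ball_zero_iff] at hv
    rw [mem_ball, dist_eq_norm]
    simpa using hv
  refine h1.congr ?_
  intro v hv
  rw [mem_ball_zero_iff] at hv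
  exact hW v hv

/-! ### constancy along the leaves -/

/-- the germ does not change if the initial point `p` moves on its leaf to the line `z₁ = const` -/
def excLC (k : ℂ × ℂ → ℂ) (e : D.M.carrier) : Prop :=
  ∃ η > 0, ∀ h : ℂ × ℂ, ‖h‖ < η → ‖h‖ < D.M.rad e ∧ ‖((0, k h) : ℂ × ℂ)‖ < D.M.rad e ∧
    D.W (D.M.tr e (0, h)) = D.W (D.M.tr e (0, (0, k h)))

theorem exc_norm_left (h : ℂ × ℂ) : ‖((0, h) : ℂ × ℂ × ℂ)‖ = ‖h‖ := by
  simp [Prod.norm_def]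

theorem exc_norm_left' (t : ℂ) : ‖((0, t) : ℂ × ℂ)‖ = ‖t‖ := by
  simp [Prod.norm_def]

theorem exc_tr_tr (e : D.M.carrier) {ζ : ℂ} {h : ℂ × ℂ} (hζ : ‖ζ‖ < D.M.rad e)
    (hh : ‖h‖ < D.M.rad e) (hh' : ‖h‖ < D.M.rad (D.M.tr e (ζ, 0))) :
    D.M.tr (D.M.tr e (ζ, 0)) (0, h) = D.M.tr e (ζ, h) := by
  have h1 : ((ζ, 0) : ℂ × ℂ × ℂ) + (0, h) = (ζ, h) := by ext <;> simp
  rw [D.M.tr_tr e (ζ, 0) (0, h) (by rwa [exc_norm_zero_right]) (by rwa [exc_norm_left])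
    (by rw [h1, Prod.norm_def]; exact max_lt hζ hh), h1]

theorem excLC_step (hP : Differentiable ℂ P) (hQ : Differentiable ℂ Q) {k : ℂ × ℂ → ℂ}
    (hk : Tendsto k (𝓝 0) (𝓝 0)) {e : D.M.carrier} (he : D.excLC k e) {ζ : ℂ}
    (hζ : ‖ζ‖ < D.M.rad e) : D.excLC k (D.M.tr e (ζ, 0)) := by
  obtain ⟨η, hη, H⟩ := he
  have hz : ‖((ζ, 0) : ℂ × ℂ × ℂ)‖ < D.M.rad e := by rwa [exc_norm_zero_right]
  have hr := D.M.rad_tr e (ζ, 0) hz
  rw [exc_norm_zero_right] at hr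
  have hg : 0 < D.M.rad e - ‖ζ‖ := sub_pos.2 hζ
  obtain ⟨η₁, hη₁, hk'⟩ := Metric.eventually_nhds_iff.1 (hk (ball_mem_nhds 0 hg))
  refine ⟨min η (min η₁ (D.M.rad e - ‖ζ‖)), lt_min hη (lt_min hη₁ hg), fun h hh => ?_⟩
  obtain ⟨h1, h2, h3⟩ := H h (hh.trans_le (min_le_left _ _))
  have hh1 : ‖h‖ < η₁ := hh.trans_le ((min_le_right _ _).trans (min_le_left _ _))
  have hh2 : ‖h‖ < D.M.rad e - ‖ζ‖ := hh.trans_le ((min_le_right _ _).trans (min_le_right _ _))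
  have hk1 : ‖((0, k h) : ℂ × ℂ)‖ < D.M.rad e - ‖ζ‖ := by
    rw [exc_norm_left']
    have := hk' (y := h) (by simpa using hh1)
    simpa using this
  have hk2 : ‖((0, k h) : ℂ × ℂ)‖ < D.M.rad (D.M.tr e (ζ, 0)) := hk1.trans_le hr
  have hh3 : ‖h‖ < D.M.rad (D.M.tr e (ζ, 0)) := hh2.trans_le hr
  refine ⟨hh3, hk2, ?_⟩
  rw [D.exc_tr_tr e hζ h1 hh3, D.exc_tr_tr e hζ h2 hk2]
  exact D.exc_uniq hP hQ rfl le_rfl le_rfl h1 h2 (ζ₀ := 0) (by simpa using D.M.rad_pos e) h3 hζ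

theorem excLC_walk (hP : Differentiable ℂ P) (hQ : Differentiable ℂ Q) {k : ℂ × ℂ → ℂ}
    (hk : Tendsto k (𝓝 0) (𝓝 0)) (l : List ℂ) : ∀ e : D.M.carrier, D.excLC k e →
      excValid D.M e l → D.excLC k (excWalk D.M e l) := by
  induction l with
  | nil => intro e he _; exact he
  | cons ζ l ih => intro e he hv; exact ih _ (D.excLC_step hP hQ hk he hv.1) hv.2

/-- `k h = ` (value at `z = p.1` of the solution through `p + h`) `- p.2` -/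
noncomputable def exck (p : ℂ × ℂ) (hp : P p ≠ 0) (h : ℂ × ℂ) : ℂ :=
  D.W (D.M.tr (D.base hP hQ p hp) (0, h)) - p.2

theorem exc_W_base_add (p : ℂ × ℂ) (hp : P p ≠ 0) {v : ℂ × ℂ}
    (hv : ‖v‖ < D.M.rad (D.base hP hQ p hp)) :
    D.W (D.M.tr (D.base hP hQ p hp) (v.1, v)) = (p + v).2 := by
  obtain ⟨h, hb⟩ := D.base_add hP hQ p hp v hv
  rw [← hb, D.W_base hP hQ]

theorem exck_zero (p : ℂ × ℂ) (hp : P p ≠ 0) : D.exck hP hQ p hp 0 = 0 := by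
  unfold exck
  have : ((0, 0) : ℂ × ℂ × ℂ) = 0 := rfl
  rw [this, D.M.tr_zero, D.W_base hP hQ, sub_self]

theorem exck_tendsto (p : ℂ × ℂ) (hp : P p ≠ 0) :
    Tendsto (D.exck hP hQ p hp) (𝓝 0) (𝓝 0) := by
  have h1 : ContinuousAt (D.exck hP hQ p hp) 0 := by
    unfold exck
    refine ContinuousAt.sub ?_ continuousAt_const
    have h2 : ContinuousAt (fun v => D.W (D.M.tr (D.base hP hQ p hp) v)) ((0, 0) : ℂ × ℂ × ℂ) :=
      ((D.exc_differentiableOn (D.base hP hQ p hp)).differentiableAt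
        (ball_mem_nhds 0 (D.M.rad_pos _))).continuousAt
    exact ContinuousAt.comp (f := fun h : ℂ × ℂ => ((0, h) : ℂ × ℂ × ℂ)) h2 (by fun_prop)
  have h3 := h1.tendsto
  rwa [exck_zero] at h3

theorem excLC_base (p : ℂ × ℂ) (hp : P p ≠ 0) :
    D.excLC (D.exck hP hQ p hp) (D.base hP hQ p hp) := by
  have hr := D.M.rad_pos (D.base hP hQ p hp)
  obtain ⟨η₁, hη₁, hk'⟩ := Metric.eventually_nhds_iff.1
    ((D.exck_tendsto hP hQ p hp) (ball_mem_nhds 0 hr))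
  refine ⟨min η₁ (D.M.rad (D.base hP hQ p hp)), lt_min hη₁ hr, fun h hh => ?_⟩
  have h1 : ‖h‖ < D.M.rad (D.base hP hQ p hp) := hh.trans_le (min_le_right _ _)
  have h2 : ‖((0, D.exck hP hQ p hp h) : ℂ × ℂ)‖ < D.M.rad (D.base hP hQ p hp) := by
    rw [exc_norm_left']
    have := hk' (y := h) (by simpa using hh.trans_le (min_le_left _ _))
    simpa using this
  refine ⟨h1, h2, ?_⟩
  have h3 := D.exc_W_base_add hP hQ p hp h2
  rw [h3]
  simp [exck]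

/-! ### the local structure -/

/-- exceptional points with prescribed walks -/
def excS (l₁ l₂ : List ℂ) : Set (ℂ × ℂ) :=
  {p | ∃ hp : P p ≠ 0, excValid D.M (D.base hP hQ p hp) l₁ ∧
    excValid D.M (D.base hP hQ p hp) l₂ ∧
    D.kap (excWalk D.M (D.base hP hQ p hp) l₁) = D.kap (excWalk D.M (D.base hP hQ p hp) l₂) ∧
    excWalk D.M (D.base hP hQ p hp) l₁ ≠ excWalk D.M (D.base hP hQ p hp) l₂}

theorem exc_eq_of_W {e e' : D.M.carrier} (hpr : D.M.pr e = D.M.pr e') {η : ℝ} (hη : 0 < η)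
    (hW : ∀ v : ℂ × ℂ × ℂ, ‖v‖ < η → D.W (D.M.tr e v) = D.W (D.M.tr e' v)) : e = e' := by
  obtain ⟨F, hF, hg, hFW⟩ := D.exc_rep e
  obtain ⟨F', hF', hg', hFW'⟩ := D.exc_rep e'
  rw [← hg, ← hg', ← hpr]
  have h0 := D.M.rad_pos e
  have h0' := D.M.rad_pos e'
  rw [← hpr] at hF' hg'
  refine (D.germ_eq (D.M.pr e) F F' (min (D.M.rad e) (D.M.rad e')) (lt_min h0 h0')
    (exc_isSol_mono hF (ball_subset_ball (min_le_left _ _)))
    (exc_isSol_mono hF' (ball_subset_ball (min_le_right _ _)))).2 ?_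
  have hpos : 0 < min η (min (D.M.rad e) (D.M.rad e')) := lt_min hη (lt_min h0 h0')
  filter_upwards [ball_mem_nhds (D.M.pr e) hpos] with x hx
  rw [mem_ball, dist_eq_norm] at hx
  have h1 := hW (x - D.M.pr e) (hx.trans_le (min_le_left _ _))
  rw [hFW _ (hx.trans_le ((min_le_right _ _).trans (min_le_left _ _))),
    hFW' _ (hx.trans_le ((min_le_right _ _).trans (min_le_right _ _))), ← hpr] at h1
  simpa using h1

theorem exc_local {l₁ l₂ : List ℂ} (hsum : l₁.sum = l₂.sum) {p₀ : ℂ × ℂ}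
    (hp₀ : p₀ ∈ D.excS hP hQ l₁ l₂) :
    ∃ ε > 0, ∃ (f : ℂ → ℂ) (a : ℂ) (r R : ℝ), 0 < r ∧ r < R ∧ DifferentiableOn ℂ f (ball a R) ∧
      ∀ p ∈ D.excS hP hQ l₁ l₂, p ∈ ball p₀ ε → p.1 ∈ closedBall a r ∧ p.2 = f p.1 := by
  obtain ⟨hp, hv₁, hv₂, hkap, hne⟩ := hp₀
  set e₀ := D.base hP hQ p₀ hp with he₀
  set e₁ := excWalk D.M e₀ l₁ with he₁
  set e₂ := excWalk D.M e₀ l₂ with he₂
  set k := D.exck hP hQ p₀ hp with hk
  have hkt : Tendsto k (𝓝 0) (𝓝 0) := D.exck_tendsto hP hQ p₀ hp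
  have hr₀ := D.M.rad_pos e₀
  have hr₁ := D.M.rad_pos e₁
  have hr₂ := D.M.rad_pos e₂
  have hpr : D.M.pr e₁ = D.M.pr e₂ := by
    rw [he₁, he₂, exc_pr_walk D.M l₁ e₀ hv₁, exc_pr_walk D.M l₂ e₀ hv₂, hsum]
  obtain ⟨η₁, hη₁, hc₁⟩ := exc_commute D.M l₁ e₀ hv₁
  obtain ⟨η₂, hη₂, hc₂⟩ := exc_commute D.M l₂ e₀ hv₂
  obtain ⟨η₃, hη₃, hL₁⟩ := D.excLC_walk hP hQ hkt l₁ e₀ (D.excLC_base hP hQ p₀ hp) hv₁
  obtain ⟨η₄, hη₄, hL₂⟩ := D.excLC_walk hP hQ hkt l₂ e₀ (D.excLC_base hP hQ p₀ hp) hv₂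
  -- the function `D`
  set Δ : ℂ → ℂ := fun t => D.W (D.M.tr e₁ (0, (0, t))) - D.W (D.M.tr e₂ (0, (0, t))) with hΔ
  have hdiff : ∀ e : D.M.carrier, AnalyticAt ℂ (fun t : ℂ => D.W (D.M.tr e (0, (0, t)))) 0 := by
    intro e
    have h1 : DifferentiableOn ℂ (fun t : ℂ => D.W (D.M.tr e (0, (0, t)))) (ball 0 (D.M.rad e)) := by
      refine (D.exc_differentiableOn e).comp (g := fun v => D.W (D.M.tr e v))
        (f := fun t : ℂ => ((0, (0, t)) : ℂ × ℂ × ℂ)) (by fun_prop) ?_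
      intro t ht
      rw [mem_ball_zero_iff] at ht ⊢
      rwa [exc_norm_left, exc_norm_left']
    exact h1.analyticAt (ball_mem_nhds 0 (D.M.rad_pos e))
  have hΔa : AnalyticAt ℂ Δ 0 := (hdiff e₁).sub (hdiff e₂)
  have hΔ0 : ¬ ∀ᶠ t in 𝓝 (0 : ℂ), Δ t = 0 := by
    intro hcon
    apply hne
    obtain ⟨τ, hτ, hτ'⟩ := Metric.eventually_nhds_iff.1 hcon
    obtain ⟨η₅, hη₅, hk'⟩ := Metric.eventually_nhds_iff.1 (hkt (ball_mem_nhds 0 hτ))
    refine D.exc_eq_of_W hpr (η := min (min η₃ η₄) (min η₅ (min (D.M.rad e₁) (D.M.rad e₂))))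
      (by positivity) ?_
    rintro ⟨ζ, h⟩ hv
    have hζ : ‖ζ‖ ≤ ‖((ζ, h) : ℂ × ℂ × ℂ)‖ := le_max_left _ _
    have hh : ‖h‖ ≤ ‖((ζ, h) : ℂ × ℂ × ℂ)‖ := le_max_right _ _
    have i3 : ‖h‖ < η₃ :=
      hh.trans_lt (hv.trans_le ((min_le_left _ _).trans (min_le_left _ _)))
    have i4 : ‖h‖ < η₄ :=
      hh.trans_lt (hv.trans_le ((min_le_left _ _).trans (min_le_right _ _)))
    have i5 : ‖h‖ < η₅ :=
      hh.trans_lt (hv.trans_le ((min_le_right _ _).trans (min_le_left _ _)))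
    have i6 : ‖ζ‖ < min (D.M.rad e₁) (D.M.rad e₂) :=
      hζ.trans_lt (hv.trans_le ((min_le_right _ _).trans (min_le_right _ _)))
    obtain ⟨a1, a2, a3⟩ := hL₁ h i3
    obtain ⟨b1, b2, b3⟩ := hL₂ h i4
    have hkh : ‖k h‖ < τ := by simpa using hk' (y := h) (by simpa using i5)
    have hD : Δ (k h) = 0 := hτ' (by simpa using hkh)
    have hD' : D.W (D.M.tr e₁ (0, (0, k h))) = D.W (D.M.tr e₂ (0, (0, k h))) := sub_eq_zero.1 hD
    exact D.exc_uniq hP hQ (by rw [hpr]) (min_le_left _ _) (min_le_right _ _) a1 b1 (ζ₀ := 0)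
      (by simpa using lt_min hr₁ hr₂) (by rw [a3, b3, hD']) i6
  have hΔ1 : ∀ᶠ t in 𝓝[≠] (0 : ℂ), Δ t ≠ 0 :=
    (hΔa.eventually_eq_zero_or_eventually_ne_zero).resolve_left hΔ0
  obtain ⟨τ, hτ, hτ'⟩ := Metric.eventually_nhds_iff.1 (eventually_nhdsWithin_iff.1 hΔ1)
  obtain ⟨η₅, hη₅, hk'⟩ := Metric.eventually_nhds_iff.1 (hkt (ball_mem_nhds 0 hτ))
  have hf : DifferentiableOn ℂ (fun z => D.W (D.M.tr e₀ (z - p₀.1, 0))) (ball p₀.1 (D.M.rad e₀)) := by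
    refine (D.exc_differentiableOn e₀).comp (g := fun v => D.W (D.M.tr e₀ v))
      (f := fun z : ℂ => ((z - p₀.1, 0) : ℂ × ℂ × ℂ)) (by fun_prop) ?_
    intro z hz
    rw [mem_ball, dist_eq_norm] at hz
    rw [mem_ball_zero_iff, exc_norm_zero_right]
    exact hz
  refine ⟨min (min (min η₁ η₂) (min η₃ η₄)) (min (min η₅ (D.M.rad e₀ / 2))
    (min (D.M.rad e₁) (D.M.rad e₂))), by positivity, _, p₀.1, D.M.rad e₀ / 2, D.M.rad e₀,
    by positivity, by linarith, hf, ?_⟩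
  intro p hpS hpb
  obtain ⟨h, rfl⟩ : ∃ h, p = p₀ + h := ⟨p - p₀, by abel⟩
  rw [mem_ball, dist_eq_norm, add_sub_cancel_left] at hpb
  obtain ⟨hp', hw₁, hw₂, hkap', -⟩ := hpS
  have j1 : ‖h‖ < η₁ := hpb.trans_le
    ((min_le_left _ _).trans ((min_le_left _ _).trans (min_le_left _ _)))
  have j2 : ‖h‖ < η₂ := hpb.trans_le
    ((min_le_left _ _).trans ((min_le_left _ _).trans (min_le_right _ _)))
  have j3 : ‖h‖ < η₃ := hpb.trans_le
    ((min_le_left _ _).trans ((min_le_right _ _).trans (min_le_left _ _)))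
  have j4 : ‖h‖ < η₄ := hpb.trans_le
    ((min_le_left _ _).trans ((min_le_right _ _).trans (min_le_right _ _)))
  have j5 : ‖h‖ < η₅ := hpb.trans_le
    ((min_le_right _ _).trans ((min_le_left _ _).trans (min_le_left _ _)))
  have j6 : ‖h‖ < D.M.rad e₀ / 2 := hpb.trans_le
    ((min_le_right _ _).trans ((min_le_left _ _).trans (min_le_right _ _)))
  have j7 : ‖h‖ < min (D.M.rad e₁) (D.M.rad e₂) := hpb.trans_le
    ((min_le_right _ _).trans (min_le_right _ _))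
  have hh1 : ‖h.1‖ ≤ ‖h‖ := le_max_left _ _
  have hnv : ‖((h.1, h) : ℂ × ℂ × ℂ)‖ = ‖h‖ := by
    rw [Prod.norm_def]; exact max_eq_right hh1
  obtain ⟨hp'', hb⟩ := D.base_add hP hQ p₀ hp h (by linarith)
  have hkap2 : D.W (D.M.tr e₁ (h.1, h)) = D.W (D.M.tr e₂ (h.1, h)) := by
    have e1 := (hc₁ (h.1, h) (by rwa [hnv])).2
    have e2 := (hc₂ (h.1, h) (by rwa [hnv])).2
    rw [← e1, ← e2]
    have e3 : D.M.tr e₀ (h.1, h) = D.base hP hQ (p₀ + h) hp' := hb.symm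
    rw [e3]
    exact congrArg Prod.snd hkap'
  obtain ⟨a1, a2, a3⟩ := hL₁ h j3
  obtain ⟨b1, b2, b3⟩ := hL₂ h j4
  have h0 := D.exc_uniq hP hQ (by rw [hpr]) (min_le_left (D.M.rad e₁) (D.M.rad e₂))
    (min_le_right _ _) a1 b1 (ζ₀ := h.1) (hh1.trans_lt j7) hkap2 (ζ := 0)
    (by simpa using lt_min hr₁ hr₂)
  rw [a3, b3] at h0
  have hkh : ‖k h‖ < τ := by simpa using hk' (y := h) (by simpa using j5)
  have hk0 : k h = 0 := by
    by_contra hcon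
    exact hτ' (by simpa using hkh) hcon (sub_eq_zero.2 h0)
  have hW0 : D.W (D.M.tr e₀ (0, h)) = D.W (D.M.tr e₀ (0, 0)) := by
    have e1 : D.W (D.M.tr e₀ (0, h)) = p₀.2 := by
      have : k h = D.W (D.M.tr e₀ (0, h)) - p₀.2 := rfl
      rw [this] at hk0
      exact sub_eq_zero.1 hk0
    have e2 : D.W (D.M.tr e₀ (0, 0)) = p₀.2 := by
      have : ((0, 0) : ℂ × ℂ × ℂ) = 0 := rfl
      rw [this, D.M.tr_zero, he₀, D.W_base hP hQ]
    rw [e1, e2]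
  have h5 := D.exc_uniq hP hQ rfl (le_refl (D.M.rad e₀)) le_rfl (h := h) (h' := 0)
    (by linarith) (by simpa using hr₀) (ζ₀ := 0) (by simpa using hr₀) hW0 (ζ := h.1) (by linarith)
  have h6 := D.exc_W_base_add hP hQ p₀ hp (v := h) (by linarith)
  refine ⟨?_, ?_⟩
  · rw [mem_closedBall, dist_eq_norm]
    simp only [Prod.fst_add, add_sub_cancel_left]
    linarith
  · rw [← h6, ← he₀, h5]
    simp

/-! ### countability -/

theorem exc_walks {p : ℂ × ℂ} (hp : p ∈ D.Exc hP hQ) : ∃ (hp : P p ≠ 0) (l₁ l₂ : List ℂ),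
    excValid D.M (D.base hP hQ p hp) l₁ ∧ excValid D.M (D.base hP hQ p hp) l₂ ∧
    D.W (excWalk D.M (D.base hP hQ p hp) l₁) = D.W (excWalk D.M (D.base hP hQ p hp) l₂) ∧
    D.M.pr (excWalk D.M (D.base hP hQ p hp) l₁) = D.M.pr (excWalk D.M (D.base hP hQ p hp) l₂) ∧
    excWalk D.M (D.base hP hQ p hp) l₁ ≠ excWalk D.M (D.base hP hQ p hp) l₂ := by
  obtain ⟨hp, y, y', hy, hy', hkap, hne⟩ := hp
  obtain ⟨l₁, hv₁, hw₁⟩ := exc_walk_of_reach D.M hy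
  obtain ⟨l₂, hv₂, hw₂⟩ := exc_walk_of_reach D.M hy'
  refine ⟨hp, l₁, l₂, hv₁, hv₂, ?_, ?_, ?_⟩
  · rw [hw₁, hw₂]; exact congrArg Prod.snd hkap
  · rw [hw₁, hw₂]
    have h1 : (D.kap y.1).1 = (D.kap y'.1).1 := by rw [hkap]
    exact Prod.ext h1 (y.2.trans y'.2.symm)
  · rw [hw₁, hw₂]
    exact fun h => hne (Subtype.ext h)

theorem exc_mem {A : Set ℂ} (hA : Dense A) {p : ℂ × ℂ} (hp : p ∈ D.Exc hP hQ) :
    ∃ L₁ L₂ : List ℂ, (∀ x ∈ L₁, x ∈ A) ∧ (∀ x ∈ L₂, x ∈ A) ∧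
      p ∈ D.excS hP hQ L₁ (L₂ ++ [L₁.sum - L₂.sum]) := by
  obtain ⟨hp, l₁, l₂, hv₁, hv₂, hkap2, hpr, hne'⟩ := D.exc_walks hP hQ hp
  set e := D.base hP hQ p hp with he
  set y := excWalk D.M e l₁ with hy
  set y' := excWalk D.M e l₂ with hy'
  have hkap1 : (D.M.pr y).1 = (D.M.pr y').1 := by rw [hpr]
  have hr₁ := D.M.rad_pos y
  have hr₂ := D.M.rad_pos y'
  set ρ := min (D.M.rad y) (D.M.rad y') with hρ
  have hρ0 : 0 < ρ := lt_min hr₁ hr₂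
  have hρ1 : ρ ≤ D.M.rad y := min_le_left _ _
  have hρ2 : ρ ≤ D.M.rad y' := min_le_right _ _
  obtain ⟨L₁, hL₁A, hL₁v, δ₁, hδ₁, hδ₁', hL₁w⟩ := exc_approx D.M hA e l₁ hv₁ (ρ / 4) (by positivity)
  obtain ⟨L₂, hL₂A, hL₂v, δ₂, hδ₂, hδ₂', hL₂w⟩ := exc_approx D.M hA e l₂ hv₂ (ρ / 4) (by positivity)
  -- the sums
  have s1 : D.M.pr e + (L₁.sum, 0) = D.M.pr y + (δ₁, 0) := by
    rw [← exc_pr_walk D.M L₁ e hL₁v, hL₁w, D.M.pr_tr _ _ (by rwa [exc_norm_zero_right])]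
  have s2 : D.M.pr e + (L₂.sum, 0) = D.M.pr y' + (δ₂, 0) := by
    rw [← exc_pr_walk D.M L₂ e hL₂v, hL₂w, D.M.pr_tr _ _ (by rwa [exc_norm_zero_right])]
  have s3 : L₁.sum - L₂.sum = δ₁ - δ₂ := by
    have t1 := congrArg Prod.fst s1
    have t2 := congrArg Prod.fst s2
    simp only [Prod.fst_add] at t1 t2
    rw [hkap1] at t1
    linear_combination t1 - t2
  have hd2 : ‖((δ₂, 0) : ℂ × ℂ × ℂ)‖ < D.M.rad y' := by rwa [exc_norm_zero_right]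
  have hr3 := D.M.rad_tr y' (δ₂, 0) hd2
  rw [exc_norm_zero_right] at hr3
  have hs : ‖δ₁ - δ₂‖ < D.M.rad (D.M.tr y' (δ₂, 0)) := by
    have := norm_sub_le δ₁ δ₂
    linarith
  have hw2 : excWalk D.M e (L₂ ++ [L₁.sum - L₂.sum]) = D.M.tr y' (δ₁, 0) := by
    rw [excWalk_append, hL₂w, s3]
    show D.M.tr (D.M.tr y' (δ₂, 0)) (δ₁ - δ₂, 0) = _
    have e1 : ((δ₂, 0) : ℂ × ℂ × ℂ) + (δ₁ - δ₂, 0) = (δ₁, 0) := by ext <;> simp
    rw [D.M.tr_tr y' (δ₂, 0) (δ₁ - δ₂, 0) hd2 (by rwa [exc_norm_zero_right])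
      (by rw [e1, exc_norm_zero_right]; linarith), e1]
  refine ⟨L₁, L₂, hL₁A, hL₂A, hp, hL₁v, ?_, ?_, ?_⟩
  · rw [excValid_append]
    refine ⟨hL₂v, ?_, trivial⟩
    rw [hL₂w, s3]; exact hs
  · rw [hw2, hL₁w]
    have hn1 : ‖((δ₁, 0) : ℂ × ℂ × ℂ)‖ < D.M.rad y := by
      rw [exc_norm_zero_right]; exact hδ₁'
    have hn2 : ‖((δ₁, 0) : ℂ × ℂ × ℂ)‖ < D.M.rad y' := by
      rw [exc_norm_zero_right]; linarith
    refine Prod.ext ?_ ?_
    · show (D.M.pr _).1 = (D.M.pr _).1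
      rw [D.M.pr_tr _ _ hn1, D.M.pr_tr _ _ hn2, hpr]
    · show D.W _ = D.W _
      refine D.exc_uniq hP hQ hkap1 hρ1 hρ2 (by simpa using hr₁) (by simpa using hr₂)
        (ζ₀ := 0) (by simpa using hρ0) ?_ (by linarith)
      have h0 : ((0, 0) : ℂ × ℂ × ℂ) = 0 := rfl
      rw [h0, D.M.tr_zero, D.M.tr_zero, hkap2]
  · rw [hw2, hL₁w]
    intro hcon
    exact hne' (D.M.inj y y' (δ₁, 0) hpr (by rw [exc_norm_zero_right]; linarith)
      (by rw [exc_norm_zero_right]; linarith) hcon)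

/-- a point set covered by a graph over a disc -/
def excGraph (g : (ℂ → ℂ) × ℂ × ℝ × ℝ) : Set (ℂ × ℂ) :=
  {q : ℂ × ℂ | q.1 ∈ closedBall g.2.1 g.2.2.1 ∧ q.2 = g.1 q.1}

/-- admissible graphs -/
def excOK (g : (ℂ → ℂ) × ℂ × ℝ × ℝ) : Prop :=
  0 < g.2.2.1 ∧ g.2.2.1 < g.2.2.2 ∧ DifferentiableOn ℂ g.1 (ball g.2.1 g.2.2.2)

theorem exc_cover {l₁ l₂ : List ℂ} (hsum : l₁.sum = l₂.sum) :
    ∃ C : Set ((ℂ → ℂ) × ℂ × ℝ × ℝ), C.Countable ∧ (∀ g ∈ C, excOK g) ∧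
      D.excS hP hQ l₁ l₂ ⊆ ⋃ g ∈ C, excGraph g := by
  have h1 : ∀ p₀ : ℂ × ℂ, ∃ ε : ℝ, ∃ g : (ℂ → ℂ) × ℂ × ℝ × ℝ, p₀ ∈ D.excS hP hQ l₁ l₂ → 0 < ε ∧
      excOK g ∧ ∀ p ∈ D.excS hP hQ l₁ l₂, p ∈ ball p₀ ε → p ∈ excGraph g := by
    intro p₀
    by_cases hp₀ : p₀ ∈ D.excS hP hQ l₁ l₂
    · obtain ⟨ε, hε, f, a, r, R, hr, hrR, hf, H⟩ := D.exc_local hP hQ hsum hp₀
      exact ⟨ε, (f, a, r, R), fun _ => ⟨hε, ⟨hr, hrR, hf⟩, H⟩⟩
    · exact ⟨1, (0, 0, 1, 2), fun h => absurd h hp₀⟩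
  choose ε g hg using h1
  obtain ⟨t, hts, htc, ht⟩ := TopologicalSpace.countable_cover_nhdsWithin
    (f := fun p => ball p (ε p)) (s := D.excS hP hQ l₁ l₂)
    (fun p hp => mem_nhdsWithin_of_mem_nhds (ball_mem_nhds p (hg p hp).1))
  refine ⟨g '' t, htc.image g, ?_, ?_⟩
  · rintro _ ⟨p, hp, rfl⟩
    exact (hg p (hts hp)).2.1
  · intro p hp
    obtain ⟨p₀, hp₀, hp₀'⟩ := mem_iUnion₂.1 (ht hp)
    exact mem_iUnion₂.2 ⟨g p₀, mem_image_of_mem _ hp₀, (hg p₀ (hts hp₀)).2.2 p hp hp₀'⟩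

/-- The exceptional set is covered by countably many graphs over discs. -/
theorem exc_subset : ∃ (f : ℕ → ℂ → ℂ) (a : ℕ → ℂ) (r R : ℕ → ℝ),
    (∀ n, 0 < r n ∧ r n < R n ∧ DifferentiableOn ℂ (f n) (ball (a n) (R n))) ∧
    D.Exc hP hQ ⊆ ⋃ n, {q : ℂ × ℂ | q.1 ∈ closedBall (a n) (r n) ∧ q.2 = f n q.1} := by
  have hsum : ∀ L : List ℂ × List ℂ, L.1.sum = (L.2 ++ [L.1.sum - L.2.sum]).sum := by
    intro L; simp
  choose C hCc hCok hCcov using fun L : List ℂ × List ℂ => D.exc_cover hP hQ (hsum L)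
  let τ : List ℕ → List ℂ := List.map (TopologicalSpace.denseSeq ℂ)
  let B : Set ((ℂ → ℂ) × ℂ × ℝ × ℝ) :=
    (⋃ m : List ℕ × List ℕ, C (τ m.1, τ m.2)) ∪ {((0 : ℂ → ℂ), (0 : ℂ), (1 : ℝ), (2 : ℝ))}
  have hBc : B.Countable := (countable_iUnion fun m => hCc _).union (countable_singleton _)
  have hBn : B.Nonempty := ⟨_, Or.inr rfl⟩
  have hBok : ∀ g ∈ B, excOK g := by
    rintro g (hg | hg)
    · obtain ⟨m, hm⟩ := mem_iUnion.1 hg
      exact hCok _ g hm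
    · rw [mem_singleton_iff.1 hg]
      exact ⟨by norm_num, by norm_num, (differentiable_const (0 : ℂ)).differentiableOn⟩
  have hlift : ∀ L : List ℂ, (∀ x ∈ L, x ∈ range (TopologicalSpace.denseSeq ℂ)) →
      ∃ m : List ℕ, τ m = L := by
    intro L hL
    induction L with
    | nil => exact ⟨[], rfl⟩
    | cons x L ih =>
      obtain ⟨m, hm⟩ := ih fun y hy => hL y (List.mem_cons_of_mem _ hy)
      obtain ⟨n, hn⟩ := hL x List.mem_cons_self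
      exact ⟨n :: m, by simp only [τ, List.map_cons] at hm ⊢; rw [hn, hm]⟩
  obtain ⟨G, hG⟩ := hBc.exists_eq_range hBn
  have hGok : ∀ n, excOK (G n) := fun n => hBok _ (by rw [hG]; exact mem_range_self n)
  refine ⟨fun n => (G n).1, fun n => (G n).2.1, fun n => (G n).2.2.1, fun n => (G n).2.2.2,
    fun n => hGok n, ?_⟩
  intro p hp
  obtain ⟨L₁, L₂, h1, h2, h3⟩ := D.exc_mem hP hQ (TopologicalSpace.denseRange_denseSeq ℂ) hp
  obtain ⟨m₁, hm₁⟩ := hlift L₁ h1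
  obtain ⟨m₂, hm₂⟩ := hlift L₂ h2
  obtain ⟨g, hg, hpg⟩ := mem_iUnion₂.1 (hCcov (L₁, L₂) h3)
  have hgB : g ∈ B := Or.inl (mem_iUnion.2 ⟨(m₁, m₂), by rw [hm₁, hm₂]; exact hg⟩)
  rw [hG] at hgB
  obtain ⟨n, rfl⟩ := hgB
  exact mem_iUnion.2 ⟨n, hpg⟩

end SolDomain

end Pool.Agent.ParLeaf
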