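import Pool.Agent.H.MP_3a36cd_an.Germ1

/-! MP_3a36cd_an, module Germ3: the base section, the fibres. -/

open Set Metric Filter Topology Complex

namespace Pool.Agent.ParLeaf

/-- the flow is determined by the initial condition -/
theorem germ3_unique {P Q : ℂ × ℂ → ℂ} (hP : Differentiable ℂ P) (hQ : Differentiable ℂ Q)
    {q : ℂ × ℂ} {r : ℝ} {F G : ℂ × ℂ × ℂ → ℂ} (hF : IsSol P Q F (ball (q.1, q) r))
    (hG : IsSol P Q G (ball (q.1, q) r)) (hF' : ∀ q' ∈ ball q r, F (q'.1, q') = q'.2)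
    (hG' : ∀ q' ∈ ball q r, G (q'.1, q') = q'.2) : EqOn F G (ball (q.1, q) r) := by
  rintro ⟨z, q'⟩ hy
  rw [← ball_prod_same] at hy
  obtain ⟨hz, hq'⟩ := hy
  have hmem : ∀ z' ∈ ball q.1 r, (z', q') ∈ ball (q.1, q) r := by
    intro z' hz'
    rw [← ball_prod_same]
    exact ⟨hz', hq'⟩
  have hq1 : q'.1 ∈ ball q.1 r := by
    rw [← ball_prod_same] at hq'
    exact hq'.1
  exact sol_unique hP hQ isOpen_ball (convex_ball q.1 r).isPreconnected
    (f := fun z => F (z, q')) (g := fun z => G (z, q'))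
    (fun z' hz' => hF.2 _ (hmem z' hz')) (fun z' hz' => hG.2 _ (hmem z' hz')) hq1
    ((hF' q' hq').trans (hG' q' hq').symm) hz

theorem germ3_norm (v : ℂ × ℂ) : ‖((v.1, v) : ℂ × ℂ × ℂ)‖ = ‖v‖ := by
  rw [Prod.norm_def]
  exact max_eq_right (norm_fst_le v)

namespace SolDomain

variable {P Q : ℂ × ℂ → ℂ} (D : SolDomain P Q)

/-- the germ at `(p.1, p)` of the solution with `F(z₁, z₁, w₁) = w₁` -/
noncomputable def base (hP : Differentiable ℂ P) (hQ : Differentiable ℂ Q) (p : ℂ × ℂ)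
    (hp : P p ≠ 0) : D.M.carrier :=
  D.germ (p.1, p) (exists_flow_local hP hQ hp).choose_spec.2.choose

variable (hP : Differentiable ℂ P) (hQ : Differentiable ℂ Q)

theorem pr_base (p : ℂ × ℂ) (hp : P p ≠ 0) : D.M.pr (D.base hP hQ p hp) = (p.1, p) :=
  D.pr_germ _ _ _ (exists_flow_local hP hQ hp).choose_spec.1
    (exists_flow_local hP hQ hp).choose_spec.2.choose_spec.1

theorem W_base (p : ℂ × ℂ) (hp : P p ≠ 0) : D.W (D.base hP hQ p hp) = p.2 := by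
  have h1 := (exists_flow_local hP hQ hp).choose_spec.1
  have h2 := (exists_flow_local hP hQ hp).choose_spec.2.choose_spec
  exact (D.W_germ _ _ _ h1 h2.1).trans (h2.2 p (mem_ball_self h1))

/-- the base point is the germ of any solution with the right initial condition -/
theorem germ3_base_eq (p : ℂ × ℂ) (hp : P p ≠ 0) {F : ℂ × ℂ × ℂ → ℂ} {r : ℝ} (hr : 0 < r)
    (hF : IsSol P Q F (ball (p.1, p) r)) (hF' : ∀ q ∈ ball p r, F (q.1, q) = q.2) :
    D.base hP hQ p hp = D.germ (p.1, p) F := by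
  have h1 := (exists_flow_local hP hQ hp).choose_spec.1
  have h2 := (exists_flow_local hP hQ hp).choose_spec.2.choose_spec
  set G := (exists_flow_local hP hQ hp).choose_spec.2.choose with hG
  set s := (exists_flow_local hP hQ hp).choose with hs
  have hm : 0 < min r s := lt_min hr h1
  have h3 : IsSol P Q F (ball (p.1, p) (min r s)) :=
    germ1_mono hF (ball_subset_ball (min_le_left _ _))
  have h4 : IsSol P Q G (ball (p.1, p) (min r s)) :=
    germ1_mono h2.1 (ball_subset_ball (min_le_right _ _))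
  have h5 := germ3_unique hP hQ h4 h3
    (fun q hq => h2.2 q (ball_subset_ball (min_le_right _ _) hq))
    (fun q hq => hF' q (ball_subset_ball (min_le_left _ _) hq))
  exact (D.germ_eq _ _ _ _ hm h4 h3).2 (Filter.eventually_of_mem (ball_mem_nhds _ hm) h5)

/-- the representative of the base point on the maximal ball -/
theorem germ3_base_rep (p : ℂ × ℂ) (hp : P p ≠ 0) : ∃ F : ℂ × ℂ × ℂ → ℂ,
    IsSol P Q F (ball (p.1, p) (D.M.rad (D.base hP hQ p hp))) ∧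
    D.germ (p.1, p) F = D.base hP hQ p hp ∧
    ∀ q ∈ ball p (D.M.rad (D.base hP hQ p hp)), F (q.1, q) = q.2 := by
  have h1 := (exists_flow_local hP hQ hp).choose_spec.1
  have h2 := (exists_flow_local hP hQ hp).choose_spec.2.choose_spec
  obtain ⟨F, hF, hg⟩ := D.exists_rep (D.base hP hQ p hp)
  rw [D.pr_base hP hQ p hp] at hF hg
  set ρ := D.M.rad (D.base hP hQ p hp) with hρ
  have hρ0 : 0 < ρ := D.M.rad_pos _
  refine ⟨F, hF, hg, ?_⟩
  set G := (exists_flow_local hP hQ hp).choose_spec.2.choose with hG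
  set s := (exists_flow_local hP hQ hp).choose with hs
  have hm : 0 < min ρ s := lt_min hρ0 h1
  have h3 : IsSol P Q F (ball (p.1, p) (min ρ s)) :=
    germ1_mono hF (ball_subset_ball (min_le_left _ _))
  have h4 : IsSol P Q G (ball (p.1, p) (min ρ s)) :=
    germ1_mono h2.1 (ball_subset_ball (min_le_right _ _))
  have h5 : F =ᶠ[𝓝 (p.1, p)] G := (D.germ_eq _ _ _ _ hm h3 h4).1 hg
  have hc : Continuous (fun q : ℂ × ℂ => ((q.1, q) : ℂ × ℂ × ℂ)) := by fun_prop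
  have h6 : (fun q : ℂ × ℂ => F (q.1, q)) =ᶠ[𝓝 p] (fun q : ℂ × ℂ => q.2) := by
    have h7 : Filter.Tendsto (fun q : ℂ × ℂ => ((q.1, q) : ℂ × ℂ × ℂ)) (𝓝 p) (𝓝 (p.1, p)) :=
      hc.tendsto' _ _ rfl
    have h8 : ∀ᶠ q in 𝓝 p, F (q.1, q) = G (q.1, q) := h7.eventually h5
    filter_upwards [h8, ball_mem_nhds p h1] with q hq hq'
    rw [hq]
    exact h2.2 q hq'
  have hmaps : MapsTo (fun q : ℂ × ℂ => ((q.1, q) : ℂ × ℂ × ℂ)) (ball p ρ) (ball (p.1, p) ρ) := by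
    intro q hq
    rw [← ball_prod_same]
    refine ⟨?_, hq⟩
    rw [← ball_prod_same] at hq
    exact hq.1
  have hd : DifferentiableOn ℂ (fun q : ℂ × ℂ => F (q.1, q)) (ball p ρ) := by
    refine hF.1.comp (f := fun q : ℂ × ℂ => ((q.1, q) : ℂ × ℂ × ℂ)) ?_ hmaps
    exact (by fun_prop : Differentiable ℂ (fun q : ℂ × ℂ => ((q.1, q) : ℂ × ℂ × ℂ))).differentiableOn
  have hd' : DifferentiableOn ℂ (fun q : ℂ × ℂ => q.2) (ball p ρ) :=
    differentiable_snd.differentiableOn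
  exact scv_identity isOpen_ball (convex_ball p ρ) hd hd' (mem_ball_self hρ0) h6

theorem base_add (p : ℂ × ℂ) (hp : P p ≠ 0) (v : ℂ × ℂ) (hv : ‖v‖ < D.M.rad (D.base hP hQ p hp)) :
    ∃ h : P (p + v) ≠ 0, D.base hP hQ (p + v) h = D.M.tr (D.base hP hQ p hp) (v.1, v) := by
  obtain ⟨F, hF, hg, hF'⟩ := D.germ3_base_rep hP hQ p hp
  have hle : D.M.rad (D.base hP hQ p hp) ≤ 1 := D.rad_le_one _
  set ρ := D.M.rad (D.base hP hQ p hp) with hρ
  have hρ0 : 0 < ρ := D.M.rad_pos _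
  have hq : p + v ∈ ball p ρ := by
    rw [mem_ball, dist_eq_norm, add_sub_cancel_left]; exact hv
  have hq2 : (((p + v).1, p + v) : ℂ × ℂ × ℂ) ∈ ball (p.1, p) ρ := by
    have : (((p + v).1, p + v) : ℂ × ℂ × ℂ) = (p.1, p) + (v.1, v) := rfl
    rw [this]
    exact germ1_mem_ball (by rwa [germ3_norm])
  have h1 : F ((p + v).1, p + v) = (p + v).2 := hF' _ hq
  have hPq : P (p + v) ≠ 0 := by
    have := (hF.2 _ hq2).1
    simp only at this
    rw [h1] at this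
    exact this
  refine ⟨hPq, ?_⟩
  have h2 : D.M.tr (D.base hP hQ p hp) (v.1, v) = D.germ ((p + v).1, p + v) F := by
    rw [← hg, D.tr_germ _ _ ρ hρ0 hle hF (v.1, v) (by rwa [germ3_norm])]
    rfl
  rw [h2]
  have hs : 0 < ρ - ‖v‖ := by linarith
  refine D.germ3_base_eq hP hQ _ hPq hs ?_ ?_
  · refine germ1_mono hF ?_
    have h3 := germ1_ball_sub (x := ((p.1, p) : ℂ × ℂ × ℂ)) (v := (v.1, v)) (r := ρ)
    rw [germ3_norm] at h3
    exact h3
  · intro q' hq'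
    refine hF' q' (ball_subset_ball' ?_ hq')
    rw [dist_eq_norm, add_sub_cancel_left]
    linarith

theorem rad_base (a : ℂ × ℂ) : ∃ r > 0, ∃ c > 0, ∀ p ∈ ball a r, ∀ hp : P p ≠ 0,
    c * ‖P p‖ ^ 2 ≤ D.M.rad (D.base hP hQ p hp) := by
  obtain ⟨r, hr, c, hc, h⟩ := exists_flow_quant hP hQ a
  refine ⟨r, hr, c, hc, fun p hpa hp => ?_⟩
  obtain ⟨hle, F, hF, hF'⟩ := h p hpa hp
  have hpos : 0 < c * ‖P p‖ ^ 2 := by
    have : 0 < ‖P p‖ := norm_pos_iff.2 hp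
    positivity
  rw [D.germ3_base_eq hP hQ p hp hpos hF hF']
  exact D.rad_germ _ _ _ hpos hle hF

/-- the solution of the equation represented by a point of the fibre -/
theorem sol_fib {p : ℂ × ℂ} (y : (D.M.Fib p).carrier) :
    ∀ ζ ∈ ball (0 : ℂ) (D.M.rad y.1),
      P ((D.M.pr y.1).1 + ζ, D.W ((D.M.Fib p).tr y ζ).1) ≠ 0 ∧
      HasDerivAt (fun ξ : ℂ => D.W ((D.M.Fib p).tr y ξ).1)
        (Q ((D.M.pr y.1).1 + ζ, D.W ((D.M.Fib p).tr y ζ).1) /
          P ((D.M.pr y.1).1 + ζ, D.W ((D.M.Fib p).tr y ζ).1)) ζ := by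
  obtain ⟨F, hF, hg⟩ := D.exists_rep y.1
  have hle : D.M.rad y.1 ≤ 1 := D.rad_le_one _
  set ρ := D.M.rad y.1 with hρ
  set x := D.M.pr y.1 with hx
  have hρ0 : 0 < ρ := D.M.rad_pos _
  have hW : ∀ ζ ∈ ball (0 : ℂ) ρ, D.W ((D.M.Fib p).tr y ζ).1 = F (x.1 + ζ, x.2) := by
    intro ζ hζ
    have hζ' : ‖ζ‖ < ρ := by simpa using hζ
    have hn : ‖((ζ, 0) : ℂ × ℂ × ℂ)‖ = ‖ζ‖ := RD.norm_fst ζ
    rw [RD.fib_tr_val D.M p y hζ', ← hg, D.tr_germ x F ρ hρ0 hle hF (ζ, 0) (by rwa [hn]),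
      D.W_germ (x + (ζ, 0)) F (ρ - ‖ζ‖) (by linarith)
        (germ1_mono hF (by
          have h3 := germ1_ball_sub (x := x) (v := ((ζ, 0) : ℂ × ℂ × ℂ)) (r := ρ)
          rwa [hn] at h3))]
    congr 1
    ext <;> simp
  intro ζ hζ
  have hζ' : ‖ζ‖ < ρ := by simpa using hζ
  have hmem : ((x.1 + ζ, x.2) : ℂ × ℂ × ℂ) ∈ ball x ρ := by
    have : ((x.1 + ζ, x.2) : ℂ × ℂ × ℂ) = x + (ζ, 0) := by ext <;> simp
    rw [this]
    exact germ1_mem_ball (by rwa [RD.norm_fst])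
  obtain ⟨h1, h2⟩ := hF.2 _ hmem
  rw [hW ζ hζ]
  refine ⟨h1, ?_⟩
  have h3 : HasDerivAt (fun ξ : ℂ => F (x.1 + ξ, x.2))
      (Q (x.1 + ζ, F (x.1 + ζ, x.2)) / P (x.1 + ζ, F (x.1 + ζ, x.2))) ζ := by
    have h4 : HasDerivAt (fun ξ : ℂ => x.1 + ξ) 1 ζ := (hasDerivAt_id ζ).const_add x.1
    have h5 := HasDerivAt.comp ζ (h₂ := fun z : ℂ => F (z, x.2)) h2 h4
    rw [mul_one] at h5
    exact h5
  refine h3.congr_of_eventuallyEq ?_
  exact Filter.eventually_of_mem (isOpen_ball.mem_nhds hζ) hW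

/-- the point of `ℂ²` under a germ -/
noncomputable def kap (e : D.M.carrier) : ℂ × ℂ := ((D.M.pr e).1, D.W e)

end SolDomain

end Pool.Agent.ParLeaf
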