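import Pool.Agent.H.MP_3a36cd_an.Leaves1
import Pool.Agent.H.MP_3a36cd_an.Germ3

/-! MP_3a36cd_an, module Leaves2: leaves and fibres of the Riemann domain of germs. -/

open Set Metric Filter Topology Complex

namespace Pool.Agent.ParLeaf

/-! ### The disc minus a countable set is connected -/

theorem leaves2_countable {Z B : Set ℂ} (hZ : Z ⊆ B)
    (h : ∀ s ∈ B, ∀ᶠ s' in 𝓝[≠] s, s' ∉ Z) : Z.Countable := by
  obtain ⟨t, -, htc, hcov⟩ := TopologicalSpace.countable_cover_nhdsWithin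
    (f := fun x : ℂ => ({x} : Set ℂ)) (s := Z) (by
      intro x hx
      have h1 := h x (hZ hx)
      rw [eventually_nhdsWithin_iff] at h1
      rw [mem_nhdsWithin_iff_eventually]
      filter_upwards [h1] with s' hs' hsZ
      by_contra hne
      exact hs' hne hsZ)
  refine htc.mono (hcov.trans ?_)
  intro x hx
  simp only [mem_iUnion, mem_singleton_iff, exists_prop] at hx
  obtain ⟨i, hi, rfl⟩ := hx
  exact hi

theorem leaves2_preconn (c : ℂ) {r : ℝ} (hr : 0 < r) {Z : Set ℂ} (hZ : Z.Countable) :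
    IsPreconnected (ball c r \ Z) := by
  have hsrc := OpenPartialHomeomorph.univBall_source (E := ℂ) c r
  have htgt := OpenPartialHomeomorph.univBall_target (E := ℂ) c hr
  set u := OpenPartialHomeomorph.univBall (E := ℂ) c r with hu
  have hinj : Function.Injective u := by
    intro x y hxy
    exact u.injOn (by rw [hsrc]; trivial) (by rw [hsrc]; trivial) hxy
  have hc : (u ⁻¹' Z).Countable := hZ.preimage hinj
  have h1 : IsPreconnected ((u ⁻¹' Z)ᶜ) :=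
    (hc.isConnected_compl_of_one_lt_rank (by
      rw [Complex.rank_real_complex]; exact_mod_cast Nat.one_lt_two)).isPreconnected
  have h2 : ball c r \ Z = u '' ((u ⁻¹' Z)ᶜ) := by
    ext x
    constructor
    · rintro ⟨hx, hxZ⟩
      have hx' : x ∈ u.target := by rw [htgt]; exact hx
      refine ⟨u.symm x, ?_, u.right_inv hx'⟩
      simp only [mem_compl_iff, mem_preimage, u.right_inv hx']
      exact hxZ
    · rintro ⟨y, hy, rfl⟩
      refine ⟨?_, hy⟩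
      rw [← htgt]
      exact u.map_source (by rw [hsrc]; trivial)
  rw [h2]
  exact h1.image _ (OpenPartialHomeomorph.continuous_univBall c r).continuousOn

/-! ### Paths of germs -/

theorem leaves2_path (R : RD ℂ) (γ : ℂ → R.carrier) {B : Set ℂ} (hB : Convex ℝ B) {η : ℝ}
    (hη : 0 < η) (hrad : ∀ z ∈ B, η ≤ R.rad (γ z))
    (htr : ∀ z ∈ B, ∀ v : ℂ, ‖v‖ < η → z + v ∈ B → R.tr (γ z) v = γ (z + v))
    {z z' : ℂ} (hz : z ∈ B) (hz' : z' ∈ B) : R.Reach (γ z) (γ z') := by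
  obtain ⟨N, hN⟩ := exists_nat_gt (‖z' - z‖ / η)
  have hN0 : (0 : ℝ) < N := lt_of_le_of_lt (div_nonneg (norm_nonneg _) hη.le) hN
  have hstep : ‖((1 / (N : ℝ) : ℝ) : ℂ) * (z' - z)‖ < η := by
    rw [norm_mul, Complex.norm_real, Real.norm_of_nonneg (by positivity)]
    rw [div_lt_iff₀ hη] at hN
    rw [div_mul_eq_mul_div, one_mul, div_lt_iff₀ hN0]
    linarith
  have key : ∀ k : ℕ, k ≤ N → R.Reach (γ z) (γ (z + ((k / (N : ℝ) : ℝ) : ℂ) * (z' - z))) := by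
    intro k
    induction k with
    | zero =>
      intro _
      simp only [Nat.cast_zero, zero_div, Complex.ofReal_zero, zero_mul, add_zero]
      exact Relation.ReflTransGen.refl
    | succ k ih =>
      intro hk
      have hmem : ∀ j : ℕ, j ≤ N → z + ((j / (N : ℝ) : ℝ) : ℂ) * (z' - z) ∈ B := by
        intro j hj
        have h1 : (j / (N : ℝ) : ℝ) ≤ 1 := by
          rw [div_le_one hN0]; exact_mod_cast hj
        have h2 := hB.add_smul_sub_mem hz hz' (t := (j / (N : ℝ) : ℝ)) ⟨by positivity, h1⟩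
        rwa [Complex.real_smul] at h2
      have hkm := hmem k (by omega)
      have hkm' := hmem (k + 1) hk
      have heq : z + (((k + 1 : ℕ) / (N : ℝ) : ℝ) : ℂ) * (z' - z) =
          z + ((k / (N : ℝ) : ℝ) : ℂ) * (z' - z) + ((1 / (N : ℝ) : ℝ) : ℂ) * (z' - z) := by
        push_cast
        ring
      refine (ih (by omega)).tail ⟨((1 / (N : ℝ) : ℝ) : ℂ) * (z' - z), ?_, ?_⟩
      · exact hstep.trans_le (hrad _ hkm)
      · rw [heq] at hkm' ⊢
        exact (htr _ hkm _ hstep hkm').symm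
  have := key N le_rfl
  rwa [div_self hN0.ne', Complex.ofReal_one, one_mul, add_sub_cancel] at this

namespace SolDomain

variable {P Q : ℂ × ℂ → ℂ} (D : SolDomain P Q) (hP : Differentiable ℂ P) (hQ : Differentiable ℂ Q)

theorem leaves2_kap_tr {p : ℂ × ℂ} (y : (D.M.Fib p).carrier) {ζ : ℂ}
    (hζ : ‖ζ‖ < D.M.rad y.1) :
    D.kap ((D.M.Fib p).tr y ζ).1 = ((D.M.pr y.1).1 + ζ, D.W ((D.M.Fib p).tr y ζ).1) := by
  unfold kap
  rw [RD.fib_tr_val D.M p y hζ, D.M.pr_tr y.1 (ζ, 0) (by rwa [RD.norm_fst])]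
  rfl

theorem leafDisc_fib {p : ℂ × ℂ} (y : (D.M.Fib p).carrier) :
    IsLeafDisc P Q (fun ζ => D.kap ((D.M.Fib p).tr y ζ).1) 0 (D.M.rad y.1) := by
  intro s hs
  have hs' : ‖s‖ < D.M.rad y.1 := by simpa using hs
  obtain ⟨h1, h2⟩ := D.sol_fib y s hs
  have hk := D.leaves2_kap_tr y hs'
  simp only
  rw [hk]
  refine ⟨fun h => h1 (congrArg Prod.fst h), (P ((D.M.pr y.1).1 + s,
    D.W ((D.M.Fib p).tr y s).1))⁻¹, inv_ne_zero h1, ?_⟩
  have h3 : HasDerivAt (fun ζ : ℂ => ((D.M.pr y.1).1 + ζ, D.W ((D.M.Fib p).tr y ζ).1))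
      ((P ((D.M.pr y.1).1 + s, D.W ((D.M.Fib p).tr y s).1))⁻¹ •
        (P ((D.M.pr y.1).1 + s, D.W ((D.M.Fib p).tr y s).1),
          Q ((D.M.pr y.1).1 + s, D.W ((D.M.Fib p).tr y s).1))) s := by
    have h4 : HasDerivAt (fun ζ : ℂ => (D.M.pr y.1).1 + ζ) 1 s :=
      (hasDerivAt_id s).const_add _
    have h5 := h4.prodMk h2
    refine h5.congr_deriv ?_
    ext
    · simp [inv_mul_cancel₀ h1]
    · simp [div_eq_inv_mul]
  refine h3.congr_of_eventuallyEq ?_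
  filter_upwards [isOpen_ball.mem_nhds hs] with ζ hζ
  exact D.leaves2_kap_tr y (by simpa using hζ)

theorem kap_base (p : ℂ × ℂ) (hp : P p ≠ 0) : D.kap (D.base hP hQ p hp) = p := by
  unfold kap
  rw [D.pr_base hP hQ, D.W_base hP hQ]

theorem kap_mem_leaf {e : D.M.carrier} {y : (D.M.Fib (D.M.pr e).2).carrier}
    (h : (D.M.Fib (D.M.pr e).2).Reach ⟨e, rfl⟩ y) : D.kap y.1 ∈ Leaf P Q (D.kap e) := by
  induction h with
  | refl => exact Relation.ReflTransGen.refl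
  | tail h1 h2 ih =>
    rename_i b c
    obtain ⟨v, hv, rfl⟩ := h2
    refine Relation.ReflTransGen.tail ih ?_
    refine ⟨_, _, _, D.leafDisc_fib b, ⟨0, ?_, ?_⟩, ⟨v, ?_, rfl⟩⟩
    · simpa using D.M.rad_pos b.1
    · exact congrArg (fun w : (D.M.Fib (D.M.pr e).2).carrier => D.kap w.1)
        ((D.M.Fib (D.M.pr e).2).tr_zero b)
    · rw [mem_ball_zero_iff]
      exact hv

include hP hQ in
/-- leaf discs near a point under `y` -/
theorem leafDisc_eq_kap {p : ℂ × ℂ} (y : (D.M.Fib p).carrier) {φ : ℂ → ℂ × ℂ} {c : ℂ} {r : ℝ}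
    (hφ : IsLeafDisc P Q φ c r) {s : ℂ} (hs : s ∈ ball c r) (h : φ s = D.kap y.1) :
    ∀ᶠ s' in 𝓝 s, φ s' = D.kap ((D.M.Fib p).tr y ((φ s').1 - (φ s).1)).1 := by
  have h0 : (0 : ℂ) ∈ ball (0 : ℂ) (D.M.rad y.1) := by simpa using D.M.rad_pos y.1
  obtain ⟨θ, a, ha, hθ, hθ0, hev⟩ := leafDisc_reparam hP hQ hφ (D.leafDisc_fib y) hs h0
    (h.trans (congrArg (fun w : (D.M.Fib p).carrier => D.kap w.1) ((D.M.Fib p).tr_zero y).symm))
  rw [← hθ0, ← hθ.map_nhds_eq ha, eventually_map]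
  filter_upwards [hev, isOpen_ball.mem_nhds h0] with x hx hxr
  rw [← hx]
  have hxr' : ‖x‖ < D.M.rad y.1 := by simpa using hxr
  have h1 : (D.kap ((D.M.Fib p).tr y x).1).1 = (D.M.pr y.1).1 + x := by
    rw [D.leaves2_kap_tr y hxr']
  have h2 : (φ (θ 0)).1 = (D.M.pr y.1).1 := by
    rw [hθ0, h]; rfl
  rw [h1, h2, add_sub_cancel_left]

/-- The heart of `exists_over`: if `y` lies over the local solution through `q` then `q` lies under a
point reachable from `y`. -/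
theorem leaves2_local (hP : Differentiable ℂ P) (hQ : Differentiable ℂ Q) {q : ℂ × ℂ} {ρ : ℝ}
    (hρ : 0 < ρ) {Φ : ℂ × ℂ × ℂ → ℂ} (hΦ : IsSol P Q Φ (ball (q.1, q) ρ))
    (hΦ0 : ∀ q' ∈ ball q ρ, Φ (q'.1, q') = q'.2) {p : ℂ × ℂ} (y : (D.M.Fib p).carrier)
    (hy : D.kap y.1 ∈ ball q ρ) (hy' : (D.kap y.1).2 = Φ ((D.kap y.1).1, q)) :
    ∃ y' : (D.M.Fib p).carrier, (D.M.Fib p).Reach y y' ∧ D.kap y'.1 = q := by
  classical
  obtain ⟨F', hF', hgerm⟩ := D.exists_rep y.1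
  have hrad := D.M.rad_pos y.1
  have hpr2 : (D.M.pr y.1).2 = p := y.2
  set z' : ℂ := (D.M.pr y.1).1 with hz'
  have hpr : D.M.pr y.1 = (z', p) := Prod.ext rfl hpr2
  rw [hpr] at hF' hgerm
  have hW : D.W y.1 = F' (z', p) := by
    rw [← hgerm]; exact D.W_germ _ _ _ hrad hF'
  have hkap : D.kap y.1 = (z', F' (z', p)) := by
    unfold kap; rw [hW]
  rw [hkap] at hy hy'
  simp only at hy'
  have hq0 : q ∈ ball q ρ := mem_ball_self hρ
  -- distances in the product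
  have hmem3 : ∀ x : ℂ × ℂ × ℂ, x ∈ ball (q.1, q) ρ ↔
      (dist x.1 q.1 < ρ ∧ dist x.2 q < ρ) := by
    intro x; rw [mem_ball, Prod.dist_eq, max_lt_iff]
  have hy12 : dist z' q.1 < ρ ∧ dist (F' (z', p)) q.2 < ρ := by
    have h := hy
    rw [mem_ball, Prod.dist_eq, max_lt_iff] at h
    exact h
  have hy1 : dist z' q.1 < ρ := hy12.1
  have hy2 : dist (F' (z', p)) q.2 < ρ := hy12.2
  -- choose δ
  have hcont : ContinuousAt (fun p' : ℂ × ℂ => F' (z', p')) p := by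
    have h1 : ContinuousAt F' (z', p) :=
      (hF'.1.continuousOn).continuousAt (isOpen_ball.mem_nhds (mem_ball_self hrad))
    exact ContinuousAt.comp (f := fun p' : ℂ × ℂ => (z', p')) h1 (by fun_prop)
  obtain ⟨δ₁, hδ₁, hδ₁'⟩ := Metric.mem_nhds_iff.1
    (hcont.preimage_mem_nhds (isOpen_ball.mem_nhds (show F' (z', p) ∈ ball q.2 ρ from hy2)))
  obtain ⟨δ, hδ, hδr, hδd⟩ : ∃ δ > 0, δ ≤ D.M.rad y.1 ∧ δ ≤ δ₁ :=
    ⟨min (D.M.rad y.1) δ₁, lt_min hrad hδ₁, min_le_left _ _, min_le_right _ _⟩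
  have hFδ : ∀ p' ∈ ball p δ, dist (F' (z', p')) q.2 < ρ := fun p' hp' =>
    hδ₁' (ball_subset_ball hδd hp')
  -- the transported solution
  set F : ℂ × ℂ × ℂ → ℂ := fun x => Φ (x.1, z', F' (z', x.2)) with hF
  set U : Set (ℂ × ℂ × ℂ) := {x | dist x.1 q.1 < ρ ∧ dist x.2 p < δ} with hU
  have hmapsU : ∀ x ∈ U, ((x.1, z', F' (z', x.2)) : ℂ × ℂ × ℂ) ∈ ball (q.1, q) ρ := by
    intro x hx
    rw [hmem3]
    refine ⟨hx.1, ?_⟩
    rw [Prod.dist_eq, max_lt_iff]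
    exact ⟨hy1, hFδ x.2 hx.2⟩
  have hmemF' : ∀ (z : ℂ) (p' : ℂ × ℂ), dist z z' < D.M.rad y.1 → dist p' p < D.M.rad y.1 →
      ((z, p') : ℂ × ℂ × ℂ) ∈ ball (z', p) (D.M.rad y.1) := by
    intro z p' h1 h2
    rw [mem_ball, Prod.dist_eq, max_lt_iff]
    exact ⟨h1, h2⟩
  have hSolU : IsSol P Q F U := by
    constructor
    · have h1 : DifferentiableOn ℂ (fun x : ℂ × ℂ × ℂ => F' (z', x.2)) U := by
        refine hF'.1.comp (f := fun x : ℂ × ℂ × ℂ => ((z', x.2) : ℂ × ℂ × ℂ))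
          (by fun_prop) ?_
        intro x hx
        exact hmemF' _ _ (by simpa using hrad) (hx.2.trans_le hδr)
      refine hΦ.1.comp (f := fun x : ℂ × ℂ × ℂ => ((x.1, z', F' (z', x.2)) : ℂ × ℂ × ℂ)) ?_ hmapsU
      exact (differentiable_fst.differentiableOn).prodMk ((differentiableOn_const _).prodMk h1)
    · intro x hx
      exact hΦ.2 _ (hmapsU x hx)
  -- solutions on small balls
  have hball : ∀ z : ℂ, dist z q.1 < ρ → ∀ η : ℝ, η ≤ δ → η ≤ ρ - dist z q.1 →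
      IsSol P Q F (ball (z, p) η) := by
    intro z hz η h1 h2
    have hsub : ball ((z, p) : ℂ × ℂ × ℂ) η ⊆ U := by
      intro x hx
      rw [mem_ball, Prod.dist_eq, max_lt_iff] at hx
      refine ⟨?_, hx.2.trans_le h1⟩
      calc dist x.1 q.1 ≤ dist x.1 z + dist z q.1 := dist_triangle _ _ _
        _ < ρ := by have := hx.1; simp only at this; linarith
    exact ⟨hSolU.1.mono hsub, fun x hx => hSolU.2 x (hsub hx)⟩
  set d : ℝ := dist z' q.1 with hd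
  obtain ⟨η, hη, hη1, hηδ, hηρ⟩ : ∃ η > 0, η ≤ 1 ∧ η ≤ δ ∧ η ≤ ρ - d := by
    refine ⟨min 1 (min δ (ρ - d)), lt_min one_pos (lt_min hδ (by linarith)), min_le_left _ _, ?_, ?_⟩
    · exact (min_le_right _ _).trans (min_le_left _ _)
    · exact (min_le_right _ _).trans (min_le_right _ _)
  have hball' : ∀ z ∈ closedBall q.1 d, IsSol P Q F (ball (z, p) η) := by
    intro z hz
    have hz1 : dist z q.1 ≤ d := hz
    exact hball z (by linarith) η hηδ (by linarith)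
  -- the path of germs
  let γ : ℂ → (D.M.Fib p).carrier := fun z =>
    if h : z ∈ closedBall q.1 d then
      ⟨D.germ (z, p) F, by rw [D.pr_germ _ _ _ hη (hball' z h)]⟩ else y
  have hγ : ∀ z ∈ closedBall q.1 d, (γ z).1 = D.germ (z, p) F := by
    intro z hz
    simp only [γ, dif_pos hz]
  have hz'B : z' ∈ closedBall q.1 d := by rw [mem_closedBall]
  have hqB : q.1 ∈ closedBall q.1 d := mem_closedBall_self dist_nonneg
  have hreach : (D.M.Fib p).Reach (γ z') (γ q.1) := by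
    refine leaves2_path (D.M.Fib p) γ (convex_closedBall q.1 d) hη ?_ ?_ hz'B hqB
    · intro z hz
      show η ≤ D.M.rad (γ z).1
      rw [hγ z hz]
      exact D.rad_germ _ _ _ hη hη1 (hball' z hz)
    · intro z hz v hv hzv
      apply Subtype.ext
      have h1 : ‖v‖ < D.M.rad (γ z).1 := by
        rw [hγ z hz]
        exact hv.trans_le (D.rad_germ _ _ _ hη hη1 (hball' z hz))
      rw [RD.fib_tr_val D.M p (γ z) h1, hγ z hz, hγ _ hzv,
        D.tr_germ _ _ _ hη hη1 (hball' z hz) (v, 0) (by rwa [RD.norm_fst])]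
      simp
  -- the start of the path is `y`
  have hstart : γ z' = y := by
    apply Subtype.ext
    rw [hγ z' hz'B, ← hgerm]
    have hF'η : IsSol P Q F' (ball (z', p) η) := by
      have hsub : ball ((z', p) : ℂ × ℂ × ℂ) η ⊆ ball (z', p) (D.M.rad y.1) :=
        ball_subset_ball (hηδ.trans hδr)
      exact ⟨hF'.1.mono hsub, fun x hx => hF'.2 x (hsub hx)⟩
    rw [D.germ_eq _ _ _ _ hη (hball' z' hz'B) hF'η]
    filter_upwards [isOpen_ball.mem_nhds (mem_ball_self (x := ((z', p) : ℂ × ℂ × ℂ)) hη)] with x hx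
    rw [mem_ball, Prod.dist_eq, max_lt_iff] at hx
    have hx1 : x.1 ∈ ball z' η := hx.1
    have hx2 : dist x.2 p < η := hx.2
    have hsolF : ∀ z ∈ ball z' η, P (z, F (z, x.2)) ≠ 0 ∧
        HasDerivAt (fun z => F (z, x.2)) (Q (z, F (z, x.2)) / P (z, F (z, x.2))) z := by
      intro z hz
      refine (hball' z' hz'B).2 (z, x.2) ?_
      rw [mem_ball, Prod.dist_eq, max_lt_iff]
      exact ⟨hz, hx2⟩
    have hsolF' : ∀ z ∈ ball z' η, P (z, F' (z, x.2)) ≠ 0 ∧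
        HasDerivAt (fun z => F' (z, x.2)) (Q (z, F' (z, x.2)) / P (z, F' (z, x.2))) z := by
      intro z hz
      refine hF'η.2 (z, x.2) ?_
      rw [mem_ball, Prod.dist_eq, max_lt_iff]
      exact ⟨hz, hx2⟩
    have heq := sol_unique hP hQ isOpen_ball (convex_ball z' η).isPreconnected hsolF hsolF'
      (mem_ball_self hη) (by
        show Φ (z', z', F' (z', x.2)) = F' (z', x.2)
        have := hΦ0 (z', F' (z', x.2)) (by
          rw [mem_ball, Prod.dist_eq, max_lt_iff]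
          exact ⟨hy1, hFδ _ (show dist x.2 p < δ from hx2.trans_le hηδ)⟩)
        exact this)
    exact heq hx1
  refine ⟨γ q.1, ?_, ?_⟩
  · rw [← hstart]; exact hreach
  · unfold kap
    rw [hγ q.1 hqB, D.pr_germ _ _ _ hη (hball' q.1 hqB), D.W_germ _ _ _ hη (hball' q.1 hqB)]
    refine Prod.ext rfl ?_
    show Φ (q.1, z', F' (z', p)) = q.2
    have hs1 : ∀ z ∈ ball q.1 ρ, P (z, Φ (z, z', F' (z', p))) ≠ 0 ∧
        HasDerivAt (fun z => Φ (z, z', F' (z', p)))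
          (Q (z, Φ (z, z', F' (z', p))) / P (z, Φ (z, z', F' (z', p)))) z := by
      intro z hz
      refine hΦ.2 (z, z', F' (z', p)) ?_
      rw [hmem3]
      exact ⟨hz, hy⟩
    have hs2 : ∀ z ∈ ball q.1 ρ, P (z, Φ (z, q)) ≠ 0 ∧
        HasDerivAt (fun z => Φ (z, q)) (Q (z, Φ (z, q)) / P (z, Φ (z, q))) z := by
      intro z hz
      refine hΦ.2 (z, q) ?_
      rw [hmem3]
      exact ⟨hz, by simpa using hρ⟩
    have heq := sol_unique hP hQ isOpen_ball (convex_ball q.1 ρ).isPreconnected hs1 hs2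
      (show z' ∈ ball q.1 ρ from hy1) (by
        show Φ (z', z', F' (z', p)) = Φ (z', q)
        rw [← hy']
        exact hΦ0 (z', F' (z', p)) hy)
    have := heq (mem_ball_self hρ)
    simp only at this
    rw [this]
    exact hΦ0 q hq0

theorem leaves2_P_kap {p : ℂ × ℂ} (y : (D.M.Fib p).carrier) : P (D.kap y.1) ≠ 0 := by
  have h0 : (0 : ℂ) ∈ ball (0 : ℂ) (D.M.rad y.1) := by simpa using D.M.rad_pos y.1
  have h2 := (D.sol_fib y 0 h0).1
  have h3 : D.W ((D.M.Fib p).tr y 0).1 = D.W y.1 :=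
    congrArg (fun w : (D.M.Fib p).carrier => D.W w.1) ((D.M.Fib p).tr_zero y)
  rw [h3, add_zero] at h2
  exact h2

/-- a leaf disc with one point under the fibre has all its points with `P ≠ 0` under the fibre -/
theorem leaves2_disc (hP : Differentiable ℂ P) (hQ : Differentiable ℂ Q) {p : ℂ × ℂ}
    {y₀ : (D.M.Fib p).carrier} {φ : ℂ → ℂ × ℂ} {c : ℂ} {r : ℝ} (hφ : IsLeafDisc P Q φ c r)
    (hiso : ∀ s ∈ ball c r, ∀ᶠ s' in 𝓝[≠] s, P (φ s') ≠ 0)
    {s₀ : ℂ} (hs₀ : s₀ ∈ ball c r)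
    (h₀ : ∃ y, (D.M.Fib p).Reach y₀ y ∧ D.kap y.1 = φ s₀) {s : ℂ} (hs : s ∈ ball c r)
    (hPs : P (φ s) ≠ 0) : ∃ y, (D.M.Fib p).Reach y₀ y ∧ D.kap y.1 = φ s := by
  set Z : Set ℂ := {s | s ∈ ball c r ∧ P (φ s) = 0} with hZ
  have hr : 0 < r := pos_of_mem_ball hs
  have hZc : Z.Countable := by
    refine leaves2_countable (B := ball c r) (fun s hs => hs.1) ?_
    intro s hs
    filter_upwards [hiso s hs] with s' hs' hsZ
    exact hs' hsZ.2
  have hA := leaves2_preconn c hr hZc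
  let Gd : ℂ → Prop := fun s => ∃ y, (D.M.Fib p).Reach y₀ y ∧ D.kap y.1 = φ s
  have hsub : ball c r \ Z ⊆ {s | ∀ᶠ s' in 𝓝 s, Gd s'} ∪ {s | ∀ᶠ s' in 𝓝 s, ¬ Gd s'} := by
    rintro s ⟨hs, hsZ⟩
    have hPs : P (φ s) ≠ 0 := fun h => hsZ ⟨hs, h⟩
    have hφc : ContinuousAt φ s := by
      obtain ⟨-, a, -, h⟩ := hφ s hs
      exact h.continuousAt
    by_cases hG : Gd s
    · left
      obtain ⟨y, hy, hk⟩ := hG
      have h1 := D.leafDisc_eq_kap hP hQ y hφ hs hk.symm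
      have h2 : ∀ᶠ s' in 𝓝 s, ‖(φ s').1 - (φ s).1‖ < D.M.rad y.1 := by
        have h3 : ContinuousAt (fun s' => ‖(φ s').1 - (φ s).1‖) s :=
          ((hφc.fst).sub continuousAt_const).norm
        have h4 : (fun s' => ‖(φ s').1 - (φ s).1‖) s < D.M.rad y.1 := by
          simpa using D.M.rad_pos y.1
        exact h3.eventually_lt continuousAt_const h4
      filter_upwards [h1, h2] with s' hs1 hs2
      exact ⟨_, hy.tail ⟨_, hs2, rfl⟩, hs1.symm⟩
    · right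
      obtain ⟨ρ, hρ, Φ, hΦ, hΦ0⟩ := exists_flow_local hP hQ hPs
      set q := φ s with hq
      have hψ : IsLeafDisc P Q (fun z => (z, Φ (z, q))) q.1 ρ := by
        intro z hz
        have hz3 : ((z, q) : ℂ × ℂ × ℂ) ∈ ball (q.1, q) ρ := by
          rw [mem_ball, Prod.dist_eq, max_lt_iff]
          exact ⟨hz, by simpa using hρ⟩
        obtain ⟨h1, h2⟩ := hΦ.2 (z, q) hz3
        simp only at h1 h2 ⊢
        refine ⟨fun h => h1 (congrArg Prod.fst h), (P (z, Φ (z, q)))⁻¹, inv_ne_zero h1, ?_⟩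
        refine ((hasDerivAt_id z).prodMk h2).congr_deriv ?_
        ext
        · simp [inv_mul_cancel₀ h1]
        · simp [div_eq_inv_mul]
      have hq0 : q.1 ∈ ball q.1 ρ := mem_ball_self hρ
      have hq1 : Φ (q.1, q) = q.2 := hΦ0 q (mem_ball_self hρ)
      obtain ⟨θ, a, ha, hθ, hθ0, hev⟩ := leafDisc_reparam hP hQ hψ hφ hq0 hs (by
        show (q.1, Φ (q.1, q)) = q
        rw [hq1])
      have hθc : ContinuousAt θ s := hθ.hasDerivAt.continuousAt
      have e2 : ∀ᶠ x in 𝓝 s, φ x ∈ ball q ρ := hφc (isOpen_ball.mem_nhds (mem_ball_self hρ))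
      filter_upwards [hev, e2] with x hx hx2
      rintro ⟨y, hy, hk⟩
      apply hG
      obtain ⟨y', hy', hk'⟩ := D.leaves2_local hP hQ hρ hΦ hΦ0 y (by rw [hk]; exact hx2) (by
        rw [hk, hx])
      exact ⟨y', hy.trans hy', hk'⟩
  have hdisj : Disjoint {s | ∀ᶠ s' in 𝓝 s, Gd s'} {s | ∀ᶠ s' in 𝓝 s, ¬ Gd s'} := by
    rw [Set.disjoint_left]
    intro x hx hx'
    have h1 : ∀ᶠ s' in 𝓝 x, Gd s' := hx
    have h2 : ∀ᶠ s' in 𝓝 x, ¬ Gd s' := hx'
    exact h2.self_of_nhds h1.self_of_nhds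
  have hs₀A : s₀ ∈ ball c r \ Z := by
    refine ⟨hs₀, fun h => ?_⟩
    obtain ⟨y, -, hk⟩ := h₀
    exact D.leaves2_P_kap y (by rw [hk]; exact h.2)
  have hs₀U : s₀ ∈ {s | ∀ᶠ s' in 𝓝 s, Gd s'} := by
    rcases hsub hs₀A with h | h
    · exact h
    · have h1 : ∀ᶠ s' in 𝓝 s₀, ¬ Gd s' := h
      exact absurd h₀ h1.self_of_nhds
  have := hA.subset_left_of_subset_union isOpen_setOfPred_eventually_nhds isOpen_setOfPred_eventually_nhds
    hdisj hsub ⟨s₀, hs₀A, hs₀U⟩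
  have h1 : ∀ᶠ s' in 𝓝 s, Gd s' := this ⟨hs, fun h => hPs h.2⟩
  exact h1.self_of_nhds

include hP hQ in
/-- every point of the leaf with `P ≠ 0` lies under the fibre -/
theorem exists_over {e : D.M.carrier} {q : ℂ × ℂ} (hq : q ∈ Leaf P Q (D.kap e)) (hPq : P q ≠ 0) :
    ∃ y : (D.M.Fib (D.M.pr e).2).carrier,
      (D.M.Fib (D.M.pr e).2).Reach ⟨e, rfl⟩ y ∧ D.kap y.1 = q := by
  have hPe : P (D.kap e) ≠ 0 := D.leaves2_P_kap (p := (D.M.pr e).2) ⟨e, rfl⟩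
  -- every leaf disc through a point of the leaf has a good point
  have key : ∀ x, x ∈ Leaf P Q (D.kap e) → ∀ φ c r, IsLeafDisc P Q φ c r → ∀ s ∈ ball c r,
      φ s = x → ∃ s₀ ∈ ball c r, ∃ y : (D.M.Fib (D.M.pr e).2).carrier,
        (D.M.Fib (D.M.pr e).2).Reach ⟨e, rfl⟩ y ∧ D.kap y.1 = φ s₀ := by
    intro x hx
    induction hx with
    | refl =>
      intro φ c r hφ s hs hsx
      exact ⟨s, hs, ⟨e, rfl⟩, Relation.ReflTransGen.refl, hsx.symm⟩
    | @tail b x hb hbx ih =>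
      intro φ c r hφ s hs hsx
      obtain ⟨ψ, c', r', hψ, ⟨s₁, hs₁, hb'⟩, ⟨s₂, hs₂, hx'⟩⟩ := hbx
      have hbL : ψ s₁ ∈ Leaf P Q (D.kap e) := by rw [hb']; exact hb
      have hψL := leafDisc_subset_leaf hψ hs₁ hbL
      have hiso : ∀ s ∈ ball c' r', ∀ᶠ s' in 𝓝[≠] s, P (ψ s') ≠ 0 := fun s hs =>
        leaf_isolated hP hQ hPe hψ hψL hs
      obtain ⟨s₀, hs₀, h₀⟩ := ih ψ c' r' hψ s₁ hs₁ hb'
      obtain ⟨θ, a, ha, hθ, hθ0, hev⟩ := leafDisc_reparam hP hQ hφ hψ hs hs₂ (by rw [hsx, hx'])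
      have hθc : ContinuousAt θ s₂ := hθ.hasDerivAt.continuousAt
      have e1 : ∀ᶠ t in 𝓝 s₂, θ t ∈ ball c r := by
        have : ball c r ∈ 𝓝 (θ s₂) := by rw [hθ0]; exact isOpen_ball.mem_nhds hs
        exact hθc this
      have e2 : ∀ᶠ t in 𝓝 s₂, t ∈ ball c' r' := isOpen_ball.mem_nhds hs₂
      have e3 : ∀ᶠ t in 𝓝[≠] s₂, P (ψ t) ≠ 0 ∧ ψ t = φ (θ t) ∧ θ t ∈ ball c r ∧ t ∈ ball c' r' := by
        filter_upwards [hiso s₂ hs₂, hev.filter_mono nhdsWithin_le_nhds,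
          e1.filter_mono nhdsWithin_le_nhds, e2.filter_mono nhdsWithin_le_nhds] with t h1 h2 h3 h4
        exact ⟨h1, h2, h3, h4⟩
      obtain ⟨t, ht1, ht2, ht3, ht4⟩ := e3.exists
      obtain ⟨y, hy, hk⟩ := D.leaves2_disc hP hQ hψ hiso hs₀ h₀ ht4 ht1
      exact ⟨θ t, ht3, y, hy, hk.trans ht2⟩
  have hPQ : (P q, Q q) ≠ 0 := fun h => hPq (congrArg Prod.fst h)
  obtain ⟨φ, r, hr, hφ, hφ0⟩ := exists_leafDisc hP hQ hPQ
  have h0 : (0 : ℂ) ∈ ball (0 : ℂ) r := mem_ball_self hr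
  obtain ⟨s₀, hs₀, h₀⟩ := key q hq φ 0 r hφ 0 h0 hφ0
  have hφL := leafDisc_subset_leaf hφ h0 (p := D.kap e) (by rw [hφ0]; exact hq)
  have := D.leaves2_disc hP hQ hφ (fun s hs => leaf_isolated hP hQ hPe hφ hφL hs) hs₀ h₀ h0
    (by rw [hφ0]; exact hPq)
  rwa [hφ0] at this

end SolDomain

end Pool.Agent.ParLeaf
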