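import Pool.Agent.H.MP_3a36cd_an.LiouPlane

/-! MP_3a36cd_an, module Liouville: capacity zero implies that bounded subharmonic functions are constant. -/

open Set Metric Filter Topology Complex MeasureTheory Real
open scoped ContDiff ENNReal

namespace Pool.Agent.ParLeaf

theorem liou_plevi_congr {V W : ℂ → ℝ} {x : ℂ} (h : V =ᶠ[𝓝 x] W) (w : ℂ) : plevi w V x = plevi w W x := by
  have h1 : (fun z => (V z : ℂ)) =ᶠ[𝓝 x] (fun z => (W z : ℂ)) := h.mono fun z hz => by simp only [hz]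
  have h2 : pwb w (fun z => (V z : ℂ)) =ᶠ[𝓝 x] pwb w (fun z => (W z : ℂ)) := by
    filter_upwards [h1.eventuallyEq_nhds] with z hz
    simp only [pwb, hz.fderiv_eq]
  simp only [plevi, pw, h2.fderiv_eq]

namespace RD

variable (R : RD ℂ)

/-- the function `v` near `y`, truncated -/
noncomputable def liou_loc (v : R.carrier → ℝ) (y : R.carrier) : ℂ → ℝ :=
  (ball 0 (R.rad y)).indicator (fun ζ => v (R.tr y ζ))

/-- mollification on the surface -/
noncomputable def liou_mv (v : R.carrier → ℝ) (ε : ℝ) (y : R.carrier) : ℝ :=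
  ∫ ζ : ℂ, chi ζ * v (R.tr y ((ε : ℂ) * ζ))

section Sub

variable {R} {v : R.carrier → ℝ} {B : ℝ} (h0 : ∀ y, 0 ≤ v y) (hB : ∀ y, v y ≤ B)
  (hs : ∀ y, SubharmonicOn (fun ζ => v (R.tr y ζ)) (ball 0 (R.rad y)))

include h0 hB in
theorem liou_loc_abs (y : R.carrier) (x : ℂ) : |R.liou_loc v y x| ≤ B := by
  have hB0 : 0 ≤ B := (h0 y).trans (hB y)
  rw [liou_loc]
  by_cases hx : x ∈ ball (0 : ℂ) (R.rad y)
  · rw [indicator_of_mem hx, abs_of_nonneg (h0 _)]; exact hB _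
  · rw [indicator_of_notMem hx, abs_zero]; exact hB0

include hs in
theorem liou_loc_usc (y : R.carrier) : UpperSemicontinuousOn (R.liou_loc v y) (ball 0 (R.rad y)) := by
  intro x hx a ha
  rw [liou_loc, indicator_of_mem hx] at ha
  filter_upwards [(hs y).1 x hx a ha, self_mem_nhdsWithin] with z hz hz2
  rw [liou_loc, indicator_of_mem hz2]
  exact hz

include hs in
theorem liou_loc_meas (y : R.carrier) : Measurable (R.liou_loc v y) := by
  refine measurable_of_Iio fun a => ?_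
  obtain ⟨U, hU, hU2⟩ := upperSemicontinuousOn_iff_preimage_Iio.1 (liou_loc_usc hs y) a
  have h1 : R.liou_loc v y ⁻¹' Iio a = (ball 0 (R.rad y) ∩ U) ∪
      ((ball 0 (R.rad y))ᶜ ∩ {_x | (0 : ℝ) < a}) := by
    rw [← hU2]
    ext x
    by_cases hx : x ∈ ball (0 : ℂ) (R.rad y)
    · simp [hx]
    · simp only [mem_preimage, mem_Iio, mem_union, mem_inter_iff, hx, false_and, mem_compl_iff,
        not_false_eq_true, mem_ofPred_eq, true_and, false_or]
      rw [liou_loc, indicator_of_notMem hx]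
  rw [h1]
  exact (measurableSet_ball.inter hU.measurableSet).union
    (measurableSet_ball.compl.inter (MeasurableSet.const _))

include hs in
theorem liou_loc_sub (y : R.carrier) : ∀ c r, 0 < r → closedBall c r ⊆ ball 0 (R.rad y) →
    R.liou_loc v y c ≤ circleAverage (R.liou_loc v y) c r := by
  intro c r hr hcr
  have h1 := (hs y).2 c r hr hcr
  have h2 : circleAverage (R.liou_loc v y) c r = circleAverage (fun ζ => v (R.tr y ζ)) c r := by
    refine circleAverage_congr_sphere fun z hz => ?_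
    rw [abs_of_pos hr] at hz
    rw [liou_loc, indicator_of_mem (hcr (sphere_subset_closedBall hz))]
  rw [h2, liou_loc, indicator_of_mem (hcr (mem_closedBall_self hr.le))]
  exact h1

include h0 hB hs in
theorem liou_loc_int (y : R.carrier) : Integrable (R.liou_loc v y) := by
  have h1 : Integrable ((ball (0 : ℂ) (R.rad y)).indicator (fun _ => B)) :=
    (integrable_indicator_iff measurableSet_ball).2 (integrableOn_const (by
      exact (measure_ball_lt_top).ne))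
  refine h1.mono' (liou_loc_meas hs y).aestronglyMeasurable (ae_of_all _ fun x => ?_)
  by_cases hx : x ∈ ball (0 : ℂ) (R.rad y)
  · rw [indicator_of_mem hx, Real.norm_eq_abs]; exact liou_loc_abs h0 hB y x
  · rw [indicator_of_notMem hx, liou_loc, indicator_of_notMem hx, norm_zero]

theorem liou_mv_tr {ε : ℝ} (hε : 0 < ε) {y : R.carrier} {ξ : ℂ} (h : ‖ξ‖ + ε < R.rad y) :
    R.liou_mv v ε (R.tr y ξ) = liou_moll ε (R.liou_loc v y) ξ := by
  rw [liou_mv, liou_moll]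
  refine integral_congr_ae (ae_of_all _ fun ζ => ?_)
  simp only
  by_cases hζ : 1 ≤ ‖ζ‖
  · simp [liou_chi_zero hζ]
  · push Not at hζ
    have h1 : ‖(ε : ℂ) * ζ‖ < ε := by
      rw [norm_mul, norm_real, Real.norm_eq_abs, abs_of_pos hε]
      nlinarith
    have h2 : ‖ξ + (ε : ℂ) * ζ‖ < R.rad y := (norm_add_le _ _).trans_lt (by linarith)
    have h3 : ‖ξ‖ < R.rad y := by linarith
    have h4 := R.rad_tr y ξ h3
    rw [R.tr_tr y ξ _ h3 (by linarith) h2, liou_loc,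
      indicator_of_mem (mem_ball_zero_iff.2 h2)]

include h0 hB hs in
theorem liou_mv_smooth {ε : ℝ} (hε : 0 < ε) : R.Smooth (R.liou_mv v ε) {y | ε < R.rad y} := by
  intro y hy
  have hy : ε < R.rad y := hy
  have h1 : (fun ξ => R.liou_mv v ε (R.tr y ξ)) =ᶠ[𝓝 0] liou_moll ε (R.liou_loc v y) := by
    filter_upwards [ball_mem_nhds (0 : ℂ) (sub_pos.2 hy)] with ξ hξ
    rw [mem_ball_zero_iff] at hξ
    exact liou_mv_tr hε (by linarith)
  exact ((liou_moll_contDiff (liou_loc_int h0 hB hs y) hε).contDiffAt).congr_of_eventuallyEq h1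

include h0 hB hs in
theorem liou_mv_levi {ε : ℝ} (hε : 0 < ε) {y : R.carrier} (hy : ε < R.rad y) :
    0 ≤ R.levi 1 (R.liou_mv v ε) y := by
  have h1 : (fun ξ => R.liou_mv v ε (R.tr y ξ)) =ᶠ[𝓝 0] liou_moll ε (R.liou_loc v y) := by
    filter_upwards [ball_mem_nhds (0 : ℂ) (sub_pos.2 hy)] with ξ hξ
    rw [mem_ball_zero_iff] at hξ
    exact liou_mv_tr hε (by linarith)
  rw [R.levi_eq, liou_plevi_congr h1]
  refine liou_levi_nonneg (liou_moll_contDiff (liou_loc_int h0 hB hs y) hε)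
    (s₀ := R.rad y - ε) (by linarith) fun s hs1 hs2 => ?_
  exact liou_moll_submean (liou_loc_meas hs y) (liou_loc_abs h0 hB y) (liou_loc_sub hs y) hε hs1
    (by simpa using by linarith)

include h0 hB in
theorem liou_mv_mem (ε : ℝ) (y : R.carrier) : 0 ≤ R.liou_mv v ε y ∧ R.liou_mv v ε y ≤ B := by
  constructor
  · exact integral_nonneg fun ζ => mul_nonneg (chi_nonneg ζ) (h0 _)
  · have h1 : B = ∫ ζ : ℂ, chi ζ * B := by
      rw [integral_mul_const, integral_chi, one_mul]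
    rw [h1, liou_mv]
    refine integral_mono_of_nonneg (ae_of_all _ fun ζ => mul_nonneg (chi_nonneg ζ) (h0 _))
      (liou_chi_int.mul_const _) (ae_of_all _ fun ζ => ?_)
    exact mul_le_mul_of_nonneg_left (hB _) (chi_nonneg _)

include h0 hB hs in
theorem liou_mv_tendsto (y : R.carrier) :
    Tendsto (fun ε => R.liou_mv v ε y) (𝓝[>] 0) (𝓝 (v y)) := by
  have h1 := liou_moll_tendsto (liou_loc_meas hs y) (liou_loc_abs h0 hB y) (liou_loc_sub hs y)
    (liou_loc_usc hs y) (ξ := 0) (by simpa using R.rad_pos y)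
  have h2 : R.liou_loc v y 0 = v y := by
    rw [liou_loc, indicator_of_mem (mem_ball_self (R.rad_pos y)), R.tr_zero]
  rw [h2] at h1
  refine h1.congr' ?_
  have h3 : ∀ᶠ ε in 𝓝[>] (0 : ℝ), ε < R.rad y :=
    mem_nhdsWithin_of_mem_nhds (Iio_mem_nhds (R.rad_pos y))
  filter_upwards [h3, self_mem_nhdsWithin] with ε he1 he2
  have := liou_mv_tr (v := v) (R := R) he2 (y := y) (ξ := 0) (by simpa using he1)
  rw [R.tr_zero] at this
  exact this.symm

end Sub


/-! ### integration on the surface -/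

section Int

variable {R}

theorem liou_cont_mul {g F : R.carrier → ℝ} (hg : Continuous g) {X : Set R.carrier}
    (hX : IsOpen X) (hgX : tsupport g ⊆ X) (hF : ContinuousOn F X) :
    Continuous (fun y => g y * F y) := by
  refine continuous_iff_continuousAt.2 fun y => ?_
  by_cases hy : y ∈ X
  · exact hg.continuousAt.mul (hF.continuousAt (hX.mem_nhds hy))
  · have h1 : g =ᶠ[𝓝 y] 0 := notMem_tsupport_iff_eventuallyEq.1 fun h => hy (hgX h)
    refine ContinuousAt.congr (f := fun _ => (0 : ℝ)) continuousAt_const ?_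
    filter_upwards [h1] with z hz
    simp [hz]

theorem Test.liou_cont {g : R.carrier → ℂ} (hg : R.Test g) : Continuous g :=
  continuousOn_univ.1 (Smooth.continuousOn R isOpen_univ hg.1)

theorem liou_dw_supp (g : R.carrier → ℂ) : Function.support (R.dw 1 g) ⊆ tsupport g := by
  intro y hy
  by_contra h
  apply hy
  have h1 : g =ᶠ[𝓝 y] 0 := notMem_tsupport_iff_eventuallyEq.1 h
  rw [R.nhds_eq y] at h1
  have h2 : (fun v => g (R.tr y v)) =ᶠ[𝓝 0] (fun _ => 0) := h1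
  simp [RD.dw, h2.fderiv_eq]

theorem liou_dwb_supp (g : R.carrier → ℂ) : Function.support (R.dwb 1 g) ⊆ tsupport g := by
  intro y hy
  by_contra h
  apply hy
  have h1 : g =ᶠ[𝓝 y] 0 := notMem_tsupport_iff_eventuallyEq.1 h
  rw [R.nhds_eq y] at h1
  have h2 : (fun v => g (R.tr y v)) =ᶠ[𝓝 0] (fun _ => 0) := h1
  simp [RD.dwb, h2.fderiv_eq]

theorem Test.liou_dz {g : R.carrier → ℂ} (hg : R.Test g) : R.Test (R.dz g) :=
  ⟨Smooth.dw R isOpen_univ hg.1 1, hg.2.mono' (liou_dw_supp g)⟩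

theorem Test.liou_dzb {g : R.carrier → ℂ} (hg : R.Test g) : R.Test (R.dzb g) :=
  ⟨Smooth.dwb R isOpen_univ hg.1 1, hg.2.mono' (liou_dwb_supp g)⟩

theorem liou_test_conj {g : R.carrier → ℂ} (hg : R.Test g) :
    R.Test (fun y => (starRingEnd ℂ) (g y)) := by
  refine ⟨fun e he => ?_, ?_⟩
  · exact (Complex.conjCLE.contDiff.contDiffAt).comp _ (hg.1 e he)
  · exact hg.2.comp_left (g := starRingEnd ℂ) (map_zero _)

theorem liou_test_mul {g h : R.carrier → ℂ} (hg : R.Test g) (hh : R.Test h) :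
    R.Test (fun y => g y * h y) :=
  ⟨fun e he => (hg.1 e he).mul (hh.1 e he), hg.2.mul_right⟩

theorem liou_fin {F : Type} [NormedAddCommGroup F] {h : R.carrier → F} (hcs : HasCompactSupport h)
    (ζ : ℂ) : (Function.support (fun y => ∑ᶠ (_ : R.pr y = ζ), h y)).Finite := by
  obtain ⟨η, hη, s, hs, hK⟩ := R.local_sheets hcs ζ
  refine s.finite_toSet.subset fun y hy => ?_
  have h1 : R.pr y = ζ := by
    by_contra hne
    exact hy (by simp [hne])
  have h2 : y ∈ tsupport h := by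
    refine subset_tsupport _ fun h3 => hy ?_
    simp [h3]
  obtain ⟨y₀, hy₀, hyy⟩ := hK y h2 (by simpa [h1] using hη)
  rw [h1, sub_self, R.tr_zero] at hyy
  rw [hyy]; exact hy₀

theorem liou_sint_eq {F : Type} [NormedAddCommGroup F] [NormedSpace ℝ F] (h : R.carrier → F) :
    R.sint h = ∫ ζ : ℂ, R.push h ζ := rfl

theorem liou_push_int {F : Type} [NormedAddCommGroup F] [NormedSpace ℝ F] {h : R.carrier → F}
    (hc : Continuous h) (hcs : HasCompactSupport h) : Integrable (R.push h) :=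
  (R.continuous_push hc hcs).integrable_of_hasCompactSupport (R.hasCompactSupport_push hcs)

theorem liou_push_nonneg {h : R.carrier → ℝ} (h0 : ∀ y, 0 ≤ h y) (ζ : ℂ) : 0 ≤ R.push h ζ :=
  finsum_nonneg fun y => finsum_nonneg fun _ => h0 y

theorem liou_disc_le {h : R.carrier → ℝ} (hc : Continuous h) (hcs : HasCompactSupport h)
    (h0 : ∀ y, 0 ≤ h y) (y : R.carrier) {s : ℝ} (hs : s ≤ R.rad y) :
    ∫⁻ ζ in ball (0 : ℂ) s, ENNReal.ofReal (h (R.tr y ζ)) ≤ ENNReal.ofReal (R.sint h) := by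
  rw [liou_sint_eq, ofReal_integral_eq_lintegral_ofReal (liou_push_int hc hcs)
    (ae_of_all _ (liou_push_nonneg h0))]
  calc ∫⁻ ζ in ball (0 : ℂ) s, ENNReal.ofReal (h (R.tr y ζ))
      ≤ ∫⁻ ζ in ball (0 : ℂ) s, ENNReal.ofReal (R.push h (R.pr y + ζ)) := by
        refine setLIntegral_mono' measurableSet_ball fun ζ hζ => ?_
        refine ENNReal.ofReal_le_ofReal ?_
        rw [mem_ball_zero_iff] at hζ
        have h1 : R.pr (R.tr y ζ) = R.pr y + ζ := R.pr_tr y ζ (by linarith)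
        have h2 := single_le_finsum (R.tr y ζ)
          (f := fun y' => ∑ᶠ (_ : R.pr y' = R.pr y + ζ), h y') (liou_fin hcs (R.pr y + ζ))
          (fun y' => finsum_nonneg fun _ => h0 y')
        simpa [h1, RD.push] using h2
    _ ≤ ∫⁻ ζ, ENNReal.ofReal (R.push h (R.pr y + ζ)) := setLIntegral_le_lintegral _ _
    _ = _ := lintegral_add_left_eq_self (μ := (volume : Measure ℂ))
        (fun ζ => ENNReal.ofReal (R.push h ζ)) (R.pr y)

theorem liou_sint_const {h : R.carrier → ℝ} (c : ℝ) :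
    R.sint (fun y => c * h y) = c * R.sint h := by
  rw [liou_sint_eq, liou_sint_eq, ← integral_const_mul]
  congr 1
  funext ζ
  have : ∀ y, (∑ᶠ (_ : R.pr y = ζ), c * h y) = c * ∑ᶠ (_ : R.pr y = ζ), h y := by
    intro y
    have := smul_finsum (c : ℝ) (fun _ : R.pr y = ζ => h y)
    simpa [smul_eq_mul] using this.symm
  have h2 := smul_finsum (c : ℝ) (fun y => ∑ᶠ (_ : R.pr y = ζ), h y)
  simp only [RD.push, this]
  simpa [smul_eq_mul] using h2.symm

theorem liou_sint_ofReal {h : R.carrier → ℝ} (hcs : HasCompactSupport h) :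
    R.sint (fun y => (h y : ℂ)) = ((R.sint h : ℝ) : ℂ) := by
  rw [liou_sint_eq, liou_sint_eq, ← integral_complex_ofReal]
  congr 1
  funext ζ
  have h1 := (Complex.ofRealHom : ℝ →+* ℂ).toAddMonoidHom.map_finsum (liou_fin hcs ζ)
  simp only [RD.push]
  refine Eq.trans ?_ h1.symm
  refine finsum_congr fun y => ?_
  by_cases hy : R.pr y = ζ
  · simp [hy]
  · simp [hy]

end Int


/-! ### energies -/

section Energy

variable {R}

theorem liou_normsq_cs {g : R.carrier → ℂ} (hg : HasCompactSupport g) :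
    HasCompactSupport (fun y => ‖g y‖ ^ 2) :=
  hg.comp_left (g := fun z : ℂ => ‖z‖ ^ 2) (by simp)

theorem liou_normsq_tsupp (g : R.carrier → ℂ) : tsupport (fun y => ‖g y‖ ^ 2) ⊆ tsupport g :=
  closure_mono fun y hy h => hy (by simp [h])

theorem liou_dz_energy {g : R.carrier → ℂ} (hg : R.Test g) :
    R.sint (fun y => ‖R.dz g y‖ ^ 2) = R.sint (fun y => ‖R.dzb g y‖ ^ 2) := by
  have hgc := liou_test_conj hg
  have hF1 : R.Test (fun y => (starRingEnd ℂ) (g y) * R.dzb g y) := liou_test_mul hgc hg.liou_dzb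
  have hF2 : R.Test (fun y => (starRingEnd ℂ) (g y) * R.dz g y) := liou_test_mul hgc hg.liou_dz
  have e1 : ∀ y, R.dz (fun y => (starRingEnd ℂ) (g y) * R.dzb g y) y =
      ((‖R.dzb g y‖ ^ 2 : ℝ) : ℂ) + (starRingEnd ℂ) (g y) * R.dz (R.dzb g) y := by
    intro y
    have h1 := R.dw_mul (g := fun y => (starRingEnd ℂ) (g y)) (h := R.dzb g) (e := y)
      (fun e _ => hgc.1 e (mem_univ e)) (fun e _ => hg.liou_dzb.1 e (mem_univ e)) 1
    rw [RD.dz, h1, R.dw_conj]
    congr 1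
    rw [RD.dzb, mul_comm, Complex.mul_conj, Complex.normSq_eq_norm_sq]
  have e2 : ∀ y, R.dzb (fun y => (starRingEnd ℂ) (g y) * R.dz g y) y =
      ((‖R.dz g y‖ ^ 2 : ℝ) : ℂ) + (starRingEnd ℂ) (g y) * R.dz (R.dzb g) y := by
    intro y
    have h1 := R.dwb_mul (g := fun y => (starRingEnd ℂ) (g y)) (h := R.dz g) (e := y)
      (fun e _ => hgc.1 e (mem_univ e)) (fun e _ => hg.liou_dz.1 e (mem_univ e)) 1
    rw [RD.dzb, h1, R.dwb_conj]
    congr 1
    · rw [RD.dz, mul_comm, Complex.mul_conj, Complex.normSq_eq_norm_sq]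
    · show (starRingEnd ℂ) (g y) * R.dwb 1 (R.dw 1 g) y =
        (starRingEnd ℂ) (g y) * R.dw 1 (R.dwb 1 g) y
      rw [R.dw_dwb_comm isOpen_univ hg.1 (mem_univ y) 1 1]
  have t1 : R.sint (fun y => ((‖R.dzb g y‖ ^ 2 : ℝ) : ℂ) + (starRingEnd ℂ) (g y) * R.dz (R.dzb g) y) = 0 := by
    rw [← R.sint_dz hF1]
    congr 1
    funext y
    exact (e1 y).symm
  have t2 : R.sint (fun y => ((‖R.dz g y‖ ^ 2 : ℝ) : ℂ) + (starRingEnd ℂ) (g y) * R.dz (R.dzb g) y) = 0 := by
    rw [← R.sint_dzb hF2]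
    congr 1
    funext y
    exact (e2 y).symm
  have c3 : R.Test (fun y => (starRingEnd ℂ) (g y) * R.dz (R.dzb g) y) :=
    liou_test_mul hgc hg.liou_dzb.liou_dz
  have k1 : Continuous (fun y => ((‖R.dzb g y‖ ^ 2 : ℝ) : ℂ)) :=
    continuous_ofReal.comp (hg.liou_dzb.liou_cont.norm.pow 2)
  have k2 : Continuous (fun y => ((‖R.dz g y‖ ^ 2 : ℝ) : ℂ)) :=
    continuous_ofReal.comp (hg.liou_dz.liou_cont.norm.pow 2)
  have l1 : HasCompactSupport (fun y => ((‖R.dzb g y‖ ^ 2 : ℝ) : ℂ)) :=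
    (liou_normsq_cs hg.liou_dzb.2).comp_left (g := fun x : ℝ => (x : ℂ)) (by simp)
  have l2 : HasCompactSupport (fun y => ((‖R.dz g y‖ ^ 2 : ℝ) : ℂ)) :=
    (liou_normsq_cs hg.liou_dz.2).comp_left (g := fun x : ℝ => (x : ℂ)) (by simp)
  rw [R.sint_add k1 l1 c3.liou_cont c3.2, liou_sint_ofReal (liou_normsq_cs hg.liou_dzb.2)] at t1
  rw [R.sint_add k2 l2 c3.liou_cont c3.2, liou_sint_ofReal (liou_normsq_cs hg.liou_dz.2)] at t2
  have t3 : ((R.sint (fun y => ‖R.dz g y‖ ^ 2) : ℝ) : ℂ) = ((R.sint (fun y => ‖R.dzb g y‖ ^ 2) : ℝ) : ℂ) := by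
    linear_combination t2 - t1
  exact_mod_cast t3

theorem liou_En0 (g : R.carrier → ℂ) : R.En 0 g = R.sint (fun y => ‖R.dzb g y‖ ^ 2) := by
  simp [RD.En]

theorem liou_En0_nonneg (g : R.carrier → ℂ) : 0 ≤ R.En 0 g := by
  rw [liou_En0]; exact R.sint_nonneg fun y => by positivity

theorem liou_fderiv_le (F : ℂ → ℂ) (x : ℂ) : ‖fderiv ℝ F x‖ ≤ ‖pw 1 F x‖ + ‖pwb 1 F x‖ := by
  refine ContinuousLinearMap.opNorm_le_bound _ (by positivity) fun v => ?_
  have h1 : fderiv ℝ F x v = pw 1 F x * v + pwb 1 F x * (starRingEnd ℂ) v := by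
    have h2 : v = v.re • (1 : ℂ) + v.im • I := by
      apply Complex.ext <;> simp
    have h3 : fderiv ℝ F x v = v.re • fderiv ℝ F x 1 + v.im • fderiv ℝ F x I := by
      conv_lhs => rw [h2]
      rw [map_add, map_smul, map_smul]
    have h4 : (starRingEnd ℂ) v = (v.re : ℂ) - v.im * I := by
      apply Complex.ext <;> simp
    have h6 : ∀ a b : ℂ, (v.re : ℂ) * a + (v.im : ℂ) * b = (a - I * b) / 2 * ((v.re : ℂ) + v.im * I) +
        (a + I * b) / 2 * ((v.re : ℂ) - v.im * I) := by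
      intro a b
      linear_combination (b * (v.im : ℂ)) * Complex.I_sq
    have h7 := h6 (fderiv ℝ F x 1) (fderiv ℝ F x I)
    rw [Complex.re_add_im, ← h4] at h7
    rw [h3, pw, pwb, Complex.real_smul, Complex.real_smul, h7, smul_eq_mul, mul_one]
  rw [h1]
  calc ‖pw 1 F x * v + pwb 1 F x * (starRingEnd ℂ) v‖
      ≤ ‖pw 1 F x * v‖ + ‖pwb 1 F x * (starRingEnd ℂ) v‖ := norm_add_le _ _
    _ = _ := by rw [norm_mul, norm_mul, RCLike.norm_conj]; ring

/-- the Dirichlet energy on discs is controlled by `En` -/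
theorem liou_grad_le {g : R.carrier → ℂ} (hg : R.Test g) (y : R.carrier) {s : ℝ}
    (hs : s ≤ R.rad y) {f : ℂ → ℂ} (hf : ∀ ζ ∈ ball (0 : ℂ) s, f ζ = g (R.tr y ζ)) :
    ∫⁻ ζ in ball (0 : ℂ) s, ‖fderiv ℝ f ζ‖ₑ ^ 2 ≤ ENNReal.ofReal (4 * R.En 0 g) := by
  have h1 : R.sint (fun y => 2 * ‖R.dz g y‖ ^ 2 + 2 * ‖R.dzb g y‖ ^ 2) = 4 * R.En 0 g := by
    rw [R.sint_add, liou_sint_const, liou_sint_const, liou_dz_energy hg, liou_En0]
    · ring
    · exact (hg.liou_dz.liou_cont.norm.pow 2).const_mul 2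
    · exact (liou_normsq_cs hg.liou_dz.2).comp_left (g := fun x : ℝ => 2 * x) (by simp)
    · exact (hg.liou_dzb.liou_cont.norm.pow 2).const_mul 2
    · exact (liou_normsq_cs hg.liou_dzb.2).comp_left (g := fun x : ℝ => 2 * x) (by simp)
  rw [← h1]
  refine le_trans ?_ (liou_disc_le (h := fun y => 2 * ‖R.dz g y‖ ^ 2 + 2 * ‖R.dzb g y‖ ^ 2) ?_ ?_
    (fun y => by positivity) y hs)
  · refine setLIntegral_mono' measurableSet_ball fun ζ hζ => ?_
    have e1 : f =ᶠ[𝓝 ζ] (fun v => g (R.tr y v)) := by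
      filter_upwards [isOpen_ball.mem_nhds hζ] with v hv using hf v hv
    rw [mem_ball_zero_iff] at hζ
    have e2 : ‖fderiv ℝ f ζ‖ ≤ ‖R.dz g (R.tr y ζ)‖ + ‖R.dzb g (R.tr y ζ)‖ := by
      rw [e1.fderiv_eq, RD.dz, RD.dzb, R.dw_tr g 1 (by linarith), R.dwb_tr g 1 (by linarith)]
      exact liou_fderiv_le _ _
    rw [← ofReal_norm, ← ENNReal.ofReal_pow (norm_nonneg _)]
    refine ENNReal.ofReal_le_ofReal ?_
    have e3 := norm_nonneg (fderiv ℝ f ζ)
    nlinarith [sq_nonneg (‖R.dz g (R.tr y ζ)‖ - ‖R.dzb g (R.tr y ζ)‖),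
      norm_nonneg (R.dz g (R.tr y ζ)), norm_nonneg (R.dzb g (R.tr y ζ))]
  · exact ((hg.liou_dz.liou_cont.norm.pow 2).const_mul 2).add ((hg.liou_dzb.liou_cont.norm.pow 2).const_mul 2)
  · exact ((liou_normsq_cs hg.liou_dz.2).comp_left (g := fun x : ℝ => 2 * x) (by simp)).add
      ((liou_normsq_cs hg.liou_dzb.2).comp_left (g := fun x : ℝ => 2 * x) (by simp))

end Energy


/-! ### Caccioppoli -/

section Cacc

variable {R} {v : R.carrier → ℝ} {B : ℝ} (h0 : ∀ y, 0 ≤ v y) (hB : ∀ y, v y ≤ B)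
  (hs : ∀ y, SubharmonicOn (fun ζ => v (R.tr y ζ)) (ball 0 (R.rad y)))

/-- `∂_z` of the mollification -/
noncomputable def liou_dv (R : RD ℂ) (v : R.carrier → ℝ) (ε : ℝ) (y : R.carrier) : ℂ :=
  R.dw 1 (fun x => (R.liou_mv v ε x : ℂ)) y

theorem liou_isOpen_rad (R : RD ℂ) (ε : ℝ) : IsOpen {y | ε < R.rad y} :=
  isOpen_lt continuous_const R.continuous_rad

include h0 hB hs in
theorem liou_mvC_smooth {ε : ℝ} (hε : 0 < ε) :
    R.Smooth (fun x => (R.liou_mv v ε x : ℂ)) {y | ε < R.rad y} := fun y hy =>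
  (Complex.ofRealCLM.contDiff.contDiffAt).comp _ (liou_mv_smooth h0 hB hs hε y hy)

include h0 hB hs in
theorem liou_dv_cont {ε : ℝ} (hε : 0 < ε) : ContinuousOn (R.liou_dv v ε) {y | ε < R.rad y} :=
  Smooth.continuousOn R (liou_isOpen_rad R ε)
    (Smooth.dw R (liou_isOpen_rad R ε) (liou_mvC_smooth h0 hB hs hε) 1)

include h0 hB hs in
theorem liou_cacc {ε : ℝ} (hε : 0 < ε) {g : R.carrier → ℂ} (hg : R.Test g)
    (hgX : tsupport g ⊆ {y | ε < R.rad y}) :
    R.sint (fun y => ‖g y‖ ^ 2 * ‖R.liou_dv v ε y‖ ^ 2) ≤ Real.exp (B ^ 2) * R.En 0 g := by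
  set X : Set R.carrier := {y | ε < R.rad y} with hX
  have hXo : IsOpen X := liou_isOpen_rad R ε
  have hmv := liou_mv_smooth h0 hB hs hε
  set φ : R.carrier → ℝ := fun y => (R.liou_mv v ε y) ^ 2 with hφ
  have hφs : R.Smooth φ X := fun y hy => (hmv y hy).pow 2
  have hφc : ContinuousOn φ X := Smooth.continuousOn R hXo hφs
  have h1 := R.energy_ineq hXo hφs hg hgX
  have hlev : ∀ y ∈ X, R.levi 1 φ y = 2 * R.liou_mv v ε y * R.levi 1 (R.liou_mv v ε) y +
      2 * ‖R.liou_dv v ε y‖ ^ 2 := by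
    intro y hy
    have h2 := R.levi_comp hXo hmv (G := fun x => x ^ 2) (contDiff_id.pow 2) hy 1
    have e1 : deriv (fun x : ℝ => x ^ 2) = fun x => 2 * x := by
      funext x; simp
    have e2 : deriv (fun x : ℝ => 2 * x) (R.liou_mv v ε y) = 2 := by
      simp
    rw [e1, e2] at h2
    exact h2
  have hlevc : ContinuousOn (R.levi 1 φ) X := by
    have h3 : R.Smooth (fun x => (φ x : ℂ)) X := fun y hy =>
      (Complex.ofRealCLM.contDiff.contDiffAt).comp _ (hφs y hy)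
    have h4 := Smooth.continuousOn R hXo (Smooth.dw R hXo (Smooth.dwb R hXo h3 1) 1)
    exact Complex.continuous_re.comp_continuousOn h4
  have hgn : Continuous (fun y => ‖g y‖ ^ 2) := hg.liou_cont.norm.pow 2
  have hgn2 : tsupport (fun y => ‖g y‖ ^ 2) ⊆ X := (liou_normsq_tsupp g).trans hgX
  have hgcs : HasCompactSupport (fun y => ‖g y‖ ^ 2) := liou_normsq_cs hg.2
  have c1 : Continuous (fun y => ‖g y‖ ^ 2 * ‖R.liou_dv v ε y‖ ^ 2) :=
    liou_cont_mul hgn hXo hgn2 ((liou_dv_cont h0 hB hs hε).norm.pow 2)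
  have c2 : Continuous (fun y => ‖g y‖ ^ 2 * (Real.exp (φ y) * R.levi 1 φ y)) :=
    liou_cont_mul hgn hXo hgn2 (hφc.rexp.mul hlevc)
  have h2 : R.sint (fun y => ‖g y‖ ^ 2 * ‖R.liou_dv v ε y‖ ^ 2) ≤
      R.sint (fun y => ‖g y‖ ^ 2 * (Real.exp (φ y) * R.levi 1 φ y)) := by
    refine R.sint_mono c1 hgcs.mul_right c2 hgcs.mul_right fun y => ?_
    by_cases hy : g y = 0
    · simp [hy]
    · have hyX : y ∈ X := hgX (subset_tsupport g hy)
      have hl := hlev y hyX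
      have hl0 := liou_mv_levi h0 hB hs hε (y := y) hyX
      have hm := liou_mv_mem h0 hB ε y
      refine mul_le_mul_of_nonneg_left ?_ (by positivity)
      have he : 1 ≤ Real.exp (φ y) := Real.one_le_exp (by positivity)
      have hl2 : ‖R.liou_dv v ε y‖ ^ 2 ≤ R.levi 1 φ y := by
        rw [hl]
        have : 0 ≤ 2 * R.liou_mv v ε y * R.levi 1 (R.liou_mv v ε) y :=
          mul_nonneg (by linarith [hm.1]) hl0
        nlinarith [sq_nonneg ‖R.liou_dv v ε y‖]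
      calc ‖R.liou_dv v ε y‖ ^ 2 ≤ R.levi 1 φ y := hl2
        _ ≤ Real.exp (φ y) * R.levi 1 φ y :=
          le_mul_of_one_le_left ((sq_nonneg _).trans hl2) he
  have h3 : R.sint (fun y => ‖g y‖ ^ 2 * (Real.exp (φ y) * R.levi 1 φ y)) ≤ R.En φ g := by
    refine le_trans (le_of_eq ?_) h1
    congr 1
    funext y
    ring
  have hdn : tsupport (fun y => ‖R.dzb g y‖ ^ 2) ⊆ X := by
    refine (liou_normsq_tsupp _).trans ((closure_minimal (liou_dwb_supp g) (isClosed_tsupport g)).trans hgX)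
  have h4 : R.En φ g ≤ Real.exp (B ^ 2) * R.En 0 g := by
    rw [liou_En0, ← liou_sint_const, RD.En]
    refine R.sint_mono (liou_cont_mul (hg.liou_dzb.liou_cont.norm.pow 2) hXo hdn hφc.rexp)
      (liou_normsq_cs hg.liou_dzb.2).mul_right ((hg.liou_dzb.liou_cont.norm.pow 2).const_mul _)
      ((liou_normsq_cs hg.liou_dzb.2).mul_left) fun y => ?_
    rw [mul_comm]
    refine mul_le_mul_of_nonneg_right (Real.exp_le_exp.2 ?_) (by positivity)
    have hm := liou_mv_mem h0 hB ε y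
    exact pow_le_pow_left₀ hm.1 hm.2 2
  linarith

include h0 hB hs in
theorem liou_cacc_disc {ε : ℝ} (hε : 0 < ε) {g : R.carrier → ℂ} (hg : R.Test g)
    (hgX : tsupport g ⊆ {y | ε < R.rad y}) (y : R.carrier) {s : ℝ} (hsr : s ≤ R.rad y) :
    ∫⁻ ζ in ball (0 : ℂ) s, (‖g (R.tr y ζ)‖ₑ * ‖R.liou_dv v ε (R.tr y ζ)‖ₑ) ^ 2 ≤
      ENNReal.ofReal (Real.exp (B ^ 2) * R.En 0 g) := by
  refine le_trans ?_ ((liou_disc_le (h := fun y => ‖g y‖ ^ 2 * ‖R.liou_dv v ε y‖ ^ 2) ?_ ?_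
    (fun y => by positivity) y hsr).trans
      (ENNReal.ofReal_le_ofReal (liou_cacc h0 hB hs hε hg hgX)))
  · refine lintegral_mono fun ζ => ?_
    rw [← ofReal_norm, ← ofReal_norm, ← ENNReal.ofReal_mul (norm_nonneg _),
      ← ENNReal.ofReal_pow (by positivity), mul_pow]
  · exact liou_cont_mul (hg.liou_cont.norm.pow 2) (liou_isOpen_rad R ε)
      ((liou_normsq_tsupp g).trans hgX) ((liou_dv_cont h0 hB hs hε).norm.pow 2)
  · exact (liou_normsq_cs hg.2).mul_right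

end Cacc


/-! ### convergence of the test functions to `1` -/

section Conv

variable {R}

theorem liou_ext {g : R.carrier → ℂ} (hg : R.Test g) (y : R.carrier) {s : ℝ} (hs0 : 0 < s)
    (hs : s < R.rad y) :
    ∃ f : ℂ → ℂ, ContDiff ℝ (∞ : WithTop ℕ∞) f ∧ ∀ ζ ∈ ball (0 : ℂ) s, f ζ = g (R.tr y ζ) := by
  let b : ContDiffBump (0 : ℂ) := ⟨s, (s + R.rad y) / 2, hs0, by linarith⟩
  refine ⟨fun ζ => (b ζ : ℂ) * g (R.tr y ζ), ?_, fun ζ hζ => ?_⟩
  · refine contDiff_iff_contDiffAt.2 fun ζ => ?_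
    by_cases hζ : ‖ζ‖ < R.rad y
    · have h1 : ContDiffAt ℝ (∞ : WithTop ℕ∞) (fun ζ => g (R.tr y ζ)) ζ :=
        Smooth.contDiffAt_tr R hg.1 hζ (mem_univ _)
      have h2 : ContDiffAt ℝ (∞ : WithTop ℕ∞) (fun ζ => (b ζ : ℂ)) ζ :=
        (Complex.ofRealCLM.contDiff.contDiffAt).comp ζ b.contDiffAt
      exact h2.mul h1
    · have h4 : (fun ζ => (b ζ : ℂ) * g (R.tr y ζ)) =ᶠ[𝓝 ζ] fun _ => 0 := by
        have h3 : {z : ℂ | (s + R.rad y) / 2 < ‖z‖} ∈ 𝓝 ζ :=
          (isOpen_lt continuous_const continuous_norm).mem_nhds (by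
            show (s + R.rad y) / 2 < ‖ζ‖
            linarith)
        filter_upwards [h3] with z hz
        have hz : (s + R.rad y) / 2 < ‖z‖ := hz
        rw [b.zero_of_le_dist (by simpa using hz.le)]; simp
      exact contDiffAt_const.congr_of_eventuallyEq h4
  · simp only
    rw [b.one_of_mem_closedBall (by
      rw [mem_closedBall_zero_iff]; exact (mem_ball_zero_iff.1 hζ).le)]
    simp

theorem liou_cutoff (R : RD ℂ) (y : R.carrier) {S : ℝ} (hS0 : 0 < S) (hS : S < R.rad y) :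
    ∃ θ : R.carrier → ℂ, R.Test θ ∧ ∀ ζ, ‖ζ‖ < S → θ (R.tr y ζ) = 1 := by
  classical
  set S1 : ℝ := (S + R.rad y) / 2 with hS1
  set S2 : ℝ := (S1 + R.rad y) / 2 with hS2
  have h12 : S < S1 ∧ S1 < S2 ∧ S2 < R.rad y := by
    refine ⟨by rw [hS1]; linarith, by rw [hS2, hS1]; linarith, by rw [hS2, hS1]; linarith⟩
  let b : ContDiffBump (0 : ℂ) := ⟨S, S1, hS0, h12.1⟩
  set θ : R.carrier → ℂ := fun y' =>
    if y' ∈ R.tr y '' ball 0 S2 then ((b (R.pr y' - R.pr y) : ℝ) : ℂ) else 0 with hθ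
  have hval : ∀ ζ, ‖ζ‖ < S2 → θ (R.tr y ζ) = ((b ζ : ℝ) : ℂ) := by
    intro ζ hζ
    have h1 : R.tr y ζ ∈ R.tr y '' ball 0 S2 := mem_image_of_mem _ (mem_ball_zero_iff.2 hζ)
    simp only [hθ, if_pos h1]
    rw [R.pr_tr y ζ (by linarith [h12.2.2]), add_sub_cancel_left]
  have hK : IsCompact (R.tr y '' closedBall 0 S1) := R.isCompact_tr_image y (by linarith [h12.2.1, h12.2.2])
  have hzero : ∀ y', y' ∉ R.tr y '' closedBall 0 S1 → θ y' = 0 := by
    intro y' hy'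
    by_cases h : y' ∈ R.tr y '' ball 0 S2
    · obtain ⟨ζ, hζ, rfl⟩ := h
      rw [mem_ball_zero_iff] at hζ
      rw [hval ζ hζ, b.zero_of_le_dist, ofReal_zero]
      by_contra hc
      push Not at hc
      refine hy' (mem_image_of_mem _ ?_)
      rw [mem_closedBall]
      exact hc.le
    · simp only [hθ, if_neg h]
  refine ⟨θ, ⟨fun e _ => ?_, HasCompactSupport.intro hK hzero⟩, fun ζ hζ => ?_⟩
  · by_cases he : e ∈ R.tr y '' ball 0 S2
    · obtain ⟨ζ₀, hζ₀, rfl⟩ := he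
      rw [mem_ball_zero_iff] at hζ₀
      have h1 : (fun v => θ (R.tr (R.tr y ζ₀) v)) =ᶠ[𝓝 0] fun v => ((b (ζ₀ + v) : ℝ) : ℂ) := by
        filter_upwards [ball_mem_nhds (0 : ℂ) (sub_pos.2 hζ₀)] with v hv
        rw [mem_ball_zero_iff] at hv
        have h2 : ‖ζ₀ + v‖ < S2 := (norm_add_le _ _).trans_lt (by linarith)
        have h3 := R.rad_tr y ζ₀ (by linarith [h12.2.2])
        rw [R.tr_tr y ζ₀ v (by linarith [h12.2.2]) (by linarith [h12.2.2]) (by linarith [h12.2.2]),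
          hval _ h2]
      refine ContDiffAt.congr_of_eventuallyEq ?_ h1
      refine (Complex.ofRealCLM.contDiff.contDiffAt).comp (0 : ℂ) ?_
      exact (b.contDiffAt).comp (0 : ℂ) (contDiffAt_const.add contDiffAt_id)
    · have he2 : e ∉ R.tr y '' closedBall 0 S1 := fun h => he
        (image_mono (closedBall_subset_ball h12.2.1) h)
      have h1 : ∀ᶠ y' in 𝓝 e, θ y' = 0 := by
        filter_upwards [hK.isClosed.isOpen_compl.mem_nhds he2] with y' hy' using hzero y' hy'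
      rw [R.nhds_eq e] at h1
      have h2 : (fun v => θ (R.tr e v)) =ᶠ[𝓝 0] fun _ => 0 := h1
      exact contDiffAt_const.congr_of_eventuallyEq h2
  · rw [hval ζ (by linarith [h12.1, h12.2.1]), b.one_of_mem_closedBall, ofReal_one]
    rw [mem_closedBall_zero_iff]
    exact hζ.le

theorem liou_avg_eq_ell {g : R.carrier → ℂ} {y : R.carrier} {S : ℝ} (hS : S ≤ R.rad y) {f : ℂ → ℂ}
    (hf : ∀ ζ ∈ ball (0 : ℂ) S, f ζ = g (R.tr y ζ)) {ρ : ℝ} (hρ : 0 < ρ) {w : ℂ}
    (hw : ‖w‖ + ρ ≤ S) : liou_avg ρ f w = R.ell (R.tr y w) ρ g := by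
  rw [liou_avg, RD.ell]
  refine integral_congr_ae (ae_of_all _ fun ζ => ?_)
  simp only
  by_cases hζ : 1 ≤ ‖ζ‖
  · simp [liou_chi_zero hζ]
  · push Not at hζ
    have h1 : ‖(ρ : ℂ) * ζ‖ < ρ := by
      rw [norm_mul, norm_real, Real.norm_eq_abs, abs_of_pos hρ]
      nlinarith
    have h2 : ‖w + (ρ : ℂ) * ζ‖ < S := (norm_add_le _ _).trans_lt (by linarith)
    have h3 := R.rad_tr y w (by linarith)
    rw [hf _ (mem_ball_zero_iff.2 h2), R.tr_tr y w _ (by linarith) (by linarith) (by linarith)]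

theorem liou_three (a b c : ℝ≥0∞) : (a + b + c) ^ 2 ≤ 9 * (a ^ 2 + b ^ 2 + c ^ 2) := by
  have h1 : a + b + c ≤ 3 * max a (max b c) := by
    have e1 : a ≤ max a (max b c) := le_max_left _ _
    have e2 : b ≤ max a (max b c) := (le_max_left _ _).trans (le_max_right _ _)
    have e3 : c ≤ max a (max b c) := (le_max_right _ _).trans (le_max_right _ _)
    calc a + b + c ≤ max a (max b c) + max a (max b c) + max a (max b c) :=
          add_le_add (add_le_add e1 e2) e3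
      _ = _ := by ring
  have h2 : (max a (max b c)) ^ 2 ≤ a ^ 2 + b ^ 2 + c ^ 2 := by
    rcases le_total a (max b c) with h | h
    · rw [max_eq_right h]
      rcases le_total b c with h' | h'
      · rw [max_eq_right h']; exact le_add_self
      · rw [max_eq_left h']
        calc b ^ 2 ≤ a ^ 2 + b ^ 2 := le_add_self
          _ ≤ _ := le_self_add
    · rw [max_eq_left h]
      calc a ^ 2 ≤ a ^ 2 + b ^ 2 := le_self_add
        _ ≤ _ := le_self_add
  calc (a + b + c) ^ 2 ≤ (3 * max a (max b c)) ^ 2 := pow_le_pow_left' h1 2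
    _ = 9 * (max a (max b c)) ^ 2 := by ring
    _ ≤ _ := by gcongr

theorem liou_sqrt_tendsto {u : ℕ → ℝ≥0∞} (h : Tendsto (fun n => u n ^ 2) atTop (𝓝 0)) :
    Tendsto u atTop (𝓝 0) := by
  have h1 := ((ENNReal.continuous_rpow_const (y := 1 / 2)).tendsto 0).comp h
  rw [ENNReal.zero_rpow_of_pos (by norm_num)] at h1
  refine h1.congr fun n => ?_
  simp only [Function.comp]
  rw [← ENNReal.rpow_natCast, ← ENNReal.rpow_mul]
  norm_num

variable {g : ℕ → R.carrier → ℂ} (hT : ∀ n, R.Test (g n))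
  (hE : Tendsto (fun n => R.En 0 (g n)) atTop (𝓝 0))

include hE in
theorem liou_E_tendsto {K : ℝ≥0∞} (hK : K ≠ ⊤) :
    Tendsto (fun n => K * ENNReal.ofReal (4 * R.En 0 (g n))) atTop (𝓝 0) := by
  have h1 := ENNReal.tendsto_ofReal (hE.const_mul 4)
  rw [mul_zero, ENNReal.ofReal_zero] at h1
  have h2 := ENNReal.Tendsto.const_mul h1 (Or.inr hK)
  rwa [mul_zero] at h2

/-- moving the centre: quantitative form -/
theorem liou_move {M : ℝ} (hM : ∀ ζ, chi ζ ≤ M) {g : R.carrier → ℂ} (hg : R.Test g)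
    {y : R.carrier} {S ρ : ℝ} (hρ : 0 < ρ) (hS : S < R.rad y) {f : ℂ → ℂ}
    (hf1 : ContDiff ℝ 1 f) (hf : ∀ ζ ∈ ball (0 : ℂ) S, f ζ = g (R.tr y ζ)) {w : ℂ}
    (hw : ‖w‖ + ρ ≤ S) :
    ‖liou_avg ρ f w - liou_avg ρ f 0‖ₑ ^ 2 ≤ ENNReal.ofReal S ^ 2 * (ENNReal.ofReal (M / ρ ^ 2) ^ 2 *
      (volume (ball (0 : ℂ) S) * ENNReal.ofReal (4 * R.En 0 g))) := by
  have h1 := liou_P1 hM hρ hf1 hw (b := 0) (by
    rw [norm_zero]; linarith [norm_nonneg w])
  rw [sub_zero] at h1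
  have h2 := pow_le_pow_left' h1 2
  rw [mul_pow, mul_pow] at h2
  refine h2.trans ?_
  have hc : Continuous (fderiv ℝ f) := hf1.continuous_fderiv (by norm_num)
  have h3 := liou_lsq (volume.restrict (ball (0 : ℂ) S)) (h := fun x => ‖fderiv ℝ f x‖ₑ)
    hc.enorm.measurable.aemeasurable
  rw [Measure.restrict_apply_univ] at h3
  have h4 := liou_grad_le hg y hS.le hf
  have h5 : ‖w‖ₑ ≤ ENNReal.ofReal S := by
    rw [← ofReal_norm]; exact ENNReal.ofReal_le_ofReal (by linarith)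
  gcongr
  exact h3.trans (by gcongr)

include hT hE in
theorem liou_A_to_D {y : R.carrier} {s ρ : ℝ} (hs : 0 < s) (hρ : 0 < ρ) (h : s + ρ < R.rad y)
    (hA : Tendsto (fun n => R.ell y ρ (g n)) atTop (𝓝 1)) :
    Tendsto (fun n => ∫⁻ ζ in ball (0 : ℂ) s, ‖g n (R.tr y ζ) - 1‖ₑ ^ 2) atTop (𝓝 0) := by
  obtain ⟨M, hM0, hM⟩ := liou_chi_bound
  set S := s + ρ with hSdef
  have hS0 : 0 < S := by positivity
  set V : ℝ≥0∞ := volume (ball (0 : ℂ) s) with hV
  have hVt : V ≠ ⊤ := measure_ball_lt_top.ne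
  set K1 : ℝ≥0∞ := 9 * ENNReal.ofReal (ρ ^ 2) + 9 * V * (ENNReal.ofReal S ^ 2 *
    (ENNReal.ofReal (M / ρ ^ 2) ^ 2 * volume (ball (0 : ℂ) S))) with hK1
  have hK1t : K1 ≠ ⊤ := by
    have : volume (ball (0 : ℂ) S) ≠ ⊤ := measure_ball_lt_top.ne
    rw [hK1]
    finiteness
  have hbound : ∀ n, ∫⁻ ζ in ball (0 : ℂ) s, ‖g n (R.tr y ζ) - 1‖ₑ ^ 2 ≤
      K1 * ENNReal.ofReal (4 * R.En 0 (g n)) + (9 * V) * ‖R.ell y ρ (g n) - 1‖ₑ ^ 2 := by
    intro n
    obtain ⟨f, hf1, hf⟩ := liou_ext (hT n) y hS0 h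
    have hfc : ContDiff ℝ 1 f := hf1.of_le liou_one_le
    have hell : liou_avg ρ f 0 = R.ell y ρ (g n) := by
      have := liou_avg_eq_ell h.le hf hρ (w := 0) (by rw [norm_zero]; linarith)
      rwa [R.tr_zero] at this
    have hP2 := liou_P2 hρ hfc (s := s) (S := S) le_rfl
    have hgr := liou_grad_le (hT n) y h.le hf
    calc ∫⁻ ζ in ball (0 : ℂ) s, ‖g n (R.tr y ζ) - 1‖ₑ ^ 2
        ≤ ∫⁻ ζ in ball (0 : ℂ) s, (9 * ‖f ζ - liou_avg ρ f ζ‖ₑ ^ 2 +
          (9 * (ENNReal.ofReal S ^ 2 * (ENNReal.ofReal (M / ρ ^ 2) ^ 2 *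
            (volume (ball (0 : ℂ) S) * ENNReal.ofReal (4 * R.En 0 (g n))))) +
          9 * ‖R.ell y ρ (g n) - 1‖ₑ ^ 2)) := by
          refine setLIntegral_mono' measurableSet_ball fun ζ hζ => ?_
          rw [mem_ball_zero_iff] at hζ
          have e1 : g n (R.tr y ζ) - 1 = (f ζ - liou_avg ρ f ζ) + (liou_avg ρ f ζ - liou_avg ρ f 0) +
              (liou_avg ρ f 0 - 1) := by
            rw [hf ζ (mem_ball_zero_iff.2 (by linarith))]; ring
          have e2 : ‖g n (R.tr y ζ) - 1‖ₑ ≤ ‖f ζ - liou_avg ρ f ζ‖ₑ +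
              ‖liou_avg ρ f ζ - liou_avg ρ f 0‖ₑ + ‖liou_avg ρ f 0 - 1‖ₑ := by
            rw [e1]
            exact (enorm_add_le _ _).trans (add_le_add_left (enorm_add_le _ _) _)
          have e3 := (pow_le_pow_left' e2 2).trans (liou_three _ _ _)
          rw [hell] at e3
          refine e3.trans ?_
          rw [mul_add, mul_add, add_assoc]
          have e4 := liou_move hM (hT n) hρ h hfc hf (w := ζ) (by linarith)
          rw [hell] at e4
          gcongr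
      _ = 9 * (∫⁻ ζ in ball (0 : ℂ) s, ‖f ζ - liou_avg ρ f ζ‖ₑ ^ 2) +
          (9 * (ENNReal.ofReal S ^ 2 * (ENNReal.ofReal (M / ρ ^ 2) ^ 2 *
            (volume (ball (0 : ℂ) S) * ENNReal.ofReal (4 * R.En 0 (g n))))) +
          9 * ‖R.ell y ρ (g n) - 1‖ₑ ^ 2) * V := by
          rw [lintegral_add_right _ measurable_const, lintegral_const, Measure.restrict_apply_univ,
            lintegral_const_mul' _ _ (by norm_num)]
      _ ≤ 9 * (ENNReal.ofReal (ρ ^ 2) * ENNReal.ofReal (4 * R.En 0 (g n))) +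
          (9 * (ENNReal.ofReal S ^ 2 * (ENNReal.ofReal (M / ρ ^ 2) ^ 2 *
            (volume (ball (0 : ℂ) S) * ENNReal.ofReal (4 * R.En 0 (g n))))) +
          9 * ‖R.ell y ρ (g n) - 1‖ₑ ^ 2) * V := by
          gcongr
          exact hP2.trans (by gcongr)
      _ = _ := by rw [hK1]; ring
  have hlim : Tendsto (fun n => K1 * ENNReal.ofReal (4 * R.En 0 (g n)) +
      (9 * V) * ‖R.ell y ρ (g n) - 1‖ₑ ^ 2) atTop (𝓝 0) := by
    have h1 := liou_E_tendsto hE hK1t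
    have h2 : Tendsto (fun n => ‖R.ell y ρ (g n) - 1‖ₑ ^ 2) atTop (𝓝 0) := by
      have := ENNReal.Tendsto.pow (n := 2) ((hA.sub_const 1).enorm)
      simpa using this
    have h3 := ENNReal.Tendsto.const_mul h2 (a := 9 * V) (Or.inr (by finiteness))
    rw [mul_zero] at h3
    simpa using h1.add h3
  exact tendsto_of_tendsto_of_tendsto_of_le_of_le tendsto_const_nhds hlim (fun _ => zero_le) hbound


include hT hE in
theorem liou_A_step {x : R.carrier} {w : ℂ} {c : ℝ} (hc : 0 < c) (hw : ‖w‖ ≤ c)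
    (hx : 4 * c ≤ R.rad x) (hA : Tendsto (fun n => R.ell x c (g n)) atTop (𝓝 1)) :
    Tendsto (fun n => R.ell (R.tr x w) c (g n)) atTop (𝓝 1) := by
  obtain ⟨M, hM0, hM⟩ := liou_chi_bound
  set S := 3 * c with hSdef
  have hS0 : 0 < S := by positivity
  have hS : S < R.rad x := by rw [hSdef]; linarith
  set K : ℝ≥0∞ := ENNReal.ofReal S ^ 2 * (ENNReal.ofReal (M / c ^ 2) ^ 2 *
      volume (ball (0 : ℂ) S)) with hK
  have hKt : K ≠ ⊤ := by
    have : volume (ball (0 : ℂ) S) ≠ ⊤ := measure_ball_lt_top.ne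
    rw [hK]
    finiteness
  have hbound : ∀ n, ‖R.ell (R.tr x w) c (g n) - R.ell x c (g n)‖ₑ ^ 2 ≤
      K * ENNReal.ofReal (4 * R.En 0 (g n)) := by
    intro n
    obtain ⟨f, hf1, hf⟩ := liou_ext (hT n) x hS0 hS
    have hfc : ContDiff ℝ 1 f := hf1.of_le liou_one_le
    have e0 : liou_avg c f 0 = R.ell x c (g n) := by
      have := liou_avg_eq_ell hS.le hf hc (w := 0) (by rw [norm_zero]; linarith)
      rwa [R.tr_zero] at this
    have e1 : liou_avg c f w = R.ell (R.tr x w) c (g n) :=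
      liou_avg_eq_ell hS.le hf hc (by linarith)
    have h1 := liou_move hM (hT n) hc hS hfc hf (w := w) (by linarith)
    rw [e0, e1] at h1
    refine h1.trans (le_of_eq ?_)
    rw [hK]; ring
  have h2 : Tendsto (fun n => ‖R.ell (R.tr x w) c (g n) - R.ell x c (g n)‖ₑ ^ 2) atTop (𝓝 0) :=
    tendsto_of_tendsto_of_tendsto_of_le_of_le tendsto_const_nhds (liou_E_tendsto hE hKt)
      (fun _ => zero_le) hbound
  have h3 := liou_sqrt_tendsto h2
  have h4 : Tendsto (fun n => R.ell (R.tr x w) c (g n) - R.ell x c (g n)) atTop (𝓝 0) := by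
    rw [tendsto_iff_edist_tendsto_0]
    refine h3.congr fun n => ?_
    rw [edist_eq_enorm_sub, sub_zero]
  have h5 := h4.add hA
  simpa using h5

include hT in
theorem liou_D_to_A {y : R.carrier} {s ρ : ℝ} (hρ : 0 < ρ) (hρs : ρ ≤ s) (hs : s < R.rad y)
    (hD : Tendsto (fun n => ∫⁻ ζ in ball (0 : ℂ) s, ‖g n (R.tr y ζ) - 1‖ₑ ^ 2) atTop (𝓝 0)) :
    Tendsto (fun n => R.ell y ρ (g n)) atTop (𝓝 1) := by
  obtain ⟨M, hM0, hM⟩ := liou_chi_bound
  have hbound : ∀ n, ‖R.ell y ρ (g n) - 1‖ₑ ^ 2 ≤ ENNReal.ofReal (M / ρ ^ 2) *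
      ∫⁻ ζ in ball (0 : ℂ) s, ‖g n (R.tr y ζ) - 1‖ₑ ^ 2 := by
    intro n
    obtain ⟨f, hf1, hf⟩ := liou_ext (hT n) y (hρ.trans_le hρs) hs
    have hfc : Continuous f := hf1.continuous
    have e0 : liou_avg ρ f 0 = R.ell y ρ (g n) := by
      have := liou_avg_eq_ell hs.le hf hρ (w := 0) (by rw [norm_zero]; linarith)
      rwa [R.tr_zero] at this
    have e1 : R.ell y ρ (g n) - 1 = ∫ ζ : ℂ, (chi ζ : ℂ) * (f (0 + (ρ : ℂ) * ζ) - 1) := by
      have h3 : ∫ ζ : ℂ, (chi ζ : ℂ) * 1 = 1 := by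
        rw [integral_mul_const, integral_complex_ofReal, integral_chi]; simp
      have h6 : Integrable (fun ζ : ℂ => (chi ζ : ℂ) * 1) :=
        (liou_chi_int.ofReal (𝕜 := ℂ)).mul_const _
      simp only [mul_sub]
      rw [integral_sub (liou_avg_int hfc ρ 0) h6, h3, ← e0, liou_avg]
    have h4 := liou_jensen (F := fun ζ => f (0 + (ρ : ℂ) * ζ) - 1)
      ((hfc.comp (by fun_prop)).sub continuous_const).measurable
    have h5 := liou_chi_l1 hM hρ (h := fun x => ‖f x - 1‖ₑ ^ 2)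
      ((hfc.sub continuous_const).enorm.measurable.pow_const 2) 0 (S := s) (by
        rw [norm_zero]; linarith)
    rw [e1]
    refine h4.trans (h5.trans (le_of_eq ?_))
    congr 1
    refine setLIntegral_congr_fun measurableSet_ball fun ζ hζ => ?_
    rw [hf ζ hζ]
  have h1 := ENNReal.Tendsto.const_mul hD (a := ENNReal.ofReal (M / ρ ^ 2)) (Or.inr (by finiteness))
  rw [mul_zero] at h1
  have h2 : Tendsto (fun n => ‖R.ell y ρ (g n) - 1‖ₑ ^ 2) atTop (𝓝 0) :=
    tendsto_of_tendsto_of_tendsto_of_le_of_le tendsto_const_nhds h1 (fun _ => zero_le) hbound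
  have h3 := liou_sqrt_tendsto h2
  rw [tendsto_iff_edist_tendsto_0]
  refine h3.congr fun n => ?_
  rw [edist_eq_enorm_sub]

include hT hE in
theorem liou_A_chain {c : ℝ} (hc : 0 < c) {y₀ y : R.carrier}
    (h : Relation.ReflTransGen (fun x y => 4 * c ≤ R.rad x ∧ 4 * c ≤ R.rad y ∧
      ∃ v, ‖v‖ ≤ c ∧ y = R.tr x v) y₀ y)
    (hA : Tendsto (fun n => R.ell y₀ c (g n)) atTop (𝓝 1)) :
    Tendsto (fun n => R.ell y c (g n)) atTop (𝓝 1) := by
  induction h with
  | refl => exact hA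
  | tail _ hstep ih =>
    obtain ⟨h4, h5, w, hw, rfl⟩ := hstep
    exact liou_A_step hT hE hc hw h4 ih

include hT hE in
theorem liou_D_all {y₀ : R.carrier} {r : ℝ} (hr : 0 < r) (hr1 : r < R.rad y₀)
    (hA0 : ∀ n, R.ell y₀ r (g n) = 1) {y : R.carrier} (hy : R.Reach y₀ y) {s : ℝ}
    (hs0 : 0 < s) (hs : s < R.rad y) :
    Tendsto (fun n => ∫⁻ ζ in ball (0 : ℂ) s, ‖g n (R.tr y ζ) - 1‖ₑ ^ 2) atTop (𝓝 0) := by
  obtain ⟨c, hc, hch⟩ := R.reach_small hy
  set s₀ := (R.rad y₀ - r) / 2 with hs₀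
  have hs₀p : 0 < s₀ := by rw [hs₀]; linarith
  set c' := min c (min s₀ ((R.rad y - s) / 2)) with hc'
  have hc'p : 0 < c' := lt_min hc (lt_min hs₀p (by linarith))
  have h1 : c' ≤ c := min_le_left _ _
  have h2 : c' ≤ s₀ := (min_le_right _ _).trans (min_le_left _ _)
  have h3 : c' ≤ (R.rad y - s) / 2 := (min_le_right _ _).trans (min_le_right _ _)
  have hA : Tendsto (fun n => R.ell y₀ r (g n)) atTop (𝓝 1) := by
    simp only [hA0]; exact tendsto_const_nhds
  have hD0 := liou_A_to_D hT hE hs₀p hr (by rw [hs₀]; linarith) hA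
  have hA1 := liou_D_to_A hT hc'p h2 (by rw [hs₀]; linarith) hD0
  have hchain := hch c' hc'p h1
  have hA2 : Tendsto (fun n => R.ell y c' (g n)) atTop (𝓝 1) := by
    refine liou_A_chain hT hE hc'p hchain hA1
  exact liou_A_to_D hT hE hs0 hc'p (by linarith) hA2

end Conv


/-! ### the conclusion -/

section Final

variable {R} {v : R.carrier → ℝ} {B : ℝ} (h0 : ∀ y, 0 ≤ v y) (hB : ∀ y, v y ≤ B)
  (hs : ∀ y, SubharmonicOn (fun ζ => v (R.tr y ζ)) (ball 0 (R.rad y)))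

theorem liou_ev_rad {K : Set R.carrier} (hK : IsCompact K) :
    ∀ᶠ ε in 𝓝[>] (0 : ℝ), K ⊆ {y | ε < R.rad y} := by
  rcases K.eq_empty_or_nonempty with h | h
  · simp [h]
  · obtain ⟨x, hx, hmin⟩ := hK.exists_isMinOn h R.continuous_rad.continuousOn
    have h1 : ∀ᶠ ε in 𝓝[>] (0 : ℝ), ε < R.rad x :=
      mem_nhdsWithin_of_mem_nhds (Iio_mem_nhds (R.rad_pos x))
    filter_upwards [h1] with ε hε y hy
    exact hε.trans_le (hmin hy)

theorem liou_tr_cont (y : R.carrier) : ContinuousOn (fun ζ => R.tr y ζ) (ball 0 (R.rad y)) := by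
  intro ζ hζ
  have h1 := R.continuousAt_tr (e := y) (v := ζ) (mem_ball_zero_iff.1 hζ)
  have h2 : ContinuousAt (fun ζ : ℂ => (y, ζ)) ζ := by fun_prop
  exact (ContinuousAt.comp (f := fun ζ : ℂ => (y, ζ)) h1 h2).continuousWithinAt

/-- the smooth planar representative of the mollification near `y` -/
noncomputable def liou_F (R : RD ℂ) (v : R.carrier → ℝ) (ε : ℝ) (y : R.carrier) (ζ : ℂ) : ℂ :=
  (liou_moll ε (R.liou_loc v y) ζ : ℂ)

include h0 hB hs in
theorem liou_F_smooth {ε : ℝ} (hε : 0 < ε) (y : R.carrier) :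
    ContDiff ℝ (∞ : WithTop ℕ∞) (R.liou_F v ε y) :=
  Complex.ofRealCLM.contDiff.comp (liou_moll_contDiff (liou_loc_int h0 hB hs y) hε)

theorem liou_F_ev {ε : ℝ} (hε : 0 < ε) {y : R.carrier} {ζ : ℂ} (h : ‖ζ‖ + ε < R.rad y) :
    (fun ξ => (R.liou_mv v ε (R.tr y ξ) : ℂ)) =ᶠ[𝓝 ζ] R.liou_F v ε y := by
  have h1 : ζ ∈ ball (0 : ℂ) (R.rad y - ε) := by rw [mem_ball_zero_iff]; linarith
  filter_upwards [isOpen_ball.mem_nhds h1] with ξ hξ
  rw [mem_ball_zero_iff] at hξ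
  rw [liou_F, liou_mv_tr hε (by linarith)]

theorem liou_dv_eq {ε : ℝ} (hε : 0 < ε) {y : R.carrier} {ζ : ℂ} (h : ‖ζ‖ + ε < R.rad y) :
    R.liou_dv v ε (R.tr y ζ) = pw 1 (R.liou_F v ε y) ζ := by
  rw [liou_dv, R.dw_tr _ 1 (by linarith), pw, pw, (liou_F_ev hε h).fderiv_eq]

theorem liou_F_fderiv {ε : ℝ} (hε : 0 < ε) {y : R.carrier} {ζ : ℂ} (h : ‖ζ‖ + ε < R.rad y) :
    ‖fderiv ℝ (R.liou_F v ε y) ζ‖ ≤ 2 * ‖R.liou_dv v ε (R.tr y ζ)‖ := by
  have h1 : ‖R.dwb 1 (fun x => (R.liou_mv v ε x : ℂ)) (R.tr y ζ)‖ = ‖R.liou_dv v ε (R.tr y ζ)‖ := by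
    have h2 := R.dwb_conj (fun x => (R.liou_mv v ε x : ℂ)) 1 (R.tr y ζ)
    simp only [Complex.conj_ofReal] at h2
    rw [h2, RCLike.norm_conj]
    rfl
  rw [← (liou_F_ev hε h).fderiv_eq]
  refine (liou_fderiv_le _ _).trans ?_
  rw [← R.dw_tr (fun x => (R.liou_mv v ε x : ℂ)) 1 (by linarith : ‖ζ‖ < R.rad y),
    ← R.dwb_tr (fun x => (R.liou_mv v ε x : ℂ)) 1 (by linarith : ‖ζ‖ < R.rad y), h1]
  show ‖R.liou_dv v ε (R.tr y ζ)‖ + _ ≤ _
  linarith

include h0 hB hs in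
theorem liou_dv_meas {ε : ℝ} (hε : 0 < ε) {y : R.carrier} {S : ℝ} (h : S + ε < R.rad y) :
    AEMeasurable (fun ζ => ‖R.liou_dv v ε (R.tr y ζ)‖ₑ) (volume.restrict (ball (0 : ℂ) S)) := by
  have h1 : Continuous (fun ζ => ‖pw 1 (R.liou_F v ε y) ζ‖ₑ) := by
    have h2 : Continuous (fderiv ℝ (R.liou_F v ε y)) :=
      (liou_F_smooth h0 hB hs hε y).continuous_fderiv (by simp)
    unfold pw
    fun_prop
  refine (h1.measurable.aemeasurable).congr ?_
  refine (ae_restrict_iff' measurableSet_ball).2 (ae_of_all _ fun ζ hζ => ?_)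
  rw [mem_ball_zero_iff] at hζ
  simp only
  rw [liou_dv_eq hε (by linarith)]

variable {g : ℕ → R.carrier → ℂ} (hT : ∀ n, R.Test (g n))
  (hE : Tendsto (fun n => R.En 0 (g n)) atTop (𝓝 0))

include h0 hB hs hT hE in
theorem liou_dv_l1 {y : R.carrier} {S : ℝ} (hS0 : 0 < S) (hS : S < R.rad y)
    (hD : Tendsto (fun n => ∫⁻ ζ in ball (0 : ℂ) S, ‖g n (R.tr y ζ) - 1‖ₑ ^ 2) atTop (𝓝 0)) :
    Tendsto (fun ε => (∫⁻ ζ in ball (0 : ℂ) S, ‖R.liou_dv v ε (R.tr y ζ)‖ₑ) ^ 2)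
      (𝓝[>] 0) (𝓝 0) := by
  obtain ⟨θ, hθ, hθ1⟩ := liou_cutoff R y hS0 hS
  set V : ℝ≥0∞ := volume (ball (0 : ℂ) S) with hV
  have hVt : V ≠ ⊤ := measure_ball_lt_top.ne
  set C' : ℝ≥0∞ := ENNReal.ofReal (Real.exp (B ^ 2) * R.En 0 θ) with hC'
  have hC't : C' ≠ ⊤ := ENNReal.ofReal_ne_top
  have hlim : Tendsto (fun n => 9 * (V * ENNReal.ofReal (Real.exp (B ^ 2) * R.En 0 (g n)) +
      (∫⁻ ζ in ball (0 : ℂ) S, ‖g n (R.tr y ζ) - 1‖ₑ ^ 2) * C')) atTop (𝓝 0) := by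
    have h1 := ENNReal.tendsto_ofReal (hE.const_mul (Real.exp (B ^ 2)))
    rw [mul_zero, ENNReal.ofReal_zero] at h1
    have h2 := ENNReal.Tendsto.const_mul h1 (Or.inr hVt)
    have h3 := ENNReal.Tendsto.mul_const hD (Or.inr hC't)
    have h4 := ENNReal.Tendsto.const_mul (h2.add h3) (a := 9) (Or.inr (by norm_num))
    simpa using h4
  rw [ENNReal.tendsto_nhds_zero]
  intro η hη
  obtain ⟨n, hn⟩ := ((ENNReal.tendsto_nhds_zero.1 hlim) η hη).exists
  have h1 : ∀ᶠ ε in 𝓝[>] (0 : ℝ), ε < R.rad y - S :=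
    mem_nhdsWithin_of_mem_nhds (Iio_mem_nhds (by linarith))
  filter_upwards [h1, self_mem_nhdsWithin, liou_ev_rad (hT n).2, liou_ev_rad hθ.2] with
    ε he1 he2 he3 he4
  have hε : 0 < ε := he2
  have hm := liou_dv_meas h0 hB hs hε (y := y) (S := S) (by linarith)
  have hgm : AEMeasurable (fun ζ => ‖g n (R.tr y ζ)‖ₑ) (volume.restrict (ball (0 : ℂ) S)) := by
    have h2 : ContinuousOn (fun ζ => g n (R.tr y ζ)) (ball 0 S) :=
      (hT n).liou_cont.comp_continuousOn ((liou_tr_cont y).mono (ball_subset_ball hS.le))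
    exact (h2.aestronglyMeasurable measurableSet_ball).enorm
  have hgm' : AEMeasurable (fun ζ => ‖g n (R.tr y ζ) - 1‖ₑ) (volume.restrict (ball (0 : ℂ) S)) := by
    have h2 : ContinuousOn (fun ζ => g n (R.tr y ζ) - 1) (ball 0 S) :=
      ((hT n).liou_cont.comp_continuousOn ((liou_tr_cont y).mono (ball_subset_ball hS.le))).sub
        continuousOn_const
    exact (h2.aestronglyMeasurable measurableSet_ball).enorm
  have hdv2 : ∫⁻ ζ in ball (0 : ℂ) S, ‖R.liou_dv v ε (R.tr y ζ)‖ₑ ^ 2 ≤ C' := by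
    refine le_trans (le_of_eq ?_) (liou_cacc_disc h0 hB hs hε hθ he4 y hS.le)
    refine setLIntegral_congr_fun measurableSet_ball fun ζ hζ => ?_
    rw [hθ1 ζ (mem_ball_zero_iff.1 hζ)]
    simp
  have hg2 := liou_cacc_disc h0 hB hs hε (hT n) he3 y hS.le
  have e1 : ∫⁻ ζ in ball (0 : ℂ) S, ‖R.liou_dv v ε (R.tr y ζ)‖ₑ ≤
      (∫⁻ ζ in ball (0 : ℂ) S, ‖g n (R.tr y ζ)‖ₑ * ‖R.liou_dv v ε (R.tr y ζ)‖ₑ) +
      (∫⁻ ζ in ball (0 : ℂ) S, ‖g n (R.tr y ζ) - 1‖ₑ * ‖R.liou_dv v ε (R.tr y ζ)‖ₑ) + 0 := by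
    have hgmm : AEMeasurable (fun ζ => ‖g n (R.tr y ζ)‖ₑ * ‖R.liou_dv v ε (R.tr y ζ)‖ₑ)
      (volume.restrict (ball (0 : ℂ) S)) := hgm.mul hm
    rw [add_zero, ← lintegral_add_left' hgmm]
    refine lintegral_mono fun ζ => ?_
    rw [← add_mul]
    have e2 : (1 : ℝ≥0∞) ≤ ‖g n (R.tr y ζ)‖ₑ + ‖g n (R.tr y ζ) - 1‖ₑ := by
      have e3 : (1 : ℂ) = g n (R.tr y ζ) - (g n (R.tr y ζ) - 1) := by ring
      calc (1 : ℝ≥0∞) = ‖(1 : ℂ)‖ₑ := by simp
        _ = ‖g n (R.tr y ζ) - (g n (R.tr y ζ) - 1)‖ₑ := by rw [← e3]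
        _ ≤ _ := enorm_sub_le
    exact le_mul_of_one_le_left (zero_le) e2
  have e4 := (pow_le_pow_left' e1 2).trans (liou_three _ _ _)
  have e5 := liou_lsq (volume.restrict (ball (0 : ℂ) S)) (hgm.mul hm)
  rw [Measure.restrict_apply_univ] at e5
  have e6 := liou_cs (volume.restrict (ball (0 : ℂ) S)) hgm' hm
  refine e4.trans (le_trans ?_ hn)
  rw [zero_pow two_ne_zero, add_zero]
  gcongr
  · exact e5.trans (by gcongr; exact hg2)
  · exact e6.trans (by gcongr)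

include h0 hB hs in
theorem liou_avg_lim {δ : ℝ} (hδ : 0 < δ) {y : R.carrier} {a : ℂ} (ha : ‖a‖ + δ < R.rad y) :
    Tendsto (fun ε => liou_avg δ (R.liou_F v ε y) a) (𝓝[>] 0)
      (𝓝 (liou_avg δ (fun ζ => (R.liou_loc v y ζ : ℂ)) a)) := by
  have hB0 : 0 ≤ B := (h0 y).trans (hB y)
  refine tendsto_integral_filter_of_dominated_convergence (fun ζ => chi ζ * B) ?_ ?_
    (liou_chi_int.mul_const _) ?_
  · filter_upwards [self_mem_nhdsWithin] with ε hε
    exact (liou_avg_int (liou_F_smooth h0 hB hs hε y).continuous δ a).aestronglyMeasurable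
  · filter_upwards [self_mem_nhdsWithin] with ε hε
    refine ae_of_all _ fun ζ => ?_
    rw [norm_mul, norm_real, Real.norm_eq_abs, abs_of_nonneg (chi_nonneg ζ)]
    refine mul_le_mul_of_nonneg_left ?_ (chi_nonneg ζ)
    rw [liou_F, norm_real, Real.norm_eq_abs, liou_moll]
    set w := a + (δ : ℂ) * ζ with hw
    have h1 : |∫ ζ : ℂ, chi ζ * R.liou_loc v y (w + (ε : ℂ) * ζ)| ≤ ∫ ζ : ℂ, chi ζ * B := by
      rw [← Real.norm_eq_abs]
      refine norm_integral_le_of_norm_le (liou_chi_int.mul_const _) (ae_of_all _ fun ζ => ?_)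
      rw [Real.norm_eq_abs, abs_mul, abs_of_nonneg (chi_nonneg ζ)]
      exact mul_le_mul_of_nonneg_left (liou_loc_abs h0 hB y _) (chi_nonneg ζ)
    rw [integral_mul_const, integral_chi, one_mul] at h1
    exact h1
  · refine ae_of_all _ fun ζ => ?_
    by_cases hζ : 1 ≤ ‖ζ‖
    · simp [liou_chi_zero hζ]
    · push Not at hζ
      have h1 : ‖(δ : ℂ) * ζ‖ < δ := by
        rw [norm_mul, norm_real, Real.norm_eq_abs, abs_of_pos hδ]
        nlinarith
      have h2 : ‖a + (δ : ℂ) * ζ‖ < R.rad y := (norm_add_le _ _).trans_lt (by linarith)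
      have h3 := liou_moll_tendsto (liou_loc_meas hs y) (liou_loc_abs h0 hB y) (liou_loc_sub hs y)
        (liou_loc_usc hs y) h2
      exact ((Complex.continuous_ofReal.tendsto _).comp h3).const_mul _

include h0 hB hs in
theorem liou_const_disc {y : R.carrier}
    (hd : ∀ S, 0 < S → S < R.rad y → Tendsto
      (fun ε => (∫⁻ ζ in ball (0 : ℂ) S, ‖R.liou_dv v ε (R.tr y ζ)‖ₑ) ^ 2) (𝓝[>] 0) (𝓝 0))
    {a : ℂ} (ha : ‖a‖ < R.rad y) : v (R.tr y a) = v y := by
  obtain ⟨M, hM0, hM⟩ := liou_chi_bound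
  have key : ∀ δ, 0 < δ → ‖a‖ + δ < R.rad y →
      liou_moll δ (R.liou_loc v y) a = liou_moll δ (R.liou_loc v y) 0 := by
    intro δ hδ hδ2
    set S := ‖a‖ + δ with hS
    have hS0 : 0 < S := by positivity
    have h1 : Tendsto (fun ε => ‖liou_avg δ (R.liou_F v ε y) a - liou_avg δ (R.liou_F v ε y) 0‖ₑ)
        (𝓝[>] 0) (𝓝 ‖liou_avg δ (fun ζ => (R.liou_loc v y ζ : ℂ)) a -
          liou_avg δ (fun ζ => (R.liou_loc v y ζ : ℂ)) 0‖ₑ) :=
      ((liou_avg_lim h0 hB hs hδ hδ2).sub (liou_avg_lim h0 hB hs hδ (by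
        rw [norm_zero]; linarith [norm_nonneg a]))).enorm
    have h2 : Tendsto (fun ε => ‖a - 0‖ₑ * (ENNReal.ofReal (M / δ ^ 2) *
        (2 * ∫⁻ ζ in ball (0 : ℂ) S, ‖R.liou_dv v ε (R.tr y ζ)‖ₑ))) (𝓝[>] 0) (𝓝 0) := by
      have h3 : Tendsto (fun ε => ∫⁻ ζ in ball (0 : ℂ) S, ‖R.liou_dv v ε (R.tr y ζ)‖ₑ)
          (𝓝[>] 0) (𝓝 0) := by
        have h4 := ((ENNReal.continuous_rpow_const (y := 1 / 2)).tendsto 0).comp (hd S hS0 hδ2)
        rw [ENNReal.zero_rpow_of_pos (by norm_num)] at h4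
        refine h4.congr fun n => ?_
        simp only [Function.comp]
        rw [← ENNReal.rpow_natCast, ← ENNReal.rpow_mul]
        norm_num
      have h5 := ENNReal.Tendsto.const_mul h3 (a := 2) (Or.inr (by norm_num))
      have h6 := ENNReal.Tendsto.const_mul h5 (a := ENNReal.ofReal (M / δ ^ 2)) (Or.inr (by finiteness))
      have h7 := ENNReal.Tendsto.const_mul h6 (a := ‖a - 0‖ₑ) (Or.inr (by finiteness))
      simpa using h7
    have h3 : ‖liou_avg δ (fun ζ => (R.liou_loc v y ζ : ℂ)) a -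
          liou_avg δ (fun ζ => (R.liou_loc v y ζ : ℂ)) 0‖ₑ ≤ 0 := by
      refine le_of_tendsto_of_tendsto h1 h2 ?_
      have h4 : ∀ᶠ ε in 𝓝[>] (0 : ℝ), ε < R.rad y - S :=
        mem_nhdsWithin_of_mem_nhds (Iio_mem_nhds (by linarith))
      filter_upwards [h4, self_mem_nhdsWithin] with ε he1 he2
      have hε : 0 < ε := he2
      have h5 := liou_P1 hM hδ ((liou_F_smooth h0 hB hs hε y).of_le liou_one_le) (a := a) (b := 0)
        (S := S) le_rfl (by rw [norm_zero]; linarith [norm_nonneg a])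
      refine h5.trans ?_
      gcongr
      calc ∫⁻ x in ball (0 : ℂ) S, ‖fderiv ℝ (R.liou_F v ε y) x‖ₑ
          ≤ ∫⁻ x in ball (0 : ℂ) S, 2 * ‖R.liou_dv v ε (R.tr y x)‖ₑ := by
            refine setLIntegral_mono' measurableSet_ball fun ζ hζ => ?_
            rw [mem_ball_zero_iff] at hζ
            have h6 := liou_F_fderiv (v := v) hε (y := y) (ζ := ζ) (by linarith)
            rw [← ofReal_norm, ← ofReal_norm]
            refine (ENNReal.ofReal_le_ofReal h6).trans (le_of_eq ?_)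
            rw [ENNReal.ofReal_mul (by norm_num)]
            norm_num
        _ = _ := lintegral_const_mul' _ _ (by norm_num)
    have h4 : liou_avg δ (fun ζ => (R.liou_loc v y ζ : ℂ)) a =
        liou_avg δ (fun ζ => (R.liou_loc v y ζ : ℂ)) 0 := by
      rw [← sub_eq_zero, ← enorm_eq_zero]
      exact le_antisymm h3 (zero_le)
    have h5 : ∀ b : ℂ, liou_avg δ (fun ζ => (R.liou_loc v y ζ : ℂ)) b =
        (liou_moll δ (R.liou_loc v y) b : ℂ) := by
      intro b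
      rw [liou_avg, liou_moll, ← integral_complex_ofReal]
      refine integral_congr_ae (ae_of_all _ fun ζ => ?_)
      simp
    rw [h5, h5] at h4
    exact_mod_cast h4
  have t1 := liou_moll_tendsto (liou_loc_meas hs y) (liou_loc_abs h0 hB y) (liou_loc_sub hs y)
    (liou_loc_usc hs y) ha
  have t2 := liou_moll_tendsto (liou_loc_meas hs y) (liou_loc_abs h0 hB y) (liou_loc_sub hs y)
    (liou_loc_usc hs y) (ξ := 0) (by simpa using R.rad_pos y)
  have h1 : ∀ᶠ ε in 𝓝[>] (0 : ℝ), ε < R.rad y - ‖a‖ :=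
    mem_nhdsWithin_of_mem_nhds (Iio_mem_nhds (by linarith))
  have h2 : Tendsto (fun ε => liou_moll ε (R.liou_loc v y) a) (𝓝[>] 0) (𝓝 (R.liou_loc v y 0)) := by
    refine t2.congr' ?_
    filter_upwards [h1, self_mem_nhdsWithin] with ε he1 he2
    exact (key ε he2 (by linarith)).symm
  have h3 := tendsto_nhds_unique t1 h2
  rw [liou_loc, indicator_of_mem (mem_ball_zero_iff.2 ha),
    indicator_of_mem (mem_ball_self (R.rad_pos y)), R.tr_zero] at h3
  exact h3

end Final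


/-! ### assembly -/

section Main

theorem liou_scale {g : R.carrier → ℂ} (hg : R.Test g) (c : ℂ) :
    R.Test (fun y => c * g y) ∧ R.En 0 (fun y => c * g y) = ‖c‖ ^ 2 * R.En 0 g ∧
      ∀ y₀ r, R.ell y₀ r (fun y => c * g y) = c * R.ell y₀ r g := by
  refine ⟨⟨fun e he => contDiffAt_const.mul (hg.1 e he), hg.2.mul_left⟩, ?_, fun y₀ r => ?_⟩
  · rw [liou_En0, liou_En0, ← liou_sint_const]
    congr 1
    funext y
    have hd : DifferentiableAt ℝ (fun v => g (R.tr y v)) 0 :=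
      (hg.1 y (mem_univ y)).differentiableAt (by simp)
    have h1 : fderiv ℝ (fun v => c * g (R.tr y v)) 0 = c • fderiv ℝ (fun v => g (R.tr y v)) 0 :=
      fderiv_const_mul hd c
    have h2 : R.dzb (fun y => c * g y) y = c * R.dzb g y := by
      simp only [RD.dzb, RD.dwb, h1, _root_.smul_apply, smul_eq_mul]
      ring
    rw [h2, norm_mul, mul_pow]
  · rw [RD.ell, RD.ell, ← integral_const_mul]
    refine integral_congr_ae (ae_of_all _ fun ζ => ?_)
    simp only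
    ring

theorem liou_seq (y₀ : R.carrier) {r : ℝ} (hN : ¬ BddAbove (R.NSet univ 0 y₀ r)) :
    ∃ g : ℕ → R.carrier → ℂ, (∀ n, R.Test (g n)) ∧
      Tendsto (fun n => R.En 0 (g n)) atTop (𝓝 0) ∧ ∀ n, R.ell y₀ r (g n) = 1 := by
  have h1 : ∀ n : ℕ, ∃ g, R.Test g ∧ R.En 0 g ≤ 1 / ((n : ℝ) + 1) ∧ R.ell y₀ r g = 1 := by
    intro n
    rw [not_bddAbove_iff] at hN
    obtain ⟨t, ⟨g, hg, -, hE, ht⟩, hnt⟩ := hN ((n : ℝ) + 1)
    rw [ht] at hnt
    have hn : (0 : ℝ) < (n : ℝ) + 1 := by positivity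
    have hne : R.ell y₀ r g ≠ 0 := by
      intro h
      rw [h] at hnt
      simp at hnt
      linarith
    obtain ⟨s1, s2, s3⟩ := liou_scale R hg (R.ell y₀ r g)⁻¹
    refine ⟨_, s1, ?_, ?_⟩
    · rw [s2, norm_inv, inv_pow, ← div_eq_inv_mul]
      have h0 := liou_En0_nonneg (R := R) g
      rw [div_le_div_iff₀ (by linarith) hn]
      nlinarith
    · rw [s3, inv_mul_cancel₀ hne]
  choose g hg1 hg2 hg3 using h1
  refine ⟨g, hg1, ?_, hg3⟩
  exact squeeze_zero (fun n => liou_En0_nonneg _) hg2 tendsto_one_div_add_atTop_nhds_zero_nat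

theorem liou_ind_meas {f : ℂ → ℝ} {S : ℝ} (hf : UpperSemicontinuousOn f (ball 0 S)) :
    Measurable ((ball (0 : ℂ) S).indicator f) := by
  refine measurable_of_Iio fun a => ?_
  obtain ⟨U, hU, hU2⟩ := upperSemicontinuousOn_iff_preimage_Iio.1 hf a
  have h1 : (ball (0 : ℂ) S).indicator f ⁻¹' Iio a = (ball 0 S ∩ U) ∪
      ((ball 0 S)ᶜ ∩ {_x | (0 : ℝ) < a}) := by
    rw [← hU2]
    ext x
    by_cases hx : x ∈ ball (0 : ℂ) S
    · simp [hx]
    · simp only [mem_preimage, mem_Iio, mem_union, mem_inter_iff, hx, false_and, mem_compl_iff,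
        not_false_eq_true, mem_ofPred_eq, true_and, false_or]
      rw [indicator_of_notMem hx]
  rw [h1]
  exact (measurableSet_ball.inter hU.measurableSet).union
    (measurableSet_ball.compl.inter (MeasurableSet.const _))

theorem liou_sub_add {f : ℂ → ℝ} {S C : ℝ} (hf : SubharmonicOn f (ball 0 S))
    (hC : ∀ x ∈ ball (0 : ℂ) S, |f x| ≤ C) : SubharmonicOn (fun x => f x + C) (ball 0 S) := by
  refine ⟨fun x hx a ha => ?_, fun c r hr hcr => ?_⟩
  · have h1 := hf.1 x hx (a - C) (by simp only at ha ⊢; linarith)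
    filter_upwards [h1] with z hz
    linarith
  · have hm := liou_ind_meas hf.1
    have hC0 : 0 ≤ C := (abs_nonneg _).trans (hC c (hcr (mem_closedBall_self hr.le)))
    have hi : CircleIntegrable f c r := by
      have h1 := liou_circ_int hm (C := C) (fun x => by
        by_cases hx : x ∈ ball (0 : ℂ) S
        · rw [indicator_of_mem hx]; exact hC x hx
        · rw [indicator_of_notMem hx, abs_zero]; exact hC0) c r
      refine IntervalIntegrable.congr (fun θ _ => ?_) h1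
      show (ball (0 : ℂ) S).indicator f (circleMap c r θ) = f (circleMap c r θ)
      rw [indicator_of_mem (hcr (sphere_subset_closedBall (circleMap_mem_sphere c hr.le θ)))]
    rw [circleAverage_fun_add hi (by exact (continuous_const.continuousOn).circleIntegrable hr.le),
      circleAverage_const]
    have := hf.2 c r hr hcr
    linarith

variable (y₀ : R.carrier)

/-- capacity zero: bounded subharmonic functions are constant -/
theorem liouville {r : ℝ} (hr : 0 < r) (hr1 : r < R.rad y₀)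
    (hN : ¬ BddAbove (R.NSet univ 0 y₀ r)) (u : R.carrier → ℝ)
    (hb : ∃ C : ℝ, ∀ y, R.Reach y₀ y → |u y| ≤ C)
    (hs : ∀ y, R.Reach y₀ y → SubharmonicOn (fun ζ => u (R.tr y ζ)) (ball 0 (R.rad y))) :
    ∀ y, R.Reach y₀ y → u y = u y₀ := by
  classical
  obtain ⟨C, hC⟩ := hb
  obtain ⟨g, hT, hE, hA⟩ := liou_seq R y₀ hN
  have hC0 : 0 ≤ C := (abs_nonneg _).trans (hC y₀ Relation.ReflTransGen.refl)
  set v : R.carrier → ℝ := fun y => if R.Reach y₀ y then u y + C else 0 with hv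
  have hreach : ∀ {y : R.carrier} {ζ : ℂ}, ‖ζ‖ < R.rad y → (R.Reach y₀ (R.tr y ζ) ↔ R.Reach y₀ y) := by
    intro y ζ hζ
    have h1 : R.Reach y (R.tr y ζ) := Relation.ReflTransGen.single ⟨ζ, hζ, rfl⟩
    exact ⟨fun h => Relation.ReflTransGen.trans h (R.reach_symm h1),
      fun h => Relation.ReflTransGen.trans h h1⟩
  have h0 : ∀ y, 0 ≤ v y := by
    intro y
    simp only [hv]
    split_ifs with h
    · linarith [(abs_le.1 (hC y h)).1]
    · exact le_rfl
  have hB : ∀ y, v y ≤ 2 * C := by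
    intro y
    simp only [hv]
    split_ifs with h
    · linarith [(abs_le.1 (hC y h)).2]
    · linarith
  have hsv : ∀ y, SubharmonicOn (fun ζ => v (R.tr y ζ)) (ball 0 (R.rad y)) := by
    intro y
    by_cases hy : R.Reach y₀ y
    · have h1 := liou_sub_add (hs y hy) (C := C) (fun x hx =>
        hC _ ((hreach (mem_ball_zero_iff.1 hx)).2 hy))
      have h2 : ∀ x ∈ ball (0 : ℂ) (R.rad y), v (R.tr y x) = u (R.tr y x) + C := fun x hx => by
        simp only [hv, if_pos ((hreach (mem_ball_zero_iff.1 hx)).2 hy)]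
      refine ⟨fun x hx a ha => ?_, fun c r hr hcr => ?_⟩
      · simp only [h2 x hx] at ha
        filter_upwards [h1.1 x hx a ha, self_mem_nhdsWithin] with z hz hz2
        rw [h2 z hz2]; exact hz
      · have h3 := h1.2 c r hr hcr
        show v (R.tr y c) ≤ _
        rw [h2 c (hcr (mem_closedBall_self hr.le))]
        refine h3.trans (le_of_eq ?_)
        refine circleAverage_congr_sphere fun z hz => ?_
        rw [abs_of_pos hr] at hz
        exact (h2 z (hcr (sphere_subset_closedBall hz))).symm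
    · have h2 : ∀ x ∈ ball (0 : ℂ) (R.rad y), v (R.tr y x) = 0 := fun x hx => by
        simp only [hv, if_neg (fun h => hy ((hreach (mem_ball_zero_iff.1 hx)).1 h))]
      refine ⟨fun x hx a ha => ?_, fun c r hr hcr => ?_⟩
      · simp only [h2 x hx] at ha
        filter_upwards [self_mem_nhdsWithin] with z hz2
        rw [h2 z hz2]; exact ha
      · show v (R.tr y c) ≤ _
        rw [h2 c (hcr (mem_closedBall_self hr.le))]
        have h3 : circleAverage (fun ζ => v (R.tr y ζ)) c r = circleAverage (fun _ => (0 : ℝ)) c r := by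
          refine circleAverage_congr_sphere fun z hz => ?_
          rw [abs_of_pos hr] at hz
          exact h2 z (hcr (sphere_subset_closedBall hz))
        rw [h3, circleAverage_const]
  have hdisc : ∀ {y : R.carrier} {ζ : ℂ}, R.Reach y₀ y → ‖ζ‖ < R.rad y → v (R.tr y ζ) = v y := by
    intro y ζ hy hζ
    refine liou_const_disc h0 hB hsv (fun S hS0 hS => ?_) hζ
    exact liou_dv_l1 h0 hB hsv hT hE hS0 hS (liou_D_all hT hE hr hr1 hA hy hS0 hS)
  intro y hy
  induction hy with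
  | refl => rfl
  | tail hab hstep ih =>
    obtain ⟨w, hw, rfl⟩ := hstep
    have h1 := hdisc hab hw
    have hab' : R.Reach y₀ _ := hab
    simp only [hv, if_pos hab', if_pos ((hreach hw).2 hab')] at h1
    linarith

end Main

end RD

end Pool.Agent.ParLeaf
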