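import Pool.Agent.H.MP_3a36cd_an.Zero
import Pool.Agent.H.MP_3a36cd_an.Leaves2
import Pool.Agent.H.MP_3a36cd_an.Liouville

/-! MP_3a36cd_an, module Key2: capacity zero implies parabolic. -/

open Set Metric Filter Topology Complex Real
open scoped ContDiff

namespace Pool.Agent.ParLeaf

/-- the points of a leaf through a nonsingular point are nonsingular -/
theorem key2_nonsing {P Q : ℂ × ℂ → ℂ} {p q : ℂ × ℂ} (hp : (P p, Q p) ≠ 0)
    (hq : q ∈ Leaf P Q p) : (P q, Q q) ≠ 0 := by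
  have hq' : Relation.ReflTransGen
    (fun x y => ∃ φ c r, IsLeafDisc P Q φ c r ∧ x ∈ φ '' ball c r ∧ y ∈ φ '' ball c r) p q := hq
  rcases Relation.ReflTransGen.cases_tail hq' with h | ⟨b, -, φ, c, r, hφ, -, s, hs, rfl⟩
  · rw [h]
    exact hp
  · exact (hφ s hs).1

namespace SolDomain

variable {P Q : ℂ × ℂ → ℂ} (D : SolDomain P Q) (hP : Differentiable ℂ P) (hQ : Differentiable ℂ Q)

/-- K2 -/
theorem parabolic_of_zero (p : ℂ × ℂ) (hp : P p ≠ 0) (h : D.Zero hP hQ p hp) :
    ParabolicAt P Q p := by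
  intro u hub hus
  obtain ⟨C, hC⟩ := hub
  have hk : D.kap (D.base hP hQ p hp) = p := D.kap_base hP hQ p hp
  obtain ⟨e, he⟩ : ∃ e, e = D.base hP hQ p hp := ⟨_, rfl⟩
  rw [← he] at hk
  have hz : ¬ BddAbove ((D.M.Fib (D.M.pr e).2).NSet univ 0 ⟨e, rfl⟩ (D.M.rad e / 2)) := by
    have h1 : ¬ BddAbove (D.M.NSetM univ 0 (D.M.rad e / 2) e) := by
      rw [he]
      exact h
    exact h1
  have hre := D.M.rad_pos e
  have hin : ∀ y : (D.M.Fib (D.M.pr e).2).carrier,
      (D.M.Fib (D.M.pr e).2).Reach ⟨e, rfl⟩ y → D.kap y.1 ∈ Leaf P Q p := by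
    intro y hy
    have := D.kap_mem_leaf hy
    rwa [hk] at this
  have hmain := (D.M.Fib (D.M.pr e).2).liouville ⟨e, rfl⟩ (r := D.M.rad e / 2) (half_pos hre)
    (half_lt_self hre) hz (fun y => u (D.kap y.1)) ⟨C, fun y hy => hC _ (hin y hy)⟩ (by
      intro y hy
      have h1 := D.leafDisc_fib y
      have h2 : (fun ζ => D.kap ((D.M.Fib (D.M.pr e).2).tr y ζ).1) '' ball 0 (D.M.rad y.1) ⊆
          Leaf P Q p := by
        apply leafDisc_subset_leaf h1 (s := 0) (mem_ball_self (D.M.rad_pos y.1))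
        show D.kap ((D.M.Fib (D.M.pr e).2).tr y 0).1 ∈ _
        rw [(D.M.Fib (D.M.pr e).2).tr_zero y]
        exact hin y hy
      exact hus _ _ _ h1 h2)
  -- points with `P ≠ 0`
  have hne : ∀ q ∈ Leaf P Q p, P q ≠ 0 → u q = u p := by
    intro q hq hPq
    obtain ⟨y, hy, hyq⟩ := D.exists_over hP hQ (e := e) (q := q) (by rwa [hk]) hPq
    have := hmain y hy
    simp only [hyq, hk] at this
    exact this
  -- points with `P = 0`
  have hall : ∀ q ∈ Leaf P Q p, u q = u p := by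
    intro q hq
    by_cases hPq : P q ≠ 0
    · exact hne q hq hPq
    have hns : (P q, Q q) ≠ 0 := key2_nonsing (fun h0 => hp (congrArg Prod.fst h0)) hq
    obtain ⟨φ, r, hr, hφ, hφ0⟩ := exists_leafDisc hP hQ hns
    have h0 : (0 : ℂ) ∈ ball (0 : ℂ) r := mem_ball_self hr
    have hsub : φ '' ball 0 r ⊆ Leaf P Q p := leafDisc_subset_leaf hφ h0 (by rwa [hφ0])
    have hsh := hus φ 0 r hφ hsub
    have hiso := leaf_isolated hP hQ hp hφ hsub h0
    have hev : ∀ᶠ s in 𝓝[≠] (0 : ℂ), (u ∘ φ) s = u p := by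
      have hball : ∀ᶠ s in 𝓝[≠] (0 : ℂ), s ∈ ball (0 : ℂ) r :=
        mem_nhdsWithin_of_mem_nhds (ball_mem_nhds 0 hr)
      filter_upwards [hiso, hball] with s hs hsb
      exact hne _ (hsub ⟨s, hsb, rfl⟩) hs
    rw [← hφ0]
    apply le_antisymm
    · -- mean value inequality
      obtain ⟨ε, hε, hε'⟩ := Metric.mem_nhdsWithin_iff.1 hev
      obtain ⟨ρ, hρ0, hρ⟩ : ∃ ρ : ℝ, 0 < ρ ∧ ρ < ε ∧ ρ < r := by
        refine ⟨min ε r / 2, by positivity, ?_, ?_⟩
        · have := min_le_left ε r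
          have := lt_min hε hr
          linarith
        · have := min_le_right ε r
          have := lt_min hε hr
          linarith
      have h1 := hsh.2 0 ρ hρ0 (closedBall_subset_ball hρ.2)
      have h2 : circleAverage (u ∘ φ) 0 ρ = u p := by
        apply circleAverage_const_on_circle
        intro z hz
        rw [mem_sphere_zero_iff_norm, abs_of_pos hρ0] at hz
        apply hε'
        refine ⟨?_, ?_⟩
        · rw [mem_ball_zero_iff, hz]
          exact hρ.1
        · intro hz0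
          rw [mem_singleton_iff] at hz0
          rw [hz0, norm_zero] at hz
          exact hρ0.ne hz
      rw [h2] at h1
      exact h1
    · by_contra hlt
      push Not at hlt
      have h1 := hsh.1 0 h0 (u p) hlt
      have h2 : ∀ᶠ s in 𝓝[≠] (0 : ℂ), (u ∘ φ) s < u p := by
        rw [IsOpen.nhdsWithin_eq isOpen_ball h0] at h1
        exact h1.filter_mono nhdsWithin_le_nhds
      obtain ⟨s, hs1, hs2⟩ := (hev.and h2).exists
      rw [hs1] at hs2
      exact lt_irrefl _ hs2
  intro q hq q' hq'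
  rw [hall q hq, hall q' hq']

end SolDomain

end Pool.Agent.ParLeaf
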