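import Pool.Agent.H.MP_3a36cd_an.Wirt1
import Pool.Agent.H.MP_09f213_an.Weyl

/-! MP_3a36cd_an, module GreenB: local regularity for the limit of a minimising sequence. -/

open Set Metric Filter Topology Complex MeasureTheory
open scoped ContDiff ENNReal

namespace Pool.Agent.ParLeaf

theorem greenB_dzb (F : ℂ → ℂ) (z : ℂ) : Pool.Agent.H.MP_09f213_an.dzb F z = pwb 1 F z := by
  simp [Pool.Agent.H.MP_09f213_an.dzb, pwb]

theorem greenB_fderiv_conj (F : ℂ → ℂ) (x v : ℂ) :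
    fderiv ℝ (fun z => (starRingEnd ℂ) (F z)) x v = (starRingEnd ℂ) (fderiv ℝ F x v) := by
  have h := Complex.conjCLE.comp_fderiv (f := F) (x := x)
  have h2 : (fun z => (starRingEnd ℂ) (F z)) = Complex.conjCLE ∘ F := rfl
  rw [h2, h]
  rfl

theorem greenB_pw_conj (F : ℂ → ℂ) (x : ℂ) :
    pw 1 (fun z => (starRingEnd ℂ) (F z)) x = (starRingEnd ℂ) (pwb 1 F x) := by
  simp only [pw, pwb, greenB_fderiv_conj]
  simp [map_ofNat]
  ring

theorem greenB_pwb_conj (F : ℂ → ℂ) (x : ℂ) :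
    pwb 1 (fun z => (starRingEnd ℂ) (F z)) x = (starRingEnd ℂ) (pw 1 F x) := by
  simp only [pw, pwb, greenB_fderiv_conj]
  simp [map_ofNat]

theorem greenB_pw_congr {F G : ℂ → ℂ} {x : ℂ} (h : F =ᶠ[𝓝 x] G) : pw 1 F =ᶠ[𝓝 x] pw 1 G := by
  filter_upwards [h.fderiv (𝕜 := ℝ)] with y hy
  simp only [pw, hy]

theorem greenB_pwb_congr {F G : ℂ → ℂ} {x : ℂ} (h : F =ᶠ[𝓝 x] G) : pwb 1 F =ᶠ[𝓝 x] pwb 1 G := by
  filter_upwards [h.fderiv (𝕜 := ℝ)] with y hy
  simp only [pwb, hy]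

theorem greenB_contAt_fderiv {F : ℂ → ℂ} {z : ℂ} (h : ContDiffAt ℝ ∞ F z) (v : ℂ) :
    ContinuousAt (fun x => fderiv ℝ F x v) z := by
  have h1 : ContDiffAt ℝ 0 (fderiv ℝ F) z := h.fderiv_right (by norm_cast)
  exact h1.continuousAt.clm_apply continuousAt_const

theorem greenB_contAt_pw {F : ℂ → ℂ} {z : ℂ} (h : ContDiffAt ℝ ∞ F z) :
    ContinuousAt (pw 1 F) z :=
  ((greenB_contAt_fderiv h 1).sub (continuousAt_const.mul (greenB_contAt_fderiv h _))).div_const _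

theorem greenB_contAt_pwb {F : ℂ → ℂ} {z : ℂ} (h : ContDiffAt ℝ ∞ F z) :
    ContinuousAt (pwb 1 F) z :=
  ((greenB_contAt_fderiv h 1).add (continuousAt_const.mul (greenB_contAt_fderiv h _))).div_const _

/-- integrability of products with compactly supported functions -/
theorem greenB_integrable {φ : ℂ → ℂ} (hφ : HasCompactSupport φ) {K ψ : ℂ → ℂ}
    (hψ : Continuous ψ) (hψs : ∀ z, z ∉ tsupport φ → ψ z = 0)
    (hK : ∀ z ∈ tsupport φ, ContinuousAt K z) : Integrable (fun z => K z * ψ z) := by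
  have hc : Continuous (fun z => K z * ψ z) := by
    rw [continuous_iff_continuousAt]
    intro z
    by_cases hz : z ∈ tsupport φ
    · exact (hK z hz).mul hψ.continuousAt
    · have h3 : (fun z => K z * ψ z) =ᶠ[𝓝 z] fun _ => 0 := by
        filter_upwards [(isClosed_tsupport φ).isOpen_compl.mem_nhds hz] with w hw
        rw [hψs w hw, mul_zero]
      exact continuousAt_const.congr h3.symm
  exact hc.integrable_of_hasCompactSupport
    (HasCompactSupport.intro hφ fun z hz => by rw [hψs z hz, mul_zero])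

theorem greenB_fderiv_zero {φ : ℂ → ℂ} {z : ℂ} (hz : z ∉ tsupport φ) (v : ℂ) :
    fderiv ℝ φ z v = 0 := by
  have : fderiv ℝ φ z = 0 := by
    by_contra hcon
    exact hz (support_fderiv_subset ℝ (f := φ) hcon)
  rw [this]; rfl

/-- integration by parts -/
theorem greenB_ibp {φ F : ℂ → ℂ} (hφ : ContDiff ℝ ∞ φ) (hφc : HasCompactSupport φ)
    (hF : ∀ z ∈ tsupport φ, ContDiffAt ℝ ∞ F z) :
    ∫ z, F z * pwb 1 φ z = - ∫ z, pwb 1 F z * φ z := by
  have hd : ∀ v : ℂ, Continuous fun x => fderiv ℝ φ x v := fun v =>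
    (hφ.continuous_fderiv (by norm_num)).clm_apply continuous_const
  have key : ∀ v : ℂ, Integrable (fun x => fderiv ℝ F x v * φ x) ∧
      Integrable (fun x => F x * fderiv ℝ φ x v) ∧
      ∫ x, F x * fderiv ℝ φ x v = - ∫ x, fderiv ℝ F x v * φ x := by
    intro v
    have i1 : Integrable (fun x => fderiv ℝ F x v * φ x) :=
      greenB_integrable hφc hφ.continuous (fun z hz => image_eq_zero_of_notMem_tsupport hz)
        (fun z hz => greenB_contAt_fderiv (hF z hz) v)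
    have i2 : Integrable (fun x => F x * fderiv ℝ φ x v) :=
      greenB_integrable hφc (hd v) (fun z hz => greenB_fderiv_zero hz v)
        (fun z hz => (hF z hz).continuousAt)
    have i3 : Integrable (fun x => F x * φ x) :=
      greenB_integrable hφc hφ.continuous (fun z hz => image_eq_zero_of_notMem_tsupport hz)
        (fun z hz => (hF z hz).continuousAt)
    exact ⟨i1, i2, integral_mul_fderiv_eq_neg_fderiv_mul_of_integrable i1 i2 i3
      (fun z hz => (hF z hz).differentiableAt (by norm_num))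
      (fun z _ => (hφ.differentiable (by norm_num)) z)⟩
  obtain ⟨a1, a2, a3⟩ := key 1
  obtain ⟨b1, b2, b3⟩ := key (I • 1)
  have e1 : ∀ z, F z * pwb 1 φ z = (F z * fderiv ℝ φ z 1 + I * (F z * fderiv ℝ φ z (I • 1))) / 2 := by
    intro z; simp only [pwb]; ring
  have e2 : ∀ z, pwb 1 F z * φ z = (fderiv ℝ F z 1 * φ z + I * (fderiv ℝ F z (I • 1) * φ z)) / 2 := by
    intro z; simp only [pwb]; ring
  simp only [e1, e2]
  rw [integral_div, integral_div, integral_add a2 (b2.const_mul _), integral_add a1 (b1.const_mul _),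
    integral_const_mul, integral_const_mul, a3, b3]
  ring

/-- cutting off -/
theorem greenB_cutoff {r : ℝ} (hr : 0 < r) {h : ℂ → ℂ}
    (hh : ∀ z ∈ ball (0 : ℂ) r, ContDiffAt ℝ ∞ h z) :
    ∃ k : ℂ → ℂ, ContDiff ℝ ∞ k ∧ HasCompactSupport k ∧ ∀ z ∈ ball (0 : ℂ) (r / 2), k z = h z := by
  let χ : ContDiffBump (0 : ℂ) := ⟨r / 2, 3 * r / 4, by positivity, by linarith⟩
  have hsupp : ∀ z, z ∉ closedBall (0 : ℂ) (3 * r / 4) → ((χ z : ℝ) : ℂ) = 0 := by
    intro z hz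
    have : χ z = 0 := by
      by_contra hcon
      have h2 : z ∈ Function.support χ := hcon
      rw [χ.support_eq] at h2
      exact hz (ball_subset_closedBall h2)
    rw [this]; simp
  refine ⟨fun z => ((χ z : ℝ) : ℂ) * h z, ?_, ?_, ?_⟩
  · rw [contDiff_iff_contDiffAt]
    intro z
    by_cases hz : z ∈ ball (0 : ℂ) r
    · exact (Complex.ofRealCLM.contDiff.comp χ.contDiff).contDiffAt.mul (hh z hz)
    · have hz' : z ∉ closedBall (0 : ℂ) (3 * r / 4) := by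
        intro hcon
        apply hz
        exact closedBall_subset_ball (by linarith) hcon
      have h3 : (fun z => ((χ z : ℝ) : ℂ) * h z) =ᶠ[𝓝 z] fun _ => 0 := by
        filter_upwards [isClosed_closedBall.isOpen_compl.mem_nhds hz'] with w hw
        rw [hsupp w hw, zero_mul]
      exact contDiffAt_const.congr_of_eventuallyEq h3
  · exact HasCompactSupport.intro (isCompact_closedBall 0 (3 * r / 4))
      fun z hz => by rw [hsupp z hz, zero_mul]
  · intro z hz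
    have : χ z = 1 := χ.one_of_mem_closedBall (ball_subset_closedBall hz)
    simp only [this]; simp

theorem greenB_holo {H : ℂ → ℂ} {r : ℝ} (hH : DifferentiableOn ℂ H (ball 0 r)) {z : ℂ}
    (hz : z ∈ ball (0 : ℂ) r) : ContDiffAt ℝ ∞ H z ∧ pwb 1 H z = 0 := by
  have h1 : AnalyticAt ℂ H z := hH.analyticAt (isOpen_ball.mem_nhds hz)
  have h2 : ContDiffAt ℂ ∞ H z := h1.contDiffAt
  refine ⟨h2.restrict_scalars ℝ, ?_⟩
  simp only [pwb, h1.differentiableAt.fderiv_restrictScalars ℝ]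
  simp only [ContinuousLinearMap.coe_restrictScalars']
  rw [map_smul, smul_eq_mul, ← mul_assoc, I_mul_I]
  ring

/-- local regularity for the inhomogeneous Cauchy-Riemann equation -/
theorem greenB_reg {r : ℝ} (hr : 0 < r) {f : ℂ → ℂ} (hf : IntegrableOn f (ball 0 r))
    {h : ℂ → ℂ} (hh : ∀ z ∈ ball (0 : ℂ) r, ContDiffAt ℝ ∞ h z)
    (hw : ∀ φ : ℂ → ℂ, ContDiff ℝ ∞ φ → HasCompactSupport φ → tsupport φ ⊆ ball 0 r →
      ∫ z, f z * pwb 1 φ z = - ∫ z, h z * φ z) :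
    ∃ r' > 0, r' ≤ r ∧ ∃ g : ℂ → ℂ, (∀ z ∈ ball (0 : ℂ) r', ContDiffAt ℝ ∞ g z) ∧
      (∀ z ∈ ball (0 : ℂ) r', pwb 1 g z = h z) ∧
      ∀ᵐ z ∂(volume.restrict (ball (0 : ℂ) r')), f z = g z := by
  obtain ⟨k, hk, hkc, hkh⟩ := greenB_cutoff hr hh
  obtain ⟨η, hη, hηk, -⟩ := Pool.Agent.H.MP_09f213_an.cauchy_smooth hk hkc
  have hηh : ∀ z ∈ ball (0 : ℂ) (r / 2), pwb 1 η z = h z := by
    intro z hz
    rw [← greenB_dzb, hηk, hkh z hz]
  have hsub : ball (0 : ℂ) (r / 2) ⊆ ball 0 r := ball_subset_ball (by linarith)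
  have hfl : LocallyIntegrableOn (fun z => f z - η z) (ball 0 (r / 2)) := by
    apply LocallyIntegrableOn.sub
    · exact (hf.mono_set hsub).locallyIntegrableOn
    · exact (hη.continuous.locallyIntegrable).locallyIntegrableOn _
  have hweyl : ∀ φ : ℂ → ℂ, ContDiff ℝ ((⊤ : ℕ∞) : WithTop ℕ∞) φ → HasCompactSupport φ →
      tsupport φ ⊆ ball 0 (r / 2) →
      ∫ z, (f z - η z) * Pool.Agent.H.MP_09f213_an.dzb φ z = 0 := by
    intro φ hφ hφc hφs
    simp only [greenB_dzb]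
    have hcφ : Continuous (pwb 1 φ) := by
      rw [continuous_iff_continuousAt]
      intro z
      exact greenB_contAt_pwb hφ.contDiffAt
    have hφ0 : ∀ z, z ∉ tsupport φ → pwb 1 φ z = 0 := by
      intro z hz
      simp [pwb, greenB_fderiv_zero hz]
    have i1 : Integrable (fun z => f z * pwb 1 φ z) := by
      have h1 : Integrable (fun ξ => (ball (0 : ℂ) r).indicator f ξ * pwb 1 φ ξ) := by
        obtain ⟨C, hC⟩ := (HasCompactSupport.intro hφc hφ0).exists_bound_of_continuous hcφ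
        have h2 := (integrable_indicator_iff measurableSet_ball).2 hf
        exact h2.mul_bdd (c := C) hcφ.aestronglyMeasurable (.of_forall hC)
      refine h1.congr (.of_forall fun ξ => ?_)
      simp only
      by_cases hξ : ξ ∈ ball (0 : ℂ) r
      · rw [indicator_of_mem hξ]
      · rw [hφ0 ξ (fun h => hξ (hsub (hφs h))), mul_zero, mul_zero]
    have i2 : Integrable (fun z => η z * pwb 1 φ z) :=
      greenB_integrable hφc hcφ hφ0 (fun z _ => hη.continuous.continuousAt)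
    have e1 : (fun z => (f z - η z) * pwb 1 φ z) = fun z => f z * pwb 1 φ z - η z * pwb 1 φ z := by
      funext z; ring
    rw [e1, integral_sub i1 i2, hw φ hφ hφc (hφs.trans hsub),
      greenB_ibp hφ hφc (fun z _ => hη.contDiffAt)]
    have e2 : (fun z => pwb 1 η z * φ z) = fun z => h z * φ z := by
      funext z
      by_cases hz : z ∈ tsupport φ
      · rw [hηh z (hφs hz)]
      · rw [image_eq_zero_of_notMem_tsupport hz, mul_zero, mul_zero]
    rw [e2, sub_self]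
  obtain ⟨r', hr', hr'sub, H, hH, hae⟩ := Pool.Agent.H.MP_09f213_an.weyl_local isOpen_ball hfl
    hweyl (mem_ball_self (show 0 < r / 2 by positivity))
  refine ⟨min r' (r / 2), lt_min hr' (by positivity), (min_le_right _ _).trans (by linarith),
    fun z => η z + H z, ?_, ?_, ?_⟩
  · intro z hz
    exact hη.contDiffAt.add (greenB_holo hH (ball_subset_ball (min_le_left _ _) hz)).1
  · intro z hz
    have h1 := greenB_holo hH (ball_subset_ball (min_le_left _ _) hz)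
    have h2 := hηh z (ball_subset_ball (min_le_right _ _) hz)
    have h3 : fderiv ℝ (fun z => η z + H z) z = fderiv ℝ η z + fderiv ℝ H z :=
      fderiv_fun_add ((hη.differentiable (by norm_num)) z) (h1.1.differentiableAt (by norm_num))
    have h4 : pwb 1 (fun z => η z + H z) z = pwb 1 η z + pwb 1 H z := by
      simp only [pwb, h3, add_apply]
      ring
    rw [h4, h1.2, h2, add_zero]
  · have h1 := ae_restrict_of_ae_restrict_of_subset
      (ball_subset_ball (min_le_left r' (r / 2)) : ball (0 : ℂ) _ ⊆ ball 0 r') hae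
    filter_upwards [h1] with z hz
    rw [← hz]; ring

/-- completeness of `L¹` -/
theorem greenB_L1 {E : Type*} [NormedAddCommGroup E] [NormedSpace ℝ E] [CompleteSpace E]
    {μ : Measure ℂ} {f : ℕ → ℂ → E} (hf : ∀ n, Integrable (f n) μ)
    (hC : ∀ ε > 0, ∃ N, ∀ m ≥ N, ∀ n ≥ N, ∫ z, ‖f m z - f n z‖ ∂μ ≤ ε) :
    ∃ g : ℂ → E, Integrable g μ ∧ Tendsto (fun n => ∫ z, ‖f n z - g z‖ ∂μ) atTop (𝓝 0) := by
  have hn : ∀ m n, dist ((hf m).toL1 (f m)) ((hf n).toL1 (f n)) = ∫ z, ‖f m z - f n z‖ ∂μ := by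
    intro m n
    rw [dist_eq_norm, ← Integrable.toL1_sub, L1.norm_of_fun_eq_integral_norm]
    rfl
  have hcau : CauchySeq (fun n => (hf n).toL1 (f n)) := by
    rw [Metric.cauchySeq_iff]
    intro ε hε
    obtain ⟨N, hN⟩ := hC (ε / 2) (by positivity)
    refine ⟨N, fun m hm n hn' => ?_⟩
    rw [hn]
    exact (hN m hm n hn').trans_lt (by linarith)
  obtain ⟨G, hG⟩ := cauchySeq_tendsto_of_complete hcau
  have hGi : Integrable (G : ℂ → E) μ := L1.integrable_coeFn G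
  refine ⟨G, hGi, ?_⟩
  have h1 : ∀ n, ∫ z, ‖f n z - G z‖ ∂μ = dist ((hf n).toL1 (f n)) G := by
    intro n
    have h2 : G = hGi.toL1 G := (Integrable.toL1_coeFn G hGi).symm
    rw [dist_eq_norm]
    conv_rhs => rw [h2]
    rw [← Integrable.toL1_sub, L1.norm_of_fun_eq_integral_norm]
    rfl
  simp only [h1]
  exact (tendsto_iff_dist_tendsto_zero.mp hG)

/-- from `L²` to `L¹` on a ball -/
theorem greenB_L2L1 {E : Type*} [NormedAddCommGroup E] [NormedSpace ℝ E]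
    {ρ : ℝ} (_hρ : 0 < ρ) {f : ℕ → ℂ → E} (hf : ∀ n, ContinuousOn (f n) (closedBall 0 ρ))
    (hC : ∀ ε > 0, ∃ N, ∀ m ≥ N, ∀ n ≥ N, ∫ z in ball (0 : ℂ) ρ, ‖f m z - f n z‖ ^ 2 ≤ ε) :
    ∀ ε > 0, ∃ N, ∀ m ≥ N, ∀ n ≥ N, ∫ z in ball (0 : ℂ) ρ, ‖f m z - f n z‖ ≤ ε := by
  intro ε hε
  set v : ℝ := volume.real (ball (0 : ℂ) ρ) with hv
  have hv0 : 0 ≤ v := measureReal_nonneg
  set δ : ℝ := ε / (v + 1) with hδ
  have hδ0 : 0 < δ := by positivity
  obtain ⟨N, hN⟩ := hC (δ * ε) (by positivity)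
  refine ⟨N, fun m hm n hn => ?_⟩
  have hc : ContinuousOn (fun z => ‖f m z - f n z‖) (closedBall (0 : ℂ) ρ) :=
    ((hf m).sub (hf n)).norm
  have i1 : IntegrableOn (fun z => ‖f m z - f n z‖) (ball (0 : ℂ) ρ) :=
    (hc.integrableOn_compact (isCompact_closedBall _ _)).mono_set ball_subset_closedBall
  have i2 : IntegrableOn (fun z => ‖f m z - f n z‖ ^ 2) (ball (0 : ℂ) ρ) :=
    ((hc.pow 2).integrableOn_compact (isCompact_closedBall _ _)).mono_set ball_subset_closedBall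
  have hle : ∀ z, ‖f m z - f n z‖ ≤ (2 * δ)⁻¹ * ‖f m z - f n z‖ ^ 2 + δ / 2 := by
    intro z
    have h1 : 0 ≤ (‖f m z - f n z‖ - δ) ^ 2 := sq_nonneg _
    have h2 : 2 * δ * ‖f m z - f n z‖ ≤ ‖f m z - f n z‖ ^ 2 + δ ^ 2 := by nlinarith
    have h3 : ‖f m z - f n z‖ ≤ (‖f m z - f n z‖ ^ 2 + δ ^ 2) / (2 * δ) := by
      rw [le_div_iff₀ (by positivity)]; linarith
    refine h3.trans (le_of_eq ?_)
    field_simp
  have hfin : volume (ball (0 : ℂ) ρ) ≠ ⊤ := measure_ball_lt_top.ne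
  have i3 : IntegrableOn (fun _ : ℂ => δ / 2) (ball (0 : ℂ) ρ) := integrableOn_const hfin
  calc ∫ z in ball (0 : ℂ) ρ, ‖f m z - f n z‖
      ≤ ∫ z in ball (0 : ℂ) ρ, ((2 * δ)⁻¹ * ‖f m z - f n z‖ ^ 2 + δ / 2) :=
        integral_mono i1 ((i2.const_mul _).add i3) hle
    _ = (2 * δ)⁻¹ * (∫ z in ball (0 : ℂ) ρ, ‖f m z - f n z‖ ^ 2) + v * (δ / 2) := by
        rw [integral_add (i2.const_mul _) i3, integral_const_mul, setIntegral_const, smul_eq_mul]
    _ ≤ (2 * δ)⁻¹ * (δ * ε) + v * (δ / 2) := by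
        gcongr
        exact hN m hm n hn
    _ ≤ ε := by
        have h1 : (2 * δ)⁻¹ * (δ * ε) = ε / 2 := by field_simp
        have h2 : v * (δ / 2) ≤ ε / 2 := by
          rw [hδ]
          have : v * (ε / (v + 1) / 2) = (v / (v + 1)) * (ε / 2) := by ring
          rw [this]
          have h3 : v / (v + 1) ≤ 1 := by
            rw [div_le_one (by positivity)]; linarith
          nlinarith
        linarith

/-- testing with bounded functions -/
theorem greenB_lim {ρ : ℝ} {f : ℕ → ℂ → ℂ} {g : ℂ → ℂ} (hf : ∀ n, IntegrableOn (f n) (ball 0 ρ))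
    (hg : IntegrableOn g (ball 0 ρ))
    (hlim : Tendsto (fun n => ∫ z in ball (0 : ℂ) ρ, ‖f n z - g z‖) atTop (𝓝 0))
    {ψ : ℂ → ℂ} (hψ : Continuous ψ) (hψc : HasCompactSupport ψ)
    (hψs : ∀ z, z ∉ ball (0 : ℂ) ρ → ψ z = 0) :
    Tendsto (fun n => ∫ z, f n z * ψ z) atTop (𝓝 (∫ z, g z * ψ z)) := by
  obtain ⟨C, hC⟩ := hψc.exists_bound_of_continuous hψ
  have hset : ∀ k : ℂ → ℂ, ∫ z, k z * ψ z = ∫ z in ball (0 : ℂ) ρ, k z * ψ z := by
    intro k
    refine (setIntegral_eq_integral_of_forall_compl_eq_zero fun z hz => ?_).symm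
    rw [hψs z hz, mul_zero]
  have hint : ∀ k : ℂ → ℂ, IntegrableOn k (ball 0 ρ) → IntegrableOn (fun z => k z * ψ z) (ball 0 ρ) := by
    intro k hk
    exact Integrable.mul_bdd (c := C) hk hψ.aestronglyMeasurable (.of_forall hC)
  rw [tendsto_iff_norm_sub_tendsto_zero]
  have hbound : ∀ n, ‖(∫ z, f n z * ψ z) - ∫ z, g z * ψ z‖ ≤
      C * ∫ z in ball (0 : ℂ) ρ, ‖f n z - g z‖ := by
    intro n
    rw [hset, hset, ← integral_sub (hint _ (hf n)) (hint _ hg), ← integral_const_mul]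
    refine norm_integral_le_of_norm_le ((((hf n).sub hg).norm).const_mul C) (.of_forall fun z => ?_)
    rw [← sub_mul, norm_mul, mul_comm]
    exact mul_le_mul_of_nonneg_right (hC z) (norm_nonneg _)
  refine squeeze_zero (fun n => norm_nonneg _) hbound ?_
  simpa using hlim.const_mul C

theorem greenB_local' {ρ : ℝ} (hρ : 0 < ρ) {u : ℕ → ℂ → ℝ}
    (hu : ∀ n, ∀ ζ ∈ closedBall (0 : ℂ) ρ, ContDiffAt ℝ ∞ (u n) ζ)
    {b : ℂ → ℝ} (hb : ∀ ζ ∈ closedBall (0 : ℂ) ρ, ContDiffAt ℝ ∞ b ζ)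
    (h0 : ∀ ε > 0, ∃ N, ∀ m ≥ N, ∀ n ≥ N, ∫ ζ in ball (0 : ℂ) ρ, (u m ζ - u n ζ) ^ 2 ≤ ε)
    (h1 : ∀ ε > 0, ∃ N, ∀ m ≥ N, ∀ n ≥ N, ∫ ζ in ball (0 : ℂ) ρ,
      ‖pw 1 (fun ξ => (u m ξ : ℂ)) ζ - pw 1 (fun ξ => (u n ξ : ℂ)) ζ‖ ^ 2 ≤ ε)
    (hw : ∀ φ : ℂ → ℂ, ContDiff ℝ ∞ φ → HasCompactSupport φ → tsupport φ ⊆ ball 0 ρ →
      Tendsto (fun n => ∫ ζ, pw 1 (fun ξ => (u n ξ : ℂ)) ζ * pwb 1 φ ζ) atTop
        (𝓝 (∫ ζ, (b ζ : ℂ) * φ ζ))) :
    ∃ ρ' > 0, ρ' ≤ ρ ∧ ∃ G : ℂ → ℝ, (∀ ζ ∈ ball (0 : ℂ) ρ', ContDiffAt ℝ ∞ G ζ) ∧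
      (∀ ζ ∈ ball (0 : ℂ) ρ', plevi 1 G ζ = - b ζ) ∧ IntegrableOn G (ball 0 ρ') ∧
      Tendsto (fun n => ∫ ζ in ball (0 : ℂ) ρ', |u n ζ - G ζ|) atTop (𝓝 0) := by
  have hbc : ball (0 : ℂ) ρ ⊆ closedBall 0 ρ := ball_subset_closedBall
  have huc : ∀ n, ∀ ζ ∈ closedBall (0 : ℂ) ρ, ContDiffAt ℝ ∞ (fun ξ => (u n ξ : ℂ)) ζ :=
    fun n ζ hζ => Complex.ofRealCLM.contDiff.contDiffAt.comp ζ (hu n ζ hζ)
  -- continuity
  have c0 : ∀ n, ContinuousOn (u n) (closedBall 0 ρ) := fun n ζ hζ =>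
    (hu n ζ hζ).continuousAt.continuousWithinAt
  have c1 : ∀ n, ContinuousOn (pw 1 (fun ξ => (u n ξ : ℂ))) (closedBall 0 ρ) := fun n ζ hζ =>
    (greenB_contAt_pw (huc n ζ hζ)).continuousWithinAt
  have i0 : ∀ n, Integrable (u n) (volume.restrict (ball 0 ρ)) := fun n =>
    ((c0 n).integrableOn_compact (isCompact_closedBall _ _)).mono_set hbc
  have i1 : ∀ n, Integrable (pw 1 (fun ξ => (u n ξ : ℂ))) (volume.restrict (ball 0 ρ)) := fun n =>
    ((c1 n).integrableOn_compact (isCompact_closedBall _ _)).mono_set hbc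
  obtain ⟨f0, hf0, hf0l⟩ := greenB_L1 i0 (greenB_L2L1 hρ c0 (by
    intro ε hε
    obtain ⟨N, hN⟩ := h0 ε hε
    refine ⟨N, fun m hm n hn => ?_⟩
    simpa using hN m hm n hn))
  obtain ⟨f1, hf1, hf1l⟩ := greenB_L1 i1 (greenB_L2L1 hρ c1 h1)
  -- first step
  have hpwb : ∀ φ : ℂ → ℂ, ContDiff ℝ ∞ φ → Continuous (pwb 1 φ) := by
    intro φ hφ
    rw [continuous_iff_continuousAt]
    intro z
    exact greenB_contAt_pwb hφ.contDiffAt
  have hpwb0 : ∀ φ : ℂ → ℂ, ∀ z, z ∉ tsupport φ → pwb 1 φ z = 0 := by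
    intro φ z hz
    simp [pwb, greenB_fderiv_zero hz]
  obtain ⟨r1, hr1, hr1ρ, g1, hg1s, hg1, hg1ae⟩ := greenB_reg hρ (f := f1) hf1
    (h := fun z => -(b z : ℂ))
    (fun z hz => (Complex.ofRealCLM.contDiff.contDiffAt.comp z (hb z (hbc hz))).neg)
    (by
      intro φ hφ hφc hφs
      have hlim := greenB_lim i1 hf1 hf1l (hpwb φ hφ)
        (HasCompactSupport.intro hφc (hpwb0 φ)) (fun z hz => hpwb0 φ z (fun h => hz (hφs h)))
      rw [tendsto_nhds_unique hlim (hw φ hφ hφc hφs), ← integral_neg]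
      congr 1
      funext z
      ring)
  -- second step
  have hsub1 : ball (0 : ℂ) r1 ⊆ ball 0 ρ := ball_subset_ball hr1ρ
  have hf0c : IntegrableOn (fun z => (f0 z : ℂ)) (ball 0 ρ) := hf0.ofReal
  have i0c : ∀ n, IntegrableOn (fun z => (u n z : ℂ)) (ball 0 ρ) := fun n => (i0 n).ofReal
  have hf0lc : Tendsto (fun n => ∫ z in ball (0 : ℂ) ρ, ‖(u n z : ℂ) - (f0 z : ℂ)‖) atTop (𝓝 0) := by
    refine hf0l.congr fun n => ?_
    congr 1
    funext z
    rw [← Complex.ofReal_sub, Complex.norm_real]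
  obtain ⟨r2, hr2, hr2r, g, hgs, hg, hgae⟩ := greenB_reg hr1 (f := fun z => (f0 z : ℂ))
    (hf0c.mono_set hsub1) (h := fun z => (starRingEnd ℂ) (g1 z))
    (fun z hz => Complex.conjCLE.contDiff.contDiffAt.comp z (hg1s z hz))
    (by
      intro φ hφ hφc hφs
      have hφs' : tsupport φ ⊆ ball 0 ρ := hφs.trans hsub1
      have hlim := greenB_lim i0c hf0c hf0lc (hpwb φ hφ)
        (HasCompactSupport.intro hφc (hpwb0 φ)) (fun z hz => hpwb0 φ z (fun h => hz (hφs' h)))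
      -- the other limit
      have hconj : ∀ n, IntegrableOn (fun z => (starRingEnd ℂ) (pw 1 (fun ξ => (u n ξ : ℂ)) z))
          (ball 0 ρ) := fun n => Complex.conjCLE.toContinuousLinearMap.integrable_comp (i1 n)
      have hconj1 : IntegrableOn (fun z => (starRingEnd ℂ) (f1 z)) (ball 0 ρ) :=
        Complex.conjCLE.toContinuousLinearMap.integrable_comp hf1
      have hconjl : Tendsto (fun n => ∫ z in ball (0 : ℂ) ρ,
          ‖(starRingEnd ℂ) (pw 1 (fun ξ => (u n ξ : ℂ)) z) - (starRingEnd ℂ) (f1 z)‖) atTop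
          (𝓝 0) := by
        refine hf1l.congr fun n => ?_
        congr 1
        funext z
        rw [← map_sub, RCLike.norm_conj]
      have hlim2 := greenB_lim hconj hconj1 hconjl hφ.continuous hφc
        (fun z hz => image_eq_zero_of_notMem_tsupport (fun h => hz (hφs' h)))
      have heq : ∀ n, ∫ z, (u n z : ℂ) * pwb 1 φ z =
          - ∫ z, (starRingEnd ℂ) (pw 1 (fun ξ => (u n ξ : ℂ)) z) * φ z := by
        intro n
        rw [greenB_ibp hφ hφc (fun z hz => huc n z (hbc (hφs' hz)))]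
        congr 2
        funext z
        rw [← greenB_pwb_conj]
        simp
      have hlim3 := hlim2.neg
      have h5 := tendsto_nhds_unique hlim (hlim3.congr fun n => (heq n).symm)
      rw [h5]
      congr 1
      have hs : ∀ k : ℂ → ℂ, ∫ z, k z * φ z = ∫ z in ball (0 : ℂ) r1, k z * φ z := by
        intro k
        refine (setIntegral_eq_integral_of_forall_compl_eq_zero fun z hz => ?_).symm
        rw [image_eq_zero_of_notMem_tsupport (fun h => hz (hφs h)), mul_zero]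
      rw [hs, hs]
      apply integral_congr_ae
      filter_upwards [hg1ae] with z hz
      rw [hz])
  -- `g` is real on the ball
  have hgim : ∀ z ∈ ball (0 : ℂ) r2, (g z).im = 0 := by
    have hcont : ContinuousOn (fun z => (g z).im) (ball 0 r2) := fun z hz =>
      (Complex.continuous_im.continuousAt.comp (hgs z hz).continuousAt).continuousWithinAt
    have hae : (fun z => (g z).im) =ᵐ[volume.restrict (ball 0 r2)] fun _ => (0 : ℝ) := by
      filter_upwards [hgae] with z hz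
      rw [← hz]; simp
    have := Measure.eqOn_of_ae_eq hae hcont continuousOn_const
      (by rw [isOpen_ball.interior_eq]; exact subset_closure)
    intro z hz
    exact this hz
  have hgre : ∀ z ∈ ball (0 : ℂ) r2, (((g z).re : ℝ) : ℂ) = g z := by
    intro z hz
    apply Complex.ext
    · simp
    · simp [hgim z hz]
  refine ⟨r2, hr2, hr2r.trans hr1ρ, fun z => (g z).re, ?_, ?_, ?_, ?_⟩
  · intro z hz
    exact Complex.reCLM.contDiff.contDiffAt.comp z (hgs z hz)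
  · intro z hz
    have e1 : (fun x => (((g x).re : ℝ) : ℂ)) =ᶠ[𝓝 z] g := by
      filter_upwards [isOpen_ball.mem_nhds hz] with x hx
      exact hgre x hx
    have e2 : pwb 1 (fun x => (((g x).re : ℝ) : ℂ)) =ᶠ[𝓝 z] fun x => (starRingEnd ℂ) (g1 x) := by
      filter_upwards [greenB_pwb_congr e1, isOpen_ball.mem_nhds hz] with x hx hx2
      rw [hx, hg x hx2]
    rw [plevi, (greenB_pw_congr e2).eq_of_nhds, greenB_pw_conj,
      hg1 z (ball_subset_ball hr2r hz)]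
    simp
  · have hsub2 : ball (0 : ℂ) r2 ⊆ ball 0 ρ := ball_subset_ball (hr2r.trans hr1ρ)
    have h6 : Integrable f0 (volume.restrict (ball 0 r2)) := IntegrableOn.mono_set hf0 hsub2
    refine h6.congr ?_
    filter_upwards [hgae] with z hz
    rw [← hz, Complex.ofReal_re]
  · have hsub2 : ball (0 : ℂ) r2 ⊆ ball 0 ρ := ball_subset_ball (hr2r.trans hr1ρ)
    have hle : ∀ n, ∫ ζ in ball (0 : ℂ) r2, |u n ζ - (g ζ).re| ≤
        ∫ ζ in ball (0 : ℂ) ρ, ‖u n ζ - f0 ζ‖ := by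
      intro n
      have e1 : ∫ ζ in ball (0 : ℂ) r2, |u n ζ - (g ζ).re| =
          ∫ ζ in ball (0 : ℂ) r2, ‖u n ζ - f0 ζ‖ := by
        apply integral_congr_ae
        filter_upwards [hgae] with z hz
        rw [← hz, Complex.ofReal_re, Real.norm_eq_abs]
      rw [e1]
      refine setIntegral_mono_set ?_ (.of_forall fun _ => norm_nonneg _) (.of_forall hsub2)
      exact ((i0 n).sub hf0).norm
    exact squeeze_zero (fun n => integral_nonneg fun _ => abs_nonneg _) hle hf0l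

theorem greenB_local {ρ : ℝ} (hρ : 0 < ρ) {u : ℕ → ℂ → ℝ}
    (hu : ∀ n, ∀ ζ ∈ closedBall (0 : ℂ) ρ, ContDiffAt ℝ ∞ (u n) ζ)
    {b : ℂ → ℝ} (hb : ∀ ζ ∈ closedBall (0 : ℂ) ρ, ContDiffAt ℝ ∞ b ζ)
    (h0 : ∀ ε > 0, ∃ N, ∀ m ≥ N, ∀ n ≥ N, ∫ ζ in ball (0 : ℂ) ρ, (u m ζ - u n ζ) ^ 2 ≤ ε)
    (h1 : ∀ ε > 0, ∃ N, ∀ m ≥ N, ∀ n ≥ N, ∫ ζ in ball (0 : ℂ) ρ,
      ‖pw 1 (fun ξ => (u m ξ : ℂ)) ζ - pw 1 (fun ξ => (u n ξ : ℂ)) ζ‖ ^ 2 ≤ ε)
    (hw : ∀ φ : ℂ → ℂ, ContDiff ℝ ∞ φ → HasCompactSupport φ → tsupport φ ⊆ ball 0 ρ →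
      Tendsto (fun n => ∫ ζ, pw 1 (fun ξ => (u n ξ : ℂ)) ζ * pwb 1 φ ζ) atTop
        (𝓝 (∫ ζ, (b ζ : ℂ) * φ ζ))) :
    ∃ ρ' > 0, ρ' ≤ ρ ∧ ∃ G : ℂ → ℝ, (∀ ζ ∈ ball (0 : ℂ) ρ', ContDiffAt ℝ ∞ G ζ) ∧
      (∀ ζ ∈ ball (0 : ℂ) ρ', plevi 1 G ζ = - b ζ) ∧
      Tendsto (fun n => ∫ ζ in ball (0 : ℂ) ρ', |u n ζ - G ζ|) atTop (𝓝 0) := by
  obtain ⟨ρ', h2, h3, G, h4, h5, -, h6⟩ := greenB_local' hρ hu hb h0 h1 hw
  exact ⟨ρ', h2, h3, G, h4, h5, h6⟩

end Pool.Agent.ParLeaf
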