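import Pool.Agent.H.MP_3a36cd_an.RD

/-! MP_3a36cd_an, module GreenP: Poincaré inequalities on squares. -/

open Set Metric Filter Topology Complex MeasureTheory
open scoped ContDiff ENNReal

namespace Pool.Agent.ParLeaf

/-- open square of half side `a` -/
def Sq (a : ℝ) : Set ℂ := {ζ | |ζ.re| < a ∧ |ζ.im| < a}

theorem greenP_isOpen (a : ℝ) : IsOpen (Sq a) := by
  have h1 : Continuous fun ζ : ℂ => |ζ.re| := continuous_abs.comp Complex.continuous_re
  have h2 : Continuous fun ζ : ℂ => |ζ.im| := continuous_abs.comp Complex.continuous_im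
  exact (isOpen_lt h1 continuous_const).inter (isOpen_lt h2 continuous_const)

theorem greenP_meas (a : ℝ) : MeasurableSet (Sq a) := (greenP_isOpen a).measurableSet

theorem greenP_comb {a t : ℝ} {p q : ℂ} (hp : p ∈ Sq a) (hq : q ∈ Sq a) (h0 : 0 ≤ t)
    (h1 : t ≤ 1) : (1 - t) • q + t • p ∈ Sq a := by
  obtain ⟨p1, p2⟩ := hp
  obtain ⟨q1, q2⟩ := hq
  rw [abs_lt] at p1 p2 q1 q2
  constructor
  · show |((1 - t) • q + t • p).re| < a
    rw [Complex.add_re, Complex.smul_re, Complex.smul_re, smul_eq_mul, smul_eq_mul, abs_lt]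
    rcases eq_or_lt_of_le h0 with h | h
    · subst h; constructor <;> nlinarith
    · constructor <;> nlinarith [mul_pos h (sub_pos.2 p1.1), mul_pos h (sub_pos.2 p1.2),
        mul_nonneg (sub_nonneg.2 h1) (sub_pos.2 q1.1).le,
        mul_nonneg (sub_nonneg.2 h1) (sub_pos.2 q1.2).le]
  · show |((1 - t) • q + t • p).im| < a
    rw [Complex.add_im, Complex.smul_im, Complex.smul_im, smul_eq_mul, smul_eq_mul, abs_lt]
    rcases eq_or_lt_of_le h0 with h | h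
    · subst h; constructor <;> nlinarith
    · constructor <;> nlinarith [mul_pos h (sub_pos.2 p2.1), mul_pos h (sub_pos.2 p2.2),
        mul_nonneg (sub_nonneg.2 h1) (sub_pos.2 q2.1).le,
        mul_nonneg (sub_nonneg.2 h1) (sub_pos.2 q2.2).le]

theorem greenP_norm_le {a : ℝ} {p : ℂ} (hp : p ∈ Sq a) : ‖p‖ ≤ 2 * a :=
  (Complex.norm_le_abs_re_add_abs_im p).trans (by linarith [hp.1, hp.2])

theorem greenP_vol_lt_top (a : ℝ) : volume (Sq a) < ⊤ := by
  have : Sq a ⊆ closedBall (0 : ℂ) (2 * a) := fun p hp => by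
    rw [mem_closedBall_zero_iff]; exact greenP_norm_le hp
  exact (measure_mono this).trans_lt measure_closedBall_lt_top

/-- change of variables, as an inequality -/
theorem greenP_cov {s : ℝ} (hs : s ≠ 0) (v : ℂ) {A B : Set ℂ} (g : ℂ → ℝ≥0∞)
    (hAB : ∀ z ∈ A, s • z + v ∈ B) :
    ∫⁻ z in A, g (s • z + v) ≤ ENNReal.ofReal ((s ^ 2)⁻¹) * ∫⁻ z in B, g z := by
  have he : MeasurableEmbedding fun z : ℂ => s • z + v :=
    ((Homeomorph.smulOfNeZero s hs).trans (Homeomorph.addRight v)).measurableEmbedding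
  have hmap : Measure.map (fun z : ℂ => s • z + v) volume =
      ENNReal.ofReal ((s ^ 2)⁻¹) • (volume : Measure ℂ) := by
    have h1 : (fun z : ℂ => s • z + v) = (fun z => z + v) ∘ (fun z => s • z) := rfl
    rw [h1, ← Measure.map_map (measurable_add_const v) (measurable_const_smul s),
      Measure.map_addHaar_smul volume hs, Measure.map_smul, map_add_right_eq_self,
      Complex.finrank_real_complex, abs_of_nonneg (by positivity)]
  calc ∫⁻ z in A, g (s • z + v)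
      ≤ ∫⁻ z in (fun z : ℂ => s • z + v) ⁻¹' B, g (s • z + v) :=
        lintegral_mono_set hAB
    _ = ∫⁻ z, g z ∂(Measure.map (fun z : ℂ => s • z + v)
          (volume.restrict ((fun z : ℂ => s • z + v) ⁻¹' B))) := by
        rw [he.lintegral_map]
    _ = ENNReal.ofReal ((s ^ 2)⁻¹) * ∫⁻ z in B, g z := by
        rw [← he.restrict_map, hmap, Measure.restrict_smul, lintegral_smul_measure, smul_eq_mul]

/-- Cauchy-Schwarz -/
theorem greenP_cs {α : Type} [MeasurableSpace α] (μ : Measure α) {f : α → ℝ≥0∞}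
    (hf : AEMeasurable f μ) : (∫⁻ x, f x ∂μ) ^ 2 ≤ μ univ * ∫⁻ x, f x ^ 2 ∂μ := by
  have h := ENNReal.lintegral_mul_le_Lp_mul_Lq μ Real.HolderConjugate.two_two hf
    (aemeasurable_const (b := (1 : ℝ≥0∞)))
  simp only [Pi.mul_apply, mul_one, ENNReal.one_rpow, lintegral_const, one_mul] at h
  have h2 : ∀ x : ℝ≥0∞, (x ^ (1 / 2 : ℝ)) ^ 2 = x := by
    intro x
    rw [← ENNReal.rpow_natCast, ← ENNReal.rpow_mul]
    norm_num
  calc (∫⁻ x, f x ∂μ) ^ 2 ≤ ((∫⁻ a, f a ^ (2 : ℝ) ∂μ) ^ (1 / 2 : ℝ) * μ univ ^ (1 / 2 : ℝ)) ^ 2 :=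
        pow_le_pow_left₀ zero_le h 2
    _ = (∫⁻ a, f a ^ (2 : ℝ) ∂μ) * μ univ := by rw [mul_pow, h2, h2]
    _ = μ univ * ∫⁻ x, f x ^ 2 ∂μ := by
        rw [mul_comm]
        congr 1
        refine lintegral_congr fun x => ?_
        rw [← ENNReal.rpow_natCast]; norm_num

/-- integration along a segment -/
theorem greenP_line {a : ℝ} {u : ℂ → ℝ} (hu : ∀ ζ ∈ Sq a, ContDiffAt ℝ 1 u ζ) {p q : ℂ}
    (hp : p ∈ Sq a) (hq : q ∈ Sq a) :
    ‖u p - u q‖ₑ ≤ ‖p - q‖ₑ * ∫⁻ t in Ioc (0 : ℝ) 1, ‖fderiv ℝ u ((1 - t) • q + t • p)‖ₑ := by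
  set γ : ℝ → ℂ := fun t => (1 - t) • q + t • p with hγ
  have hγc : Continuous γ := by fun_prop
  have hmem : ∀ t ∈ Icc (0 : ℝ) 1, γ t ∈ Sq a := fun t ht => greenP_comb hp hq ht.1 ht.2
  have hcd : ContinuousOn (fderiv ℝ u) (Sq a) :=
    ContDiffOn.continuousOn_fderiv_of_isOpen (fun ζ h => (hu ζ h).contDiffWithinAt)
      (greenP_isOpen a) le_rfl
  have hγd : ∀ t, HasDerivAt γ (p - q) t := by
    intro t
    have h1 : HasDerivAt (fun t : ℝ => (1 - t) • q) ((-1 : ℝ) • q) t :=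
      ((hasDerivAt_id t).const_sub 1).smul_const q
    have h2 : HasDerivAt (fun t : ℝ => t • p) ((1 : ℝ) • p) t :=
      (hasDerivAt_id t).smul_const p
    have h3 := h1.add h2
    have h4 : (-1 : ℝ) • q + (1 : ℝ) • p = p - q := by
      rw [neg_one_smul, one_smul]; ring
    rw [h4] at h3
    exact h3
  have hd : ∀ t ∈ uIcc (0 : ℝ) 1, HasDerivAt (fun t => u (γ t)) (fderiv ℝ u (γ t) (p - q)) t := by
    intro t ht
    rw [uIcc_of_le zero_le_one] at ht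
    have h1 := ((hu _ (hmem t ht)).differentiableAt (by norm_num)).hasFDerivAt
    exact h1.comp_hasDerivAt t (hγd t)
  have hint : IntervalIntegrable (fun t => fderiv ℝ u (γ t) (p - q)) volume 0 1 := by
    apply ContinuousOn.intervalIntegrable
    rw [uIcc_of_le zero_le_one]
    exact (hcd.comp hγc.continuousOn hmem).clm_apply continuousOn_const
  have h := intervalIntegral.integral_eq_sub_of_hasDerivAt hd hint
  have h0 : γ 0 = q := by simp [hγ]
  have h1 : γ 1 = p := by simp [hγ]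
  simp only [h0, h1] at h
  rw [← h, intervalIntegral.integral_of_le zero_le_one]
  refine (enorm_integral_le_lintegral_enorm _).trans ?_
  rw [mul_comm, ← lintegral_mul_const' _ _ (by simp)]
  exact lintegral_mono fun t => ContinuousLinearMap.le_opENorm _ _

theorem greenP_inner {a s : ℝ} (hs : 1 / 2 ≤ s) (hs1 : s ≤ 1) (g : ℂ → ℝ≥0∞) {q : ℂ}
    (hq : q ∈ Sq a) :
    ∫⁻ p in Sq a, g (s • p + (1 - s) • q) ≤ 4 * ∫⁻ p in Sq a, g p := by
  refine (greenP_cov (s := s) (by linarith) ((1 - s) • q) (B := Sq a) g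
    (fun z hz => ?_)).trans ?_
  · have := greenP_comb hz hq (by linarith) hs1
    rwa [add_comm] at this
  · gcongr
    rw [show (4 : ℝ≥0∞) = ENNReal.ofReal 4 by norm_num]
    apply ENNReal.ofReal_le_ofReal
    rw [inv_le_comm₀ (by positivity) (by norm_num)]
    nlinarith

theorem greenP_F {a t : ℝ} (h0 : 0 ≤ t) (h1 : t ≤ 1) {g : ℂ → ℝ≥0∞} (hg : Measurable g) :
    ∫⁻ p in Sq a, ∫⁻ q in Sq a, g ((1 - t) • q + t • p) ≤
      4 * volume (Sq a) * ∫⁻ p in Sq a, g p := by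
  rcases le_total t (1 / 2) with h | h
  · calc ∫⁻ p in Sq a, ∫⁻ q in Sq a, g ((1 - t) • q + t • p)
        ≤ ∫⁻ p in Sq a, 4 * ∫⁻ q in Sq a, g q := by
          refine setLIntegral_mono' (greenP_meas a) fun p hp => ?_
          have := greenP_inner (s := 1 - t) (by linarith) (by linarith) g hp
          rwa [sub_sub_cancel] at this
      _ = 4 * volume (Sq a) * ∫⁻ p in Sq a, g p := by
          rw [setLIntegral_const]; ring
  · rw [lintegral_lintegral_swap]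
    · calc ∫⁻ q in Sq a, ∫⁻ p in Sq a, g ((1 - t) • q + t • p)
          ≤ ∫⁻ q in Sq a, 4 * ∫⁻ p in Sq a, g p := by
            refine setLIntegral_mono' (greenP_meas a) fun q hq => ?_
            have := greenP_inner (s := t) h h1 g hq
            simpa only [add_comm] using this
        _ = 4 * volume (Sq a) * ∫⁻ p in Sq a, g p := by
            rw [setLIntegral_const]; ring
    · apply Measurable.aemeasurable
      exact hg.comp (by fun_prop : Measurable fun z : ℂ × ℂ => (1 - t) • z.2 + t • z.1)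

/-- Poincaré inequality on a square -/
theorem greenP_poincare {a : ℝ} (ha : 0 < a) : ∃ C : ℝ≥0∞, C ≠ ⊤ ∧ ∀ u : ℂ → ℝ,
    (∀ ζ ∈ Sq a, ContDiffAt ℝ 1 u ζ) →
    ∫⁻ p in Sq a, ∫⁻ q in Sq a, ‖u p - u q‖ₑ ^ 2 ≤ C * ∫⁻ p in Sq a, ‖fderiv ℝ u p‖ₑ ^ 2 := by
  set D : ℝ≥0∞ := ENNReal.ofReal (4 * a) with hD
  have hDt : D ^ 2 ≠ ⊤ := ENNReal.pow_ne_top ENNReal.ofReal_ne_top
  refine ⟨D ^ 2 * (4 * volume (Sq a)), ENNReal.mul_ne_top hDt
    (ENNReal.mul_ne_top (by norm_num) (greenP_vol_lt_top a).ne), fun u hu => ?_⟩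
  set g : ℂ → ℝ≥0∞ := fun p => ‖fderiv ℝ u p‖ₑ ^ 2 with hg
  have hgm0 : Measurable fun p => ‖fderiv ℝ u p‖ₑ := (measurable_fderiv ℝ u).enorm
  have hgm : Measurable g := hgm0.pow_const 2
  have hpt : ∀ p ∈ Sq a, ∀ q ∈ Sq a, ‖u p - u q‖ₑ ^ 2 ≤
      D ^ 2 * ∫⁻ t in Ioc (0 : ℝ) 1, g ((1 - t) • q + t • p) := by
    intro p hp q hq
    have h1 := greenP_line hu hp hq
    have h2 : ‖p - q‖ₑ ≤ D := by
      rw [hD, ← ofReal_norm]
      apply ENNReal.ofReal_le_ofReal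
      refine (norm_sub_le _ _).trans ?_
      linarith [greenP_norm_le hp, greenP_norm_le hq]
    calc ‖u p - u q‖ₑ ^ 2
        ≤ (D * ∫⁻ t in Ioc (0 : ℝ) 1, ‖fderiv ℝ u ((1 - t) • q + t • p)‖ₑ) ^ 2 :=
          pow_le_pow_left₀ zero_le (h1.trans (by gcongr)) 2
      _ = D ^ 2 * (∫⁻ t in Ioc (0 : ℝ) 1, ‖fderiv ℝ u ((1 - t) • q + t • p)‖ₑ) ^ 2 := mul_pow _ _ _
      _ ≤ D ^ 2 * ∫⁻ t in Ioc (0 : ℝ) 1, g ((1 - t) • q + t • p) := by
          gcongr
          have h3 := greenP_cs (volume.restrict (Ioc (0 : ℝ) 1))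
            (f := fun t => ‖fderiv ℝ u ((1 - t) • q + t • p)‖ₑ)
            (hgm0.comp (by fun_prop : Measurable fun t : ℝ => (1 - t) • q + t • p)).aemeasurable
          simpa using h3
  have hm3 : Measurable fun z : (ℂ × ℝ) × ℂ => g ((1 - z.1.2) • z.2 + z.1.2 • z.1.1) :=
    hgm.comp (by fun_prop)
  calc ∫⁻ p in Sq a, ∫⁻ q in Sq a, ‖u p - u q‖ₑ ^ 2
      ≤ ∫⁻ p in Sq a, ∫⁻ q in Sq a, D ^ 2 * ∫⁻ t in Ioc (0 : ℝ) 1, g ((1 - t) • q + t • p) :=
        setLIntegral_mono' (greenP_meas a) fun p hp =>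
          setLIntegral_mono' (greenP_meas a) fun q hq => hpt p hp q hq
    _ = D ^ 2 * ∫⁻ p in Sq a, ∫⁻ q in Sq a, ∫⁻ t in Ioc (0 : ℝ) 1, g ((1 - t) • q + t • p) := by
        rw [← lintegral_const_mul' _ _ hDt]
        refine lintegral_congr fun p => ?_
        rw [← lintegral_const_mul' _ _ hDt]
    _ = D ^ 2 * ∫⁻ p in Sq a, ∫⁻ t in Ioc (0 : ℝ) 1, ∫⁻ q in Sq a, g ((1 - t) • q + t • p) := by
        congr 1
        refine lintegral_congr fun p => ?_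
        rw [lintegral_lintegral_swap]
        exact (hgm.comp (by fun_prop :
          Measurable fun z : ℂ × ℝ => (1 - z.2) • z.1 + z.2 • p)).aemeasurable
    _ = D ^ 2 * ∫⁻ t in Ioc (0 : ℝ) 1, ∫⁻ p in Sq a, ∫⁻ q in Sq a, g ((1 - t) • q + t • p) := by
        congr 1
        rw [lintegral_lintegral_swap]
        exact (Measurable.lintegral_prod_right' (ν := volume.restrict (Sq a)) hm3).aemeasurable
    _ ≤ D ^ 2 * ∫⁻ t in Ioc (0 : ℝ) 1, 4 * volume (Sq a) * ∫⁻ p in Sq a, g p := by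
        refine mul_le_mul' le_rfl ?_
        exact setLIntegral_mono' measurableSet_Ioc fun t ht => greenP_F ht.1.le ht.2 hgm
    _ = D ^ 2 * (4 * volume (Sq a)) * ∫⁻ p in Sq a, ‖fderiv ℝ u p‖ₑ ^ 2 := by
        rw [setLIntegral_const]
        simp only [Real.volume_Ioc, sub_zero, ENNReal.ofReal_one, mul_one]
        ring

theorem greenP_sq_le (x y : ℝ) : ‖x‖ₑ ^ 2 ≤ 2 * ‖x - y‖ₑ ^ 2 + 2 * ‖y‖ₑ ^ 2 := by
  have h : ∀ z : ℝ, ‖z‖ₑ ^ 2 = ENNReal.ofReal (z ^ 2) := by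
    intro z
    rw [← ofReal_norm, ← ENNReal.ofReal_pow (norm_nonneg _), Real.norm_eq_abs, sq_abs]
  rw [h, h, h, show (2 : ℝ≥0∞) = ENNReal.ofReal 2 by norm_num, ← ENNReal.ofReal_mul (by norm_num),
    ← ENNReal.ofReal_mul (by norm_num), ← ENNReal.ofReal_add (by positivity) (by positivity)]
  apply ENNReal.ofReal_le_ofReal
  nlinarith [sq_nonneg (x - 2 * y)]

theorem greenP_ball_subset {r a : ℝ} (h : r ≤ a) : ball (0 : ℂ) r ⊆ Sq a := fun p hp => by
  rw [mem_ball_zero_iff] at hp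
  exact ⟨(Complex.abs_re_le_norm p).trans_lt (hp.trans_le h),
    (Complex.abs_im_le_norm p).trans_lt (hp.trans_le h)⟩

/-- control on a square by control on a smaller disc -/
theorem greenP_spread' {c : ℝ} (hc : 0 < c) : ∃ C : ℝ≥0∞, C ≠ ⊤ ∧ ∀ u : ℂ → ℝ,
    (∀ ζ ∈ Sq (2 * c), ContDiffAt ℝ 1 u ζ) →
    ∫⁻ p in Sq (2 * c), ‖u p‖ₑ ^ 2 ≤
      C * ((∫⁻ p in ball (0 : ℂ) c, ‖u p‖ₑ ^ 2) + ∫⁻ p in Sq (2 * c), ‖fderiv ℝ u p‖ₑ ^ 2) := by
  obtain ⟨C, hC, h⟩ := greenP_poincare (a := 2 * c) (by linarith)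
  set S : Set ℂ := ball 0 c with hS
  have hSs : S ⊆ Sq (2 * c) := greenP_ball_subset (by linarith)
  have hSp : volume S ≠ 0 := (measure_ball_pos volume 0 hc).ne'
  have hSt : volume S ≠ ⊤ := measure_ball_lt_top.ne
  have hQt : volume (Sq (2 * c)) ≠ ⊤ := (greenP_vol_lt_top _).ne
  refine ⟨(volume S)⁻¹ * (2 * C + 2 * volume (Sq (2 * c))), ?_, fun u hu => ?_⟩
  · exact ENNReal.mul_ne_top (ENNReal.inv_ne_top.2 hSp) (ENNReal.add_ne_top.2
      ⟨ENNReal.mul_ne_top (by norm_num) hC, ENNReal.mul_ne_top (by norm_num) hQt⟩)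
  have hum : AEMeasurable u (volume.restrict S) := by
    apply ContinuousOn.aemeasurable _ measurableSet_ball
    intro ζ hζ
    exact (hu ζ (hSs hζ)).continuousAt.continuousWithinAt
  have key : volume S * ∫⁻ p in Sq (2 * c), ‖u p‖ₑ ^ 2 ≤
      (2 * C + 2 * volume (Sq (2 * c))) *
      ((∫⁻ p in S, ‖u p‖ₑ ^ 2) + ∫⁻ p in Sq (2 * c), ‖fderiv ℝ u p‖ₑ ^ 2) := by
    calc volume S * ∫⁻ p in Sq (2 * c), ‖u p‖ₑ ^ 2
        = ∫⁻ p in Sq (2 * c), ∫⁻ q in S, ‖u p‖ₑ ^ 2 := by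
          rw [← lintegral_const_mul' _ _ hSt]
          refine lintegral_congr fun p => ?_
          rw [setLIntegral_const, mul_comm]
      _ ≤ ∫⁻ p in Sq (2 * c), ((2 * ∫⁻ q in Sq (2 * c), ‖u p - u q‖ₑ ^ 2) +
            2 * ∫⁻ q in S, ‖u q‖ₑ ^ 2) := by
          refine lintegral_mono fun p => ?_
          calc ∫⁻ q in S, ‖u p‖ₑ ^ 2
              ≤ ∫⁻ q in S, (2 * ‖u p - u q‖ₑ ^ 2 + 2 * ‖u q‖ₑ ^ 2) :=
                lintegral_mono fun q => greenP_sq_le _ _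
            _ = (∫⁻ q in S, 2 * ‖u p - u q‖ₑ ^ 2) + ∫⁻ q in S, 2 * ‖u q‖ₑ ^ 2 :=
                lintegral_add_right' _ ((hum.enorm.pow_const 2).const_mul 2)
            _ = (2 * ∫⁻ q in S, ‖u p - u q‖ₑ ^ 2) + 2 * ∫⁻ q in S, ‖u q‖ₑ ^ 2 := by
                rw [lintegral_const_mul' _ _ (by norm_num), lintegral_const_mul' _ _ (by norm_num)]
            _ ≤ _ := by
                gcongr
      _ = (2 * ∫⁻ p in Sq (2 * c), ∫⁻ q in Sq (2 * c), ‖u p - u q‖ₑ ^ 2) +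
            2 * volume (Sq (2 * c)) * ∫⁻ q in S, ‖u q‖ₑ ^ 2 := by
          rw [lintegral_add_right' _ aemeasurable_const, lintegral_const_mul' _ _ (by norm_num),
            setLIntegral_const]
          ring
      _ ≤ 2 * (C * ∫⁻ p in Sq (2 * c), ‖fderiv ℝ u p‖ₑ ^ 2) +
            2 * volume (Sq (2 * c)) * ∫⁻ q in S, ‖u q‖ₑ ^ 2 := by
          gcongr
          exact h u hu
      _ = 2 * C * (∫⁻ p in Sq (2 * c), ‖fderiv ℝ u p‖ₑ ^ 2) +
            2 * volume (Sq (2 * c)) * ∫⁻ q in S, ‖u q‖ₑ ^ 2 := by ring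
      _ ≤ 2 * C * ((∫⁻ p in S, ‖u p‖ₑ ^ 2) + ∫⁻ p in Sq (2 * c), ‖fderiv ℝ u p‖ₑ ^ 2) +
            2 * volume (Sq (2 * c)) *
            ((∫⁻ p in S, ‖u p‖ₑ ^ 2) + ∫⁻ p in Sq (2 * c), ‖fderiv ℝ u p‖ₑ ^ 2) :=
          add_le_add (mul_le_mul' le_rfl le_add_self) (mul_le_mul' le_rfl le_self_add)
      _ = _ := by ring
  calc ∫⁻ p in Sq (2 * c), ‖u p‖ₑ ^ 2
      = (volume S)⁻¹ * (volume S * ∫⁻ p in Sq (2 * c), ‖u p‖ₑ ^ 2) := by
        rw [← mul_assoc, ENNReal.inv_mul_cancel hSp hSt, one_mul]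
    _ ≤ _ := by
        rw [mul_assoc]
        exact mul_le_mul' le_rfl key

/-- control on a square by control on a smaller disc -/
theorem greenP_spread {c : ℝ} (hc : 0 < c) : ∃ C : ℝ≥0∞, C ≠ ⊤ ∧ ∀ u : ℂ → ℝ,
    (∀ ζ ∈ Sq (2 * c), ContDiffAt ℝ 1 u ζ) →
    ∫⁻ p in Sq (2 * c), ‖u p‖ₑ ^ 2 ≤
      C * (∫⁻ p in ball (0 : ℂ) c, ‖u p‖ₑ ^ 2 + ∫⁻ p in Sq (2 * c), ‖fderiv ℝ u p‖ₑ ^ 2) := by
  obtain ⟨C, hC, h⟩ := greenP_spread' hc
  have hSp : volume (ball (0 : ℂ) c) ≠ 0 := (measure_ball_pos volume 0 hc).ne'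
  have hSt : volume (ball (0 : ℂ) c) ≠ ⊤ := measure_ball_lt_top.ne
  refine ⟨C * (1 + (volume (ball (0 : ℂ) c))⁻¹), ENNReal.mul_ne_top hC
    (ENNReal.add_ne_top.2 ⟨by norm_num, ENNReal.inv_ne_top.2 hSp⟩), fun u hu => ?_⟩
  refine (h u hu).trans ?_
  rw [lintegral_add_right' _ aemeasurable_const, setLIntegral_const, mul_assoc]
  refine mul_le_mul' le_rfl ?_
  set A : ℝ≥0∞ := ∫⁻ p in ball (0 : ℂ) c, ‖u p‖ₑ ^ 2
  set E : ℝ≥0∞ := ∫⁻ p in Sq (2 * c), ‖fderiv ℝ u p‖ₑ ^ 2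
  calc A + E = 1 * A + (volume (ball (0 : ℂ) c))⁻¹ * (E * volume (ball (0 : ℂ) c)) := by
        rw [mul_comm E, ← mul_assoc, ENNReal.inv_mul_cancel hSp hSt, one_mul, one_mul]
    _ ≤ 1 * (A + E * volume (ball (0 : ℂ) c)) + (volume (ball (0 : ℂ) c))⁻¹ *
          (A + E * volume (ball (0 : ℂ) c)) :=
        add_le_add (mul_le_mul' le_rfl le_self_add) (mul_le_mul' le_rfl le_add_self)
    _ = _ := by ring

/-! ### the bump -/

theorem greenP_chi0_continuous : Continuous chi0 :=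
  bump0.continuous.comp (continuous_norm.pow 2)

theorem greenP_chi0_nonneg (ζ : ℂ) : 0 ≤ chi0 ζ := bump0.nonneg

theorem greenP_chi0_le_one (ζ : ℂ) : chi0 ζ ≤ 1 := bump0.le_one

theorem greenP_chi0_zero {ζ : ℂ} (h : 1 ≤ ‖ζ‖) : chi0 ζ = 0 := by
  apply bump0.zero_of_le_dist
  show (3 / 8 : ℝ) ≤ dist (‖ζ‖ ^ 2) (5 / 8)
  rw [Real.dist_eq, le_abs]
  left
  nlinarith

theorem greenP_chi0_support : Function.support chi0 ⊆ ball (0 : ℂ) 1 := by
  intro ζ h
  rw [mem_ball_zero_iff]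
  by_contra h1
  exact h (greenP_chi0_zero (not_lt.1 h1))

theorem greenP_chi0_compact : HasCompactSupport chi0 := by
  apply HasCompactSupport.of_support_subset_isCompact (isCompact_closedBall (0 : ℂ) 1)
  exact greenP_chi0_support.trans ball_subset_closedBall

theorem greenP_chi0_integrable : Integrable chi0 :=
  greenP_chi0_continuous.integrable_of_hasCompactSupport greenP_chi0_compact

theorem greenP_chi0_pos : 0 < ∫ ξ : ℂ, chi0 ξ := by
  apply greenP_chi0_continuous.integral_pos_of_hasCompactSupport_nonneg_nonzero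
    greenP_chi0_compact (x := ((3 / 4 : ℝ) : ℂ)) greenP_chi0_nonneg
  have h : (‖((3 / 4 : ℝ) : ℂ)‖ ^ 2) = 9 / 16 := by
    rw [Complex.norm_real]; norm_num
  have : 0 < chi0 ((3 / 4 : ℝ) : ℂ) := by
    apply bump0.pos_of_mem_ball
    show dist (‖((3 / 4 : ℝ) : ℂ)‖ ^ 2) (5 / 8) < (3 / 8 : ℝ)
    rw [h, Real.dist_eq]
    norm_num [abs_lt]
  exact this.ne'

theorem greenP_chi_integral : ∫ ξ : ℂ, chi ξ = 1 := by
  unfold chi
  rw [integral_div, div_self greenP_chi0_pos.ne']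

/-- control on a square by the average against the bump -/
theorem greenP_base {a r : ℝ} (hr : 0 < r) (hra : r < a) : ∃ C : ℝ≥0∞, C ≠ ⊤ ∧ ∀ u : ℂ → ℝ,
    (∀ ζ ∈ Sq a, ContDiffAt ℝ 1 u ζ) →
    ∫⁻ p in Sq a, ‖u p‖ₑ ^ 2 ≤
      C * (‖∫ ζ : ℂ, chi ζ * u ((r : ℂ) * ζ)‖ₑ ^ 2 + ∫⁻ p in Sq a, ‖fderiv ℝ u p‖ₑ ^ 2) := by
  have ha : 0 < a := hr.trans hra
  obtain ⟨C, hC, h⟩ := greenP_poincare ha
  have hQt : volume (Sq a) ≠ ⊤ := (greenP_vol_lt_top _).ne
  set I0 : ℝ := ∫ ξ : ℂ, chi0 ξ with hI0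
  have hI0p : 0 < I0 := greenP_chi0_pos
  set M : ℝ≥0∞ := ENNReal.ofReal I0⁻¹ with hM
  have hMt : M ≠ ⊤ := ENNReal.ofReal_ne_top
  set B : Set ℂ := ball 0 1 with hB
  have hBt : volume B ≠ ⊤ := measure_ball_lt_top.ne
  set R : ℝ≥0∞ := ENNReal.ofReal ((r ^ 2)⁻¹) with hR
  have hRt : R ≠ ⊤ := ENNReal.ofReal_ne_top
  set K : ℝ≥0∞ := 2 * (M ^ 2 * volume B * R) * C with hK
  have hKt : K ≠ ⊤ := ENNReal.mul_ne_top (ENNReal.mul_ne_top (by norm_num)
    (ENNReal.mul_ne_top (ENNReal.mul_ne_top (ENNReal.pow_ne_top hMt) hBt) hRt)) hC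
  refine ⟨K + 2 * volume (Sq a),
    ENNReal.add_ne_top.2 ⟨hKt, ENNReal.mul_ne_top (by norm_num) hQt⟩, fun u hu => ?_⟩
  have hmem : ∀ z ∈ closedBall (0 : ℂ) 1, (r : ℂ) * z ∈ Sq a := by
    intro z hz
    rw [mem_closedBall_zero_iff] at hz
    have h1 : ‖(r : ℂ) * z‖ < a := by
      rw [norm_mul, Complex.norm_real, Real.norm_of_nonneg hr.le]
      nlinarith
    exact ⟨(Complex.abs_re_le_norm _).trans_lt h1, (Complex.abs_im_le_norm _).trans_lt h1⟩
  have hucont : ContinuousOn (fun z : ℂ => u ((r : ℂ) * z)) (closedBall 0 1) := by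
    intro z hz
    have h1 : ContinuousAt u ((r : ℂ) * z) := (hu _ (hmem z hz)).continuousAt
    have h2 : ContinuousAt (fun z : ℂ => (r : ℂ) * z) z := by fun_prop
    exact (ContinuousAt.comp (f := fun z : ℂ => (r : ℂ) * z) (g := u) h1 h2).continuousWithinAt
  have hchic : Continuous chi := greenP_chi0_continuous.div_const _
  have hchi0 : ∀ z : ℂ, z ∉ closedBall (0 : ℂ) 1 → chi z = 0 := by
    intro z hz
    rw [mem_closedBall_zero_iff, not_le] at hz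
    rw [chi, greenP_chi0_zero hz.le, zero_div]
  have hint1 : Integrable (fun z : ℂ => chi z * u ((r : ℂ) * z)) := by
    rw [← integrableOn_iff_integrable_of_support_subset (s := closedBall (0 : ℂ) 1)]
    · exact (hchic.continuousOn.mul hucont).integrableOn_compact (isCompact_closedBall _ _)
    · intro z hz
      by_contra h1
      exact hz (by simp [hchi0 z h1])
  have hchii : Integrable chi := greenP_chi0_integrable.div_const _
  set l : ℝ := ∫ ζ : ℂ, chi ζ * u ((r : ℂ) * ζ) with hl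
  have hdiff : ∀ p : ℂ, u p - l = ∫ z : ℂ, chi z * (u p - u ((r : ℂ) * z)) := by
    intro p
    have h1 : (fun z : ℂ => chi z * (u p - u ((r : ℂ) * z))) =
        fun z : ℂ => chi z * u p - chi z * u ((r : ℂ) * z) := by
      funext z; ring
    rw [h1, integral_sub (hchii.mul_const _) hint1, integral_mul_const, greenP_chi_integral,
      one_mul]
  have hpt : ∀ p ∈ Sq a, ‖u p - l‖ₑ ^ 2 ≤
      M ^ 2 * volume B * R * ∫⁻ q in Sq a, ‖u p - u q‖ₑ ^ 2 := by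
    intro p hp
    have h1 : ‖u p - l‖ₑ ≤ M * ∫⁻ z in B, ‖u p - u ((r : ℂ) * z)‖ₑ := by
      rw [hdiff p]
      refine (enorm_integral_le_lintegral_enorm _).trans ?_
      rw [← lintegral_const_mul' _ _ hMt, ← lintegral_indicator measurableSet_ball]
      refine lintegral_mono fun z => ?_
      by_cases hz : z ∈ B
      · rw [indicator_of_mem hz, enorm_mul]
        gcongr
        rw [hM, ← ofReal_norm]
        apply ENNReal.ofReal_le_ofReal
        rw [chi, norm_div, Real.norm_of_nonneg (greenP_chi0_nonneg z),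
          Real.norm_of_nonneg hI0p.le, ← one_div]
        gcongr
        exact greenP_chi0_le_one z
      · have h2 : chi z = 0 := by
          rw [hB, mem_ball_zero_iff, not_lt] at hz
          rw [chi, greenP_chi0_zero hz, zero_div]
        simp [h2]
    have hm : AEMeasurable (fun z : ℂ => ‖u p - u ((r : ℂ) * z)‖ₑ) (volume.restrict B) := by
      have h2 : AEMeasurable (fun z : ℂ => u ((r : ℂ) * z)) (volume.restrict B) :=
        (hucont.mono ball_subset_closedBall).aemeasurable measurableSet_ball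
      exact (aemeasurable_const.sub h2).enorm
    have h3 := greenP_cs (volume.restrict B) hm
    rw [Measure.restrict_apply_univ] at h3
    have h4 : ∫⁻ z in B, ‖u p - u ((r : ℂ) * z)‖ₑ ^ 2 ≤ R * ∫⁻ q in Sq a, ‖u p - u q‖ₑ ^ 2 := by
      have h5 := greenP_cov (s := r) hr.ne' 0 (A := B) (B := Sq a)
        (fun q => ‖u p - u q‖ₑ ^ 2) (fun z hz => by
          rw [add_zero, Complex.real_smul]
          exact hmem z (ball_subset_closedBall hz))
      simpa only [add_zero, Complex.real_smul] using h5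
    calc ‖u p - l‖ₑ ^ 2 ≤ (M * ∫⁻ z in B, ‖u p - u ((r : ℂ) * z)‖ₑ) ^ 2 :=
          pow_le_pow_left₀ zero_le h1 2
      _ = M ^ 2 * (∫⁻ z in B, ‖u p - u ((r : ℂ) * z)‖ₑ) ^ 2 := mul_pow _ _ _
      _ ≤ M ^ 2 * (volume B * (R * ∫⁻ q in Sq a, ‖u p - u q‖ₑ ^ 2)) := by
          refine mul_le_mul' le_rfl (h3.trans (mul_le_mul' le_rfl h4))
      _ = _ := by ring
  calc ∫⁻ p in Sq a, ‖u p‖ₑ ^ 2
      ≤ ∫⁻ p in Sq a, (2 * (M ^ 2 * volume B * R * ∫⁻ q in Sq a, ‖u p - u q‖ₑ ^ 2) +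
          2 * ‖l‖ₑ ^ 2) := by
        refine setLIntegral_mono' (greenP_meas a) fun p hp => ?_
        refine (greenP_sq_le (u p) l).trans ?_
        gcongr
        exact hpt p hp
    _ = 2 * (M ^ 2 * volume B * R) * (∫⁻ p in Sq a, ∫⁻ q in Sq a, ‖u p - u q‖ₑ ^ 2) +
          2 * volume (Sq a) * ‖l‖ₑ ^ 2 := by
        rw [lintegral_add_right' _ aemeasurable_const, setLIntegral_const,
          lintegral_const_mul' _ _ (by norm_num), lintegral_const_mul' _ _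
            (ENNReal.mul_ne_top (ENNReal.mul_ne_top (ENNReal.pow_ne_top hMt) hBt) hRt)]
        ring
    _ ≤ 2 * (M ^ 2 * volume B * R) * (C * ∫⁻ p in Sq a, ‖fderiv ℝ u p‖ₑ ^ 2) +
          2 * volume (Sq a) * ‖l‖ₑ ^ 2 := by
        gcongr
        exact h u hu
    _ = K * (∫⁻ p in Sq a, ‖fderiv ℝ u p‖ₑ ^ 2) + 2 * volume (Sq a) * ‖l‖ₑ ^ 2 := by
        rw [hK]; ring
    _ ≤ K * (‖l‖ₑ ^ 2 + ∫⁻ p in Sq a, ‖fderiv ℝ u p‖ₑ ^ 2) +
          2 * volume (Sq a) * (‖l‖ₑ ^ 2 + ∫⁻ p in Sq a, ‖fderiv ℝ u p‖ₑ ^ 2) := by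
        gcongr
        · exact le_add_self
        · exact le_self_add
    _ = _ := by ring

end Pool.Agent.ParLeaf
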