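import Pool.Agent.H.MP_3a36cd_an.GreenA
import Pool.Agent.H.MP_3a36cd_an.GreenP

/-! MP_3a36cd_an, module GreenC: the energy controls the L² norm on discs, along chains. -/

open Set Metric Filter Topology Complex MeasureTheory Real
open scoped ContDiff ENNReal

namespace Pool.Agent.ParLeaf

theorem greenC_norm_lt {s : ℝ} (hs : 0 < s) {ζ : ℂ} (h : ζ ∈ Sq (2 * s)) : ‖ζ‖ < 3 * s := by
  obtain ⟨h1, h2⟩ := h
  have h3 : ‖ζ‖ ^ 2 = ζ.re ^ 2 + ζ.im ^ 2 := by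
    rw [Complex.sq_norm, Complex.normSq_apply]; ring
  have h4 : ζ.re ^ 2 < (2 * s) ^ 2 := by
    rw [sq_lt_sq, abs_of_pos (show 0 < 2 * s by positivity)]; exact h1
  have h5 : ζ.im ^ 2 < (2 * s) ^ 2 := by
    rw [sq_lt_sq, abs_of_pos (show 0 < 2 * s by positivity)]; exact h2
  have h6 : ‖ζ‖ ^ 2 < (3 * s) ^ 2 := by nlinarith
  exact lt_of_pow_lt_pow_left₀ 2 (by positivity) h6

theorem greenC_mem_Sq {s : ℝ} {ζ : ℂ} (h : ‖ζ‖ < s) : ζ ∈ Sq s :=
  ⟨(Complex.abs_re_le_norm ζ).trans_lt h, (Complex.abs_im_le_norm ζ).trans_lt h⟩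

/-- the norm of a real linear form on `ℂ` -/
theorem greenC_opNorm (L : ℂ →L[ℝ] ℝ) : ‖L‖ ≤ ‖((L 1 : ℂ) + I * (L I : ℂ))‖ := by
  refine L.opNorm_le_bound (norm_nonneg _) fun w => ?_
  have h1 : L w = L 1 * w.re + L I * w.im := by
    have h2 : w = w.re • (1 : ℂ) + w.im • I := by
      apply Complex.ext <;> simp
    conv_lhs => rw [h2, map_add, map_smul, map_smul]
    simp only [smul_eq_mul]
    ring
  have h3 : ((L w : ℝ) : ℂ).re = (((L 1 : ℂ) + I * (L I : ℂ)) * (starRingEnd ℂ) w).re := by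
    rw [h1]
    simp
  have h4 : L w = (((L 1 : ℂ) + I * (L I : ℂ)) * (starRingEnd ℂ) w).re := by
    rw [← h3, Complex.ofReal_re]
  rw [h4, Real.norm_eq_abs]
  refine (Complex.abs_re_le_norm _).trans ?_
  rw [norm_mul, RCLike.norm_conj]

namespace RD

variable (R : RD ℂ)

/-- the energy on a disc is at most the total energy -/
theorem greenC_disc {x : R.carrier} {ρ : ℝ} (hρ : ρ < R.rad x) {g : R.carrier → ℝ}
    (hg : R.RT g) :
    ∫ ζ in ball (0 : ℂ) ρ, ‖R.gD g (R.tr x ζ)‖ ^ 2 ≤ R.gE g := by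
  by_cases hρ0 : ρ ≤ 0
  · rw [ball_eq_empty.mpr hρ0]
    simpa using R.gE_nonneg g
  push Not at hρ0
  set ρ₁ := ρ + (R.rad x - ρ) / 3 with hρ₁
  set ρ₂ := ρ + 2 * (R.rad x - ρ) / 3 with hρ₂
  have h01 : ρ < ρ₁ := by linarith
  have h12 : ρ₁ < ρ₂ := by linarith
  have h23 : ρ₂ < R.rad x := by linarith
  let b : ContDiffBump (0 : ℂ) := ⟨ρ, ρ₁, hρ0, h01⟩
  have hbt : tsupport (b : ℂ → ℝ) = closedBall 0 ρ₁ := b.tsupport_eq
  have hbs : tsupport (b : ℂ → ℝ) ⊆ ball 0 (R.rad x) := by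
    rw [hbt]; exact closedBall_subset_ball (h12.trans h23)
  set f : R.carrier → ℝ := R.gext x (b : ℂ → ℝ) with hf
  have hfs : R.Smooth f univ := R.gext_smooth b.contDiff b.hasCompactSupport hbs
  have hfc : Continuous f := by
    rw [← continuousOn_univ]
    exact Smooth.continuousOn R isOpen_univ hfs
  have hf01 : ∀ y, 0 ≤ f y ∧ f y ≤ 1 := by
    intro y
    rw [hf]
    unfold gext
    split_ifs
    · exact ⟨b.nonneg, b.le_one⟩
    · exact ⟨le_rfl, zero_le_one⟩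
  have hgc := RT.gD_continuous hg
  have hc' : Continuous fun y => ‖R.gD g y‖ ^ 2 := (hgc.norm).pow 2
  have hs' : HasCompactSupport fun y => ‖R.gD g y‖ ^ 2 :=
    (RT.gD_compact hg).comp_left (g := fun z : ℂ => ‖z‖ ^ 2) (by simp)
  have hc : Continuous fun y => f y * ‖R.gD g y‖ ^ 2 := hfc.mul hc'
  have hs : HasCompactSupport fun y => f y * ‖R.gD g y‖ ^ 2 := hs'.mul_left
  have h1 : R.sint (fun y => f y * ‖R.gD g y‖ ^ 2) ≤ R.gE g := by
    apply R.sint_mono hc hs hc' hs'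
    intro y
    have h2 := (hf01 y).2
    have h3 : 0 ≤ ‖R.gD g y‖ ^ 2 := by positivity
    nlinarith
  have h2 : R.sint (fun y => f y * ‖R.gD g y‖ ^ 2) =
      ∫ ζ in ball (0 : ℂ) ρ₂, f (R.tr x ζ) * ‖R.gD g (R.tr x ζ)‖ ^ 2 := by
    apply R.sint_disc h23.le
    intro y hy
    have h3 : f y ≠ 0 := left_ne_zero_of_mul hy
    have h4 : y ∈ R.tr x '' (tsupport (b : ℂ → ℝ)) := by
      by_contra hcon
      exact h3 (R.gext_zero hcon)
    obtain ⟨ζ, hζ, rfl⟩ := h4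
    rw [hbt, mem_closedBall_zero_iff] at hζ
    exact ⟨ζ, hζ.trans_lt h12, rfl⟩
  have hcont : ContinuousOn (fun ζ => f (R.tr x ζ) * ‖R.gD g (R.tr x ζ)‖ ^ 2)
      (closedBall 0 ρ₂) := by
    intro ζ hζ
    rw [mem_closedBall_zero_iff] at hζ
    have h3 := R.green_continuousAt_tr (hζ.trans_lt h23)
    exact (ContinuousAt.comp (g := fun y => f y * ‖R.gD g y‖ ^ 2) hc.continuousAt h3).continuousWithinAt
  have hint : IntegrableOn (fun ζ => f (R.tr x ζ) * ‖R.gD g (R.tr x ζ)‖ ^ 2)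
      (ball (0 : ℂ) ρ₂) :=
    (hcont.integrableOn_compact (isCompact_closedBall _ _)).mono_set ball_subset_closedBall
  have h3 : ∫ ζ in ball (0 : ℂ) ρ, ‖R.gD g (R.tr x ζ)‖ ^ 2 =
      ∫ ζ in ball (0 : ℂ) ρ, f (R.tr x ζ) * ‖R.gD g (R.tr x ζ)‖ ^ 2 := by
    apply setIntegral_congr_fun measurableSet_ball
    intro ζ hζ
    have hζ' := hζ
    rw [mem_ball_zero_iff] at hζ'
    show _ = f (R.tr x ζ) * ‖R.gD g (R.tr x ζ)‖ ^ 2
    rw [hf, R.gext_tr _ (hζ'.trans hρ), b.one_of_mem_closedBall (ball_subset_closedBall hζ), one_mul]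
  rw [h3]
  refine le_trans ?_ (h2.symm.le.trans h1)
  refine setIntegral_mono_set hint (.of_forall fun ζ => ?_) (ball_subset_ball (h01.trans h12).le).eventuallyLE
  exact mul_nonneg (hf01 _).1 (by positivity)

variable {R}

theorem greenC_fderiv_le {g : R.carrier → ℝ} (hg : R.RT g) {x : R.carrier} {ζ : ℂ}
    (h : ‖ζ‖ < R.rad x) :
    ‖fderiv ℝ (fun v => g (R.tr x v)) ζ‖ ≤ 2 * ‖R.gD g (R.tr x ζ)‖ := by
  have h1 : ContDiffAt ℝ ∞ (fun v => g (R.tr x v)) ζ :=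
    Smooth.contDiffAt_tr R hg.1 h (mem_univ _)
  have h2 : DifferentiableAt ℝ (fun v => g (R.tr x v)) ζ := h1.differentiableAt (by simp)
  have h3 : R.gD g (R.tr x ζ) = ((fderiv ℝ (fun v => g (R.tr x v)) ζ 1 : ℂ)
      + I * (fderiv ℝ (fun v => g (R.tr x v)) ζ I : ℂ)) / 2 := by
    have h4 : R.gD g (R.tr x ζ) = pwb 1 (fun v' => (g (R.tr x v') : ℂ)) ζ :=
      R.dwb_tr (fun y => (g y : ℂ)) 1 h
    rw [h4, pwb, fderiv_ofReal' h2, fderiv_ofReal' h2, smul_eq_mul, mul_one]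
  rw [h3, norm_div]
  have h5 := greenC_opNorm (fderiv ℝ (fun v => g (R.tr x v)) ζ)
  have h6 : ‖(2 : ℂ)‖ = 2 := by simp
  rw [h6]
  linarith

theorem greenC_lint {g : R.carrier → ℝ} (hg : R.RT g) {x : R.carrier} {ρ : ℝ}
    (hρ : ρ < R.rad x) :
    ∫⁻ ζ in ball (0 : ℂ) ρ, ‖fderiv ℝ (fun v => g (R.tr x v)) ζ‖ₑ ^ 2 ≤
      4 * ENNReal.ofReal (R.gE g) := by
  have hcont : ContinuousOn (fun ζ => 4 * ‖R.gD g (R.tr x ζ)‖ ^ 2) (closedBall 0 ρ) := by
    intro ζ hζ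
    rw [mem_closedBall_zero_iff] at hζ
    have h3 := R.green_continuousAt_tr (hζ.trans_lt hρ)
    have hc : Continuous fun y => 4 * ‖R.gD g y‖ ^ 2 :=
      continuous_const.mul ((RT.gD_continuous hg).norm.pow 2)
    exact (ContinuousAt.comp (g := fun y => 4 * ‖R.gD g y‖ ^ 2) hc.continuousAt h3).continuousWithinAt
  have hint : IntegrableOn (fun ζ => 4 * ‖R.gD g (R.tr x ζ)‖ ^ 2) (ball (0 : ℂ) ρ) :=
    (hcont.integrableOn_compact (isCompact_closedBall _ _)).mono_set ball_subset_closedBall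
  calc ∫⁻ ζ in ball (0 : ℂ) ρ, ‖fderiv ℝ (fun v => g (R.tr x v)) ζ‖ₑ ^ 2
      ≤ ∫⁻ ζ in ball (0 : ℂ) ρ, ENNReal.ofReal (4 * ‖R.gD g (R.tr x ζ)‖ ^ 2) := by
        apply setLIntegral_mono' measurableSet_ball
        intro ζ hζ
        rw [mem_ball_zero_iff] at hζ
        have h1 := greenC_fderiv_le hg (hζ.trans hρ)
        rw [← ofReal_norm, ← ENNReal.ofReal_pow (norm_nonneg _)]
        apply ENNReal.ofReal_le_ofReal
        have h2 : ‖fderiv ℝ (fun v => g (R.tr x v)) ζ‖ ^ 2 ≤ (2 * ‖R.gD g (R.tr x ζ)‖) ^ 2 :=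
          pow_le_pow_left₀ (norm_nonneg _) h1 2
        linarith
    _ = ENNReal.ofReal (∫ ζ in ball (0 : ℂ) ρ, 4 * ‖R.gD g (R.tr x ζ)‖ ^ 2) := by
        rw [ofReal_integral_eq_lintegral_ofReal hint (.of_forall fun ζ => by positivity)]
    _ ≤ ENNReal.ofReal (4 * R.gE g) := by
        apply ENNReal.ofReal_le_ofReal
        rw [integral_const_mul]
        have := R.greenC_disc hρ hg
        linarith
    _ = 4 * ENNReal.ofReal (R.gE g) := by
        rw [ENNReal.ofReal_mul (by norm_num)]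
        norm_num

theorem greenC_lint_Sq {g : R.carrier → ℝ} (hg : R.RT g) {x : R.carrier} {s : ℝ} (hs : 0 < s)
    (hρ : 4 * s ≤ R.rad x) :
    ∫⁻ ζ in Sq (2 * s), ‖fderiv ℝ (fun v => g (R.tr x v)) ζ‖ₑ ^ 2 ≤
      4 * ENNReal.ofReal (R.gE g) := by
  refine le_trans (lintegral_mono_set ?_) (greenC_lint hg (ρ := 3 * s) (by linarith))
  intro ζ hζ
  rw [mem_ball_zero_iff]
  exact greenC_norm_lt hs hζ

theorem greenC_contDiff {g : R.carrier → ℝ} (hg : R.RT g) {x : R.carrier} {s : ℝ} (hs : 0 < s)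
    (hρ : 4 * s ≤ R.rad x) :
    ∀ ζ ∈ Sq (2 * s), ContDiffAt ℝ 1 (fun v => g (R.tr x v)) ζ := by
  intro ζ hζ
  have h1 := greenC_norm_lt hs hζ
  have h2 : ContDiffAt ℝ ∞ (fun v => g (R.tr x v)) ζ :=
    Smooth.contDiffAt_tr R hg.1 (by linarith) (mem_univ _)
  exact h2.of_le (by norm_cast)

theorem greenC_shift {F : ℂ → ℝ≥0∞} {v : ℂ} {s : ℝ} (hv : ‖v‖ ≤ s) :
    ∫⁻ ζ in ball (0 : ℂ) s, F (v + ζ) ≤ ∫⁻ ζ in Sq (2 * s), F ζ := by
  have h1 : ∫⁻ ζ in ball (0 : ℂ) s, F (v + ζ) = ∫⁻ ζ in ball v s, F ζ := by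
    rw [← lintegral_indicator measurableSet_ball, ← lintegral_indicator measurableSet_ball,
      ← lintegral_add_left_eq_self (fun ζ => (ball v s).indicator F ζ) v]
    congr 1
    funext ζ
    by_cases hζ : ζ ∈ ball (0 : ℂ) s
    · rw [indicator_of_mem hζ, indicator_of_mem]
      rw [mem_ball, dist_eq_norm, add_sub_cancel_left]
      exact mem_ball_zero_iff.mp hζ
    · rw [indicator_of_notMem hζ, indicator_of_notMem]
      rw [mem_ball, dist_eq_norm, add_sub_cancel_left]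
      exact fun h => hζ (mem_ball_zero_iff.mpr h)
  rw [h1]
  apply lintegral_mono_set
  intro ζ hζ
  apply greenC_mem_Sq
  rw [mem_ball, dist_eq_norm] at hζ
  have : ‖ζ‖ ≤ ‖ζ - v‖ + ‖v‖ := by
    have := norm_add_le (ζ - v) v
    rwa [sub_add_cancel] at this
  linarith

variable (R)

/-- the average and the energy control the L² norm on a disc around any reachable point -/
theorem greenC_control {y₀ x : R.carrier} {r : ℝ} (hr : 0 < r) (hr1 : 4 * r ≤ R.rad y₀)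
    (hx : R.Reach y₀ x) :
    ∃ ρ > 0, ρ < R.rad x ∧ ∃ C : ℝ, 0 ≤ C ∧ ∀ g : R.carrier → ℝ, R.RT g →
      ∫ ζ in ball (0 : ℂ) ρ, (g (R.tr x ζ)) ^ 2 ≤ C * ((R.gell y₀ r g) ^ 2 + R.gE g) := by
  obtain ⟨c, hc, hchain⟩ := R.reach_small hx
  set c' := min c r with hc'
  have hc'0 : 0 < c' := lt_min hc hr
  have hc'r : c' ≤ r := min_le_right _ _
  have hch := hchain c' hc'0 (min_le_left _ _)
  -- bounds for `Q`
  have hQ1 : ∀ g : R.carrier → ℝ, ‖R.gell y₀ r g‖ₑ ^ 2 ≤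
      ENNReal.ofReal ((R.gell y₀ r g) ^ 2 + R.gE g) := by
    intro g
    rw [Real.enorm_eq_ofReal_abs, ← ENNReal.ofReal_pow (abs_nonneg _), sq_abs]
    apply ENNReal.ofReal_le_ofReal
    have := R.gE_nonneg g
    linarith
  have hQ2 : ∀ g : R.carrier → ℝ, ENNReal.ofReal (R.gE g) ≤
      ENNReal.ofReal ((R.gell y₀ r g) ^ 2 + R.gE g) := by
    intro g
    apply ENNReal.ofReal_le_ofReal
    have := sq_nonneg (R.gell y₀ r g)
    linarith
  clear hx hchain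
  have key : 4 * c' ≤ R.rad x ∧ ∃ C : ℝ≥0∞, C ≠ ⊤ ∧ ∀ g : R.carrier → ℝ, R.RT g →
      ∫⁻ ζ in ball (0 : ℂ) c', ‖g (R.tr x ζ)‖ₑ ^ 2 ≤
        C * ENNReal.ofReal ((R.gell y₀ r g) ^ 2 + R.gE g) := by
    induction hch with
    | refl =>
      refine ⟨by linarith, ?_⟩
      obtain ⟨C, hC, h⟩ := greenP_base hr (show r < 2 * r by linarith)
      refine ⟨C * 5, ENNReal.mul_ne_top hC (by norm_num), fun g hg => ?_⟩
      have h1 := h (fun v => g (R.tr y₀ v)) (greenC_contDiff hg hr hr1)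
      have h2 : ∫⁻ ζ in ball (0 : ℂ) c', ‖g (R.tr y₀ ζ)‖ₑ ^ 2 ≤
          ∫⁻ ζ in Sq (2 * r), ‖g (R.tr y₀ ζ)‖ₑ ^ 2 := by
        apply lintegral_mono_set
        intro ζ hζ
        rw [mem_ball_zero_iff] at hζ
        apply greenC_mem_Sq
        linarith
      refine h2.trans (h1.trans ?_)
      rw [mul_assoc]
      gcongr
      calc ‖∫ ζ : ℂ, chi ζ * g (R.tr y₀ ((r : ℂ) * ζ))‖ₑ ^ 2 +
            ∫⁻ p in Sq (2 * r), ‖fderiv ℝ (fun v => g (R.tr y₀ v)) p‖ₑ ^ 2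
          ≤ ENNReal.ofReal ((R.gell y₀ r g) ^ 2 + R.gE g) +
            4 * ENNReal.ofReal ((R.gell y₀ r g) ^ 2 + R.gE g) := by
            refine add_le_add (hQ1 g) ((greenC_lint_Sq hg hr hr1).trans ?_)
            gcongr
            have := sq_nonneg (R.gell y₀ r g)
            linarith
        _ = 5 * ENNReal.ofReal ((R.gell y₀ r g) ^ 2 + R.gE g) := by ring
    | @tail y z hyz hstep ih =>
      obtain ⟨h1, h2, v, hv, rfl⟩ := hstep
      obtain ⟨-, C, hC, hCg⟩ := ih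
      refine ⟨h2, ?_⟩
      obtain ⟨C', hC', h⟩ := greenP_spread hc'0
      have hvol : (volume (ball (0 : ℂ) c')) ≠ ⊤ := measure_ball_lt_top.ne
      refine ⟨C' * (C + 4 * volume (ball (0 : ℂ) c')), ENNReal.mul_ne_top hC'
        (ENNReal.add_ne_top.mpr ⟨hC, ENNReal.mul_ne_top (by norm_num) hvol⟩), fun g hg => ?_⟩
      have h3 := h (fun v => g (R.tr y v)) (greenC_contDiff hg hc'0 h1)
      have hrv := R.rad_tr y v (by linarith)
      have h4 : ∫⁻ ζ in ball (0 : ℂ) c', ‖g (R.tr (R.tr y v) ζ)‖ₑ ^ 2 =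
          ∫⁻ ζ in ball (0 : ℂ) c', ‖g (R.tr y (v + ζ))‖ₑ ^ 2 := by
        apply setLIntegral_congr_fun measurableSet_ball
        intro ζ hζ
        rw [mem_ball_zero_iff] at hζ
        have hn := norm_add_le v ζ
        show ‖g (R.tr (R.tr y v) ζ)‖ₑ ^ 2 = _
        rw [R.tr_tr y v ζ (by linarith) (by linarith) (by linarith)]
      rw [h4]
      refine (greenC_shift (F := fun ζ => ‖g (R.tr y ζ)‖ₑ ^ 2) hv).trans (h3.trans ?_)
      rw [mul_assoc]
      gcongr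
      rw [add_mul, lintegral_add_right _ measurable_const, lintegral_const,
        Measure.restrict_apply_univ]
      refine add_le_add (hCg g hg) ?_
      calc (∫⁻ p in Sq (2 * c'), ‖fderiv ℝ (fun v => g (R.tr y v)) p‖ₑ ^ 2) *
            volume (ball (0 : ℂ) c')
          ≤ (4 * ENNReal.ofReal ((R.gell y₀ r g) ^ 2 + R.gE g)) * volume (ball (0 : ℂ) c') := by
            gcongr
            refine (greenC_lint_Sq hg hc'0 h1).trans ?_
            gcongr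
            have := sq_nonneg (R.gell y₀ r g)
            linarith
        _ = 4 * volume (ball (0 : ℂ) c') * ENNReal.ofReal ((R.gell y₀ r g) ^ 2 + R.gE g) := by
            ring
  obtain ⟨h4, C, hC, hCg⟩ := key
  have hlt : c' < R.rad x := by linarith
  refine ⟨c', hc'0, hlt, C.toReal, ENNReal.toReal_nonneg, fun g hg => ?_⟩
  have hcont : ContinuousOn (fun ζ => (g (R.tr x ζ)) ^ 2) (ball 0 c') := by
    intro ζ hζ
    rw [mem_ball_zero_iff] at hζ
    have h3 := R.green_continuousAt_tr (hζ.trans hlt)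
    have hc : Continuous fun y => (g y) ^ 2 := (RT.continuous hg).pow 2
    exact (ContinuousAt.comp (g := fun y => (g y) ^ 2) hc.continuousAt h3).continuousWithinAt
  rw [integral_eq_lintegral_of_nonneg_ae (.of_forall fun ζ => sq_nonneg _)
    (hcont.aestronglyMeasurable measurableSet_ball)]
  have h5 : ∫⁻ ζ in ball (0 : ℂ) c', ENNReal.ofReal ((g (R.tr x ζ)) ^ 2) ≤
      C * ENNReal.ofReal ((R.gell y₀ r g) ^ 2 + R.gE g) := by
    refine le_trans (le_of_eq ?_) (hCg g hg)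
    congr 1
    funext ζ
    rw [Real.enorm_eq_ofReal_abs, ← ENNReal.ofReal_pow (abs_nonneg _), sq_abs]
  have h6 := ENNReal.toReal_mono (ENNReal.mul_ne_top hC ENNReal.ofReal_ne_top) h5
  rw [ENNReal.toReal_mul, ENNReal.toReal_ofReal (add_nonneg (sq_nonneg _) (R.gE_nonneg g))] at h6
  exact h6

end RD

end Pool.Agent.ParLeaf
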