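import Pool.Agent.H.MP_3a36cd_an.GreenA

/-! MP_3a36cd_an, module GreenV: the minimising sequence. -/

open Set Metric Filter Topology Complex MeasureTheory Real
open scoped ContDiff

namespace Pool.Agent.ParLeaf

namespace RD

variable {R : RD ℂ}

/-- the complex function attached to a real function -/
noncomputable def gC (g : R.carrier → ℝ) : R.carrier → ℂ := fun y => (g y : ℂ)

theorem RT.testC {g : R.carrier → ℝ} (h : R.RT g) : R.Test (gC g) := h.test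

theorem greenV_conj (g : R.carrier → ℝ) (y : R.carrier) :
    (starRingEnd ℂ) (R.dzb (gC g) y) = R.dz (gC g) y := by
  have := R.dw_conj (gC g) 1 y
  have h2 : (fun x => (starRingEnd ℂ) (gC g x)) = gC g := by
    funext x; simp [gC]
  rw [h2] at this
  exact this.symm

/-- the Dirichlet form of two real test functions is real -/
theorem greenV_real {g h : R.carrier → ℝ} (hg : R.RT g) (hh : R.RT h) :
    R.sint (fun y => R.dz (gC g) y * R.dzb (gC h) y) =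
      ((-R.sint (fun y => g y * R.levi 1 h y) : ℝ) : ℂ) := by
  have hG := hg.testC
  have hH := hh.testC
  have hF : R.Test (fun y => gC g y * R.dzb (gC h) y) := nc_test_mul hG (nc_test_dwb hH)
  have h0 := R.sint_dz hF
  have h1 : R.dz (fun y => gC g y * R.dzb (gC h) y) =
      fun y => R.dz (gC g) y * R.dzb (gC h) y + gC g y * R.dw 1 (R.dwb 1 (gC h)) y := by
    funext y
    exact R.dw_mul (fun e _ => hG.1 e (mem_univ _))
      (fun e _ => (nc_test_dwb hH).1 e (mem_univ _)) 1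
  have hA : R.Test (fun y => R.dz (gC g) y * R.dzb (gC h) y) :=
    nc_test_mul (nc_test_dw hG) (nc_test_dwb hH)
  have hB : R.Test (fun y => gC g y * R.dw 1 (R.dwb 1 (gC h)) y) :=
    nc_test_mul hG (nc_test_dw (nc_test_dwb hH))
  rw [h1, nc_sint_add hA hB] at h0
  have h2 : (fun y => gC g y * R.dw 1 (R.dwb 1 (gC h)) y) =
      fun y => ((g y * R.levi 1 h y : ℝ) : ℂ) := by
    funext y
    have := R.levi_ofReal isOpen_univ hh.1 (mem_univ y) 1
    show (g y : ℂ) * R.dw 1 (R.dwb 1 (fun x => (h x : ℂ))) y = _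
    rw [this]; push_cast; rfl
  rw [h2, nc_sint_ofReal] at h0
  rw [eq_neg_of_add_eq_zero_left h0]
  push_cast; rfl

/-- the real Dirichlet form -/
noncomputable def gI (R : RD ℂ) (g h : R.carrier → ℝ) : ℝ :=
  (R.sint (fun y => (starRingEnd ℂ) (R.dzb (gC h) y) * R.dzb (gC g) y)).re

theorem greenV_gE (g : R.carrier → ℝ) : R.gE g = R.En 0 (gC g) := (R.En_ofReal g).symm

theorem greenV_gE_sub {g h : R.carrier → ℝ} (hg : R.RT g) (hh : R.RT h) :
    R.gE (fun y => g y - h y) = R.gE g - 2 * R.gI g h + R.gE h := by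
  rw [greenV_gE, greenV_gE, greenV_gE]
  have := R.nc_En_sub hg.testC hh.testC
  have h1 : gC (fun y => g y - h y) = fun y => gC g y - gC h y := by
    funext y; simp [gC]
  rw [h1, this]; rfl

theorem greenV_gE_smul {g : R.carrier → ℝ} (hg : R.RT g) (c : ℝ) :
    R.gE (fun y => c * g y) = c ^ 2 * R.gE g := by
  rw [greenV_gE, greenV_gE]
  have := R.nc_En_smul (c : ℂ) hg.testC
  have h1 : gC (fun y => c * g y) = fun y => (c : ℂ) * gC g y := by
    funext y; simp [gC]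
  rw [h1, this]; simp

theorem greenV_gI_smul (g : R.carrier → ℝ) {h : R.carrier → ℝ} (hh : R.RT h) (c : ℝ) :
    R.gI g (fun y => c * h y) = c * R.gI g h := by
  unfold gI
  have h1 : gC (fun y => c * h y) = fun y => (c : ℂ) * gC h y := by
    funext y; simp [gC]
  have h2 : (fun y => (starRingEnd ℂ) (R.dzb (gC (fun y => c * h y)) y) * R.dzb (gC g) y) =
      fun y => (c : ℂ) * ((starRingEnd ℂ) (R.dzb (gC h) y) * R.dzb (gC g) y) := by
    funext y
    rw [h1]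
    unfold dzb
    rw [R.nc_dwb_smul (c : ℂ) hh.testC, map_mul, Complex.conj_ofReal]
    ring
  rw [h2, R.nc_sint_smul]
  simp

theorem greenV_gE_add_smul {g h : R.carrier → ℝ} (hg : R.RT g) (hh : R.RT h) (t : ℝ) :
    R.gE (fun y => g y + t * h y) = R.gE g + 2 * t * R.gI g h + t ^ 2 * R.gE h := by
  have h1 : (fun y => g y + t * h y) = fun y => g y - (-t) * h y := by
    funext y; ring
  rw [h1, greenV_gE_sub hg (hh.const_mul (-t)), greenV_gI_smul g hh, greenV_gE_smul hh]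
  ring

variable (y₀ : R.carrier)

theorem greenV_gell_smul (s : ℝ) (c : ℝ) (g : R.carrier → ℝ) :
    R.gell y₀ s (fun y => c * g y) = c * R.gell y₀ s g := by
  unfold gell
  rw [← integral_const_mul]
  congr 1; funext ζ; ring

theorem greenV_gell_sub {s : ℝ} (hs : 0 < s) (hs1 : s < R.rad y₀) {f g : R.carrier → ℝ}
    (hf : R.RT f) (hg : R.RT g) :
    R.gell y₀ s (fun y => f y - g y) = R.gell y₀ s f - R.gell y₀ s g := by
  have h := R.nc_ell_sub y₀ hs hs1 hf.testC hg.testC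
  have h1 : (fun y => gC f y - gC g y) = fun y => (((f y - g y : ℝ)) : ℂ) := by
    funext y; simp [gC]
  rw [h1, ell_ofReal] at h
  have h2 : R.ell y₀ s (gC f) = ((R.gell y₀ s f : ℝ) : ℂ) := R.ell_ofReal y₀ s f
  have h3 : R.ell y₀ s (gC g) = ((R.gell y₀ s g : ℝ) : ℂ) := R.ell_ofReal y₀ s g
  rw [h2, h3] at h
  exact_mod_cast h

theorem greenV_gell_add_smul {s : ℝ} (hs : 0 < s) (hs1 : s < R.rad y₀) {f g : R.carrier → ℝ}
    (hf : R.RT f) (hg : R.RT g) (t : ℝ) :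
    R.gell y₀ s (fun y => f y + t * g y) = R.gell y₀ s f + t * R.gell y₀ s g := by
  have h1 : (fun y => f y + t * g y) = fun y => f y - (-t) * g y := by
    funext y; ring
  rw [h1, greenV_gell_sub y₀ hs hs1 hf (hg.const_mul (-t)), greenV_gell_smul]
  ring

/-! ### Truncation -/

/-- smooth approximation of the absolute value -/
noncomputable def gT (ε s : ℝ) : ℝ := √(s ^ 2 + ε ^ 2) - ε

theorem gT_contDiff {ε : ℝ} (hε : 0 < ε) : ContDiff ℝ ∞ (gT ε) := by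
  unfold gT
  refine ContDiff.sub (ContDiff.sqrt (by fun_prop) fun x => ?_) contDiff_const
  positivity

theorem gT_zero {ε : ℝ} (hε : 0 < ε) : gT ε 0 = 0 := by
  unfold gT
  rw [zero_pow two_ne_zero, zero_add, Real.sqrt_sq hε.le, sub_self]

theorem gT_nonneg {ε : ℝ} (hε : 0 < ε) (s : ℝ) : 0 ≤ gT ε s := by
  unfold gT
  have : ε ≤ √(s ^ 2 + ε ^ 2) := Real.le_sqrt_of_sq_le (by nlinarith [sq_nonneg s])
  linarith

theorem gT_ge {ε : ℝ} (hε : 0 < ε) (s : ℝ) : s - ε ≤ gT ε s := by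
  unfold gT
  have : s ≤ √(s ^ 2 + ε ^ 2) := Real.le_sqrt_of_sq_le (by nlinarith [sq_nonneg ε])
  linarith

theorem gT_deriv {ε : ℝ} (hε : 0 < ε) (s : ℝ) : |deriv (gT ε) s| ≤ 1 := by
  have h0 : 0 < s ^ 2 + ε ^ 2 := by positivity
  have h1 : HasDerivAt (gT ε) ((2 * s ^ (2 - 1) * 1) / (2 * √(s ^ 2 + ε ^ 2))) s := by
    have h2 : HasDerivAt (fun s : ℝ => s ^ 2 + ε ^ 2) (2 * s ^ (2 - 1) * 1) s := by
      have := ((hasDerivAt_id s).pow 2).add_const (ε ^ 2)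
      simpa using this
    have h3 := (h2.sqrt h0.ne').sub_const ε
    exact h3
  rw [h1.deriv]
  have h4 : 0 < √(s ^ 2 + ε ^ 2) := Real.sqrt_pos.2 h0
  have h5 : |s| ≤ √(s ^ 2 + ε ^ 2) := by
    apply Real.le_sqrt_of_sq_le
    rw [sq_abs]; nlinarith [sq_nonneg ε]
  have h6 : 2 * s ^ (2 - 1) * 1 / (2 * √(s ^ 2 + ε ^ 2)) = s / √(s ^ 2 + ε ^ 2) := by
    norm_num
    field_simp
  rw [h6, abs_div, abs_of_pos h4, div_le_one h4]
  exact h5

theorem greenV_trunc {g : R.carrier → ℝ} (hg : R.RT g) {ε : ℝ} (hε : 0 < ε) :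
    R.gE (fun y => gT ε (g y)) ≤ R.gE g := by
  have hTg : R.RT (fun y => gT ε (g y)) := hg.comp (gT_contDiff hε) (gT_zero hε)
  have hcomp : ∀ {f : R.carrier → ℝ}, R.RT f →
      Continuous (fun y => ‖R.gD f y‖ ^ 2) ∧ HasCompactSupport (fun y => ‖R.gD f y‖ ^ 2) := by
    intro f hf
    refine ⟨hf.gD_continuous.norm.pow 2, ?_⟩
    exact hf.gD_compact.comp_left (g := fun z : ℂ => ‖z‖ ^ 2) (by simp)
  refine R.sint_mono (hcomp hTg).1 (hcomp hTg).2 (hcomp hg).1 (hcomp hg).2 fun y => ?_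
  rw [gD_comp hg.1 (gT_contDiff hε), norm_mul, Complex.norm_real, Real.norm_eq_abs]
  have h1 := gT_deriv hε (g y)
  have h2 : |deriv (gT ε) (g y)| * ‖R.gD g y‖ ≤ ‖R.gD g y‖ :=
    mul_le_of_le_one_left (norm_nonneg _) h1
  exact pow_le_pow_left₀ (by positivity) h2 2

theorem greenV_integrable {s : ℝ} (hs : 0 < s) (hs1 : s < R.rad y₀) {g : R.carrier → ℝ}
    (hg : Continuous g) : Integrable (fun ζ : ℂ => chi ζ * g (R.tr y₀ ((s : ℂ) * ζ))) := by
  have h1 : IntegrableOn (fun ζ : ℂ => chi ζ * g (R.tr y₀ ((s : ℂ) * ζ))) (closedBall 0 1) := by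
    apply ContinuousOn.integrableOn_compact (isCompact_closedBall _ _)
    intro ζ hζ
    have hζ' : ‖ζ‖ ≤ 1 := by simpa using hζ
    have h2 : ‖(s : ℂ) * ζ‖ < R.rad y₀ := by
      rw [norm_mul, Complex.norm_real, Real.norm_eq_abs, abs_of_pos hs]
      nlinarith
    have h3 : ContinuousAt (fun ζ : ℂ => R.tr y₀ ((s : ℂ) * ζ)) ζ :=
      ContinuousAt.comp (f := fun ζ : ℂ => (s : ℂ) * ζ) (R.green_continuousAt_tr h2)
        (by fun_prop)
    exact ((contDiff_chi.continuous.continuousAt).mul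
      (hg.continuousAt.comp h3)).continuousWithinAt
  refine h1.integrable_of_forall_notMem_eq_zero fun ζ hζ => ?_
  have hζ' : 1 < ‖ζ‖ := by simpa using hζ
  rw [chi_eq_zero (Or.inr (by nlinarith)), zero_mul]

theorem greenV_integrable_chi : Integrable chi := by
  by_contra h
  have := integral_undef h
  rw [integral_chi] at this
  exact one_ne_zero this

theorem greenV_gell_trunc {s : ℝ} (hs : 0 < s) (hs1 : s < R.rad y₀) {g : R.carrier → ℝ}
    (hg : R.RT g) {ε : ℝ} (hε : 0 < ε) :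
    R.gell y₀ s g - ε ≤ R.gell y₀ s (fun y => gT ε (g y)) := by
  have hTg : R.RT (fun y => gT ε (g y)) := hg.comp (gT_contDiff hε) (gT_zero hε)
  have h1 := greenV_integrable y₀ hs hs1 hg.continuous
  have h2 := greenV_integrable y₀ hs hs1 hTg.continuous
  have h3 : ∫ ζ : ℂ, chi ζ * ε = ε := by
    rw [integral_mul_const, integral_chi, one_mul]
  have h4 : R.gell y₀ s g - ε = ∫ ζ : ℂ, (chi ζ * g (R.tr y₀ ((s : ℂ) * ζ)) - chi ζ * ε) := by
    rw [integral_sub h1 (greenV_integrable_chi.mul_const ε), h3]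
    rfl
  rw [h4]
  refine integral_mono (h1.sub (greenV_integrable_chi.mul_const ε)) h2 fun ζ => ?_
  show chi ζ * g (R.tr y₀ ((s : ℂ) * ζ)) - chi ζ * ε ≤ chi ζ * gT ε (g (R.tr y₀ ((s : ℂ) * ζ)))
  have := gT_ge hε (g (R.tr y₀ ((s : ℂ) * ζ)))
  nlinarith [chi_nonneg ζ]

/-! ### Bounds -/

theorem greenV_bound {r : ℝ} (hN : BddAbove (R.NSet univ 0 y₀ r)) :
    ∃ B : ℝ, 0 ≤ B ∧ (∀ g, R.RT g → -B ≤ R.gE g - 2 * R.gell y₀ r g) ∧
      ∀ g, R.RT g → (R.gell y₀ r g) ^ 2 ≤ B * R.gE g := by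
  obtain ⟨B, hB⟩ := hN
  have h1 := (R.nc_legendre y₀ (s := r) (B := B)).1 fun t ht => hB ht
  have h2 : ∀ g, R.RT g → -B ≤ R.gE g - 2 * R.gell y₀ r g := by
    intro g hg
    have h3 := h1 _ hg.testC
    have h4 : R.ell y₀ r (gC g) = ((R.gell y₀ r g : ℝ) : ℂ) := R.ell_ofReal y₀ r g
    rw [h4, Complex.ofReal_re, ← greenV_gE] at h3
    linarith
  have h3 : ∀ g, R.RT g → (R.gell y₀ r g) ^ 2 ≤ B * R.gE g := by
    intro g hg
    have h4 : ∀ t : ℝ, 0 ≤ R.gE g * (t * t) + (-2 * R.gell y₀ r g) * t + B := by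
      intro t
      have := h2 _ (hg.const_mul t)
      rw [greenV_gE_smul hg, greenV_gell_smul] at this
      nlinarith
    have h5 := discrim_le_zero h4
    unfold discrim at h5
    nlinarith
  refine ⟨max B 0, le_max_right _ _, fun g hg => ?_, fun g hg => ?_⟩
  · have := h2 g hg
    have := le_max_left B 0
    linarith
  · exact (h3 g hg).trans (mul_le_mul_of_nonneg_right (le_max_left _ _) (R.gE_nonneg g))

theorem RT.zero : R.RT (fun _ => 0) :=
  ⟨fun _ _ => contDiffAt_const, HasCompactSupport.zero⟩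

/-- first form: minimising sequence -/
theorem greenV_seq {r : ℝ} (hr : 0 < r) (hr1 : r < R.rad y₀)
    (hN : BddAbove (R.NSet univ 0 y₀ r)) :
    ∃ m : ℝ, (∀ g, R.RT g → m ≤ R.gE g - 2 * R.gell y₀ r g) ∧
      ∀ n : ℕ, ∃ g, R.RT g ∧ (∀ y, 0 ≤ g y) ∧
        R.gE g - 2 * R.gell y₀ r g ≤ m + 3 / ((n : ℝ) + 1) := by
  obtain ⟨B, -, hB, -⟩ := greenV_bound y₀ hN
  set S : Set ℝ := {t | ∃ g, R.RT g ∧ t = R.gE g - 2 * R.gell y₀ r g} with hS
  have hne : S.Nonempty := ⟨_, _, RT.zero, rfl⟩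
  have hbd : BddBelow S := ⟨-B, by rintro t ⟨g, hg, rfl⟩; exact hB g hg⟩
  refine ⟨sInf S, fun g hg => csInf_le hbd ⟨g, hg, rfl⟩, fun n => ?_⟩
  have hε : 0 < 1 / ((n : ℝ) + 1) := by positivity
  obtain ⟨t, ⟨g, hg, rfl⟩, ht⟩ := Real.lt_sInf_add_pos hne hε
  refine ⟨fun y => gT (1 / ((n : ℝ) + 1)) (g y), hg.comp (gT_contDiff hε) (gT_zero hε),
    fun y => gT_nonneg hε _, ?_⟩
  have h1 := greenV_trunc hg hε
  have h2 := greenV_gell_trunc y₀ hr hr1 hg hε
  have h3 : (3 : ℝ) / ((n : ℝ) + 1) = 3 * (1 / ((n : ℝ) + 1)) := by ring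
  rw [h3]
  linarith

/-- Euler-Lagrange inequality -/
theorem greenV_el {r : ℝ} (hr : 0 < r) (hr1 : r < R.rad y₀) {m δ : ℝ}
    (hm : ∀ g, R.RT g → m ≤ R.gE g - 2 * R.gell y₀ r g) {g h : R.carrier → ℝ} (hg : R.RT g)
    (hg1 : R.gE g - 2 * R.gell y₀ r g ≤ m + δ) (hh : R.RT h) :
    (R.gI g h - R.gell y₀ r h) ^ 2 ≤ δ * R.gE h := by
  have h4 : ∀ t : ℝ, 0 ≤ R.gE h * (t * t) + (2 * (R.gI g h - R.gell y₀ r h)) * t + δ := by
    intro t
    have h5 := hm _ (hg.add (hh.const_mul t))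
    rw [greenV_gE_add_smul hg hh, greenV_gell_add_smul y₀ hr hr1 hg hh] at h5
    nlinarith
  have h5 := discrim_le_zero h4
  unfold discrim at h5
  nlinarith

/-- differences of almost minimisers have small energy -/
theorem greenV_cauchy {r : ℝ} (hr : 0 < r) (hr1 : r < R.rad y₀) {m δ δ' : ℝ}
    (hm : ∀ g, R.RT g → m ≤ R.gE g - 2 * R.gell y₀ r g) {g h : R.carrier → ℝ} (hg : R.RT g)
    (hg1 : R.gE g - 2 * R.gell y₀ r g ≤ m + δ) (hh : R.RT h)
    (hh1 : R.gE h - 2 * R.gell y₀ r h ≤ m + δ') :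
    R.gE (fun y => g y - h y) ≤ 2 * (δ + δ') := by
  have h1 := hm _ ((hg.add (hh.const_mul 1)).const_mul (1 / 2))
  rw [greenV_gE_smul (hg.add (hh.const_mul 1)), greenV_gE_add_smul hg hh, greenV_gell_smul,
    greenV_gell_add_smul y₀ hr hr1 hg hh] at h1
  rw [greenV_gE_sub hg hh]
  nlinarith

/-! ### The weak equation -/

theorem greenV_sint_real {g h : R.carrier → ℝ} (hg : R.RT g) (hh : R.RT h) :
    R.sint (fun y => R.dz (gC g) y * R.dzb (gC h) y) = ((R.gI g h : ℝ) : ℂ) := by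
  have h1 := greenV_real hg hh
  have h2 := R.nc_sint_conj (fun y => (starRingEnd ℂ) (R.dzb (gC h) y) * R.dzb (gC g) y)
  have h3 : (fun y => (starRingEnd ℂ) ((starRingEnd ℂ) (R.dzb (gC h) y) * R.dzb (gC g) y)) =
      fun y => R.dz (gC g) y * R.dzb (gC h) y := by
    funext y
    rw [map_mul, Complex.conj_conj, greenV_conj, mul_comm]
  rw [h3] at h2
  have h4 : (R.sint (fun y => R.dz (gC g) y * R.dzb (gC h) y)).re = R.gI g h := by
    rw [h2, Complex.conj_re]; rfl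
  rw [h1, Complex.ofReal_re] at h4
  rw [h1, h4]

theorem greenV_split {h : R.carrier → ℂ} (hh : R.Test h) :
    ∃ h₁ h₂ : R.carrier → ℝ, R.RT h₁ ∧ R.RT h₂ ∧ h = fun y => gC h₁ y - (-I) * gC h₂ y := by
  refine ⟨fun y => (h y).re, fun y => (h y).im, ⟨fun e he => ?_, ?_⟩, ⟨fun e he => ?_, ?_⟩, ?_⟩
  · exact (Complex.reCLM.contDiff.contDiffAt).comp (0 : ℂ) (hh.1 e he)
  · exact hh.2.comp_left (g := Complex.re) Complex.zero_re
  · exact (Complex.imCLM.contDiff.contDiffAt).comp (0 : ℂ) (hh.1 e he)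
  · exact hh.2.comp_left (g := Complex.im) Complex.zero_im
  · funext y
    simp only [gC]
    rw [neg_mul, sub_neg_eq_add, mul_comm]
    exact (Complex.re_add_im (h y)).symm

theorem greenV_form_split {g h₁ h₂ : R.carrier → ℝ} (hg : R.RT g) (h1 : R.RT h₁)
    (h2 : R.RT h₂) :
    R.sint (fun y => R.dz (gC g) y * R.dzb (fun y => gC h₁ y - (-I) * gC h₂ y) y) =
      ((R.gI g h₁ : ℝ) : ℂ) - (-I) * ((R.gI g h₂ : ℝ) : ℂ) := by
  have h3 : (fun y => R.dz (gC g) y * R.dzb (fun y => gC h₁ y - (-I) * gC h₂ y) y) =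
      fun y => R.dz (gC g) y * R.dzb (gC h₁) y - (-I) * (R.dz (gC g) y * R.dzb (gC h₂) y) := by
    funext y
    have h4 : R.dzb (fun y => gC h₁ y - (-I) * gC h₂ y) y =
        R.dzb (gC h₁) y - (-I) * R.dzb (gC h₂) y := by
      unfold dzb
      rw [nc_dwb_sub h1.testC (nc_test_smul (-I) h2.testC), R.nc_dwb_smul (-I) h2.testC]
    rw [h4]
    ring
  have hA : R.Test (fun y => R.dz (gC g) y * R.dzb (gC h₁) y) :=
    nc_test_mul (nc_test_dw hg.testC) (nc_test_dwb h1.testC)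
  have hB : R.Test (fun y => R.dz (gC g) y * R.dzb (gC h₂) y) :=
    nc_test_mul (nc_test_dw hg.testC) (nc_test_dwb h2.testC)
  rw [h3, nc_sint_sub hA (nc_test_smul (-I) hB), R.nc_sint_smul, greenV_sint_real hg h1,
    greenV_sint_real hg h2]

theorem greenV_ell_split {s : ℝ} (hs : 0 < s) (hs1 : s < R.rad y₀) {h₁ h₂ : R.carrier → ℝ}
    (h1 : R.RT h₁) (h2 : R.RT h₂) :
    R.ell y₀ s (fun y => gC h₁ y - (-I) * gC h₂ y) =
      ((R.gell y₀ s h₁ : ℝ) : ℂ) - (-I) * ((R.gell y₀ s h₂ : ℝ) : ℂ) := by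
  rw [R.nc_ell_sub y₀ hs hs1 h1.testC (nc_test_smul (-I) h2.testC), nc_ell_smul]
  have h3 : R.ell y₀ s (gC h₁) = ((R.gell y₀ s h₁ : ℝ) : ℂ) := R.ell_ofReal y₀ s h₁
  have h4 : R.ell y₀ s (gC h₂) = ((R.gell y₀ s h₂ : ℝ) : ℂ) := R.ell_ofReal y₀ s h₂
  rw [h3, h4]

theorem greenV_tendsto_aux (C : ℝ) : Tendsto (fun n : ℕ => 3 / ((n : ℝ) + 1) * C) atTop (𝓝 0) := by
  have h1 := (tendsto_one_div_add_atTop_nhds_zero_nat (𝕜 := ℝ)).mul_const (3 * C)
  rw [zero_mul] at h1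
  refine h1.congr fun n => ?_
  ring

/-- the minimising sequence -/
theorem greenV_min {r : ℝ} (hr : 0 < r) (hr1 : r < R.rad y₀)
    (hN : BddAbove (R.NSet univ 0 y₀ r)) :
    ∃ g : ℕ → R.carrier → ℝ, (∀ n, R.RT (g n)) ∧ (∀ n y, 0 ≤ g n y) ∧
      (∀ ε > 0, ∃ N, ∀ m ≥ N, ∀ n ≥ N, (R.gell y₀ r (fun y => g m y - g n y)) ^ 2 +
        R.gE (fun y => g m y - g n y) ≤ ε) ∧
      ∀ h : R.carrier → ℂ, R.Test h →
        Tendsto (fun n => R.sint (fun y => R.dz (gC (g n)) y * R.dzb h y)) atTop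
          (𝓝 (R.ell y₀ r h)) := by
  obtain ⟨B, hB0, -, hB⟩ := greenV_bound y₀ hN
  obtain ⟨m₀, hm, hseq⟩ := greenV_seq y₀ hr hr1 hN
  choose g hg hg0 hg1 using hseq
  refine ⟨g, hg, hg0, fun ε hε => ?_, fun h hh => ?_⟩
  · have h1 := greenV_tendsto_aux (4 * (B + 1))
    have h2 := (tendsto_order.1 h1).2 ε hε
    obtain ⟨N, hN⟩ := eventually_atTop.1 h2
    refine ⟨N, fun m hmN n hnN => ?_⟩
    have h3 := hB _ ((hg m).sub (hg n))
    have h4 := greenV_cauchy y₀ hr hr1 hm (hg m) (hg1 m) (hg n) (hg1 n)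
    have h5 : ∀ k ≥ N, 3 / ((k : ℝ) + 1) * (4 * (B + 1)) ≤ ε := fun k hk => (hN k hk).le
    have h6 := h5 m hmN
    have h7 := h5 n hnN
    have h8 := mul_le_mul_of_nonneg_left h4 (by linarith : (0 : ℝ) ≤ B + 1)
    nlinarith
  · obtain ⟨h₁, h₂, hh1, hh2, rfl⟩ := greenV_split hh
    rw [greenV_ell_split y₀ hr hr1 hh1 hh2]
    have h1 : ∀ {h : R.carrier → ℝ}, R.RT h →
        Tendsto (fun n => ((R.gI (g n) h : ℝ) : ℂ)) atTop (𝓝 ((R.gell y₀ r h : ℝ) : ℂ)) := by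
      intro h hh
      have h2 : Tendsto (fun n => R.gI (g n) h) atTop (𝓝 (R.gell y₀ r h)) := by
        rw [Metric.tendsto_atTop]
        intro ε hε
        have h3 := (tendsto_order.1 (greenV_tendsto_aux (R.gE h))).2 (ε ^ 2) (by positivity)
        obtain ⟨N, hN⟩ := eventually_atTop.1 h3
        refine ⟨N, fun n hn => ?_⟩
        rw [Real.dist_eq]
        have h4 := greenV_el y₀ hr hr1 hm (hg n) (hg1 n) hh
        exact abs_lt_of_sq_lt_sq (h4.trans_lt (hN n hn)) hε.le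
      exact (Complex.continuous_ofReal.tendsto _).comp h2
    refine ((h1 hh1).sub ((h1 hh2).const_mul (-I))).congr fun n => ?_
    exact (greenV_form_split (hg n) hh1 hh2).symm

end RD

end Pool.Agent.ParLeaf
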