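import Pool.Agent.H.MP_3a36cd_an.Surf2

/-! MP_3a36cd_an, module NormChange: dependence of `N` on the size of the bump. -/

open Set Metric Filter Topology Complex MeasureTheory Real
open scoped ContDiff

namespace Pool.Agent.ParLeaf

theorem nc_integral_radial (f : ℝ → ℝ) :
    ∫ ζ : ℂ, f (‖ζ‖ ^ 2) = π * ∫ x in Ioi (0:ℝ), f x := by
  have h1 := integral_fun_norm_addHaar (volume : Measure ℂ) (fun y => f (y ^ 2))
  rw [h1]
  have h2 : (volume : Measure ℂ).real (ball 0 1) = π := by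
    rw [Measure.real, Complex.volume_ball]
    simp
  rw [h2, Complex.finrank_real_complex]
  have h3 : ∫ y in Ioi (0:ℝ), y ^ (2 - 1) • f (y ^ 2) = (1/2) * ∫ x in Ioi (0:ℝ), f x := by
    have h4 := integral_comp_rpow_Ioi_of_pos (g := f) (p := 2) (by norm_num)
    rw [← h4, ← integral_const_mul]
    refine setIntegral_congr_fun measurableSet_Ioi (fun x hx => ?_)
    have : (0:ℝ) < x := hx
    norm_num
    ring_nf
  rw [h3]
  simp
  ring

theorem nc_bump0_nonneg (x : ℝ) : 0 ≤ bump0 x := bump0.nonneg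

theorem nc_bump0_contDiff : ContDiff ℝ ∞ (fun x : ℝ => bump0 x) := bump0.contDiff

theorem nc_bump0_zero {x : ℝ} (h : x ≤ 1 / 4 ∨ 1 ≤ x) : bump0 x = 0 := by
  apply bump0.zero_of_le_dist
  rw [Real.dist_eq]
  change (3/8 : ℝ) ≤ _
  rcases h with h | h
  · rw [abs_of_nonpos (by linarith)]; linarith
  · rw [abs_of_nonneg (by linarith)]; linarith

theorem nc_bump0_pos {x : ℝ} (h1 : 1 / 4 < x) (h2 : x < 1) : 0 < bump0 x := by
  apply bump0.pos_of_mem_ball
  rw [mem_ball, Real.dist_eq, abs_lt]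
  change -(3/8 : ℝ) < _ ∧ _ < (3/8 : ℝ)
  constructor <;> linarith

/-- unnormalised primitive of the bump in the variable `x = |ζ|²` -/
noncomputable def ncP (x : ℝ) : ℝ := ∫ t in (0:ℝ)..x, bump0 t

theorem ncP_zero {x : ℝ} (h : x ≤ 1 / 4) : ncP x = 0 := by
  unfold ncP
  rw [intervalIntegral.integral_congr (g := fun _ => 0)]
  · simp
  · intro t ht
    apply nc_bump0_zero
    left
    rcases le_total 0 x with h0 | h0
    · rw [uIcc_of_le h0] at ht; exact ht.2.trans h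
    · rw [uIcc_of_ge h0] at ht; linarith [ht.2]

theorem ncP_one {x : ℝ} (h : 1 ≤ x) : ncP x = ncP 1 := by
  unfold ncP
  have hc : Continuous (fun x : ℝ => bump0 x) := nc_bump0_contDiff.continuous
  rw [← intervalIntegral.integral_add_adjacent_intervals (b := 1)
    (hc.intervalIntegrable _ _) (hc.intervalIntegrable _ _)]
  have : ∫ t in (1:ℝ)..x, bump0 t = 0 := by
    rw [intervalIntegral.integral_congr (g := fun _ => 0)]
    · simp
    · intro t ht
      apply nc_bump0_zero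
      right
      rw [uIcc_of_le h] at ht; exact ht.1
  rw [this, add_zero]

theorem ncP_hasDerivAt (x : ℝ) : HasDerivAt ncP (bump0 x) x := by
  have hc : Continuous (fun x : ℝ => bump0 x) := nc_bump0_contDiff.continuous
  exact intervalIntegral.integral_hasDerivAt_right (hc.intervalIntegrable _ _)
    (hc.stronglyMeasurableAtFilter _ _) hc.continuousAt

theorem ncP_one_pos : 0 < ncP 1 := by
  have hc : Continuous (fun x : ℝ => bump0 x) := nc_bump0_contDiff.continuous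
  unfold ncP
  rw [← intervalIntegral.integral_add_adjacent_intervals (b := 1/4)
    (hc.intervalIntegrable _ _) (hc.intervalIntegrable _ _)]
  have h1 : 0 ≤ ∫ t in (0:ℝ)..(1/4), bump0 t :=
    intervalIntegral.integral_nonneg (by norm_num) (fun t _ => nc_bump0_nonneg t)
  have h2 : 0 < ∫ t in (1/4:ℝ)..1, bump0 t := by
    apply intervalIntegral.intervalIntegral_pos_of_pos_on (hc.intervalIntegrable _ _)
    · intro t ht; exact nc_bump0_pos ht.1 ht.2
    · norm_num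
  linarith

theorem nc_integral_Ioi (f : ℝ → ℝ) {c : ℝ} (hc : 0 ≤ c) (h : ∀ x, c ≤ x → f x = 0) :
    ∫ x in Ioi (0:ℝ), f x = ∫ x in (0:ℝ)..c, f x := by
  rw [intervalIntegral.integral_of_le hc]
  apply setIntegral_eq_of_subset_of_forall_sdiff_eq_zero measurableSet_Ioi
  · exact fun x hx => hx.1
  · intro x hx
    apply h
    by_contra hlt
    push Not at hlt
    exact hx.2 ⟨hx.1, hlt.le⟩

theorem nc_integral_chi0 : ∫ ξ : ℂ, chi0 ξ = π * ncP 1 := by
  unfold chi0
  rw [nc_integral_radial (fun x => bump0 x), nc_integral_Ioi _ zero_le_one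
    (fun x hx => nc_bump0_zero (Or.inr hx))]
  rfl

/-- normalised profile -/
noncomputable def ncp (x : ℝ) : ℝ := bump0 x / (π * ncP 1)

noncomputable def ncm (x : ℝ) : ℝ := ncP x / (π * ncP 1)

theorem nc_chi_eq (ζ : ℂ) : chi ζ = ncp (‖ζ‖ ^ 2) := by
  unfold chi ncp
  rw [nc_integral_chi0]
  rfl

theorem ncp_nonneg (x : ℝ) : 0 ≤ ncp x :=
  div_nonneg (nc_bump0_nonneg x) (mul_nonneg pi_pos.le ncP_one_pos.le)

theorem ncp_zero {x : ℝ} (h : x ≤ 1 / 4 ∨ 1 ≤ x) : ncp x = 0 := by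
  unfold ncp; rw [nc_bump0_zero h, zero_div]

theorem ncp_contDiff : ContDiff ℝ ∞ ncp := nc_bump0_contDiff.div_const _

theorem ncm_hasDerivAt (x : ℝ) : HasDerivAt ncm (ncp x) x := (ncP_hasDerivAt x).div_const _

theorem ncm_zero {x : ℝ} (h : x ≤ 1 / 4) : ncm x = 0 := by
  unfold ncm; rw [ncP_zero h, zero_div]

theorem ncm_one {x : ℝ} (h : 1 ≤ x) : ncm x = 1 / π := by
  unfold ncm; rw [ncP_one h]
  field_simp [ncP_one_pos.ne', pi_pos.ne']

theorem ncm_contDiff : ContDiff ℝ ∞ ncm := by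
  rw [contDiff_infty_iff_deriv]
  refine ⟨fun x => (ncm_hasDerivAt x).differentiableAt, ?_⟩
  have : deriv ncm = ncp := funext fun x => (ncm_hasDerivAt x).deriv
  rw [this]
  exact ncp_contDiff

theorem chi_nonneg (ζ : ℂ) : 0 ≤ chi ζ := by
  rw [nc_chi_eq]; exact ncp_nonneg _

theorem contDiff_chi : ContDiff ℝ ∞ chi := by
  have : chi = fun ζ => ncp (‖ζ‖ ^ 2) := funext nc_chi_eq
  rw [this]
  exact ncp_contDiff.comp (contDiff_norm_sq ℝ)

theorem chi_radial {ζ ξ : ℂ} (h : ‖ζ‖ = ‖ξ‖) : chi ζ = chi ξ := by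
  rw [nc_chi_eq, nc_chi_eq, h]

theorem chi_eq_zero {ζ : ℂ} (h : ‖ζ‖ ^ 2 ≤ 1 / 4 ∨ 1 ≤ ‖ζ‖ ^ 2) : chi ζ = 0 := by
  rw [nc_chi_eq, ncp_zero h]

theorem integral_chi : ∫ ζ : ℂ, chi ζ = 1 := by
  unfold chi
  rw [integral_div]
  apply div_self
  rw [nc_integral_chi0]
  exact (mul_pos pi_pos ncP_one_pos).ne'

/-! The radial function `h = Φ(|ζ|²)` with `∂∂̄ h = χ_r - χ_r'`. -/

/-- minus the derivative of `Φ`; `a = 1/r'²`, `b = 1/r²` -/
noncomputable def ncq (a b x : ℝ) : ℝ := (ncm (a * x) - ncm (b * x)) / x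

theorem ncq_zero_left {a b x : ℝ} (hb : 0 < b) (hab : b ≤ a) (hx : x ≤ 1 / (4 * a)) :
    ncq a b x = 0 := by
  have ha : 0 < a := hb.trans_le hab
  have h1 : a * x ≤ 1 / 4 := by
    have := mul_le_mul_of_nonneg_left hx ha.le
    have h2 : a * (1 / (4 * a)) = 1 / 4 := by field_simp
    linarith
  have h2 : b * x ≤ 1 / 4 := by
    rcases le_total 0 x with h | h
    · exact (mul_le_mul_of_nonneg_right hab h).trans h1
    · linarith [mul_nonpos_of_nonneg_of_nonpos hb.le h]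
  unfold ncq
  rw [ncm_zero h1, ncm_zero h2]; simp

theorem ncq_zero_right {a b x : ℝ} (hb : 0 < b) (hab : b ≤ a) (hx : 1 / b ≤ x) :
    ncq a b x = 0 := by
  have hx0 : 0 < x := lt_of_lt_of_le (by positivity) hx
  have h2 : 1 ≤ b * x := by
    rw [div_le_iff₀ hb] at hx; linarith
  have h1 : 1 ≤ a * x := h2.trans (mul_le_mul_of_nonneg_right hab hx0.le)
  unfold ncq
  rw [ncm_one h1, ncm_one h2]; simp

theorem ncq_contDiff {a b : ℝ} (hb : 0 < b) (hab : b ≤ a) : ContDiff ℝ ∞ (ncq a b) := by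
  have ha : 0 < a := hb.trans_le hab
  rw [contDiff_iff_contDiffAt]
  intro x
  by_cases hx : x = 0
  · have : ncq a b =ᶠ[𝓝 x] fun _ => 0 := by
      have : Iio (1 / (4 * a)) ∈ 𝓝 x := Iio_mem_nhds (by rw [hx]; positivity)
      filter_upwards [this] with y hy
      exact ncq_zero_left hb hab (le_of_lt hy)
    exact contDiffAt_const.congr_of_eventuallyEq this
  · unfold ncq
    apply ContDiffAt.div _ contDiffAt_id hx
    apply ContDiff.contDiffAt
    exact (ncm_contDiff.comp (contDiff_const.mul contDiff_id)).sub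
      (ncm_contDiff.comp (contDiff_const.mul contDiff_id))

/-- the profile `Φ` -/
noncomputable def ncPhi (a b x : ℝ) : ℝ := ∫ t in x..(1 / b), ncq a b t

theorem ncPhi_hasDerivAt {a b : ℝ} (hb : 0 < b) (hab : b ≤ a) (x : ℝ) :
    HasDerivAt (ncPhi a b) (-ncq a b x) x := by
  have hc : Continuous (ncq a b) := (ncq_contDiff hb hab).continuous
  exact intervalIntegral.integral_hasDerivAt_left (hc.intervalIntegrable _ _)
    (hc.stronglyMeasurableAtFilter _ _) hc.continuousAt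

theorem ncPhi_contDiff {a b : ℝ} (hb : 0 < b) (hab : b ≤ a) : ContDiff ℝ ∞ (ncPhi a b) := by
  rw [contDiff_infty_iff_deriv]
  refine ⟨fun x => (ncPhi_hasDerivAt hb hab x).differentiableAt, ?_⟩
  have : deriv (ncPhi a b) = fun x => - ncq a b x :=
    funext fun x => (ncPhi_hasDerivAt hb hab x).deriv
  rw [this]
  exact (ncq_contDiff hb hab).neg

theorem ncPhi_zero {a b x : ℝ} (hb : 0 < b) (hab : b ≤ a) (hx : 1 / b ≤ x) :
    ncPhi a b x = 0 := by
  unfold ncPhi
  rw [intervalIntegral.integral_congr (g := fun _ => 0)]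
  · simp
  · intro t ht
    rw [uIcc_of_ge hx] at ht
    exact ncq_zero_right hb hab ht.1

theorem ncm_comp_hasDerivAt (a x : ℝ) :
    HasDerivAt (fun x => ncm (a * x)) (a * ncp (a * x)) x := by
  have h := HasDerivAt.scomp x (h := fun x => a * x) (h' := a) (ncm_hasDerivAt (a * x))
    (by simpa using (hasDerivAt_id x).const_mul a)
  exact h

theorem ncq_mul_hasDerivAt {a b : ℝ} (x : ℝ) (hb : 0 < b) (hab : b ≤ a) :
    HasDerivAt (fun x => x * ncq a b x) (a * ncp (a * x) - b * ncp (b * x)) x := by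
  have ha : 0 < a := hb.trans_le hab
  have h1 : (fun x => x * ncq a b x) = fun x => ncm (a * x) - ncm (b * x) := by
    funext x
    by_cases hx : x = 0
    · subst hx; simp
    · unfold ncq; field_simp
  rw [h1]
  have h2 := ncm_comp_hasDerivAt a x
  have h3 := ncm_comp_hasDerivAt b x
  exact h2.sub h3


/-! The constant. -/

theorem nc_const_aux {a b e : ℝ} (hb : 0 < b) (hab : b ≤ a) (he : 0 < e) :
    ∫ ζ : ℂ, chi ζ * ncPhi a b (‖ζ‖ ^ 2 / e) =
      π * ∫ x in (0:ℝ)..(1 / b), ncm (e * x) * ncq a b x := by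
  have h1 : ∫ ζ : ℂ, chi ζ * ncPhi a b (‖ζ‖ ^ 2 / e) =
      π * ∫ x in Ioi (0:ℝ), ncp x * ncPhi a b (x / e) := by
    rw [← nc_integral_radial]
    simp_rw [nc_chi_eq]
  rw [h1]
  congr 1
  have h2 : ∫ x in Ioi (0:ℝ), ncp x * ncPhi a b (x / e) =
      e * ∫ x in Ioi (0:ℝ), ncp (e * x) * ncPhi a b x := by
    have := integral_comp_mul_left_Ioi (fun x => ncp x * ncPhi a b (x / e)) 0 he
    simp only [mul_zero, smul_eq_mul] at this
    have h3 : ∀ x : ℝ, e * x / e = x := fun x => by field_simp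
    simp only [h3] at this
    rw [this]
    field_simp
  rw [h2, nc_integral_Ioi _ (c := 1 / b) (by positivity)
    (fun x hx => by rw [ncPhi_zero hb hab hx, mul_zero]), ← intervalIntegral.integral_const_mul]
  have hcq : Continuous (ncq a b) := (ncq_contDiff hb hab).continuous
  have hcP : Continuous (ncPhi a b) := (ncPhi_contDiff hb hab).continuous
  have hcp : Continuous (fun x => ncp (e * x)) :=
    ncp_contDiff.continuous.comp (continuous_const.mul continuous_id)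
  have hcm : Continuous (fun x => ncm (e * x)) :=
    ncm_contDiff.continuous.comp (continuous_const.mul continuous_id)
  have h4 : ∫ x in (0:ℝ)..(1 / b), (e * ncp (e * x) * ncPhi a b x +
      ncm (e * x) * (-ncq a b x)) = 0 := by
    rw [intervalIntegral.integral_eq_sub_of_hasDerivAt
      (f := fun x => ncm (e * x) * ncPhi a b x)]
    · rw [ncPhi_zero hb hab le_rfl, ncm_zero (x := e * 0) (by norm_num)]; ring
    · intro x _
      exact (ncm_comp_hasDerivAt e x).mul (ncPhi_hasDerivAt hb hab x)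
    · apply Continuous.intervalIntegrable
      fun_prop
  rw [intervalIntegral.integral_add] at h4
  · have h5 : ∫ x in (0:ℝ)..(1 / b), ncm (e * x) * (-ncq a b x) =
        - ∫ x in (0:ℝ)..(1 / b), ncm (e * x) * (ncq a b x) := by
      rw [← intervalIntegral.integral_neg]
      congr 1; funext x; ring
    rw [h5] at h4
    have h6 : ∫ x in (0:ℝ)..(1 / b), e * (ncp (e * x) * ncPhi a b x) =
      ∫ x in (0:ℝ)..(1 / b), e * ncp (e * x) * ncPhi a b x := by
      congr 1; funext x; ring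
    rw [h6]
    linarith
  · apply Continuous.intervalIntegrable
    fun_prop
  · apply Continuous.intervalIntegrable
    fun_prop

/-- `ncm² / t` -/
noncomputable def nck (t : ℝ) : ℝ := ncm t ^ 2 / t

theorem nck_continuous : Continuous nck := by
  rw [continuous_iff_continuousAt]
  intro x
  by_cases hx : x = 0
  · have : nck =ᶠ[𝓝 x] fun _ => 0 := by
      have : Iio (1 / 4) ∈ 𝓝 x := Iio_mem_nhds (by rw [hx]; positivity)
      filter_upwards [this] with y hy
      unfold nck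
      rw [ncm_zero (le_of_lt hy)]; simp
    exact continuousAt_const.congr this.symm
  · unfold nck
    exact ContinuousAt.div (ncm_contDiff.continuous.continuousAt.pow 2) continuousAt_id hx

theorem nc_const {a b : ℝ} (hb : 0 < b) (hab : b ≤ a) :
    (∫ ζ : ℂ, chi ζ * ncPhi a b (‖ζ‖ ^ 2 / b)) + ∫ ζ : ℂ, chi ζ * ncPhi a b (‖ζ‖ ^ 2 / a) =
      1 / π * Real.log (a / b) := by
  have ha : 0 < a := hb.trans_le hab
  rw [nc_const_aux hb hab hb, nc_const_aux hb hab ha]
  have hcq : Continuous (ncq a b) := (ncq_contDiff hb hab).continuous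
  have hcm : ∀ e, Continuous (fun x => ncm (e * x)) := fun e =>
    ncm_contDiff.continuous.comp (continuous_const.mul continuous_id)
  have hk := nck_continuous
  have h1 : (∫ x in (0:ℝ)..(1 / b), ncm (b * x) * ncq a b x) +
      (∫ x in (0:ℝ)..(1 / b), ncm (a * x) * ncq a b x) =
      (∫ x in (0:ℝ)..(1 / b), a * nck (a * x)) - ∫ x in (0:ℝ)..(1 / b), b * nck (b * x) := by
    rw [← intervalIntegral.integral_add, ← intervalIntegral.integral_sub]
    · congr 1
      funext x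
      by_cases hx : x = 0
      · subst hx; unfold nck ncq; simp
      · unfold nck ncq
        field_simp
        ring
    · apply Continuous.intervalIntegrable
      fun_prop
    · apply Continuous.intervalIntegrable
      fun_prop
    · apply Continuous.intervalIntegrable
      exact (hcm b).mul hcq
    · apply Continuous.intervalIntegrable
      exact (hcm a).mul hcq
  have h2 : ∀ e : ℝ, 0 < e → ∫ x in (0:ℝ)..(1 / b), e * nck (e * x) =
      ∫ x in (0:ℝ)..(e / b), nck x := by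
    intro e he
    rw [intervalIntegral.integral_const_mul, intervalIntegral.mul_integral_comp_mul_left]
    congr 1 <;> ring
  rw [h2 a ha, h2 b hb, div_self hb.ne'] at h1
  have h3 : (∫ x in (0:ℝ)..(a / b), nck x) - ∫ x in (0:ℝ)..1, nck x =
      ∫ x in (1:ℝ)..(a / b), nck x := by
    rw [intervalIntegral.integral_interval_sub_left (hk.intervalIntegrable _ _)
      (hk.intervalIntegrable _ _)]
  have hab1 : 1 ≤ a / b := by rw [le_div_iff₀ hb]; linarith
  have h4 : ∫ x in (1:ℝ)..(a / b), nck x = (1 / π) ^ 2 * Real.log (a / b) := by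
    have : ∫ x in (1:ℝ)..(a / b), nck x = ∫ x in (1:ℝ)..(a / b), (1 / π) ^ 2 * (1 / x) := by
      apply intervalIntegral.integral_congr
      intro x hx
      rw [uIcc_of_le hab1] at hx
      simp only [nck]
      rw [ncm_one hx.1]
      ring
    rw [this, intervalIntegral.integral_const_mul, integral_one_div_of_pos one_pos (by positivity)]
    simp
  rw [← mul_add, h1, h3, h4]
  field_simp

/-! Planar derivatives of radial functions. -/

theorem nc_hasFDerivAt_radial {G : ℝ → ℝ} {g' : ℝ} {ζ : ℂ} (h : HasDerivAt G g' (‖ζ‖ ^ 2)) :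
    HasFDerivAt (fun ξ : ℂ => ((G (‖ξ‖ ^ 2) : ℝ) : ℂ))
      (Complex.ofRealCLM.comp (g' • (2 • (innerSL ℝ ζ)))) ζ := by
  have h1 : HasFDerivAt (fun ξ : ℂ => ‖ξ‖ ^ 2) (2 • (innerSL ℝ ζ)) ζ :=
    (hasStrictFDerivAt_norm_sq ζ).hasFDerivAt
  have h2 := h.comp_hasFDerivAt ζ h1
  exact (Complex.ofRealCLM.hasFDerivAt.comp ζ h2)

theorem nc_inner_one (ζ : ℂ) : inner ℝ ζ (1 : ℂ) = ζ.re := by
  simp [Complex.inner]

theorem nc_inner_I (ζ : ℂ) : inner ℝ ζ (I : ℂ) = ζ.im := by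
  simp [Complex.inner]

theorem nc_pwb_radial {G : ℝ → ℝ} {g' : ℝ} {ζ : ℂ} (h : HasDerivAt G g' (‖ζ‖ ^ 2)) :
    pwb 1 (fun ξ : ℂ => ((G (‖ξ‖ ^ 2) : ℝ) : ℂ)) ζ = (g' : ℂ) * ζ := by
  unfold pwb
  rw [(nc_hasFDerivAt_radial h).fderiv]
  simp only [ContinuousLinearMap.comp_apply, _root_.smul_apply, nsmul_eq_mul,
    innerSL_apply_apply, smul_eq_mul, mul_one, nc_inner_one, nc_inner_I, Complex.ofRealCLM_apply]
  apply Complex.ext <;> simp <;> ring

theorem nc_pw_radial_mul {G : ℝ → ℝ} {g' : ℝ} {ζ : ℂ} (h : HasDerivAt G g' (‖ζ‖ ^ 2)) :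
    pw 1 (fun ξ : ℂ => ((G (‖ξ‖ ^ 2) : ℝ) : ℂ) * ξ) ζ =
      ((g' * ‖ζ‖ ^ 2 + G (‖ζ‖ ^ 2) : ℝ) : ℂ) := by
  unfold pw
  have h1 := (nc_hasFDerivAt_radial h).mul (hasFDerivAt_id (𝕜 := ℝ) ζ)
  have h2 : fderiv ℝ (fun ξ : ℂ => ((G (‖ξ‖ ^ 2) : ℝ) : ℂ) * ξ) ζ = _ := h1.fderiv
  rw [h2]
  have h3 : (‖ζ‖ ^ 2 : ℝ) = ζ.re * ζ.re + ζ.im * ζ.im := by
    rw [← Complex.normSq_eq_norm_sq, Complex.normSq_apply]
  simp only [ContinuousLinearMap.comp_apply, _root_.smul_apply, nsmul_eq_mul,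
    innerSL_apply_apply, smul_eq_mul, mul_one, nc_inner_one, nc_inner_I, Complex.ofRealCLM_apply,
    _root_.add_apply, ContinuousLinearMap.id_apply, h3]
  apply Complex.ext <;> simp <;> ring


/-! Extension by zero of planar functions supported in the disc around `y₀`. -/

namespace RD

variable (R : RD ℂ) (y₀ : R.carrier)

open Classical in
/-- extension by zero -/
noncomputable def ncExt (u : ℂ → ℂ) (y : R.carrier) : ℂ :=
  if y ∈ R.tr y₀ '' ball 0 (R.rad y₀) then u (R.pr y - R.pr y₀) else 0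

theorem ncExt_tr (u : ℂ → ℂ) {ζ : ℂ} (h : ‖ζ‖ < R.rad y₀) : R.ncExt y₀ u (R.tr y₀ ζ) = u ζ := by
  unfold ncExt
  rw [if_pos ⟨ζ, by simpa using h, rfl⟩, R.pr_tr _ _ h]
  simp

theorem ncExt_eq_zero {u : ℂ → ℂ} {r : ℝ} (hu : ∀ ζ, r ≤ ‖ζ‖ → u ζ = 0) {y : R.carrier}
    (hy : y ∉ R.tr y₀ '' ball 0 r) : R.ncExt y₀ u y = 0 := by
  by_cases h : y ∈ R.tr y₀ '' ball 0 (R.rad y₀)
  · obtain ⟨ζ, hζ, rfl⟩ := h
    rw [ncExt_tr R y₀ u (by simpa using hζ)]
    apply hu
    by_contra hlt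
    push Not at hlt
    exact hy ⟨ζ, by simpa using hlt, rfl⟩
  · unfold ncExt
    rw [if_neg h]

theorem ncExt_test {u : ℂ → ℂ} (hs : ContDiff ℝ ∞ u) {r : ℝ} (hr1 : r < R.rad y₀)
    (hu : ∀ ζ, r ≤ ‖ζ‖ → u ζ = 0) : R.Test (R.ncExt y₀ u) := by
  have hK : IsCompact (R.tr y₀ '' closedBall 0 r) := R.isCompact_tr_image y₀ hr1
  have hsub : R.tr y₀ '' ball 0 r ⊆ R.tr y₀ '' closedBall 0 r := image_mono ball_subset_closedBall
  constructor
  · intro e _
    by_cases he : e ∈ R.tr y₀ '' ball 0 (R.rad y₀)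
    · obtain ⟨ζ, hζ, rfl⟩ := he
      have hζ' : ‖ζ‖ < R.rad y₀ := by simpa using hζ
      have hev : (fun v => R.ncExt y₀ u (R.tr (R.tr y₀ ζ) v)) =ᶠ[𝓝 0] fun v => u (ζ + v) := by
        have hb : ball (0:ℂ) (min (R.rad (R.tr y₀ ζ)) (R.rad y₀ - ‖ζ‖)) ∈ 𝓝 (0:ℂ) :=
          ball_mem_nhds _ (lt_min (R.rad_pos _) (by linarith))
        filter_upwards [hb] with v hv
        have hv' : ‖v‖ < min (R.rad (R.tr y₀ ζ)) (R.rad y₀ - ‖ζ‖) := by simpa using hv
        have h1 : ‖v‖ < R.rad (R.tr y₀ ζ) := hv'.trans_le (min_le_left _ _)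
        have h2 : ‖v‖ < R.rad y₀ - ‖ζ‖ := hv'.trans_le (min_le_right _ _)
        have h3 : ‖ζ + v‖ < R.rad y₀ := (norm_add_le _ _).trans_lt (by linarith)
        rw [R.tr_tr y₀ ζ v hζ' h1 h3, ncExt_tr R y₀ u h3]
      refine ContDiffAt.congr_of_eventuallyEq ?_ hev
      exact (hs.comp (contDiff_const.add contDiff_id)).contDiffAt
    · have hne : e ∈ (R.tr y₀ '' closedBall 0 r)ᶜ := by
        intro h
        apply he
        exact image_mono (closedBall_subset_ball hr1) h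
      have hmem : (R.tr y₀ '' closedBall 0 r)ᶜ ∈ 𝓝 e := hK.isClosed.isOpen_compl.mem_nhds hne
      rw [R.nhds_eq e, Filter.mem_map] at hmem
      have hev : (fun v => R.ncExt y₀ u (R.tr e v)) =ᶠ[𝓝 0] fun _ => 0 := by
        filter_upwards [hmem] with v hv
        exact R.ncExt_eq_zero y₀ hu (fun h => hv (hsub h))
      exact contDiffAt_const.congr_of_eventuallyEq hev
  · exact HasCompactSupport.intro hK (fun y hy => R.ncExt_eq_zero y₀ hu (fun h => hy (hsub h)))

theorem nc_dwb_congr {f g : R.carrier → ℂ} {e : R.carrier} (h : f =ᶠ[𝓝 e] g) (w : ℂ) :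
    R.dwb w f e = R.dwb w g e := by
  have h1 : (fun v => f (R.tr e v)) =ᶠ[𝓝 0] fun v => g (R.tr e v) := by
    rw [R.nhds_eq e] at h
    exact h
  unfold RD.dwb
  rw [h1.fderiv_eq]

theorem nc_dw_congr {f g : R.carrier → ℂ} {e : R.carrier} (h : f =ᶠ[𝓝 e] g) (w : ℂ) :
    R.dw w f e = R.dw w g e := by
  have h1 : (fun v => f (R.tr e v)) =ᶠ[𝓝 0] fun v => g (R.tr e v) := by
    rw [R.nhds_eq e] at h
    exact h
  unfold RD.dw
  rw [h1.fderiv_eq]

theorem nc_dwb_zero (e : R.carrier) (w : ℂ) : R.dwb w (fun _ => 0) e = 0 := by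
  unfold RD.dwb
  simp

theorem nc_dw_zero (e : R.carrier) (w : ℂ) : R.dw w (fun _ => 0) e = 0 := by
  unfold RD.dw
  simp

theorem nc_dwb_ext {u : ℂ → ℂ} {r : ℝ} (hr1 : r < R.rad y₀) (hu : ∀ ζ, r ≤ ‖ζ‖ → u ζ = 0) :
    R.dwb 1 (R.ncExt y₀ u) = R.ncExt y₀ (pwb 1 u) := by
  funext y
  have hK : IsCompact (R.tr y₀ '' closedBall 0 r) := R.isCompact_tr_image y₀ hr1
  by_cases hy : y ∈ R.tr y₀ '' ball 0 (R.rad y₀)
  · obtain ⟨ζ, hζ, rfl⟩ := hy
    have hζ' : ‖ζ‖ < R.rad y₀ := by simpa using hζ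
    rw [ncExt_tr R y₀ _ hζ', R.dwb_tr _ _ hζ']
    unfold pwb
    have : (fun v' => R.ncExt y₀ u (R.tr y₀ v')) =ᶠ[𝓝 ζ] u := by
      filter_upwards [isOpen_ball.mem_nhds hζ] with v hv
      exact ncExt_tr R y₀ _ (by simpa using hv)
    rw [this.fderiv_eq]
  · have h1 : R.ncExt y₀ u =ᶠ[𝓝 y] fun _ => 0 := by
      have hne : y ∈ (R.tr y₀ '' closedBall 0 r)ᶜ := fun h =>
        hy (image_mono (closedBall_subset_ball hr1) h)
      filter_upwards [hK.isClosed.isOpen_compl.mem_nhds hne] with z hz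
      exact R.ncExt_eq_zero y₀ hu (fun h => hz (image_mono ball_subset_closedBall h))
    rw [R.nc_dwb_congr h1, R.nc_dwb_zero]
    unfold ncExt
    rw [if_neg hy]

theorem nc_dw_ext {u : ℂ → ℂ} {r : ℝ} (hr1 : r < R.rad y₀) (hu : ∀ ζ, r ≤ ‖ζ‖ → u ζ = 0) :
    R.dw 1 (R.ncExt y₀ u) = R.ncExt y₀ (pw 1 u) := by
  funext y
  have hK : IsCompact (R.tr y₀ '' closedBall 0 r) := R.isCompact_tr_image y₀ hr1
  by_cases hy : y ∈ R.tr y₀ '' ball 0 (R.rad y₀)
  · obtain ⟨ζ, hζ, rfl⟩ := hy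
    have hζ' : ‖ζ‖ < R.rad y₀ := by simpa using hζ
    rw [ncExt_tr R y₀ _ hζ', R.dw_tr _ _ hζ']
    unfold pw
    have : (fun v' => R.ncExt y₀ u (R.tr y₀ v')) =ᶠ[𝓝 ζ] u := by
      filter_upwards [isOpen_ball.mem_nhds hζ] with v hv
      exact ncExt_tr R y₀ _ (by simpa using hv)
    rw [this.fderiv_eq]
  · have h1 : R.ncExt y₀ u =ᶠ[𝓝 y] fun _ => 0 := by
      have hne : y ∈ (R.tr y₀ '' closedBall 0 r)ᶜ := fun h =>
        hy (image_mono (closedBall_subset_ball hr1) h)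
      filter_upwards [hK.isClosed.isOpen_compl.mem_nhds hne] with z hz
      exact R.ncExt_eq_zero y₀ hu (fun h => hz (image_mono ball_subset_closedBall h))
    rw [R.nc_dw_congr h1, R.nc_dw_zero]
    unfold ncExt
    rw [if_neg hy]

/-! The weight `χ_s` and the representation of `ell`. -/

/-- `χ_s` with `e = 1/s²` -/
noncomputable def ncW (e : ℝ) (ζ : ℂ) : ℂ := ((e * ncp (e * ‖ζ‖ ^ 2) : ℝ) : ℂ)

theorem ncW_contDiff (e : ℝ) : ContDiff ℝ ∞ (ncW e) := by
  unfold ncW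
  apply Complex.ofRealCLM.contDiff.comp
  exact contDiff_const.mul (ncp_contDiff.comp (contDiff_const.mul (contDiff_norm_sq ℝ)))

theorem ncW_zero {s : ℝ} (hs : 0 < s) {ζ : ℂ} (h : s ≤ ‖ζ‖) : ncW (1 / s ^ 2) ζ = 0 := by
  unfold ncW
  rw [ncp_zero]
  · simp
  · right
    rw [one_div, ← div_eq_inv_mul, le_div_iff₀ (by positivity), one_mul]
    exact pow_le_pow_left₀ hs.le h 2

theorem nc_ell_eq {s : ℝ} (hs : 0 < s) (hs1 : s < R.rad y₀) (g : R.carrier → ℂ) :
    R.ell y₀ s g = R.sint (fun y => R.ncExt y₀ (ncW (1 / s ^ 2)) y * g y) := by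
  rw [R.sint_disc (y₀ := y₀) (r := s) hs1.le]
  · unfold ell
    have h1 : ∫ ζ in ball (0:ℂ) s, R.ncExt y₀ (ncW (1 / s ^ 2)) (R.tr y₀ ζ) * g (R.tr y₀ ζ) =
        ∫ ζ in ball (0:ℂ) s, ncW (1 / s ^ 2) ζ * g (R.tr y₀ ζ) := by
      refine setIntegral_congr_fun measurableSet_ball (fun ζ hζ => ?_)
      have hζ' : ‖ζ‖ < s := by simpa using hζ
      rw [ncExt_tr R y₀ _ (hζ'.trans hs1)]
    rw [h1, setIntegral_eq_integral_of_forall_compl_eq_zero]
    · have h2 := Measure.integral_comp_smul (volume : Measure ℂ)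
        (fun ζ => ncW (1 / s ^ 2) ζ * g (R.tr y₀ ζ)) s
      have h3 : ∀ ζ : ℂ, ncW (1 / s ^ 2) (s • ζ) * g (R.tr y₀ (s • ζ)) =
          (1 / s ^ 2 : ℝ) • ((chi ζ : ℂ) * g (R.tr y₀ ((s : ℂ) * ζ))) := by
        intro ζ
        have h4 : 1 / s ^ 2 * ‖s • ζ‖ ^ 2 = ‖ζ‖ ^ 2 := by
          rw [norm_smul, Real.norm_eq_abs, mul_pow, sq_abs]
          field_simp
        unfold ncW
        rw [h4, nc_chi_eq, Complex.real_smul, Complex.real_smul]
        push_cast
        ring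
      simp only [h3] at h2
      rw [integral_smul, Complex.finrank_real_complex, abs_of_pos (by positivity),
        ← one_div] at h2
      have h5 : (1 / s ^ 2 : ℝ) ≠ 0 := by positivity
      exact smul_right_injective _ h5 h2
    · intro ζ hζ
      have : s ≤ ‖ζ‖ := by simpa using hζ
      rw [ncW_zero hs this, zero_mul]
  · intro y hy
    by_contra hcon
    push Not at hcon
    apply hy
    rw [R.ncExt_eq_zero y₀ (r := s) (fun ζ hζ => ncW_zero hs hζ), zero_mul]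
    rintro ⟨ζ, hζ, rfl⟩
    exact hcon ζ (by simpa using hζ) rfl


/-! The function `H` on the surface. -/

/-- the planar function `h = Φ(|ζ|²)` -/
noncomputable def ncF (a b : ℝ) (ζ : ℂ) : ℂ := ((ncPhi a b (‖ζ‖ ^ 2) : ℝ) : ℂ)

theorem ncF_contDiff {a b : ℝ} (hb : 0 < b) (hab : b ≤ a) : ContDiff ℝ ∞ (ncF a b) :=
  Complex.ofRealCLM.contDiff.comp ((ncPhi_contDiff hb hab).comp (contDiff_norm_sq ℝ))

theorem ncF_zero {a b r : ℝ} (hr : 0 < r) (hb : b = 1 / r ^ 2) (hab : b ≤ a) {ζ : ℂ}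
    (h : r ≤ ‖ζ‖) : ncF a b ζ = 0 := by
  unfold ncF
  rw [ncPhi_zero (by rw [hb]; positivity) hab]
  · simp
  · rw [hb, one_div_one_div]
    exact pow_le_pow_left₀ hr.le h 2

theorem nc_pwb_ncF {a b : ℝ} (hb : 0 < b) (hab : b ≤ a) :
    pwb 1 (ncF a b) = fun ζ => ((-ncq a b (‖ζ‖ ^ 2) : ℝ) : ℂ) * ζ := by
  funext ζ
  exact nc_pwb_radial (ncPhi_hasDerivAt hb hab _)

theorem nc_pw_pwb_ncF {a b : ℝ} (hb : 0 < b) (hab : b ≤ a) (ζ : ℂ) :
    pw 1 (pwb 1 (ncF a b)) ζ = -(ncW a ζ - ncW b ζ) := by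
  rw [nc_pwb_ncF hb hab]
  have h1 : DifferentiableAt ℝ (ncq a b) (‖ζ‖ ^ 2) :=
    (ncq_contDiff hb hab).differentiable (by simp) _
  have h2 := h1.hasDerivAt.neg
  rw [nc_pw_radial_mul (G := fun x => -ncq a b x) h2]
  have h3 := ncq_mul_hasDerivAt (‖ζ‖ ^ 2) hb hab
  have h4 : HasDerivAt (fun x => x * ncq a b x)
      (1 * ncq a b (‖ζ‖ ^ 2) + ‖ζ‖ ^ 2 * deriv (ncq a b) (‖ζ‖ ^ 2)) (‖ζ‖ ^ 2) :=
    (hasDerivAt_id _).mul h1.hasDerivAt
  have h5 := h3.unique h4
  unfold ncW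
  rw [← Complex.ofReal_sub, h5, ← Complex.ofReal_neg]
  congr 1
  ring

/-! Complex integrals over the surface. -/

theorem nc_sint_smul (c : ℂ) (f : R.carrier → ℂ) :
    R.sint (fun y => c * f y) = c * R.sint f := by
  unfold sint
  rw [← integral_const_mul]
  congr 1
  funext ζ
  rw [← smul_eq_mul, smul_finsum]
  congr 1
  funext y
  rw [smul_finsum]
  rfl

theorem nc_sint_conj (f : R.carrier → ℂ) :
    R.sint (fun y => (starRingEnd ℂ) (f y)) = (starRingEnd ℂ) (R.sint f) := by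
  unfold sint
  rw [← integral_conj]
  congr 1
  funext ζ
  have hinj : Function.Injective (starRingEnd ℂ : ℂ →+* ℂ).toAddMonoidHom :=
    (starRingEnd ℂ : ℂ →+* ℂ).injective
  have h1 := AddMonoidHom.map_finsum_of_injective (starRingEnd ℂ : ℂ →+* ℂ).toAddMonoidHom hinj
    (fun y => ∑ᶠ (_ : R.pr y = ζ), f y)
  have h2 : ∀ y, (starRingEnd ℂ : ℂ →+* ℂ).toAddMonoidHom (∑ᶠ (_ : R.pr y = ζ), f y) =
      ∑ᶠ (_ : R.pr y = ζ), (starRingEnd ℂ) (f y) := fun y =>
    AddMonoidHom.map_finsum_of_injective (starRingEnd ℂ : ℂ →+* ℂ).toAddMonoidHom hinj _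
  simp only [h2] at h1
  exact h1.symm

theorem nc_sint_ofReal (f : R.carrier → ℝ) :
    R.sint (fun y => (f y : ℂ)) = ((R.sint f : ℝ) : ℂ) := by
  unfold sint
  rw [← integral_complex_ofReal]
  congr 1
  funext ζ
  have hinj : Function.Injective (Complex.ofRealHom).toAddMonoidHom := Complex.ofReal_injective
  have h1 := AddMonoidHom.map_finsum_of_injective (Complex.ofRealHom).toAddMonoidHom hinj
    (fun y => ∑ᶠ (_ : R.pr y = ζ), f y)
  have h2 : ∀ y, (Complex.ofRealHom).toAddMonoidHom (∑ᶠ (_ : R.pr y = ζ), f y) =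
      ∑ᶠ (_ : R.pr y = ζ), (f y : ℂ) := fun y =>
    AddMonoidHom.map_finsum_of_injective (Complex.ofRealHom).toAddMonoidHom hinj _
  simp only [h2] at h1
  exact h1.symm

theorem nc_En_eq (g : R.carrier → ℂ) :
    ((R.En 0 g : ℝ) : ℂ) = R.sint (fun y => R.dzb g y * (starRingEnd ℂ) (R.dzb g y)) := by
  unfold En
  rw [← nc_sint_ofReal]
  congr 1
  funext y
  rw [Complex.mul_conj, Complex.normSq_eq_norm_sq]
  simp


/-! Test functions. -/

section Test

variable {R}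

theorem nc_test_continuous {g : R.carrier → ℂ} (hg : R.Test g) : Continuous g :=
  continuousOn_univ.mp (hg.1.continuousOn R isOpen_univ)

theorem nc_test_mul {f g : R.carrier → ℂ} (hf : R.Test f) (hg : R.Test g) :
    R.Test (fun y => f y * g y) :=
  ⟨fun e he => (hf.1 e he).mul (hg.1 e he), hf.2.mul_right⟩

theorem nc_test_smul (c : ℂ) {g : R.carrier → ℂ} (hg : R.Test g) :
    R.Test (fun y => c * g y) :=
  ⟨fun e he => contDiffAt_const.mul (hg.1 e he), hg.2.mul_left⟩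

theorem nc_test_add {f g : R.carrier → ℂ} (hf : R.Test f) (hg : R.Test g) :
    R.Test (fun y => f y + g y) :=
  ⟨fun e he => (hf.1 e he).add (hg.1 e he), hf.2.add hg.2⟩

theorem nc_test_sub {f g : R.carrier → ℂ} (hf : R.Test f) (hg : R.Test g) :
    R.Test (fun y => f y - g y) := by
  have := nc_test_add hf (nc_test_smul (-1) hg)
  convert this using 2
  ring

theorem nc_test_conj {g : R.carrier → ℂ} (hg : R.Test g) :
    R.Test (fun y => (starRingEnd ℂ) (g y)) := by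
  refine ⟨fun e he => ?_, hg.2.comp_left (map_zero _)⟩
  exact (Complex.conjCLE.contDiff.contDiffAt).comp _ (hg.1 e he)

theorem nc_test_dwb {g : R.carrier → ℂ} (hg : R.Test g) : R.Test (R.dwb 1 g) := by
  refine ⟨hg.1.dwb R isOpen_univ 1, HasCompactSupport.intro hg.2 (fun y hy => ?_)⟩
  have h : g =ᶠ[𝓝 y] fun _ => 0 := notMem_tsupport_iff_eventuallyEq.mp hy
  rw [R.nc_dwb_congr h, R.nc_dwb_zero]

theorem nc_test_dw {g : R.carrier → ℂ} (hg : R.Test g) : R.Test (R.dw 1 g) := by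
  refine ⟨hg.1.dw R isOpen_univ 1, HasCompactSupport.intro hg.2 (fun y hy => ?_)⟩
  have h : g =ᶠ[𝓝 y] fun _ => 0 := notMem_tsupport_iff_eventuallyEq.mp hy
  rw [R.nc_dw_congr h, R.nc_dw_zero]

theorem nc_dwb_sub {f g : R.carrier → ℂ} (hf : R.Test f) (hg : R.Test g) (y : R.carrier) :
    R.dwb 1 (fun y => f y - g y) y = R.dwb 1 f y - R.dwb 1 g y := by
  unfold RD.dwb
  have h1 : DifferentiableAt ℝ (fun v => f (R.tr y v)) 0 :=
    (hf.1 y (mem_univ _)).differentiableAt (by simp)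
  have h2 : DifferentiableAt ℝ (fun v => g (R.tr y v)) 0 :=
    (hg.1 y (mem_univ _)).differentiableAt (by simp)
  rw [fderiv_fun_sub h1 h2]
  simp only [ContinuousLinearMap.sub_apply]
  ring

theorem nc_dwb_smul (c : ℂ) {g : R.carrier → ℂ} (hg : R.Test g) (y : R.carrier) :
    R.dwb 1 (fun y => c * g y) y = c * R.dwb 1 g y := by
  unfold RD.dwb
  have h2 : DifferentiableAt ℝ (fun v => g (R.tr y v)) 0 :=
    (hg.1 y (mem_univ _)).differentiableAt (by simp)
  rw [fderiv_const_mul h2]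
  simp only [_root_.smul_apply, smul_eq_mul]
  ring

theorem nc_sint_add {f g : R.carrier → ℂ} (hf : R.Test f) (hg : R.Test g) :
    R.sint (fun y => f y + g y) = R.sint f + R.sint g :=
  R.sint_add (nc_test_continuous hf) hf.2 (nc_test_continuous hg) hg.2

theorem nc_sint_sub {f g : R.carrier → ℂ} (hf : R.Test f) (hg : R.Test g) :
    R.sint (fun y => f y - g y) = R.sint f - R.sint g := by
  have h1 := nc_sint_add hf (nc_test_smul (-1) hg)
  rw [R.nc_sint_smul] at h1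
  have h2 : (fun y => f y - g y) = fun y => f y + -1 * g y := by funext y; ring
  rw [h2, h1]; ring

theorem nc_En_smul (c : ℂ) {g : R.carrier → ℂ} (hg : R.Test g) :
    R.En 0 (fun y => c * g y) = ‖c‖ ^ 2 * R.En 0 g := by
  have h1 := R.nc_En_eq (fun y => c * g y)
  have h2 : (fun y => R.dzb (fun y => c * g y) y * (starRingEnd ℂ) (R.dzb (fun y => c * g y) y)) =
      fun y => ((‖c‖ ^ 2 : ℝ) : ℂ) * (R.dzb g y * (starRingEnd ℂ) (R.dzb g y)) := by
    funext y
    unfold dzb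
    rw [nc_dwb_smul c hg, map_mul]
    have : ((‖c‖ ^ 2 : ℝ) : ℂ) = c * (starRingEnd ℂ) c := by
      rw [Complex.mul_conj, Complex.normSq_eq_norm_sq]
    rw [this]; ring
  rw [h2, R.nc_sint_smul, ← R.nc_En_eq, ← Complex.ofReal_mul] at h1
  exact Complex.ofReal_injective h1

theorem nc_En_nonneg (g : R.carrier → ℂ) : 0 ≤ R.En 0 g :=
  R.sint_nonneg (fun y => by positivity)

theorem nc_En_sub {f g : R.carrier → ℂ} (hf : R.Test f) (hg : R.Test g) :
    R.En 0 (fun y => f y - g y) = R.En 0 f -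
      2 * (R.sint (fun y => (starRingEnd ℂ) (R.dzb g y) * R.dzb f y)).re + R.En 0 g := by
  have h1 := R.nc_En_eq (fun y => f y - g y)
  have hF : R.Test (R.dzb f) := nc_test_dwb hf
  have hG : R.Test (R.dzb g) := nc_test_dwb hg
  have h2 : (fun y => R.dzb (fun y => f y - g y) y *
      (starRingEnd ℂ) (R.dzb (fun y => f y - g y) y)) =
      fun y => (R.dzb f y * (starRingEnd ℂ) (R.dzb f y) -
        (starRingEnd ℂ) (R.dzb g y) * R.dzb f y) -
        ((starRingEnd ℂ) ((starRingEnd ℂ) (R.dzb g y) * R.dzb f y) -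
          R.dzb g y * (starRingEnd ℂ) (R.dzb g y)) := by
    funext y
    have : R.dzb (fun y => f y - g y) y = R.dzb f y - R.dzb g y := nc_dwb_sub hf hg y
    rw [this]
    simp only [map_sub, map_mul, Complex.conj_conj]
    ring
  have hA : R.Test (fun y => R.dzb f y * (starRingEnd ℂ) (R.dzb f y)) :=
    nc_test_mul hF (nc_test_conj hF)
  have hB : R.Test (fun y => (starRingEnd ℂ) (R.dzb g y) * R.dzb f y) :=
    nc_test_mul (nc_test_conj hG) hF
  have hC := nc_test_conj hB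
  have hD : R.Test (fun y => R.dzb g y * (starRingEnd ℂ) (R.dzb g y)) :=
    nc_test_mul hG (nc_test_conj hG)
  rw [h2, nc_sint_sub (nc_test_sub hA hB) (nc_test_sub hC hD), nc_sint_sub hA hB,
    nc_sint_sub hC hD, R.nc_sint_conj, ← R.nc_En_eq, ← R.nc_En_eq] at h1
  have h3 := congrArg Complex.re h1
  simp only [Complex.sub_re, Complex.ofReal_re, Complex.conj_re] at h3
  linarith

end Test

section Legendre

theorem nc_ell_smul (s : ℝ) (c : ℂ) (g : R.carrier → ℂ) :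
    R.ell y₀ s (fun y => c * g y) = c * R.ell y₀ s g := by
  unfold ell
  rw [← integral_const_mul]
  congr 1; funext ζ; ring

theorem nc_legendre {s B : ℝ} :
    (∀ t ∈ R.NSet univ 0 y₀ s, t ≤ B) ↔
      ∀ g, R.Test g → 2 * (R.ell y₀ s g).re - R.En 0 g ≤ B := by
  constructor
  · intro h g hg
    have hB : 0 ≤ B := by
      have h0 : (0:ℝ) ∈ R.NSet univ 0 y₀ s := by
        refine ⟨fun y => 0 * g y, nc_test_smul 0 hg, subset_univ _, ?_, ?_⟩
        · rw [nc_En_smul 0 hg]; simp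
        · rw [nc_ell_smul]; simp
      exact h 0 h0
    have hE := nc_En_nonneg g
    have hre : (R.ell y₀ s g).re ≤ ‖R.ell y₀ s g‖ := Complex.re_le_norm _
    have key : ‖R.ell y₀ s g‖ ^ 2 ≤ B * R.En 0 g := by
      rcases eq_or_lt_of_le hE with h0 | hpos
      · -- zero energy
        by_contra hcon
        push Not at hcon
        rw [← h0, mul_zero] at hcon
        have h1 : ∀ c : ℝ, c ^ 2 * ‖R.ell y₀ s g‖ ^ 2 ≤ B := by
          intro c
          apply h
          refine ⟨fun y => (c : ℂ) * g y, nc_test_smul c hg, subset_univ _, ?_, ?_⟩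
          · rw [nc_En_smul _ hg, ← h0]; simp
          · rw [nc_ell_smul, norm_mul, mul_pow, Complex.norm_real, Real.norm_eq_abs, sq_abs]
        have h2 := h1 (√((B + 1) / ‖R.ell y₀ s g‖ ^ 2))
        rw [Real.sq_sqrt (by positivity), div_mul_cancel₀ _ hcon.ne'] at h2
        linarith
      · have h1 : (1 / R.En 0 g) * ‖R.ell y₀ s g‖ ^ 2 ≤ B := by
          apply h
          refine ⟨fun y => ((√(1 / R.En 0 g) : ℝ) : ℂ) * g y, nc_test_smul _ hg,
            subset_univ _, ?_, ?_⟩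
          · rw [nc_En_smul _ hg, Complex.norm_real, Real.norm_eq_abs, sq_abs,
              Real.sq_sqrt (by positivity)]
            rw [one_div, inv_mul_cancel₀ hpos.ne']
          · rw [nc_ell_smul, norm_mul, mul_pow, Complex.norm_real, Real.norm_eq_abs, sq_abs,
              Real.sq_sqrt (by positivity)]
        rw [one_div, ← div_eq_inv_mul, div_le_iff₀ hpos] at h1
        exact h1
    have h2 : 2 * ‖R.ell y₀ s g‖ ≤ B + R.En 0 g := by
      by_contra hcon
      push Not at hcon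
      have h3 : (B + R.En 0 g) ^ 2 < (2 * ‖R.ell y₀ s g‖) ^ 2 :=
        pow_lt_pow_left₀ hcon (by positivity) (by norm_num)
      nlinarith [sq_nonneg (B - R.En 0 g)]
    linarith
  · rintro h t ⟨g, hg, _, hE, rfl⟩
    set c : ℂ := (starRingEnd ℂ) (R.ell y₀ s g) with hc
    have h1 := h (fun y => c * g y) (nc_test_smul c hg)
    rw [nc_ell_smul, nc_En_smul c hg] at h1
    have h2 : (c * R.ell y₀ s g).re = ‖R.ell y₀ s g‖ ^ 2 := by
      rw [hc, mul_comm, Complex.mul_conj, Complex.ofReal_re, Complex.normSq_eq_norm_sq]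
    have h3 : ‖c‖ = ‖R.ell y₀ s g‖ := by rw [hc, RCLike.norm_conj]
    rw [h2, h3] at h1
    nlinarith [sq_nonneg ‖R.ell y₀ s g‖]

end Legendre

/-! The main identity. -/

theorem nc_W_test {s : ℝ} (hs : 0 < s) (hs1 : s < R.rad y₀) :
    R.Test (R.ncExt y₀ (ncW (1 / s ^ 2))) :=
  R.ncExt_test y₀ (ncW_contDiff _) hs1 (fun _ h => ncW_zero hs h)

theorem nc_ell_sub {s : ℝ} (hs : 0 < s) (hs1 : s < R.rad y₀) {f g : R.carrier → ℂ}
    (hf : R.Test f) (hg : R.Test g) :
    R.ell y₀ s (fun y => f y - g y) = R.ell y₀ s f - R.ell y₀ s g := by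
  have hW := R.nc_W_test y₀ hs hs1
  rw [R.nc_ell_eq y₀ hs hs1, R.nc_ell_eq y₀ hs hs1, R.nc_ell_eq y₀ hs hs1,
    ← nc_sint_sub (nc_test_mul hW hf) (nc_test_mul hW hg)]
  congr 1; funext y; ring

theorem nc_main {r r' : ℝ} (hr' : 0 < r') (hr : r' ≤ r) (hr1 : r < R.rad y₀) :
    ∃ H : R.carrier → ℂ, R.Test H ∧ ∀ g, R.Test g →
      2 * (R.ell y₀ r' g).re - R.En 0 g =
        2 * (R.ell y₀ r (fun y => g y - H y)).re - R.En 0 (fun y => g y - H y) +
          2 / π * Real.log (r / r') := by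
  have hr0 : 0 < r := hr'.trans_le hr
  have hr'1 : r' < R.rad y₀ := hr.trans_lt hr1
  set a : ℝ := 1 / r' ^ 2 with ha
  set b : ℝ := 1 / r ^ 2 with hbdef
  have hb : 0 < b := by positivity
  have hab : b ≤ a := one_div_le_one_div_of_le (by positivity) (pow_le_pow_left₀ hr'.le hr 2)
  have ha0 : 0 < a := hb.trans_le hab
  have hF0 : ∀ ζ : ℂ, r ≤ ‖ζ‖ → ncF a b ζ = 0 := fun ζ h => ncF_zero hr0 rfl hab h
  have hH : R.Test (R.ncExt y₀ (ncF a b)) := R.ncExt_test y₀ (ncF_contDiff hb hab) hr1 hF0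
  set H := R.ncExt y₀ (ncF a b) with hHdef
  -- `H` is real
  have hreal : (fun y => (starRingEnd ℂ) (H y)) = H := by
    funext y
    rw [hHdef]
    unfold ncExt
    split_ifs
    · unfold ncF; rw [Complex.conj_ofReal]
    · simp
  have hconj : ∀ y, (starRingEnd ℂ) (R.dzb H y) = R.dw 1 H y := by
    intro y
    have := R.dw_conj H 1 y
    rw [hreal] at this
    exact this.symm
  -- the second derivative
  have hpwb0 : ∀ ζ : ℂ, r ≤ ‖ζ‖ → pwb 1 (ncF a b) ζ = 0 := by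
    intro ζ h
    rw [nc_pwb_ncF hb hab]
    have : 1 / b ≤ ‖ζ‖ ^ 2 := by
      rw [hbdef, one_div_one_div]; exact pow_le_pow_left₀ hr0.le h 2
    simp [ncq_zero_right hb hab this]
  have hsecond : ∀ y, R.dwb 1 (R.dw 1 H) y =
      -(R.ncExt y₀ (ncW a) y - R.ncExt y₀ (ncW b) y) := by
    intro y
    rw [← R.dw_dwb_comm isOpen_univ hH.1 (mem_univ y) 1 1, hHdef, R.nc_dwb_ext y₀ hr1 hF0,
      R.nc_dw_ext y₀ hr1 hpwb0]
    unfold ncExt
    split_ifs
    · rw [nc_pw_pwb_ncF hb hab]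
    · simp
  have hWa : R.Test (R.ncExt y₀ (ncW a)) := R.nc_W_test y₀ hr' hr'1
  have hWb : R.Test (R.ncExt y₀ (ncW b)) := R.nc_W_test y₀ hr0 hr1
  have hdH : R.Test (R.dw 1 H) := nc_test_dw hH
  -- the pairing
  have hpair : ∀ g, R.Test g → R.sint (fun y => (starRingEnd ℂ) (R.dzb H y) * R.dzb g y) =
      R.ell y₀ r' g - R.ell y₀ r g := by
    intro g hg
    have h1 := R.sint_dzb (nc_test_mul hdH hg)
    have h2 : R.dzb (fun y => R.dw 1 H y * g y) = fun y =>
        (R.dw 1 H y * R.dwb 1 g y) -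
          (R.ncExt y₀ (ncW a) y * g y - R.ncExt y₀ (ncW b) y * g y) := by
      funext y
      unfold dzb
      rw [R.dwb_mul (fun e _ => hdH.1 e (mem_univ _)) (fun e _ => hg.1 e (mem_univ _)),
        hsecond y]
      ring
    rw [h2, nc_sint_sub (nc_test_mul hdH (nc_test_dwb hg))
      (nc_test_sub (nc_test_mul hWa hg) (nc_test_mul hWb hg)),
      nc_sint_sub (nc_test_mul hWa hg) (nc_test_mul hWb hg), ← R.nc_ell_eq y₀ hr' hr'1,
      ← R.nc_ell_eq y₀ hr0 hr1] at h1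
    simp only [hconj]
    exact sub_eq_zero.mp h1
  -- the values of `ell` at `H`
  have hval : ∀ s, 0 < s → s ≤ r → R.ell y₀ s H =
      ((∫ ζ : ℂ, chi ζ * ncPhi a b (‖ζ‖ ^ 2 / (1 / s ^ 2)) : ℝ) : ℂ) := by
    intro s hs hsr
    unfold ell
    rw [← integral_complex_ofReal]
    congr 1
    funext ζ
    by_cases hζ : ‖ζ‖ < 1
    · have h1 : ‖(s : ℂ) * ζ‖ < R.rad y₀ := by
        rw [norm_mul, Complex.norm_real, Real.norm_eq_abs, abs_of_pos hs]
        nlinarith
      rw [hHdef, R.ncExt_tr y₀ _ h1]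
      unfold ncF
      have h2 : ‖(s : ℂ) * ζ‖ ^ 2 = ‖ζ‖ ^ 2 / (1 / s ^ 2) := by
        rw [norm_mul, Complex.norm_real, Real.norm_eq_abs, abs_of_pos hs]
        field_simp
      rw [h2]
      push_cast
      ring
    · push Not at hζ
      have : chi ζ = 0 := chi_eq_zero (Or.inr (by nlinarith))
      rw [this]; simp
  have hEnH : R.En 0 H = (R.ell y₀ r' H - R.ell y₀ r H).re := by
    have h1 := R.nc_En_eq H
    rw [← hpair H hH]
    have h2 : (fun y => R.dzb H y * (starRingEnd ℂ) (R.dzb H y)) =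
      fun y => (starRingEnd ℂ) (R.dzb H y) * R.dzb H y := by funext y; ring
    rw [← h2, ← h1, Complex.ofReal_re]
  have hconst : (R.ell y₀ r H).re + (R.ell y₀ r' H).re = 2 / π * Real.log (r / r') := by
    rw [hval r hr0 le_rfl, hval r' hr' hr, Complex.ofReal_re, Complex.ofReal_re, ← ha, ← hbdef,
      nc_const hb hab]
    have : a / b = (r / r') ^ 2 := by rw [ha, hbdef]; field_simp
    rw [this, Real.log_pow]
    push_cast
    ring
  refine ⟨H, hH, fun g hg => ?_⟩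
  rw [nc_En_sub hg hH, hpair g hg, R.nc_ell_sub y₀ hr0 hr1 hg hH, hEnH]
  simp only [Complex.sub_re]
  linarith

theorem norm_change {r r' : ℝ} (hr' : 0 < r') (hr : r' ≤ r) (hr1 : r < R.rad y₀) {B : ℝ}
    (h : ∀ t ∈ R.NSet univ 0 y₀ r, t ≤ B) :
    ∀ t ∈ R.NSet univ 0 y₀ r', t ≤ B + 2 / π * Real.log (r / r') := by
  obtain ⟨H, hH, hid⟩ := R.nc_main y₀ hr' hr hr1
  rw [nc_legendre] at h ⊢
  intro g hg
  rw [hid g hg]
  linarith [h _ (nc_test_sub hg hH)]

theorem norm_change' {r r' : ℝ} (hr' : 0 < r') (hr : r' ≤ r) (hr1 : r < R.rad y₀) {B : ℝ}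
    (h : ∀ t ∈ R.NSet univ 0 y₀ r', t ≤ B) :
    ∀ t ∈ R.NSet univ 0 y₀ r, t ≤ B - 2 / π * Real.log (r / r') := by
  obtain ⟨H, hH, hid⟩ := R.nc_main y₀ hr' hr hr1
  rw [nc_legendre] at h ⊢
  intro g hg
  have h1 := hid _ (nc_test_add hg hH)
  have h2 : (fun y => g y + H y - H y) = g := by funext y; ring
  rw [h2] at h1
  linarith [h _ (nc_test_add hg hH)]

end RD

end Pool.Agent.ParLeaf
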