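import Pool.Agent.H.MP_3a36cd_an.RDTop

/-! MP_3a36cd_an, module Wirt1: Wirtinger calculus on Riemann domains. -/

open Set Metric Filter Topology Complex
open scoped ContDiff

namespace Pool.Agent.ParLeaf

section
variable {E : Type} [NormedAddCommGroup E] [NormedSpace ℂ E]

/-- `∂_w` on a normed space -/
noncomputable def pw (w : E) (F : E → ℂ) (x : E) : ℂ :=
  (fderiv ℝ F x w - I * fderiv ℝ F x (I • w)) / 2

/-- `∂̄_w` on a normed space -/
noncomputable def pwb (w : E) (F : E → ℂ) (x : E) : ℂ :=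
  (fderiv ℝ F x w + I * fderiv ℝ F x (I • w)) / 2

/-- the Levi form on a normed space -/
noncomputable def plevi (w : E) (ρ : E → ℝ) (x : E) : ℝ :=
  (pw w (pwb w (fun x => (ρ x : ℂ))) x).re

theorem wirt1_two_le : (2 : WithTop ℕ∞) ≤ ∞ := by
  exact WithTop.coe_le_coe.2 (le_top (a := (2 : ℕ∞)))

theorem wirt1_fderiv_conj {G : E → ℂ} (x u : E) :
    fderiv ℝ (fun v => (starRingEnd ℂ) (G v)) x u = (starRingEnd ℂ) (fderiv ℝ G x u) := by
  have h := ContinuousLinearEquiv.comp_fderiv (iso := conjCLE) (f := G) (x := x)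
  have h2 : (fun v => (starRingEnd ℂ) (G v)) = (conjCLE : ℂ → ℂ) ∘ G := by
    ext v; simp
  rw [h2, h]
  simp

theorem wirt1_fderiv_ofReal {ρ : E → ℝ} {x : E} (h : DifferentiableAt ℝ ρ x) (u : E) :
    fderiv ℝ (fun v => (ρ v : ℂ)) x u = ((fderiv ℝ ρ x u : ℝ) : ℂ) := by
  have h1 : HasFDerivAt (fun v => (ρ v : ℂ)) (ofRealCLM.comp (fderiv ℝ ρ x)) x :=
    (ofRealCLM.hasFDerivAt (x := ρ x)).comp x h.hasFDerivAt
  rw [h1.fderiv]
  simp

theorem wirt1_fderiv_apply {F' : Type} [NormedAddCommGroup F'] [NormedSpace ℝ F'] {G : E → F'}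
    {x : E} (h : ContDiffAt ℝ 2 G x) (u v : E) :
    fderiv ℝ (fun y => fderiv ℝ G y v) x u = fderiv ℝ (fderiv ℝ G) x u v := by
  have h1 : DifferentiableAt ℝ (fderiv ℝ G) x :=
    (h.fderiv_right (m := 1) (by norm_num)).differentiableAt (by norm_num)
  have h2 : HasFDerivAt (fun y => fderiv ℝ G y v)
      ((ContinuousLinearMap.apply ℝ F' v).comp (fderiv ℝ (fderiv ℝ G) x)) x :=
    ((ContinuousLinearMap.apply ℝ F' v).hasFDerivAt (x := fderiv ℝ G x)).comp x h1.hasFDerivAt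
  rw [h2.fderiv]
  simp

theorem wirt1_hasFDerivAt_apply {F' : Type} [NormedAddCommGroup F'] [NormedSpace ℝ F'] {G : E → F'}
    {x : E} (h : ContDiffAt ℝ 2 G x) (v : E) :
    DifferentiableAt ℝ (fun y => fderiv ℝ G y v) x := by
  have h1 : DifferentiableAt ℝ (fderiv ℝ G) x :=
    (h.fderiv_right (m := 1) (by norm_num)).differentiableAt (by norm_num)
  exact (((ContinuousLinearMap.apply ℝ F' v).hasFDerivAt (x := fderiv ℝ G x)).comp x
    h1.hasFDerivAt).differentiableAt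

theorem wirt1_fderiv_pw {G : E → ℂ} {x : E} (h : ContDiffAt ℝ 2 G x) (w u : E) :
    fderiv ℝ (pw w G) x u =
      (fderiv ℝ (fderiv ℝ G) x u w - I * fderiv ℝ (fderiv ℝ G) x u (I • w)) / 2 := by
  have h1 := wirt1_hasFDerivAt_apply h w
  have h2 := wirt1_hasFDerivAt_apply h (I • w)
  have h3 : pw w G = fun y => (fderiv ℝ G y w - I * fderiv ℝ G y (I • w)) * (2⁻¹ : ℂ) := by
    ext y; simp [pw, div_eq_mul_inv]
  have h4 := ((h1.hasFDerivAt.fun_sub (h2.hasFDerivAt.const_mul I)).mul_const (2⁻¹ : ℂ))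
  rw [h3, h4.fderiv]
  simp only [_root_.smul_apply, _root_.sub_apply, smul_eq_mul,
    wirt1_fderiv_apply h]
  ring

theorem wirt1_fderiv_pwb {G : E → ℂ} {x : E} (h : ContDiffAt ℝ 2 G x) (w u : E) :
    fderiv ℝ (pwb w G) x u =
      (fderiv ℝ (fderiv ℝ G) x u w + I * fderiv ℝ (fderiv ℝ G) x u (I • w)) / 2 := by
  have h1 := wirt1_hasFDerivAt_apply h w
  have h2 := wirt1_hasFDerivAt_apply h (I • w)
  have h3 : pwb w G = fun y => (fderiv ℝ G y w + I * fderiv ℝ G y (I • w)) * (2⁻¹ : ℂ) := by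
    ext y; simp [pwb, div_eq_mul_inv]
  have h4 := ((h1.hasFDerivAt.fun_add (h2.hasFDerivAt.const_mul I)).mul_const (2⁻¹ : ℂ))
  rw [h3, h4.fderiv]
  simp only [_root_.smul_apply, _root_.add_apply, smul_eq_mul,
    wirt1_fderiv_apply h]
  ring

theorem wirt1_symm {F' : Type} [NormedAddCommGroup F'] [NormedSpace ℝ F'] {G : E → F'}
    {x : E} (h : ContDiffAt ℝ 2 G x) (u v : E) :
    fderiv ℝ (fderiv ℝ G) x u v = fderiv ℝ (fderiv ℝ G) x v u := by
  have := (h.isSymmSndFDerivAt (by simp)) 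
  exact this u v

theorem wirt1_fderiv2_ofReal {ρ : E → ℝ} {x : E} (h : ContDiffAt ℝ 2 ρ x) (u v : E) :
    fderiv ℝ (fderiv ℝ (fun y => (ρ y : ℂ))) x u v =
      ((fderiv ℝ (fderiv ℝ ρ) x u v : ℝ) : ℂ) := by
  have hC : ContDiffAt ℝ 2 (fun y => (ρ y : ℂ)) x :=
    ofRealCLM.contDiff.contDiffAt.comp x h
  rw [← wirt1_fderiv_apply hC u v, ← wirt1_fderiv_apply h u v]
  have hev : (fun y => fderiv ℝ (fun y => (ρ y : ℂ)) y v) =ᶠ[𝓝 x]
      fun y => ((fderiv ℝ ρ y v : ℝ) : ℂ) := by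
    have : ∀ᶠ y in 𝓝 x, ContDiffAt ℝ 2 ρ y := h.eventually (by simp)
    filter_upwards [this] with y hy
    exact wirt1_fderiv_ofReal (hy.differentiableAt (by norm_num)) v
  rw [hev.fderiv_eq, wirt1_fderiv_ofReal (wirt1_hasFDerivAt_apply h v)]

theorem wirt1_contDiffAt_ofReal {n : WithTop ℕ∞} {ρ : E → ℝ} {x : E} (h : ContDiffAt ℝ n ρ x) :
    ContDiffAt ℝ n (fun y => (ρ y : ℂ)) x :=
  ofRealCLM.contDiff.contDiffAt.comp x h

theorem wirt1_pw_pwb_ofReal {ρ : E → ℝ} {x : E} (h : ContDiffAt ℝ 2 ρ x) (w : E) :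
    pw w (pwb w (fun x => (ρ x : ℂ))) x = (((fderiv ℝ (fderiv ℝ ρ) x w w +
      fderiv ℝ (fderiv ℝ ρ) x (I • w) (I • w)) / 4 : ℝ) : ℂ) := by
  have hC := wirt1_contDiffAt_ofReal h
  have h0 : pw w (pwb w (fun x => (ρ x : ℂ))) x =
      (fderiv ℝ (pwb w (fun x => (ρ x : ℂ))) x w -
        I * fderiv ℝ (pwb w (fun x => (ρ x : ℂ))) x (I • w)) / 2 := rfl
  rw [h0, wirt1_fderiv_pwb hC, wirt1_fderiv_pwb hC, wirt1_fderiv2_ofReal h,
    wirt1_fderiv2_ofReal h, wirt1_fderiv2_ofReal h, wirt1_fderiv2_ofReal h,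
    wirt1_symm h (I • w) w]
  push_cast
  linear_combination (-(fderiv ℝ (fderiv ℝ ρ) x (I • w) (I • w) : ℂ) / 4) * I_sq

/-- the Levi form through second derivatives -/
theorem plevi_eq {ρ : E → ℝ} {x : E} (h : ContDiffAt ℝ 2 ρ x) (w : E) :
    plevi w ρ x = (fderiv ℝ (fderiv ℝ ρ) x w w +
      fderiv ℝ (fderiv ℝ ρ) x (I • w) (I • w)) / 4 := by
  rw [plevi, wirt1_pw_pwb_ofReal h, ofReal_re]

/-- pull back under a complex linear map -/
theorem plevi_comp_linear {E' : Type} [NormedAddCommGroup E'] [NormedSpace ℂ E'] (L : E' →L[ℂ] E)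
    {ρ : E → ℝ} {x : E'} (h : ContDiffAt ℝ 2 ρ (L x)) (w : E') :
    plevi w (fun y => ρ (L y)) x = plevi (L w) ρ (L x) := by
  set LR : E' →L[ℝ] E := L.restrictScalars ℝ with hLR
  have hLRa : ∀ y, LR y = L y := fun y => rfl
  have hc : ContDiffAt ℝ 2 (fun y => ρ (L y)) x := by
    have h' : ContDiffAt ℝ 2 ρ (LR x) := h
    exact h'.comp x LR.contDiff.contDiffAt
  have key : ∀ u : E', fderiv ℝ (fderiv ℝ (fun y => ρ (L y))) x u u =
      fderiv ℝ (fderiv ℝ ρ) (L x) (L u) (L u) := by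
    intro u
    rw [← wirt1_fderiv_apply hc, ← wirt1_fderiv_apply h]
    have hev : (fun y => fderiv ℝ (fun y => ρ (L y)) y u) =ᶠ[𝓝 x]
        fun y => fderiv ℝ ρ (LR y) (L u) := by
      have h1 : ∀ᶠ z in 𝓝 (L x), ContDiffAt ℝ 2 ρ z := h.eventually (by simp)
      have h2 : Tendsto (fun y => L y) (𝓝 x) (𝓝 (L x)) := L.continuous.continuousAt
      filter_upwards [h2.eventually h1] with y hy
      have h3 : HasFDerivAt (fun y => ρ (L y)) ((fderiv ℝ ρ (LR y)).comp LR) y :=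
        (hy.differentiableAt (by norm_num)).hasFDerivAt.comp y (LR.hasFDerivAt)
      rw [h3.fderiv]
      rfl
    rw [hev.fderiv_eq]
    have h4 : HasFDerivAt (fun y => fderiv ℝ ρ (LR y) (L u))
        ((fderiv ℝ (fun z => fderiv ℝ ρ z (L u)) (LR x)).comp LR) x := by
      have h5 := (wirt1_hasFDerivAt_apply (x := L x) h (L u)).hasFDerivAt
      exact HasFDerivAt.comp (g := fun z => fderiv ℝ ρ z (L u)) x h5 (LR.hasFDerivAt)
    rw [h4.fderiv]
    rfl
  rw [plevi_eq hc, plevi_eq h, key, key, map_smul]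

end

namespace RD

section
variable {E : Type} [NormedAddCommGroup E] [NormedSpace ℂ E] (R : RD E)
variable {U : Set R.carrier}

theorem wirt1_tr_eventually {e : R.carrier} {v : E} (hv : ‖v‖ < R.rad e) :
    ∀ᶠ v' in 𝓝 v, R.tr (R.tr e v) (v' - v) = R.tr e v' := by
  have h1 : ∀ᶠ v' in 𝓝 v, ‖v'‖ < R.rad e :=
    continuous_norm.continuousAt.eventually (Iio_mem_nhds hv)
  have h2 : ∀ᶠ v' in 𝓝 v, ‖v' - v‖ < R.rad (R.tr e v) := by
    have hc : Continuous fun v' : E => ‖v' - v‖ := by fun_prop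
    have : ‖v - v‖ < R.rad (R.tr e v) := by simpa using R.rad_pos _
    exact hc.continuousAt.eventually (Iio_mem_nhds this)
  filter_upwards [h1, h2] with v' h1 h2
  rw [R.tr_tr e v (v' - v) hv h2 (by simpa using h1)]
  congr 1
  abel

theorem wirt1_fderiv_tr {F : Type} [NormedAddCommGroup F] [NormedSpace ℝ F] (g : R.carrier → F)
    {e : R.carrier} {v : E} (hv : ‖v‖ < R.rad e) :
    fderiv ℝ (fun v' => g (R.tr (R.tr e v) v')) 0 = fderiv ℝ (fun v' => g (R.tr e v')) v := by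
  have hev : (fun v' => g (R.tr e v')) =ᶠ[𝓝 v] fun v' => g (R.tr (R.tr e v) (v' + -v)) := by
    filter_upwards [R.wirt1_tr_eventually hv] with v' h
    rw [← sub_eq_add_neg, h]
  rw [hev.fderiv_eq]
  have := fderiv_comp_add_right (𝕜 := ℝ) (f := fun w => g (R.tr (R.tr e v) w)) (x := v) (-v)
  rw [this]
  simp

theorem wirt1_dw_eventually (g : R.carrier → ℂ) (w : E) (e : R.carrier) :
    (fun v => R.dw w g (R.tr e v)) =ᶠ[𝓝 0] pw w (fun v => g (R.tr e v)) := by
  have h1 : ∀ᶠ v : E in 𝓝 0, ‖v‖ < R.rad e := by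
    have : ‖(0 : E)‖ < R.rad e := by simpa using R.rad_pos e
    exact continuous_norm.continuousAt.eventually (Iio_mem_nhds this)
  filter_upwards [h1] with v hv
  simp only [dw, pw, R.wirt1_fderiv_tr g hv]

theorem wirt1_dwb_eventually (g : R.carrier → ℂ) (w : E) (e : R.carrier) :
    (fun v => R.dwb w g (R.tr e v)) =ᶠ[𝓝 0] pwb w (fun v => g (R.tr e v)) := by
  have h1 : ∀ᶠ v : E in 𝓝 0, ‖v‖ < R.rad e := by
    have : ‖(0 : E)‖ < R.rad e := by simpa using R.rad_pos e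
    exact continuous_norm.continuousAt.eventually (Iio_mem_nhds this)
  filter_upwards [h1] with v hv
  simp only [dwb, pwb, R.wirt1_fderiv_tr g hv]

theorem wirt1_dw_eq (g : R.carrier → ℂ) (w : E) (e : R.carrier) :
    R.dw w g e = pw w (fun v => g (R.tr e v)) 0 := rfl

theorem wirt1_dwb_eq (g : R.carrier → ℂ) (w : E) (e : R.carrier) :
    R.dwb w g e = pwb w (fun v => g (R.tr e v)) 0 := rfl

theorem wirt1_pw_congr {F G : E → ℂ} {x : E} (h : F =ᶠ[𝓝 x] G) (w : E) : pw w F x = pw w G x := by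
  simp only [pw, h.fderiv_eq]

theorem wirt1_pwb_congr {F G : E → ℂ} {x : E} (h : F =ᶠ[𝓝 x] G) (w : E) :
    pwb w F x = pwb w G x := by
  simp only [pwb, h.fderiv_eq]

theorem wirt1_contDiffAt_fderiv_apply {G : E → ℂ} {x : E} (h : ContDiffAt ℝ ∞ G x) (u : E) :
    ContDiffAt ℝ ∞ (fun y => fderiv ℝ G y u) x := by
  have h1 : ContDiffAt ℝ ∞ (fderiv ℝ G) x := h.fderiv_right (m := ∞) (by simp)
  exact h1.clm_apply contDiffAt_const

theorem wirt1_contDiffAt_pw {G : E → ℂ} {x : E} (h : ContDiffAt ℝ ∞ G x) (w : E) :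
    ContDiffAt ℝ ∞ (pw w G) x := by
  have h1 := wirt1_contDiffAt_fderiv_apply h w
  have h2 := wirt1_contDiffAt_fderiv_apply h (I • w)
  exact (h1.sub (contDiffAt_const.mul h2)).div_const 2

theorem wirt1_contDiffAt_pwb {G : E → ℂ} {x : E} (h : ContDiffAt ℝ ∞ G x) (w : E) :
    ContDiffAt ℝ ∞ (pwb w G) x := by
  have h1 := wirt1_contDiffAt_fderiv_apply h w
  have h2 := wirt1_contDiffAt_fderiv_apply h (I • w)
  exact (h1.add (contDiffAt_const.mul h2)).div_const 2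

theorem Smooth.contDiffAt_tr {F : Type} [NormedAddCommGroup F] [NormedSpace ℝ F]
    {g : R.carrier → F} (hg : R.Smooth g U) {e : R.carrier} {v : E}
    (hv : ‖v‖ < R.rad e) (hU : R.tr e v ∈ U) : ContDiffAt ℝ ∞ (fun v' => g (R.tr e v')) v := by
  have hev : (fun v' => g (R.tr e v')) =ᶠ[𝓝 v] fun v' => g (R.tr (R.tr e v) (v' - v)) := by
    filter_upwards [R.wirt1_tr_eventually hv] with v' h
    rw [h]
  refine ContDiffAt.congr_of_eventuallyEq ?_ hev
  have h0 : ContDiffAt ℝ ∞ (fun w => g (R.tr (R.tr e v) w)) (v - v) := by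
    simpa using hg _ hU
  have h1 : ContDiffAt ℝ ∞ (fun v' : E => v' - v) v := contDiffAt_id.sub contDiffAt_const
  exact ContDiffAt.comp (g := fun w => g (R.tr (R.tr e v) w)) v h0 h1

theorem dw_tr (g : R.carrier → ℂ) (w : E) {e : R.carrier} {v : E} (hv : ‖v‖ < R.rad e) :
    R.dw w g (R.tr e v) = pw w (fun v' => g (R.tr e v')) v := by
  simp only [RD.dw, pw, R.wirt1_fderiv_tr g hv]

theorem dwb_tr (g : R.carrier → ℂ) (w : E) {e : R.carrier} {v : E} (hv : ‖v‖ < R.rad e) :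
    R.dwb w g (R.tr e v) = pwb w (fun v' => g (R.tr e v')) v := by
  simp only [RD.dwb, pwb, R.wirt1_fderiv_tr g hv]

theorem Smooth.dw (hU : IsOpen U) {g : R.carrier → ℂ} (hg : R.Smooth g U) (w : E) :
    R.Smooth (R.dw w g) U := by
  intro e he
  exact (wirt1_contDiffAt_pw (hg e he) w).congr_of_eventuallyEq (R.wirt1_dw_eventually g w e)

theorem Smooth.dwb (hU : IsOpen U) {g : R.carrier → ℂ} (hg : R.Smooth g U) (w : E) :
    R.Smooth (R.dwb w g) U := by
  intro e he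
  exact (wirt1_contDiffAt_pwb (hg e he) w).congr_of_eventuallyEq (R.wirt1_dwb_eventually g w e)

theorem Smooth.continuousOn (hU : IsOpen U) {F : Type} [NormedAddCommGroup F] [NormedSpace ℝ F]
    {g : R.carrier → F} (hg : R.Smooth g U) : ContinuousOn g U := by
  intro e he
  apply ContinuousAt.continuousWithinAt
  have h := (hg e he).continuousAt
  rw [ContinuousAt, R.nhds_eq e, tendsto_map'_iff]
  rw [ContinuousAt, R.tr_zero] at h
  exact h

theorem dw_mul {g h : R.carrier → ℂ} {e : R.carrier} (hg : R.Smooth g {e}) (hh : R.Smooth h {e})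
    (w : E) : R.dw w (fun x => g x * h x) e = R.dw w g e * h e + g e * R.dw w h e := by
  have h1 := ((hg e rfl).differentiableAt (by simp)).hasFDerivAt
  have h2 := ((hh e rfl).differentiableAt (by simp)).hasFDerivAt
  have h3 := (h1.mul h2).fderiv
  have h4 : (fun v => (fun x => g x * h x) (R.tr e v)) =
      (fun v => g (R.tr e v)) * (fun v => h (R.tr e v)) := rfl
  simp only [RD.dw]
  rw [h4, h3]
  simp only [_root_.add_apply, _root_.smul_apply, smul_eq_mul,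
    R.tr_zero]
  ring

theorem dwb_mul {g h : R.carrier → ℂ} {e : R.carrier} (hg : R.Smooth g {e}) (hh : R.Smooth h {e})
    (w : E) : R.dwb w (fun x => g x * h x) e = R.dwb w g e * h e + g e * R.dwb w h e := by
  have h1 := ((hg e rfl).differentiableAt (by simp)).hasFDerivAt
  have h2 := ((hh e rfl).differentiableAt (by simp)).hasFDerivAt
  have h3 := (h1.mul h2).fderiv
  have h4 : (fun v => (fun x => g x * h x) (R.tr e v)) =
      (fun v => g (R.tr e v)) * (fun v => h (R.tr e v)) := rfl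
  simp only [RD.dwb]
  rw [h4, h3]
  simp only [_root_.add_apply, _root_.smul_apply, smul_eq_mul,
    R.tr_zero]
  ring

theorem dwb_conj (g : R.carrier → ℂ) (w : E) (e : R.carrier) :
    R.dwb w (fun x => (starRingEnd ℂ) (g x)) e = (starRingEnd ℂ) (R.dw w g e) := by
  simp only [RD.dw, RD.dwb, wirt1_fderiv_conj (G := fun v => g (R.tr e v))]
  simp only [map_div₀, map_sub, map_mul, conj_I, map_ofNat]
  ring

theorem dw_conj (g : R.carrier → ℂ) (w : E) (e : R.carrier) :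
    R.dw w (fun x => (starRingEnd ℂ) (g x)) e = (starRingEnd ℂ) (R.dwb w g e) := by
  simp only [RD.dw, RD.dwb, wirt1_fderiv_conj (G := fun v => g (R.tr e v))]
  simp only [map_div₀, map_add, map_mul, conj_I, map_ofNat]
  ring

/-- `∂_w` and `∂̄_w'` commute -/
theorem dw_dwb_comm (hU : IsOpen U) {g : R.carrier → ℂ} (hg : R.Smooth g U) {e : R.carrier}
    (he : e ∈ U) (w w' : E) : R.dw w (R.dwb w' g) e = R.dwb w' (R.dw w g) e := by
  have h2 : ContDiffAt ℝ 2 (fun v => g (R.tr e v)) 0 := (hg e he).of_le wirt1_two_le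
  rw [wirt1_dw_eq, wirt1_pw_congr (R.wirt1_dwb_eventually g w' e), wirt1_dwb_eq,
    wirt1_pwb_congr (R.wirt1_dw_eventually g w e)]
  have h0 : ∀ (G : E → ℂ), pw w G 0 = (fderiv ℝ G 0 w - I * fderiv ℝ G 0 (I • w)) / 2 :=
    fun _ => rfl
  have h0' : ∀ (G : E → ℂ), pwb w' G 0 = (fderiv ℝ G 0 w' + I * fderiv ℝ G 0 (I • w')) / 2 :=
    fun _ => rfl
  rw [h0, h0', wirt1_fderiv_pw h2, wirt1_fderiv_pw h2, wirt1_fderiv_pwb h2, wirt1_fderiv_pwb h2,
    wirt1_symm h2 w' w, wirt1_symm h2 w' (I • w), wirt1_symm h2 (I • w') w,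
    wirt1_symm h2 (I • w') (I • w)]
  ring

theorem levi_eq (ρ : R.carrier → ℝ) (w : E) (e : R.carrier) :
    R.levi w ρ e = plevi w (fun v => ρ (R.tr e v)) 0 := by
  rw [levi, plevi, wirt1_dw_eq,
    wirt1_pw_congr (R.wirt1_dwb_eventually (fun e => (ρ e : ℂ)) w e)]

/-- for real functions `∂_w ∂̄_w ρ` is real -/
theorem levi_ofReal (hU : IsOpen U) {ρ : R.carrier → ℝ} (hρ : R.Smooth ρ U) {e : R.carrier}
    (he : e ∈ U) (w : E) :
    R.dw w (R.dwb w (fun x => (ρ x : ℂ))) e = (R.levi w ρ e : ℂ) := by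
  have h2 : ContDiffAt ℝ 2 (fun v => ρ (R.tr e v)) 0 := (hρ e he).of_le wirt1_two_le
  rw [R.levi_eq, plevi_eq h2, wirt1_dw_eq,
    wirt1_pw_congr (R.wirt1_dwb_eventually (fun e => (ρ e : ℂ)) w e)]
  exact wirt1_pw_pwb_ofReal h2 w

theorem levi_comp (hU : IsOpen U) {ρ : R.carrier → ℝ} (hρ : R.Smooth ρ U) {G : ℝ → ℝ}
    (hG : ContDiff ℝ ∞ G) {e : R.carrier} (he : e ∈ U) (w : E) :
    R.levi w (fun x => G (ρ x)) e = deriv G (ρ e) * R.levi w ρ e +
      deriv (deriv G) (ρ e) * ‖R.dw w (fun x => (ρ x : ℂ)) e‖ ^ 2 := by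
  set r : E → ℝ := fun v => ρ (R.tr e v) with hr
  have h2 : ContDiffAt ℝ 2 r 0 := (hρ e he).of_le wirt1_two_le
  have hr0 : r 0 = ρ e := by simp [hr, R.tr_zero]
  have hG2 : ContDiff ℝ 2 G := hG.of_le wirt1_two_le
  have hGr : ContDiffAt ℝ 2 (fun v => G (r v)) 0 := hG2.contDiffAt.comp 0 h2
  rw [R.levi_eq, R.levi_eq]
  change plevi w (fun v => G (r v)) 0 = deriv G (ρ e) * plevi w r 0 + _
  rw [plevi_eq hGr, plevi_eq h2]
  have hGd : Differentiable ℝ G := hG.differentiable (by simp)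
  have hG' : ContDiff ℝ ∞ (deriv G) := by
    have : ContDiff ℝ (∞ + 1) G := by simpa using hG
    exact (contDiff_succ_iff_deriv.1 this).2.2
  have hGd' : Differentiable ℝ (deriv G) := hG'.differentiable (by simp)
  have key : ∀ u : E, fderiv ℝ (fderiv ℝ (fun v => G (r v))) 0 u u =
      deriv (deriv G) (ρ e) * (fderiv ℝ r 0 u) ^ 2 +
        deriv G (ρ e) * fderiv ℝ (fderiv ℝ r) 0 u u := by
    intro u
    rw [← wirt1_fderiv_apply hGr, ← wirt1_fderiv_apply h2]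
    have hev : (fun y => fderiv ℝ (fun v => G (r v)) y u) =ᶠ[𝓝 0]
        fun y => deriv G (r y) * fderiv ℝ r y u := by
      have : ∀ᶠ y in 𝓝 (0 : E), ContDiffAt ℝ 2 r y := h2.eventually (by simp)
      filter_upwards [this] with y hy
      have h3 := (hGd (r y)).hasDerivAt.comp_hasFDerivAt y
        (hy.differentiableAt (by norm_num)).hasFDerivAt
      have h4 : fderiv ℝ (fun v => G (r v)) y = deriv G (r y) • fderiv ℝ r y := h3.fderiv
      rw [h4]
      simp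
    rw [hev.fderiv_eq]
    have h5 := (hGd' (r 0)).hasDerivAt.comp_hasFDerivAt (0 : E)
      (h2.differentiableAt (by norm_num)).hasFDerivAt
    have h6 := (wirt1_hasFDerivAt_apply h2 u).hasFDerivAt
    have h7 := (h5.mul h6).fderiv
    have h8 : (fun y => deriv G (r y) * fderiv ℝ r y u) =
        (deriv G ∘ r) * (fun y => fderiv ℝ r y u) := rfl
    rw [h8, h7]
    simp only [_root_.add_apply, _root_.smul_apply, smul_eq_mul,
      Function.comp_apply, hr0]
    ring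
  rw [key, key]
  have hn : ‖R.dw w (fun x => (ρ x : ℂ)) e‖ ^ 2 =
      ((fderiv ℝ r 0 w) ^ 2 + (fderiv ℝ r 0 (I • w)) ^ 2) / 4 := by
    have h9 : R.dw w (fun x => (ρ x : ℂ)) e =
        (((fderiv ℝ r 0 w : ℝ) : ℂ) - I * ((fderiv ℝ r 0 (I • w) : ℝ) : ℂ)) / 2 := by
      simp only [RD.dw]
      rw [wirt1_fderiv_ofReal (ρ := r) (h2.differentiableAt (by norm_num)),
        wirt1_fderiv_ofReal (ρ := r) (h2.differentiableAt (by norm_num))]
    rw [h9, norm_div, div_pow, Complex.sq_norm, Complex.normSq_apply]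
    simp
    ring
  rw [hn]
  ring

theorem levi_add (hU : IsOpen U) {ρ σ : R.carrier → ℝ} (hρ : R.Smooth ρ U) (hσ : R.Smooth σ U)
    {e : R.carrier} (he : e ∈ U) (w : E) :
    R.levi w (fun x => ρ x + σ x) e = R.levi w ρ e + R.levi w σ e := by
  have h1 : ContDiffAt ℝ 2 (fun v => ρ (R.tr e v)) 0 := (hρ e he).of_le wirt1_two_le
  have h2 : ContDiffAt ℝ 2 (fun v => σ (R.tr e v)) 0 := (hσ e he).of_le wirt1_two_le
  have h12 : ContDiffAt ℝ 2 (fun v => ρ (R.tr e v) + σ (R.tr e v)) 0 := h1.add h2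
  rw [R.levi_eq, R.levi_eq, R.levi_eq, plevi_eq h12, plevi_eq h1, plevi_eq h2]
  have key : ∀ u : E, fderiv ℝ (fderiv ℝ (fun v => ρ (R.tr e v) + σ (R.tr e v))) 0 u u =
      fderiv ℝ (fderiv ℝ (fun v => ρ (R.tr e v))) 0 u u +
        fderiv ℝ (fderiv ℝ (fun v => σ (R.tr e v))) 0 u u := by
    intro u
    have hev : fderiv ℝ (fun v => ρ (R.tr e v) + σ (R.tr e v)) =ᶠ[𝓝 0]
        fun v => fderiv ℝ (fun v => ρ (R.tr e v)) v + fderiv ℝ (fun v => σ (R.tr e v)) v := by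
      filter_upwards [h1.eventually (by simp), h2.eventually (by simp)] with y hy1 hy2
      exact fderiv_fun_add (hy1.differentiableAt (by norm_num))
        (hy2.differentiableAt (by norm_num))
    have h1' : DifferentiableAt ℝ (fderiv ℝ (fun v => ρ (R.tr e v))) 0 :=
      (h1.fderiv_right (m := 1) (by norm_num)).differentiableAt (by norm_num)
    have h2' : DifferentiableAt ℝ (fderiv ℝ (fun v => σ (R.tr e v))) 0 :=
      (h2.fderiv_right (m := 1) (by norm_num)).differentiableAt (by norm_num)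
    rw [hev.fderiv_eq, fderiv_fun_add h1' h2']
    simp
  rw [key, key]
  ring

theorem levi_const_mul (hU : IsOpen U) {ρ : R.carrier → ℝ} (hρ : R.Smooth ρ U)
    {e : R.carrier} (he : e ∈ U) (w : E) (c : ℝ) :
    R.levi w (fun x => c * ρ x) e = c * R.levi w ρ e := by
  have h1 : ContDiffAt ℝ 2 (fun v => ρ (R.tr e v)) 0 := (hρ e he).of_le wirt1_two_le
  have hc : ContDiffAt ℝ 2 (fun v => c * ρ (R.tr e v)) 0 := contDiffAt_const.mul h1
  rw [R.levi_eq, R.levi_eq, plevi_eq hc, plevi_eq h1]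
  have key : ∀ u : E, fderiv ℝ (fderiv ℝ (fun v => c * ρ (R.tr e v))) 0 u u =
      c * fderiv ℝ (fderiv ℝ (fun v => ρ (R.tr e v))) 0 u u := by
    intro u
    have hev : fderiv ℝ (fun v => c * ρ (R.tr e v)) =ᶠ[𝓝 0]
        fun v => c • fderiv ℝ (fun v => ρ (R.tr e v)) v := by
      filter_upwards [h1.eventually (by simp)] with y hy1
      exact fderiv_const_mul (hy1.differentiableAt (by norm_num)) c
    have h1' : DifferentiableAt ℝ (fderiv ℝ (fun v => ρ (R.tr e v))) 0 :=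
      (h1.fderiv_right (m := 1) (by norm_num)).differentiableAt (by norm_num)
    rw [hev.fderiv_eq, fderiv_fun_const_smul h1' c]
    simp
  rw [key, key]
  ring

end

end RD

end Pool.Agent.ParLeaf
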