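import Pool.Agent.H.MP_3a36cd_an.Planar1
import Pool.Agent.H.MP_3a36cd_an.Wirt1

/-! MP_3a36cd_an, module Planar2: subharmonic functions in the plane. -/

open Set Metric Filter Topology Complex MeasureTheory Real
open scoped ContDiff

namespace Pool.Agent.ParLeaf

/-- Taylor expansion of order two with cubic remainder -/
theorem planar2_taylor {v : ℂ → ℝ} {x : ℂ} (hv : ContDiffAt ℝ 3 v x) :
    ∃ C : ℝ, ∃ δ > 0, 0 ≤ C ∧ ∀ h : ℂ, ‖h‖ < δ →
      |v (x + h) - v x - fderiv ℝ v x h - fderiv ℝ (fderiv ℝ v) x h h / 2| ≤ C * ‖h‖ ^ 3 := by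
  have hD : ContDiffAt ℝ 2 (fderiv ℝ v) x := hv.fderiv_right (by norm_num)
  have hD2 : ContDiffAt ℝ 1 (fderiv ℝ (fderiv ℝ v)) x := hD.fderiv_right (by norm_num)
  obtain ⟨K, t, ht, hK⟩ := hD2.exists_lipschitzOnWith
  have hev : ∀ᶠ y in 𝓝 x, y ∈ t ∧ DifferentiableAt ℝ v y ∧
      DifferentiableAt ℝ (fderiv ℝ v) y := by
    filter_upwards [ht, hv.eventually (by norm_num), hD.eventually (by norm_num)] with y h1 h2 h3
    exact ⟨h1, h2.differentiableAt (by norm_num), h3.differentiableAt (by norm_num)⟩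
  obtain ⟨δ, hδ, hball⟩ := Metric.eventually_nhds_iff_ball.1 hev
  have hxt : x ∈ t := (hball x (mem_ball_self hδ)).1
  have hsymm : IsSymmSndFDerivAt ℝ v x := hv.isSymmSndFDerivAt (by norm_num)
  set D := fderiv ℝ v with hDdef
  set D2 := fderiv ℝ D x with hD2def
  refine ⟨K, δ, hδ, K.2, fun h hh => ?_⟩
  -- the first derivative
  have hG : ∀ k : ℂ, ‖k‖ ≤ ‖h‖ → ‖D (x + k) - D x - D2 k‖ ≤ K * ‖h‖ ^ 2 := by
    intro k hk
    have h1 : ∀ y ∈ closedBall (0 : ℂ) ‖h‖, HasFDerivWithinAt (fun y => D (x + y) - D x - D2 y)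
        (fderiv ℝ D (x + y) - D2) (closedBall 0 ‖h‖) y := by
      intro y hy
      have hy' : x + y ∈ ball x δ := by
        rw [mem_ball, dist_eq_norm, add_sub_cancel_left]
        exact (mem_closedBall_zero_iff.1 hy).trans_lt hh
      have h2 : HasFDerivAt D (fderiv ℝ D (x + y)) (x + y) := (hball _ hy').2.2.hasFDerivAt
      have h3 : HasFDerivAt (fun y => D (x + y)) (fderiv ℝ D (x + y)) y :=
        (hasFDerivAt_comp_add_left (x := y) x).2 h2
      exact ((h3.sub_const (D x)).sub D2.hasFDerivAt).hasFDerivWithinAt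
    have h4 : ∀ y ∈ closedBall (0 : ℂ) ‖h‖, ‖fderiv ℝ D (x + y) - D2‖ ≤ K * ‖h‖ := by
      intro y hy
      have hyh := mem_closedBall_zero_iff.1 hy
      have hy' : x + y ∈ ball x δ := by
        rw [mem_ball, dist_eq_norm, add_sub_cancel_left]
        exact hyh.trans_lt hh
      have h5 := hK.norm_sub_le (hball _ hy').1 hxt
      rw [add_sub_cancel_left] at h5
      exact h5.trans (mul_le_mul_of_nonneg_left hyh K.2)
    have h6 := (convex_closedBall (0 : ℂ) ‖h‖).norm_image_sub_le_of_norm_hasFDerivWithin_le h1 h4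
      (mem_closedBall_self (norm_nonneg h)) (mem_closedBall_zero_iff.2 hk)
    simp only [add_zero, sub_self, map_zero, sub_zero] at h6
    refine h6.trans ?_
    rw [pow_two, ← mul_assoc]
    exact mul_le_mul_of_nonneg_left hk (mul_nonneg K.2 (norm_nonneg h))
  have h1 : ∀ y ∈ closedBall (0 : ℂ) ‖h‖,
      HasFDerivWithinAt (fun y => v (x + y) - v x - D x y - D2 y y / 2)
        (D (x + y) - D x - D2 y) (closedBall 0 ‖h‖) y := by
    intro y hy
    have hy' : x + y ∈ ball x δ := by
      rw [mem_ball, dist_eq_norm, add_sub_cancel_left]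
      exact (mem_closedBall_zero_iff.1 hy).trans_lt hh
    have h2 : HasFDerivAt v (D (x + y)) (x + y) := (hball _ hy').2.1.hasFDerivAt
    have h3 : HasFDerivAt (fun y => v (x + y)) (D (x + y)) y :=
      (hasFDerivAt_comp_add_left (x := y) x).2 h2
    have h5 : HasFDerivAt (fun y : ℂ => D2 y y / 2) (D2 y) y := by
      have h6 : HasFDerivAt (fun y : ℂ => D2 y y) _ y :=
        D2.hasFDerivAt.clm_apply (hasFDerivAt_id y)
      have h7 := h6.mul_const (1 / 2 : ℝ)
      refine (h7.congr_of_eventuallyEq (Eventually.of_forall fun z => by ring)).congr_fderiv ?_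
      refine ContinuousLinearMap.ext fun k => ?_
      have h8 : D2 k y = D2 y k := hsymm k y
      simp only [smul_apply, add_apply,
        ContinuousLinearMap.comp_apply, ContinuousLinearMap.flip_apply,
        ContinuousLinearMap.id_apply, smul_eq_mul, h8]
      ring
    exact (((h3.sub_const (v x)).sub (D x).hasFDerivAt).sub h5).hasFDerivWithinAt
  have h4 : ∀ y ∈ closedBall (0 : ℂ) ‖h‖, ‖D (x + y) - D x - D2 y‖ ≤ K * ‖h‖ ^ 2 :=
    fun y hy => hG y (mem_closedBall_zero_iff.1 hy)
  have h6 := (convex_closedBall (0 : ℂ) ‖h‖).norm_image_sub_le_of_norm_hasFDerivWithin_le h1 h4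
    (mem_closedBall_self (norm_nonneg h)) (mem_closedBall_zero_iff.2 le_rfl)
  simp only [add_zero, sub_self, map_zero, sub_zero, zero_div] at h6
  rw [Real.norm_eq_abs] at h6
  refine h6.trans (le_of_eq ?_)
  ring


theorem planar2_integral (p a b A M B : ℝ) :
    ∫ θ in 0..2 * π, (p + a * Real.cos θ + b * Real.sin θ +
      (A * Real.cos θ ^ 2 + M * (Real.cos θ * Real.sin θ) + B * Real.sin θ ^ 2)) = 2 * π * (p + (A + B) / 2) := by
  have h1 : ∀ θ ∈ uIcc 0 (2 * π), HasDerivAt (fun θ : ℝ => p * θ + a * Real.sin θ - b * Real.cos θ +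
      (A * (θ + Real.sin θ * Real.cos θ) / 2 + M * Real.sin θ ^ 2 / 2 + B * (θ - Real.sin θ * Real.cos θ) / 2))
      (p + a * Real.cos θ + b * Real.sin θ +
      (A * Real.cos θ ^ 2 + M * (Real.cos θ * Real.sin θ) + B * Real.sin θ ^ 2)) θ := by
    intro θ _
    have hs := Real.hasDerivAt_sin θ
    have hc := Real.hasDerivAt_cos θ
    have hid := hasDerivAt_id θ
    have hsc := hs.mul hc
    have h2 := (((hid.const_mul p).add (hs.const_mul a)).sub (hc.const_mul b)).add
      (((((hid.add hsc).const_mul A).div_const 2).add (((hs.pow 2).const_mul M).div_const 2)).add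
        (((hid.sub hsc).const_mul B).div_const 2))
    refine (h2.congr_of_eventuallyEq (Eventually.of_forall fun z => rfl)).congr_deriv ?_
    have h3 := Real.sin_sq_add_cos_sq θ
    simp only [Nat.cast_ofNat, Nat.add_one_sub_one, pow_one]
    linear_combination (-A / 2 - B / 2) * h3
  rw [intervalIntegral.integral_eq_sub_of_hasDerivAt h1]
  · simp only [Real.sin_two_pi, Real.cos_two_pi, Real.sin_zero, Real.cos_zero]
    ring
  · exact Continuous.intervalIntegrable (by fun_prop) _ _

theorem planar2_avg {v : ℂ → ℝ} {x : ℂ} (hv : ContDiffAt ℝ 3 v x) (hl : 0 ≤ plevi 1 v x)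
    {ε : ℝ} (hε : 0 < ε) (hcont : ContinuousOn v (ball x ε)) :
    ∃ C : ℝ, ∃ s₀ > 0, ∀ s, 0 < s → s < s₀ → v x ≤ circleAverage v x s + C * s ^ 3 := by
  obtain ⟨C, δ, hδ, hC, hT⟩ := planar2_taylor hv
  refine ⟨C, min δ ε, lt_min hδ hε, fun s hs hs0 => ?_⟩
  have hsδ := hs0.trans_le (min_le_left _ _)
  have hsε := hs0.trans_le (min_le_right _ _)
  set D := fderiv ℝ v x with hD
  set D2 := fderiv ℝ (fderiv ℝ v) x with hD2
  have hle : 0 ≤ D2 1 1 + D2 I I := by
    have h1 := plevi_eq (hv.of_le (by norm_num)) (1 : ℂ)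
    rw [h1, smul_eq_mul, mul_one] at hl
    linarith
  have hpt : ∀ θ : ℝ, (v x - C * s ^ 3) + (s * D 1) * Real.cos θ + (s * D I) * Real.sin θ +
      ((s ^ 2 / 2 * D2 1 1) * Real.cos θ ^ 2 + (s ^ 2 / 2 * (D2 1 I + D2 I 1)) *
        (Real.cos θ * Real.sin θ) + (s ^ 2 / 2 * D2 I I) * Real.sin θ ^ 2)
      ≤ v (circleMap x s θ) := by
    intro θ
    have h1 : circleMap x s θ = x + ((s * Real.cos θ : ℝ) • (1 : ℂ) + (s * Real.sin θ : ℝ) • I) := by
      rw [circleMap, Complex.exp_mul_I, ← Complex.ofReal_cos, ← Complex.ofReal_sin]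
      simp only [Complex.real_smul, Complex.ofReal_mul]
      ring
    set h := ((s * Real.cos θ : ℝ) • (1 : ℂ) + (s * Real.sin θ : ℝ) • I) with hh
    have h2 : ‖h‖ = s := by
      have h3 : h = circleMap 0 s θ := by
        rw [← add_right_inj x, ← h1, circleMap, circleMap, zero_add]
      rw [h3, norm_circleMap_zero, abs_of_pos hs]
    have h4 := (abs_le.1 (hT h (by rw [h2]; exact hsδ))).1
    rw [h2] at h4
    have h5 : D h = s * Real.cos θ * D 1 + s * Real.sin θ * D I := by
      rw [hh, map_add, map_smul, map_smul, smul_eq_mul, smul_eq_mul]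
    have h6 : D2 h h = (s * Real.cos θ) ^ 2 * D2 1 1 + (s * Real.cos θ) * (s * Real.sin θ) *
        (D2 1 I + D2 I 1) + (s * Real.sin θ) ^ 2 * D2 I I := by
      rw [hh]
      simp only [map_add, map_smul, add_apply, smul_apply, smul_eq_mul]
      ring
    rw [h5, h6] at h4
    rw [h1]
    linarith
  have hci : IntervalIntegrable (fun θ => v (circleMap x s θ)) volume 0 (2 * π) := by
    apply Continuous.intervalIntegrable
    rw [← continuousOn_univ]
    refine hcont.comp (continuous_circleMap x s).continuousOn fun θ _ => ?_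
    rw [mem_ball, dist_eq_norm, circleMap_sub_center, norm_circleMap_zero, abs_of_pos hs]
    exact hsε
  have hmono := intervalIntegral.integral_mono_on (by positivity) (Continuous.intervalIntegrable
    (by fun_prop) 0 (2 * π)) hci fun θ _ => hpt θ
  rw [planar2_integral] at hmono
  rw [circleAverage_def, smul_eq_mul]
  have hpi : (0 : ℝ) < 2 * π := by positivity
  have h7 : v x - C * s ^ 3 ≤ (2 * π)⁻¹ * ∫ θ in 0..2 * π, v (circleMap x s θ) := by
    rw [inv_mul_eq_div, le_div_iff₀ hpi]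
    refine le_trans ?_ hmono
    rw [mul_comm]
    refine mul_le_mul_of_nonneg_left ?_ hpi.le
    have : 0 ≤ s ^ 2 := by positivity
    nlinarith
  linarith

/-- a `C²` function with nonnegative Laplacian is subharmonic -/
theorem subharmonicOn_of_contDiff {v : ℂ → ℝ} {Ω : Set ℂ} (hΩ : IsOpen Ω)
    (hv : ∀ x ∈ Ω, ContDiffAt ℝ 3 v x) (hl : ∀ x ∈ Ω, 0 ≤ plevi 1 v x) : SubharmonicOn v Ω := by
  have hc : ContinuousOn v Ω := fun x hx => (hv x hx).continuousAt.continuousWithinAt
  have hneg : ∀ x s, circleAverage (fun z => -v z) x s = -circleAverage v x s := by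
    intro x s
    simp only [circleAverage_def, intervalIntegral.integral_neg, smul_neg]
  refine ⟨hc.upperSemicontinuousOn, fun c r hr hcr => ?_⟩
  have h1 := superharmonic_of_local hΩ (n := fun z => -v z) hc.neg (by
    intro x hx
    obtain ⟨ε, hε, hb⟩ := Metric.isOpen_iff.1 hΩ x hx
    obtain ⟨C, s₀, hs₀, h⟩ := planar2_avg (hv x hx) (hl x hx) hε (hc.mono hb)
    refine ⟨C, s₀, hs₀, fun s hs hs' => ?_⟩
    have := h s hs hs'
    rw [hneg]
    linarith) c r hr hcr
  rw [hneg] at h1
  linarith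

/-- bounded upper semicontinuous functions are circle integrable -/
theorem planar2_circleIntegrable {v : ℂ → ℝ} {c : ℂ} {r : ℝ} {B : ℝ}
    (hB : ∀ z ∈ sphere c |r|, |v z| ≤ B) (hu : UpperSemicontinuousOn v (sphere c |r|)) :
    CircleIntegrable v c r := by
  have h1 : UpperSemicontinuous fun θ : ℝ => v (circleMap c r θ) := by
    intro θ y hy
    have h2 := hu (circleMap c r θ) (circleMap_mem_sphere' c r θ) y hy
    have h3 : Tendsto (circleMap c r) (𝓝 θ) (𝓝[sphere c |r|] (circleMap c r θ)) := by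
      refine tendsto_nhdsWithin_iff.2 ⟨(continuous_circleMap c r).continuousAt, ?_⟩
      exact Eventually.of_forall fun θ' => circleMap_mem_sphere' c r θ'
    exact h3.eventually h2
  have h2 : Measurable fun θ : ℝ => v (circleMap c r θ) := h1.measurable
  unfold CircleIntegrable
  rw [intervalIntegrable_iff]
  refine Measure.integrableOn_of_bounded (M := B) ?_ h2.aestronglyMeasurable ?_
  · rw [Set.uIoc_of_le (by positivity), Real.volume_Ioc]
    exact ENNReal.ofReal_ne_top
  · exact Eventually.of_forall fun θ => hB _ (circleMap_mem_sphere' c r θ)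

theorem planar2_core {v H : ℂ → ℝ} {x₀ : ℂ} {s δ : ℝ} (hδ : 0 < δ)
    (hint : CircleIntegrable v x₀ s)
    (hH : InnerProductSpace.HarmonicOnNhd H (closedBall x₀ |s|))
    (hsub : v x₀ ≤ circleAverage v x₀ s) (hmax : ∀ x ∈ sphere x₀ |s|, v x ≤ H x - δ)
    (h0 : H x₀ ≤ v x₀) : False := by
  have hHi : CircleIntegrable H x₀ s :=
    (hH.continuousOn.mono sphere_subset_closedBall).circleIntegrable'
  have hci : CircleIntegrable (fun _ : ℂ => δ) x₀ s := circleIntegrable_const _ _ _
  have h1 : circleAverage v x₀ s ≤ circleAverage (fun x => H x - δ) x₀ s :=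
    circleAverage_mono hint (hHi.sub hci) hmax
  have h2 : circleAverage (fun x => H x - δ) x₀ s = H x₀ - δ := by
    rw [circleAverage_fun_sub hHi hci, circleAverage_const,
      InnerProductSpace.HarmonicOnNhd.circleAverage_eq hH]
  linarith

/-- majorant characterisation: averages of bounded upper semicontinuous functions -/
theorem le_circleAverage_of_majorants {v : ℂ → ℝ} {c : ℂ} {r : ℝ} (hr : 0 < r) {B : ℝ}
    (hB : ∀ z ∈ sphere c r, |v z| ≤ B) (hu : UpperSemicontinuousOn v (sphere c r)) {a : ℝ}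
    (h : ∀ g : ℂ → ℝ, Continuous g → (∀ z ∈ sphere c r, v z ≤ g z) → a ≤ circleAverage g c r) :
    a ≤ circleAverage v c r := by
  have hne : Nonempty (sphere c r) := by
    refine ⟨⟨circleMap c r 0, ?_⟩⟩
    have := circleMap_mem_sphere' c r 0
    rwa [abs_of_pos hr] at this
  let g : ℕ → ℂ → ℝ := fun n x => ⨆ y : sphere c r, (v y - n * ‖x - y‖)
  have hbdd : ∀ n x, BddAbove (range fun y : sphere c r => v y - (n : ℕ) * ‖(x : ℂ) - y‖) := by
    intro n x
    refine ⟨B, ?_⟩
    rintro _ ⟨y, rfl⟩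
    have h1 := (abs_le.1 (hB y y.2)).2
    have h2 : 0 ≤ (n : ℝ) * ‖x - y‖ := by positivity
    simp only
    linarith
  have hgB : ∀ n x, g n x ≤ B := by
    intro n x
    refine ciSup_le fun y => ?_
    have h1 := (abs_le.1 (hB y y.2)).2
    have h2 : 0 ≤ (n : ℝ) * ‖x - y‖ := by positivity
    linarith
  have hvg : ∀ n x, x ∈ sphere c r → v x ≤ g n x := by
    intro n x hx
    have := le_ciSup (hbdd n x) ⟨x, hx⟩
    simpa using this
  have hgc : ∀ n, Continuous (g n) := by
    intro n
    have : LipschitzWith (n : NNReal) (g n) := by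
      refine LipschitzWith.of_le_add_mul _ fun x x' => ?_
      refine ciSup_le fun y => ?_
      have h1 : v y - n * ‖x' - y‖ ≤ g n x' := le_ciSup (hbdd n x') y
      have h2 : ‖x' - y‖ ≤ ‖x - y‖ + dist x x' := by
        rw [dist_eq_norm, ← norm_neg (x - x'), neg_sub]
        calc ‖x' - y‖ = ‖(x - y) + (x' - x)‖ := by ring_nf
          _ ≤ _ := norm_add_le _ _
      have h3 : (n : ℝ) * ‖x' - y‖ ≤ n * (‖x - y‖ + dist x x') :=
        mul_le_mul_of_nonneg_left h2 (Nat.cast_nonneg n)
      have h4 : ((n : NNReal) : ℝ) = n := by simp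
      rw [h4]
      simp only [g]
      linarith
    exact this.continuous
  have hlim : ∀ x ∈ sphere c r, Tendsto (fun n => g n x) atTop (𝓝 (v x)) := by
    intro x hx
    rw [Metric.tendsto_atTop]
    intro ε hε
    obtain ⟨δ, hδ, hd⟩ := Metric.eventually_nhds_iff.1
      (eventually_nhdsWithin_iff.1 (hu x hx (v x + ε / 2) (by linarith)))
    obtain ⟨N, hN⟩ := exists_nat_gt (2 * B / δ)
    refine ⟨N, fun n hn => ?_⟩
    have hnN : (N : ℝ) ≤ n := by exact_mod_cast hn
    have h1 : g n x ≤ v x + ε / 2 := by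
      refine ciSup_le fun y => ?_
      by_cases hy : dist (y : ℂ) x < δ
      · have h2 := hd hy y.2
        have h3 : 0 ≤ (n : ℝ) * ‖x - y‖ := by positivity
        linarith
      · have h2 : δ ≤ ‖x - y‖ := by
          rw [← norm_neg, neg_sub, ← dist_eq_norm]
          exact not_lt.1 hy
        have h3 := (div_lt_iff₀ hδ).1 hN
        have h4 : (N : ℝ) * δ ≤ n * ‖x - y‖ := by gcongr
        have h5 := (abs_le.1 (hB y y.2)).2
        have h6 := (abs_le.1 (hB x hx)).1
        linarith
    have h2 := hvg n x hx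
    rw [Real.dist_eq, abs_lt]
    constructor <;> linarith
  have hmem : ∀ θ, circleMap c r θ ∈ sphere c r := by
    intro θ
    have := circleMap_mem_sphere' c r θ
    rwa [abs_of_pos hr] at this
  have hT : Tendsto (fun n => circleAverage (g n) c r) atTop (𝓝 (circleAverage v c r)) := by
    unfold circleAverage
    refine Tendsto.const_smul ?_ _
    refine intervalIntegral.tendsto_integral_filter_of_dominated_convergence (fun _ => B) ?_ ?_ ?_ ?_
    · refine Eventually.of_forall fun n => ?_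
      exact ((hgc n).comp (continuous_circleMap c r)).aestronglyMeasurable
    · refine Eventually.of_forall fun n => Eventually.of_forall fun θ _ => ?_
      rw [Real.norm_eq_abs, abs_le]
      have h1 := hvg n _ (hmem θ)
      have h2 := (abs_le.1 (hB _ (hmem θ))).1
      exact ⟨by linarith, hgB n _⟩
    · exact intervalIntegrable_const
    · exact Eventually.of_forall fun θ _ => hlim _ (hmem θ)
  exact ge_of_tendsto' hT fun n => h (g n) (hgc n) (hvg n)


theorem planar2_mono {v : ℂ → ℝ} {Ω Ω' : Set ℂ} (h : SubharmonicOn v Ω) (h' : Ω' ⊆ Ω) :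
    SubharmonicOn v Ω' :=
  ⟨h.1.mono h', fun c r hr hc => h.2 c r hr (hc.trans h')⟩

/-- harmonic functions above a continuous function on a circle -/
theorem planar2_harmonic_majorant {g : ℂ → ℝ} (hg : Continuous g) {c : ℂ} {r : ℝ} (hr : 0 < r)
    {m : ℝ} (hm : circleAverage g c r < m) :
    ∃ H : ℂ → ℝ, ∃ η > 0, (∀ z, InnerProductSpace.HarmonicAt H z) ∧ Continuous H ∧
      (∀ z ∈ sphere c r, g z + η ≤ H z) ∧ H c < m := by
  set η := (m - circleAverage g c r) / 4 with hη
  have hη0 : 0 < η := by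
    rw [hη]
    linarith
  obtain ⟨f, hf1, hf2⟩ := exists_harmonic_below (c := fun ζ => -g (r * ζ + c))
    (by fun_prop) hη0
  have hr0 : (r : ℂ) ≠ 0 := by exact_mod_cast hr.ne'
  have hdiff : Differentiable ℂ fun z => f.eval ((z - c) / r) := by
    have h1 : Differentiable ℂ fun z : ℂ => (z - c) / r := by fun_prop
    exact f.differentiable.comp h1
  refine ⟨fun z => -(f.eval ((z - c) / r)).re, η, hη0, fun z => ?_, ?_, ?_, ?_⟩
  · have h1 : InnerProductSpace.HarmonicAt (fun z => (f.eval ((z - c) / r)).re) z :=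
      AnalyticAt.harmonicAt_re (hdiff.analyticAt z)
    exact h1.neg
  · exact (Complex.continuous_re.comp hdiff.continuous).neg
  · intro z hz
    have h1 : (z - c) / r ∈ sphere (0 : ℂ) 1 := by
      rw [mem_sphere_zero_iff_norm, norm_div, Complex.norm_real, Real.norm_eq_abs, abs_of_pos hr,
        ← dist_eq_norm, mem_sphere.1 hz, div_self hr.ne']
    have h2 := (hf1 _ h1).1
    have h3 : (r : ℂ) * ((z - c) / r) + c = z := by
      field_simp
      ring
    rw [h3] at h2
    simp only
    linarith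
  · have h1 : circleAverage (fun ζ => -g (r * ζ + c)) 0 1 = -circleAverage g c r := by
      rw [circleAverage_eq_circleAverage_zero_one (f := g) (c := c) (R := r)]
      simp only [circleAverage_def, intervalIntegral.integral_neg, smul_neg]
    rw [h1] at hf2
    simp only [sub_self, zero_div]
    linarith

/-- the maximum argument -/
theorem planar2_max {v L : ℂ → ℝ} {c : ℂ} {κ m : ℝ} (hκ : 0 < κ) {K : Set ℂ} (hK : IsCompact K)
    (hne : ∃ x ∈ K, m < v x - L x + κ * ‖x - c‖ ^ 2) (husc : UpperSemicontinuousOn v K)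
    (hL : ContinuousOn L K)
    (hint : ∀ x ∈ K, m < v x - L x + κ * ‖x - c‖ ^ 2 → ∃ s > 0,
      InnerProductSpace.HarmonicOnNhd L (closedBall x |s|) ∧ CircleIntegrable v x s ∧
      v x ≤ circleAverage v x s ∧
      ∀ y ∈ sphere x |s|, y ∈ K ∨ v y - L y + κ * ‖y - c‖ ^ 2 ≤ m) : False := by
  obtain ⟨x₁, hx₁, hm₁⟩ := hne
  have hW : UpperSemicontinuousOn (fun x => v x + (-L x + κ * ‖x - c‖ ^ 2)) K := by
    refine husc.add (ContinuousOn.upperSemicontinuousOn ?_)
    exact hL.neg.add (by fun_prop)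
  obtain ⟨x₀, hx₀, hmax⟩ := hW.exists_isMaxOn ⟨x₁, hx₁⟩ hK
  have h1 := hmax hx₁
  simp only [Set.mem_ofPred_eq] at h1
  have hm₀ : m < v x₀ - L x₀ + κ * ‖x₀ - c‖ ^ 2 := by linarith
  obtain ⟨s, hs, hharm, hci, hsub, hy⟩ := hint x₀ hx₀ hm₀
  have hlin : InnerProductSpace.HarmonicOnNhd
      (fun y : ℂ => ((y - x₀) * (starRingEnd ℂ) (x₀ - c)).re) (closedBall x₀ |s|) := by
    intro z _
    refine AnalyticAt.harmonicAt_re (f := fun y : ℂ => (y - x₀) * (starRingEnd ℂ) (x₀ - c)) ?_
    fun_prop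
  have hH : InnerProductSpace.HarmonicOnNhd
      ((fun _ => v x₀ - L x₀) + (L + (-(2 * κ)) •
        fun y : ℂ => ((y - x₀) * (starRingEnd ℂ) (x₀ - c)).re)) (closedBall x₀ |s|) :=
    (InnerProductSpace.harmonicOnNhd_const _).add (hharm.add hlin.const_smul)
  refine planar2_core (δ := κ * s ^ 2) (by positivity) hci hH hsub ?_ ?_
  · intro y hys
    have h2 : v y - L y + κ * ‖y - c‖ ^ 2 ≤ v x₀ - L x₀ + κ * ‖x₀ - c‖ ^ 2 := by
      rcases hy y hys with h | h
      · have := hmax h
        simp only [Set.mem_ofPred_eq] at this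
        linarith
      · linarith
    have h3 : ‖y - c‖ ^ 2 = s ^ 2 + 2 * ((y - x₀) * (starRingEnd ℂ) (x₀ - c)).re +
        ‖x₀ - c‖ ^ 2 := by
      have h4 : y - c = (y - x₀) + (x₀ - c) := by ring
      have h5 : ‖y - x₀‖ = |s| := by
        rw [← dist_eq_norm]
        exact hys
      rw [h4, ← Complex.normSq_eq_norm_sq, Complex.normSq_add, Complex.normSq_eq_norm_sq,
        Complex.normSq_eq_norm_sq, h5, sq_abs]
      ring
    simp only [Pi.add_apply, Pi.smul_apply, smul_eq_mul]
    rw [h3] at h2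
    linarith
  · simp

/-- small circles around a point of local subharmonicity -/
theorem planar2_small {v : ℂ → ℝ} {x : ℂ} {t B : ℝ} (ht : 0 < t)
    (hB : ∀ z ∈ ball x t, |v z| ≤ B) (h : SubharmonicOn v (ball x t)) {U : Set ℂ} (hU : IsOpen U)
    (hx : x ∈ U) : ∃ s > 0, closedBall x s ⊆ U ∧ CircleIntegrable v x s ∧
      v x ≤ circleAverage v x s := by
  obtain ⟨ε, hε, hb⟩ := Metric.isOpen_iff.1 hU x hx
  have hs : 0 < min ε t / 2 := by positivity
  have h1 : min ε t / 2 < ε := (half_lt_self (by positivity)).trans_le (min_le_left _ _)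
  have h2 : min ε t / 2 < t := (half_lt_self (by positivity)).trans_le (min_le_right _ _)
  have h3 : closedBall x (min ε t / 2) ⊆ ball x t := closedBall_subset_ball h2
  refine ⟨min ε t / 2, hs, (closedBall_subset_ball h1).trans hb, ?_, h.2 x _ hs h3⟩
  have h4 : sphere x |min ε t / 2| ⊆ ball x t := by
    rw [abs_of_pos hs]
    exact sphere_subset_closedBall.trans h3
  exact planar2_circleIntegrable (fun z hz => hB z (h4 hz)) (h.1.mono h4)

theorem planar2_usc_at {v : ℂ → ℝ} {x : ℂ} {t : ℝ} (ht : 0 < t)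
    (h : SubharmonicOn v (ball x t)) (S : Set ℂ) : UpperSemicontinuousWithinAt v S x := by
  intro y hy
  have h1 := h.1 x (mem_ball_self ht) y hy
  rw [nhdsWithin_eq_nhds.2 (ball_mem_nhds x ht)] at h1
  exact h1.filter_mono nhdsWithin_le_nhds

/-- local subharmonicity implies subharmonicity (bounded functions) -/
theorem subharmonicOn_of_local {v : ℂ → ℝ} {Ω : Set ℂ} (hΩ : IsOpen Ω) {B : ℝ}
    (hB : ∀ z ∈ Ω, |v z| ≤ B)
    (h : ∀ x ∈ Ω, ∃ s > 0, ball x s ⊆ Ω ∧ SubharmonicOn v (ball x s)) : SubharmonicOn v Ω := by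
  have husc : UpperSemicontinuousOn v Ω := by
    intro x hx
    obtain ⟨s, hs, _, hsub⟩ := h x hx
    exact planar2_usc_at hs hsub Ω
  refine ⟨husc, fun c r hr hcr => ?_⟩
  refine le_circleAverage_of_majorants hr
    (fun z hz => hB z (hcr (sphere_subset_closedBall hz)))
    (husc.mono (sphere_subset_closedBall.trans hcr)) fun g hg hgv => ?_
  by_contra hcon
  push Not at hcon
  obtain ⟨H, η, hη, hharm, hcont, hHg, hHc⟩ := planar2_harmonic_majorant hg hr hcon
  set κ := (v c - H c) / (2 * r ^ 2) with hκ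
  have hκ0 : 0 < κ := div_pos (by linarith) (by positivity)
  have hκr : κ * r ^ 2 = (v c - H c) / 2 := by
    rw [hκ]
    field_simp
  refine planar2_max (v := v) (L := H) (c := c) (κ := κ) (m := κ * r ^ 2) hκ0
    (isCompact_closedBall c r) ⟨c, mem_closedBall_self hr.le, ?_⟩ (husc.mono hcr)
    hcont.continuousOn ?_
  · simp only [sub_self, norm_zero]
    rw [hκr]
    linarith
  · intro x hx hmx
    have hxb : x ∈ ball c r := by
      rcases (mem_closedBall.1 hx).lt_or_eq with h1 | h1
      · exact h1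
      · exfalso
        have h2 := hgv x h1
        have h3 := hHg x h1
        have h4 : ‖x - c‖ = r := by rw [← dist_eq_norm, h1]
        rw [h4] at hmx
        linarith
    obtain ⟨t, ht, htΩ, hsub⟩ := h x (hcr hx)
    obtain ⟨s, hs, hsU, hci, hav⟩ := planar2_small ht (fun z hz => hB z (htΩ hz)) hsub
      isOpen_ball hxb
    refine ⟨s, hs, fun z _ => hharm z, hci, hav, fun y hy => Or.inl ?_⟩
    rw [abs_of_pos hs] at hy
    exact ball_subset_closedBall (hsU (sphere_subset_closedBall hy))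

/-- one removable singularity -/
theorem planar2_single {v : ℂ → ℝ} {a : ℂ} {ρ B : ℝ} (hρ : 0 < ρ)
    (hB : ∀ z ∈ ball a ρ, |v z| ≤ B)
    (h : ∀ x ∈ ball a ρ, x ≠ a → ∃ s > 0, ball x s ⊆ ball a ρ ∧ SubharmonicOn v (ball x s))
    (hlim : v a = limsup v (𝓝[≠] a)) : SubharmonicOn v (ball a ρ) := by
  have hBev : ∀ᶠ x in 𝓝[≠] a, |v x| ≤ B :=
    Filter.Eventually.filter_mono nhdsWithin_le_nhds
      (Filter.mem_of_superset (ball_mem_nhds a hρ) hB)
  have hbdd : IsBoundedUnder (· ≤ ·) (𝓝[≠] a) v :=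
    ⟨B, Filter.eventually_map.2 (hBev.mono fun x hx => (abs_le.1 hx).2)⟩
  have hbdd' : IsBoundedUnder (· ≥ ·) (𝓝[≠] a) v :=
    ⟨-B, Filter.eventually_map.2 (hBev.mono fun x hx => (abs_le.1 hx).1)⟩
  have husc : UpperSemicontinuousOn v (ball a ρ) := by
    intro x hx
    by_cases hxa : x = a
    · subst hxa
      intro y hy
      have h1 : ∀ᶠ z in 𝓝[≠] x, v z < y := by
        refine eventually_lt_of_limsup_lt ?_ hbdd
        rw [← hlim]
        exact hy
      have h2 : ∀ᶠ z in 𝓝 x, v z < y := by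
        rw [eventually_nhdsWithin_iff] at h1
        filter_upwards [h1] with z hz
        by_cases hzx : z = x
        · rw [hzx]
          exact hy
        · exact hz hzx
      exact h2.filter_mono nhdsWithin_le_nhds
    · obtain ⟨s, hs, _, hsub⟩ := h x hx hxa
      exact planar2_usc_at hs hsub _
  refine ⟨husc, fun c r hr hcr => ?_⟩
  refine le_circleAverage_of_majorants hr
    (fun z hz => hB z (hcr (sphere_subset_closedBall hz)))
    (husc.mono (sphere_subset_closedBall.trans hcr)) fun g hg hgv => ?_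
  by_contra hcon
  push Not at hcon
  obtain ⟨H, η, hη, hharm, hcont, hHg, hHc⟩ := planar2_harmonic_majorant hg hr hcon
  set κ := (v c - H c) / (2 * r ^ 2) with hκ
  have hκ0 : 0 < κ := div_pos (by linarith) (by positivity)
  have hκr : κ * r ^ 2 = (v c - H c) / 2 := by
    rw [hκ]
    field_simp
  -- the claim
  have claim : ∀ x ∈ closedBall c r, x ≠ a → v x - H x + κ * ‖x - c‖ ^ 2 ≤ κ * r ^ 2 := by
    by_contra hcl
    push Not at hcl
    obtain ⟨x₁, hx₁, hx₁a, hm₁⟩ := hcl
    set R := r + ‖c - a‖ + 1 with hR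
    have hR0 : 0 < R := by positivity
    have hlogle : ∀ x ∈ closedBall c r, Real.log (‖x - a‖ / R) ≤ 0 := by
      intro x hx
      apply Real.log_nonpos (by positivity)
      rw [div_le_one hR0]
      have h1 : ‖x - a‖ ≤ ‖x - c‖ + ‖c - a‖ := by
        have : x - a = (x - c) + (c - a) := by ring
        rw [this]
        exact norm_add_le _ _
      have h2 : ‖x - c‖ ≤ r := by
        rw [← dist_eq_norm]
        exact hx
      rw [hR]
      linarith
    set l := Real.log (‖x₁ - a‖ / R) with hl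
    have hl0 : l ≤ 0 := hlogle x₁ hx₁
    set d := v x₁ - H x₁ + κ * ‖x₁ - c‖ ^ 2 - κ * r ^ 2 with hd
    have hd0 : 0 < d := by
      rw [hd]
      linarith
    set ε := d / (2 * (1 - l)) with hε
    have hl1 : 0 < 1 - l := by linarith
    have hε0 : 0 < ε := by positivity
    have hεl : -d < ε * l := by
      have h1 : ε * (1 - l) = d / 2 := by
        rw [hε]
        field_simp
      nlinarith
    obtain ⟨MH, hMH⟩ := (isCompact_closedBall c r).exists_bound_of_continuousOn
      hcont.continuousOn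
    set M := B + MH + κ * r ^ 2 with hM
    have hWM : ∀ x ∈ closedBall c r, v x - H x + κ * ‖x - c‖ ^ 2 ≤ M := by
      intro x hx
      have h1 := (abs_le.1 (hB x (hcr hx))).2
      have h2 := hMH x hx
      rw [Real.norm_eq_abs] at h2
      have h3 := (abs_le.1 h2).1
      have h4 : ‖x - c‖ ^ 2 ≤ r ^ 2 := by
        have : ‖x - c‖ ≤ r := by
          rw [← dist_eq_norm]
          exact hx
        gcongr
      have h5 := mul_le_mul_of_nonneg_left h4 hκ0.le
      rw [hM]
      linarith
    set δ := R * Real.exp (-(|M| + κ * r ^ 2) / ε) with hδ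
    have hδ0 : 0 < δ := by positivity
    have hnear : ∀ x ∈ closedBall c r, x ≠ a → x ∈ ball a δ →
        v x - H x + κ * ‖x - c‖ ^ 2 + ε * Real.log (‖x - a‖ / R) ≤ κ * r ^ 2 := by
      intro x hx hxa hxδ
      have h1 : 0 < ‖x - a‖ := norm_pos_iff.2 (sub_ne_zero.2 hxa)
      have h2 : ‖x - a‖ / R ≤ Real.exp (-(|M| + κ * r ^ 2) / ε) := by
        rw [div_le_iff₀ hR0]
        rw [mem_ball, dist_eq_norm, hδ, mul_comm] at hxδ
        exact hxδ.le
      have h3 : Real.log (‖x - a‖ / R) ≤ -(|M| + κ * r ^ 2) / ε := by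
        rw [← Real.log_exp (-(|M| + κ * r ^ 2) / ε)]
        exact Real.log_le_log (by positivity) h2
      have h4 : ε * Real.log (‖x - a‖ / R) ≤ -(|M| + κ * r ^ 2) := by
        have := mul_le_mul_of_nonneg_left h3 hε0.le
        have h5 : ε * (-(|M| + κ * r ^ 2) / ε) = -(|M| + κ * r ^ 2) := by
          field_simp
        linarith
      have h6 := hWM x hx
      have h7 := le_abs_self M
      have h8 : 0 ≤ κ * r ^ 2 := by positivity
      linarith
    have hLne : ∀ x : ℂ, x ≠ a → InnerProductSpace.HarmonicAt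
        (H + (-ε) • fun x : ℂ => Real.log ‖(x - a) / R‖) x := by
      intro x hxa
      refine (hharm x).add (InnerProductSpace.HarmonicAt.const_smul ?_)
      refine AnalyticAt.harmonicAt_log_norm (f := fun x : ℂ => (x - a) / R) ?_ ?_
      · fun_prop
      · exact div_ne_zero (sub_ne_zero.2 hxa) (by exact_mod_cast hR0.ne')
    have hLval : ∀ x : ℂ, (H + (-ε) • fun x : ℂ => Real.log ‖(x - a) / R‖) x =
        H x - ε * Real.log (‖x - a‖ / R) := by
      intro x
      simp only [Pi.add_apply, Pi.smul_apply, smul_eq_mul, norm_div, Complex.norm_real,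
        Real.norm_eq_abs, abs_of_pos hR0]
      ring
    refine planar2_max (v := v) (L := H + (-ε) • fun x : ℂ => Real.log ‖(x - a) / R‖) (c := c)
      (κ := κ) (m := κ * r ^ 2) (K := closedBall c r \ ball a δ) hκ0
      ((isCompact_closedBall c r).diff isOpen_ball) ⟨x₁, ⟨hx₁, ?_⟩, ?_⟩ ?_ ?_ ?_
    · intro hx₁δ
      have := hnear x₁ hx₁ hx₁a hx₁δ
      rw [← hl] at this
      linarith
    · rw [hLval, ← hl]
      linarith
    · exact husc.mono (sdiff_subset.trans hcr)
    · intro x hx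
      have hxa : x ≠ a := fun h1 => hx.2 (h1 ▸ mem_ball_self hδ0)
      exact (hLne x hxa).1.continuousAt.continuousWithinAt
    · intro x hx hmx
      rw [hLval] at hmx
      have hxa : x ≠ a := fun h1 => hx.2 (h1 ▸ mem_ball_self hδ0)
      have hxb : x ∈ ball c r \ {a} := by
        refine ⟨?_, hxa⟩
        rcases (mem_closedBall.1 hx.1).lt_or_eq with h1 | h1
        · exact h1
        · exfalso
          have h2 := hgv x h1
          have h3 := hHg x h1
          have h4 : ‖x - c‖ = r := by rw [← dist_eq_norm, h1]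
          have h5 := mul_le_mul_of_nonneg_left (hlogle x hx.1) hε0.le
          rw [h4] at hmx
          linarith
      obtain ⟨t, ht, htΩ, hsub⟩ := h x (hcr hx.1) hxa
      obtain ⟨s, hs, hsU, hci, hav⟩ := planar2_small ht (fun z hz => hB z (htΩ hz)) hsub
        (isOpen_ball.sdiff isClosed_singleton) hxb
      refine ⟨s, hs, fun z hz => hLne z ?_, hci, hav, fun y hy => ?_⟩
      · rw [abs_of_pos hs] at hz
        exact (hsU hz).2
      · rw [abs_of_pos hs] at hy
        have hy' := hsU (sphere_subset_closedBall hy)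
        by_cases hyδ : y ∈ ball a δ
        · right
          rw [hLval]
          have := hnear y (ball_subset_closedBall hy'.1) hy'.2 hyδ
          linarith
        · exact Or.inl ⟨ball_subset_closedBall hy'.1, hyδ⟩
  by_cases hca : c = a
  · subst hca
    have hcoh : IsCoboundedUnder (· ≤ ·) (𝓝[≠] c) v := hbdd'.isCoboundedUnder_le
    have h1 : Tendsto H (𝓝[≠] c) (𝓝 (H c)) := hcont.continuousAt.tendsto.mono_left
      nhdsWithin_le_nhds
    have h2 : ∀ᶠ x in 𝓝[≠] c, H x < H c + (v c - H c) / 4 :=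
      h1.eventually_lt_const (by linarith)
    have h3 : ∀ᶠ x in 𝓝[≠] c, x ∈ closedBall c r ∧ x ≠ c := by
      rw [eventually_nhdsWithin_iff]
      filter_upwards [closedBall_mem_nhds c hr] with x hx hxc
      exact ⟨hx, hxc⟩
    have h4 : ∀ᶠ x in 𝓝[≠] c, v x ≤ H c + 3 * (v c - H c) / 4 := by
      filter_upwards [h2, h3] with x hx hx'
      have h5 := claim x hx'.1 hx'.2
      have h6 : 0 ≤ κ * ‖x - c‖ ^ 2 := by positivity
      linarith
    have h5 : limsup v (𝓝[≠] c) ≤ H c + 3 * (v c - H c) / 4 := limsup_le_of_le hcoh h4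
    rw [← hlim] at h5
    linarith
  · have := claim c (mem_closedBall_self hr.le) hca
    simp only [sub_self, norm_zero] at this
    rw [hκr] at this
    linarith

/-- removable isolated singularities of bounded subharmonic functions -/
theorem subharmonicOn_of_isolated {v : ℂ → ℝ} {Ω A : Set ℂ} (hΩ : IsOpen Ω) {B : ℝ}
    (hB : ∀ z ∈ Ω, |v z| ≤ B) (hA : ∀ x ∈ Ω, ∀ᶠ y in 𝓝[≠] x, y ∉ A)
    (h : ∀ x ∈ Ω, x ∉ A → ∃ s > 0, ball x s ⊆ Ω \ A ∧ SubharmonicOn v (ball x s))
    (hlim : ∀ x ∈ Ω ∩ A, v x = limsup v (𝓝[≠] x)) : SubharmonicOn v Ω := by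
  refine subharmonicOn_of_local hΩ hB fun x hx => ?_
  by_cases hxA : x ∈ A
  · have h1 := hA x hx
    rw [eventually_nhdsWithin_iff] at h1
    obtain ⟨ρ, hρ, hb⟩ := Metric.eventually_nhds_iff_ball.1 (h1.and (hΩ.mem_nhds hx))
    refine ⟨ρ, hρ, fun y hy => (hb y hy).2, ?_⟩
    refine planar2_single hρ (fun z hz => hB z (hb z hz).2) (fun y hy hyx => ?_)
      (hlim x ⟨hx, hxA⟩)
    obtain ⟨s, hs, hsΩ, hsub⟩ := h y (hb y hy).2 ((hb y hy).1 hyx)
    obtain ⟨t, ht, hbt⟩ := Metric.isOpen_iff.1 (isOpen_ball (α := ℂ)) y hy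
    refine ⟨min s t, lt_min hs ht, (ball_subset_ball (min_le_right _ _)).trans hbt,
      planar2_mono hsub (ball_subset_ball (min_le_left _ _))⟩
  · obtain ⟨s, hs, hsΩ, hsub⟩ := h x hx hxA
    exact ⟨s, hs, hsΩ.trans sdiff_subset, hsub⟩

end Pool.Agent.ParLeaf
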