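import Pool.Agent.H.MP_3a36cd_an.Surf2
import Pool.Agent.H.MP_3a36cd_an.Planar2
import Pool.Agent.H.MP_3a36cd_an.NormChange
import Pool.Agent.H.MP_3a36cd_an.GreenB
import Pool.Agent.H.MP_3a36cd_an.GreenC
import Pool.Agent.H.MP_3a36cd_an.GreenV

/-! MP_3a36cd_an, module Green: positive capacity gives bounded superharmonic functions. -/

open Set Metric Filter Topology Complex MeasureTheory Real
open scoped ContDiff

namespace Pool.Agent.ParLeaf

namespace RD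

variable (R : RD ℂ) (y₀ : R.carrier)

/-- the density of the averaging functional -/
noncomputable def gB (r : ℝ) (y : R.carrier) : ℝ := (R.ncExt y₀ (ncW (1 / r ^ 2)) y).re

theorem green_gB_eq (r : ℝ) (y : R.carrier) :
    R.ncExt y₀ (ncW (1 / r ^ 2)) y = ((R.gB y₀ r y : ℝ) : ℂ) := by
  unfold gB ncExt
  split_ifs
  · unfold ncW; rw [Complex.ofReal_re]
  · simp

theorem green_gB_nonneg (r : ℝ) (y : R.carrier) : 0 ≤ R.gB y₀ r y := by
  unfold gB ncExt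
  split_ifs
  · unfold ncW; rw [Complex.ofReal_re]
    have := ncp_nonneg (1 / r ^ 2 * ‖R.pr y - R.pr y₀‖ ^ 2)
    positivity
  · simp

theorem green_gB_smooth {r : ℝ} (hr : 0 < r) (hr1 : r < R.rad y₀) :
    R.Smooth (R.gB y₀ r) univ := fun e he =>
  (Complex.reCLM.contDiff.contDiffAt).comp (0 : ℂ) ((R.nc_W_test y₀ hr hr1).1 e he)

theorem green_gB_pos {r : ℝ} (hr : 0 < r) (hr1 : r < R.rad y₀) :
    ∃ ζ : ℂ, ‖ζ‖ < r ∧ 0 < R.gB y₀ r (R.tr y₀ ζ) := by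
  by_contra hcon
  push Not at hcon
  have h1 : ∀ ζ : ℂ, chi ζ = 0 := by
    intro ζ
    by_cases hζ : ‖ζ‖ < 1
    · have h2 : ‖(r : ℂ) * ζ‖ < r := by
        rw [norm_mul, Complex.norm_real, Real.norm_eq_abs, abs_of_pos hr]
        nlinarith
      have h3 := hcon _ h2
      unfold gB at h3
      rw [ncExt_tr R y₀ _ (h2.trans hr1)] at h3
      unfold ncW at h3
      rw [Complex.ofReal_re] at h3
      have h4 : 1 / r ^ 2 * ‖(r : ℂ) * ζ‖ ^ 2 = ‖ζ‖ ^ 2 := by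
        rw [norm_mul, Complex.norm_real, Real.norm_eq_abs, abs_of_pos hr]
        field_simp
      rw [h4, ← nc_chi_eq] at h3
      have h5 := chi_nonneg ζ
      have h6 : 0 < 1 / r ^ 2 := by positivity
      nlinarith
    · push Not at hζ
      exact chi_eq_zero (Or.inr (by nlinarith))
  have h2 := integral_chi
  simp only [h1, integral_zero] at h2
  exact zero_ne_one h2

variable {R}

theorem green_dzb_gext {x : R.carrier} {φ : ℂ → ℂ}
    (hc : HasCompactSupport φ) (hs : tsupport φ ⊆ ball 0 (R.rad x)) {y : R.carrier}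
    (h : y ∉ R.tr x '' (tsupport φ)) : R.dzb (R.gext x φ) y = 0 := by
  unfold dzb dwb
  rw [(R.gext_eventually_zero hc hs h).fderiv_eq]
  simp

theorem green_dzb_gext_tr {x : R.carrier} (φ : ℂ → ℂ) {ζ : ℂ} (h : ‖ζ‖ < R.rad x) :
    R.dzb (R.gext x φ) (R.tr x ζ) = pwb 1 φ ζ := by
  unfold dzb
  rw [R.dwb_tr _ _ h]
  apply wirt1_pwb_congr
  have hb : ball (0 : ℂ) (R.rad x) ∈ 𝓝 ζ := isOpen_ball.mem_nhds (mem_ball_zero_iff.2 h)
  filter_upwards [hb] with v hv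
  exact R.gext_tr φ (mem_ball_zero_iff.1 hv)

theorem green_gD_tr (g : R.carrier → ℝ) {x : R.carrier} {ζ : ℂ} (h : ‖ζ‖ < R.rad x) :
    pw 1 (fun ξ => (g (R.tr x ξ) : ℂ)) ζ = (starRingEnd ℂ) (R.gD g (R.tr x ζ)) := by
  have h1 := greenV_conj g (R.tr x ζ)
  have h2 : R.dz (gC g) (R.tr x ζ) = pw 1 (fun v' => gC g (R.tr x v')) ζ :=
    R.dw_tr (gC g) 1 h
  rw [h2] at h1
  exact h1.symm

theorem green_gD_sub {g h : R.carrier → ℝ} (hg : R.RT g) (hh : R.RT h) (y : R.carrier) :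
    R.gD (fun y => g y - h y) y = R.gD g y - R.gD h y := by
  have h1 : (fun y => g y - h y) = fun y => g y + (-1) * h y := by
    funext y; ring
  rw [h1, gD_add hg.1 (hh.const_mul (-1)).1, gD_const_mul hh.1]
  push_cast; ring

/-- the local solution near a reachable point -/
theorem green_local {r : ℝ} (hr : 0 < r) (hr1 : 4 * r ≤ R.rad y₀) {g : ℕ → R.carrier → ℝ}
    (hg : ∀ n, R.RT (g n))
    (hC : ∀ ε > 0, ∃ N, ∀ m ≥ N, ∀ n ≥ N, (R.gell y₀ r (fun y => g m y - g n y)) ^ 2 +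
        R.gE (fun y => g m y - g n y) ≤ ε)
    (hE : ∀ h : R.carrier → ℂ, R.Test h →
        Tendsto (fun n => R.sint (fun y => R.dz (gC (g n)) y * R.dzb h y)) atTop
          (𝓝 (R.ell y₀ r h))) {x : R.carrier} (hx : R.Reach y₀ x) :
    ∃ ρ > 0, ρ < R.rad x ∧ ∃ G : ℂ → ℝ, (∀ ζ ∈ ball (0 : ℂ) ρ, ContDiffAt ℝ ∞ G ζ) ∧
      (∀ ζ ∈ ball (0 : ℂ) ρ, plevi 1 G ζ = - R.gB y₀ r (R.tr x ζ)) ∧
      IntegrableOn G (ball 0 ρ) ∧
      Tendsto (fun n => ∫ ζ in ball (0 : ℂ) ρ, |g n (R.tr x ζ) - G ζ|) atTop (𝓝 0) := by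
  have hry : r < R.rad y₀ := by linarith
  obtain ⟨ρ, hρ, hρx, C, hC0, hCg⟩ := greenC_control (R := R) hr hr1 hx
  have hlt : ∀ {ζ : ℂ}, ζ ∈ closedBall (0 : ℂ) ρ → ‖ζ‖ < R.rad x := fun hζ =>
    (mem_closedBall_zero_iff.1 hζ).trans_lt hρx
  have hlt' : ∀ {ζ : ℂ}, ζ ∈ ball (0 : ℂ) ρ → ‖ζ‖ < R.rad x := fun hζ =>
    (mem_ball_zero_iff.1 hζ).trans hρx
  have hkey := greenB_local' (ρ := ρ) hρ (u := fun n ζ => g n (R.tr x ζ))
    (b := fun ζ => R.gB y₀ r (R.tr x ζ))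
    (fun n ζ hζ => Smooth.contDiffAt_tr R (hg n).1 (hlt hζ) (mem_univ _))
    (fun ζ hζ => Smooth.contDiffAt_tr R (R.green_gB_smooth y₀ hr hry) (hlt hζ) (mem_univ _))
    (by
      intro ε hε
      obtain ⟨N, hN⟩ := hC (ε / (C + 1)) (by positivity)
      refine ⟨N, fun m hm n hn => ?_⟩
      have h1 := hCg _ ((hg m).sub (hg n))
      have h2 := mul_le_mul_of_nonneg_left (hN m hm n hn) hC0
      have h3 : C * (ε / (C + 1)) ≤ ε := by
        rw [mul_div_assoc', div_le_iff₀ (by positivity)]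
        nlinarith
      exact h1.trans (h2.trans h3))
    (by
      intro ε hε
      obtain ⟨N, hN⟩ := hC ε hε
      refine ⟨N, fun m hm n hn => ?_⟩
      have h1 := R.greenC_disc hρx ((hg m).sub (hg n))
      have h2 := hN m hm n hn
      have h3 : ∫ ζ in ball (0 : ℂ) ρ, ‖pw 1 (fun ξ => (g m (R.tr x ξ) : ℂ)) ζ -
          pw 1 (fun ξ => (g n (R.tr x ξ) : ℂ)) ζ‖ ^ 2 =
          ∫ ζ in ball (0 : ℂ) ρ, ‖R.gD (fun y => g m y - g n y) (R.tr x ζ)‖ ^ 2 := by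
        refine setIntegral_congr_fun measurableSet_ball fun ζ hζ => ?_
        show ‖pw 1 (fun ξ => (g m (R.tr x ξ) : ℂ)) ζ -
          pw 1 (fun ξ => (g n (R.tr x ξ) : ℂ)) ζ‖ ^ 2 =
          ‖R.gD (fun y => g m y - g n y) (R.tr x ζ)‖ ^ 2
        rw [green_gD_tr (g m) (hlt' hζ), green_gD_tr (g n) (hlt' hζ), ← map_sub,
          RCLike.norm_conj, green_gD_sub (hg m) (hg n)]
      rw [h3]
      have h4 := sq_nonneg (R.gell y₀ r (fun y => g m y - g n y))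
      linarith)
    (by
      intro φ hφ hφc hφs
      have hφs' : tsupport φ ⊆ ball 0 (R.rad x) := hφs.trans (ball_subset_ball hρx.le)
      have hT : R.Test (R.gext x φ) :=
        ⟨R.gext_smooth hφ hφc hφs', R.gext_hasCompactSupport hφc hφs'⟩
      have h1 := hE _ hT
      have hsup : ∀ {y : R.carrier}, y ∈ R.tr x '' (tsupport φ) →
          ∃ ζ, ‖ζ‖ < ρ ∧ y = R.tr x ζ := by
        rintro y ⟨ζ, hζ, rfl⟩
        exact ⟨ζ, mem_ball_zero_iff.1 (hφs hζ), rfl⟩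
      have h2 : ∀ n, R.sint (fun y => R.dz (gC (g n)) y * R.dzb (R.gext x φ) y) =
          ∫ ζ, pw 1 (fun ξ => (g n (R.tr x ξ) : ℂ)) ζ * pwb 1 φ ζ := by
        intro n
        rw [R.sint_disc (y₀ := x) (r := ρ) hρx.le]
        · have h3 : ∫ ζ in ball (0 : ℂ) ρ, R.dz (gC (g n)) (R.tr x ζ) *
              R.dzb (R.gext x φ) (R.tr x ζ) =
              ∫ ζ in ball (0 : ℂ) ρ, pw 1 (fun ξ => (g n (R.tr x ξ) : ℂ)) ζ * pwb 1 φ ζ := by
            refine setIntegral_congr_fun measurableSet_ball fun ζ hζ => ?_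
            show R.dz (gC (g n)) (R.tr x ζ) * R.dzb (R.gext x φ) (R.tr x ζ) =
              pw 1 (fun ξ => (g n (R.tr x ξ) : ℂ)) ζ * pwb 1 φ ζ
            rw [green_dzb_gext_tr φ (hlt' hζ)]
            congr 1
            exact R.dw_tr (gC (g n)) 1 (hlt' hζ)
          rw [h3]
          refine setIntegral_eq_integral_of_forall_compl_eq_zero fun ζ hζ => ?_
          have h4 : ζ ∉ tsupport φ := fun h => hζ (hφs h)
          have h5 : pwb 1 φ ζ = 0 := by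
            simp [pwb, greenB_fderiv_zero h4]
          rw [h5, mul_zero]
        · intro y hy
          apply hsup
          by_contra hcon
          apply hy
          rw [green_dzb_gext hφc hφs' hcon, mul_zero]
      have h3 : R.ell y₀ r (R.gext x φ) = ∫ ζ, (R.gB y₀ r (R.tr x ζ) : ℂ) * φ ζ := by
        rw [R.nc_ell_eq y₀ hr hry, R.sint_disc (y₀ := x) (r := ρ) hρx.le]
        · have h3 : ∫ ζ in ball (0 : ℂ) ρ, R.ncExt y₀ (ncW (1 / r ^ 2)) (R.tr x ζ) *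
              R.gext x φ (R.tr x ζ) =
              ∫ ζ in ball (0 : ℂ) ρ, (R.gB y₀ r (R.tr x ζ) : ℂ) * φ ζ := by
            refine setIntegral_congr_fun measurableSet_ball fun ζ hζ => ?_
            show R.ncExt y₀ (ncW (1 / r ^ 2)) (R.tr x ζ) * R.gext x φ (R.tr x ζ) =
              (R.gB y₀ r (R.tr x ζ) : ℂ) * φ ζ
            rw [R.gext_tr φ (hlt' hζ), green_gB_eq]
          rw [h3]
          refine setIntegral_eq_integral_of_forall_compl_eq_zero fun ζ hζ => ?_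
          have h4 : ζ ∉ tsupport φ := fun h => hζ (hφs h)
          rw [image_eq_zero_of_notMem_tsupport h4, mul_zero]
        · intro y hy
          apply hsup
          by_contra hcon
          apply hy
          rw [R.gext_zero hcon, mul_zero]
      rw [← h3]
      exact h1.congr fun n => h2 n)
  obtain ⟨ρ', hρ', hρ'ρ, G, h1, h2, h3, h4⟩ := hkey
  exact ⟨ρ', hρ', hρ'ρ.trans_lt hρx, G, h1, h2, h3, h4⟩

theorem green_int {g : R.carrier → ℝ} (hg : R.RT g) {x : R.carrier} {ρ : ℝ}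
    (hρ : ρ < R.rad x) {G : ℂ → ℝ} (hG : IntegrableOn G (ball 0 ρ)) :
    IntegrableOn (fun ξ => g (R.tr x ξ) - G ξ) (ball 0 ρ) := by
  have h1 : ContinuousOn (fun ξ => g (R.tr x ξ)) (closedBall (0 : ℂ) ρ) := fun ξ hξ =>
    (Smooth.contDiffAt_tr R hg.1 ((mem_closedBall_zero_iff.1 hξ).trans_lt hρ)
      (mem_univ _)).continuousAt.continuousWithinAt
  exact ((h1.integrableOn_compact (isCompact_closedBall _ _)).mono_set
    ball_subset_closedBall).sub hG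

/-- local limits are compatible -/
theorem green_unique {g : ℕ → R.carrier → ℝ} (hg : ∀ n, R.RT (g n)) {x : R.carrier}
    {ρ ρ' : ℝ} {ζ : ℂ} (hρ : ρ < R.rad x) (hζ : ‖ζ‖ < ρ) (hρ' : 0 < ρ')
    (hρ'1 : ρ' < R.rad (R.tr x ζ)) {G G' : ℂ → ℝ}
    (hG : ∀ ξ ∈ ball (0 : ℂ) ρ, ContinuousAt G ξ)
    (hG' : ∀ ξ ∈ ball (0 : ℂ) ρ', ContinuousAt G' ξ)
    (hGi : IntegrableOn G (ball 0 ρ)) (hGi' : IntegrableOn G' (ball 0 ρ'))
    (h : Tendsto (fun n => ∫ ξ in ball (0 : ℂ) ρ, |g n (R.tr x ξ) - G ξ|) atTop (𝓝 0))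
    (h' : Tendsto (fun n => ∫ ξ in ball (0 : ℂ) ρ', |g n (R.tr (R.tr x ζ) ξ) - G' ξ|) atTop
      (𝓝 0)) : G' 0 = G ζ := by
  set η := min ρ' (ρ - ‖ζ‖) with hη
  have hη0 : 0 < η := lt_min hρ' (by linarith)
  have hηρ' : η ≤ ρ' := min_le_left _ _
  have hηρ : η ≤ ρ - ‖ζ‖ := min_le_right _ _
  have hmem : ∀ {ξ : ℂ}, ξ ∈ ball (0 : ℂ) η → ζ + ξ ∈ ball (0 : ℂ) ρ := by
    intro ξ hξ
    rw [mem_ball_zero_iff] at hξ ⊢
    exact (norm_add_le _ _).trans_lt (by linarith)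
  have hmem' : ∀ {ξ : ℂ}, ξ ∈ ball (0 : ℂ) η → ξ ∈ ball (0 : ℂ) ρ' := fun hξ =>
    ball_subset_ball hηρ' hξ
  -- translation
  have htr : ∀ F : ℂ → ℝ, ∫ ξ in ball (0 : ℂ) η, F (ζ + ξ) = ∫ ξ in ball ζ η, F ξ := by
    intro F
    rw [← integral_indicator measurableSet_ball, ← integral_indicator measurableSet_ball,
      ← integral_add_left_eq_self (fun ξ => (ball ζ η).indicator F ξ) ζ]
    congr 1
    funext ξ
    have hiff : ξ ∈ ball (0 : ℂ) η ↔ ζ + ξ ∈ ball ζ η := by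
      rw [mem_ball_zero_iff, mem_ball_iff_norm, add_sub_cancel_left]
    by_cases hξ : ξ ∈ ball (0 : ℂ) η
    · rw [indicator_of_mem hξ, indicator_of_mem (hiff.1 hξ)]
    · rw [indicator_of_notMem hξ, indicator_of_notMem (fun h => hξ (hiff.2 h))]
  have hsub : ball ζ η ⊆ ball (0 : ℂ) ρ := by
    intro ξ hξ
    have h2 : ξ - ζ ∈ ball (0 : ℂ) η := by
      rw [mem_ball_zero_iff]; exact mem_ball_iff_norm.1 hξ
    have := hmem h2
    rwa [add_sub_cancel] at this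
  have hb : ∀ n, ∫ ξ in ball (0 : ℂ) η, |G' ξ - G (ζ + ξ)| ≤
      (∫ ξ in ball (0 : ℂ) ρ', |g n (R.tr (R.tr x ζ) ξ) - G' ξ|) +
        ∫ ξ in ball (0 : ℂ) ρ, |g n (R.tr x ξ) - G ξ| := by
    intro n
    have i1 : IntegrableOn (fun ξ => |g n (R.tr (R.tr x ζ) ξ) - G' ξ|) (ball 0 ρ') :=
      (green_int (hg n) hρ'1 hGi').abs
    have i2 : IntegrableOn (fun ξ => |g n (R.tr x ξ) - G ξ|) (ball 0 ρ) :=
      (green_int (hg n) hρ hGi).abs
    have i3 : IntegrableOn (fun ξ => |g n (R.tr x (ζ + ξ)) - G (ζ + ξ)|) (ball 0 η) := by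
      have i4 := (i2.mono_set hsub).integrable_indicator measurableSet_ball
      have i5 := i4.comp_add_left ζ
      have i6 : IntegrableOn (fun ξ => (ball ζ η).indicator
          (fun ξ => |g n (R.tr x ξ) - G ξ|) (ζ + ξ)) (ball 0 η) := i5.integrableOn
      refine i6.congr_fun (fun ξ hξ => ?_) measurableSet_ball
      have hiff : ζ + ξ ∈ ball ζ η := by
        rw [mem_ball_iff_norm, add_sub_cancel_left]
        exact mem_ball_zero_iff.1 hξ
      show (ball ζ η).indicator (fun ξ => |g n (R.tr x ξ) - G ξ|) (ζ + ξ) = _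
      rw [indicator_of_mem hiff]
    have e1 : ∫ ξ in ball (0 : ℂ) η, |G' ξ - G (ζ + ξ)| ≤
        ∫ ξ in ball (0 : ℂ) η, (|g n (R.tr (R.tr x ζ) ξ) - G' ξ| +
          |g n (R.tr x (ζ + ξ)) - G (ζ + ξ)|) := by
      refine integral_mono_of_nonneg (.of_forall fun _ => abs_nonneg _)
        ((i1.mono_set (ball_subset_ball hηρ')).add i3) ?_
      filter_upwards [ae_restrict_mem measurableSet_ball] with ξ hξ
      have hx1 : ‖ζ‖ < R.rad x := hζ.trans hρ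
      have hx2 : ‖ξ‖ < R.rad (R.tr x ζ) := (mem_ball_zero_iff.1 (hmem' hξ)).trans hρ'1
      have hx3 : ‖ζ + ξ‖ < R.rad x := (mem_ball_zero_iff.1 (hmem hξ)).trans hρ
      rw [R.tr_tr x ζ ξ hx1 hx2 hx3]
      have := abs_sub_le (G' ξ) (g n (R.tr x (ζ + ξ))) (G (ζ + ξ))
      rw [abs_sub_comm (G' ξ) (g n (R.tr x (ζ + ξ)))] at this
      exact this
    have e2 : ∫ ξ in ball (0 : ℂ) η, (|g n (R.tr (R.tr x ζ) ξ) - G' ξ| +
          |g n (R.tr x (ζ + ξ)) - G (ζ + ξ)|) =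
        (∫ ξ in ball (0 : ℂ) η, |g n (R.tr (R.tr x ζ) ξ) - G' ξ|) +
          ∫ ξ in ball (0 : ℂ) η, |g n (R.tr x (ζ + ξ)) - G (ζ + ξ)| :=
      integral_add (i1.mono_set (ball_subset_ball hηρ')) i3
    have e3 : ∫ ξ in ball (0 : ℂ) η, |g n (R.tr (R.tr x ζ) ξ) - G' ξ| ≤
        ∫ ξ in ball (0 : ℂ) ρ', |g n (R.tr (R.tr x ζ) ξ) - G' ξ| :=
      setIntegral_mono_set i1 (.of_forall fun _ => abs_nonneg _)
        (ball_subset_ball hηρ').eventuallyLE
    have e4 : ∫ ξ in ball (0 : ℂ) η, |g n (R.tr x (ζ + ξ)) - G (ζ + ξ)| ≤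
        ∫ ξ in ball (0 : ℂ) ρ, |g n (R.tr x ξ) - G ξ| := by
      rw [htr (fun ξ => |g n (R.tr x ξ) - G ξ|)]
      exact setIntegral_mono_set i2 (.of_forall fun _ => abs_nonneg _) hsub.eventuallyLE
    linarith
  have hlim := h'.add h
  rw [add_zero] at hlim
  have h0 : ∫ ξ in ball (0 : ℂ) η, |G' ξ - G (ζ + ξ)| ≤ 0 :=
    ge_of_tendsto hlim (.of_forall hb)
  have h0' : ∫ ξ in ball (0 : ℂ) η, |G' ξ - G (ζ + ξ)| = 0 :=
    le_antisymm h0 (integral_nonneg fun _ => abs_nonneg _)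
  have hcG : ContinuousOn (fun ξ => G (ζ + ξ)) (ball (0 : ℂ) η) := fun ξ hξ =>
    (ContinuousAt.comp (f := fun ξ => ζ + ξ) (hG _ (hmem hξ)) (by fun_prop)).continuousWithinAt
  have hcG' : ContinuousOn G' (ball (0 : ℂ) η) := fun ξ hξ =>
    (hG' _ (hmem' hξ)).continuousWithinAt
  have hint : IntegrableOn (fun ξ => |G' ξ - G (ζ + ξ)|) (ball (0 : ℂ) η) := by
    have i4 := (hGi.mono_set hsub).integrable_indicator measurableSet_ball
    have i5 := i4.comp_add_left ζ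
    have i6 : IntegrableOn (fun ξ => (ball ζ η).indicator G (ζ + ξ)) (ball 0 η) :=
      i5.integrableOn
    have i7 : IntegrableOn (fun ξ => G (ζ + ξ)) (ball 0 η) := by
      refine i6.congr_fun (fun ξ hξ => ?_) measurableSet_ball
      have hiff : ζ + ξ ∈ ball ζ η := by
        rw [mem_ball_iff_norm, add_sub_cancel_left]
        exact mem_ball_zero_iff.1 hξ
      show (ball ζ η).indicator G (ζ + ξ) = _
      rw [indicator_of_mem hiff]
    exact ((hGi'.mono_set (ball_subset_ball hηρ')).sub i7).abs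
  have hae := (integral_eq_zero_iff_of_nonneg (fun _ => abs_nonneg _) hint).1 h0'
  have hae2 : G' =ᵐ[volume.restrict (ball (0 : ℂ) η)] fun ξ => G (ζ + ξ) := by
    filter_upwards [hae] with ξ hξ
    have : |G' ξ - G (ζ + ξ)| = 0 := hξ
    rw [abs_eq_zero] at this
    linarith
  have heq := Measure.eqOn_of_ae_eq hae2 hcG' hcG
    (by rw [isOpen_ball.interior_eq]; exact subset_closure)
  have := heq (mem_ball_self hη0)
  simpa using this

theorem green_limit_nonneg {g : ℕ → R.carrier → ℝ} (hg : ∀ n, R.RT (g n))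
    (hg0 : ∀ n y, 0 ≤ g n y) {x : R.carrier} {ρ : ℝ} (hρ : ρ < R.rad x) {G : ℂ → ℝ}
    (hG : ∀ ξ ∈ ball (0 : ℂ) ρ, ContinuousAt G ξ) (hGi : IntegrableOn G (ball 0 ρ))
    (h : Tendsto (fun n => ∫ ξ in ball (0 : ℂ) ρ, |g n (R.tr x ξ) - G ξ|) atTop (𝓝 0))
    {ζ : ℂ} (hζ : ζ ∈ ball (0 : ℂ) ρ) : 0 ≤ G ζ := by
  have hi : IntegrableOn (fun ξ => max (-G ξ) 0) (ball (0 : ℂ) ρ) :=
    Integrable.sup hGi.neg (integrable_zero _ _ _)
  have hb : ∀ n, ∫ ξ in ball (0 : ℂ) ρ, max (-G ξ) 0 ≤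
      ∫ ξ in ball (0 : ℂ) ρ, |g n (R.tr x ξ) - G ξ| := by
    intro n
    refine integral_mono hi (green_int (hg n) hρ hGi).abs fun ξ => ?_
    refine max_le ?_ (abs_nonneg _)
    have h1 := hg0 n (R.tr x ξ)
    have h2 := le_abs_self (g n (R.tr x ξ) - G ξ)
    linarith
  have h0 : ∫ ξ in ball (0 : ℂ) ρ, max (-G ξ) 0 ≤ 0 := ge_of_tendsto h (.of_forall hb)
  have h0' : ∫ ξ in ball (0 : ℂ) ρ, max (-G ξ) 0 = 0 :=
    le_antisymm h0 (integral_nonneg fun _ => le_max_right _ _)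
  have hae := (integral_eq_zero_iff_of_nonneg (fun _ => le_max_right _ _) hi).1 h0'
  have hc0 : ContinuousOn G (ball (0 : ℂ) ρ) := fun ξ hξ => (hG ξ hξ).continuousWithinAt
  have hc : ContinuousOn (fun ξ => max (-G ξ) 0) (ball (0 : ℂ) ρ) :=
    hc0.neg.sup continuousOn_const
  have heq := Measure.eqOn_of_ae_eq hae hc continuousOn_const
    (by rw [isOpen_ball.interior_eq]; exact subset_closure)
  have h3 := heq hζ
  have h4 : max (-G ζ) 0 = 0 := h3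
  have h5 := le_max_left (-G ζ) 0
  linarith

/-- positive capacity: version for small bumps -/
theorem green_main {r : ℝ} (hr : 0 < r) (hr1 : 4 * r ≤ R.rad y₀)
    (hN : BddAbove (R.NSet univ 0 y₀ r)) :
    ∃ G : R.carrier → ℝ, R.Smooth G univ ∧ (∀ y, 0 ≤ G y) ∧
      (∀ y, R.levi 1 G y ≤ 0) ∧ ∃ ζ : ℂ, ‖ζ‖ < r ∧ R.levi 1 G (R.tr y₀ ζ) < 0 := by
  classical
  have hry : r < R.rad y₀ := by linarith
  obtain ⟨g, hg, hg0, hC, hE⟩ := greenV_min y₀ hr hry hN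
  choose ρ hρ hρx G hG hGl hGi hlim using
    fun (x : R.carrier) (hx : R.Reach y₀ x) => green_local y₀ hr hr1 hg hC hE hx
  set GG : R.carrier → ℝ := fun x => if hx : R.Reach y₀ x then G x hx 0 else 0 with hGG
  have hGG1 : ∀ {x : R.carrier} (hx : R.Reach y₀ x), GG x = G x hx 0 := by
    intro x hx
    rw [hGG]; simp only [dif_pos hx]
  have hcont : ∀ (x : R.carrier) (hx : R.Reach y₀ x), ∀ ξ ∈ ball (0 : ℂ) (ρ x hx),
      ContinuousAt (G x hx) ξ := fun x hx ξ hξ => (hG x hx ξ hξ).continuousAt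
  -- compatibility
  have hcomp : ∀ (x : R.carrier) (hx : R.Reach y₀ x), ∀ ζ ∈ ball (0 : ℂ) (ρ x hx),
      GG (R.tr x ζ) = G x hx ζ := by
    intro x hx ζ hζ
    have hζ1 : ‖ζ‖ < ρ x hx := mem_ball_zero_iff.1 hζ
    have hy : R.Reach y₀ (R.tr x ζ) := Relation.ReflTransGen.tail hx
      ⟨ζ, hζ1.trans (hρx x hx), rfl⟩
    rw [hGG1 hy]
    exact green_unique hg (hρx x hx) hζ1 (hρ _ hy) (hρx _ hy) (hcont x hx) (hcont _ hy)
      (hGi x hx) (hGi _ hy) (hlim x hx) (hlim _ hy)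
  have hev : ∀ (x : R.carrier) (hx : R.Reach y₀ x),
      (fun v => GG (R.tr x v)) =ᶠ[𝓝 0] G x hx := by
    intro x hx
    filter_upwards [ball_mem_nhds (0 : ℂ) (hρ x hx)] with v hv
    exact hcomp x hx v hv
  have hev0 : ∀ (x : R.carrier), ¬ R.Reach y₀ x →
      (fun v => GG (R.tr x v)) =ᶠ[𝓝 0] fun _ => 0 := by
    intro x hx
    have hopen : {e | R.Reach y₀ e}ᶜ ∈ 𝓝 x :=
      (R.isClopen_reach y₀).1.isOpen_compl.mem_nhds hx
    filter_upwards [R.green_tendsto_tr x hopen] with v hv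
    have hv' : ¬ R.Reach y₀ (R.tr x v) := hv
    rw [hGG]; simp only [dif_neg hv']
  have hsm : R.Smooth GG univ := by
    intro x _
    by_cases hx : R.Reach y₀ x
    · exact (hG x hx 0 (mem_ball_self (hρ x hx))).congr_of_eventuallyEq (hev x hx)
    · exact contDiffAt_const.congr_of_eventuallyEq (hev0 x hx)
  have hplevi : ∀ {F F' : ℂ → ℝ}, F =ᶠ[𝓝 0] F' → plevi 1 F 0 = plevi 1 F' 0 := by
    intro F F' hF
    have h1 : (fun x => (F x : ℂ)) =ᶠ[𝓝 0] fun x => (F' x : ℂ) := by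
      filter_upwards [hF] with v hv
      rw [hv]
    unfold plevi
    rw [(greenB_pw_congr (greenB_pwb_congr h1)).eq_of_nhds]
  have hlev : ∀ (x : R.carrier), R.Reach y₀ x → R.levi 1 GG x = - R.gB y₀ r x := by
    intro x hx
    rw [R.levi_eq, hplevi (hev x hx), hGl x hx 0 (mem_ball_self (hρ x hx)), R.tr_zero]
  have hlev0 : ∀ (x : R.carrier), ¬ R.Reach y₀ x → R.levi 1 GG x = 0 := by
    intro x hx
    have h0 : pwb (1 : ℂ) (fun _ : ℂ => ((0 : ℝ) : ℂ)) = fun _ => 0 := by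
      funext z
      simp [pwb]
    rw [R.levi_eq, hplevi (hev0 x hx)]
    unfold plevi
    rw [h0]
    simp [pw]
  refine ⟨GG, hsm, fun x => ?_, fun x => ?_, ?_⟩
  · by_cases hx : R.Reach y₀ x
    · rw [hGG1 hx]
      exact green_limit_nonneg hg hg0 (hρx x hx) (hcont x hx) (hGi x hx) (hlim x hx)
        (mem_ball_self (hρ x hx))
    · rw [hGG]; simp only [dif_neg hx]; exact le_rfl
  · by_cases hx : R.Reach y₀ x
    · rw [hlev x hx]
      have := R.green_gB_nonneg y₀ r x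
      linarith
    · rw [hlev0 x hx]
  · obtain ⟨ζ, hζ, hpos⟩ := R.green_gB_pos y₀ hr hry
    refine ⟨ζ, hζ, ?_⟩
    rw [hlev _ (Relation.ReflTransGen.single ⟨ζ, hζ.trans hry, rfl⟩)]
    linarith

variable (R)

/-- positive capacity: there is a bounded smooth superharmonic function which is not harmonic -/
theorem exists_green {r : ℝ} (hr : 0 < r) (hr1 : r < R.rad y₀)
    (hN : BddAbove (R.NSet univ 0 y₀ r)) :
    ∃ G : R.carrier → ℝ, R.Smooth G univ ∧ (∃ C : ℝ, ∀ y, |G y| ≤ C) ∧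
      (∀ y, R.levi 1 G y ≤ 0) ∧ ∃ ζ : ℂ, ‖ζ‖ < r ∧ R.levi 1 G (R.tr y₀ ζ) < 0 := by
  set r' := min r (R.rad y₀ / 4) with hr'
  have hr'0 : 0 < r' := lt_min hr (by linarith [R.rad_pos y₀])
  have hr'r : r' ≤ r := min_le_left _ _
  have hr'4 : 4 * r' ≤ R.rad y₀ := by
    have := min_le_right r (R.rad y₀ / 4)
    linarith
  have hN' : BddAbove (R.NSet univ 0 y₀ r') := by
    obtain ⟨B, hB⟩ := hN
    exact ⟨_, fun t ht => R.norm_change y₀ hr'0 hr'r hr1 (fun t ht => hB ht) t ht⟩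
  obtain ⟨G, hG, hG0, hG1, ζ, hζ, hG2⟩ := green_main y₀ hr'0 hr'4 hN'
  have hT : ContDiff ℝ ∞ (fun s : ℝ => -Real.exp (-s)) :=
    (Real.contDiff_exp.comp contDiff_neg).neg
  have hd : deriv (fun s : ℝ => -Real.exp (-s)) = fun s => Real.exp (-s) := by
    funext s
    have h1 : HasDerivAt (fun s : ℝ => -Real.exp (-s)) (-(Real.exp (-s) * (-1))) s :=
      ((hasDerivAt_neg s).exp).neg
    rw [h1.deriv]; ring
  have hd2 : deriv (deriv (fun s : ℝ => -Real.exp (-s))) = fun s => -Real.exp (-s) := by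
    rw [hd]
    funext s
    have h1 : HasDerivAt (fun s : ℝ => Real.exp (-s)) (Real.exp (-s) * (-1)) s :=
      (hasDerivAt_neg s).exp
    rw [h1.deriv]; ring
  have hlev : ∀ y, R.levi 1 (fun y => -Real.exp (-G y)) y =
      Real.exp (-G y) * R.levi 1 G y +
        (-Real.exp (-G y)) * ‖R.dw 1 (fun x => (G x : ℂ)) y‖ ^ 2 := by
    intro y
    have h1 := R.levi_comp isOpen_univ hG hT (mem_univ y) 1
    rw [hd2, hd] at h1
    exact h1
  refine ⟨fun y => -Real.exp (-G y), fun e he => ?_, ⟨1, fun y => ?_⟩, fun y => ?_, ζ,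
    hζ.trans_le hr'r, ?_⟩
  · exact ContDiffAt.comp (g := fun s : ℝ => -Real.exp (-s)) (0 : ℂ)
      (hT.contDiffAt (x := G (R.tr e 0))) (hG e he)
  · rw [abs_neg, abs_of_pos (Real.exp_pos _)]
    exact Real.exp_le_one_iff.2 (by linarith [hG0 y])
  · rw [hlev y]
    have h1 := Real.exp_pos (-G y)
    have h2 := hG1 y
    have h3 := sq_nonneg ‖R.dw 1 (fun x => (G x : ℂ)) y‖
    nlinarith
  · rw [hlev]
    have h1 := Real.exp_pos (-G (R.tr y₀ ζ))
    have h3 := sq_nonneg ‖R.dw 1 (fun x => (G x : ℂ)) (R.tr y₀ ζ)‖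
    nlinarith

end RD

end Pool.Agent.ParLeaf
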