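import Pool.Agent.H.MP_3a36cd_an.Zero
import Pool.Agent.H.MP_3a36cd_an.Exc
import Pool.Agent.H.MP_3a36cd_an.Green

/-! MP_3a36cd_an, module Key3: parabolic implies capacity zero off the exceptional set. -/

open Set Metric Filter Topology Complex Real
open scoped ContDiff

namespace Pool.Agent.ParLeaf

section Key3Aux

theorem key3_pwb_congr {F G : ℂ → ℂ} {x : ℂ} (h : F =ᶠ[𝓝 x] G) (w : ℂ) :
    pwb w F =ᶠ[𝓝 x] pwb w G := by
  filter_upwards [h.fderiv (𝕜 := ℝ)] with y hy
  simp only [pwb, hy]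

theorem key3_pw_congr {F G : ℂ → ℂ} {x : ℂ} (h : F =ᶠ[𝓝 x] G) (w : ℂ) :
    pw w F x = pw w G x := by
  simp only [pw, (h.fderiv (𝕜 := ℝ)).eq_of_nhds]

theorem key3_plevi_congr {f g : ℂ → ℝ} {x : ℂ} (h : f =ᶠ[𝓝 x] g) (w : ℂ) :
    plevi w f x = plevi w g x := by
  have h1 : (fun y => (f y : ℂ)) =ᶠ[𝓝 x] fun y => (g y : ℂ) := by
    filter_upwards [h] with y hy
    rw [hy]
  simp only [plevi, key3_pw_congr (key3_pwb_congr h1 w) w]

/-- second derivative of a composition with a holomorphic function -/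
theorem key3_second {h : ℂ → ℝ} {k : ℂ → ℂ} {x : ℂ} (hh : ContDiffAt ℝ 2 h (k x))
    (hk : AnalyticAt ℂ k x) (w : ℂ) :
    fderiv ℝ (fderiv ℝ (fun s => h (k s))) x w w =
      fderiv ℝ (fderiv ℝ h) (k x) (deriv k x * w) (deriv k x * w) +
        fderiv ℝ h (k x) (deriv (deriv k) x * w * w) := by
  have hk2 : ContDiffAt ℝ 2 k x := by
    have : ContDiffAt ℂ 2 k x := hk.contDiffAt
    exact this.restrict_scalars ℝ
  have hf2 : ContDiffAt ℝ 2 (fun s => h (k s)) x := hh.comp x hk2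
  have hD : ∀ {g : ℂ → ℝ} {y : ℂ}, ContDiffAt ℝ 2 g y → DifferentiableAt ℝ (fderiv ℝ g) y := by
    intro g y hg
    exact (hg.fderiv_right (m := 1) (by norm_num)).differentiableAt (by norm_num)
  have hkd : ∀ᶠ s in 𝓝 x, HasDerivAt k (deriv k s) s := by
    filter_upwards [hk.eventually_analyticAt] with s hs
    exact hs.differentiableAt.hasDerivAt
  have hkd' : HasDerivAt (deriv k) (deriv (deriv k) x) x := hk.deriv.differentiableAt.hasDerivAt
  have hhd : ∀ᶠ y in 𝓝 (k x), DifferentiableAt ℝ h y := by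
    filter_upwards [hh.eventually (by simp)] with y hy
    exact hy.differentiableAt (by norm_num)
  have hev : (fun s => fderiv ℝ (fun s => h (k s)) s w) =ᶠ[𝓝 x]
      fun s => fderiv ℝ h (k s) (deriv k s * w) := by
    filter_upwards [hkd, hk.continuousAt.eventually hhd] with s hs1 hs2
    have h1 : HasFDerivAt k ((ContinuousLinearMap.toSpanSingleton ℂ (deriv k s)).restrictScalars ℝ) s :=
      hs1.hasFDerivAt.restrictScalars ℝ
    have h2 := hs2.hasFDerivAt.comp s h1
    rw [show (fun s => h (k s)) = h ∘ k from rfl, h2.fderiv]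
    simp [mul_comm]
  have h3 : fderiv ℝ (fderiv ℝ (fun s => h (k s))) x w w =
      fderiv ℝ (fun s => fderiv ℝ (fun s => h (k s)) s w) x w := by
    rw [fderiv_clm_apply (hD hf2) (differentiableAt_const w)]
    simp
  rw [h3, hev.fderiv_eq]
  have h4 : HasFDerivAt k ((ContinuousLinearMap.toSpanSingleton ℂ (deriv k x)).restrictScalars ℝ) x :=
    hkd.self_of_nhds.hasFDerivAt.restrictScalars ℝ
  have h5 : HasFDerivAt (fun s => deriv k s * w)
      ((ContinuousLinearMap.toSpanSingleton ℂ (deriv (deriv k) x * w)).restrictScalars ℝ) x :=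
    (hkd'.mul_const w).hasFDerivAt.restrictScalars ℝ
  have h6 := (hD hh).hasFDerivAt.comp x h4
  have h7 := h6.clm_apply h5
  have h8 : (fun s => fderiv ℝ h (k s) (deriv k s * w)) =
      fun s => ((fderiv ℝ h) ∘ k) s (deriv k s * w) := rfl
  rw [h8, h7.fderiv]
  simp only [add_apply, ContinuousLinearMap.comp_apply, Function.comp_apply,
    ContinuousLinearMap.flip_apply, ContinuousLinearMap.coe_restrictScalars',
    ContinuousLinearMap.toSpanSingleton_apply, smul_eq_mul]
  rw [add_comm]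
  congr 2
  · rw [mul_comm w]
  · ring

theorem key3_plevi_comp {h : ℂ → ℝ} {k : ℂ → ℂ} {x : ℂ} (hh : ContDiffAt ℝ 2 h (k x))
    (hk : AnalyticAt ℂ k x) :
    plevi 1 (fun s => h (k s)) x = ‖deriv k x‖ ^ 2 * plevi 1 h (k x) := by
  have hk2 : ContDiffAt ℝ 2 k x := by
    have : ContDiffAt ℂ 2 k x := hk.contDiffAt
    exact this.restrict_scalars ℝ
  have hf2 : ContDiffAt ℝ 2 (fun s => h (k s)) x := hh.comp x hk2
  rw [plevi_eq hf2, plevi_eq hh, key3_second hh hk, key3_second hh hk]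
  set D := fderiv ℝ (fderiv ℝ h) (k x)
  set a := (deriv k x).re with ha
  set b := (deriv k x).im with hb
  have hab : deriv k x = a • (1 : ℂ) + b • I := by
    apply Complex.ext <;> simp [ha, hb]
  have hab' : deriv k x * I = (-b) • (1 : ℂ) + a • I := by
    apply Complex.ext <;> simp [ha, hb]
  have hn : ‖deriv k x‖ ^ 2 = a ^ 2 + b ^ 2 := by
    rw [Complex.sq_norm, Complex.normSq_apply]; ring
  have h1 : deriv (deriv k) x * I • (1 : ℂ) * I • (1 : ℂ) = - (deriv (deriv k) x * 1 * 1) := by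
    simp only [smul_eq_mul, mul_one]
    rw [mul_assoc, I_mul_I]; ring
  rw [h1, map_neg, hn]
  simp only [smul_eq_mul, mul_one, hab']
  rw [hab]
  simp only [map_add, map_smul, add_apply, smul_apply,
    smul_eq_mul]
  ring

theorem key3_plevi_tr (R : RD ℂ) (ρ : R.carrier → ℝ) {y : R.carrier} {v : ℂ} (hv : ‖v‖ < R.rad y) :
    plevi 1 (fun v' => ρ (R.tr y v')) v = R.levi 1 ρ (R.tr y v) := by
  have h1 : (fun v' => R.dwb 1 (fun e => (ρ e : ℂ)) (R.tr y v')) =ᶠ[𝓝 v]
      pwb 1 (fun v' => (ρ (R.tr y v') : ℂ)) := by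
    filter_upwards [(isOpen_lt continuous_norm continuous_const).mem_nhds hv] with v' hv'
    exact R.dwb_tr (fun e => (ρ e : ℂ)) 1 hv'
  rw [RD.levi, R.dw_tr _ 1 hv, key3_pw_congr h1]
  rfl

theorem key3_map_nhdsNE {θ : ℂ → ℂ} {a s : ℂ} (ha : a ≠ 0) (h : HasStrictDerivAt θ a s) :
    map θ (𝓝[≠] s) = 𝓝[≠] (θ s) := by
  apply le_antisymm
  · exact h.hasDerivAt.tendsto_nhdsNE ha
  · intro W hW
    rw [mem_map, mem_nhdsWithin_iff_exists_mem_nhds_inter] at hW
    obtain ⟨U, hU, hUW⟩ := hW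
    have h1 : θ '' U ∈ 𝓝 (θ s) := by
      rw [← h.map_nhds_eq ha]
      exact image_mem_map hU
    rw [mem_nhdsWithin_iff_exists_mem_nhds_inter]
    refine ⟨θ '' U, h1, ?_⟩
    rintro _ ⟨⟨x, hx, rfl⟩, hne⟩
    apply hUW
    refine ⟨hx, fun hxs => hne ?_⟩
    rw [mem_singleton_iff] at hxs
    rw [hxs, mem_singleton_iff]

theorem key3_abs_limsup_le {f : ℂ → ℝ} {C : ℝ} (h : ∀ x, |f x| ≤ C) (F : Filter ℂ) [F.NeBot] :
    |limsup f F| ≤ C := by
  have h1 : IsBoundedUnder (· ≤ ·) F f := ⟨C, by simpa using .of_forall fun x => (abs_le.mp (h x)).2⟩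
  have h2 : IsBoundedUnder (· ≥ ·) F f := ⟨-C, by simpa using .of_forall fun x => (abs_le.mp (h x)).1⟩
  rw [abs_le]
  constructor
  · exact le_limsup_of_frequently_le (.of_forall fun x => (abs_le.mp (h x)).1) h1
  · exact limsup_le_of_le h2.isCoboundedUnder_le (.of_forall fun x => (abs_le.mp (h x)).2)

end Key3Aux
namespace SolDomain

variable {P Q : ℂ × ℂ → ℂ} (D : SolDomain P Q) (hP : Differentiable ℂ P) (hQ : Differentiable ℂ Q)

theorem key3_P_kap {p : ℂ × ℂ} (y : (D.M.Fib p).carrier) : P (D.kap y.1) ≠ 0 := by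
  have h := (D.sol_fib y 0 (by simpa using D.M.rad_pos y.1)).1
  rw [(D.M.Fib p).tr_zero, add_zero] at h
  exact h

/-- K3 -/
theorem zero_of_parabolic (p : ℂ × ℂ) (hp : P p ≠ 0) (h : ParabolicAt P Q p)
    (he : p ∉ D.Exc hP hQ) : D.Zero hP hQ p hp := by
  by_contra hZ
  have hN : BddAbove (D.M.NSetM univ 0 (D.M.rad (D.base hP hQ p hp) / 2) (D.base hP hQ p hp)) := by
    by_contra hcon
    exact hZ hcon
  have hrad := D.M.rad_pos (D.base hP hQ p hp)
  set e := D.base hP hQ p hp with hedef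
  have hkap : D.kap e = p := D.kap_base hP hQ p hp
  set R : RD ℂ := D.M.Fib (D.M.pr e).2 with hR
  set y₀ : R.carrier := ⟨e, rfl⟩ with hy₀
  have hr0 : 0 < D.M.rad e / 2 := by linarith
  have hr1 : D.M.rad e / 2 < R.rad y₀ := by
    show D.M.rad e / 2 < D.M.rad e
    linarith
  obtain ⟨G, hGs, ⟨C, hC⟩, hGl, ζ, hζ, hGζ⟩ := R.exists_green y₀ hr0 hr1 hN
  have hC0 : 0 ≤ C := (abs_nonneg _).trans (hC y₀)
  -- injectivity of `kap` on the reachable points
  have hinj : ∀ y y' : R.carrier, R.Reach y₀ y → R.Reach y₀ y' → D.kap y.1 = D.kap y'.1 →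
      y = y' := by
    intro y y' h1 h2 h3
    by_contra hne
    exact he ⟨hp, y, y', h1, h2, h3, hne⟩
  have hstep : ∀ (y : R.carrier) (v : ℂ), R.Reach y₀ y → ‖v‖ < R.rad y →
      R.Reach y₀ (R.tr y v) := fun y v hy hv => hy.tail ⟨v, hv, rfl⟩
  classical
  -- the function away from the zeros of `P`
  obtain ⟨v0, hv0def⟩ : ∃ v0 : ℂ × ℂ → ℝ, ∀ q, v0 q =
      if h : ∃ y : R.carrier, R.Reach y₀ y ∧ D.kap y.1 = q then - G h.choose else 0 := ⟨_, fun _ => rfl⟩
  have hv0 : ∀ y : R.carrier, R.Reach y₀ y → v0 (D.kap y.1) = - G y := by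
    intro y hy
    have hex : ∃ y' : R.carrier, R.Reach y₀ y' ∧ D.kap y'.1 = D.kap y.1 := ⟨y, hy, rfl⟩
    rw [hv0def, dif_pos hex, hinj _ y hex.choose_spec.1 hy hex.choose_spec.2]
  have hv0b : ∀ q, |v0 q| ≤ C := by
    intro q
    rw [hv0def]
    split_ifs with hex
    · rw [abs_neg]; exact hC _
    · simpa using hC0
  -- the function
  obtain ⟨v, hvdef⟩ : ∃ v : ℂ × ℂ → ℝ, ∀ q, v q =
      if P q ≠ 0 then v0 q else
        if h : (P q, Q q) ≠ 0 then
          limsup (fun s => v0 ((exists_leafDisc hP hQ h).choose s)) (𝓝[≠] 0)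
        else 0 := ⟨_, fun _ => rfl⟩
  have hv1 : ∀ q, P q ≠ 0 → v q = v0 q := fun q hq => by rw [hvdef, if_pos hq]
  have hvb : ∀ q, |v q| ≤ C := by
    intro q
    rw [hvdef]
    split_ifs with h1 h2
    · exact hv0b q
    · exact key3_abs_limsup_le (fun s => hv0b _) _
    · simpa using hC0
  have hsub : LeafSubharmonic P Q (Leaf P Q p) v := by
    intro φ c r hφ hL
    have hPφ : ∀ s ∈ ball c r, ContinuousAt φ s := by
      intro s hs
      obtain ⟨a, -, ha⟩ := (hφ s hs).2
      exact ha.continuousAt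
    refine subharmonicOn_of_isolated isOpen_ball (A := {s | P (φ s) = 0}) (fun z _ => hvb (φ z))
      (fun x hx => leaf_isolated hP hQ hp hφ hL hx) ?_ ?_
    · -- regular points
      intro x hx hxA
      have hxP : P (φ x) ≠ 0 := hxA
      have hxL : φ x ∈ Leaf P Q (D.kap e) := by
        rw [hkap]; exact hL ⟨x, hx, rfl⟩
      obtain ⟨y, hy, hyx⟩ := D.exists_over hP hQ hxL hxP
      have hyr : 0 < R.rad y := R.rad_pos y
      have hev1 := D.leafDisc_eq_kap hP hQ y hφ hx hyx.symm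
      have hk0 : ContinuousAt (fun s => (φ s).1 - (φ x).1) x :=
        ((continuous_fst.continuousAt).comp (hPφ x hx)).sub continuousAt_const
      have hev2 : ∀ᶠ s in 𝓝 x, ‖(φ s).1 - (φ x).1‖ < R.rad y := by
        apply hk0.norm.eventually_lt continuousAt_const
        simpa using hyr
      have hev3 : ∀ᶠ s in 𝓝 x, P (φ s) ≠ 0 :=
        ContinuousAt.eventually_ne ((hP.continuous.continuousAt).comp (hPφ x hx)) hxP
      have hev4 : ∀ᶠ s in 𝓝 x, s ∈ ball c r := isOpen_ball.mem_nhds hx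
      obtain ⟨σ, hσ, hall⟩ := Metric.eventually_nhds_iff_ball.mp
        (hev1.and (hev2.and (hev3.and hev4)))
      refine ⟨σ, hσ, fun s hs => ⟨(hall s hs).2.2.2, (hall s hs).2.2.1⟩, ?_⟩
      -- the formula
      set k : ℂ → ℂ := fun s => (φ s).1 - (φ x).1 with hkdef
      have hform : ∀ s ∈ ball x σ, v (φ s) = - G (R.tr y (k s)) := by
        intro s hs
        obtain ⟨h1, h2, h3, h4⟩ := hall s hs
        rw [hv1 _ h3, h1]
        exact hv0 _ (hstep y _ hy h2)
      have hkan : AnalyticOnNhd ℂ k (ball x σ) := by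
        apply DifferentiableOn.analyticOnNhd _ isOpen_ball
        intro s hs
        obtain ⟨a, -, ha⟩ := (hφ s (hall s hs).2.2.2).2
        have h1 : DifferentiableAt ℂ k s :=
          (((hasFDerivAt_fst (𝕜 := ℂ) (p := φ s)).comp_hasDerivAt s ha).differentiableAt).sub_const _
        exact h1.differentiableWithinAt
      have hGy : ∀ w : ℂ, ‖w‖ < R.rad y → ContDiffAt ℝ ∞ (fun w' => - G (R.tr y w')) w := by
        intro w hw
        exact (hGs.contDiffAt_tr (R := R) hw (mem_univ _)).neg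
      have hcomp : ∀ s ∈ ball x σ, (fun s => v (φ s)) =ᶠ[𝓝 s] fun s => - G (R.tr y (k s)) := by
        intro s hs
        filter_upwards [isOpen_ball.mem_nhds hs] with s' hs'
        exact hform s' hs'
      refine subharmonicOn_of_contDiff isOpen_ball ?_ ?_
      · intro s hs
        refine ContDiffAt.congr_of_eventuallyEq ?_ (hcomp s hs)
        have h1 : ContDiffAt ℝ 3 k s := by
          have : ContDiffAt ℂ 3 k s := (hkan s hs).contDiffAt
          exact this.restrict_scalars ℝ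
        exact ContDiffAt.comp (x := s) (g := fun w' => - G (R.tr y w')) (f := k)
          ((hGy (k s) (hall s hs).2.1).of_le (by norm_cast)) h1
      · intro s hs
        rw [key3_plevi_congr (show (v ∘ φ) =ᶠ[𝓝 s] _ from hcomp s hs)]
        rw [key3_plevi_comp (h := fun w' => - G (R.tr y w')) (k := k)
          ((hGy (k s) (hall s hs).2.1).of_le (by norm_cast)) (hkan s hs)]
        refine mul_nonneg (by positivity) ?_
        rw [key3_plevi_tr R (fun y => - G y) (hall s hs).2.1]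
        have h1 : (fun y => - G y) = fun y => (-1 : ℝ) * G y := by
          funext y; ring
        rw [h1, R.levi_const_mul isOpen_univ hGs (mem_univ _)]
        have := hGl (R.tr y (k s))
        linarith
    · -- singular points
      rintro x ⟨hx, hxA⟩
      have hxP : P (φ x) = 0 := hxA
      have hne : (P (φ x), Q (φ x)) ≠ 0 := (hφ x hx).1
      have hch := (exists_leafDisc hP hQ hne).choose_spec
      set ψ := (exists_leafDisc hP hQ hne).choose with hψ
      obtain ⟨r', hr', hψd, hψ0⟩ := hch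
      obtain ⟨θ, a, ha, hθ, hθ0, hθe⟩ := leafDisc_reparam hP hQ hφ hψd hx
        (mem_ball_self hr') hψ0.symm
      have h1 : v (φ x) = limsup (fun s => v0 (ψ s)) (𝓝[≠] 0) := by
        rw [hvdef, if_neg (by simpa using hxP), dif_pos hne]
      have h2 : limsup (fun s => v0 (ψ s)) (𝓝[≠] 0) = limsup (fun s => v0 (φ (θ s))) (𝓝[≠] 0) := by
        apply limsup_congr
        filter_upwards [hθe.filter_mono nhdsWithin_le_nhds] with s hs
        rw [hs]
      have h3 : limsup (fun s => v0 (φ (θ s))) (𝓝[≠] 0) = limsup (fun s => v0 (φ s)) (𝓝[≠] x) := by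
        have h4 := key3_map_nhdsNE ha hθ
        rw [hθ0] at h4
        rw [← h4]
        rfl
      have h5 : limsup (fun s => v0 (φ s)) (𝓝[≠] x) = limsup (v ∘ φ) (𝓝[≠] x) := by
        apply limsup_congr
        filter_upwards [leaf_isolated hP hQ hp hφ hL hx] with s hs
        exact (hv1 _ hs).symm
      show v (φ x) = _
      rw [h1, h2, h3, h5]
  -- conclusion
  have hconst := h v ⟨C, fun q _ => hvb q⟩ hsub
  have hGconst : ∀ y : R.carrier, R.Reach y₀ y → G y = G y₀ := by
    intro y hy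
    have h1 : D.kap y.1 ∈ Leaf P Q p := by
      have := D.kap_mem_leaf hy
      rwa [hkap] at this
    have h2 : D.kap y₀.1 ∈ Leaf P Q p := by
      show D.kap e ∈ Leaf P Q p
      rw [hkap]
      exact Relation.ReflTransGen.refl
    have h3 := hconst _ h1 _ h2
    rw [hv1 _ (D.key3_P_kap y), hv1 _ (D.key3_P_kap y₀), hv0 y hy,
      hv0 y₀ Relation.ReflTransGen.refl] at h3
    linarith
  have hζ' : R.Reach y₀ (R.tr y₀ ζ) := hstep y₀ ζ Relation.ReflTransGen.refl (hζ.trans hr1)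
  rw [R.levi_eq] at hGζ
  have hcst : (fun w => G (R.tr (R.tr y₀ ζ) w)) =ᶠ[𝓝 0] fun _ => G y₀ := by
    have : ∀ᶠ w : ℂ in 𝓝 0, ‖w‖ < R.rad (R.tr y₀ ζ) := by
      apply continuous_norm.continuousAt.eventually_lt continuousAt_const
      simpa using R.rad_pos _
    filter_upwards [this] with w hw
    exact hGconst _ (hstep _ w hζ' hw)
  rw [key3_plevi_congr hcst] at hGζ
  have : plevi 1 (fun _ : ℂ => G y₀) 0 = 0 := by
    have h1 : pwb (1 : ℂ) (fun _ : ℂ => ((G y₀ : ℝ) : ℂ)) = fun _ => 0 := by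
      funext x
      simp [pwb]
    simp [plevi, h1, pw]
  linarith

end SolDomain

end Pool.Agent.ParLeaf
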