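import Pool.Agent.H.MP_3a36cd_an.Polar3a

/-! MP_3a36cd_an, auxiliary module for Polar3: weighted logarithms and their infimum. -/

open Set Metric Filter Topology Complex MeasureTheory Real

namespace Pool.Agent.ParLeaf

theorem polar3_ci {f : ℂ → ℝ} (hf : Continuous f) : CircleIntegrable f 0 1 :=
  hf.continuousOn.circleIntegrable'

theorem polar3_avg_sq (α β : ℂ) :
    ‖α‖ ^ 2 ≤ circleAverage (fun ζ : ℂ => ‖α + ζ * β‖ ^ 2) 0 1 := by
  set L : ℂ → ℂ := fun ζ => ((‖α‖ ^ 2 + ‖β‖ ^ 2 : ℝ) : ℂ) + 2 * (starRingEnd ℂ α * β) * ζ with hL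
  have hLd : Differentiable ℂ L := by fun_prop
  have h1 : circleAverage (fun ζ : ℂ => ‖α + ζ * β‖ ^ 2) 0 1
      = circleAverage (Complex.reCLM ∘ L) 0 1 := by
    apply circleAverage_congr_sphere
    intro z hz
    have hz1 : ‖z‖ = 1 := by simpa using hz
    have hz2 : normSq z = 1 := by rw [Complex.normSq_eq_norm_sq, hz1]; norm_num
    simp only [hL, Function.comp_apply, Complex.reCLM_apply]
    rw [Complex.sq_norm, Complex.normSq_add, Complex.normSq_mul, hz2, one_mul,
      Complex.sq_norm, Complex.sq_norm]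
    simp only [Complex.add_re, Complex.ofReal_re, Complex.mul_re, Complex.mul_im, Complex.conj_re,
      Complex.conj_im, map_mul]
    simp
    ring
  have h2 : CircleIntegrable L 0 1 := hLd.continuous.continuousOn.circleIntegrable'
  rw [h1, ContinuousLinearMap.circleAverage_comp_comm _ h2]
  have h3 : circleAverage L 0 1 = L 0 :=
    DiffContOnCl.circleAverage (hLd.diffContOnCl)
  rw [h3]
  simp only [hL, Complex.reCLM_apply, mul_zero, add_zero, Complex.ofReal_re]
  have := sq_nonneg ‖β‖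
  linarith

/-- the weight -/
noncomputable def polar3h (c : ℂ) (x : ℂ × ℂ) : ℝ := ‖x.1 - c‖ ^ 2 + ‖x.2‖ ^ 2 + 2

theorem polar3h_continuous (c : ℂ) : Continuous (polar3h c) := by
  unfold polar3h; fun_prop

theorem polar3h_pos (c : ℂ) (x : ℂ × ℂ) : 0 < polar3h c x := by
  unfold polar3h; positivity

theorem polar3h_avg (c : ℂ) (a b : ℂ × ℂ) :
    polar3h c a ≤ circleAverage (fun ζ : ℂ => polar3h c (a + ζ • b)) 0 1 := by
  have h1 := polar3_avg_sq (a.1 - c) b.1
  have h2 := polar3_avg_sq a.2 b.2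
  have e : (fun ζ : ℂ => polar3h c (a + ζ • b)) = fun ζ : ℂ =>
      (‖(a.1 - c) + ζ * b.1‖ ^ 2 + ‖a.2 + ζ * b.2‖ ^ 2) + 2 := by
    funext ζ
    unfold polar3h
    simp only [Prod.fst_add, Prod.snd_add, Prod.smul_fst, Prod.smul_snd, smul_eq_mul]
    congr 4
    ring
  have i1 : CircleIntegrable (fun ζ : ℂ => ‖(a.1 - c) + ζ * b.1‖ ^ 2) 0 1 :=
    polar3_ci (by fun_prop)
  have i2 : CircleIntegrable (fun ζ : ℂ => ‖a.2 + ζ * b.2‖ ^ 2) 0 1 :=
    polar3_ci (by fun_prop)
  have i3 : CircleIntegrable (fun _ : ℂ => (2 : ℝ)) 0 1 :=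
    polar3_ci (by fun_prop)
  have i12 : CircleIntegrable (fun ζ : ℂ => ‖(a.1 - c) + ζ * b.1‖ ^ 2 + ‖a.2 + ζ * b.2‖ ^ 2) 0 1 :=
    polar3_ci (by fun_prop)
  rw [e, circleAverage_fun_add i12 i3, circleAverage_fun_add i1 i2, circleAverage_const]
  unfold polar3h
  linarith

/-- the weighted power of an entire function -/
noncomputable def polar3G (c : ℂ) (s : ℝ) (m : ℕ) (F : ℂ × ℂ → ℂ) (x : ℂ × ℂ) : ℝ :=
  Real.exp (s * polar3h c x) * ‖F x‖ ^ ((m : ℝ)⁻¹)

theorem polar3G_continuous (c : ℂ) (s : ℝ) (m : ℕ) {F : ℂ × ℂ → ℂ} (hF : Continuous F) :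
    Continuous (polar3G c s m F) := by
  unfold polar3G
  have h1 := polar3h_continuous c
  have h2 : Continuous fun x => ‖F x‖ ^ ((m : ℝ)⁻¹) :=
    (hF.norm).rpow_const (fun x => Or.inr (by positivity))
  fun_prop

theorem polar3_psh (c : ℂ) {s : ℝ} (hs : 0 ≤ s) {m : ℕ} (hm : 0 < m) {F : ℂ × ℂ → ℂ}
    (hF : Differentiable ℂ F) (a b : ℂ × ℂ) (g : ℂ → ℝ) (hg : Continuous g)
    (h : ∀ ζ : ℂ, ‖ζ‖ = 1 → polar3G c s m F (a + ζ • b) ≤ Real.exp (g ζ)) :
    polar3G c s m F a ≤ Real.exp (circleAverage g 0 1) := by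
  have hm' : (0 : ℝ) < m := by exact_mod_cast hm
  set k : ℂ → ℝ := fun ζ => polar3h c (a + ζ • b) with hk
  have hkc : Continuous k := (polar3h_continuous c).comp (by fun_prop)
  set f : ℂ → ℂ := fun ζ => F (a + ζ • b) with hf
  have hfd : Differentiable ℂ f := hF.comp (by fun_prop)
  have h1 : ∀ ζ : ℂ, ‖ζ‖ = 1 → ‖f ζ‖ ≤ Real.exp ((m : ℝ) * (g ζ - s * k ζ)) := by
    intro ζ hζ
    have h2 := h ζ hζ
    unfold polar3G at h2
    have h3 : ‖f ζ‖ ^ ((m : ℝ)⁻¹) ≤ Real.exp (g ζ - s * k ζ) := by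
      rw [sub_eq_neg_add, Real.exp_add, Real.exp_neg]
      rw [inv_mul_eq_div, le_div_iff₀ (Real.exp_pos _), mul_comm]
      exact h2
    calc ‖f ζ‖ = (‖f ζ‖ ^ ((m : ℝ)⁻¹)) ^ m := by
          rw [← Real.rpow_natCast, ← Real.rpow_mul (norm_nonneg _), inv_mul_cancel₀ hm'.ne',
            Real.rpow_one]
      _ ≤ (Real.exp (g ζ - s * k ζ)) ^ m := by gcongr
      _ = Real.exp ((m : ℝ) * (g ζ - s * k ζ)) := by rw [← Real.exp_nat_mul]
  have h2 := polar3_majorant hfd (g := fun ζ => (m : ℝ) * (g ζ - s * k ζ)) (by fun_prop) h1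
  have ig : CircleIntegrable g 0 1 := polar3_ci hg
  have ik : CircleIntegrable (fun ζ => s * k ζ) 0 1 := polar3_ci (by fun_prop)
  have e1 : circleAverage (fun ζ => (m : ℝ) * (g ζ - s * k ζ)) 0 1
      = (m : ℝ) * (circleAverage g 0 1 - s * circleAverage k 0 1) := by
    have := circleAverage_fun_smul (a := (m : ℝ)) (f := fun ζ => g ζ - s * k ζ) (c := 0) (R := 1)
    simp only [smul_eq_mul] at this
    rw [this, circleAverage_fun_sub ig ik]
    have := circleAverage_fun_smul (a := s) (f := k) (c := 0) (R := 1)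
    simp only [smul_eq_mul] at this
    rw [this]
  rw [e1] at h2
  have ef : f 0 = F a := by simp [hf]
  rw [ef] at h2
  have h3 : ‖F a‖ ^ ((m : ℝ)⁻¹) ≤ Real.exp (circleAverage g 0 1 - s * circleAverage k 0 1) := by
    calc ‖F a‖ ^ ((m : ℝ)⁻¹) ≤ (Real.exp ((m : ℝ) * (circleAverage g 0 1
          - s * circleAverage k 0 1))) ^ ((m : ℝ)⁻¹) := by gcongr
      _ = _ := by
        rw [← Real.exp_mul]
        congr 1
        field_simp
  have h4 := polar3h_avg c a b
  unfold polar3G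
  calc Real.exp (s * polar3h c a) * ‖F a‖ ^ ((m : ℝ)⁻¹)
      ≤ Real.exp (s * polar3h c a) * Real.exp (circleAverage g 0 1 - s * circleAverage k 0 1) := by
        gcongr
    _ = Real.exp (circleAverage g 0 1 + s * (polar3h c a - circleAverage k 0 1)) := by
        rw [← Real.exp_add]; congr 1; ring
    _ ≤ Real.exp (circleAverage g 0 1) := by
        apply Real.exp_le_exp.mpr
        have : s * (polar3h c a - circleAverage k 0 1) ≤ 0 :=
          mul_nonpos_of_nonneg_of_nonpos hs (by linarith)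
        linarith

/-- Dini's theorem for decreasing sequences of continuous functions -/
theorem polar3_dini {X : Type*} [TopologicalSpace X] {K : Set X} (hK : IsCompact K)
    {S : ℕ → X → ℝ} (hS : ∀ n, Continuous (S n)) (hanti : ∀ n x, S (n + 1) x ≤ S n x)
    {g : X → ℝ} (hg : Continuous g) (h : ∀ x ∈ K, ∃ n, S n x < g x) :
    ∃ n, ∀ x ∈ K, S n x < g x := by
  have hmono : ∀ x, Antitone (fun n => S n x) := fun x => antitone_nat_of_succ_le (fun n => hanti n x)
  obtain ⟨n, hn⟩ := hK.elim_directed_cover (fun n => {x | S n x < g x})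
    (fun n => isOpen_lt (hS n) hg)
    (fun x hx => by
      obtain ⟨n, hn⟩ := h x hx
      exact mem_iUnion.mpr ⟨n, hn⟩)
    (by
      apply directed_of_isDirected_le
      intro i j hij x hx
      exact lt_of_le_of_lt (hmono x hij) hx)
  exact ⟨n, fun x hx => hn hx⟩

/-- the infimum of a decreasing sequence of weighted logarithms of entire functions is psh -/
theorem polar3_psh_iInf (c : ℂ) (s : ℕ → ℝ) (hs : ∀ n, 0 ≤ s n) (m : ℕ → ℕ) (hm : ∀ n, 0 < m n)
    (F : ℕ → ℂ × ℂ → ℂ) (hF : ∀ n, Differentiable ℂ (F n))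
    (hanti : ∀ n x, polar3G c (s (n + 1)) (m (n + 1)) (F (n + 1)) x
      ≤ polar3G c (s n) (m n) (F n) x) :
    PSH (fun x => ⨅ n, polar3L (polar3G c (s n) (m n) (F n) x)) := by
  have hcont : ∀ n, Continuous (polar3G c (s n) (m n) (F n)) := fun n =>
    polar3G_continuous c _ _ (hF n).continuous
  refine ⟨upperSemicontinuous_iInf fun n =>
    (polar3L_continuous.comp (hcont n)).upperSemicontinuous, ?_, ?_⟩
  · intro x
    exact lt_of_le_of_lt (iInf_le _ 0) (polar3L_lt_top _)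
  · intro a b g hg h
    have key : ∀ ε : ℝ, 0 < ε → (⨅ n, polar3L (polar3G c (s n) (m n) (F n) a))
        ≤ ((circleAverage g 0 1 + ε : ℝ) : EReal) := by
      intro ε hε
      obtain ⟨n, hn⟩ := polar3_dini (isCompact_sphere (0 : ℂ) 1)
        (S := fun n ζ => polar3G c (s n) (m n) (F n) (a + ζ • b))
        (fun n => (hcont n).comp (by fun_prop)) (fun n ζ => hanti n _)
        (g := fun ζ => Real.exp (g ζ + ε)) (by fun_prop) (by
          intro ζ hζ
          have hζ1 : ‖ζ‖ = 1 := by simpa using hζ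
          have h1 : (⨅ n, polar3L (polar3G c (s n) (m n) (F n) (a + ζ • b)))
              < ((g ζ + ε : ℝ) : EReal) := by
            refine lt_of_le_of_lt (h ζ hζ1) ?_
            exact_mod_cast (by linarith : g ζ < g ζ + ε)
          obtain ⟨n, hn⟩ := iInf_lt_iff.mp h1
          exact ⟨n, polar3L_lt_iff.mp hn⟩)
      have h2 := polar3_psh c (hs n) (hm n) (hF n) a b (fun ζ => g ζ + ε) (by fun_prop)
        (fun ζ hζ => (hn ζ (by simpa using hζ)).le)
      have ig : CircleIntegrable g 0 1 := polar3_ci hg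
      have ie : CircleIntegrable (fun _ : ℂ => ε) 0 1 := polar3_ci (by fun_prop)
      rw [circleAverage_fun_add ig ie, circleAverage_const] at h2
      exact (iInf_le _ n).trans (polar3L_le_iff.mpr h2)
    refine EReal.le_of_forall_lt_iff_le.mp ?_
    intro z hz
    have hz' : circleAverage g 0 1 < z := by exact_mod_cast hz
    have := key (z - circleAverage g 0 1) (by linarith)
    simpa using this

end Pool.Agent.ParLeaf
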