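import Pool.Agent.H.MP_3a36cd_an.Polar3c

/-! MP_3a36cd_an, auxiliary module for Polar3: auxiliary polynomials which are small on a graph. -/

open Set Metric Filter Topology Complex MeasureTheory Real

namespace Pool.Agent.ParLeaf

theorem polar3_siegel {ι : Type*} [Fintype ι] [Nonempty ι] {a : ℂ} {r r' R B : ℝ} (hr : 0 < r)
    (hr' : r < r') (hR : r' < R) (hB : 0 ≤ B) (φ : ι → ℂ → ℂ)
    (hφ : ∀ i, DifferentiableOn ℂ (φ i) (ball a R)) (hb : ∀ i, ∀ z ∈ sphere a r', ‖φ i z‖ ≤ B)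
    {L : ℕ} (hL : L < Fintype.card ι) :
    ∃ A : ι → ℂ, (∀ i, ‖A i‖ ≤ 1) ∧ (∃ i, ‖A i‖ = 1) ∧ ∀ z ∈ closedBall a r,
      ‖∑ i, A i * φ i z‖ ≤ Fintype.card ι * B * (r / r') ^ L * (1 - r / r')⁻¹ := by
  classical
  have hr'0 : 0 < r' := hr.trans hr'
  set c : ι → ℕ → ℂ := fun i m => (m.factorial : ℂ)⁻¹ * iteratedDeriv m (φ i) a with hc
  have hcb : ∀ i m, ‖c i m‖ ≤ B / r' ^ m := by
    intro i m
    have hd : DiffContOnCl ℂ (φ i) (ball a r') := by
      apply DifferentiableOn.diffContOnCl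
      rw [closure_ball _ hr'0.ne']
      exact (hφ i).mono (closedBall_subset_ball hR)
    have h1 := Complex.norm_iteratedDeriv_le_of_forall_mem_sphere_norm_le m hr'0 hd (hb i)
    have hm : (0 : ℝ) < m.factorial := by exact_mod_cast m.factorial_pos
    simp only [hc]
    rw [norm_mul, norm_inv, Complex.norm_natCast]
    calc (m.factorial : ℝ)⁻¹ * ‖iteratedDeriv m (φ i) a‖
        ≤ (m.factorial : ℝ)⁻¹ * (m.factorial * B / r' ^ m) := by gcongr
      _ = B / r' ^ m := by field_simp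
  have hsum : ∀ i, ∀ z ∈ closedBall a r, HasSum (fun m => c i m * (z - a) ^ m) (φ i z) := by
    intro i z hz
    have hz' : z ∈ ball a R := closedBall_subset_ball (hr'.trans hR) hz
    have := Complex.hasSum_taylorSeries_on_ball (hφ i) hz'
    have e : (fun m => c i m * (z - a) ^ m)
        = fun n : ℕ => (n.factorial : ℂ)⁻¹ • (z - a) ^ n • iteratedDeriv n (φ i) a := by
      funext m
      simp only [hc, smul_eq_mul]
      ring
    rw [e]
    exact this
  -- the linear map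
  let Λ : (ι → ℂ) →ₗ[ℂ] (Fin L → ℂ) :=
    { toFun := fun A m => ∑ i, A i * c i m
      map_add' := by
        intro x y
        funext m
        simp only [Pi.add_apply, add_mul, Finset.sum_add_distrib]
      map_smul' := by
        intro t x
        funext m
        simp only [Pi.smul_apply, smul_eq_mul, RingHom.id_apply, Finset.mul_sum, mul_assoc] }
  have hker : LinearMap.ker Λ ≠ ⊥ := by
    apply LinearMap.ker_ne_bot_of_finrank_lt
    simpa using hL
  obtain ⟨A₀, hA₀, hA₀0⟩ := (Submodule.ne_bot_iff _).mp hker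
  obtain ⟨i₀, hi₀⟩ := Finite.exists_max (fun i => ‖A₀ i‖)
  have hpos : 0 < ‖A₀ i₀‖ := by
    by_contra hcon
    apply hA₀0
    funext i
    have h1 := hi₀ i
    have h2 : ‖A₀ i‖ ≤ 0 := h1.trans (not_lt.mp hcon)
    simpa using h2
  have hne : (‖A₀ i₀‖ : ℂ) ≠ 0 := by exact_mod_cast hpos.ne'
  refine ⟨fun i => A₀ i / (‖A₀ i₀‖ : ℂ), ?_, ⟨i₀, ?_⟩, ?_⟩
  · intro i
    rw [norm_div, Complex.norm_real, norm_norm, div_le_one hpos]
    exact hi₀ i
  · rw [norm_div, Complex.norm_real, norm_norm, div_self hpos.ne']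
  · intro z hz
    set A : ι → ℂ := fun i => A₀ i / (‖A₀ i₀‖ : ℂ) with hA
    have hA1 : ∀ i, ‖A i‖ ≤ 1 := by
      intro i
      simp only [hA]
      rw [norm_div, Complex.norm_real, norm_norm, div_le_one hpos]
      exact hi₀ i
    set C : ℕ → ℂ := fun m => ∑ i, A i * c i m with hC
    have hC0 : ∀ m < L, C m = 0 := by
      intro m hm
      have h1 : Λ A₀ ⟨m, hm⟩ = 0 := by
        rw [LinearMap.mem_ker.mp hA₀]; rfl
      have h2 : ∑ i, A₀ i * c i m = 0 := h1
      simp only [hC, hA]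
      have : ∀ i, A₀ i / (‖A₀ i₀‖ : ℂ) * c i m = (‖A₀ i₀‖ : ℂ)⁻¹ * (A₀ i * c i m) := by
        intro i; field_simp
      simp only [this, ← Finset.mul_sum, h2, mul_zero]
    have hCb : ∀ m, ‖C m‖ ≤ Fintype.card ι * B / r' ^ m := by
      intro m
      simp only [hC]
      calc ‖∑ i, A i * c i m‖ ≤ ∑ _i : ι, B / r' ^ m := by
            refine norm_sum_le_of_le _ fun i _ => ?_
            rw [norm_mul]
            calc ‖A i‖ * ‖c i m‖ ≤ 1 * (B / r' ^ m) := by
                  apply mul_le_mul (hA1 i) (hcb i m) (norm_nonneg _) zero_le_one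
              _ = _ := one_mul _
        _ = _ := by
          rw [Finset.sum_const, Finset.card_univ, nsmul_eq_mul]; ring
    have hS : HasSum (fun m => C m * (z - a) ^ m) (∑ i, A i * φ i z) := by
      have h1 : HasSum (fun m => ∑ i, A i * (c i m * (z - a) ^ m)) (∑ i, A i * φ i z) :=
        hasSum_sum fun i _ => (hsum i z hz).mul_left (A i)
      convert h1 using 1
      funext m
      simp only [hC, Finset.sum_mul]
      exact Finset.sum_congr rfl fun i _ => by ring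
    have hS' : HasSum (fun m => C (m + L) * (z - a) ^ (m + L)) (∑ i, A i * φ i z) := by
      rw [hasSum_nat_add_iff (f := fun m => C m * (z - a) ^ m) L]
      have : ∑ m ∈ Finset.range L, C m * (z - a) ^ m = 0 :=
        Finset.sum_eq_zero fun m hm => by rw [hC0 m (Finset.mem_range.mp hm), zero_mul]
      rw [this, add_zero]
      exact hS
    set q : ℝ := r / r' with hq
    have hq0 : 0 ≤ q := by positivity
    have hq1 : q < 1 := by rw [hq, div_lt_one hr'0]; exact hr'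
    have hgeo : HasSum (fun m : ℕ => (Fintype.card ι * B * q ^ L) * q ^ m)
        ((Fintype.card ι * B * q ^ L) * (1 - q)⁻¹) :=
      (hasSum_geometric_of_lt_one hq0 hq1).mul_left _
    refine hS'.norm_le_of_bounded hgeo fun m => ?_
    have hz1 : ‖z - a‖ ≤ r := by rwa [mem_closedBall, dist_eq_norm] at hz
    rw [norm_mul, norm_pow]
    calc ‖C (m + L)‖ * ‖z - a‖ ^ (m + L)
        ≤ (Fintype.card ι * B / r' ^ (m + L)) * r ^ (m + L) := by
          have h0 : (0 : ℝ) ≤ Fintype.card ι * B / r' ^ (m + L) := by positivity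
          exact mul_le_mul (hCb _) (pow_le_pow_left₀ (norm_nonneg _) hz1 _) (by positivity) h0
      _ = Fintype.card ι * B * q ^ L * q ^ m := by
          rw [hq, div_pow, div_pow, pow_add, pow_add]
          field_simp

/-- polynomials which are small on the graph of `f` -/
theorem polar3_small {f : ℂ → ℂ} {a : ℂ} {r R : ℝ} (hr : 0 < r) (hrR : r < R)
    (hf : DifferentiableOn ℂ f (ball a R)) :
    ∃ D q : ℝ, 1 ≤ D ∧ 0 < q ∧ q < 1 ∧ ∀ N : ℕ, 0 < N → ∃ A : ℕ → ℕ → ℂ,
      (∀ i j, ‖A i j‖ ≤ 1) ∧ (∃ i < N, ∃ j < N, ‖A i j‖ = 1) ∧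
        ∀ z ∈ closedBall a r, ‖polar3F N A (z - a) (f z)‖ ≤ D ^ N * q ^ (N ^ 2) := by
  obtain ⟨r', h1, h2⟩ := exists_between hrR
  have hr'0 : 0 < r' := hr.trans h1
  have hcont : ContinuousOn (fun z => ‖f z‖) (closedBall a r') :=
    ((hf.mono (closedBall_subset_ball h2)).continuousOn).norm
  obtain ⟨M₀, hM₀⟩ := (isCompact_closedBall a r').bddAbove_image hcont
  set M : ℝ := max 1 M₀ with hM
  have hM1 : 1 ≤ M := le_max_left _ _
  have hfM : ∀ z ∈ closedBall a r', ‖f z‖ ≤ M := fun z hz =>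
    (hM₀ ⟨z, hz, rfl⟩).trans (le_max_right _ _)
  set ρ : ℝ := max 1 r' with hρ
  have hρ1 : 1 ≤ ρ := le_max_left _ _
  set q : ℝ := r / r' with hq
  have hq0 : 0 < q := by positivity
  have hq1 : q < 1 := by rw [hq, div_lt_one hr'0]; exact h1
  set E : ℝ := (q * (1 - q))⁻¹ with hE
  have hE1 : 1 ≤ E := by
    rw [hE, one_le_inv₀ (mul_pos hq0 (by linarith))]
    nlinarith
  refine ⟨4 * (ρ * M) * E, q, ?_, hq0, hq1, ?_⟩
  · have : 1 ≤ ρ * M := one_le_mul_of_one_le_of_one_le hρ1 hM1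
    nlinarith
  intro N hN
  have : Nonempty (Fin N × Fin N) := ⟨(⟨0, hN⟩, ⟨0, hN⟩)⟩
  obtain ⟨A, hA1, ⟨⟨i₀, j₀⟩, hA2⟩, hA3⟩ := polar3_siegel (ι := Fin N × Fin N) (a := a) hr h1 h2
    (B := (ρ * M) ^ N) (by positivity) (fun p z => (z - a) ^ (p.1 : ℕ) * f z ^ (p.2 : ℕ))
    (fun p => by
      have : DifferentiableOn ℂ (fun z : ℂ => (z - a) ^ (p.1 : ℕ)) (ball a R) := by fun_prop
      exact this.mul (hf.pow _))
    (by
      rintro ⟨i, j⟩ z hz
      have hz' : z ∈ closedBall a r' := sphere_subset_closedBall hz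
      have hz1 : ‖z - a‖ = r' := by rwa [mem_sphere, dist_eq_norm] at hz
      rw [norm_mul, norm_pow, norm_pow, hz1, mul_pow]
      have e1 : r' ^ (i : ℕ) ≤ ρ ^ N := by
        calc r' ^ (i : ℕ) ≤ ρ ^ (i : ℕ) := by gcongr; exact le_max_right _ _
          _ ≤ ρ ^ N := pow_le_pow_right₀ hρ1 i.2.le
      have e2 : ‖f z‖ ^ (j : ℕ) ≤ M ^ N := by
        calc ‖f z‖ ^ (j : ℕ) ≤ M ^ (j : ℕ) := by gcongr; exact hfM z hz'
          _ ≤ M ^ N := pow_le_pow_right₀ hM1 j.2.le
      gcongr)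
    (L := N ^ 2 - 1) (by
      rw [Fintype.card_prod, Fintype.card_fin, ← sq]
      have : 0 < N ^ 2 := by positivity
      omega)
  refine ⟨fun i j => if h : i < N ∧ j < N then A (⟨i, h.1⟩, ⟨j, h.2⟩) else 0, ?_, ?_, ?_⟩
  · intro i j
    by_cases h : i < N ∧ j < N
    · simp only [h, and_self, dite_true]; exact hA1 _
    · simp [h]
  · refine ⟨i₀, i₀.2, j₀, j₀.2, ?_⟩
    simp only [i₀.2, j₀.2, and_self, dite_true]
    exact hA2
  · intro z hz
    have e : polar3F N (fun i j => if h : i < N ∧ j < N then A (⟨i, h.1⟩, ⟨j, h.2⟩) else 0) (z - a)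
        (f z) = ∑ p : Fin N × Fin N, A p * ((z - a) ^ (p.1 : ℕ) * f z ^ (p.2 : ℕ)) := by
      unfold polar3F
      rw [Finset.sum_range, Fintype.sum_prod_type_right]
      refine Finset.sum_congr rfl fun j _ => ?_
      rw [Finset.sum_range, Finset.sum_mul]
      refine Finset.sum_congr rfl fun i _ => ?_
      simp only [i.2, j.2, and_self, dite_true]
      ring
    rw [e]
    refine (hA3 z hz).trans ?_
    rw [Fintype.card_prod, Fintype.card_fin]
    have hN2 : N ^ 2 = (N ^ 2 - 1) + 1 := by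
      have : 0 < N ^ 2 := by positivity
      omega
    have h4 : ((N : ℝ) * N) ≤ 4 ^ N := by
      have h5 : N < 2 ^ N := Nat.lt_two_pow_self
      have h6 : (N : ℝ) ≤ 2 ^ N := by exact_mod_cast h5.le
      calc (N : ℝ) * N ≤ 2 ^ N * 2 ^ N := by gcongr
        _ = 4 ^ N := by rw [← mul_pow]; norm_num
    have hEN : E ≤ E ^ N := le_self_pow₀ hE1 hN.ne'
    have h1q : 0 < 1 - q := by linarith
    calc ((N * N : ℕ) : ℝ) * (ρ * M) ^ N * q ^ (N ^ 2 - 1) * (1 - q)⁻¹
        = ((N : ℝ) * N) * (ρ * M) ^ N * E * q ^ (N ^ 2) := by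
          conv_rhs => rw [hN2, pow_succ]
          rw [hE]
          push_cast
          field_simp
      _ ≤ 4 ^ N * (ρ * M) ^ N * E ^ N * q ^ (N ^ 2) := by gcongr
      _ = (4 * (ρ * M) * E) ^ N * q ^ N ^ 2 := by rw [mul_pow (4 * (ρ * M)), mul_pow 4]

end Pool.Agent.ParLeaf
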