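import Pool.Agent.H.MP_3a36cd_an.Defs
import Pool.Agent.H.MP_3a36cd_an.Polar3b
import Pool.Agent.H.MP_3a36cd_an.Polar3d

/-! MP_3a36cd_an, module Polar3: graphs over discs are pluripolar. -/

open Set Metric Filter Topology Complex MeasureTheory Real

namespace Pool.Agent.ParLeaf

theorem polar3_differentiable (N : ℕ) (A : ℕ → ℕ → ℂ) (a : ℂ) :
    Differentiable ℂ (fun x : ℂ × ℂ => polar3F N A (x.1 - a) x.2) := by
  unfold polar3F
  fun_prop

theorem polar3R_apply (F : ℕ → ℂ × ℂ → ℂ) (n : ℕ) (x : ℂ × ℂ) :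
    polar3R F n x = polar3R (fun k => F k x) n := by
  induction n with
  | zero => rfl
  | succ n ih => simp only [polar3R, Pi.mul_apply, Pi.pow_apply, ih]

theorem polar3R_differentiable {F : ℕ → ℂ × ℂ → ℂ} (hF : ∀ k, Differentiable ℂ (F k)) (n : ℕ) :
    Differentiable ℂ (polar3R F n) := by
  induction n with
  | zero => exact hF 0
  | succ n ih => exact (ih.pow 4).mul (hF _)

/-- graphs of holomorphic functions over compact discs are pluripolar -/
theorem pluripolar_graph {f : ℂ → ℂ} {a : ℂ} {r R : ℝ} (hr : 0 < r) (hrR : r < R)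
    (hf : DifferentiableOn ℂ f (ball a R)) :
    Pluripolar {q : ℂ × ℂ | q.1 ∈ closedBall a r ∧ q.2 = f q.1} := by
  obtain ⟨D, q, hD, hq0, hq1, hsmall⟩ := polar3_small hr hrR hf
  choose A hA1 hA2 hA3 using fun k : ℕ => hsmall (2 ^ k) (by positivity)
  choose I hI J hJ hIJ using hA2
  set F : ℕ → ℂ × ℂ → ℂ := fun k x => polar3F (2 ^ k) (A k) (x.1 - a) x.2 with hF
  have hFd : ∀ k, Differentiable ℂ (F k) := fun k => polar3_differentiable _ _ _
  set s : ℕ → ℝ := fun n => (2⁻¹ : ℝ) ^ n with hs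
  set m : ℕ → ℕ := fun n => 4 ^ n with hm
  have hs0 : ∀ n, 0 ≤ s n := fun n => by positivity
  have hm0 : ∀ n, 0 < m n := fun n => by positivity
  have hroot : ∀ (n : ℕ) (y : ℝ), 0 ≤ y → (y ^ (4 ^ n)) ^ (((4 ^ n : ℕ) : ℝ)⁻¹) = y := by
    intro n y hy
    have h4 : ((4 ^ n : ℕ) : ℝ) ≠ 0 := by positivity
    rw [← Real.rpow_natCast, ← Real.rpow_mul hy, mul_inv_cancel₀ h4, Real.rpow_one]
  have hanti : ∀ n x, polar3G a (s (n + 1)) (m (n + 1)) (polar3R F (n + 1)) x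
      ≤ polar3G a (s n) (m n) (polar3R F n) x := by
    intro n x
    have hFle : ‖F (n + 1) x‖ ≤ Real.exp ((2 ^ (n + 1) : ℕ) * polar3h a x) :=
      polar3F_le _ _ (hA1 (n + 1)) _ _
    have e1 : ‖polar3R F (n + 1) x‖ ^ (((4 ^ (n + 1) : ℕ) : ℝ)⁻¹)
        = ‖polar3R F n x‖ ^ (((4 ^ n : ℕ) : ℝ)⁻¹)
          * ‖F (n + 1) x‖ ^ (((4 ^ (n + 1) : ℕ) : ℝ)⁻¹) := by
      simp only [polar3R, Pi.mul_apply, Pi.pow_apply, norm_mul, norm_pow]
      rw [Real.mul_rpow (by positivity) (norm_nonneg _)]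
      congr 1
      rw [← Real.rpow_natCast, ← Real.rpow_mul (norm_nonneg _)]
      congr 1
      push_cast
      field_simp
      ring
    have e2 : ‖F (n + 1) x‖ ^ (((4 ^ (n + 1) : ℕ) : ℝ)⁻¹) ≤ Real.exp (s (n + 1) * polar3h a x) := by
      calc ‖F (n + 1) x‖ ^ (((4 ^ (n + 1) : ℕ) : ℝ)⁻¹)
          ≤ (Real.exp ((2 ^ (n + 1) : ℕ) * polar3h a x)) ^ (((4 ^ (n + 1) : ℕ) : ℝ)⁻¹) := by gcongr
        _ = Real.exp (s (n + 1) * polar3h a x) := by
          rw [← Real.exp_mul]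
          congr 1
          simp only [hs]
          push_cast
          have : (4 : ℝ) ^ (n + 1) = 2 ^ (n + 1) * 2 ^ (n + 1) := by
            rw [← mul_pow]; norm_num
          rw [this, inv_pow]
          field_simp
    have e3 : s n = s (n + 1) + s (n + 1) := by
      simp only [hs]
      rw [pow_succ]; ring
    unfold polar3G
    simp only [hm]
    rw [e1]
    calc Real.exp (s (n + 1) * polar3h a x) * (‖polar3R F n x‖ ^ (((4 ^ n : ℕ) : ℝ)⁻¹)
          * ‖F (n + 1) x‖ ^ (((4 ^ (n + 1) : ℕ) : ℝ)⁻¹))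
        ≤ Real.exp (s (n + 1) * polar3h a x) * (‖polar3R F n x‖ ^ (((4 ^ n : ℕ) : ℝ)⁻¹)
          * Real.exp (s (n + 1) * polar3h a x)) := by gcongr
      _ = Real.exp (s n * polar3h a x) * ‖polar3R F n x‖ ^ (((4 ^ n : ℕ) : ℝ)⁻¹) := by
        rw [e3, add_mul, Real.exp_add]; ring
  have hcont : ∀ n, Continuous (polar3G a (s n) (m n) (polar3R F n)) := fun n =>
    polar3G_continuous a _ _ (polar3R_differentiable hFd n).continuous
  refine ⟨fun x => ⨅ n, polar3L (polar3G a (s n) (m n) (polar3R F n) x),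
    polar3_psh_iInf a s hs0 m hm0 (fun n => polar3R F n) (polar3R_differentiable hFd) hanti, ?_, ?_⟩
  · -- not identically `-∞`
    by_contra hcon
    push Not at hcon
    obtain ⟨n, hn⟩ := polar3_dini
      ((isCompact_sphere a 1).prod (isCompact_sphere (0 : ℂ) 1))
      (S := fun n => polar3G a (s n) (m n) (polar3R F n)) hcont hanti
      (g := fun _ => (2⁻¹ : ℝ) ^ 4) continuous_const (by
        intro x _
        have h1 : (⨅ n, polar3L (polar3G a (s n) (m n) (polar3R F n) x))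
            < ((Real.log ((2⁻¹ : ℝ) ^ 4) : ℝ) : EReal) := by
          rw [hcon x]; exact EReal.bot_lt_coe _
        obtain ⟨n, hn⟩ := iInf_lt_iff.mp h1
        refine ⟨n, ?_⟩
        have := polar3L_lt_iff.mp hn
        rwa [Real.exp_log (by positivity)] at this)
    obtain ⟨z, w, hz, hw, hzw⟩ := polar3_torus A I J hI hJ hIJ n
    have h1 := hn (z + a, w) ⟨by simpa using hz, by simpa using hw⟩
    have e1 : polar3R F n (z + a, w) = polar3R (fun k => polar3F (2 ^ k) (A k) z w) n := by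
      rw [polar3R_apply]
      simp only [hF, add_sub_cancel_right]
    unfold polar3G at h1
    rw [e1] at h1
    have h2 : (2⁻¹ : ℝ) ^ 4
        ≤ ‖polar3R (fun k => polar3F (2 ^ k) (A k) z w) n‖ ^ (((m n : ℕ) : ℝ)⁻¹) := by
      calc (2⁻¹ : ℝ) ^ 4 = (((2⁻¹ : ℝ) ^ 4) ^ (4 ^ n)) ^ (((4 ^ n : ℕ) : ℝ)⁻¹) :=
            (hroot n _ (by positivity)).symm
        _ = ((2⁻¹ : ℝ) ^ (4 * 4 ^ n)) ^ (((4 ^ n : ℕ) : ℝ)⁻¹) := by rw [← pow_mul]
        _ ≤ _ := by
          simp only [hm]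
          gcongr
    have h3 : 1 ≤ Real.exp (s n * polar3h a (z + a, w)) :=
      Real.one_le_exp (mul_nonneg (hs0 n) (polar3h_pos _ _).le)
    have h4 : (2⁻¹ : ℝ) ^ 4 ≤ Real.exp (s n * polar3h a (z + a, w))
        * ‖polar3R (fun k => polar3F (2 ^ k) (A k) z w) n‖ ^ (((m n : ℕ) : ℝ)⁻¹) := by
      calc (2⁻¹ : ℝ) ^ 4 = 1 * (2⁻¹ : ℝ) ^ 4 := (one_mul _).symm
        _ ≤ _ := by gcongr
    exact absurd h1 (not_lt.mpr h4)
  · -- `-∞` on the graph
    rintro ⟨z, w⟩ ⟨hz, hw⟩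
    simp only at hz hw
    subst hw
    have hFn : ∀ n, ‖polar3R F n (z, f z)‖ ≤ (D ^ 2 * q ^ (n + 1)) ^ (4 ^ n) := by
      intro n
      rw [polar3R_apply, polar3R_map (fun y : ℂ => ‖y‖) (fun x y => norm_mul x y)]
      have h1 : ∀ k, ‖F k (z, f z)‖ ≤ D ^ (2 ^ k) * q ^ (4 ^ k) := by
        intro k
        have h2 := hA3 k z hz
        have h3 : (2 ^ k) ^ 2 = 4 ^ k := by rw [← pow_mul, mul_comm, pow_mul]; norm_num
        rw [h3] at h2
        exact h2
      calc polar3R (fun k => ‖F k (z, f z)‖) n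
          ≤ polar3R (fun k => D ^ (2 ^ k) * q ^ (4 ^ k)) n :=
            polar3R_le (fun k => norm_nonneg _) h1 n
        _ = polar3R (fun k => D ^ (2 ^ k)) n * polar3R (fun k => q ^ (4 ^ k)) n :=
            polar3R_mul _ _ n
        _ ≤ D ^ (2 * 4 ^ n) * q ^ ((n + 1) * 4 ^ n) := by
            rw [polar3R_pow4]
            have := polar3R_big hD n
            gcongr
        _ = (D ^ 2 * q ^ (n + 1)) ^ (4 ^ n) := by
            rw [mul_pow, ← pow_mul, ← pow_mul]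
    have hG : ∀ n, polar3G a (s n) (m n) (polar3R F n) (z, f z)
        ≤ Real.exp (polar3h a (z, f z)) * (D ^ 2 * q ^ (n + 1)) := by
      intro n
      have h1 : ‖polar3R F n (z, f z)‖ ^ (((4 ^ n : ℕ) : ℝ)⁻¹) ≤ D ^ 2 * q ^ (n + 1) := by
        calc ‖polar3R F n (z, f z)‖ ^ (((4 ^ n : ℕ) : ℝ)⁻¹)
            ≤ ((D ^ 2 * q ^ (n + 1)) ^ (4 ^ n)) ^ (((4 ^ n : ℕ) : ℝ)⁻¹) := by
              have := hFn n
              gcongr
          _ = _ := hroot n _ (by positivity)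
      have h2 : s n * polar3h a (z, f z) ≤ polar3h a (z, f z) := by
        have h3 : s n ≤ 1 := pow_le_one₀ (by norm_num) (by norm_num)
        exact mul_le_of_le_one_left (polar3h_pos _ _).le h3
      unfold polar3G
      simp only [hm]
      gcongr
    have hlim : Tendsto (fun n : ℕ => Real.exp (polar3h a (z, f z)) * (D ^ 2 * q ^ (n + 1))) atTop
        (𝓝 0) := by
      have h1 : Tendsto (fun n : ℕ => q ^ (n + 1)) atTop (𝓝 0) :=
        (tendsto_pow_atTop_nhds_zero_of_lt_one hq0.le hq1).comp (tendsto_add_atTop_nat 1)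
      have := (h1.const_mul (D ^ 2)).const_mul (Real.exp (polar3h a (z, f z)))
      simpa using this
    rw [eq_bot_iff]
    refine EReal.le_of_forall_lt_iff_le.mp ?_
    intro c _
    obtain ⟨n, hn⟩ := (hlim.eventually (gt_mem_nhds (Real.exp_pos c))).exists
    exact (iInf_le _ n).trans (polar3L_le_iff.mpr ((hG n).trans hn.le))

end Pool.Agent.ParLeaf
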