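import Pool.Agent.H.MP_3a36cd_an.Key1
import Pool.Agent.H.MP_3a36cd_an.Key2
import Pool.Agent.H.MP_3a36cd_an.Key3
import Pool.Agent.H.MP_3a36cd_an.Polar3

/-! MP_3a36cd_an, module Final: assembly. -/

open Set Metric Filter Topology Complex Real

namespace Pool.Agent.ParLeaf

theorem Pluripolar.union {E F : Set (ℂ × ℂ)} (hE : Pluripolar E) (hF : Pluripolar F) :
    Pluripolar (E ∪ F) := by
  have h := pluripolar_iUnion (E := fun n => if n = 0 then E else F) (fun n => by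
    by_cases hn : n = 0 <;> simp [hn, hE, hF])
  refine h.mono ?_
  rintro x (hx | hx)
  · exact mem_iUnion.2 ⟨0, by simpa using hx⟩
  · exact mem_iUnion.2 ⟨1, by simpa using hx⟩

/-- the half of the theorem with `P ≢ 0` -/
theorem parabolic_of_P {P Q : ℂ × ℂ → ℂ} (hP : Differentiable ℂ P) (hQ : Differentiable ℂ Q)
    (h : ¬ Pluripolar (ParabolicSet P Q)) {p : ℂ × ℂ} (hp : P p ≠ 0) : ParabolicAt P Q p := by
  obtain ⟨D⟩ := nonempty_solDomain hP hQ ⟨p, hp⟩
  obtain ⟨u, hu, hu'⟩ := D.exists_psh hP hQ ⟨p, hp⟩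
  have hall : ∀ x, u x = ⊥ := by
    by_contra hcon
    push Not at hcon
    obtain ⟨x, hx⟩ := hcon
    apply h
    have h1 : Pluripolar {x | u x = ⊥} := ⟨u, hu, ⟨x, hx⟩, fun x hx => hx⟩
    have h2 := pluripolar_zero hP ⟨p, hp⟩
    obtain ⟨f, a, r, R, hf, hE⟩ := D.exc_subset hP hQ
    have h3 : Pluripolar (D.Exc hP hQ) :=
      (pluripolar_iUnion fun n => pluripolar_graph (hf n).1 (hf n).2.1 (hf n).2.2).mono hE
    refine ((h1.union h2).union h3).mono ?_
    intro q hq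
    by_cases hPq : P q = 0
    · exact Or.inl (Or.inr hPq)
    · by_cases hq' : q ∈ D.Exc hP hQ
      · exact Or.inr hq'
      · exact Or.inl (Or.inl ((hu' q hPq).2 (D.zero_of_parabolic hP hQ q hPq hq.2 hq')))
  exact D.parabolic_of_zero hP hQ p hp ((hu' p hp).1 (hall p))

theorem hasDerivAt_swap {φ : ℂ → ℂ × ℂ} {v : ℂ × ℂ} {s : ℂ} (h : HasDerivAt φ v s) :
    HasDerivAt (fun x => (φ x).swap) v.swap s := by
  have h1 : HasDerivAt (fun x => (φ x).1) v.1 s :=
    (hasFDerivAt_fst (𝕜 := ℂ) (p := φ s)).comp_hasDerivAt s h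
  have h2 : HasDerivAt (fun x => (φ x).2) v.2 s :=
    (hasFDerivAt_snd (𝕜 := ℂ) (p := φ s)).comp_hasDerivAt s h
  exact h2.prodMk h1

theorem isLeafDisc_swap {P Q : ℂ × ℂ → ℂ} {φ : ℂ → ℂ × ℂ} {c : ℂ} {r : ℝ}
    (h : IsLeafDisc P Q φ c r) :
    IsLeafDisc (fun x => Q x.swap) (fun x => P x.swap) (fun x => (φ x).swap) c r := by
  intro s hs
  obtain ⟨h1, a, ha, h2⟩ := h s hs
  refine ⟨?_, a, ha, ?_⟩
  · simp only [Prod.swap_swap]
    intro h3
    apply h1
    rw [Prod.mk_eq_zero] at h3 ⊢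
    exact ⟨h3.2, h3.1⟩
  · simpa using hasDerivAt_swap h2

theorem mem_leaf_swap {P Q : ℂ × ℂ → ℂ} {p q : ℂ × ℂ} (h : q ∈ Leaf P Q p) :
    q.swap ∈ Leaf (fun x => Q x.swap) (fun x => P x.swap) p.swap := by
  have h' : Relation.ReflTransGen _ p q := h
  show Relation.ReflTransGen _ _ _
  induction h' with
  | refl => exact .refl
  | tail _ hbc ih =>
    rename_i b c' hab
    refine (ih hab).tail ?_
    obtain ⟨φ, c, r, h1, ⟨s, hs, hs'⟩, ⟨t, ht, ht'⟩⟩ := hbc
    exact ⟨_, c, r, isLeafDisc_swap h1, ⟨s, hs, by simp [hs']⟩, ⟨t, ht, by simp [ht']⟩⟩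

theorem parabolicAt_swap {P Q : ℂ × ℂ → ℂ} {p : ℂ × ℂ} (h : ParabolicAt P Q p) :
    ParabolicAt (fun x => Q x.swap) (fun x => P x.swap) p.swap := by
  rintro u ⟨C, hC⟩ hu q hq q' hq'
  have key := h (fun x => u x.swap) ⟨C, fun x hx => hC _ (mem_leaf_swap hx)⟩ (by
    intro φ c r hφ hsub
    have := hu _ c r (isLeafDisc_swap hφ) (by
      rintro _ ⟨s, hs, rfl⟩
      exact mem_leaf_swap (hsub ⟨s, hs, rfl⟩))
    exact this) q.swap (by simpa using mem_leaf_swap hq) q'.swap (by simpa using mem_leaf_swap hq')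
  simpa using key

/-- **Main theorem.** -/
theorem main {P Q : ℂ × ℂ → ℂ} (hP : Differentiable ℂ P) (hQ : Differentiable ℂ Q)
    (h : ¬ Pluripolar (ParabolicSet P Q)) (p : ℂ × ℂ) (hp : (P p, Q p) ≠ 0) :
    ParabolicAt P Q p := by
  by_cases hPp : P p = 0
  · have hQp : Q p ≠ 0 := fun hq => hp (by simp [hPp, hq])
    have hsw : Differentiable ℂ (Prod.swap : ℂ × ℂ → ℂ × ℂ) :=
      (differentiable_snd.prodMk differentiable_fst)
    have := parabolic_of_P (P := fun x => Q x.swap) (Q := fun x => P x.swap)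
      (hQ.comp hsw) (hP.comp hsw) (fun hcon => h ((pluripolar_swap hcon).mono ?_))
      (p := p.swap) (by simpa using hQp)
    · simpa using parabolicAt_swap this
    · intro q hq
      refine ⟨?_, ?_⟩
      · intro h3
        apply hq.1
        rw [Prod.mk_eq_zero] at h3 ⊢
        simp only [Prod.swap_swap] at h3
        exact ⟨h3.2, h3.1⟩
      · exact parabolicAt_swap hq.2
  · exact parabolic_of_P hP hQ h hPp

end Pool.Agent.ParLeaf
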