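import Pool.Agent.H.MP_3a36cd_an.SCV1

/-! MP_3a36cd_an, module Flow1: holomorphic solutions of `dw/dz = Q(z,w)/P(z,w)`, depending
holomorphically on the initial point. -/

open Set Metric Filter Topology Complex

namespace Pool.Agent.ParLeaf

/-- `F(z, z₁, w₁)` is holomorphic on `U`, `P(z, F) ≠ 0`, and `∂_z F = Q(z, F) / P(z, F)`. -/
def IsSol (P Q : ℂ × ℂ → ℂ) (F : ℂ × ℂ × ℂ → ℂ) (U : Set (ℂ × ℂ × ℂ)) : Prop :=
  DifferentiableOn ℂ F U ∧ ∀ y ∈ U, P (y.1, F y) ≠ 0 ∧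
    HasDerivAt (fun z : ℂ => F (z, y.2)) (Q (y.1, F y) / P (y.1, F y)) y.1

/-- holomorphic dependence of an integral on parameters, by Riemann sums -/
theorem flow1_param {E : Type} [NormedAddCommGroup E] [NormedSpace ℂ E] [FiniteDimensional ℂ E]
    {G : ℝ → E → ℂ} {U : Set E} (hU : IsOpen U)
    (hG : ∀ t ∈ Icc (0 : ℝ) 1, DifferentiableOn ℂ (G t) U)
    (hc : ContinuousOn (fun x : ℝ × E => G x.1 x.2) (Icc 0 1 ×ˢ U)) :
    DifferentiableOn ℂ (fun y => ∫ t in (0 : ℝ)..1, G t y) U := by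
  have hmem : ∀ N j : ℕ, j ≤ N + 1 → ((j : ℝ) / (N + 1)) ∈ Icc (0 : ℝ) 1 := by
    intro N j hj
    have h1 : (0 : ℝ) < N + 1 := by positivity
    have h2 : (j : ℝ) ≤ N + 1 := by exact_mod_cast hj
    exact ⟨by positivity, by rw [div_le_one h1]; exact h2⟩
  refine scv_limit (f := fun (N : ℕ) y =>
    ∑ j ∈ Finset.range (N + 1), ((1 / (N + 1) : ℝ) : ℂ) * G ((j : ℝ) / (N + 1)) y) hU ?_ ?_
  · intro N
    refine DifferentiableOn.fun_sum fun j hj => ?_
    exact (hG _ (hmem N j (Finset.mem_range.mp hj).le)).const_mul _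
  · rw [Metric.tendstoLocallyUniformlyOn_iff]
    intro ε hε x hx
    obtain ⟨r, hr, hball⟩ := Metric.isOpen_iff.mp hU x hx
    have : ProperSpace E := FiniteDimensional.proper ℂ E
    have hK : IsCompact (closedBall x (r / 2)) := isCompact_closedBall _ _
    have hKU : closedBall x (r / 2) ⊆ U := (closedBall_subset_ball (by linarith)).trans hball
    have huc := (isCompact_Icc (a := (0 : ℝ)) (b := 1)).prod hK |>.uniformContinuousOn_of_continuous
      (hc.mono (prod_mono le_rfl hKU))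
    rw [Metric.uniformContinuousOn_iff] at huc
    obtain ⟨δ, hδ, hδ'⟩ := huc (ε / 2) (by positivity)
    refine ⟨closedBall x (r / 2), mem_nhdsWithin_of_mem_nhds (closedBall_mem_nhds x (by positivity)),
      ?_⟩
    obtain ⟨N₀, hN₀⟩ := exists_nat_one_div_lt hδ
    filter_upwards [eventually_ge_atTop N₀] with N hN y hy
    have hyU : y ∈ U := hKU hy
    have hGy : ContinuousOn (fun t => G t y) (Icc 0 1) := by
      have h1 : ContinuousOn (fun t : ℝ => (t, y)) (Icc 0 1) := by fun_prop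
      exact hc.comp h1 fun t ht => ⟨ht, hyU⟩
    have hpos : (0 : ℝ) < N + 1 := by positivity
    have hstep : (1 : ℝ) / (N + 1) < δ := by
      refine lt_of_le_of_lt ?_ hN₀
      have : (N₀ : ℝ) ≤ N := by exact_mod_cast hN
      gcongr
    have hII : ∀ j < N + 1, IntervalIntegrable (fun t => G t y) MeasureTheory.volume
        ((j : ℝ) / (N + 1)) (((j + 1 : ℕ) : ℝ) / (N + 1)) := by
      intro j hj
      refine ContinuousOn.intervalIntegrable ?_
      refine hGy.mono ?_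
      have h1 := hmem N j hj.le
      have h2 := hmem N (j + 1) hj
      rw [uIcc_of_le (by gcongr; simp)]
      exact Icc_subset_Icc h1.1 h2.2
    have hsplit : ∫ t in (0 : ℝ)..1, G t y = ∑ j ∈ Finset.range (N + 1),
        ∫ t in ((j : ℝ) / (N + 1))..(((j + 1 : ℕ) : ℝ) / (N + 1)), G t y := by
      rw [intervalIntegral.sum_integral_adjacent_intervals hII]
      congr 1
      · simp
      · push_cast
        field_simp
    rw [hsplit, dist_eq_norm, ← Finset.sum_sub_distrib]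
    have hterm : ∀ j ∈ Finset.range (N + 1),
        ‖(∫ t in ((j : ℝ) / (N + 1))..(((j + 1 : ℕ) : ℝ) / (N + 1)), G t y) -
          ((1 / (N + 1) : ℝ) : ℂ) * G ((j : ℝ) / (N + 1)) y‖ ≤ (ε / 2) * (1 / (N + 1)) := by
      intro j hj
      have hj' := Finset.mem_range.mp hj
      have h1 := hmem N j hj'.le
      have h2 := hmem N (j + 1) hj'
      have hlen : ((j + 1 : ℕ) : ℝ) / (N + 1) - (j : ℝ) / (N + 1) = 1 / (N + 1) := by
        push_cast; ring
      have h3 : ((1 / (N + 1) : ℝ) : ℂ) * G ((j : ℝ) / (N + 1)) y =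
          ∫ _t in ((j : ℝ) / (N + 1))..(((j + 1 : ℕ) : ℝ) / (N + 1)), G ((j : ℝ) / (N + 1)) y := by
        rw [intervalIntegral.integral_const, hlen, Complex.real_smul]
      rw [h3, ← intervalIntegral.integral_sub (hII j hj') (by simp)]
      have h4 : ∀ t ∈ uIoc ((j : ℝ) / (N + 1)) (((j + 1 : ℕ) : ℝ) / (N + 1)),
          ‖G t y - G ((j : ℝ) / (N + 1)) y‖ ≤ ε / 2 := by
        intro t ht
        rw [uIoc_of_le (by gcongr; simp)] at ht
        have ht1 : t ∈ Icc (0 : ℝ) 1 := ⟨h1.1.trans ht.1.le, ht.2.trans h2.2⟩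
        have h5 := hδ' (t, y) ⟨ht1, hy⟩ ((j : ℝ) / (N + 1), y) ⟨h1, hy⟩ (by
          rw [Prod.dist_eq, dist_self, Real.dist_eq, abs_of_nonneg (by linarith [ht.1])]
          simp only [sup_lt_iff]
          refine ⟨?_, hδ⟩
          have := ht.2
          linarith)
        rw [dist_eq_norm] at h5
        exact h5.le
      have h5 := intervalIntegral.norm_integral_le_of_norm_le_const h4
      rwa [hlen, abs_of_pos (by positivity)] at h5
    have h6 := (norm_sum_le _ _).trans (Finset.sum_le_sum hterm)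
    rw [Finset.sum_const, Finset.card_range, nsmul_eq_mul] at h6
    have h7 : ((N + 1 : ℕ) : ℝ) * (ε / 2 * (1 / (N + 1))) = ε / 2 := by
      push_cast; field_simp
    rw [h7] at h6
    linarith

section picard

variable {f : ℂ × ℂ → ℂ} {p : ℂ × ℂ} {a M : ℝ}

/-- the point on the segment -/
def flow1_sg (t : ℝ) (y : ℂ × ℂ × ℂ) : ℂ × ℂ × ℂ := (y.2.1 + (t : ℂ) * (y.1 - y.2.1), y.2)

/-- the Picard iteration -/
noncomputable def flow1_W (f : ℂ × ℂ → ℂ) : ℕ → ℂ × ℂ × ℂ → ℂ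
  | 0, y => y.2.2
  | n + 1, y => y.2.2 + (y.1 - y.2.1) *
      ∫ t in (0 : ℝ)..1, f ((flow1_sg t y).1, flow1_W f n (flow1_sg t y))

theorem flow1_mem {ρ : ℝ} {y : ℂ × ℂ × ℂ} : y ∈ ball (p.1, p) ρ ↔
    ‖y.1 - p.1‖ < ρ ∧ ‖y.2.1 - p.1‖ < ρ ∧ ‖y.2.2 - p.2‖ < ρ := by
  rw [mem_ball, Prod.dist_eq, Prod.dist_eq, sup_lt_iff, sup_lt_iff, dist_eq_norm, dist_eq_norm,
    dist_eq_norm]

theorem flow1_mem2 {ρ : ℝ} {y : ℂ × ℂ} : y ∈ ball p ρ ↔
    ‖y.1 - p.1‖ < ρ ∧ ‖y.2 - p.2‖ < ρ := by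
  rw [mem_ball, Prod.dist_eq, sup_lt_iff, dist_eq_norm, dist_eq_norm]

theorem flow1_sg_mem {ρ : ℝ} {y : ℂ × ℂ × ℂ} (hy : y ∈ ball (p.1, p) ρ) {t : ℝ}
    (ht : t ∈ Icc (0 : ℝ) 1) : flow1_sg t y ∈ ball (p.1, p) ρ := by
  rw [flow1_mem] at hy ⊢
  refine ⟨?_, hy.2⟩
  change ‖y.2.1 + (t : ℂ) * (y.1 - y.2.1) - p.1‖ < ρ
  have h1 : y.2.1 + (t : ℂ) * (y.1 - y.2.1) - p.1 =
      ((1 - t : ℝ) : ℂ) * (y.2.1 - p.1) + (t : ℂ) * (y.1 - p.1) := by
    push_cast; ring
  rw [h1]
  refine (norm_add_le _ _).trans_lt ?_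
  rw [norm_mul, norm_mul, Complex.norm_real, Complex.norm_real, Real.norm_of_nonneg ht.1,
    Real.norm_of_nonneg (by linarith [ht.2] : (0 : ℝ) ≤ 1 - t)]
  rcases eq_or_lt_of_le ht.1 with h0 | h0
  · rw [← h0]; simpa using hy.2.1
  · nlinarith [hy.1, hy.2.1, ht.2]

theorem flow1_sg_cont : Continuous fun x : ℝ × (ℂ × ℂ × ℂ) => flow1_sg x.1 x.2 := by
  unfold flow1_sg
  fun_prop

theorem flow1_sg_diff (t : ℝ) : Differentiable ℂ (flow1_sg t) := by
  unfold flow1_sg
  fun_prop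

/-- Lipschitz bound in the second variable -/
theorem flow1_lip (ha : 0 < a) (hf : DifferentiableOn ℂ f (ball p (4 * a)))
    (hfM : ∀ q ∈ ball p (4 * a), ‖f q‖ ≤ M) {z w w' : ℂ} (hz : ‖z - p.1‖ < a)
    (hw : ‖w - p.2‖ < 2 * a) (hw' : ‖w' - p.2‖ < 2 * a) :
    ‖f (z, w) - f (z, w')‖ ≤ M / a * ‖w - w'‖ := by
  have hd : ∀ x ∈ ball p.2 (4 * a), DifferentiableAt ℂ (fun x => f (z, x)) x := by
    intro x hx
    have h1 : (z, x) ∈ ball p (4 * a) := by
      rw [flow1_mem2]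
      rw [mem_ball, dist_eq_norm] at hx
      exact ⟨by linarith, hx⟩
    have h2 := hf.differentiableAt (isOpen_ball.mem_nhds h1)
    exact DifferentiableAt.comp (f := fun x : ℂ => (z, x)) x h2 (by fun_prop)
  have hder : ∀ x ∈ ball p.2 (2 * a), ‖deriv (fun x => f (z, x)) x‖ ≤ M / a := by
    intro x hx
    rw [mem_ball, dist_eq_norm] at hx
    refine Complex.norm_deriv_le_of_forall_mem_sphere_norm_le ha ?_ ?_
    · refine DifferentiableOn.diffContOnCl_ball (U := ball p.2 (4 * a)) ?_ ?_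
      · exact fun x hx => (hd x hx).differentiableWithinAt
      · intro u hu
        rw [mem_closedBall, dist_eq_norm] at hu
        rw [mem_ball, dist_eq_norm]
        have := norm_add_le (u - x) (x - p.2)
        rw [sub_add_sub_cancel] at this
        linarith
    · intro u hu
      rw [mem_sphere, dist_eq_norm] at hu
      refine hfM _ ?_
      rw [flow1_mem2]
      have := norm_add_le (u - x) (x - p.2)
      rw [sub_add_sub_cancel] at this
      exact ⟨by linarith, by linarith⟩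
  refine (convex_ball p.2 (2 * a)).norm_image_sub_le_of_norm_deriv_le
    (f := fun x => f (z, x)) (fun x hx => hd x (ball_subset_ball (by linarith) hx)) hder
    (x := w') (y := w) ?_ ?_
  · rwa [mem_ball, dist_eq_norm]
  · rwa [mem_ball, dist_eq_norm]

/-- one Picard step -/
theorem flow1_step (ha : 0 < a) (hM : 1 ≤ M) (hf : DifferentiableOn ℂ f (ball p (4 * a)))
    (hfM : ∀ q ∈ ball p (4 * a), ‖f q‖ ≤ M) {W : ℂ × ℂ × ℂ → ℂ}
    (hW : DifferentiableOn ℂ W (ball (p.1, p) (a / (16 * M))))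
    (hWb : ∀ y ∈ ball (p.1, p) (a / (16 * M)), ‖W y - p.2‖ < 2 * a) :
    DifferentiableOn ℂ (fun y : ℂ × ℂ × ℂ => y.2.2 + (y.1 - y.2.1) *
      ∫ t in (0 : ℝ)..1, f ((flow1_sg t y).1, W (flow1_sg t y))) (ball (p.1, p) (a / (16 * M))) ∧
    (∀ y ∈ ball (p.1, p) (a / (16 * M)), ‖y.2.2 + (y.1 - y.2.1) *
      (∫ t in (0 : ℝ)..1, f ((flow1_sg t y).1, W (flow1_sg t y))) - p.2‖ < a) ∧
    ∀ y ∈ ball (p.1, p) (a / (16 * M)),
      ContinuousOn (fun t : ℝ => f ((flow1_sg t y).1, W (flow1_sg t y))) (Icc 0 1) := by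
  have hMpos : 0 < M := by linarith
  have hρ : a / (16 * M) ≤ a / 16 := by
    rw [mul_comm, ← div_div]
    exact div_le_div_of_nonneg_right (div_le_self ha.le hM) (by norm_num)
  have hin : ∀ y ∈ ball (p.1, p) (a / (16 * M)), (y.1, W y) ∈ ball p (4 * a) := by
    intro y hy
    have h1 := hWb y hy
    rw [flow1_mem] at hy
    rw [flow1_mem2]
    exact ⟨by have := hy.1; linarith, by linarith⟩
  have hgd : DifferentiableOn ℂ (fun y : ℂ × ℂ × ℂ => f (y.1, W y))
      (ball (p.1, p) (a / (16 * M))) := by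
    refine hf.comp (g := f) (f := fun y : ℂ × ℂ × ℂ => (y.1, W y)) ?_ hin
    exact differentiable_fst.differentiableOn.prodMk hW
  have hcont : ContinuousOn (fun x : ℝ × (ℂ × ℂ × ℂ) =>
      f ((flow1_sg x.1 x.2).1, W (flow1_sg x.1 x.2))) (Icc 0 1 ×ˢ ball (p.1, p) (a / (16 * M))) :=
    hgd.continuousOn.comp flow1_sg_cont.continuousOn fun x hx => flow1_sg_mem hx.2 hx.1
  have hparam := flow1_param (G := fun t y => f ((flow1_sg t y).1, W (flow1_sg t y)))
    (U := ball (p.1, p) (a / (16 * M))) isOpen_ball (fun t ht =>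
      hgd.comp (flow1_sg_diff t).differentiableOn fun y hy => flow1_sg_mem hy ht) hcont
  refine ⟨?_, ?_, ?_⟩
  · refine DifferentiableOn.add (by fun_prop) (DifferentiableOn.mul (by fun_prop) hparam)
  · intro y hy
    have h1 : ‖∫ t in (0 : ℝ)..1, f ((flow1_sg t y).1, W (flow1_sg t y))‖ ≤ M := by
      have := intervalIntegral.norm_integral_le_of_norm_le_const (a := (0 : ℝ)) (b := 1) (C := M)
        (f := fun t : ℝ => f ((flow1_sg t y).1, W (flow1_sg t y))) (by
          intro t ht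
          rw [uIoc_of_le zero_le_one] at ht
          exact hfM _ (hin _ (flow1_sg_mem hy ⟨ht.1.le, ht.2⟩)))
      simpa using this
    rw [flow1_mem] at hy
    have h2 : ‖y.1 - y.2.1‖ ≤ 2 * (a / (16 * M)) := by
      have := norm_sub_le (y.1 - p.1) (y.2.1 - p.1)
      rw [sub_sub_sub_cancel_right] at this
      linarith [hy.1, hy.2.1]
    have h3 : ‖(y.1 - y.2.1) * (∫ t in (0 : ℝ)..1, f ((flow1_sg t y).1, W (flow1_sg t y)))‖ ≤
        a / 8 := by
      rw [norm_mul]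
      calc _ ≤ 2 * (a / (16 * M)) * M := by gcongr
        _ = a / 8 := by field_simp; ring
    have h4 := norm_add_le (y.2.2 - p.2)
      ((y.1 - y.2.1) * (∫ t in (0 : ℝ)..1, f ((flow1_sg t y).1, W (flow1_sg t y))))
    have h5 : y.2.2 + (y.1 - y.2.1) *
      (∫ t in (0 : ℝ)..1, f ((flow1_sg t y).1, W (flow1_sg t y))) - p.2 = (y.2.2 - p.2) +
      ((y.1 - y.2.1) * (∫ t in (0 : ℝ)..1, f ((flow1_sg t y).1, W (flow1_sg t y)))) := by ring
    rw [h5]
    linarith [hy.2.2]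
  · intro y hy
    have h1 : ContinuousOn (fun t : ℝ => (t, y)) (Icc (0 : ℝ) 1) := by fun_prop
    exact hcont.comp h1 fun t ht => ⟨ht, hy⟩

/-- difference of two Picard integrals -/
theorem flow1_int_sub (ha : 0 < a) (hM : 1 ≤ M) (hf : DifferentiableOn ℂ f (ball p (4 * a)))
    (hfM : ∀ q ∈ ball p (4 * a), ‖f q‖ ≤ M) {V W : ℂ × ℂ × ℂ → ℂ}
    (hV : DifferentiableOn ℂ V (ball (p.1, p) (a / (16 * M))))
    (hVb : ∀ y ∈ ball (p.1, p) (a / (16 * M)), ‖V y - p.2‖ < 2 * a)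
    (hW : DifferentiableOn ℂ W (ball (p.1, p) (a / (16 * M))))
    (hWb : ∀ y ∈ ball (p.1, p) (a / (16 * M)), ‖W y - p.2‖ < 2 * a) {C : ℝ}
    (hVW : ∀ y ∈ ball (p.1, p) (a / (16 * M)), ‖V y - W y‖ ≤ C) {y : ℂ × ℂ × ℂ}
    (hy : y ∈ ball (p.1, p) (a / (16 * M))) :
    ‖(y.2.2 + (y.1 - y.2.1) *
      ∫ t in (0 : ℝ)..1, f ((flow1_sg t y).1, V (flow1_sg t y))) -
      (y.2.2 + (y.1 - y.2.1) *
      ∫ t in (0 : ℝ)..1, f ((flow1_sg t y).1, W (flow1_sg t y)))‖ ≤ 1 / 8 * C := by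
  have hMpos : 0 < M := by linarith
  have hρ : a / (16 * M) ≤ a / 16 := by
    rw [mul_comm, ← div_div]
    exact div_le_div_of_nonneg_right (div_le_self ha.le hM) (by norm_num)
  have hC : 0 ≤ C := (norm_nonneg _).trans (hVW y hy)
  have c1 := (flow1_step ha hM hf hfM hV hVb).2.2 y hy
  have c2 := (flow1_step ha hM hf hfM hW hWb).2.2 y hy
  have h1 : ‖∫ t in (0 : ℝ)..1, (f ((flow1_sg t y).1, V (flow1_sg t y)) -
      f ((flow1_sg t y).1, W (flow1_sg t y)))‖ ≤ M / a * C := by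
    have := intervalIntegral.norm_integral_le_of_norm_le_const (a := (0 : ℝ)) (b := 1)
      (C := M / a * C) (f := fun t : ℝ => f ((flow1_sg t y).1, V (flow1_sg t y)) -
      f ((flow1_sg t y).1, W (flow1_sg t y))) (by
        intro t ht
        rw [uIoc_of_le zero_le_one] at ht
        have hm := flow1_sg_mem hy ⟨ht.1.le, ht.2⟩
        have hm' := flow1_mem.mp hm
        refine (flow1_lip ha hf hfM (by linarith [hm'.1]) (hVb _ hm) (hWb _ hm)).trans ?_
        have := hVW _ hm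
        gcongr)
    simpa using this
  rw [intervalIntegral.integral_sub
    (ContinuousOn.intervalIntegrable (by rwa [uIcc_of_le zero_le_one]))
    (ContinuousOn.intervalIntegrable (by rwa [uIcc_of_le zero_le_one]))] at h1
  rw [add_sub_add_left_eq_sub, ← mul_sub, norm_mul]
  have hy' := flow1_mem.mp hy
  have h2 : ‖y.1 - y.2.1‖ ≤ 2 * (a / (16 * M)) := by
    have := norm_sub_le (y.1 - p.1) (y.2.1 - p.1)
    rw [sub_sub_sub_cancel_right] at this
    linarith [hy'.1, hy'.2.1]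
  calc _ ≤ 2 * (a / (16 * M)) * (M / a * C) := by gcongr
    _ = 1 / 8 * C := by field_simp; ring

theorem flow1_core (ha : 0 < a) (hM : 1 ≤ M) (hf : DifferentiableOn ℂ f (ball p (4 * a)))
    (hfM : ∀ q ∈ ball p (4 * a), ‖f q‖ ≤ M) :
    ∃ F : ℂ × ℂ × ℂ → ℂ, DifferentiableOn ℂ F (ball (p.1, p) (a / (16 * M))) ∧
      (∀ y ∈ ball (p.1, p) (a / (16 * M)), (y.1, F y) ∈ ball p (4 * a) ∧
        HasDerivAt (fun z : ℂ => F (z, y.2)) (f (y.1, F y)) y.1) ∧
      ∀ q ∈ ball p (a / (16 * M)), F (q.1, q) = q.2 := by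
  have hMpos : 0 < M := by linarith
  have hρ : a / (16 * M) ≤ a / 16 := by
    rw [mul_comm, ← div_div]
    exact div_le_div_of_nonneg_right (div_le_self ha.le hM) (by norm_num)
  set U := ball (p.1, p) (a / (16 * M)) with hU
  have hWn : ∀ n, DifferentiableOn ℂ (flow1_W f n) U ∧ ∀ y ∈ U, ‖flow1_W f n y - p.2‖ < a := by
    intro n
    induction n with
    | zero =>
      refine ⟨?_, fun y hy => ?_⟩
      · change DifferentiableOn ℂ (fun y : ℂ × ℂ × ℂ => y.2.2) U
        fun_prop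
      · have := (flow1_mem.mp hy).2.2
        change ‖y.2.2 - p.2‖ < a
        linarith
    | succ n ih =>
      have := flow1_step ha hM hf hfM ih.1 (fun y hy => by have := ih.2 y hy; linarith)
      exact ⟨this.1, this.2.1⟩
  have hWb : ∀ n, ∀ y ∈ U, ‖flow1_W f n y - p.2‖ < 2 * a := fun n y hy => by
    have := (hWn n).2 y hy; linarith
  have hdiff : ∀ n, ∀ y ∈ U, ‖flow1_W f (n + 1) y - flow1_W f n y‖ ≤ 2 * a * (1 / 8) ^ n := by
    intro n
    induction n with
    | zero =>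
      intro y hy
      have h1 := (hWn 1).2 y hy
      have h2 := (hWn 0).2 y hy
      have h3 := norm_sub_le (flow1_W f 1 y - p.2) (flow1_W f 0 y - p.2)
      rw [sub_sub_sub_cancel_right] at h3
      simp only [zero_add, pow_zero, mul_one]
      linarith
    | succ n ih =>
      intro y hy
      have := flow1_int_sub ha hM hf hfM (hWn (n + 1)).1 (hWb (n + 1)) (hWn n).1 (hWb n) ih hy
      rw [pow_succ]
      calc ‖flow1_W f (n + 1 + 1) y - flow1_W f (n + 1) y‖ ≤ 1 / 8 * (2 * a * (1 / 8) ^ n) := this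
        _ = _ := by ring
  have hgeo : ∀ y ∈ U, ∀ n, dist (flow1_W f n y) (flow1_W f (n + 1) y) ≤
      2 * a * (1 / 8) ^ n := by
    intro y hy n
    rw [dist_comm, dist_eq_norm]
    exact hdiff n y hy
  set F : ℂ × ℂ × ℂ → ℂ := fun y => limUnder atTop (fun n => flow1_W f n y) with hF
  have hlim : ∀ y ∈ U, Tendsto (fun n => flow1_W f n y) atTop (𝓝 (F y)) := fun y hy =>
    (cauchySeq_of_le_geometric (1 / 8 : ℝ) (2 * a) (by norm_num) (hgeo y hy)).tendsto_limUnder
  have hrate : ∀ y ∈ U, ∀ n, ‖flow1_W f n y - F y‖ ≤ 3 * a * (1 / 8) ^ n := by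
    intro y hy n
    have h1 := dist_le_of_le_geometric_of_tendsto (1 / 8 : ℝ) (2 * a) (by norm_num) (hgeo y hy)
      (hlim y hy) n
    rw [dist_eq_norm] at h1
    refine h1.trans ?_
    have h2 : 2 * a * (1 / 8) ^ n / (1 - 1 / 8) = (16 / 7) * (a * (1 / 8) ^ n) := by ring
    rw [h2, mul_assoc]
    have : 0 ≤ a * (1 / 8 : ℝ) ^ n := by positivity
    linarith
  have hFb : ∀ y ∈ U, ‖F y - p.2‖ ≤ a := by
    intro y hy
    refine le_of_tendsto ((hlim y hy).sub_const p.2).norm (Eventually.of_forall fun n => ?_)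
    exact ((hWn n).2 y hy).le
  have hFb2 : ∀ y ∈ U, ‖F y - p.2‖ < 2 * a := fun y hy => by have := hFb y hy; linarith
  have hzero : Tendsto (fun n : ℕ => 3 * a * (1 / 8 : ℝ) ^ n) atTop (𝓝 0) := by
    have := (tendsto_pow_atTop_nhds_zero_of_lt_one (r := (1 / 8 : ℝ)) (by norm_num)
      (by norm_num)).const_mul (3 * a)
    simpa using this
  have hunif : TendstoUniformlyOn (flow1_W f) F atTop U := by
    rw [Metric.tendstoUniformlyOn_iff]
    intro ε hε
    filter_upwards [hzero.eventually_lt_const hε] with n hn y hy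
    rw [dist_comm, dist_eq_norm]
    exact (hrate y hy n).trans_lt hn
  have hFd : DifferentiableOn ℂ F U :=
    scv_limit isOpen_ball (fun n => (hWn n).1) hunif.tendstoLocallyUniformlyOn
  have heq : ∀ y ∈ U, F y = y.2.2 + (y.1 - y.2.1) *
      ∫ t in (0 : ℝ)..1, f ((flow1_sg t y).1, F (flow1_sg t y)) := by
    intro y hy
    have h1 := (tendsto_add_atTop_iff_nat 1).mpr (hlim y hy)
    refine tendsto_nhds_unique h1 ?_
    rw [tendsto_iff_norm_sub_tendsto_zero]
    refine squeeze_zero (fun n => norm_nonneg _) (fun n => ?_) hzero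
    have h2 := flow1_int_sub ha hM hf hfM (hWn n).1 (hWb n) hFd hFb2
      (fun y hy => hrate y hy n) hy
    refine h2.trans ?_
    have : 0 ≤ 3 * a * (1 / 8 : ℝ) ^ n := by positivity
    linarith
  have hin : ∀ y ∈ U, (y.1, F y) ∈ ball p (4 * a) := by
    intro y hy
    have h1 := hFb y hy
    have h2 := (flow1_mem.mp hy).1
    rw [flow1_mem2]
    exact ⟨by linarith, by linarith⟩
  have hgd : DifferentiableOn ℂ (fun y : ℂ × ℂ × ℂ => f (y.1, F y)) U := by
    refine hf.comp (g := f) (f := fun y : ℂ × ℂ × ℂ => (y.1, F y)) ?_ hin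
    exact differentiable_fst.differentiableOn.prodMk hFd
  refine ⟨F, hFd, fun y hy => ⟨hin y hy, ?_⟩, fun q hq => ?_⟩
  · have hy' := flow1_mem.mp hy
    have hmemD : ∀ ζ ∈ ball p.1 (a / (16 * M)), (ζ, y.2) ∈ U := by
      intro ζ hζ
      rw [hU, flow1_mem]
      rw [mem_ball, dist_eq_norm] at hζ
      exact ⟨hζ, hy'.2⟩
    have hhd : DifferentiableOn ℂ (fun ζ : ℂ => f (ζ, F (ζ, y.2))) (ball p.1 (a / (16 * M))) := by
      refine hgd.comp (g := fun y : ℂ × ℂ × ℂ => f (y.1, F y)) (f := fun ζ : ℂ => (ζ, y.2))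
        (by fun_prop) hmemD
    obtain ⟨H, hH⟩ := hhd.isExactOn_ball
    have hrep : ∀ ζ ∈ ball p.1 (a / (16 * M)), F (ζ, y.2) = y.2.2 + (H ζ - H y.2.1) := by
      intro ζ hζ
      have hm := hmemD ζ hζ
      rw [heq _ hm]
      congr 1
      have hc := (flow1_step ha hM hf hfM hFd hFb2).2.2 _ hm
      rw [← intervalIntegral.integral_const_mul]
      have hseg : ∀ t ∈ Icc (0 : ℝ) 1, y.2.1 + (t : ℂ) * (ζ - y.2.1) ∈
          ball p.1 (a / (16 * M)) := by
        intro t ht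
        have := (flow1_mem.mp (flow1_sg_mem hm ht)).1
        rw [mem_ball, dist_eq_norm]
        exact this
      have hder : ∀ t ∈ uIcc (0 : ℝ) 1, HasDerivAt (fun t : ℝ => H (y.2.1 + (t : ℂ) * (ζ - y.2.1)))
          ((ζ - y.2.1) * f ((flow1_sg t (ζ, y.2)).1, F (flow1_sg t (ζ, y.2)))) t := by
        intro t ht
        rw [uIcc_of_le zero_le_one] at ht
        have h1 := hH _ (hseg t ht)
        have h2 : HasDerivAt (fun t : ℝ => y.2.1 + (t : ℂ) * (ζ - y.2.1)) (ζ - y.2.1) t := by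
          have h3 := ((hasDerivAt_id t).ofReal_comp.mul_const (ζ - y.2.1)).const_add y.2.1
          simpa using h3
        exact HasDerivAt.scomp (𝕜 := ℝ) t h1 h2
      have hint := intervalIntegral.integral_eq_sub_of_hasDerivAt hder
        (ContinuousOn.intervalIntegrable (by
          rw [uIcc_of_le zero_le_one]
          exact continuousOn_const.mul hc))
      rw [hint]
      simp
    have hy1 : y.1 ∈ ball p.1 (a / (16 * M)) := by
      rw [mem_ball, dist_eq_norm]; exact hy'.1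
    have h1 : HasDerivAt (fun ζ : ℂ => y.2.2 + (H ζ - H y.2.1)) (f (y.1, F y)) y.1 :=
      ((hH y.1 hy1).sub_const _).const_add _
    refine h1.congr_of_eventuallyEq ?_
    filter_upwards [isOpen_ball.mem_nhds hy1] with ζ hζ
    exact hrep ζ hζ
  · have hm : (q.1, q) ∈ U := by
      rw [hU, flow1_mem]
      have := flow1_mem2.mp hq
      exact ⟨this.1, this.1, this.2⟩
    rw [heq _ hm]
    simp

end picard

/-- Quantitative local existence: on the polydisc of radius `a / (16 M)` around `(p.1, p)`. -/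
theorem exists_flow {P Q : ℂ × ℂ → ℂ} (hP : Differentiable ℂ P) (hQ : Differentiable ℂ Q)
    {p : ℂ × ℂ} {a M : ℝ} (ha : 0 < a) (hM : 1 ≤ M) (hP0 : ∀ q ∈ ball p (4 * a), P q ≠ 0)
    (hQM : ∀ q ∈ ball p (4 * a), ‖Q q / P q‖ ≤ M) :
    ∃ F : ℂ × ℂ × ℂ → ℂ, IsSol P Q F (ball (p.1, p) (a / (16 * M))) ∧
      ∀ q ∈ ball p (a / (16 * M)), F (q.1, q) = q.2 := by
  have hf : DifferentiableOn ℂ (fun q => Q q / P q) (ball p (4 * a)) := by
    intro q hq
    simp only [div_eq_mul_inv]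
    exact ((hQ q).mul ((hP q).fun_inv (hP0 q hq))).differentiableWithinAt
  obtain ⟨F, h1, h2, h3⟩ := flow1_core ha hM hf hQM
  exact ⟨F, ⟨h1, fun y hy => ⟨hP0 _ (h2 y hy).1, (h2 y hy).2⟩⟩, h3⟩

end Pool.Agent.ParLeaf
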