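import Pool.Agent.H.MP_3a36cd_an.Flow1

/-! MP_3a36cd_an, module Flow2: local existence, quantitative version, uniqueness. -/

open Set Metric Filter Topology Complex

namespace Pool.Agent.ParLeaf

/-- local existence near a point with `P ≠ 0` -/
theorem exists_flow_local {P Q : ℂ × ℂ → ℂ} (hP : Differentiable ℂ P) (hQ : Differentiable ℂ Q)
    {p : ℂ × ℂ} (hp : P p ≠ 0) :
    ∃ r > 0, ∃ F : ℂ × ℂ × ℂ → ℂ, IsSol P Q F (ball (p.1, p) r) ∧
      ∀ q ∈ ball p r, F (q.1, q) = q.2 := by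
  have h1 : ∀ᶠ q in 𝓝 p, P q ≠ 0 := hP.continuous.continuousAt.eventually_ne hp
  obtain ⟨δ, hδ, hball⟩ := Metric.eventually_nhds_iff_ball.mp h1
  have hcont : ContinuousOn (fun q => ‖Q q / P q‖) (closedBall p (δ / 2)) := by
    refine (ContinuousOn.div hQ.continuous.continuousOn hP.continuous.continuousOn ?_).norm
    intro q hq
    exact hball q (closedBall_subset_ball (by linarith) hq)
  obtain ⟨M, hM⟩ := (isCompact_closedBall p (δ / 2)).bddAbove_image hcont
  have hM' : ∀ q ∈ closedBall p (δ / 2), ‖Q q / P q‖ ≤ M := fun q hq => hM ⟨q, hq, rfl⟩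
  have hsub : ball p (4 * (δ / 8)) ⊆ closedBall p (δ / 2) := by
    have : 4 * (δ / 8) = δ / 2 := by ring
    rw [this]; exact ball_subset_closedBall
  obtain ⟨F, hF1, hF2⟩ := exists_flow hP hQ (p := p) (a := δ / 8) (M := max M 1) (by positivity)
    (le_max_right _ _)
    (fun q hq => hball q (closedBall_subset_ball (by linarith) (hsub hq)))
    (fun q hq => (hM' q (hsub hq)).trans (le_max_left _ _))
  have hpos : 0 < max M 1 := lt_of_lt_of_le one_pos (le_max_right _ _)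
  exact ⟨_, by positivity, F, hF1, hF2⟩

/-- entire functions are locally Lipschitz -/
theorem flow2_lipschitz {P : ℂ × ℂ → ℂ} (hP : Differentiable ℂ P) (a : ℂ × ℂ) :
    ∃ L : ℝ, 1 ≤ L ∧ ∃ t ∈ 𝓝 a, ∀ x ∈ t, ∀ y ∈ t, ‖P x - P y‖ ≤ L * ‖x - y‖ := by
  have h1 : ContDiffOn ℂ 1 P univ :=
    (scv_contDiffOn isOpen_univ hP.differentiableOn).of_le (by exact_mod_cast le_top)
  have h2 : ContDiffAt ℂ 1 P a := h1.contDiffAt univ_mem
  obtain ⟨K, t, ht, hK⟩ := h2.exists_lipschitzOnWith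
  refine ⟨max K 1, le_max_right _ _, t, ht, fun x hx y hy => ?_⟩
  have := hK.dist_le_mul x hx y hy
  rw [dist_eq_norm, dist_eq_norm] at this
  exact this.trans (mul_le_mul_of_nonneg_right (le_max_left _ _) (norm_nonneg _))

/-- quantitative version near the zero set of `P` -/
theorem exists_flow_quant {P Q : ℂ × ℂ → ℂ} (hP : Differentiable ℂ P) (hQ : Differentiable ℂ Q)
    (a : ℂ × ℂ) : ∃ r > 0, ∃ c > 0, ∀ p ∈ ball a r, P p ≠ 0 →
      c * ‖P p‖ ^ 2 ≤ 1 ∧ ∃ F : ℂ × ℂ × ℂ → ℂ, IsSol P Q F (ball (p.1, p) (c * ‖P p‖ ^ 2)) ∧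
        ∀ q ∈ ball p (c * ‖P p‖ ^ 2), F (q.1, q) = q.2 := by
  obtain ⟨L, hL, t, ht, hLip⟩ := flow2_lipschitz hP a
  set B : ℝ := max (‖P a‖ + 1) (‖Q a‖ + 1) with hB
  have hB1 : 1 ≤ B := le_trans (by linarith [norm_nonneg (P a)]) (le_max_left _ _)
  have hPB : ∀ᶠ q in 𝓝 a, ‖P q‖ < B :=
    (hP.continuous.norm.tendsto a).eventually
      (gt_mem_nhds (lt_of_lt_of_le (by linarith) (le_max_left _ _)))
  have hQB : ∀ᶠ q in 𝓝 a, ‖Q q‖ < B :=
    (hQ.continuous.norm.tendsto a).eventually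
      (gt_mem_nhds (lt_of_lt_of_le (by linarith) (le_max_right _ _)))
  obtain ⟨δ, hδ, hball⟩ := Metric.eventually_nhds_iff_ball.mp ((hPB.and hQB).and ht)
  set r : ℝ := min (δ / 2) 1 with hr
  have hr0 : 0 < r := lt_min (by linarith) one_pos
  have hr1 : r ≤ 1 := min_le_right _ _
  have h2r : 2 * r ≤ δ := by
    have := min_le_left (δ / 2) 1
    rw [← hr] at this; linarith
  have hL0 : 0 < L := by linarith
  have hB0 : 0 < B := by linarith
  refine ⟨r, hr0, r / (256 * L * B ^ 2), by positivity, fun p hp hPp => ?_⟩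
  have hpδ : p ∈ ball a δ := ball_subset_ball (by linarith) hp
  have hn : 0 < ‖P p‖ := norm_pos_iff.mpr hPp
  have hnB : ‖P p‖ ≤ B := (hball p hpδ).1.1.le
  constructor
  · rw [div_mul_eq_mul_div, div_le_one (by positivity)]
    have h1 : ‖P p‖ ^ 2 ≤ B ^ 2 := by gcongr
    calc r * ‖P p‖ ^ 2 ≤ 1 * B ^ 2 := by gcongr
      _ ≤ 256 * L * B ^ 2 := by gcongr; linarith
  · -- the smaller ball
    set a' : ℝ := r * ‖P p‖ / (8 * L * B) with ha'
    have ha'0 : 0 < a' := by positivity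
    have h4a : 4 * a' ≤ r := by
      rw [ha', mul_div_assoc', div_le_iff₀ (by positivity)]
      calc 4 * (r * ‖P p‖) ≤ 4 * (r * B) := by gcongr
        _ ≤ r * (8 * L * B) := by nlinarith [mul_pos hr0 hB0, mul_pos (mul_pos hr0 hB0) hL0]
    have hmem : ∀ q ∈ ball p (4 * a'), q ∈ ball a δ := by
      intro q hq
      rw [mem_ball] at hq hp ⊢
      calc dist q a ≤ dist q p + dist p a := dist_triangle _ _ _
        _ < r + r := by linarith
        _ ≤ δ := by linarith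
    have hhalf : ∀ q ∈ ball p (4 * a'), ‖P p‖ / 2 ≤ ‖P q‖ := by
      intro q hq
      have h1 := hLip p (hball p hpδ).2 q (hball q (hmem q hq)).2
      have h2 : ‖p - q‖ ≤ 4 * a' := by
        rw [← dist_eq_norm, dist_comm]; exact (mem_ball.mp hq).le
      have h3 : ‖P p - P q‖ ≤ ‖P p‖ / 2 := by
        calc ‖P p - P q‖ ≤ L * (4 * a') := h1.trans (by gcongr)
          _ = r * ‖P p‖ / (2 * B) := by rw [ha']; field_simp; ring
          _ ≤ ‖P p‖ / 2 := by
            rw [div_le_div_iff₀ (by positivity) two_pos]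
            nlinarith [mul_le_mul hr1 hB1 zero_le_one zero_le_one]
      have h4 : ‖P p‖ ≤ ‖P p - P q‖ + ‖P q‖ := by
        have := norm_add_le (P p - P q) (P q)
        rwa [sub_add_cancel] at this
      linarith
    have hP0 : ∀ q ∈ ball p (4 * a'), P q ≠ 0 := fun q hq => by
      have := hhalf q hq
      exact norm_pos_iff.mp (by linarith)
    have hQM : ∀ q ∈ ball p (4 * a'), ‖Q q / P q‖ ≤ 2 * B / ‖P p‖ := fun q hq => by
      have h1 := hhalf q hq
      have h2 := (hball q (hmem q hq)).1.2.le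
      have h3 : 0 < ‖P q‖ := by linarith
      rw [norm_div, div_le_div_iff₀ h3 hn]
      nlinarith [norm_nonneg (Q q)]
    have hM1 : 1 ≤ 2 * B / ‖P p‖ := by
      rw [le_div_iff₀ hn]; linarith
    obtain ⟨F, hF1, hF2⟩ := exists_flow hP hQ (p := p) ha'0 hM1 hP0 hQM
    have hrad : a' / (16 * (2 * B / ‖P p‖)) = r / (256 * L * B ^ 2) * ‖P p‖ ^ 2 := by
      rw [ha']; field_simp; ring
    rw [hrad] at hF1 hF2
    exact ⟨F, hF1, hF2⟩

/-- uniqueness for one-variable solutions on discs (or any preconnected open set) -/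
theorem sol_unique {P Q : ℂ × ℂ → ℂ} (hP : Differentiable ℂ P) (hQ : Differentiable ℂ Q)
    {U : Set ℂ} (hU : IsOpen U) (hUc : IsPreconnected U) {f g : ℂ → ℂ}
    (hf : ∀ z ∈ U, P (z, f z) ≠ 0 ∧ HasDerivAt f (Q (z, f z) / P (z, f z)) z)
    (hg : ∀ z ∈ U, P (z, g z) ≠ 0 ∧ HasDerivAt g (Q (z, g z) / P (z, g z)) z)
    {z₀ : ℂ} (hz₀ : z₀ ∈ U) (h : f z₀ = g z₀) : EqOn f g U := by
  have hfd : DifferentiableOn ℂ f U := fun z hz =>
    (hf z hz).2.differentiableAt.differentiableWithinAt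
  have hgd : DifferentiableOn ℂ g U := fun z hz =>
    (hg z hz).2.differentiableAt.differentiableWithinAt
  have hfa : AnalyticOnNhd ℂ f U := hfd.analyticOnNhd hU
  have hga : AnalyticOnNhd ℂ g U := hgd.analyticOnNhd hU
  refine hfa.eqOn_of_preconnected_of_eventuallyEq hga hUc hz₀ ?_
  -- local Lipschitz property of `Q / P`
  have hQP : ContDiffAt ℂ 1 (fun q => Q q / P q) (z₀, f z₀) := by
    have hP1 : ContDiffOn ℂ 1 P univ :=
      (scv_contDiffOn isOpen_univ hP.differentiableOn).of_le (by exact_mod_cast le_top)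
    have hQ1 : ContDiffOn ℂ 1 Q univ :=
      (scv_contDiffOn isOpen_univ hQ.differentiableOn).of_le (by exact_mod_cast le_top)
    exact (hQ1.contDiffAt univ_mem).div (hP1.contDiffAt univ_mem) (hf z₀ hz₀).1
  obtain ⟨K, t, ht, hK⟩ := hQP.exists_lipschitzOnWith
  have cf : ContinuousAt (fun z => (z, f z)) z₀ :=
    continuousAt_id.prodMk (hf z₀ hz₀).2.continuousAt
  have cg : ContinuousAt (fun z => (z, g z)) z₀ :=
    continuousAt_id.prodMk (hg z₀ hz₀).2.continuousAt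
  have e1 : ∀ᶠ z in 𝓝 z₀, (z, f z) ∈ t := cf ht
  have ht' : t ∈ 𝓝 (z₀, g z₀) := by rw [← h]; exact ht
  have e2 : ∀ᶠ z in 𝓝 z₀, (z, g z) ∈ t := cg ht'
  obtain ⟨δ, hδ, hball⟩ := Metric.eventually_nhds_iff_ball.mp
    ((e1.and e2).and (hU.mem_nhds hz₀))
  set s : ℝ := min (δ / 2) (1 / (2 * (K + 1))) with hs
  have hK0 : (0 : ℝ) ≤ K := K.2
  have hs0 : 0 < s := lt_min (by linarith) (by positivity)
  have hsδ : s < δ := lt_of_le_of_lt (min_le_left _ _) (by linarith)
  have hsK : s * K ≤ 1 / 2 := by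
    have h1 : s ≤ 1 / (2 * (K + 1)) := min_le_right _ _
    have h2 : s * (2 * (K + 1)) ≤ 1 := by
      rw [le_div_iff₀ (by positivity)] at h1; exact h1
    nlinarith
  have hmem : ∀ z ∈ closedBall z₀ s, z ∈ ball z₀ δ := fun z hz => closedBall_subset_ball hsδ hz
  have hd : ∀ z ∈ closedBall z₀ s, HasDerivWithinAt (fun z => f z - g z)
      (Q (z, f z) / P (z, f z) - Q (z, g z) / P (z, g z)) (closedBall z₀ s) z := fun z hz =>
    ((hf z (hball z (hmem z hz)).2).2.sub (hg z (hball z (hmem z hz)).2).2).hasDerivWithinAt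
  have hcont : ContinuousOn (fun z => ‖f z - g z‖) (closedBall z₀ s) := fun z hz =>
    (hd z hz).continuousWithinAt.norm
  obtain ⟨zm, hzm, hmax⟩ := (isCompact_closedBall z₀ s).exists_isMaxOn
    ⟨z₀, mem_closedBall_self hs0.le⟩ hcont
  set m := ‖f zm - g zm‖ with hm
  have hmax' : ∀ z ∈ closedBall z₀ s, ‖f z - g z‖ ≤ m := fun z hz => hmax hz
  have hder : ∀ z ∈ closedBall z₀ s,
      ‖Q (z, f z) / P (z, f z) - Q (z, g z) / P (z, g z)‖ ≤ K * m := by
    intro z hz
    have h1 := hK.dist_le_mul _ (hball z (hmem z hz)).1.1 _ (hball z (hmem z hz)).1.2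
    rw [dist_eq_norm] at h1
    refine h1.trans ?_
    have h2 : dist (z, f z) (z, g z) = ‖f z - g z‖ := by
      rw [Prod.dist_eq, dist_self, dist_eq_norm, max_eq_right (norm_nonneg _)]
    rw [h2]
    exact mul_le_mul_of_nonneg_left (hmax' z hz) hK0
  have hmv := (convex_closedBall z₀ s).norm_image_sub_le_of_norm_hasDerivWithin_le hd hder
    (mem_closedBall_self hs0.le) hzm
  have hm0 : m = 0 := by
    have h1 : ‖f zm - g zm - (f z₀ - g z₀)‖ = m := by rw [h, sub_self, sub_zero]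
    rw [h1] at hmv
    have h2 : ‖zm - z₀‖ ≤ s := by rw [← dist_eq_norm]; exact hzm
    have h3 : 0 ≤ m := norm_nonneg _
    have h4 : K * m * ‖zm - z₀‖ ≤ K * m * s := mul_le_mul_of_nonneg_left h2 (by positivity)
    nlinarith
  have hball' : ∀ᶠ z in 𝓝 z₀, z ∈ closedBall z₀ s := closedBall_mem_nhds z₀ hs0
  filter_upwards [hball'] with z hz
  have h1 := hmax' z hz
  rw [hm0] at h1
  exact sub_eq_zero.mp (norm_le_zero_iff.mp h1)

end Pool.Agent.ParLeaf
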