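import Pool.Agent.H.MP_3a36cd_an.Planar1

/-! MP_3a36cd_an, module Four: four-point version of the Blaschke–Privalov criterion. -/

open Set Metric Filter Topology Complex MeasureTheory Real

namespace Pool.Agent.ParLeaf

/-- four-point average -/
noncomputable def four (n : ℂ → ℝ) (τ : ℂ) (s : ℝ) : ℝ :=
  (n (τ + s) + n (τ - s) + n (τ + s * I) + n (τ - s * I)) / 4

theorem four_poly (p : Polynomial ℂ) (x : ℂ) : ∃ C : ℝ, 0 ≤ C ∧ ∀ s : ℝ, 0 < s → s < 1 →
    |four (fun z => (p.eval z).re) x s - (p.eval x).re| ≤ C * s ^ 3 := by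
  -- reduce to `x = 0`
  have key : ∀ q : Polynomial ℂ, ∃ C : ℝ, 0 ≤ C ∧ ∀ s : ℝ, 0 < s → s < 1 →
      ‖(q.eval (s : ℂ) + q.eval (-(s : ℂ)) + q.eval (s * I) + q.eval (-(s * I))) / 4
        - q.eval 0‖ ≤ C * s ^ 3 := by
    intro q
    induction q using Polynomial.induction_on' with
    | add p q hp hq =>
      obtain ⟨C, hC, h⟩ := hp
      obtain ⟨C', hC', h'⟩ := hq
      refine ⟨C + C', by positivity, fun s hs hs1 => ?_⟩
      have e : ((p + q).eval (s : ℂ) + (p + q).eval (-(s : ℂ)) + (p + q).eval (s * I)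
          + (p + q).eval (-(s * I))) / 4 - (p + q).eval 0 =
          ((p.eval (s : ℂ) + p.eval (-(s : ℂ)) + p.eval (s * I) + p.eval (-(s * I))) / 4
            - p.eval 0) +
          ((q.eval (s : ℂ) + q.eval (-(s : ℂ)) + q.eval (s * I) + q.eval (-(s * I))) / 4
            - q.eval 0) := by
        simp only [Polynomial.eval_add]; ring
      rw [e]
      calc _ ≤ _ := norm_add_le _ _
        _ ≤ C * s ^ 3 + C' * s ^ 3 := add_le_add (h s hs hs1) (h' s hs hs1)
        _ = _ := by ring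
    | monomial k a =>
      refine ⟨‖a‖, norm_nonneg _, fun s hs hs1 => ?_⟩
      simp only [Polynomial.eval_monomial]
      rcases Nat.lt_or_ge k 3 with hk | hk
      · interval_cases k
        · have : (a * (s : ℂ) ^ 0 + a * (-(s : ℂ)) ^ 0 + a * (s * I) ^ 0 + a * (-(s * I)) ^ 0) / 4
            - a * 0 ^ 0 = 0 := by ring
          rw [this, norm_zero]; positivity
        · have : (a * (s : ℂ) ^ 1 + a * (-(s : ℂ)) ^ 1 + a * (s * I) ^ 1 + a * (-(s * I)) ^ 1) / 4
            - a * 0 ^ 1 = 0 := by ring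
          rw [this, norm_zero]; positivity
        · have : (a * (s : ℂ) ^ 2 + a * (-(s : ℂ)) ^ 2 + a * (s * I) ^ 2 + a * (-(s * I)) ^ 2) / 4
            - a * 0 ^ 2 = a * s ^ 2 * (1 + I ^ 2) / 2 := by ring
          rw [this, I_sq]; simp; positivity
      · have h0 : (0 : ℂ) ^ k = 0 := zero_pow (by omega)
        rw [h0, mul_zero, sub_zero]
        have hb : ∀ z : ℂ, ‖z‖ = s → ‖a * z ^ k‖ ≤ ‖a‖ * s ^ 3 := by
          intro z hz
          rw [norm_mul, norm_pow, hz]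
          exact mul_le_mul_of_nonneg_left (pow_le_pow_of_le_one hs.le hs1.le hk) (norm_nonneg _)
        have n1 : ‖(s : ℂ)‖ = s := by simp [abs_of_pos hs]
        have n2 : ‖-(s : ℂ)‖ = s := by simp [abs_of_pos hs]
        have n3 : ‖(s : ℂ) * I‖ = s := by simp [abs_of_pos hs]
        have n4 : ‖-((s : ℂ) * I)‖ = s := by simp [abs_of_pos hs]
        rw [norm_div]
        have h4 : ‖(4 : ℂ)‖ = 4 := by simp
        rw [h4, div_le_iff₀ (by norm_num)]
        calc _ ≤ ‖a * (s : ℂ) ^ k‖ + ‖a * (-(s : ℂ)) ^ k‖ + ‖a * (s * I) ^ k‖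
              + ‖a * (-(s * I)) ^ k‖ :=
              (norm_add_le _ _).trans (add_le_add ((norm_add_le _ _).trans
                (add_le_add (norm_add_le _ _) le_rfl)) le_rfl)
          _ ≤ ‖a‖ * s ^ 3 * 4 := by
            have := hb _ n1; have := hb _ n2; have := hb _ n3; have := hb _ n4
            linarith
  obtain ⟨C, hC, h⟩ := key (p.comp (Polynomial.X + Polynomial.C x))
  refine ⟨C, hC, fun s hs hs1 => ?_⟩
  have h1 := h s hs hs1
  simp only [Polynomial.eval_comp, Polynomial.eval_add, Polynomial.eval_X, Polynomial.eval_C,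
    zero_add] at h1
  refine le_trans ?_ h1
  have e : four (fun z => (p.eval z).re) x s - (p.eval x).re =
      ((p.eval (s + x) + p.eval (-(s : ℂ) + x) + p.eval (s * I + x) + p.eval (-(s * I) + x)) / 4
        - p.eval x).re := by
    simp only [four, sub_re, div_ofNat_re, add_re]
    congr 2
    rw [show x + (s : ℂ) = s + x by ring, show x - (s : ℂ) = -(s : ℂ) + x by ring,
      show x + (s : ℂ) * I = s * I + x by ring, show x - (s : ℂ) * I = -(s * I) + x by ring]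
  rw [e]
  exact abs_re_le_norm _

theorem superharmonic_of_four {n : ℂ → ℝ} {Ω : Set ℂ} (hΩ : IsOpen Ω) (hc : ContinuousOn n Ω)
    (h : ∀ τ ∈ Ω, ∃ C : ℝ, ∃ s₀ > 0, ∀ s, 0 < s → s < s₀ → four n τ s ≤ n τ + C * s ^ 3) :
    ∀ τ s, 0 < s → closedBall τ s ⊆ Ω → circleAverage n τ s ≤ n τ := by
  intro τ s hs hsub
  by_contra hcon
  push Not at hcon
  set c : ℂ → ℝ := fun ζ => n (s * ζ + τ) with hcdef
  have hmem : ∀ ζ : ℂ, ‖ζ‖ ≤ 1 → s * ζ + τ ∈ closedBall τ s := by
    intro ζ hζ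
    rw [mem_closedBall, dist_eq_norm, add_sub_cancel_right, norm_mul, norm_real,
      Real.norm_of_nonneg hs.le]
    nlinarith
  have hcc : ContinuousOn c (sphere 0 1) := by
    refine hc.comp (by fun_prop) (fun ζ hζ => hsub (hmem ζ ?_))
    simpa using (mem_sphere_zero_iff_norm.1 hζ).le
  have hav : circleAverage n τ s = circleAverage c 0 1 :=
    circleAverage_eq_circleAverage_zero_one
  set η := (circleAverage n τ s - n τ) / 6 with hη
  have hη0 : 0 < η := by rw [hη]; linarith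
  obtain ⟨f, hf, hf0⟩ := exists_harmonic_below hcc hη0
  set p : Polynomial ℂ := f.comp (Polynomial.C ((s : ℂ)⁻¹) * (Polynomial.X - Polynomial.C τ))
    with hp
  have hpe : ∀ x, p.eval x = f.eval ((s : ℂ)⁻¹ * (x - τ)) := by
    intro x; simp [hp]
  set H : ℂ → ℝ := fun x => (p.eval x).re with hH
  have hs0 : (s : ℂ) ≠ 0 := by exact_mod_cast hs.ne'
  have hHτ : n τ + 3 * η ≤ H τ := by
    have : H τ = (f.eval 0).re := by simp [hH, hpe]
    rw [this]
    rw [← hav] at hf0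
    rw [hη] at hf0 ⊢
    linarith
  have hHs : ∀ x ∈ sphere τ s, H x ≤ n x - η := by
    intro x hx
    have hx' : ‖x - τ‖ = s := by simpa [dist_eq_norm] using hx
    have h1 : (s : ℂ)⁻¹ * (x - τ) ∈ sphere (0 : ℂ) 1 := by
      rw [mem_sphere_zero_iff_norm, norm_mul, norm_inv, norm_real, Real.norm_of_nonneg hs.le, hx',
        inv_mul_cancel₀ hs.ne']
    have h2 := (hf _ h1).1
    have h3 : c ((s : ℂ)⁻¹ * (x - τ)) = n x := by
      simp only [hcdef]
      congr 1
      field_simp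
      ring
    rw [h3] at h2
    simpa [hH, hpe] using h2
  set κ := η / s ^ 2 with hκ
  have hκ0 : 0 < κ := by positivity
  set w : ℂ → ℝ := fun x => n x - H x - κ * (‖x - τ‖ ^ 2 - s ^ 2) with hw
  have hHc : Continuous H := by
    simp only [hH]; exact continuous_re.comp p.continuous
  have hwc : ContinuousOn w (closedBall τ s) := by
    refine ((hc.mono hsub).sub hHc.continuousOn).sub ?_
    exact Continuous.continuousOn (by fun_prop)
  obtain ⟨x₀, hx₀, hmin⟩ := (isCompact_closedBall τ s).exists_isMinOn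
    ⟨τ, mem_closedBall_self hs.le⟩ hwc
  have hwτ : w τ < 0 := by
    have : κ * s ^ 2 = η := by rw [hκ]; field_simp
    simp only [hw, sub_self, norm_zero]
    nlinarith
  have hwx : w x₀ < 0 := (hmin (mem_closedBall_self hs.le)).trans_lt hwτ
  have hint : x₀ ∈ ball τ s := by
    rcases (mem_closedBall.1 hx₀).lt_or_eq with h1 | h1
    · exact h1
    · exfalso
      have h2 := hHs x₀ h1
      have h3 : ‖x₀ - τ‖ = s := by rwa [← dist_eq_norm]
      simp only [hw, h3] at hwx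
      linarith
  obtain ⟨C, s₀, hs₀, hC⟩ := h x₀ (hsub hx₀)
  obtain ⟨C', hC'0, hC'⟩ := four_poly p x₀
  obtain ⟨ρ, hρ, hρsub⟩ := Metric.isOpen_iff.1 isOpen_ball x₀ hint
  -- choose a small radius
  set s₁ := min (min s₀ 1) (min ρ (κ / (|C| + C' + 1))) / 2 with hs₁
  have hden : 0 < |C| + C' + 1 := by positivity
  have hm : 0 < min (min s₀ 1) (min ρ (κ / (|C| + C' + 1))) := by
    refine lt_min (lt_min hs₀ one_pos) (lt_min hρ (by positivity))
  have hs₁0 : 0 < s₁ := by positivity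
  have hs₁m : s₁ < min (min s₀ 1) (min ρ (κ / (|C| + C' + 1))) := by
    rw [hs₁]; exact half_lt_self hm
  have a1 : s₁ < s₀ := hs₁m.trans_le ((min_le_left _ _).trans (min_le_left _ _))
  have a2 : s₁ < 1 := hs₁m.trans_le ((min_le_left _ _).trans (min_le_right _ _))
  have a3 : s₁ < ρ := hs₁m.trans_le ((min_le_right _ _).trans (min_le_left _ _))
  have a4 : s₁ < κ / (|C| + C' + 1) := hs₁m.trans_le ((min_le_right _ _).trans (min_le_right _ _))
  have b1 := hC s₁ hs₁0 a1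
  have b2 := hC' s₁ hs₁0 a2
  have hw4 : ∀ σ : ℂ, ‖σ‖ = s₁ → w x₀ ≤ w (x₀ + σ) := by
    intro σ hσ
    apply hmin
    apply ball_subset_closedBall
    apply hρsub
    simpa [dist_eq_norm, hσ] using a3
  have n1 : ‖(s₁ : ℂ)‖ = s₁ := by simp [abs_of_pos hs₁0]
  have n2 : ‖-(s₁ : ℂ)‖ = s₁ := by simp [abs_of_pos hs₁0]
  have n3 : ‖(s₁ : ℂ) * I‖ = s₁ := by simp [abs_of_pos hs₁0]
  have n4 : ‖-((s₁ : ℂ) * I)‖ = s₁ := by simp [abs_of_pos hs₁0]
  have c1 := hw4 _ n1
  have c2 := hw4 _ n2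
  have c3 := hw4 _ n3
  have c4 := hw4 _ n4
  have hsq : ∀ a b : ℂ, ‖a + b‖ ^ 2 + ‖a - b‖ ^ 2 = 2 * (‖a‖ ^ 2 + ‖b‖ ^ 2) := by
    intro a b
    simp only [← Complex.normSq_eq_norm_sq, Complex.normSq_apply, add_re, add_im, sub_re, sub_im]
    ring
  have d1 := hsq (x₀ - τ) s₁
  have d2 := hsq (x₀ - τ) (s₁ * I)
  rw [n1] at d1
  rw [n3] at d2
  have e1 : x₀ + (s₁ : ℂ) - τ = x₀ - τ + s₁ := by ring
  have e2 : x₀ + -(s₁ : ℂ) - τ = x₀ - τ - s₁ := by ring
  have e3 : x₀ + (s₁ : ℂ) * I - τ = x₀ - τ + s₁ * I := by ring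
  have e4 : x₀ + -((s₁ : ℂ) * I) - τ = x₀ - τ - s₁ * I := by ring
  simp only [hw, e1, e2, e3, e4] at c1 c2 c3 c4
  have e2' : x₀ + -(s₁ : ℂ) = x₀ - s₁ := by ring
  have e4' : x₀ + -((s₁ : ℂ) * I) = x₀ - s₁ * I := by ring
  rw [e2'] at c2
  rw [e4'] at c4
  have key : n x₀ + (four H x₀ s₁ - H x₀) + κ * s₁ ^ 2 ≤ four n x₀ s₁ := by
    simp only [four]
    nlinarith
  have b2' := (abs_le.1 b2).1
  have b3 : -(C' * s₁ ^ 3) ≤ four H x₀ s₁ - H x₀ := b2'
  have hfin : κ * s₁ ^ 2 ≤ (C + C') * s₁ ^ 3 := by nlinarith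
  have hfin2 : κ ≤ (C + C') * s₁ := by
    have h2 : 0 < s₁ ^ 2 := by positivity
    by_contra hh
    push Not at hh
    nlinarith [mul_lt_mul_of_pos_right hh h2]
  have : s₁ * (|C| + C' + 1) < κ := by rwa [lt_div_iff₀ hden] at a4
  have h5 : (C + C') * s₁ ≤ s₁ * (|C| + C' + 1) := by
    have := le_abs_self C
    nlinarith
  linarith

end Pool.Agent.ParLeaf
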