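import Pool.Agent.H.MP_3a36cd_an.RDTop
import Pool.Agent.H.MP_3a36cd_an.Flow2

/-! MP_3a36cd_an, module Germ1: the Riemann domain of germs of solutions. -/

open Set Metric Filter Topology Complex

namespace Pool.Agent.ParLeaf

/-- The Riemann domain (over `ℂ × ℂ × ℂ`, coordinates `(z, z₁, w₁)`) of germs of solutions of
`∂_z F = Q(z,F)/P(z,F)`.  `germ x F` is the germ of `F` at `x`, `W` is the value of the germ. -/
structure SolDomain (P Q : ℂ × ℂ → ℂ) where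
  M : RD (ℂ × ℂ × ℂ)
  W : M.carrier → ℂ
  germ : (ℂ × ℂ × ℂ) → (ℂ × ℂ × ℂ → ℂ) → M.carrier
  rad_le_one : ∀ e, M.rad e ≤ 1
  pr_germ : ∀ x F r, 0 < r → IsSol P Q F (ball x r) → M.pr (germ x F) = x
  rad_germ : ∀ x F r, 0 < r → r ≤ 1 → IsSol P Q F (ball x r) → r ≤ M.rad (germ x F)
  W_germ : ∀ x F r, 0 < r → IsSol P Q F (ball x r) → W (germ x F) = F x
  tr_germ : ∀ x F r, 0 < r → r ≤ 1 → IsSol P Q F (ball x r) → ∀ v, ‖v‖ < r →
    M.tr (germ x F) v = germ (x + v) F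
  germ_eq : ∀ x F G r, 0 < r → IsSol P Q F (ball x r) → IsSol P Q G (ball x r) →
    (germ x F = germ x G ↔ F =ᶠ[𝓝 x] G)
  exists_rep : ∀ e, ∃ F, IsSol P Q F (ball (M.pr e) (M.rad e)) ∧ germ (M.pr e) F = e

section Germ1

variable {P Q : ℂ × ℂ → ℂ}

theorem germ1_mono {F : ℂ × ℂ × ℂ → ℂ} {U V : Set (ℂ × ℂ × ℂ)} (h : IsSol P Q F U) (hV : V ⊆ U) :
    IsSol P Q F V :=
  ⟨h.1.mono hV, fun y hy => h.2 y (hV hy)⟩

theorem germ1_congr_at {F G : ℂ × ℂ × ℂ → ℂ} {y : ℂ × ℂ × ℂ} (h : F =ᶠ[𝓝 y] G)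
    (hG : P (y.1, G y) ≠ 0 ∧
      HasDerivAt (fun z : ℂ => G (z, y.2)) (Q (y.1, G y) / P (y.1, G y)) y.1) :
    P (y.1, F y) ≠ 0 ∧
      HasDerivAt (fun z : ℂ => F (z, y.2)) (Q (y.1, F y) / P (y.1, F y)) y.1 := by
  have h0 : F y = G y := h.self_of_nhds
  rw [h0]
  refine ⟨hG.1, hG.2.congr_of_eventuallyEq ?_⟩
  have hc : Filter.Tendsto (fun z : ℂ => (z, y.2)) (𝓝 y.1) (𝓝 y) := by
    have : Continuous (fun z : ℂ => (z, y.2)) := by fun_prop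
    exact this.tendsto' _ _ rfl
  exact hc.eventually h

theorem germ1_local {F : ℂ × ℂ × ℂ → ℂ} {U : Set (ℂ × ℂ × ℂ)} 
    (h : ∀ y ∈ U, ∃ G V, IsOpen V ∧ y ∈ V ∧ IsSol P Q G V ∧ EqOn F G V) : IsSol P Q F U := by
  have hev : ∀ y ∈ U, ∃ G V, IsOpen V ∧ y ∈ V ∧ IsSol P Q G V ∧ F =ᶠ[𝓝 y] G := by
    intro y hy
    obtain ⟨G, V, hV, hyV, hG, hE⟩ := h y hy
    exact ⟨G, V, hV, hyV, hG, Filter.eventually_of_mem (hV.mem_nhds hyV) hE⟩
  constructor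
  · intro y hy
    obtain ⟨G, V, hV, hyV, hG, hE⟩ := hev y hy
    have h1 : DifferentiableAt ℂ G y := (hG.1 y hyV).differentiableAt (hV.mem_nhds hyV)
    exact (h1.congr_of_eventuallyEq hE).differentiableWithinAt
  · intro y hy
    obtain ⟨G, V, hV, hyV, hG, hE⟩ := hev y hy
    exact germ1_congr_at hE (hG.2 y hyV)

/-- identity theorem on the intersection of two balls -/
theorem germ1_eqOn {F G : ℂ × ℂ × ℂ → ℂ} {x x' a : ℂ × ℂ × ℂ} {r r' : ℝ}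
    (hF : IsSol P Q F (ball x r)) (hG : IsSol P Q G (ball x' r')) (ha : a ∈ ball x r)
    (ha' : a ∈ ball x' r') (h : F =ᶠ[𝓝 a] G) : EqOn F G (ball x r ∩ ball x' r') := by
  refine scv_identity (isOpen_ball.inter isOpen_ball)
    ((convex_ball x r).inter (convex_ball x' r')) (hF.1.mono inter_subset_left)
    (hG.1.mono inter_subset_right) ⟨ha, ha'⟩ h

variable (P Q)

/-- `F` is a solution near `x` -/
def Germ1Val (x : ℂ × ℂ × ℂ) (F : ℂ × ℂ × ℂ → ℂ) : Prop := ∃ r > 0, IsSol P Q F (ball x r)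

/-- `G` is a solution on the ball `ball x s`, with the same germ as `F` at `x` -/
def Germ1Rep (x : ℂ × ℂ × ℂ) (F : ℂ × ℂ × ℂ → ℂ) (s : ℝ) (G : ℂ × ℂ × ℂ → ℂ) : Prop :=
  0 < s ∧ s ≤ 1 ∧ IsSol P Q G (ball x s) ∧ G =ᶠ[𝓝 x] F

/-- the maximal radius -/
noncomputable def germ1R (x : ℂ × ℂ × ℂ) (F : ℂ × ℂ × ℂ → ℂ) : ℝ :=
  sSup {s | ∃ G, Germ1Rep P Q x F s G}

open Classical in
/-- the maximal extension -/
noncomputable def germ1Ext (x : ℂ × ℂ × ℂ) (F : ℂ × ℂ × ℂ → ℂ) : ℂ × ℂ × ℂ → ℂ := fun y =>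
  if h : ∃ q : ℝ × (ℂ × ℂ × ℂ → ℂ), Germ1Rep P Q x F q.1 q.2 ∧ y ∈ ball x q.1
  then h.choose.2 y else 0

variable {P Q}

theorem germ1_rep_congr {x : ℂ × ℂ × ℂ} {F F' : ℂ × ℂ × ℂ → ℂ} (h : F =ᶠ[𝓝 x] F') (s : ℝ)
    (G : ℂ × ℂ × ℂ → ℂ) : Germ1Rep P Q x F s G ↔ Germ1Rep P Q x F' s G :=
  ⟨fun ⟨a, b, c, d⟩ => ⟨a, b, c, d.trans h⟩, fun ⟨a, b, c, d⟩ => ⟨a, b, c, d.trans h.symm⟩⟩

theorem germ1_R_congr {x : ℂ × ℂ × ℂ} {F F' : ℂ × ℂ × ℂ → ℂ} (h : F =ᶠ[𝓝 x] F') :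
    germ1R P Q x F = germ1R P Q x F' := by
  unfold germ1R
  congr 1
  ext s
  simp only [mem_ofPred_eq]
  exact exists_congr (fun G => germ1_rep_congr h s G)

theorem germ1_ext_eq {x : ℂ × ℂ × ℂ} {F G : ℂ × ℂ × ℂ → ℂ} {s : ℝ}
    (h : Germ1Rep P Q x F s G) : EqOn (germ1Ext P Q x F) G (ball x s) := by
  intro y hy
  have hex : ∃ q : ℝ × (ℂ × ℂ × ℂ → ℂ), Germ1Rep P Q x F q.1 q.2 ∧ y ∈ ball x q.1 :=
    ⟨(s, G), h, hy⟩
  have h1 := hex.choose_spec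
  unfold germ1Ext
  rw [dif_pos hex]
  exact germ1_eqOn h1.1.2.2.1 h.2.2.1 (mem_ball_self h1.1.1) (mem_ball_self h.1)
    (h1.1.2.2.2.trans h.2.2.2.symm) ⟨h1.2, hy⟩

theorem germ1_bdd (x : ℂ × ℂ × ℂ) (F : ℂ × ℂ × ℂ → ℂ) :
    BddAbove {s | ∃ G, Germ1Rep P Q x F s G} := ⟨1, fun _ ⟨_, h⟩ => h.2.1⟩

theorem germ1_le_R {x : ℂ × ℂ × ℂ} {F G : ℂ × ℂ × ℂ → ℂ} {s : ℝ}
    (h : Germ1Rep P Q x F s G) : s ≤ germ1R P Q x F := le_csSup (germ1_bdd x F) ⟨G, h⟩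

theorem germ1_ext_congr {x : ℂ × ℂ × ℂ} {F F' : ℂ × ℂ × ℂ → ℂ} (h : F =ᶠ[𝓝 x] F') :
    germ1Ext P Q x F = germ1Ext P Q x F' := by
  funext y
  by_cases hex : ∃ q : ℝ × (ℂ × ℂ × ℂ → ℂ), Germ1Rep P Q x F q.1 q.2 ∧ y ∈ ball x q.1
  · obtain ⟨q, hq, hy⟩ := hex
    rw [germ1_ext_eq hq hy, germ1_ext_eq ((germ1_rep_congr h _ _).1 hq) hy]
  · have hex' : ¬ ∃ q : ℝ × (ℂ × ℂ × ℂ → ℂ), Germ1Rep P Q x F' q.1 q.2 ∧ y ∈ ball x q.1 := by
      rintro ⟨q, hq, hy⟩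
      exact hex ⟨q, (germ1_rep_congr h _ _).2 hq, hy⟩
    unfold germ1Ext
    rw [dif_neg hex, dif_neg hex']

theorem germ1_exists_rep {x : ℂ × ℂ × ℂ} {F : ℂ × ℂ × ℂ → ℂ} (h : Germ1Val P Q x F) :
    ∃ s, Germ1Rep P Q x F s F := by
  obtain ⟨r, hr, hF⟩ := h
  exact ⟨min r 1, lt_min hr one_pos, min_le_right _ _,
    germ1_mono hF (ball_subset_ball (min_le_left _ _)), Filter.EventuallyEq.rfl⟩

theorem germ1_R_pos {x : ℂ × ℂ × ℂ} {F : ℂ × ℂ × ℂ → ℂ} (h : Germ1Val P Q x F) :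
    0 < germ1R P Q x F := by
  obtain ⟨s, hs⟩ := germ1_exists_rep h
  exact hs.1.trans_le (germ1_le_R hs)

theorem germ1_R_le {x : ℂ × ℂ × ℂ} {F : ℂ × ℂ × ℂ → ℂ} (h : Germ1Val P Q x F) :
    germ1R P Q x F ≤ 1 := by
  obtain ⟨s, hs⟩ := germ1_exists_rep h
  exact csSup_le ⟨s, F, hs⟩ (fun _ ⟨_, h⟩ => h.2.1)

theorem germ1_ext_ev {x : ℂ × ℂ × ℂ} {F : ℂ × ℂ × ℂ → ℂ} (h : Germ1Val P Q x F) :
    germ1Ext P Q x F =ᶠ[𝓝 x] F := by
  obtain ⟨s, hs⟩ := germ1_exists_rep h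
  exact Filter.eventually_of_mem (ball_mem_nhds x hs.1) (germ1_ext_eq hs)

theorem germ1_ext_sol {x : ℂ × ℂ × ℂ} {F : ℂ × ℂ × ℂ → ℂ} (h : Germ1Val P Q x F) :
    IsSol P Q (germ1Ext P Q x F) (ball x (germ1R P Q x F)) := by
  refine germ1_local (fun y hy => ?_)
  obtain ⟨s0, hs0⟩ := germ1_exists_rep h
  have hy' : dist y x < germ1R P Q x F := mem_ball.1 hy
  obtain ⟨s, ⟨G, hG⟩, hs⟩ := exists_lt_of_lt_csSup (s := {s | ∃ G, Germ1Rep P Q x F s G})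
    ⟨s0, F, hs0⟩ hy'
  exact ⟨G, ball x s, isOpen_ball, mem_ball.2 hs, hG.2.2.1, germ1_ext_eq hG⟩

theorem germ1_ext_ext {x : ℂ × ℂ × ℂ} {F : ℂ × ℂ × ℂ → ℂ} (h : Germ1Val P Q x F) :
    germ1Ext P Q x (germ1Ext P Q x F) = germ1Ext P Q x F :=
  germ1_ext_congr (germ1_ext_ev h)

theorem germ1_val_ext {x : ℂ × ℂ × ℂ} {F : ℂ × ℂ × ℂ → ℂ} (h : Germ1Val P Q x F) :
    Germ1Val P Q x (germ1Ext P Q x F) := ⟨_, germ1_R_pos h, germ1_ext_sol h⟩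

theorem germ1_ball_sub {x v : ℂ × ℂ × ℂ} {r : ℝ} : ball (x + v) (r - ‖v‖) ⊆ ball x r := by
  refine ball_subset_ball' ?_
  rw [dist_eq_norm, add_sub_cancel_left]
  linarith

theorem germ1_val_add {x v : ℂ × ℂ × ℂ} {F : ℂ × ℂ × ℂ → ℂ} {r : ℝ}
    (h : IsSol P Q F (ball x r)) (hv : ‖v‖ < r) : Germ1Val P Q (x + v) F :=
  ⟨r - ‖v‖, by linarith, germ1_mono h germ1_ball_sub⟩

theorem germ1_mem_ball {x v : ℂ × ℂ × ℂ} {r : ℝ} (hv : ‖v‖ < r) : x + v ∈ ball x r := by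
  rw [mem_ball, dist_eq_norm, add_sub_cancel_left]; exact hv

variable (P Q)

/-- points of the domain of germs: a point with a maximal solution around it -/
def Germ1Car : Type :=
  {q : (ℂ × ℂ × ℂ) × (ℂ × ℂ × ℂ → ℂ) // Germ1Val P Q q.1 q.2 ∧ germ1Ext P Q q.1 q.2 = q.2}

variable {P Q}

/-- the point given by a solution near `x` -/
noncomputable def germ1Mk (x : ℂ × ℂ × ℂ) (F : ℂ × ℂ × ℂ → ℂ) (h : Germ1Val P Q x F) :
    Germ1Car P Q := ⟨(x, germ1Ext P Q x F), germ1_val_ext h, germ1_ext_ext h⟩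

theorem germ1_mk_congr {x x' : ℂ × ℂ × ℂ} {F F' : ℂ × ℂ × ℂ → ℂ} (hx : x = x')
    (h : Germ1Val P Q x F) (h' : Germ1Val P Q x' F') (he : F =ᶠ[𝓝 x] F') :
    germ1Mk x F h = germ1Mk x' F' h' := by
  subst hx
  refine Subtype.ext (Prod.ext rfl ?_)
  exact germ1_ext_congr he

theorem germ1_mk_self (e : Germ1Car P Q) (h : Germ1Val P Q e.1.1 e.1.2) :
    germ1Mk e.1.1 e.1.2 h = e := Subtype.ext (Prod.ext rfl e.2.2)

theorem germ1_sol (e : Germ1Car P Q) : IsSol P Q e.1.2 (ball e.1.1 (germ1R P Q e.1.1 e.1.2)) := by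
  have := germ1_ext_sol e.2.1
  rwa [e.2.2] at this

open Classical in
/-- translations -/
noncomputable def germ1Tr (e : Germ1Car P Q) (v : ℂ × ℂ × ℂ) : Germ1Car P Q :=
  if h : ‖v‖ < germ1R P Q e.1.1 e.1.2
  then germ1Mk (e.1.1 + v) e.1.2 (germ1_val_add (germ1_sol e) h) else e

theorem germ1_tr_pos {e : Germ1Car P Q} {v : ℂ × ℂ × ℂ} (h : ‖v‖ < germ1R P Q e.1.1 e.1.2) :
    germ1Tr e v = germ1Mk (e.1.1 + v) e.1.2 (germ1_val_add (germ1_sol e) h) := dif_pos h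

variable (P Q)

/-- the Riemann domain of germs -/
noncomputable def germ1M : RD (ℂ × ℂ × ℂ) where
  carrier := Germ1Car P Q
  pr e := e.1.1
  rad e := germ1R P Q e.1.1 e.1.2
  tr := germ1Tr
  rad_pos e := germ1_R_pos e.2.1
  tr_zero e := by
    have h : ‖(0 : ℂ × ℂ × ℂ)‖ < germ1R P Q e.1.1 e.1.2 := by
      rw [norm_zero]; exact germ1_R_pos e.2.1
    rw [germ1_tr_pos h]
    refine (germ1_mk_congr (add_zero _) _ e.2.1 ?_).trans (germ1_mk_self e _)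
    exact Filter.EventuallyEq.rfl
  pr_tr e v hv := by
    rw [germ1_tr_pos hv]; rfl
  rad_tr e v hv := by
    rw [germ1_tr_pos hv]
    change _ ≤ germ1R P Q (e.1.1 + v) (germ1Ext P Q (e.1.1 + v) e.1.2)
    rw [germ1_R_congr (germ1_ext_ev (germ1_val_add (germ1_sol e) hv))]
    refine germ1_le_R (G := e.1.2) ⟨by linarith, ?_, ?_, Filter.EventuallyEq.rfl⟩
    · have := germ1_R_le e.2.1
      have := norm_nonneg v
      linarith
    · exact germ1_mono (germ1_sol e) germ1_ball_sub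
  tr_tr e v w hv hw hvw := by
    rw [germ1_tr_pos hvw]
    rw [germ1_tr_pos hv] at hw ⊢
    rw [germ1_tr_pos hw]
    refine germ1_mk_congr (add_assoc _ _ _) _ _ ?_
    -- the function of the first step agrees with the old function
    set e' := germ1Mk (e.1.1 + v) e.1.2 (germ1_val_add (germ1_sol e) hv) with he'
    have h1 : e'.1.2 =ᶠ[𝓝 (e.1.1 + v)] e.1.2 :=
      germ1_ext_ev (germ1_val_add (germ1_sol e) hv)
    have h2 := germ1_eqOn (germ1_sol e') (germ1_sol e) (a := e.1.1 + v)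
      (mem_ball_self (germ1_R_pos e'.2.1)) (germ1_mem_ball hv) h1
    refine Filter.eventually_of_mem ((isOpen_ball.inter isOpen_ball).mem_nhds ⟨?_, ?_⟩) h2
    · exact germ1_mem_ball hw
    · change e.1.1 + v + w ∈ _
      rw [add_assoc]
      exact germ1_mem_ball hvw
  inj e e' v hp hv hv' h := by
    rw [germ1_tr_pos hv, germ1_tr_pos hv'] at h
    have h1 : germ1Ext P Q (e.1.1 + v) e.1.2 = germ1Ext P Q (e'.1.1 + v) e'.1.2 :=
      congrArg (fun q : Germ1Car P Q => q.1.2) h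
    have hp' : e.1.1 = e'.1.1 := hp
    have h2 := germ1_ext_ev (germ1_val_add (germ1_sol e) hv)
    have h3 := germ1_ext_ev (germ1_val_add (germ1_sol e') hv')
    rw [← h1, ← hp'] at h3
    have h4 : e.1.2 =ᶠ[𝓝 (e.1.1 + v)] e'.1.2 := h2.symm.trans h3
    have h5 := germ1_eqOn (germ1_sol e) (germ1_sol e') (a := e.1.1 + v) (germ1_mem_ball hv)
      (by rw [hp']; exact germ1_mem_ball hv') h4
    have h6 : e.1.2 =ᶠ[𝓝 e.1.1] e'.1.2 := by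
      refine Filter.eventually_of_mem ((isOpen_ball.inter isOpen_ball).mem_nhds ⟨?_, ?_⟩) h5
      · exact mem_ball_self (germ1_R_pos e.2.1)
      · rw [hp']; exact mem_ball_self (germ1_R_pos e'.2.1)
    refine Subtype.ext (Prod.ext hp' ?_)
    rw [← e.2.2, ← e'.2.2, ← hp']
    exact germ1_ext_congr h6

variable {P Q}

open Classical in
/-- the germ of `F` at `x` -/
noncomputable def germ1Germ (d : Germ1Car P Q) (x : ℂ × ℂ × ℂ) (F : ℂ × ℂ × ℂ → ℂ) :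
    Germ1Car P Q :=
  if h : Germ1Val P Q x F then germ1Mk x F h else d

theorem germ1_germ_pos (d : Germ1Car P Q) {x : ℂ × ℂ × ℂ} {F : ℂ × ℂ × ℂ → ℂ}
    (h : Germ1Val P Q x F) : germ1Germ d x F = germ1Mk x F h := dif_pos h

end Germ1

/-- existence of the Riemann domain of germs -/
theorem nonempty_solDomain {P Q : ℂ × ℂ → ℂ} (hP : Differentiable ℂ P)
    (hQ : Differentiable ℂ Q) (h0 : ∃ x, P x ≠ 0) : Nonempty (SolDomain P Q) := by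
  obtain ⟨p, hp⟩ := h0
  obtain ⟨r₀, hr₀, F₀, hF₀, -⟩ := exists_flow_local hP hQ hp
  let d : Germ1Car P Q := germ1Mk (p.1, p) F₀ ⟨r₀, hr₀, hF₀⟩
  refine ⟨⟨germ1M P Q, fun e => e.1.2 e.1.1, germ1Germ d, ?_, ?_, ?_, ?_, ?_, ?_, ?_⟩⟩
  · exact fun e => germ1_R_le e.2.1
  · intro x F r hr h
    rw [germ1_germ_pos d ⟨r, hr, h⟩]; rfl
  · intro x F r hr hr1 h
    have hv : Germ1Val P Q x F := ⟨r, hr, h⟩
    rw [germ1_germ_pos d hv]
    change r ≤ germ1R P Q x (germ1Ext P Q x F)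
    rw [germ1_R_congr (germ1_ext_ev hv)]
    exact germ1_le_R (G := F) ⟨hr, hr1, h, Filter.EventuallyEq.rfl⟩
  · intro x F r hr h
    have hv : Germ1Val P Q x F := ⟨r, hr, h⟩
    rw [germ1_germ_pos d hv]
    exact (germ1_ext_ev hv).self_of_nhds
  · intro x F r hr hr1 h v hv
    have hV : Germ1Val P Q x F := ⟨r, hr, h⟩
    have hV' : Germ1Val P Q (x + v) F := germ1_val_add h hv
    rw [germ1_germ_pos d hV, germ1_germ_pos d hV']
    have hrep : Germ1Rep P Q x F r F := ⟨hr, hr1, h, Filter.EventuallyEq.rfl⟩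
    have hlt : ‖v‖ < germ1R P Q (germ1Mk x F hV).1.1 (germ1Mk x F hV).1.2 := by
      change ‖v‖ < germ1R P Q x (germ1Ext P Q x F)
      rw [germ1_R_congr (germ1_ext_ev hV)]
      exact hv.trans_le (germ1_le_R hrep)
    change germ1Tr (germ1Mk x F hV) v = _
    rw [germ1_tr_pos hlt]
    refine germ1_mk_congr rfl _ _ ?_
    exact Filter.eventually_of_mem (isOpen_ball.mem_nhds (germ1_mem_ball hv)) (germ1_ext_eq hrep)
  · intro x F G r hr hF hG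
    have hVF : Germ1Val P Q x F := ⟨r, hr, hF⟩
    have hVG : Germ1Val P Q x G := ⟨r, hr, hG⟩
    rw [germ1_germ_pos d hVF, germ1_germ_pos d hVG]
    constructor
    · intro h
      have h1 : germ1Ext P Q x F = germ1Ext P Q x G :=
        congrArg (fun q : Germ1Car P Q => q.1.2) h
      have h2 := germ1_ext_ev hVF
      rw [h1] at h2
      exact h2.symm.trans (germ1_ext_ev hVG)
    · exact fun h => germ1_mk_congr rfl _ _ h
  · intro e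
    refine ⟨e.1.2, germ1_sol e, ?_⟩
    change germ1Germ d e.1.1 e.1.2 = e
    rw [germ1_germ_pos d e.2.1]
    exact germ1_mk_self e _

end Pool.Agent.ParLeaf
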