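import Pool.Agent.H.MP_3a36cd_an.SCV1

/-! MP_3a36cd_an, module SCV2: Taylor coefficients along lines. -/

open Set Metric Filter Topology Complex
open scoped ContDiff

namespace Pool.Agent.ParLeaf

section
variable {E : Type} [NormedAddCommGroup E] [NormedSpace ℂ E]

/-- Taylor coefficients along lines: `(1/n!) (d/dζ)^n f(x + ζ v)` at `ζ = 0` -/
noncomputable def tc (f : E → ℂ) (n : ℕ) (x v : E) : ℂ :=
  iteratedDeriv n (fun ζ : ℂ => f (x + ζ • v)) 0 / (n.factorial : ℂ)

theorem SCV2_iteratedDeriv_comp (h : ℂ → ℂ) (c : ℂ) (n : ℕ) :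
    iteratedDeriv n (fun ζ : ℂ => h (c * ζ)) = fun ζ => c ^ n * iteratedDeriv n h (c * ζ) := by
  induction n with
  | zero =>
    funext ζ
    rw [iteratedDeriv_zero, iteratedDeriv_zero, pow_zero, one_mul]
  | succ n ih =>
    funext ζ
    rw [iteratedDeriv_succ, ih, deriv_const_mul_field, deriv_comp_mul_left c (iteratedDeriv n h) ζ,
      iteratedDeriv_succ, smul_eq_mul, pow_succ, mul_assoc]

theorem tc_smul (f : E → ℂ) (n : ℕ) (x v : E) (c : ℂ) : tc f n x (c • v) = c ^ n * tc f n x v := by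
  unfold tc
  have e : (fun ζ : ℂ => f (x + ζ • c • v)) = fun ζ => (fun ξ : ℂ => f (x + ξ • v)) (c * ζ) := by
    funext ζ
    simp only [smul_smul, mul_comm]
  rw [e, SCV2_iteratedDeriv_comp (fun ξ : ℂ => f (x + ξ • v)) c n]
  simp only [mul_zero]
  rw [mul_div_assoc]

theorem SCV2_line {f : E → ℂ} {U : Set E} (hf : DifferentiableOn ℂ f U) (x v : E) :
    DifferentiableOn ℂ (fun ζ : ℂ => f (x + ζ • v)) {ζ | x + ζ • v ∈ U} := by
  apply hf.comp (f := fun ζ : ℂ => x + ζ • v) _ (fun ζ hζ => hζ)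
  exact ((differentiable_id.smul_const v).const_add x).differentiableOn

/-- Cauchy estimate -/
theorem tc_le {f : E → ℂ} {x : E} {r B : ℝ} (hf : DifferentiableOn ℂ f (ball x r))
    (hB : ∀ y ∈ ball x r, ‖f y‖ ≤ B) (n : ℕ) {v : E} (hv : ‖v‖ < r) : ‖tc f n x v‖ ≤ B := by
  have hmem : ∀ ζ : ℂ, ‖ζ‖ ≤ 1 → x + ζ • v ∈ ball x r := by
    intro ζ hζ
    rw [mem_ball_iff_norm, add_sub_cancel_left, norm_smul]
    calc ‖ζ‖ * ‖v‖ ≤ 1 * ‖v‖ := mul_le_mul_of_nonneg_right hζ (norm_nonneg _)
      _ < r := by rw [one_mul]; exact hv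
  have hd : DiffContOnCl ℂ (fun ζ : ℂ => f (x + ζ • v)) (ball 0 1) := by
    apply DifferentiableOn.diffContOnCl
    refine (SCV2_line hf x v).mono ?_
    rw [closure_ball (0 : ℂ) one_ne_zero]
    intro ζ hζ
    exact hmem ζ (mem_closedBall_zero_iff.1 hζ)
  have h1 := Complex.norm_iteratedDeriv_le_of_forall_mem_sphere_norm_le n one_pos hd
    (C := B) (fun ζ hζ => hB _ (hmem ζ (mem_sphere_zero_iff_norm.1 hζ).le))
  unfold tc
  rw [one_pow, div_one] at h1
  rw [norm_div, Complex.norm_natCast, div_le_iff₀ (by positivity), mul_comm]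
  exact h1

/-- the coefficients in terms of the iterated derivative -/
theorem SCV2_tc_eq {f : E → ℂ} {U : Set E} (hU : IsOpen U) (hf : ContDiffOn ℂ ∞ f U) (n : ℕ)
    {x : E} (hx : x ∈ U) (v : E) :
    tc f n x v = iteratedFDeriv ℂ n f x (fun _ => v) / (n.factorial : ℂ) := by
  unfold tc
  congr 1
  set g : ℂ →L[ℂ] E := ContinuousLinearMap.toSpanSingleton ℂ v with hg
  set s : Set E := (fun y => x + y) ⁻¹' U with hs
  have hso : IsOpen s := hU.preimage (continuous_const.add continuous_id)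
  have hft : ContDiffOn ℂ ∞ (fun y => f (x + y)) s :=
    hf.comp (contDiff_const.add contDiff_id).contDiffOn (fun y hy => hy)
  have hgs : IsOpen (g ⁻¹' s) := hso.preimage g.continuous
  have h0 : g 0 ∈ s := by
    rw [map_zero]
    change x + 0 ∈ U
    rw [add_zero]
    exact hx
  have e1 : (fun ζ : ℂ => f (x + ζ • v)) = (fun y => f (x + y)) ∘ g := by
    funext ζ
    simp [hg, ContinuousLinearMap.toSpanSingleton_apply]
  rw [iteratedDeriv_eq_iteratedFDeriv, e1,
    ← iteratedFDerivWithin_of_isOpen n hgs h0,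
    g.iteratedFDerivWithin_comp_right hft hso.uniqueDiffOn hgs.uniqueDiffOn h0
      (by exact_mod_cast le_top),
    iteratedFDerivWithin_of_isOpen n hso h0, map_zero]
  rw [iteratedFDeriv_comp_add_left]
  rw [ContinuousMultilinearMap.compContinuousLinearMap_apply, add_zero]
  congr 1
  funext i
  simp [hg, ContinuousLinearMap.toSpanSingleton_apply]

/-- holomorphic dependence of the coefficients on the centre -/
theorem tc_differentiableOn [FiniteDimensional ℂ E] {f : E → ℂ} {U : Set E} (hU : IsOpen U)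
    (hf : DifferentiableOn ℂ f U)
    (n : ℕ) (v : E) : DifferentiableOn ℂ (fun x => tc f n x v) U := by
  have hf' := scv_contDiffOn hU hf
  have h1 : DifferentiableOn ℂ (fun x => iteratedFDeriv ℂ n f x (fun _ => v)) U := by
    intro x hx
    have h2 : DifferentiableWithinAt ℂ (iteratedFDerivWithin ℂ n f U) U x :=
      hf'.differentiableOn_iteratedFDerivWithin (by exact_mod_cast ENat.natCast_lt_top n)
        hU.uniqueDiffOn x hx
    have h3 : DifferentiableAt ℂ (iteratedFDerivWithin ℂ n f U) x :=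
      h2.differentiableAt (hU.mem_nhds hx)
    have h4 : DifferentiableAt ℂ (iteratedFDeriv ℂ n f) x := by
      refine h3.congr_of_eventuallyEq ?_
      filter_upwards [hU.mem_nhds hx] with y hy
      exact (iteratedFDerivWithin_of_isOpen n hU hy).symm
    exact ((ContinuousMultilinearMap.apply ℂ (fun _ : Fin n => E) ℂ
      (fun _ => v)).differentiableAt.comp x h4).differentiableWithinAt
  have h5 := h1.const_mul ((n.factorial : ℂ)⁻¹)
  refine h5.congr ?_
  intro x hx
  rw [SCV2_tc_eq hU hf' n hx v, div_eq_inv_mul]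

theorem SCV2_tc_diff_v [FiniteDimensional ℂ E] {f : E → ℂ} {U : Set E} (hU : IsOpen U)
    (hf : DifferentiableOn ℂ f U) (n : ℕ) {x : E} (hx : x ∈ U) :
    Differentiable ℂ (fun v => tc f n x v) := by
  have hf' := scv_contDiffOn hU hf
  have e : (fun v => tc f n x v) =
      fun v => (n.factorial : ℂ)⁻¹ * iteratedFDeriv ℂ n f x (fun _ => v) := by
    funext v
    rw [SCV2_tc_eq hU hf' n hx v, div_eq_inv_mul]
  rw [e]
  have h1 : Differentiable ℂ (fun m : Fin n → E => iteratedFDeriv ℂ n f x m) :=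
    fun m => ((iteratedFDeriv ℂ n f x).hasStrictFDerivAt m).hasFDerivAt.differentiableAt
  have h2 : Differentiable ℂ (fun v : E => iteratedFDeriv ℂ n f x (fun _ => v)) :=
    h1.comp (differentiable_pi.2 fun _ => differentiable_id)
  exact h2.const_mul _

theorem SCV2_tc_bound {f : E → ℂ} {x : E} {s B : ℝ} (hB : ∀ n v, ‖v‖ < s → ‖tc f n x v‖ ≤ B)
    {s1 s2 : ℝ} (h2 : 0 < s2) (h2s : s2 < s) (n : ℕ) {v : E} (hv : ‖v‖ ≤ s1) :
    ‖tc f n x v‖ ≤ B * (s1 / s2) ^ n := by
  have hs1 : 0 ≤ s1 := (norm_nonneg v).trans hv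
  have hB0 : 0 ≤ B := (norm_nonneg _).trans (hB 0 0 (by rw [norm_zero]; linarith))
  by_cases h0 : v = 0
  · rcases Nat.eq_zero_or_pos n with hn | hn
    · subst hn
      rw [pow_zero, mul_one]
      exact hB 0 v (by rw [h0, norm_zero]; linarith)
    · have e : tc f n x v = 0 := by
        have := tc_smul f n x v 0
        rw [zero_smul, zero_pow (by omega), zero_mul] at this
        rw [h0]
        exact this
      rw [e, norm_zero]
      positivity
  · have hv0 : 0 < ‖v‖ := norm_pos_iff.2 h0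
    have e : v = ((‖v‖ / s2 : ℝ) : ℂ) • (((s2 / ‖v‖ : ℝ) : ℂ) • v) := by
      rw [smul_smul, ← Complex.ofReal_mul]
      have : ‖v‖ / s2 * (s2 / ‖v‖) = 1 := by
        field_simp
      rw [this, Complex.ofReal_one, one_smul]
    rw [e, tc_smul, norm_mul, norm_pow, Complex.norm_real, Real.norm_of_nonneg (by positivity),
      mul_comm]
    apply mul_le_mul _ _ (by positivity) hB0
    · apply hB
      rw [norm_smul, Complex.norm_real, Real.norm_of_nonneg (by positivity),
        div_mul_cancel₀ _ hv0.ne']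
      exact h2s
    · apply pow_le_pow_left₀ (by positivity)
      gcongr

/-- bounded coefficients on `ball 0 s` give a holomorphic extension to `ball x s` -/
theorem tc_extend [FiniteDimensional ℂ E] {f : E → ℂ} {x : E} {r s B : ℝ} (hr : 0 < r)
    (hrs : r ≤ s)
    (hf : DifferentiableOn ℂ f (ball x r)) (hB : ∀ n v, ‖v‖ < s → ‖tc f n x v‖ ≤ B) :
    ∃ F : E → ℂ, DifferentiableOn ℂ F (ball x s) ∧ EqOn F f (ball x r) := by
  refine ⟨fun y => ∑' n, tc f n x (y - x), ?_, ?_⟩
  · refine scv_limit (f := fun N y => ∑ n ∈ Finset.range N, tc f n x (y - x)) isOpen_ball ?_ ?_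
    · intro N
      apply Differentiable.differentiableOn
      apply Differentiable.fun_sum
      intro n _
      exact (SCV2_tc_diff_v isOpen_ball hf n (mem_ball_self hr)).comp
        (differentiable_id.sub_const x)
    · intro u hu y hy
      rw [mem_ball_iff_norm] at hy
      obtain ⟨s1, h1, h1'⟩ := exists_between hy
      obtain ⟨s2, h2, h2'⟩ := exists_between h1'
      have hs1 : 0 < s1 := (norm_nonneg _).trans_lt h1
      have hs2 : 0 < s2 := hs1.trans h2
      have hsum : Summable (fun n : ℕ => B * (s1 / s2) ^ n) := by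
        apply Summable.mul_left
        apply summable_geometric_of_lt_one (by positivity)
        rw [div_lt_one hs2]
        exact h2
      have hunif := tendstoUniformlyOn_tsum_nat (f := fun n y => tc f n x (y - x))
        (s := ball x s1) hsum (fun n y hy => by
          rw [mem_ball_iff_norm] at hy
          exact SCV2_tc_bound hB hs2 h2' n hy.le)
      refine ⟨ball x s1, mem_nhdsWithin_of_mem_nhds (isOpen_ball.mem_nhds ?_), hunif u hu⟩
      rw [mem_ball_iff_norm]
      exact h1
  · intro y hy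
    rw [mem_ball_iff_norm] at hy
    change ∑' n, tc f n x (y - x) = f y
    set v := y - x with hv
    have hpos : ∃ R : ℝ, 1 < R ∧ ∀ ζ : ℂ, ‖ζ‖ < R → x + ζ • v ∈ ball x r := by
      by_cases h0 : v = 0
      · refine ⟨2, one_lt_two, fun ζ _ => ?_⟩
        rw [h0, smul_zero, add_zero]
        exact mem_ball_self hr
      · have hv0 : 0 < ‖v‖ := norm_pos_iff.2 h0
        refine ⟨r / ‖v‖, by rwa [one_lt_div hv0], fun ζ hζ => ?_⟩
        rw [mem_ball_iff_norm, add_sub_cancel_left, norm_smul]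
        rwa [lt_div_iff₀ hv0] at hζ
    obtain ⟨R, hR, hmem⟩ := hpos
    have hg : DifferentiableOn ℂ (fun ζ : ℂ => f (x + ζ • v)) (ball 0 R) :=
      (SCV2_line hf x v).mono fun ζ hζ => hmem ζ (mem_ball_zero_iff.1 hζ)
    have h1 := Complex.hasSum_taylorSeries_on_ball hg (z := 1)
      (by rw [mem_ball_zero_iff, norm_one]; exact hR)
    have h2 : ∀ n : ℕ, ((n.factorial : ℂ))⁻¹ • ((1 : ℂ) - 0) ^ n •
        iteratedDeriv n (fun ζ : ℂ => f (x + ζ • v)) 0 = tc f n x v := by
      intro n
      unfold tc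
      rw [sub_zero, one_pow, one_smul, smul_eq_mul, div_eq_inv_mul]
    simp only [h2] at h1
    rw [h1.tsum_eq, one_smul, hv, add_sub_cancel]

end

end Pool.Agent.ParLeaf
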