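import Pool.Agent.H.MP_3a36cd_an.Germ1
import Pool.Agent.H.MP_3a36cd_an.SCV2

/-! MP_3a36cd_an, module Germ2: determining functions. -/

open Set Metric Filter Topology Complex
open scoped ContDiff

namespace Pool.Agent.ParLeaf

namespace RD

/-- Taylor coefficients of a function on a Riemann domain -/
noncomputable def tcM {E : Type} [NormedAddCommGroup E] [NormedSpace ℂ E] (M : RD E)
    (f : M.carrier → ℂ) (n : ℕ) (v : E) (e : M.carrier) : ℂ :=
  iteratedDeriv n (fun ζ : ℂ => f (M.tr e (ζ • v))) 0 / (n.factorial : ℂ)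

/-- a family of holomorphic functions which determines the radius function -/
def Det {E : Type} [NormedAddCommGroup E] [NormedSpace ℂ E] {ι : Type} (M : RD E)
    (f : ι → M.carrier → ℂ) : Prop :=
  (∀ i, M.Holo (f i)) ∧ ∀ e s, s ≤ 1 →
    (∀ i, ∃ B : ℝ, ∀ n v, ‖v‖ < s → ‖M.tcM (f i) n v e‖ ≤ B) → s ≤ M.rad e

/-- the coefficients of a function on a Riemann domain are those of its local expression -/
theorem germ2_tcM_eq {E : Type} [NormedAddCommGroup E] [NormedSpace ℂ E] (M : RD E)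
    (f : M.carrier → ℂ) (g : E → ℂ) (e : M.carrier) (x : E)
    (h : ∀ v, ‖v‖ < M.rad e → f (M.tr e v) = g (x + v)) (n : ℕ) (v : E) :
    M.tcM f n v e = tc g n x v := by
  unfold tcM tc
  congr 1
  refine Filter.EventuallyEq.iteratedDeriv_eq n ?_
  have hc : Filter.Tendsto (fun ζ : ℂ => ‖ζ • v‖) (𝓝 0) (𝓝 0) := by
    have : Continuous (fun ζ : ℂ => ‖ζ • v‖) := by fun_prop
    exact this.tendsto' _ _ (by simp)
  filter_upwards [hc.eventually (gt_mem_nhds (M.rad_pos e))] with ζ hζ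
  exact h _ hζ

end RD

namespace SolDomain

variable {P Q : ℂ × ℂ → ℂ} (D : SolDomain P Q)

/-- the two determining functions `W` and `1 / P(z, W)` -/
noncomputable def detFun : Bool → D.M.carrier → ℂ
  | true => D.W
  | false => fun e => (P ((D.M.pr e).1, D.W e))⁻¹

theorem germ2_rep (e : D.M.carrier) : ∃ F : ℂ × ℂ × ℂ → ℂ,
    IsSol P Q F (ball (D.M.pr e) (D.M.rad e)) ∧ D.germ (D.M.pr e) F = e ∧
    (∀ v, ‖v‖ < D.M.rad e → D.W (D.M.tr e v) = F (D.M.pr e + v)) ∧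
    ∀ v, ‖v‖ < D.M.rad e → (P ((D.M.pr (D.M.tr e v)).1, D.W (D.M.tr e v)))⁻¹ =
      (fun y : ℂ × ℂ × ℂ => (P (y.1, F y))⁻¹) (D.M.pr e + v) := by
  obtain ⟨F, hF, hg⟩ := D.exists_rep e
  have hW : ∀ v, ‖v‖ < D.M.rad e → D.W (D.M.tr e v) = F (D.M.pr e + v) := by
    intro v hv
    have h1 : D.M.tr e v = D.germ (D.M.pr e + v) F := by
      have h2 := D.tr_germ (D.M.pr e) F (D.M.rad e) (D.M.rad_pos e) (D.rad_le_one e) hF v hv
      rwa [hg] at h2
    rw [h1]
    exact D.W_germ _ F (D.M.rad e - ‖v‖) (by linarith) (germ1_mono hF germ1_ball_sub)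
  refine ⟨F, hF, hg, hW, fun v hv => ?_⟩
  rw [hW v hv, D.M.pr_tr e v hv]

theorem det (hP : Differentiable ℂ P) (hQ : Differentiable ℂ Q) : D.M.Det D.detFun := by
  have key : ∀ {x : ℂ × ℂ × ℂ} {r : ℝ} {F : ℂ × ℂ × ℂ → ℂ}, IsSol P Q F (ball x r) →
      DifferentiableOn ℂ (fun y : ℂ × ℂ × ℂ => (P (y.1, F y))⁻¹) (ball x r) := by
    intro x r F hF
    refine DifferentiableOn.inv ?_ (fun y hy => (hF.2 y hy).1)
    refine hP.comp_differentiableOn ?_
    exact (differentiable_fst.differentiableOn).prodMk hF.1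
  constructor
  · intro i e
    obtain ⟨F, hF, -, hW, hV⟩ := D.germ2_rep e
    have hmaps : MapsTo (fun v : ℂ × ℂ × ℂ => D.M.pr e + v) (ball 0 (D.M.rad e))
        (ball (D.M.pr e) (D.M.rad e)) := fun v hv => germ1_mem_ball (by simpa using hv)
    have hd : DifferentiableOn ℂ (fun v : ℂ × ℂ × ℂ => D.M.pr e + v) (ball 0 (D.M.rad e)) :=
      (by fun_prop : Differentiable ℂ (fun v : ℂ × ℂ × ℂ => D.M.pr e + v)).differentiableOn
    cases i with
    | true =>
      exact (hF.1.comp hd hmaps).congr (fun v hv => hW v (by simpa using hv))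
    | false =>
      exact ((key hF).comp hd hmaps).congr (fun v hv => hV v (by simpa using hv))
  · intro e s hs1 hB
    by_contra hlt
    push Not at hlt
    obtain ⟨F, hF, hg, hW, hV⟩ := D.germ2_rep e
    set x := D.M.pr e with hx
    set ρ := D.M.rad e with hρ
    have hρ0 : 0 < ρ := D.M.rad_pos e
    obtain ⟨B₁, hB₁⟩ := hB true
    obtain ⟨B₂, hB₂⟩ := hB false
    have hB₁' : ∀ n v, ‖v‖ < s → ‖tc F n x v‖ ≤ B₁ := by
      intro n v hv
      rw [← D.M.germ2_tcM_eq D.W F e x hW n v]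
      exact hB₁ n v hv
    have hB₂' : ∀ n v, ‖v‖ < s →
        ‖tc (fun y : ℂ × ℂ × ℂ => (P (y.1, F y))⁻¹) n x v‖ ≤ B₂ := by
      intro n v hv
      rw [← D.M.germ2_tcM_eq (D.detFun false) (fun y : ℂ × ℂ × ℂ => (P (y.1, F y))⁻¹) e x hV n v]
      exact hB₂ n v hv
    obtain ⟨F₁, hF₁, hE₁⟩ := tc_extend hρ0 hlt.le hF.1 hB₁'
    obtain ⟨V₁, hV₁, hE₂⟩ := tc_extend hρ0 hlt.le (key hF) hB₂'
    have hs0 : 0 < s := hρ0.trans hlt
    have hP₁ : DifferentiableOn ℂ (fun y : ℂ × ℂ × ℂ => P (y.1, F₁ y)) (ball x s) :=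
      hP.comp_differentiableOn ((differentiable_fst.differentiableOn).prodMk hF₁)
    have hQ₁ : DifferentiableOn ℂ (fun y : ℂ × ℂ × ℂ => Q (y.1, F₁ y)) (ball x s) :=
      hQ.comp_differentiableOn ((differentiable_fst.differentiableOn).prodMk hF₁)
    have hnear : ∀ᶠ y in 𝓝 x, y ∈ ball x ρ := ball_mem_nhds x hρ0
    -- `P V₁ = 1`
    have h1 : EqOn (fun y : ℂ × ℂ × ℂ => P (y.1, F₁ y) * V₁ y) (fun _ => 1) (ball x s) := by
      refine scv_identity isOpen_ball (convex_ball x s) (hP₁.mul hV₁)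
        (differentiableOn_const _) (mem_ball_self hs0) ?_
      filter_upwards [hnear] with y hy
      rw [hE₁ hy, hE₂ hy]
      exact mul_inv_cancel₀ (hF.2 y hy).1
    -- the derivative
    have hsm : ContDiffOn ℂ ∞ F₁ (ball x s) := scv_contDiffOn isOpen_ball hF₁
    have hfd : DifferentiableOn ℂ (fun y => fderiv ℂ F₁ y ((1, 0) : ℂ × ℂ × ℂ)) (ball x s) := by
      have h2 : ContDiffOn ℂ 1 (fderiv ℂ F₁) (ball x s) :=
        hsm.fderiv_of_isOpen isOpen_ball (by
          rw [one_add_one_eq_two]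
          exact WithTop.coe_le_coe.2 (le_top : (2 : ℕ∞) ≤ ⊤))
      have h3 : DifferentiableOn ℂ (fderiv ℂ F₁) (ball x s) := h2.differentiableOn (by norm_num)
      exact h3.clm_apply (differentiableOn_const _)
    have hder : ∀ y ∈ ball x s, HasDerivAt (fun z : ℂ => F₁ (z, y.2))
        (fderiv ℂ F₁ y ((1, 0) : ℂ × ℂ × ℂ)) y.1 := by
      intro y hy
      have h2 : HasFDerivAt F₁ (fderiv ℂ F₁ y) y :=
        ((hF₁ y hy).differentiableAt (isOpen_ball.mem_nhds hy)).hasFDerivAt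
      have h3 : HasDerivAt (fun z : ℂ => ((z, y.2) : ℂ × ℂ × ℂ)) ((1, 0) : ℂ × ℂ × ℂ) y.1 :=
        (hasDerivAt_id y.1).prodMk (hasDerivAt_const y.1 y.2)
      exact HasFDerivAt.comp_hasDerivAt (f := fun z : ℂ => ((z, y.2) : ℂ × ℂ × ℂ)) y.1 h2 h3
    have h4 : EqOn (fun y => fderiv ℂ F₁ y ((1, 0) : ℂ × ℂ × ℂ))
        (fun y => Q (y.1, F₁ y) * V₁ y) (ball x s) := by
      refine scv_identity isOpen_ball (convex_ball x s) hfd (hQ₁.mul hV₁) (mem_ball_self hs0) ?_
      filter_upwards [hnear] with y hy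
      have hy' : y ∈ ball x s := ball_subset_ball hlt.le hy
      have h5 := (hF.2 y hy).2
      have h6 : HasDerivAt (fun z : ℂ => F₁ (z, y.2)) (Q (y.1, F y) / P (y.1, F y)) y.1 := by
        refine h5.congr_of_eventuallyEq ?_
        have hc : Filter.Tendsto (fun z : ℂ => ((z, y.2) : ℂ × ℂ × ℂ)) (𝓝 y.1) (𝓝 y) := by
          have : Continuous (fun z : ℂ => ((z, y.2) : ℂ × ℂ × ℂ)) := by fun_prop
          exact this.tendsto' _ _ rfl
        filter_upwards [hc.eventually (isOpen_ball.mem_nhds hy)] with z hz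
        exact hE₁ hz
      rw [(hder y hy').unique h6, hE₁ hy, hE₂ hy, div_eq_mul_inv]
    have hne : ∀ y ∈ ball x s, P (y.1, F₁ y) ≠ 0 := fun y hy h0 => by
      have := h1 hy
      simp only [h0, zero_mul] at this
      exact zero_ne_one this
    have hsol : IsSol P Q F₁ (ball x s) := by
      refine ⟨hF₁, fun y hy => ⟨hne y hy, ?_⟩⟩
      have h7 := hder y hy
      have h8 : fderiv ℂ F₁ y ((1, 0) : ℂ × ℂ × ℂ) = Q (y.1, F₁ y) * V₁ y := h4 hy
      have h9 : P (y.1, F₁ y) * V₁ y = 1 := h1 hy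
      have h10 : V₁ y = (P (y.1, F₁ y))⁻¹ := eq_inv_of_mul_eq_one_right h9
      rw [h8, h10, ← div_eq_mul_inv] at h7
      exact h7
    have hsol' : IsSol P Q F₁ (ball x ρ) := germ1_mono hsol (ball_subset_ball hlt.le)
    have hgerm : D.germ x F₁ = e := by
      rw [← hg]
      exact (D.germ_eq x F₁ F ρ hρ0 hsol' hF).2 (Filter.eventually_of_mem hnear hE₁)
    have := D.rad_germ x F₁ s hs0 hs1 hsol
    rw [hgerm] at this
    linarith

end SolDomain

end Pool.Agent.ParLeaf
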