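import Pool.Agent.H.MP_3a36cd_an.Surf2
import Pool.Agent.H.MP_3a36cd_an.NormChange

/-! MP_3a36cd_an, module GreenA: real test functions, extension by zero, energy algebra. -/

open Set Metric Filter Topology Complex MeasureTheory Real
open scoped ContDiff

namespace Pool.Agent.ParLeaf

namespace RD

variable (R : RD ℂ)

/-! ### Continuity of translations -/

theorem green_continuousAt_tr {x : R.carrier} {v : ℂ} (h : ‖v‖ < R.rad x) :
    ContinuousAt (R.tr x) v :=
  (R.continuousAt_tr h).comp (f := fun v => (x, v)) (by fun_prop)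

theorem green_tendsto_tr (y : R.carrier) : Tendsto (R.tr y) (𝓝 0) (𝓝 y) := by
  rw [R.nhds_eq y]
  exact tendsto_map

/-! ### Extension by zero -/

open Classical in
/-- extension by zero of a function on a disc -/
noncomputable def gext {F : Type} [Zero F] (x : R.carrier) (φ : ℂ → F) (y : R.carrier) : F :=
  if ∃ ζ, ‖ζ‖ < R.rad x ∧ y = R.tr x ζ then φ (R.pr y - R.pr x) else 0

theorem gext_tr {F : Type} [Zero F] {x : R.carrier} (φ : ℂ → F) {ζ : ℂ} (h : ‖ζ‖ < R.rad x) :
    R.gext x φ (R.tr x ζ) = φ ζ := by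
  unfold gext
  rw [if_pos ⟨ζ, h, rfl⟩, R.pr_tr x ζ h, add_sub_cancel_left]

theorem gext_zero {F : Type} [Zero F] {x : R.carrier} {φ : ℂ → F} {y : R.carrier}
    (h : y ∉ R.tr x '' (tsupport φ)) : R.gext x φ y = 0 := by
  unfold gext
  split_ifs with hy
  · obtain ⟨ζ, hζ, rfl⟩ := hy
    rw [R.pr_tr x ζ hζ, add_sub_cancel_left]
    by_contra h0
    exact h ⟨ζ, subset_tsupport φ h0, rfl⟩
  · rfl

theorem gext_isCompact {F : Type} [Zero F] {x : R.carrier} {φ : ℂ → F}
    (hc : HasCompactSupport φ) (hs : tsupport φ ⊆ ball 0 (R.rad x)) :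
    IsCompact (R.tr x '' (tsupport φ)) :=
  hc.isCompact.image_of_continuousOn fun _ hv =>
    (R.green_continuousAt_tr (mem_ball_zero_iff.1 (hs hv))).continuousWithinAt

theorem gext_tsupport {F : Type} [Zero F] {x : R.carrier} {φ : ℂ → F}
    (hc : HasCompactSupport φ) (hs : tsupport φ ⊆ ball 0 (R.rad x)) :
    tsupport (R.gext x φ) ⊆ R.tr x '' (tsupport φ) := by
  apply closure_minimal _ (R.gext_isCompact hc hs).isClosed
  intro y hy
  by_contra h
  exact hy (R.gext_zero h)

theorem gext_hasCompactSupport {F : Type} [Zero F] {x : R.carrier} {φ : ℂ → F}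
    (hc : HasCompactSupport φ) (hs : tsupport φ ⊆ ball 0 (R.rad x)) :
    HasCompactSupport (R.gext x φ) :=
  (R.gext_isCompact hc hs).of_isClosed_subset (isClosed_tsupport _) (R.gext_tsupport hc hs)

theorem gext_eventually {F : Type} [Zero F] {x : R.carrier} (φ : ℂ → F) {ζ : ℂ}
    (h : ‖ζ‖ < R.rad x) :
    (fun v => R.gext x φ (R.tr (R.tr x ζ) v)) =ᶠ[𝓝 0] fun v => φ (ζ + v) := by
  have h1 : ∀ᶠ v : ℂ in 𝓝 0, ‖v‖ < R.rad (R.tr x ζ) := by
    have := ball_mem_nhds (0 : ℂ) (R.rad_pos (R.tr x ζ))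
    filter_upwards [this] with v hv using mem_ball_zero_iff.1 hv
  have h2 : ∀ᶠ v : ℂ in 𝓝 0, ‖ζ + v‖ < R.rad x := by
    have hc : Continuous fun v : ℂ => ‖ζ + v‖ := by fun_prop
    have := hc.tendsto 0
    rw [add_zero] at this
    exact this.eventually (gt_mem_nhds h)
  filter_upwards [h1, h2] with v hv1 hv2
  rw [R.tr_tr x ζ v h hv1 hv2, R.gext_tr φ hv2]

theorem gext_eventually_zero {F : Type} [Zero F] {x : R.carrier} {φ : ℂ → F}
    (hc : HasCompactSupport φ) (hs : tsupport φ ⊆ ball 0 (R.rad x)) {y : R.carrier}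
    (h : y ∉ R.tr x '' (tsupport φ)) :
    (fun v => R.gext x φ (R.tr y v)) =ᶠ[𝓝 0] fun _ => 0 := by
  have h1 : (R.tr x '' (tsupport φ))ᶜ ∈ 𝓝 y :=
    (R.gext_isCompact hc hs).isClosed.isOpen_compl.mem_nhds h
  filter_upwards [R.green_tendsto_tr y h1] with v hv
  exact R.gext_zero hv

theorem gext_smooth {F : Type} [NormedAddCommGroup F] [NormedSpace ℝ F] {x : R.carrier}
    {φ : ℂ → F} (hφ : ContDiff ℝ ∞ φ)
    (hc : HasCompactSupport φ) (hs : tsupport φ ⊆ ball 0 (R.rad x)) :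
    R.Smooth (R.gext x φ) univ := by
  intro y _
  by_cases h : y ∈ R.tr x '' (tsupport φ)
  · obtain ⟨ζ, hζ, rfl⟩ := h
    have h1 := R.gext_eventually φ (mem_ball_zero_iff.1 (hs hζ))
    refine ContDiffAt.congr_of_eventuallyEq ?_ h1
    exact (hφ.comp (contDiff_const.add contDiff_id)).contDiffAt
  · exact contDiffAt_const.congr_of_eventuallyEq (R.gext_eventually_zero hc hs h)

/-! ### Real test functions -/

/-- real test functions -/
def RT (g : R.carrier → ℝ) : Prop := R.Smooth g univ ∧ HasCompactSupport g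

variable {R}

theorem Smooth.ofReal {g : R.carrier → ℝ} {U : Set R.carrier} (h : R.Smooth g U) :
    R.Smooth (fun y => (g y : ℂ)) U := fun e he =>
  (Complex.ofRealCLM.contDiff.contDiffAt (x := g (R.tr e 0))).comp (0 : ℂ) (h e he)

theorem RT.test {g : R.carrier → ℝ} (h : R.RT g) : R.Test (fun y => (g y : ℂ)) :=
  ⟨h.1.ofReal, h.2.comp_left (g := fun t : ℝ => (t : ℂ)) Complex.ofReal_zero⟩

theorem RT.continuous {g : R.carrier → ℝ} (h : R.RT g) : Continuous g := by
  rw [← continuousOn_univ]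
  exact Smooth.continuousOn R isOpen_univ h.1

theorem Test.continuous {g : R.carrier → ℂ} (h : R.Test g) : Continuous g := by
  rw [← continuousOn_univ]
  exact Smooth.continuousOn R isOpen_univ h.1

theorem RT.add {g h : R.carrier → ℝ} (hg : R.RT g) (hh : R.RT h) :
    R.RT (fun y => g y + h y) :=
  ⟨fun e he => (hg.1 e he).add (hh.1 e he), hg.2.add hh.2⟩

theorem RT.const_mul {g : R.carrier → ℝ} (hg : R.RT g) (c : ℝ) :
    R.RT (fun y => c * g y) :=
  ⟨fun e he => contDiffAt_const.mul (hg.1 e he), hg.2.mul_left (f := fun _ => c)⟩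

theorem RT.sub {g h : R.carrier → ℝ} (hg : R.RT g) (hh : R.RT h) :
    R.RT (fun y => g y - h y) :=
  ⟨fun e he => (hg.1 e he).sub (hh.1 e he), hg.2.sub hh.2⟩

theorem RT.comp {g : R.carrier → ℝ} (hg : R.RT g) {T : ℝ → ℝ} (hT : ContDiff ℝ ∞ T)
    (hT0 : T 0 = 0) : R.RT (fun y => T (g y)) :=
  ⟨fun e he => (hT.contDiffAt (x := g (R.tr e 0))).comp (0 : ℂ) (hg.1 e he),
    hg.2.comp_left (g := T) hT0⟩

variable (R)

/-- the derivative `∂_z̄` of a real function -/
noncomputable def gD (g : R.carrier → ℝ) (y : R.carrier) : ℂ := R.dzb (fun y => (g y : ℂ)) y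

variable {R}

theorem differentiableAt_of_smooth {g : R.carrier → ℝ} (hg : R.Smooth g univ) (y : R.carrier) :
    DifferentiableAt ℝ (fun v => g (R.tr y v)) 0 :=
  (hg y (mem_univ _)).differentiableAt (by simp)

theorem fderiv_ofReal' {u : ℂ → ℝ} {x : ℂ} (hu : DifferentiableAt ℝ u x) (w : ℂ) :
    fderiv ℝ (fun v => (u v : ℂ)) x w = (fderiv ℝ u x w : ℂ) := by
  have h : HasFDerivAt (fun v => (u v : ℂ)) (Complex.ofRealCLM.comp (fderiv ℝ u x)) x :=
    (Complex.ofRealCLM.hasFDerivAt (x := u x)).comp x hu.hasFDerivAt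
  rw [h.fderiv]
  rfl

theorem gD_eq {g : R.carrier → ℝ} (hg : R.Smooth g univ) (y : R.carrier) :
    R.gD g y = ((fderiv ℝ (fun v => g (R.tr y v)) 0 1 : ℂ)
      + I * (fderiv ℝ (fun v => g (R.tr y v)) 0 I : ℂ)) / 2 := by
  unfold gD dzb dwb
  rw [fderiv_ofReal' (differentiableAt_of_smooth hg y),
    fderiv_ofReal' (differentiableAt_of_smooth hg y), smul_eq_mul, mul_one]

theorem gD_add {g h : R.carrier → ℝ} (hg : R.Smooth g univ) (hh : R.Smooth h univ)
    (y : R.carrier) : R.gD (fun y => g y + h y) y = R.gD g y + R.gD h y := by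
  have hgh : R.Smooth (fun y => g y + h y) univ := fun e he => (hg e he).add (hh e he)
  rw [gD_eq hg, gD_eq hh, gD_eq hgh]
  have h1 : fderiv ℝ (fun v => g (R.tr y v) + h (R.tr y v)) 0
      = fderiv ℝ (fun v => g (R.tr y v)) 0 + fderiv ℝ (fun v => h (R.tr y v)) 0 :=
    fderiv_add (differentiableAt_of_smooth hg y) (differentiableAt_of_smooth hh y)
  rw [h1]
  simp only [_root_.add_apply]
  push_cast
  ring

theorem gD_const_mul {g : R.carrier → ℝ} (hg : R.Smooth g univ) (c : ℝ)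
    (y : R.carrier) : R.gD (fun y => c * g y) y = c * R.gD g y := by
  have hgh : R.Smooth (fun y => c * g y) univ := fun e he => contDiffAt_const.mul (hg e he)
  rw [gD_eq hg, gD_eq hgh]
  have h1 : fderiv ℝ (fun v => c * g (R.tr y v)) 0
      = c • fderiv ℝ (fun v => g (R.tr y v)) 0 :=
    fderiv_const_mul (differentiableAt_of_smooth hg y) c
  rw [h1]
  simp only [_root_.smul_apply, smul_eq_mul]
  push_cast
  ring

theorem gD_comp {g : R.carrier → ℝ} (hg : R.Smooth g univ) {T : ℝ → ℝ} (hT : ContDiff ℝ ∞ T)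
    (y : R.carrier) : R.gD (fun y => T (g y)) y = ((deriv T (g y) : ℝ) : ℂ) * R.gD g y := by
  have hgh : R.Smooth (fun y => T (g y)) univ := fun e he =>
    (hT.contDiffAt (x := g (R.tr e 0))).comp (0 : ℂ) (hg e he)
  rw [gD_eq hg, gD_eq hgh]
  have hT' : HasDerivAt T (deriv T (g y)) (g (R.tr y 0)) := by
    rw [R.tr_zero]
    exact (hT.differentiable (by simp) _).hasDerivAt
  have h1 := hT'.comp_hasFDerivAt (0 : ℂ) (differentiableAt_of_smooth hg y).hasFDerivAt
  have h2 : fderiv ℝ (fun v => T (g (R.tr y v))) 0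
      = deriv T (g y) • fderiv ℝ (fun v => g (R.tr y v)) 0 := h1.fderiv
  rw [h2]
  simp only [_root_.smul_apply, smul_eq_mul]
  push_cast
  ring

theorem RT.gD_continuous {g : R.carrier → ℝ} (hg : R.RT g) : Continuous (R.gD g) := by
  rw [← continuousOn_univ]
  exact Smooth.continuousOn R isOpen_univ (Smooth.dwb R isOpen_univ hg.test.1 1)

theorem gD_zero_of_notMem {g : R.carrier → ℝ} {y : R.carrier} (h : y ∉ tsupport g) :
    R.gD g y = 0 := by
  have h1 : (fun v => ((g (R.tr y v) : ℝ) : ℂ)) =ᶠ[𝓝 0] fun _ => 0 := by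
    have h2 : (tsupport g)ᶜ ∈ 𝓝 y := (isClosed_tsupport g).isOpen_compl.mem_nhds h
    filter_upwards [R.green_tendsto_tr y h2] with v hv
    rw [image_eq_zero_of_notMem_tsupport hv]; simp
  unfold gD dzb dwb
  rw [h1.fderiv_eq]
  simp

theorem RT.gD_compact {g : R.carrier → ℝ} (hg : R.RT g) : HasCompactSupport (R.gD g) :=
  hg.2.isCompact.of_isClosed_subset (isClosed_tsupport _) (closure_minimal (fun y hy => by
    by_contra h
    exact hy (gD_zero_of_notMem h)) (isClosed_tsupport g))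

/-! ### Scalars and the integral -/

variable (R)

theorem green_sint_smul {F : Type} [NormedAddCommGroup F] [NormedSpace ℝ F] (c : ℝ)
    (h : R.carrier → F) : R.sint (fun y => c • h y) = c • R.sint h := by
  unfold sint
  rw [← integral_smul]
  congr 1
  funext ζ
  rw [smul_finsum]
  apply finsum_congr
  intro y
  rw [smul_finsum]

theorem green_sint_ofReal (h : R.carrier → ℝ) :
    R.sint (fun y => (h y : ℂ)) = ((R.sint h : ℝ) : ℂ) := by
  unfold sint
  rw [← integral_complex_ofReal]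
  congr 1
  funext ζ
  have h1 : ∀ (α : Type) (f : α → ℝ), ((∑ᶠ i, f i : ℝ) : ℂ) = ∑ᶠ i, (f i : ℂ) := by
    intro α f
    exact AddMonoidHom.map_finsum_of_injective Complex.ofRealHom.toAddMonoidHom
      Complex.ofReal_injective f
  rw [h1]
  apply finsum_congr
  intro y
  by_cases hy : R.pr y = ζ
  · simp [hy]
  · simp [hy]

/-- the energy of a real function -/
noncomputable def gE (g : R.carrier → ℝ) : ℝ := R.sint (fun y => ‖R.gD g y‖ ^ 2)

/-- the averaging functional on real functions -/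
noncomputable def gell (y₀ : R.carrier) (r : ℝ) (g : R.carrier → ℝ) : ℝ :=
  ∫ ζ : ℂ, chi ζ * g (R.tr y₀ ((r : ℂ) * ζ))

theorem En_ofReal (g : R.carrier → ℝ) : R.En 0 (fun y => (g y : ℂ)) = R.gE g := by
  unfold En gE gD
  congr 1
  funext y
  simp

theorem gE_nonneg (g : R.carrier → ℝ) : 0 ≤ R.gE g := R.sint_nonneg fun _ => by positivity

theorem ell_ofReal (y₀ : R.carrier) (r : ℝ) (g : R.carrier → ℝ) :
    R.ell y₀ r (fun y => (g y : ℂ)) = ((R.gell y₀ r g : ℝ) : ℂ) := by
  unfold ell gell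
  rw [← integral_complex_ofReal]
  congr 1
  funext ζ
  push_cast
  rfl

end RD

end Pool.Agent.ParLeaf
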