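import Pool.Agent.H.MP_3a36cd_an.Defs

/-! MP_3a36cd_an, module Planar1: (super)harmonic functions in the plane. -/

open Set Metric Filter Topology Complex MeasureTheory Real
open scoped ContDiff

namespace Pool.Agent.ParLeaf

theorem planar1_poly_avg (g : Polynomial ℂ) (x₀ : ℂ) (s : ℝ) :
    circleAverage (fun x => (g.eval x).re) x₀ s = (g.eval x₀).re := by
  have hd : Differentiable ℂ (fun x => g.eval x) := g.differentiable
  have h1 : circleAverage (fun x => g.eval x) x₀ s = g.eval x₀ :=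
    (hd.diffContOnCl (s := ball x₀ |s|)).circleAverage
  have hci : CircleIntegrable (fun x => g.eval x) x₀ s :=
    g.continuous.continuousOn.circleIntegrable'
  have h2 := ContinuousLinearMap.circleAverage_comp_comm Complex.reCLM hci
  rw [h1] at h2
  exact h2

theorem planar1_avg (g : Polynomial ℂ) (κ : ℝ) (τ x₀ : ℂ) (b : ℝ) (s : ℝ) :
    circleAverage (fun x => (g.eval x).re + κ * (‖x - τ‖ ^ 2 - b)) x₀ s =
      (g.eval x₀).re + κ * (‖x₀ - τ‖ ^ 2 - b) + κ * s ^ 2 := by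
  have h := planar1_poly_avg (g + Polynomial.C (((κ * (‖x₀ - τ‖ ^ 2 - b) + κ * s ^ 2 : ℝ) : ℂ)) +
    Polynomial.C (2 * κ * (starRingEnd ℂ) (x₀ - τ)) * (Polynomial.X - Polynomial.C x₀)) x₀ s
  have e : circleAverage (fun x => (g.eval x).re + κ * (‖x - τ‖ ^ 2 - b)) x₀ s =
      circleAverage (fun x => ((g + Polynomial.C (((κ * (‖x₀ - τ‖ ^ 2 - b) + κ * s ^ 2 : ℝ) : ℂ)) +
        Polynomial.C (2 * κ * (starRingEnd ℂ) (x₀ - τ)) *
          (Polynomial.X - Polynomial.C x₀)).eval x).re) x₀ s := by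
    apply circleAverage_congr_sphere
    intro x hx
    have hx' : ‖x - x₀‖ ^ 2 = s ^ 2 := by
      rw [mem_sphere, dist_eq_norm] at hx
      rw [hx, sq_abs]
    have h1 : ‖x - τ‖ ^ 2 = ‖x - x₀‖ ^ 2 + ‖x₀ - τ‖ ^ 2 +
        2 * ((starRingEnd ℂ) (x₀ - τ) * (x - x₀)).re := by
      rw [← Complex.normSq_eq_norm_sq, ← Complex.normSq_eq_norm_sq, ← Complex.normSq_eq_norm_sq,
        Complex.normSq_apply, Complex.normSq_apply, Complex.normSq_apply]
      simp only [Complex.sub_re, Complex.sub_im, Complex.mul_re, Complex.conj_re, Complex.conj_im]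
      ring
    have h2 : ((2 * κ * (starRingEnd ℂ) (x₀ - τ)) * (x - x₀) : ℂ).re =
        2 * κ * ((starRingEnd ℂ) (x₀ - τ) * (x - x₀)).re := by
      rw [mul_assoc, ← Complex.ofReal_ofNat, ← Complex.ofReal_mul, Complex.re_ofReal_mul]
    simp only [Polynomial.eval_add, Polynomial.eval_mul, Polynomial.eval_C, Polynomial.eval_sub,
      Polynomial.eval_X, Complex.add_re, Complex.ofReal_re]
    rw [h2, h1, hx']
    ring
  rw [e, h]
  simp only [Polynomial.eval_add, Polynomial.eval_mul, Polynomial.eval_C, Polynomial.eval_sub,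
      Polynomial.eval_X, Complex.add_re, Complex.ofReal_re, sub_self, mul_zero, Complex.zero_re]
  ring

/-- trigonometric polynomials -/
theorem planar1_span {g : C(AddCircle (2 * π), ℂ)}
    (hg : g ∈ Submodule.span ℂ (Set.range (@fourier (2 * π)))) :
    ∃ f₁ f₂ : Polynomial ℂ, ∀ θ : ℝ, g (θ : AddCircle (2 * π)) =
      f₁.eval (exp (θ * I)) + (starRingEnd ℂ) (f₂.eval (exp (θ * I))) := by
  induction hg using Submodule.span_induction with
  | mem x hx =>
    obtain ⟨n, rfl⟩ := hx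
    have key : ∀ θ : ℝ, fourier n (θ : AddCircle (2 * π)) = exp (θ * I) ^ n := by
      intro θ
      rw [fourier_coe_apply, ← Complex.exp_int_mul]
      congr 1
      have : (π : ℂ) ≠ 0 := by exact_mod_cast Real.pi_ne_zero
      push_cast
      field_simp
    obtain ⟨m, rfl | rfl⟩ := n.eq_nat_or_neg
    · refine ⟨Polynomial.X ^ m, 0, fun θ => ?_⟩
      rw [key]; simp
    · refine ⟨0, Polynomial.X ^ m, fun θ => ?_⟩
      rw [key]
      simp only [Polynomial.eval_zero, zero_add, Polynomial.eval_pow, Polynomial.eval_X, map_pow]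
      rw [zpow_neg, zpow_natCast, ← inv_pow, ← Complex.exp_conj, ← Complex.exp_neg]
      congr 2
      simp
  | zero => exact ⟨0, 0, fun θ => by simp⟩
  | add x y _ _ hx hy =>
    obtain ⟨f₁, f₂, hf⟩ := hx
    obtain ⟨g₁, g₂, hg⟩ := hy
    refine ⟨f₁ + g₁, f₂ + g₂, fun θ => ?_⟩
    rw [ContinuousMap.add_apply, hf, hg, Polynomial.eval_add, Polynomial.eval_add, map_add]
    ring
  | smul a x _ hx =>
    obtain ⟨f₁, f₂, hf⟩ := hx
    refine ⟨Polynomial.C a * f₁, Polynomial.C ((starRingEnd ℂ) a) * f₂, fun θ => ?_⟩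
    rw [ContinuousMap.smul_apply, hf, Polynomial.eval_mul, Polynomial.eval_mul, map_mul,
      Polynomial.eval_C, Polynomial.eval_C, Complex.conj_conj, smul_eq_mul]
    ring

/-- continuous functions on the unit circle are approximated from below by real parts of
polynomials -/
theorem exists_harmonic_below {c : ℂ → ℝ} (hc : ContinuousOn c (sphere 0 1)) {η : ℝ} (hη : 0 < η) :
    ∃ f : Polynomial ℂ, (∀ ζ ∈ sphere (0 : ℂ) 1, (f.eval ζ).re ≤ c ζ - η ∧
      c ζ - 3 * η ≤ (f.eval ζ).re) ∧ circleAverage c 0 1 - 3 * η ≤ (f.eval 0).re := by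
  have hπ : Fact (0 < 2 * π) := ⟨Real.two_pi_pos⟩
  have hmem : ∀ x : AddCircle (2 * π), ((AddCircle.toCircle x : Circle) : ℂ) ∈ sphere (0 : ℂ) 1 :=
    fun x => by simp
  have hcont : Continuous (fun x : AddCircle (2 * π) =>
      (((c (AddCircle.toCircle x : Circle) - 2 * η : ℝ)) : ℂ)) := by
    have h1 : Continuous (fun x : AddCircle (2 * π) => c (AddCircle.toCircle x : Circle)) :=
      hc.comp_continuous (continuous_induced_dom.comp AddCircle.continuous_toCircle) hmem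
    exact Complex.continuous_ofReal.comp (h1.sub continuous_const)
  obtain ⟨g, hg, hgd⟩ := Metric.mem_closure_iff.1
    (show (⟨_, hcont⟩ : C(AddCircle (2 * π), ℂ)) ∈
      closure (Submodule.span ℂ (Set.range (@fourier (2 * π))) : Set C(AddCircle (2 * π), ℂ)) from by
        have := span_fourier_closure_eq_top (T := 2 * π)
        rw [← Submodule.topologicalClosure_coe, this]
        trivial) η hη
  obtain ⟨f₁, f₂, hf⟩ := planar1_span hg
  have key : ∀ ζ ∈ sphere (0 : ℂ) 1, ((f₁ + f₂).eval ζ).re ≤ c ζ - η ∧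
      c ζ - 3 * η ≤ ((f₁ + f₂).eval ζ).re := by
    intro ζ hζ
    have hζ' : ‖ζ‖ = 1 := by simpa using hζ
    have e1 : ζ = exp ((arg ζ : ℝ) * I) := by
      have := Complex.norm_mul_exp_arg_mul_I ζ
      rw [hζ'] at this
      simpa using this.symm
    have h1 := ContinuousMap.dist_apply_le_dist (f := ⟨_, hcont⟩) (g := g)
      ((arg ζ : ℝ) : AddCircle (2 * π))
    have h2 := h1.trans_lt hgd
    rw [hf, ← e1, dist_eq_norm] at h2
    have e2 : ((AddCircle.toCircle ((arg ζ : ℝ) : AddCircle (2 * π)) : Circle) : ℂ) = ζ := by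
      rw [AddCircle.toCircle_apply_mk, Circle.coe_exp, div_self Real.two_pi_pos.ne', one_mul,
        ← e1]
    change ‖(((c ((AddCircle.toCircle ((arg ζ : ℝ) : AddCircle (2 * π)) : Circle) : ℂ) - 2 * η : ℝ))
      : ℂ) - _‖ < η at h2
    rw [e2] at h2
    have h3 : |(((c ζ - 2 * η : ℝ)) : ℂ).re - (f₁.eval ζ + (starRingEnd ℂ) (f₂.eval ζ)).re| < η := by
      rw [← Complex.sub_re]
      exact (Complex.abs_re_le_norm _).trans_lt h2
    rw [Complex.ofReal_re, Complex.add_re, Complex.conj_re] at h3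
    rw [Polynomial.eval_add, Complex.add_re]
    have h4 := abs_lt.1 h3
    constructor <;> linarith
  refine ⟨f₁ + f₂, key, ?_⟩
  rw [← planar1_poly_avg (f₁ + f₂) 0 1]
  have hci : CircleIntegrable c 0 1 := hc.circleIntegrable zero_le_one
  have hcp : CircleIntegrable (fun x => ((f₁ + f₂).eval x).re) 0 1 :=
    (Complex.continuous_re.comp (f₁ + f₂).continuous).continuousOn.circleIntegrable'
  have h5 : circleAverage (fun x => c x - 3 * η) 0 1 = circleAverage c 0 1 - 3 * η := by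
    rw [circleAverage_fun_sub hci (circleIntegrable_const _ _ _), circleAverage_const]
  rw [← h5]
  refine circleAverage_mono (hci.sub (circleIntegrable_const _ _ _)) hcp (fun x hx => ?_)
  rw [abs_one] at hx
  exact (key x hx).2

/-- Blaschke–Privalov: a continuous function whose circle averages satisfy
`avg_s n (τ) ≤ n τ + C s³` near every point (`C` locally uniform is not needed) is superharmonic. -/
theorem superharmonic_of_local {n : ℂ → ℝ} {Ω : Set ℂ} (hΩ : IsOpen Ω) (hc : ContinuousOn n Ω)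
    (h : ∀ τ ∈ Ω, ∃ C : ℝ, ∃ s₀ > 0, ∀ s, 0 < s → s < s₀ → circleAverage n τ s ≤ n τ + C * s ^ 3) :
    ∀ τ s, 0 < s → closedBall τ s ⊆ Ω → circleAverage n τ s ≤ n τ := by
  intro τ s hs hsub
  by_contra hcon
  push Not at hcon
  -- approximation on the unit circle
  set c : ℂ → ℝ := fun ζ => n ((s : ℂ) * ζ + τ) with hcdef
  have hmaps : ∀ ζ : ℂ, ‖ζ‖ ≤ 1 → (s : ℂ) * ζ + τ ∈ closedBall τ s := by
    intro ζ hζ
    rw [mem_closedBall, dist_eq_norm, add_sub_cancel_right, norm_mul, Complex.norm_real,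
      Real.norm_of_nonneg hs.le]
    nlinarith
  have hcc : ContinuousOn c (sphere 0 1) := by
    refine (hc.mono hsub).comp (by fun_prop) (fun ζ hζ => hmaps ζ ?_)
    have : ‖ζ‖ = 1 := by simpa using hζ
    exact this.le
  have havg : circleAverage c 0 1 = circleAverage n τ s :=
    (circleAverage_eq_circleAverage_zero_one).symm
  set η : ℝ := (circleAverage n τ s - n τ) / 6 with hη
  have hηpos : 0 < η := by rw [hη]; linarith
  obtain ⟨f, hf1, hf2⟩ := exists_harmonic_below hcc hηpos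
  rw [havg] at hf2
  set g : Polynomial ℂ := f.comp (Polynomial.C ((s : ℂ)⁻¹) * (Polynomial.X - Polynomial.C τ))
    with hg
  have hge : ∀ x, g.eval x = f.eval ((s : ℂ)⁻¹ * (x - τ)) := by
    intro x; rw [hg]; simp [Polynomial.eval_comp]
  have hs0 : (s : ℂ) ≠ 0 := by exact_mod_cast hs.ne'
  set κ : ℝ := η / s ^ 2 with hκ
  have hκpos : 0 < κ := by positivity
  have hκs : κ * s ^ 2 = η := by rw [hκ]; field_simp
  set G : ℂ → ℝ := fun x => (g.eval x).re + κ * (‖x - τ‖ ^ 2 - s ^ 2) with hG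
  have hGc : Continuous G := by
    rw [hG]
    exact (Complex.continuous_re.comp g.continuous).add (by fun_prop)
  have hwc : ContinuousOn (fun x => n x - G x) (closedBall τ s) :=
    (hc.mono hsub).sub hGc.continuousOn
  obtain ⟨x₀, hx₀, hmin⟩ := (isCompact_closedBall τ s).exists_isMinOn
    ⟨τ, mem_closedBall_self hs.le⟩ hwc
  have hτ : n τ - G τ < 0 := by
    have : G τ = (f.eval 0).re - η := by
      simp only [hG]
      rw [hge, sub_self, mul_zero, norm_zero]
      have : κ * ((0:ℝ) ^ 2 - s ^ 2) = - (κ * s ^ 2) := by ring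
      rw [this, hκs]; ring
    rw [this]
    have : circleAverage n τ s = n τ + 6 * η := by rw [hη]; ring
    linarith
  have hx₀neg : n x₀ - G x₀ < 0 := (hmin (mem_closedBall_self hs.le)).trans_lt hτ
  have hx₀in : x₀ ∈ ball τ s := by
    rw [mem_ball]
    refine lt_of_le_of_ne hx₀ (fun hd => ?_)
    have h1 : (s : ℂ)⁻¹ * (x₀ - τ) ∈ sphere (0 : ℂ) 1 := by
      rw [mem_sphere, dist_zero_right, norm_mul, norm_inv, Complex.norm_real,
        Real.norm_of_nonneg hs.le, ← dist_eq_norm, hd, inv_mul_cancel₀ hs.ne']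
    have h2 := (hf1 _ h1).1
    have h3 : c ((s : ℂ)⁻¹ * (x₀ - τ)) = n x₀ := by
      simp only [hcdef]
      rw [mul_inv_cancel_left₀ hs0, sub_add_cancel]
    rw [h3] at h2
    have h4 : G x₀ = (f.eval ((s : ℂ)⁻¹ * (x₀ - τ))).re := by
      simp only [hG]
      rw [hge, ← dist_eq_norm x₀ τ, hd, sub_self, mul_zero, add_zero]
    rw [h4] at hx₀neg
    linarith
  obtain ⟨r, hr, hrsub⟩ := Metric.isOpen_iff.1 isOpen_ball x₀ hx₀in
  obtain ⟨C, s₀, hs₀, hloc⟩ := h x₀ (hsub hx₀)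
  -- choose a small radius
  set t : ℝ := min (min (r / 2) (s₀ / 2)) (κ / (2 * (|C| + 1))) with ht
  have htpos : 0 < t := by
    rw [ht]
    refine lt_min (lt_min (by linarith) (by linarith)) (by positivity)
  have ht1 : t < r := by
    have : t ≤ r / 2 := (min_le_left _ _).trans (min_le_left _ _)
    linarith
  have ht2 : t < s₀ := by
    have : t ≤ s₀ / 2 := (min_le_left _ _).trans (min_le_right _ _)
    linarith
  have ht3 : C * t < κ := by
    have h1 : t ≤ κ / (2 * (|C| + 1)) := min_le_right _ _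
    have h2 : C * t ≤ (|C| + 1) * t := by
      apply mul_le_mul_of_nonneg_right _ htpos.le
      linarith [le_abs_self C]
    have h3 : (|C| + 1) * t ≤ κ / 2 := by
      have := mul_le_mul_of_nonneg_left h1 (show 0 ≤ |C| + 1 by positivity)
      refine this.trans (le_of_eq ?_)
      have : |C| + 1 ≠ 0 := by positivity
      field_simp
    linarith
  have hballsub : closedBall x₀ t ⊆ closedBall τ s :=
    (closedBall_subset_ball ht1).trans (hrsub.trans ball_subset_closedBall)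
  have hsph : sphere x₀ |t| ⊆ closedBall τ s := by
    rw [abs_of_pos htpos]
    exact sphere_subset_closedBall.trans hballsub
  have hnci : CircleIntegrable n x₀ t :=
    ((hc.mono hsub).mono (sphere_subset_closedBall.trans hballsub)).circleIntegrable htpos.le
  have hGci : CircleIntegrable G x₀ t := hGc.continuousOn.circleIntegrable htpos.le
  have hlow : circleAverage (fun x => G x + (n x₀ - G x₀)) x₀ t ≤ circleAverage n x₀ t := by
    refine circleAverage_mono (hGci.add (circleIntegrable_const _ _ _)) hnci (fun x hx => ?_)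
    have := hmin (hsph hx)
    simp only [mem_ofPred_eq] at this
    linarith
  rw [circleAverage_fun_add hGci (circleIntegrable_const _ _ _), circleAverage_const,
    planar1_avg] at hlow
  have hup := hloc t htpos ht2
  have hGx : G x₀ = (g.eval x₀).re + κ * (‖x₀ - τ‖ ^ 2 - s ^ 2) := rfl
  have hfin : κ * t ^ 2 ≤ C * t ^ 3 := by linarith
  have : κ * t ^ 2 ≤ (C * t) * t ^ 2 := by
    calc κ * t ^ 2 ≤ C * t ^ 3 := hfin
      _ = (C * t) * t ^ 2 := by ring
  have h5 : (C * t) * t ^ 2 < κ * t ^ 2 := mul_lt_mul_of_pos_right ht3 (by positivity)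
  linarith

/-- the comparison argument for the proof of Theorem V -/
theorem comparison (a A : ℕ → ℂ → ℝ) (C : ℝ) (hC : 0 ≤ C) (c : ℂ → ℝ)
    (hc : ContinuousOn c (sphere 0 1))
    (h0 : ∀ k τ, ‖τ‖ ≤ 1 → 0 ≤ a k τ)
    (hanti : ∀ k τ, ‖τ‖ ≤ 1 → a (k + 1) τ ≤ a k τ)
    (haA : ∀ k τ, ‖τ‖ ≤ 1 → a k τ ≤ A k τ)
    (hAa : ∀ k τ, ‖τ‖ ≤ 1 → A k τ ≤ (1 + C / √(k + 1)) ^ 2 * a k τ)
    (hloc : ∀ τ₀, ‖τ₀‖ < 1 → ∃ ε > 0, ∃ n : ℕ → ℂ → ℝ, ∀ k, ContinuousOn (n k) (ball τ₀ ε) ∧
      (∀ τ s, 0 < s → closedBall τ s ⊆ ball τ₀ ε → circleAverage (n k) τ s ≤ n k τ) ∧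
      ∀ τ ∈ ball τ₀ ε, ‖τ‖ ≤ 1 → a k τ ≤ n k τ ∧ n k τ ≤ A k τ)
    (hbd : ∀ τ₀, ‖τ₀‖ = 1 → ∃ δ > 0, ∀ τ ∈ ball τ₀ δ, ‖τ‖ ≤ 1 → ∀ k, c τ₀ ≤ a k τ) :
    circleAverage c 0 1 ≤ A 0 0 := by
  by_contra hcon
  push Not at hcon
  set η : ℝ := (circleAverage c 0 1 - A 0 0) / 6 with hη
  have hηpos : 0 < η := by rw [hη]; linarith
  have hηeq : circleAverage c 0 1 = A 0 0 + 6 * η := by rw [hη]; ring
  obtain ⟨f, hf1, hf2⟩ := exists_harmonic_below hc hηpos
  -- the infimum
  set L : ℂ → ℝ := fun τ => ⨅ k, a k τ with hL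
  have hbb : ∀ τ, ‖τ‖ ≤ 1 → BddBelow (Set.range fun k => a k τ) := by
    intro τ hτ
    exact ⟨0, by rintro _ ⟨k, rfl⟩; exact h0 k τ hτ⟩
  have hLle : ∀ τ, ‖τ‖ ≤ 1 → ∀ k, L τ ≤ a k τ := fun τ hτ k => ciInf_le (hbb τ hτ) k
  have hL0 : ∀ τ, ‖τ‖ ≤ 1 → 0 ≤ L τ := fun τ hτ => le_ciInf (fun k => h0 k τ hτ)
  have hmono : ∀ τ, ‖τ‖ ≤ 1 → Antitone (fun k => a k τ) := fun τ hτ =>
    antitone_nat_of_succ_le (fun k => hanti k τ hτ)
  have hlim : ∀ τ, ‖τ‖ ≤ 1 → Tendsto (fun k => a k τ) atTop (𝓝 (L τ)) := fun τ hτ =>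
    tendsto_atTop_ciInf (hmono τ hτ) (hbb τ hτ)
  have hAk : ∀ τ, ‖τ‖ ≤ 1 → ∀ δ > 0, ∃ k, A k τ < L τ + δ := by
    intro τ hτ δ hδ
    have h1 : Tendsto (fun k : ℕ => (1 + C / √((k : ℝ) + 1)) ^ 2 * a k τ) atTop
        (𝓝 ((1 + 0) ^ 2 * L τ)) := by
      refine Tendsto.mul (Tendsto.pow (tendsto_const_nhds.add ?_) 2) (hlim τ hτ)
      refine Tendsto.div_atTop tendsto_const_nhds ?_
      refine Real.tendsto_sqrt_atTop.comp ?_
      exact tendsto_atTop_add_const_right _ _ tendsto_natCast_atTop_atTop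
    have h2 : (1 + (0:ℝ)) ^ 2 * L τ < L τ + δ := by linarith
    obtain ⟨k, hk⟩ := (h1.eventually (gt_mem_nhds h2)).exists
    exact ⟨k, (hAa k τ hτ).trans_lt hk⟩
  set κ : ℝ := η with hκ
  set G : ℂ → ℝ := fun x => (f.eval x).re + κ * (‖x - 0‖ ^ 2 - 1) with hG
  have hGc : Continuous G := by
    rw [hG]
    exact (Complex.continuous_re.comp f.continuous).add (by fun_prop)
  set D : ℂ → ℝ := fun τ => L τ - G τ with hD
  obtain ⟨B, hB⟩ := (isCompact_closedBall (0 : ℂ) 1).exists_bound_of_continuousOn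
    hGc.continuousOn
  have hDbb : BddBelow (D '' closedBall 0 1) := by
    refine ⟨-B, ?_⟩
    rintro _ ⟨x, hx, rfl⟩
    have h1 := hL0 x (by simpa using hx)
    have h2 := (abs_le.1 (hB x hx)).2
    simp only [hD]
    linarith
  have hDne : (D '' closedBall (0 : ℂ) 1).Nonempty := ⟨D 0, 0, by simp, rfl⟩
  set m : ℝ := sInf (D '' closedBall (0 : ℂ) 1) with hm
  have hmle : ∀ x, ‖x‖ ≤ 1 → m ≤ D x := fun x hx =>
    csInf_le hDbb ⟨x, by simpa using hx, rfl⟩
  have hmneg : m < 0 := by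
    refine (hmle 0 (by simp)).trans_lt ?_
    have h1 : L 0 ≤ A 0 0 := (hLle 0 (by simp) 0).trans (haA 0 0 (by simp))
    have h2 : G 0 = (f.eval 0).re - η := by
      simp only [hG, sub_zero, norm_zero]
      ring
    simp only [hD]
    rw [h2]
    linarith
  -- minimizing sequence
  have hseq : ∀ j : ℕ, ∃ x, ‖x‖ ≤ 1 ∧ D x < m + 1 / ((j : ℝ) + 1) := by
    intro j
    obtain ⟨_, ⟨x, hx, rfl⟩, hx2⟩ := exists_lt_of_csInf_lt hDne
      (show sInf (D '' closedBall (0 : ℂ) 1) < m + 1 / ((j : ℝ) + 1) from by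
        have : 0 < 1 / ((j : ℝ) + 1) := by positivity
        linarith)
    exact ⟨x, by simpa using hx, hx2⟩
  choose x hx1 hx2 using hseq
  obtain ⟨y, hy, φ, hφ, hlimy⟩ := (isCompact_closedBall (0 : ℂ) 1).tendsto_subseq
    (fun j => show x j ∈ closedBall (0 : ℂ) 1 by simpa using hx1 j)
  have hy1 : ‖y‖ ≤ 1 := by simpa using hy
  have htend : Tendsto (fun j : ℕ => 1 / (((φ j : ℕ) : ℝ) + 1)) atTop (𝓝 0) :=
    tendsto_one_div_add_atTop_nhds_zero_nat.comp hφ.tendsto_atTop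
  have hylt : ‖y‖ < 1 := by
    refine lt_of_le_of_ne hy1 (fun hy2 => ?_)
    obtain ⟨δ, hδ, hb⟩ := hbd y hy2
    have h1 : ∀ᶠ z in 𝓝 y, (f.eval z).re < (f.eval y).re + η :=
      ((Complex.continuous_re.comp f.continuous).tendsto y).eventually
        (gt_mem_nhds (show (f.eval y).re < (f.eval y).re + η by linarith))
    have h2 : ∀ᶠ z in 𝓝 y, z ∈ ball y δ := ball_mem_nhds y hδ
    have h3 := hlimy.eventually (h1.and h2)
    have h4 : ∀ᶠ j in atTop, 1 / (((φ j : ℕ) : ℝ) + 1) < -m :=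
      htend.eventually (gt_mem_nhds (by linarith))
    obtain ⟨j, ⟨hj1, hj2⟩, hj3⟩ := (h3.and h4).exists
    simp only [Function.comp] at hj1 hj2
    have h5 : c y ≤ L (x (φ j)) := le_ciInf (fun k => hb _ hj2 (hx1 _) k)
    have h6 := (hf1 y (by simpa using hy2)).1
    have h7 : G (x (φ j)) ≤ (f.eval (x (φ j))).re := by
      simp only [hG, sub_zero]
      have : ‖x (φ j)‖ ^ 2 ≤ 1 := pow_le_one₀ (norm_nonneg _) (hx1 _)
      have h8 : κ * (‖x (φ j)‖ ^ 2 - 1) ≤ 0 :=
        mul_nonpos_of_nonneg_of_nonpos hηpos.le (by linarith)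
      linarith
    have h8 := hx2 (φ j)
    have h9 : D (x (φ j)) = L (x (φ j)) - G (x (φ j)) := rfl
    linarith
  obtain ⟨ε, hε, n, hn⟩ := hloc y hylt
  set ε' : ℝ := min ε (1 - ‖y‖) with hε'
  have hε'pos : 0 < ε' := lt_min hε (by linarith)
  set s : ℝ := ε' / 4 with hs
  have hspos : 0 < s := by positivity
  have h1 : ∀ᶠ j in atTop, dist (x (φ j)) y < s :=
    (Metric.tendsto_nhds.1 hlimy s hspos)
  have h2 : ∀ᶠ j in atTop, 1 / (((φ j : ℕ) : ℝ) + 1) < κ * s ^ 2 / 2 :=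
    htend.eventually (gt_mem_nhds (by positivity))
  obtain ⟨j, hj1, hj2⟩ := (h1.and h2).exists
  set z := x (φ j) with hz
  have hz1 : ‖z‖ ≤ 1 := hx1 _
  have hsub1 : closedBall z s ⊆ ball y ε' := by
    intro w hw
    rw [mem_ball]
    have h3 := dist_triangle w z y
    have h4 : dist w z ≤ s := hw
    have h5 : ε' = 4 * s := by rw [hs]; ring
    linarith
  have hsub2 : closedBall z s ⊆ ball y ε := hsub1.trans (ball_subset_ball (min_le_left _ _))
  have hsub3 : ∀ w ∈ closedBall z s, ‖w‖ ≤ 1 := by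
    intro w hw
    have h3 := hsub1 hw
    rw [mem_ball, dist_eq_norm] at h3
    have h4 : ε' ≤ 1 - ‖y‖ := min_le_right _ _
    have h5 : ‖w‖ ≤ ‖w - y‖ + ‖y‖ := by
      have := norm_add_le (w - y) y
      rwa [sub_add_cancel] at this
    linarith
  obtain ⟨k, hk⟩ := hAk z hz1 (1 / (((φ j : ℕ) : ℝ) + 1)) (by positivity)
  obtain ⟨hnc, hnsup, hnb⟩ := hn k
  have hzb : z ∈ ball y ε := hsub2 (mem_closedBall_self hspos.le)
  have h3 := (hnb z hzb hz1).2
  have h4 := hnsup z s hspos hsub2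
  have hnci : CircleIntegrable (n k) z s :=
    (hnc.mono (sphere_subset_closedBall.trans hsub2)).circleIntegrable hspos.le
  have hGci : CircleIntegrable G z s := hGc.continuousOn.circleIntegrable hspos.le
  have hlow : circleAverage (fun w => G w + m) z s ≤ circleAverage (n k) z s := by
    refine circleAverage_mono (hGci.add (circleIntegrable_const _ _ _)) hnci (fun w hw => ?_)
    rw [abs_of_pos hspos] at hw
    have hw' : w ∈ closedBall z s := sphere_subset_closedBall hw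
    have h5 := (hnb w (hsub2 hw') (hsub3 w hw')).1
    have h6 := hLle w (hsub3 w hw') k
    have h7 := hmle w (hsub3 w hw')
    simp only [hD] at h7
    linarith
  rw [circleAverage_fun_add hGci (circleIntegrable_const _ _ _), circleAverage_const] at hlow
  have hGavg : circleAverage G z s = G z + κ * s ^ 2 := planar1_avg f κ 0 z 1 s
  rw [hGavg] at hlow
  have h5 : D z < m + 1 / (((φ j : ℕ) : ℝ) + 1) := hx2 _
  simp only [hD] at h5
  linarith

end Pool.Agent.ParLeaf
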