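import Pool.Agent.H.MP_3a36cd_an.Polar1
import Pool.Agent.H.MP_3a36cd_an.Planar1

/-! MP_3a36cd_an, module Polar2: zero sets, extension, exchange of coordinates. -/

open Set Metric Filter Topology Complex MeasureTheory Real

namespace Pool.Agent.ParLeaf

/-- approximation from above by harmonic functions -/
theorem polar2_above {g : ℂ → ℝ} (hg : Continuous g) {η : ℝ} (hη : 0 < η) :
    ∃ h : Polynomial ℂ, (∀ ζ : ℂ, ‖ζ‖ = 1 → g ζ + η ≤ -(h.eval ζ).re) ∧
      -(h.eval 0).re ≤ circleAverage g 0 1 + 3 * η := by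
  obtain ⟨h, h1, h2⟩ := exists_harmonic_below (c := fun ζ => -g ζ) hg.neg.continuousOn hη
  refine ⟨h, fun ζ hζ => ?_, ?_⟩
  · have := (h1 ζ (by simpa using hζ)).1
    linarith
  · have e : circleAverage (fun ζ => -g ζ) 0 1 = -circleAverage g 0 1 := by
      have := circleAverage_fun_smul (f := g) (c := 0) (R := 1) (a := (-1 : ℝ))
      simpa using this
    rw [e] at h2
    linarith

theorem polar2_log_usc {P : ℂ × ℂ → ℂ} (hP : Continuous P) :
    Continuous (fun x => ENNReal.log (ENNReal.ofReal ‖P x‖)) :=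
  ENNReal.continuous_log.comp (ENNReal.continuous_ofReal.comp hP.norm)

/-- zero sets of entire functions are pluripolar -/
theorem pluripolar_zero {P : ℂ × ℂ → ℂ} (hP : Differentiable ℂ P) (h : ∃ x, P x ≠ 0) :
    Pluripolar {x | P x = 0} := by
  obtain ⟨x₀, hx₀⟩ := h
  refine ⟨fun x => ENNReal.log (ENNReal.ofReal ‖P x‖), ⟨?_, ?_, ?_⟩, ⟨x₀, ?_⟩, ?_⟩
  · exact (polar2_log_usc hP.continuous).upperSemicontinuous
  · intro x
    simp
  · intro a b g hg hle
    by_cases ha : P a = 0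
    · simp only [ha, norm_zero, ENNReal.ofReal_zero, ENNReal.log_zero]
      exact bot_le
    have hapos : 0 < ‖P a‖ := norm_pos_iff.2 ha
    simp only
    rw [ENNReal.log_ofReal_of_pos hapos, EReal.coe_le_coe_iff]
    apply le_of_forall_pos_le_add
    intro δ hδ
    obtain ⟨p, hp1, hp2⟩ := polar2_above hg (show 0 < δ / 3 by positivity)
    have hF : Differentiable ℂ (fun ζ : ℂ => P (a + ζ • b) * Complex.exp (p.eval ζ)) := by
      have h1 : Differentiable ℂ (fun ζ : ℂ => P (a + ζ • b)) :=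
        hP.comp ((differentiable_const a).add (differentiable_id.smul_const b))
      exact h1.mul p.differentiable.cexp
    have hbound := Complex.norm_le_of_forall_mem_frontier_norm_le (U := ball (0 : ℂ) 1)
      isBounded_ball hF.diffContOnCl (C := 1) (by
        intro z hz
        rw [frontier_ball _ one_ne_zero, mem_sphere, dist_zero_right] at hz
        rw [norm_mul, Complex.norm_exp]
        by_cases hz0 : P (a + z • b) = 0
        · rw [hz0]; simp
        · have hzpos : 0 < ‖P (a + z • b)‖ := norm_pos_iff.2 hz0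
          have h1 := hle z hz
          simp only at h1
          rw [ENNReal.log_ofReal_of_pos hzpos, EReal.coe_le_coe_iff] at h1
          have h2 := hp1 z hz
          have h3 : Real.log ‖P (a + z • b)‖ + (p.eval z).re ≤ 0 := by linarith
          calc ‖P (a + z • b)‖ * Real.exp (p.eval z).re
              = Real.exp (Real.log ‖P (a + z • b)‖ + (p.eval z).re) := by
                rw [Real.exp_add, Real.exp_log hzpos]
            _ ≤ Real.exp 0 := Real.exp_le_exp.2 h3
            _ = 1 := Real.exp_zero) (z := 0) (subset_closure (mem_ball_self one_pos))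
    rw [zero_smul, add_zero, norm_mul, Complex.norm_exp] at hbound
    have h4 : Real.log (‖P a‖ * Real.exp (p.eval 0).re) ≤ 0 :=
      Real.log_nonpos (by positivity) hbound
    rw [Real.log_mul hapos.ne' (Real.exp_pos _).ne', Real.log_exp] at h4
    linarith
  · simp [hx₀]
  · intro x hx
    have : P x = 0 := hx
    simp [this]

/-- the one variable statement behind the extension theorem -/
theorem polar2_disc {v : ℂ → EReal} (hv : UpperSemicontinuous v) (hvt : ∀ ζ, v ζ < ⊤)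
    {f : ℂ → ℂ} (hf : Differentiable ℂ f) (hf0 : f 0 ≠ 0) (h : Polynomial ℂ)
    (hbd : ∀ ζ : ℂ, ‖ζ‖ = 1 → v ζ < ((-(h.eval ζ).re : ℝ) : EReal))
    (hloc : ∀ ζ, f ζ ≠ 0 → ∃ s₀ > 0, ∀ s : ℝ, 0 < s → s < s₀ → ∀ g : ℂ → ℝ, Continuous g →
      (∀ ξ : ℂ, ‖ξ‖ = 1 → v (ζ + s * ξ) ≤ g ξ) → v ζ ≤ (circleAverage g 0 1 : ℝ)) :
    v 0 ≤ ((-(h.eval 0).re : ℝ) : EReal) := by
  by_contra hcon
  push Not at hcon
  obtain ⟨q, hq1, hq2⟩ := EReal.lt_iff_exists_real_btwn.1 hcon
  rw [EReal.coe_lt_coe_iff] at hq1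
  set d : ℝ := q - (-(h.eval 0).re) with hd
  have hdpos : 0 < d := by rw [hd]; linarith
  have hK : IsCompact (closedBall (0 : ℂ) 1) := isCompact_closedBall _ _
  -- bounds on the closed disc
  obtain ⟨M₀, hM₀⟩ := hK.exists_bound_of_continuousOn hf.continuous.continuousOn
  have hf0pos : 0 < ‖f 0‖ := norm_pos_iff.2 hf0
  have hM₀pos : 0 < M₀ := hf0pos.trans_le (hM₀ 0 (by simp))
  obtain ⟨N, hN⟩ := hK.exists_bound_of_continuousOn
    (Complex.continuous_re.comp h.continuous).continuousOn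
  obtain ⟨z₁, hz₁, hz₁max⟩ := UpperSemicontinuousOn.exists_isMaxOn ⟨0, by simp⟩ hK
    (hv.upperSemicontinuousOn (closedBall (0 : ℂ) 1))
  obtain ⟨B, hB0⟩ : ∃ B : ℝ, v z₁ ≤ B := by
    obtain ⟨B, hB, -⟩ := EReal.lt_iff_exists_real_btwn.1 (hvt z₁)
    exact ⟨B, hB.le⟩
  have hB : ∀ ζ : ℂ, ‖ζ‖ ≤ 1 → v ζ ≤ B := fun ζ hζ =>
    (hz₁max (show ζ ∈ closedBall (0 : ℂ) 1 by simpa using hζ)).trans hB0
  set l₀ : ℝ := Real.log M₀ - Real.log ‖f 0‖ with hl₀
  have hl₀nn : 0 ≤ l₀ := by
    rw [hl₀]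
    have := Real.log_le_log hf0pos (hM₀ 0 (by simp))
    linarith
  set ε : ℝ := d / (4 * (l₀ + 1)) with hε
  have hεpos : 0 < ε := by positivity
  have hεl : ε * l₀ ≤ d / 4 := by
    have h1 : ε * l₀ ≤ ε * (l₀ + 1) := mul_le_mul_of_nonneg_left (by linarith) hεpos.le
    have h2 : ε * (l₀ + 1) = d / 4 := by
      rw [hε]; field_simp
    linarith
  set κ : ℝ := d / 4 with hκ
  have hκpos : 0 < κ := by positivity
  set Q : ℂ → ℝ := fun ζ => -(h.eval ζ).re - κ * (‖ζ‖ ^ 2 - 1) +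
    ε * (Real.log M₀ - Real.log ‖f ζ‖) with hQ
  have hQ0 : Q 0 < q := by
    simp only [hQ, norm_zero]
    have : q = d + (-(h.eval 0).re) := by rw [hd]; ring
    rw [this]
    have h3 : ε * (Real.log M₀ - Real.log ‖f 0‖) ≤ d / 4 := hεl
    have h4 : κ * ((0 : ℝ) ^ 2 - 1) = - (d / 4) := by rw [hκ]; ring
    rw [h4]
    linarith
  have hlogle : ∀ ζ : ℂ, ‖ζ‖ ≤ 1 → f ζ ≠ 0 → Real.log ‖f ζ‖ ≤ Real.log M₀ := fun ζ hζ hfζ =>
    Real.log_le_log (norm_pos_iff.2 hfζ) (hM₀ ζ (by simpa using hζ))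
  have hκle : ∀ ζ : ℂ, ‖ζ‖ ≤ 1 → 0 ≤ -(κ * (‖ζ‖ ^ 2 - 1)) := by
    intro ζ hζ
    have : ‖ζ‖ ^ 2 ≤ 1 := pow_le_one₀ (norm_nonneg _) hζ
    have := mul_nonpos_of_nonneg_of_nonpos hκpos.le (show ‖ζ‖ ^ 2 - 1 ≤ 0 by linarith)
    linarith
  have hQge : ∀ ζ : ℂ, ‖ζ‖ ≤ 1 → f ζ ≠ 0 → -(h.eval ζ).re ≤ Q ζ := by
    intro ζ hζ hfζ
    have h1 := hlogle ζ hζ hfζ
    have h2 := hκle ζ hζ
    have h3 : 0 ≤ ε * (Real.log M₀ - Real.log ‖f ζ‖) := mul_nonneg hεpos.le (by linarith)
    simp only [hQ]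
    linarith
  have hNge : ∀ ζ : ℂ, ‖ζ‖ ≤ 1 → -N ≤ -(h.eval ζ).re := by
    intro ζ hζ
    have := (abs_le.1 (hN ζ (by simpa using hζ))).2
    simp only [Function.comp] at this
    linarith
  -- the set where `f` is not small
  set δ : ℝ := min ‖f 0‖ (Real.exp (Real.log M₀ - (|B| + N) / ε)) with hδ
  have hδpos : 0 < δ := lt_min hf0pos (Real.exp_pos _)
  have hsmall : ∀ ζ : ℂ, ‖ζ‖ ≤ 1 → f ζ ≠ 0 → ‖f ζ‖ < δ → B ≤ Q ζ := by
    intro ζ hζ hfζ hlt
    have h1 : ‖f ζ‖ < Real.exp (Real.log M₀ - (|B| + N) / ε) := hlt.trans_le (min_le_right _ _)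
    have h2 : Real.log ‖f ζ‖ < Real.log M₀ - (|B| + N) / ε := by
      rw [Real.log_lt_iff_lt_exp (norm_pos_iff.2 hfζ)]; exact h1
    have h3 : (|B| + N) ≤ ε * (Real.log M₀ - Real.log ‖f ζ‖) := by
      have h4 : (|B| + N) / ε ≤ Real.log M₀ - Real.log ‖f ζ‖ := by linarith
      rw [div_le_iff₀ hεpos] at h4
      linarith
    have h5 := hNge ζ hζ
    have h6 := hκle ζ hζ
    simp only [hQ]
    linarith [le_abs_self B]
  set K : Set ℂ := {ζ | ζ ∈ closedBall (0 : ℂ) 1 ∧ δ ≤ ‖f ζ‖} with hKdef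
  have hKc : IsCompact K := by
    refine hK.of_isClosed_subset ?_ (fun ζ hζ => hζ.1)
    exact isClosed_closedBall.inter (isClosed_le continuous_const hf.continuous.norm)
  have h0K : (0 : ℂ) ∈ K := ⟨by simp, min_le_left _ _⟩
  have hfK : ∀ ζ ∈ K, f ζ ≠ 0 := fun ζ hζ hfζ => by
    have := hζ.2
    rw [hfζ, norm_zero] at this
    linarith
  have hQcont : ∀ ζ, f ζ ≠ 0 → ContinuousAt Q ζ := by
    intro ζ hfζ
    have h1 : ContinuousAt (fun ζ => Real.log ‖f ζ‖) ζ :=
      (hf.continuous.norm.continuousAt).log (norm_ne_zero_iff.2 hfζ)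
    have h2 : ContinuousAt (fun ζ : ℂ => -(h.eval ζ).re - κ * (‖ζ‖ ^ 2 - 1)) ζ := by
      have h3 : Continuous (fun ζ : ℂ => (h.eval ζ).re) :=
        Complex.continuous_re.comp h.continuous
      fun_prop
    exact h2.add (continuousAt_const.mul (continuousAt_const.sub h1))
  -- the truncated function
  set w : ℂ → ℝ := fun ζ => (max (v ζ) ((-N : ℝ) : EReal)).toReal with hw
  have hwcoe : ∀ ζ, ((w ζ : ℝ) : EReal) = max (v ζ) ((-N : ℝ) : EReal) := by
    intro ζ
    apply EReal.coe_toReal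
    · exact (max_lt (hvt ζ) (EReal.coe_lt_top _)).ne
    · exact ((EReal.bot_lt_coe _).trans_le (le_max_right _ _)).ne'
  have hvw : ∀ ζ, v ζ ≤ w ζ := fun ζ => by rw [hwcoe]; exact le_max_left _ _
  have hwv : ∀ ζ, -N < w ζ → v ζ = w ζ := by
    intro ζ hζ
    rw [hwcoe]
    have h1 : ((-N : ℝ) : EReal) < max (v ζ) ((-N : ℝ) : EReal) := by
      rw [← hwcoe]; exact_mod_cast hζ
    rcases lt_max_iff.1 h1 with h2 | h2
    · exact (max_eq_left h2.le).symm
    · exact absurd h2 (lt_irrefl _)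
  have hwusc : UpperSemicontinuousOn w K := by
    intro ζ _ y hy
    have h1 : v ζ < (y : EReal) := (hvw ζ).trans_lt (by exact_mod_cast hy)
    have h2 : ((-N : ℝ) : EReal) < (y : EReal) := by
      have : ((-N : ℝ) : EReal) ≤ w ζ := by rw [hwcoe]; exact le_max_right _ _
      exact this.trans_lt (by exact_mod_cast hy)
    have h3 := (hv ζ (y : EReal) h1).filter_mono (nhdsWithin_le_nhds (s := K))
    filter_upwards [h3] with x hx
    have h4 : ((w x : ℝ) : EReal) < (y : EReal) := by rw [hwcoe]; exact max_lt hx h2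
    exact_mod_cast h4
  have hQusc : UpperSemicontinuousOn (fun ζ => -Q ζ) K :=
    ContinuousOn.upperSemicontinuousOn (fun ζ hζ =>
      (hQcont ζ (hfK ζ hζ)).neg.continuousWithinAt)
  obtain ⟨z, hzK, hzmax⟩ := UpperSemicontinuousOn.exists_isMaxOn ⟨0, h0K⟩ hKc (hwusc.add hQusc)
  have hzmax' : ∀ ζ ∈ K, w ζ - Q ζ ≤ w z - Q z := by
    intro ζ hζ
    have := hzmax hζ
    simp only [mem_ofPred_eq] at this
    linarith
  set m : ℝ := w z - Q z with hm
  have hmpos : 0 < m := by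
    have h1 := hzmax' 0 h0K
    have h2 : q < w 0 := by
      have : ((q : ℝ) : EReal) < (w 0 : EReal) := hq2.trans_le (hvw 0)
      exact_mod_cast this
    linarith
  have hz1 : ‖z‖ ≤ 1 := by simpa using hzK.1
  have hfz : f z ≠ 0 := hfK z hzK
  have hvz : v z = w z := by
    apply hwv
    have h1 := hQge z hz1 hfz
    have h2 := hNge z hz1
    linarith
  have hzlt : ‖z‖ < 1 := by
    refine lt_of_le_of_ne hz1 (fun hz2 => ?_)
    have h1 := hbd z hz2
    rw [hvz] at h1
    have h2 : w z < -(h.eval z).re := by exact_mod_cast h1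
    have h3 := hQge z hz1 hfz
    linarith
  -- a small disc
  obtain ⟨s₀, hs₀, hsub⟩ := hloc z hfz
  obtain ⟨r, hr, hrsub⟩ : ∃ r > 0, ∀ ζ ∈ ball z r, ‖ζ‖ < 1 ∧ f ζ ≠ 0 := by
    have h1 : ∀ᶠ ζ in 𝓝 z, ‖ζ‖ < 1 := continuous_norm.continuousAt.eventually (gt_mem_nhds hzlt)
    have h2 : ∀ᶠ ζ in 𝓝 z, f ζ ≠ 0 := hf.continuous.continuousAt.eventually_ne hfz
    exact Metric.eventually_nhds_iff_ball.1 (h1.and h2)
  set s : ℝ := min r s₀ / 2 with hs
  have hspos : 0 < s := by
    rw [hs]; have := lt_min hr hs₀; linarith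
  have hsr : s < r := by
    have : min r s₀ ≤ r := min_le_left _ _
    rw [hs]; linarith
  have hss : s < s₀ := by
    have : min r s₀ ≤ s₀ := min_le_right _ _
    rw [hs]; linarith
  have hcb : ∀ ζ ∈ closedBall z s, ‖ζ‖ < 1 ∧ f ζ ≠ 0 := fun ζ hζ =>
    hrsub ζ (closedBall_subset_ball hsr hζ)
  obtain ⟨z₂, hz₂, hz₂min⟩ := (isCompact_closedBall z s).exists_isMinOn
    ⟨z, mem_closedBall_self hspos.le⟩ hf.continuous.norm.continuousOn
  set δ₂ : ℝ := ‖f z₂‖ with hδ₂
  have hδ₂pos : 0 < δ₂ := norm_pos_iff.2 (hcb z₂ hz₂).2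
  have hδ₂le : ∀ ζ ∈ closedBall z s, δ₂ ≤ ‖f ζ‖ := fun ζ hζ => hz₂min hζ
  set g : ℂ → ℝ := fun ξ => -(h.eval (z + s * ξ)).re - κ * (‖z + s * ξ‖ ^ 2 - 1) +
    ε * (Real.log M₀ - Real.log (max ‖f (z + s * ξ)‖ δ₂)) + m with hg
  have hgc : Continuous g := by
    have h1 : Continuous (fun ξ : ℂ => z + s * ξ) := by fun_prop
    have h2 : Continuous (fun ξ : ℂ => (h.eval (z + s * ξ)).re) :=
      Complex.continuous_re.comp (h.continuous.comp h1)
    have h3 : Continuous (fun ξ : ℂ => Real.log (max ‖f (z + s * ξ)‖ δ₂)) := by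
      refine Continuous.log (((hf.continuous.comp h1).norm).max continuous_const) (fun ξ => ?_)
      exact (hδ₂pos.trans_le (le_max_right _ _)).ne'
    simp only [hg]
    fun_prop
  have hmapsto : ∀ ξ : ℂ, ‖ξ‖ ≤ 1 → z + s * ξ ∈ closedBall z s := by
    intro ξ hξ
    rw [mem_closedBall, dist_eq_norm, add_sub_cancel_left, norm_mul, Complex.norm_real,
      Real.norm_of_nonneg hspos.le]
    nlinarith
  have hgQ : ∀ ξ : ℂ, ‖ξ‖ ≤ 1 → g ξ = Q (z + s * ξ) + m := by
    intro ξ hξ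
    simp only [hg, hQ]
    rw [max_eq_left (hδ₂le _ (hmapsto ξ hξ))]
  have hvQ : ∀ ζ ∈ closedBall z s, v ζ ≤ ((Q ζ + m : ℝ) : EReal) := by
    intro ζ hζ
    obtain ⟨h1, h2⟩ := hcb ζ hζ
    by_cases h3 : δ ≤ ‖f ζ‖
    · have h4 := hzmax' ζ ⟨by simpa using h1.le, h3⟩
      refine (hvw ζ).trans ?_
      have : w ζ ≤ Q ζ + m := by linarith
      exact_mod_cast this
    · push Not at h3
      have h4 := hsmall ζ h1.le h2 h3
      refine (hB ζ h1.le).trans ?_
      have : B ≤ Q ζ + m := by linarith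
      exact_mod_cast this
  have hfin := hsub s hspos hss g hgc (fun ξ hξ => by
    rw [hgQ ξ hξ.le]
    exact hvQ _ (hmapsto ξ hξ.le))
  -- compute the average
  have havg : circleAverage g 0 1 = Q z + m - κ * s ^ 2 := by
    have e1 : circleAverage g 0 1 = circleAverage (fun ζ => Q ζ + m) z s := by
      rw [circleAverage_eq_circleAverage_zero_one (c := z)]
      apply circleAverage_congr_sphere
      intro ξ hξ
      have hξ' : ‖ξ‖ = 1 := by simpa using hξ
      simp only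
      rw [hgQ ξ hξ'.le, add_comm z]
    have hci1 : CircleIntegrable (fun x : ℂ => ((-h).eval x).re + (-κ) * (‖x - 0‖ ^ 2 - 1)) z s := by
      have h3 : Continuous (fun ζ : ℂ => ((-h).eval ζ).re) :=
        Complex.continuous_re.comp (-h).continuous
      exact (by fun_prop : Continuous (fun x : ℂ =>
        ((-h).eval x).re + (-κ) * (‖x - 0‖ ^ 2 - 1))).continuousOn.circleIntegrable'
    have hlogc : ContinuousOn (fun ζ => Real.log ‖f ζ‖) (closedBall z s) := fun ζ hζ =>
      ((hf.continuous.norm.continuousAt).log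
        (norm_ne_zero_iff.2 (hcb ζ hζ).2)).continuousWithinAt
    have hci2 : CircleIntegrable (fun ζ => Real.log ‖f ζ‖) z s :=
      (hlogc.mono sphere_subset_closedBall).circleIntegrable hspos.le
    have hci3 : CircleIntegrable (fun ζ => ε * (Real.log M₀ - Real.log ‖f ζ‖)) z s :=
      (continuousOn_const.mul (continuousOn_const.sub
        (hlogc.mono sphere_subset_closedBall))).circleIntegrable hspos.le
    have e2 : (fun ζ => Q ζ + m) = fun ζ => (((-h).eval ζ).re + (-κ) * (‖ζ - 0‖ ^ 2 - 1) +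
        ε * (Real.log M₀ - Real.log ‖f ζ‖)) + m := by
      funext ζ
      simp only [hQ, Polynomial.eval_neg, Complex.neg_re, sub_zero]
      ring
    have e3 : circleAverage (fun ζ => ε * (Real.log M₀ - Real.log ‖f ζ‖)) z s =
        ε * (Real.log M₀ - Real.log ‖f z‖) := by
      have h4 := circleAverage_fun_smul (f := fun ζ => Real.log M₀ - Real.log ‖f ζ‖) (c := z)
        (R := s) (a := ε)
      simp only [smul_eq_mul] at h4
      rw [h4, circleAverage_fun_sub (circleIntegrable_const _ _ _) hci2, circleAverage_const,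
        AnalyticOnNhd.circleAverage_log_norm_of_ne_zero]
      · intro x _
        exact hf.analyticAt x
      · rw [abs_of_pos hspos]
        exact fun x hx => (hcb x hx).2
    have hci4 : CircleIntegrable (fun ζ => (((-h).eval ζ).re + (-κ) * (‖ζ - 0‖ ^ 2 - 1) +
        ε * (Real.log M₀ - Real.log ‖f ζ‖))) z s := hci1.add hci3
    rw [e1, e2, circleAverage_fun_add hci4 (circleIntegrable_const _ _ _),
      circleAverage_fun_add hci1 hci3, circleAverage_const, planar1_avg, e3]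
    simp only [hQ, Polynomial.eval_neg, Complex.neg_re, sub_zero]
    ring
  rw [havg, hvz] at hfin
  have h5 : w z ≤ Q z + m - κ * s ^ 2 := by exact_mod_cast hfin
  have h6 : 0 < κ * s ^ 2 := by positivity
  linarith

/-- extension of plurisubharmonic functions across the zero set of `P` -/
theorem psh_extension {P : ℂ × ℂ → ℂ} (hP : Differentiable ℂ P) (hP0 : ∃ x, P x ≠ 0)
    (u : ℂ × ℂ → EReal) (husc : ∀ p, P p ≠ 0 → UpperSemicontinuousAt u p)
    (hlt : ∀ p, P p ≠ 0 → u p < ⊤)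
    (hsub : ∀ p, P p ≠ 0 → ∃ s > 0, ∀ b : ℂ × ℂ, ‖b‖ ≤ s → ∀ g : ℂ → ℝ, Continuous g →
      (∀ ζ : ℂ, ‖ζ‖ = 1 → P (p + ζ • b) ≠ 0 ∧ u (p + ζ • b) ≤ g ζ) →
        u p ≤ (circleAverage g 0 1 : ℝ))
    (hbd : ∀ a, ∃ s > 0, ∃ B : ℝ, ∀ p ∈ ball a s, P p ≠ 0 → u p ≤ B) :
    ∃ v : ℂ × ℂ → EReal, PSH v ∧ ∀ p, P p ≠ 0 → v p = u p := by
  set S : Set (ℂ × ℂ) := {x | P x ≠ 0} with hS
  have hSo : IsOpen S := isOpen_ne_fun hP.continuous continuous_const
  set v : ℂ × ℂ → EReal := fun x => limsup u (𝓝[S] x) with hv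
  have hle : ∀ x y, (∀ᶠ z in 𝓝[S] x, u z ≤ y) → v x ≤ y := fun x y h =>
    limsup_le_of_le (h := h)
  have hgt : ∀ x y, v x < y → ∀ᶠ z in 𝓝[S] x, u z < y := fun x y h =>
    eventually_lt_of_limsup_lt h
  have hvu : ∀ p, P p ≠ 0 → v p = u p := by
    intro p hp
    apply le_antisymm
    · apply le_of_forall_gt_imp_ge_of_dense
      intro y hy
      apply hle
      exact (((husc p hp) y hy).filter_mono nhdsWithin_le_nhds).mono (fun z hz => hz.le)
    · apply le_of_forall_gt_imp_ge_of_dense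
      intro y hy
      have := hgt p y hy
      rw [hSo.nhdsWithin_eq hp] at this
      exact this.self_of_nhds.le
  have hvusc : UpperSemicontinuous v := by
    intro x y hy
    obtain ⟨y', hy1, hy2⟩ := exists_between hy
    have h1 := hgt x y' hy1
    rw [eventually_nhdsWithin_iff] at h1
    filter_upwards [h1.eventually_nhds] with x' hx'
    refine (hle x' y' ?_).trans_lt hy2
    rw [eventually_nhdsWithin_iff]
    exact hx'.mono (fun z hz hzS => (hz hzS).le)
  have hvt : ∀ x, v x < ⊤ := by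
    intro x
    obtain ⟨s, hs, B, hB⟩ := hbd x
    refine (hle x B ?_).trans_lt (EReal.coe_lt_top B)
    rw [eventually_nhdsWithin_iff]
    filter_upwards [ball_mem_nhds x hs] with z hz hzS
    exact hB z hz hzS
  refine ⟨v, ⟨hvusc, hvt, ?_⟩, hvu⟩
  intro a b g hg hvg
  -- reduction to a strict inequality with a harmonic majorant
  have key : ∀ η : ℝ, 0 < η → v a ≤ ((circleAverage g 0 1 + 3 * η : ℝ) : EReal) := by
    intro η hη
    obtain ⟨h, h1, h2⟩ := polar2_above hg hη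
    have hstrict : ∀ ζ : ℂ, ‖ζ‖ = 1 → v (a + ζ • b) < ((-(h.eval ζ).re : ℝ) : EReal) := by
      intro ζ hζ
      refine (hvg ζ hζ).trans_lt ?_
      have := h1 ζ hζ
      exact_mod_cast (by linarith : g ζ < -(h.eval ζ).re)
    have hHc : Continuous (fun ζ : ℂ => -(h.eval ζ).re) :=
      (Complex.continuous_re.comp h.continuous).neg
    have hev : ∀ᶠ a' in 𝓝 a, ∀ ζ ∈ sphere (0 : ℂ) 1,
        v (a' + ζ • b) < ((-(h.eval ζ).re : ℝ) : EReal) := by
      refine IsCompact.eventually_forall_of_forall_eventually (isCompact_sphere _ _)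
        (P := fun a' ζ => v (a' + ζ • b) < ((-(h.eval ζ).re : ℝ) : EReal)) (fun ζ hζ => ?_)
      have hζ' : ‖ζ‖ = 1 := by simpa using hζ
      obtain ⟨y, hy1, hy2⟩ := EReal.lt_iff_exists_real_btwn.1 (hstrict ζ hζ')
      have c1 : Tendsto (fun z : (ℂ × ℂ) × ℂ => z.1 + z.2 • b) (𝓝 (a, ζ)) (𝓝 (a + ζ • b)) := by
        have : Continuous (fun z : (ℂ × ℂ) × ℂ => z.1 + z.2 • b) := by fun_prop
        exact this.tendsto (a, ζ)
      have c2 : Tendsto (fun z : (ℂ × ℂ) × ℂ => -(h.eval z.2).re) (𝓝 (a, ζ))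
          (𝓝 (-(h.eval ζ).re)) := (hHc.comp continuous_snd).tendsto (a, ζ)
      have e1 := c1.eventually (hvusc (a + ζ • b) y hy1)
      have e2 := c2.eventually (lt_mem_nhds (show y < -(h.eval ζ).re by exact_mod_cast hy2))
      filter_upwards [e1, e2] with z hz1 hz2
      exact hz1.trans (by exact_mod_cast hz2)
    have hmain : ∀ᶠ a' in 𝓝[S] a, u a' ≤ ((-(h.eval 0).re : ℝ) : EReal) := by
      rw [eventually_nhdsWithin_iff]
      filter_upwards [hev] with a' ha' ha'S
      have ha'P : P a' ≠ 0 := ha'S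
      rw [← hvu a' ha'P]
      have hlin : Continuous (fun ζ : ℂ => a' + ζ • b) := by fun_prop
      have hfd : Differentiable ℂ (fun ζ : ℂ => P (a' + ζ • b)) :=
        hP.comp ((differentiable_const a').add (differentiable_id.smul_const b))
      have hvc : UpperSemicontinuous (fun ζ : ℂ => v (a' + ζ • b)) := fun ζ y hy =>
        (hlin.tendsto ζ).eventually (hvusc _ y hy)
      have := polar2_disc (v := fun ζ => v (a' + ζ • b)) hvc (fun ζ => hvt _)
        (f := fun ζ => P (a' + ζ • b)) hfd (by simpa using ha'P) h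
        (fun ζ hζ => ha' ζ (by simpa using hζ)) (by
          intro ζ hζ
          obtain ⟨s, hs, hs2⟩ := hsub (a' + ζ • b) hζ
          have hne : ∀ᶠ p in 𝓝 (a' + ζ • b), P p ≠ 0 := hP.continuous.continuousAt.eventually_ne hζ
          obtain ⟨r, hr, hr2⟩ := Metric.eventually_nhds_iff_ball.1 hne
          refine ⟨min s r / (‖b‖ + 1), by positivity, fun t ht htlt g' hg' hvg' => ?_⟩
          have htb : t * ‖b‖ < min s r := by
            rw [lt_div_iff₀ (by positivity)] at htlt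
            nlinarith [norm_nonneg b]
          have hnb : ‖((t : ℂ) • b)‖ < min s r := by
            rw [norm_smul, Complex.norm_real, Real.norm_of_nonneg ht.le]
            exact htb
          have h3 := hs2 ((t : ℂ) • b) (hnb.le.trans (min_le_left _ _)) g' hg' (by
            intro ξ hξ
            have h4 : P (a' + ζ • b + ξ • ((t : ℂ) • b)) ≠ 0 := by
              apply hr2
              rw [mem_ball, dist_eq_norm, add_sub_cancel_left, norm_smul, hξ, one_mul]
              exact hnb.trans_le (min_le_right _ _)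
            refine ⟨h4, ?_⟩
            rw [← hvu _ h4]
            have h5 := hvg' ξ hξ
            have h6 : a' + (ζ + (t : ℂ) * ξ) • b = a' + ζ • b + ξ • ((t : ℂ) • b) := by
              rw [add_smul, add_assoc, smul_smul, mul_comm ξ]
            simp only [h6] at h5
            exact h5)
          rw [hvu _ hζ]
          exact h3)
      simpa using this
    exact (hle a _ hmain).trans (by exact_mod_cast h2)
  by_contra hcon
  push Not at hcon
  obtain ⟨q, hq1, hq2⟩ := EReal.lt_iff_exists_real_btwn.1 hcon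
  rw [EReal.coe_lt_coe_iff] at hq1
  have := key ((q - circleAverage g 0 1) / 3) (by linarith)
  have h7 : circleAverage g 0 1 + 3 * ((q - circleAverage g 0 1) / 3) = q := by ring
  rw [h7] at this
  exact absurd hq2 (not_lt.2 this)

/-- invariance under exchanging the coordinates -/
theorem pluripolar_swap {E : Set (ℂ × ℂ)} (h : Pluripolar E) : Pluripolar (Prod.swap ⁻¹' E) := by
  obtain ⟨u, ⟨h1, h2, h3⟩, ⟨x, hx⟩, hE⟩ := h
  refine ⟨u ∘ Prod.swap, ⟨?_, fun x => h2 _, ?_⟩, ⟨x.swap, by simpa using hx⟩, fun x hx => hE _ hx⟩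
  · intro x y hy
    exact (continuous_swap.tendsto x).eventually (h1 _ y hy)
  · intro a b g hg hle
    refine h3 a.swap b.swap g hg (fun ζ hζ => ?_)
    have := hle ζ hζ
    simpa using this

end Pool.Agent.ParLeaf
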