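import Mathlib

/-! MP_3a36cd_an, module SCV1: basic several complex variables. -/

open Set Metric Filter Topology Complex
open scoped ContDiff

namespace Pool.Agent.ParLeaf

section
variable {E F : Type} [NormedAddCommGroup E] [NormedSpace ℂ E]
  [NormedAddCommGroup F] [NormedSpace ℂ F] [CompleteSpace F]

/-- one-variable Cauchy/Taylor estimate via the Schwarz lemma -/
theorem SCV1_onevar {g : ℂ → F} {R B : ℝ} (hR : 1 < R)
    (hd : DifferentiableOn ℂ g (ball 0 R)) (hB : ∀ z ∈ ball (0 : ℂ) R, ‖g z‖ ≤ B) :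
    ‖deriv g 0‖ ≤ 2 * B / R ∧ ‖g 1 - g 0 - deriv g 0‖ ≤ 4 * B / R ^ 2 := by
  have hR0 : 0 < R := by linarith
  have h0 : (0 : ℂ) ∈ ball (0 : ℂ) R := mem_ball_self hR0
  have h1 : (1 : ℂ) ∈ ball (0 : ℂ) R := by simpa using hR
  have hm : MapsTo g (ball 0 R) (closedBall (g 0) (2 * B)) := by
    intro z hz
    rw [mem_closedBall, dist_eq_norm]
    calc ‖g z - g 0‖ ≤ ‖g z‖ + ‖g 0‖ := norm_sub_le _ _
      _ ≤ 2 * B := by linarith [hB z hz, hB 0 h0]
  have hs : ∀ z ∈ ball (0 : ℂ) R, ‖dslope g 0 z‖ ≤ 2 * B / R := fun z hz =>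
    Complex.norm_dslope_le_div_of_mapsTo_ball hd hm hz
  have hdd : DifferentiableOn ℂ (dslope g 0) (ball 0 R) :=
    (Complex.differentiableOn_dslope (isOpen_ball.mem_nhds h0)).mpr hd
  have hm2 : MapsTo (dslope g 0) (ball 0 R) (closedBall (dslope g 0 0) (4 * B / R)) := by
    intro z hz
    rw [mem_closedBall, dist_eq_norm]
    calc ‖dslope g 0 z - dslope g 0 0‖ ≤ ‖dslope g 0 z‖ + ‖dslope g 0 0‖ := norm_sub_le _ _
      _ ≤ 2 * B / R + 2 * B / R := add_le_add (hs z hz) (hs 0 h0)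
      _ = 4 * B / R := by ring
  have h2 := Complex.norm_dslope_le_div_of_mapsTo_ball hdd hm2 h1
  constructor
  · simpa using hs 0 h0
  · have e : dslope (dslope g 0) 0 1 = g 1 - g 0 - deriv g 0 := by
      rw [dslope_of_ne _ one_ne_zero, slope_def_module, dslope_same,
        dslope_of_ne _ one_ne_zero, slope_def_module]
      simp
    rw [e] at h2
    calc _ ≤ _ := h2
      _ = 4 * B / R ^ 2 := by field_simp

/-- derivative along a line -/
noncomputable def SCV1_D (f : E → F) (x v : E) : F := deriv (fun ζ : ℂ => f (x + ζ • v)) 0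

theorem SCV1_line {f : E → F} {U : Set E}
    (hl : ∀ a ∈ U, ∀ v : E, DifferentiableAt ℂ (fun ζ : ℂ => f (a + ζ • v)) 0)
    (x v : E) {ζ₀ : ℂ} (h : x + ζ₀ • v ∈ U) :
    DifferentiableAt ℂ (fun ζ : ℂ => f (x + ζ • v)) ζ₀ := by
  have h1 := hl _ h v
  have h2 : DifferentiableAt ℂ (fun ζ : ℂ => ζ + (-ζ₀)) ζ₀ := by fun_prop
  have h3 : DifferentiableAt ℂ (fun ζ : ℂ => f ((x + ζ₀ • v) + ζ • v))
      ((fun ζ : ℂ => ζ + (-ζ₀)) ζ₀) := by
    simpa using h1
  have h4 := h3.comp ζ₀ h2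
  refine h4.congr_of_eventuallyEq (Eventually.of_forall fun ζ => ?_)
  show f (x + ζ • v) = f ((x + ζ₀ • v) + (ζ + (-ζ₀)) • v)
  congr 1
  rw [add_smul, neg_smul]; abel

theorem SCV1_est {f : E → F} {U : Set E}
    (hl : ∀ a ∈ U, ∀ v : E, DifferentiableAt ℂ (fun ζ : ℂ => f (a + ζ • v)) 0)
    {a : E} {r B : ℝ} (hr : 0 < r) (hsub : ball a (2 * r) ⊆ U)
    (hB : ∀ x ∈ ball a (2 * r), ‖f x‖ ≤ B) {x v : E} (hx : x ∈ ball a r) (hv : ‖v‖ < r) :
    ‖SCV1_D f x v‖ ≤ 2 * B / r * ‖v‖ ∧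
    ‖f (x + v) - f x - SCV1_D f x v‖ ≤ 4 * B / r ^ 2 * ‖v‖ ^ 2 := by
  by_cases hv0 : v = 0
  · subst hv0
    simp [SCV1_D]
  have hvp : 0 < ‖v‖ := norm_pos_iff.mpr hv0
  have hmem : ∀ ζ ∈ ball (0 : ℂ) (r / ‖v‖), x + ζ • v ∈ ball a (2 * r) := by
    intro ζ hζ
    rw [mem_ball, dist_eq_norm] at hζ hx ⊢
    rw [sub_zero, lt_div_iff₀ hvp] at hζ
    calc ‖x + ζ • v - a‖ = ‖(x - a) + ζ • v‖ := by congr 1; abel
      _ ≤ ‖x - a‖ + ‖ζ • v‖ := norm_add_le _ _
      _ = ‖x - a‖ + ‖ζ‖ * ‖v‖ := by rw [norm_smul]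
      _ < 2 * r := by linarith
  have hR : 1 < r / ‖v‖ := by rwa [one_lt_div hvp]
  have key := SCV1_onevar (g := fun ζ : ℂ => f (x + ζ • v)) (B := B) hR
    (fun ζ hζ => (SCV1_line hl x v (hsub (hmem ζ hζ))).differentiableWithinAt)
    (fun ζ hζ => hB _ (hmem ζ hζ))
  constructor
  · refine key.1.trans (le_of_eq ?_)
    field_simp
  · have := key.2
    simp only [one_smul, zero_smul, add_zero] at this
    refine this.trans (le_of_eq ?_)
    field_simp

theorem SCV1_smul {f : E → F} {U : Set E}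
    (hl : ∀ a ∈ U, ∀ v : E, DifferentiableAt ℂ (fun ζ : ℂ => f (a + ζ • v)) 0)
    {x : E} (hx : x ∈ U) (c : ℂ) (v : E) :
    SCV1_D f x (c • v) = c • SCV1_D f x v := by
  have h1 : HasDerivAt (fun ζ : ℂ => f (x + ζ • v)) (SCV1_D f x v) ((fun ζ : ℂ => c * ζ) 0) := by
    have := (hl x hx v).hasDerivAt
    simpa [SCV1_D] using this
  have h2 : HasDerivAt (fun ζ : ℂ => c * ζ) c 0 := by
    simpa using (hasDerivAt_id (0 : ℂ)).const_mul c
  have h3 := HasDerivAt.scomp (0 : ℂ) h1 h2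
  have h4 : (fun ζ : ℂ => f (x + ζ • c • v)) = (fun ζ : ℂ => f (x + ζ • v)) ∘ (fun ζ : ℂ => c * ζ) := by
    funext ζ
    simp only [Function.comp]
    rw [smul_smul, mul_comm]
  unfold SCV1_D
  rw [h4, h3.deriv]
  rfl

/-- local setup around a point -/
theorem SCV1_nhds {f : E → F} {U : Set E} (hU : IsOpen U) (hc : ContinuousOn f U)
    {a : E} (ha : a ∈ U) :
    ∃ r B : ℝ, 0 < r ∧ 0 ≤ B ∧ ball a (2 * r) ⊆ U ∧ ∀ x ∈ ball a (2 * r), ‖f x‖ ≤ B := by
  have h1 : ContinuousAt f a := hc.continuousAt (hU.mem_nhds ha)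
  have h2 : ∀ᶠ x in 𝓝 a, ‖f x‖ < ‖f a‖ + 1 :=
    h1.norm.eventually_lt continuousAt_const (by linarith)
  obtain ⟨s, hs, hs2⟩ := Metric.mem_nhds_iff.mp (Filter.inter_mem (hU.mem_nhds ha) h2)
  refine ⟨s / 2, ‖f a‖ + 1, by linarith, by positivity, ?_, ?_⟩
  · intro x hx
    rw [mul_div_cancel₀ _ (two_ne_zero)] at hx
    exact (hs2 hx).1
  · intro x hx
    rw [mul_div_cancel₀ _ (two_ne_zero)] at hx
    exact le_of_lt (hs2 hx).2

/-- difference quotients converge uniformly near each point -/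
theorem SCV1_unif {f : E → F} {U : Set E} (hU : IsOpen U) (hc : ContinuousOn f U)
    (hl : ∀ a ∈ U, ∀ v : E, DifferentiableAt ℂ (fun ζ : ℂ => f (a + ζ • v)) 0)
    {a : E} (ha : a ∈ U) (w : E) :
    ∃ r : ℝ, 0 < r ∧ ball a r ⊆ U ∧ ∃ t : ℕ → ℝ, (∀ n, 0 < t n) ∧
      (∀ n, ∀ x ∈ ball a r, x + (t n : ℂ) • w ∈ U) ∧
      TendstoUniformlyOn (fun n x => ((t n : ℂ))⁻¹ • (f (x + (t n : ℂ) • w) - f x))
        (fun x => SCV1_D f x w) atTop (ball a r) := by
  obtain ⟨r, B, hr, hB0, hsub, hB⟩ := SCV1_nhds hU hc ha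
  set δ : ℝ := r / (2 * (‖w‖ + 1)) with hδ
  have hw1 : 0 < ‖w‖ + 1 := by positivity
  have hδ0 : 0 < δ := by positivity
  have hδw : δ * ‖w‖ < r := by
    have : δ * (‖w‖ + 1) = r / 2 := by rw [hδ]; field_simp
    nlinarith [norm_nonneg w]
  set t : ℕ → ℝ := fun n => δ / ((n : ℝ) + 1) with ht
  have ht0 : ∀ n, 0 < t n := fun n => by positivity
  have htle : ∀ n, t n ≤ δ := fun n => div_le_self hδ0.le (by linarith [Nat.cast_nonneg (α := ℝ) n])
  have htw : ∀ n, ‖(t n : ℂ) • w‖ = t n * ‖w‖ := fun n => by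
    rw [norm_smul, Complex.norm_real, Real.norm_of_nonneg (ht0 n).le]
  have htw2 : ∀ n, ‖(t n : ℂ) • w‖ < r := fun n => by
    rw [htw n]
    exact lt_of_le_of_lt (mul_le_mul_of_nonneg_right (htle n) (norm_nonneg _)) hδw
  have hball : ball a r ⊆ ball a (2 * r) := ball_subset_ball (by linarith)
  have hmem : ∀ n, ∀ x ∈ ball a r, x + (t n : ℂ) • w ∈ ball a (2 * r) := by
    intro n x hx
    rw [mem_ball, dist_eq_norm] at hx ⊢
    calc ‖x + (t n : ℂ) • w - a‖ = ‖(x - a) + (t n : ℂ) • w‖ := by congr 1; abel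
      _ ≤ ‖x - a‖ + ‖(t n : ℂ) • w‖ := norm_add_le _ _
      _ < 2 * r := by linarith [htw2 n]
  refine ⟨r, hr, hball.trans hsub, t, ht0, fun n x hx => hsub (hmem n x hx), ?_⟩
  have hest : ∀ n, ∀ x ∈ ball a r,
      ‖SCV1_D f x w - ((t n : ℂ))⁻¹ • (f (x + (t n : ℂ) • w) - f x)‖
        ≤ 4 * B / r ^ 2 * ‖w‖ ^ 2 * t n := by
    intro n x hx
    have h1 := (SCV1_est hl hr hsub hB hx (htw2 n)).2
    rw [SCV1_smul hl (hsub (hball hx)), htw n] at h1
    have hne : (t n : ℂ) ≠ 0 := by exact_mod_cast (ht0 n).ne'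
    have h2 : SCV1_D f x w - ((t n : ℂ))⁻¹ • (f (x + (t n : ℂ) • w) - f x)
        = -(((t n : ℂ))⁻¹ • (f (x + (t n : ℂ) • w) - f x - (t n : ℂ) • SCV1_D f x w)) := by
      rw [smul_sub (((t n : ℂ))⁻¹) (f (x + (t n : ℂ) • w) - f x), smul_smul,
        inv_mul_cancel₀ hne, one_smul]
      abel
    rw [h2, norm_neg, norm_smul, norm_inv, Complex.norm_real, Real.norm_of_nonneg (ht0 n).le]
    calc (t n)⁻¹ * ‖f (x + (t n : ℂ) • w) - f x - (t n : ℂ) • SCV1_D f x w‖
        ≤ (t n)⁻¹ * (4 * B / r ^ 2 * (t n * ‖w‖) ^ 2) :=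
          mul_le_mul_of_nonneg_left h1 (inv_nonneg.mpr (ht0 n).le)
      _ = 4 * B / r ^ 2 * ‖w‖ ^ 2 * t n := by
          have := (ht0 n).ne'
          field_simp
  have htend : Tendsto t atTop (𝓝 0) := by
    have h1 := (tendsto_one_div_add_atTop_nhds_zero_nat (𝕜 := ℝ)).const_mul δ
    rw [mul_zero] at h1
    refine h1.congr fun n => ?_
    simp only [ht]
    ring
  have htend2 : Tendsto (fun n => 4 * B / r ^ 2 * ‖w‖ ^ 2 * t n) atTop (𝓝 0) := by
    simpa using htend.const_mul (4 * B / r ^ 2 * ‖w‖ ^ 2)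
  rw [Metric.tendstoUniformlyOn_iff]
  intro ε hε
  filter_upwards [htend2.eventually (gt_mem_nhds hε)] with n hn x hx
  rw [dist_eq_norm]
  exact lt_of_le_of_lt (hest n x hx) hn

theorem SCV1_cont {f : E → F} {U : Set E} (hU : IsOpen U) (hc : ContinuousOn f U)
    (hl : ∀ a ∈ U, ∀ v : E, DifferentiableAt ℂ (fun ζ : ℂ => f (a + ζ • v)) 0)
    {a : E} (ha : a ∈ U) (w : E) : ContinuousAt (fun x => SCV1_D f x w) a := by
  obtain ⟨r, hr, hsub, t, ht0, hmem, hunif⟩ := SCV1_unif hU hc hl ha w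
  have h1 : ContinuousOn (fun x => SCV1_D f x w) (ball a r) := by
    refine hunif.continuousOn (Frequently.of_forall fun n => ?_)
    refine ContinuousOn.const_smul (ContinuousOn.sub ?_ (hc.mono hsub)) _
    exact hc.comp (by fun_prop) (fun x hx => hmem n x hx)
  exact h1.continuousAt (ball_mem_nhds a hr)

theorem SCV1_add {f : E → F} {U : Set E} (hU : IsOpen U) (hc : ContinuousOn f U)
    (hl : ∀ a ∈ U, ∀ v : E, DifferentiableAt ℂ (fun ζ : ℂ => f (a + ζ • v)) 0)
    {a : E} (ha : a ∈ U) (v w : E) :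
    SCV1_D f a (v + w) = SCV1_D f a v + SCV1_D f a w := by
  obtain ⟨r, B, hr, hB0, hsub, hB⟩ := SCV1_nhds hU hc ha
  have hball : ball a r ⊆ ball a (2 * r) := ball_subset_ball (by linarith)
  have haa : a ∈ ball a r := mem_ball_self hr
  -- `D_{a+tv}(w)` tends to `D_a(w)`
  have T1 : Tendsto (fun t : ℝ => SCV1_D f (a + (t : ℂ) • v) w) (𝓝[>] 0) (𝓝 (SCV1_D f a w)) := by
    have h1 : ContinuousAt (fun t : ℝ => a + (t : ℂ) • v) 0 := by fun_prop
    have h2 : ContinuousAt (fun x => SCV1_D f x w) ((fun t : ℝ => a + (t : ℂ) • v) 0) := by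
      simpa using SCV1_cont hU hc hl ha w
    have h3 := ContinuousAt.comp (f := fun t : ℝ => a + (t : ℂ) • v) (x := (0 : ℝ)) h2 h1
    have h4 := h3.tendsto
    simp only [Function.comp, Complex.ofReal_zero, zero_smul, add_zero] at h4
    exact h4.mono_left nhdsWithin_le_nhds
  set C : ℝ := 4 * B / r ^ 2 * (‖v + w‖ ^ 2 + ‖w‖ ^ 2 + ‖v‖ ^ 2) with hC
  have hev : ∀ᶠ t : ℝ in 𝓝[>] 0, ‖SCV1_D f (a + (t : ℂ) • v) w
      - (SCV1_D f a (v + w) - SCV1_D f a v)‖ ≤ C * t := by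
    set M : ℝ := ‖v‖ + ‖w‖ + 1 with hM
    have hMp : 0 < M := by positivity
    have hpos : 0 < r / M := by positivity
    filter_upwards [Ioo_mem_nhdsGT hpos] with t ht
    have ht0 : 0 < t := ht.1
    have htM : t * M < r := by
      have := ht.2
      rwa [lt_div_iff₀ hMp] at this
    have hn : ∀ u : E, ‖(t : ℂ) • u‖ = t * ‖u‖ := fun u => by
      rw [norm_smul, Complex.norm_real, Real.norm_of_nonneg ht0.le]
    have hv : ‖(t : ℂ) • v‖ < r := by
      rw [hn]
      nlinarith [norm_nonneg v, norm_nonneg w]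
    have hw : ‖(t : ℂ) • w‖ < r := by
      rw [hn]
      nlinarith [norm_nonneg v, norm_nonneg w]
    have hvw : ‖(t : ℂ) • (v + w)‖ < r := by
      rw [hn]
      nlinarith [norm_nonneg v, norm_nonneg w, norm_add_le v w]
    have hx : a + (t : ℂ) • v ∈ ball a r := by
      rw [mem_ball, dist_eq_norm]
      simpa using hv
    have e1 := (SCV1_est hl hr hsub hB haa hv).2
    have e2 := (SCV1_est hl hr hsub hB haa hvw).2
    have e3 := (SCV1_est hl hr hsub hB hx hw).2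
    rw [SCV1_smul hl ha, hn] at e1 e2
    rw [SCV1_smul hl (hsub (hball hx)), hn] at e3
    have hne : (t : ℂ) ≠ 0 := by exact_mod_cast ht0.ne'
    have key : SCV1_D f (a + (t : ℂ) • v) w - (SCV1_D f a (v + w) - SCV1_D f a v)
        = ((t : ℂ))⁻¹ • ((f (a + (t : ℂ) • (v + w)) - f a - (t : ℂ) • SCV1_D f a (v + w))
          - (f (a + (t : ℂ) • v + (t : ℂ) • w) - f (a + (t : ℂ) • v)
            - (t : ℂ) • SCV1_D f (a + (t : ℂ) • v) w)
          - (f (a + (t : ℂ) • v) - f a - (t : ℂ) • SCV1_D f a v)) := by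
      have e : a + (t : ℂ) • (v + w) = a + (t : ℂ) • v + (t : ℂ) • w := by
        rw [smul_add]; abel
      rw [e]
      have e' : (f (a + (t : ℂ) • v + (t : ℂ) • w) - f a - (t : ℂ) • SCV1_D f a (v + w))
          - (f (a + (t : ℂ) • v + (t : ℂ) • w) - f (a + (t : ℂ) • v)
            - (t : ℂ) • SCV1_D f (a + (t : ℂ) • v) w)
          - (f (a + (t : ℂ) • v) - f a - (t : ℂ) • SCV1_D f a v)
          = (t : ℂ) • (SCV1_D f (a + (t : ℂ) • v) w - (SCV1_D f a (v + w) - SCV1_D f a v)) := by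
        rw [smul_sub, smul_sub]; abel
      rw [e', smul_smul, inv_mul_cancel₀ hne, one_smul]
    rw [key, norm_smul, norm_inv, Complex.norm_real, Real.norm_of_nonneg ht0.le]
    have hle : ‖(f (a + (t : ℂ) • (v + w)) - f a - (t : ℂ) • SCV1_D f a (v + w))
          - (f (a + (t : ℂ) • v + (t : ℂ) • w) - f (a + (t : ℂ) • v)
            - (t : ℂ) • SCV1_D f (a + (t : ℂ) • v) w)
          - (f (a + (t : ℂ) • v) - f a - (t : ℂ) • SCV1_D f a v)‖ ≤ C * t ^ 2 := by
      refine (norm_sub_le _ _).trans ?_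
      refine (add_le_add_left (norm_sub_le _ _) _).trans ?_
      calc _ ≤ 4 * B / r ^ 2 * (t * ‖v + w‖) ^ 2 + 4 * B / r ^ 2 * (t * ‖w‖) ^ 2
            + 4 * B / r ^ 2 * (t * ‖v‖) ^ 2 := add_le_add (add_le_add e2 e3) e1
        _ = C * t ^ 2 := by rw [hC]; ring
    calc t⁻¹ * _ ≤ t⁻¹ * (C * t ^ 2) := mul_le_mul_of_nonneg_left hle (inv_nonneg.mpr ht0.le)
      _ = C * t := by field_simp
  have T2 : Tendsto (fun t : ℝ => SCV1_D f (a + (t : ℂ) • v) w) (𝓝[>] 0)
      (𝓝 (SCV1_D f a (v + w) - SCV1_D f a v)) := by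
    rw [tendsto_iff_norm_sub_tendsto_zero]
    refine squeeze_zero' (Eventually.of_forall fun t => norm_nonneg _) hev ?_
    have : Tendsto (fun t : ℝ => C * t) (𝓝 0) (𝓝 (C * 0)) := by
      exact (continuous_const.mul continuous_id).tendsto 0
    rw [mul_zero] at this
    exact this.mono_left nhdsWithin_le_nhds
  have := tendsto_nhds_unique T1 T2
  rw [this]; abel

/-- Frechet differentiability with explicit derivative -/
theorem SCV1_hasFDerivAt {f : E → F} {U : Set E} (hU : IsOpen U) (hc : ContinuousOn f U)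
    (hl : ∀ a ∈ U, ∀ v : E, DifferentiableAt ℂ (fun ζ : ℂ => f (a + ζ • v)) 0)
    {a : E} (ha : a ∈ U) : ∃ L : E →L[ℂ] F, HasFDerivAt f L a := by
  obtain ⟨r, B, hr, hB0, hsub, hB⟩ := SCV1_nhds hU hc ha
  have haa : a ∈ ball a r := mem_ball_self hr
  let L₀ : E →ₗ[ℂ] F :=
    { toFun := fun v => SCV1_D f a v
      map_add' := fun v w => SCV1_add hU hc hl ha v w
      map_smul' := fun c v => SCV1_smul hl ha c v }
  have hbd : ∀ v, ‖L₀ v‖ ≤ 2 * B / r * ‖v‖ := by
    intro v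
    by_cases hv : v = 0
    · subst hv; simp
    have hvp : 0 < ‖v‖ := norm_pos_iff.mpr hv
    set c : ℝ := r / (2 * ‖v‖) with hc'
    have hcp : 0 < c := by positivity
    have hn : ‖(c : ℂ) • v‖ = c * ‖v‖ := by
      rw [norm_smul, Complex.norm_real, Real.norm_of_nonneg hcp.le]
    have hn2 : c * ‖v‖ = r / 2 := by rw [hc']; field_simp
    have h1 := (SCV1_est hl hr hsub hB haa (v := (c : ℂ) • v) (by rw [hn, hn2]; linarith)).1
    rw [SCV1_smul hl ha, hn, norm_smul, Complex.norm_real, Real.norm_of_nonneg hcp.le] at h1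
    have h2 : c * ‖SCV1_D f a v‖ ≤ c * (2 * B / r * ‖v‖) := by
      calc _ ≤ _ := h1
        _ = _ := by ring
    exact le_of_mul_le_mul_left h2 hcp
  let L : E →L[ℂ] F := L₀.mkContinuous _ hbd
  refine ⟨L, ?_⟩
  rw [hasFDerivAt_iff_isLittleO_nhds_zero]
  have hO : (fun h : E => f (a + h) - f a - L h) =O[𝓝 0] (fun h : E => ‖h‖ ^ 2) := by
    refine Asymptotics.IsBigO.of_bound (4 * B / r ^ 2) ?_
    filter_upwards [ball_mem_nhds (0 : E) hr] with h hh
    rw [mem_ball, dist_eq_norm, sub_zero] at hh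
    rw [norm_pow, norm_norm]
    exact (SCV1_est hl hr hsub hB haa hh).2
  exact hO.trans_isLittleO (Asymptotics.isLittleO_norm_pow_id one_lt_two)

/-- continuous and holomorphic on complex lines implies (Fréchet) holomorphic -/
theorem scv_of_lines {f : E → F} {U : Set E} (hU : IsOpen U) (hc : ContinuousOn f U)
    (hl : ∀ a ∈ U, ∀ v : E, DifferentiableAt ℂ (fun ζ : ℂ => f (a + ζ • v)) 0) :
    DifferentiableOn ℂ f U := by
  intro a ha
  obtain ⟨L, hL⟩ := SCV1_hasFDerivAt hU hc hl ha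
  exact hL.differentiableAt.differentiableWithinAt

/-- locally uniform limits of holomorphic functions are holomorphic -/
theorem scv_limit {f : ℕ → E → F} {g : E → F} {U : Set E} (hU : IsOpen U)
    (hf : ∀ n, DifferentiableOn ℂ (f n) U) (h : TendstoLocallyUniformlyOn f g atTop U) :
    DifferentiableOn ℂ g U := by
  refine scv_of_lines hU (h.continuousOn (Frequently.of_forall fun n => (hf n).continuousOn)) ?_
  intro a ha v
  set S : Set ℂ := (fun ζ : ℂ => a + ζ • v) ⁻¹' U with hS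
  have hcl : Continuous (fun ζ : ℂ => a + ζ • v) := by fun_prop
  have hSo : IsOpen S := hU.preimage hcl
  have h1 : TendstoLocallyUniformlyOn (fun n => f n ∘ (fun ζ : ℂ => a + ζ • v))
      (g ∘ (fun ζ : ℂ => a + ζ • v)) atTop S :=
    h.comp (fun ζ : ℂ => a + ζ • v) (fun ζ hζ => hζ) hcl.continuousOn
  have h2 : DifferentiableOn ℂ (g ∘ (fun ζ : ℂ => a + ζ • v)) S := by
    refine h1.differentiableOn (Eventually.of_forall fun n => ?_) hSo
    exact (hf n).comp (by fun_prop) (fun ζ hζ => hζ)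
  have h0 : (0 : ℂ) ∈ S := by simpa [hS] using ha
  exact (h2 0 h0).differentiableAt (hSo.mem_nhds h0)

theorem SCV1_lines_of_diff {f : E → F} {U : Set E} (hU : IsOpen U)
    (hf : DifferentiableOn ℂ f U) :
    ∀ a ∈ U, ∀ v : E, DifferentiableAt ℂ (fun ζ : ℂ => f (a + ζ • v)) 0 := by
  intro a ha v
  have h1 : DifferentiableAt ℂ f (a + (0 : ℂ) • v) := by
    simpa using (hf a ha).differentiableAt (hU.mem_nhds ha)
  exact DifferentiableAt.comp (0 : ℂ) h1 (by fun_prop)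

/-- directional derivatives of holomorphic functions are holomorphic -/
theorem SCV1_dir {f : E → F} {U : Set E} (hU : IsOpen U)
    (hf : DifferentiableOn ℂ f U) (w : E) :
    DifferentiableOn ℂ (fun x => fderiv ℂ f x w) U := by
  intro a ha
  have hl := SCV1_lines_of_diff hU hf
  obtain ⟨r, hr, hsub, t, ht0, hmem, hunif⟩ := SCV1_unif hU hf.continuousOn hl ha w
  have h1 : DifferentiableOn ℂ (fun x => SCV1_D f x w) (ball a r) := by
    refine scv_limit isOpen_ball (fun n => ?_) hunif.tendstoLocallyUniformlyOn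
    refine DifferentiableOn.const_smul (DifferentiableOn.sub ?_ (hf.mono hsub)) _
    exact hf.comp (by fun_prop) (fun x hx => hmem n x hx)
  have h2 : (fun x => SCV1_D f x w) =ᶠ[𝓝 a] (fun x => fderiv ℂ f x w) := by
    filter_upwards [hU.mem_nhds ha] with x hx
    have h3 : HasFDerivAt f (fderiv ℂ f x) (x + (0 : ℂ) • w) := by
      simpa using ((hf x hx).differentiableAt (hU.mem_nhds hx)).hasFDerivAt
    have h4 : HasDerivAt (fun ζ : ℂ => x + ζ • w) w 0 := by
      have := ((hasDerivAt_id (0 : ℂ)).smul_const w).const_add x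
      simpa using this
    exact (h3.comp_hasDerivAt (0 : ℂ) h4).deriv
  exact ((h1.differentiableAt (ball_mem_nhds a hr)).congr_of_eventuallyEq
    h2.symm).differentiableWithinAt

/-- holomorphic functions are smooth -/
theorem scv_contDiffOn [FiniteDimensional ℂ E] {f : E → F} {U : Set E} (hU : IsOpen U)
    (hf : DifferentiableOn ℂ f U) : ContDiffOn ℂ ∞ f U := by
  rw [contDiffOn_infty]
  intro n
  induction n generalizing f with
  | zero =>
    exact contDiffOn_zero.mpr hf.continuousOn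
  | succ n ih =>
    push_cast
    refine contDiffOn_succ_of_fderiv_apply hf (fun h => by simp at h) fun y => ?_
    refine (ih (SCV1_dir hU hf y)).congr fun x hx => ?_
    rw [fderivWithin_of_isOpen hU hx]

/-- identity theorem on convex open sets -/
theorem scv_identity {f g : E → F} {U : Set E} (hU : IsOpen U) (hc : Convex ℝ U)
    (hf : DifferentiableOn ℂ f U) (hg : DifferentiableOn ℂ g U) {a : E} (ha : a ∈ U)
    (h : f =ᶠ[𝓝 a] g) : EqOn f g U := by
  intro y hy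
  set l : ℂ → E := fun ζ : ℂ => a + ζ • (y - a) with hldef
  have hcl : Continuous l := by rw [hldef]; fun_prop
  have hdl : Differentiable ℂ l := by rw [hldef]; fun_prop
  set S : Set ℂ := l ⁻¹' U with hS
  have hSo : IsOpen S := hU.preimage hcl
  have hSc : Convex ℝ S := by
    intro ζ hζ η hη s t hs ht hst
    have e : l (s • ζ + t • η) = s • l ζ + t • l η := by
      have e1 : a = s • a + t • a := by rw [← add_smul, hst, one_smul]
      show a + (s • ζ + t • η) • (y - a) = s • (a + ζ • (y - a)) + t • (a + η • (y - a))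
      rw [add_smul, smul_assoc, smul_assoc, smul_add, smul_add]
      nth_rewrite 1 [e1]
      abel
    show l (s • ζ + t • η) ∈ U
    rw [e]
    exact hc hζ hη hs ht hst
  have h0 : (0 : ℂ) ∈ S := by simpa [hS, hldef] using ha
  have h1 : (1 : ℂ) ∈ S := by simpa [hS, hldef] using hy
  have hfa : AnalyticOnNhd ℂ (f ∘ l) S :=
    (hf.comp hdl.differentiableOn (fun ζ hζ => hζ)).analyticOnNhd hSo
  have hga : AnalyticOnNhd ℂ (g ∘ l) S :=
    (hg.comp hdl.differentiableOn (fun ζ hζ => hζ)).analyticOnNhd hSo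
  have hfg : (f ∘ l) =ᶠ[𝓝 0] (g ∘ l) := by
    have hl0 : l 0 = a := by simp [hldef]
    have ht : Tendsto l (𝓝 0) (𝓝 a) := by
      have := hcl.tendsto 0
      rwa [hl0] at this
    exact ht.eventually h
  have := hfa.eqOn_of_preconnected_of_eventuallyEq hga hSc.isPreconnected h0 hfg h1
  simpa [hldef] using this

end

end Pool.Agent.ParLeaf
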