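import Pool.Agent.H.MP_3a36cd_an.Wirt1
import Pool.Agent.H.MP_3a36cd_an.SCV1

/-! MP_3a36cd_an, module Wirt2: holomorphic functions, restriction to fibres. -/

open Set Metric Filter Topology Complex
open scoped ContDiff

namespace Pool.Agent.ParLeaf

theorem wirt2_plevi_congr {E : Type} [NormedAddCommGroup E] [NormedSpace ℂ E] {F G : E → ℝ}
    {x : E} (h : F =ᶠ[𝓝 x] G) (w : E) : plevi w F x = plevi w G x := by
  have h1 : pwb w (fun x => (F x : ℂ)) =ᶠ[𝓝 x] pwb w (fun x => (G x : ℂ)) := by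
    filter_upwards [h.eventually_nhds] with y hy
    refine RD.wirt1_pwb_congr ?_ w
    filter_upwards [hy] with z hz
    rw [hz]
  rw [plevi, plevi, RD.wirt1_pw_congr h1]

namespace RD

section
variable {E : Type} [NormedAddCommGroup E] [NormedSpace ℂ E] (R : RD E)

theorem wirt2_differentiableAt {f : R.carrier → ℂ} (hf : R.Holo f) (e : R.carrier) :
    DifferentiableAt ℂ (fun v => f (R.tr e v)) 0 :=
  (hf e).differentiableAt (ball_mem_nhds 0 (R.rad_pos e))

theorem wirt2_dw_zero (w : E) (e : R.carrier) : R.dw w (fun _ => (0 : ℂ)) e = 0 := by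
  simp [dw]

end

section
variable {E : Type} [NormedAddCommGroup E] [NormedSpace ℂ E] [FiniteDimensional ℂ E] (R : RD E)

theorem Holo.smooth {f : R.carrier → ℂ} (hf : R.Holo f) : R.Smooth f univ := by
  intro e _
  have h1 : ContDiffOn ℂ ∞ (fun v => f (R.tr e v)) (ball 0 (R.rad e)) :=
    scv_contDiffOn isOpen_ball (hf e)
  exact (h1.contDiffAt (ball_mem_nhds 0 (R.rad_pos e))).restrict_scalars ℝ

theorem Holo.dwb_eq {f : R.carrier → ℂ} (hf : R.Holo f) (w : E) (e : R.carrier) :
    R.dwb w f e = 0 := by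
  have h1 := (R.wirt2_differentiableAt hf e).fderiv_restrictScalars ℝ
  simp only [dwb, h1, ContinuousLinearMap.coe_restrictScalars', map_smul, smul_eq_mul]
  linear_combination (fderiv ℂ (fun v => f (R.tr e v)) 0 w / 2) * I_mul_I

theorem Holo.levi_normSq {f : R.carrier → ℂ} (hf : R.Holo f) (w : E) (e : R.carrier) :
    R.levi w (fun x => ‖f x‖ ^ 2) e = ‖R.dw w f e‖ ^ 2 := by
  have hs : R.Smooth f univ := Holo.smooth R hf
  have hconj : ∀ {g : R.carrier → ℂ}, R.Smooth g univ →
      R.Smooth (fun x => (starRingEnd ℂ) (g x)) univ := by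
    intro g hg x hx
    have h2 : (fun v => (starRingEnd ℂ) (g (R.tr x v))) =
        (conjCLE : ℂ → ℂ) ∘ fun v => g (R.tr x v) := by
      ext v; simp
    rw [h2]
    exact conjCLE.contDiff.contDiffAt.comp 0 (hg x hx)
  have hd : R.Smooth (R.dw w f) univ := Smooth.dw R isOpen_univ hs w
  have h1 : (fun x => ((‖f x‖ ^ 2 : ℝ) : ℂ)) = fun x => f x * (starRingEnd ℂ) (f x) := by
    funext x
    rw [Complex.mul_conj, Complex.normSq_eq_norm_sq]
  have h2 : R.dwb w (fun x => f x * (starRingEnd ℂ) (f x)) =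
      fun x => f x * (starRingEnd ℂ) (R.dw w f x) := by
    funext x
    rw [R.dwb_mul (fun y _ => hs y trivial) (fun y _ => hconj hs y trivial), Holo.dwb_eq R hf,
      R.dwb_conj, zero_mul, zero_add]
  have h3 : R.dwb w (R.dw w f) e = 0 := by
    rw [← R.dw_dwb_comm isOpen_univ hs (mem_univ e)]
    have h4 : R.dwb w f = fun _ => 0 := funext fun x => Holo.dwb_eq R hf w x
    rw [h4, R.wirt2_dw_zero]
  have h5 : R.dw w (fun x => f x * (starRingEnd ℂ) (R.dw w f x)) e =
      ((‖R.dw w f e‖ ^ 2 : ℝ) : ℂ) := by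
    rw [R.dw_mul (fun y _ => hs y trivial) (fun y _ => hconj hd y trivial), R.dw_conj, h3,
      map_zero, mul_zero, add_zero, Complex.mul_conj, Complex.normSq_eq_norm_sq]
  rw [levi, h1, h2, h5, Complex.ofReal_re]

/-- Levi form of the square of a Euclidean-type norm of the position -/
theorem levi_pr_sq (L : E →L[ℂ] ℂ) (w : E) (e : R.carrier) :
    R.levi w (fun x => ‖L (R.pr x)‖ ^ 2) e = ‖L w‖ ^ 2 := by
  have heq : ∀ e : R.carrier, EqOn (fun v => L (R.pr (R.tr e v))) (fun v => L (R.pr e) + L v)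
      (ball 0 (R.rad e)) := by
    intro e v hv
    simp only
    rw [R.pr_tr e v (mem_ball_zero_iff.1 hv), map_add]
  have hH : R.Holo fun x => L (R.pr x) := by
    intro e
    have h1 : DifferentiableOn ℂ (fun v => L (R.pr e) + L v) (ball 0 (R.rad e)) :=
      ((differentiable_const _).add L.differentiable).differentiableOn
    exact h1.congr (heq e)
  have hdw : R.dw w (fun x => L (R.pr x)) e = L w := by
    have h1 : (fun v => L (R.pr (R.tr e v))) =ᶠ[𝓝 0] fun v => L (R.pr e) + L v :=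
      (heq e).eventuallyEq_of_mem (ball_mem_nhds 0 (R.rad_pos e))
    have h2 : HasFDerivAt (fun v => L (R.pr e) + L v) (L.restrictScalars ℝ) (0 : E) :=
      ((L.restrictScalars ℝ).hasFDerivAt).const_add _
    simp only [dw, h1.fderiv_eq, h2.fderiv, ContinuousLinearMap.coe_restrictScalars', map_smul,
      smul_eq_mul]
    linear_combination (-(L w) / 2) * I_mul_I
  rw [Holo.levi_normSq R hH, hdw]

end

section Fib
variable {V : Type} [NormedAddCommGroup V] [NormedSpace ℂ V] (M : RD (ℂ × V)) (p : V)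

theorem wirt2_fib_eventually {F : Type} (g : M.carrier → F) (y : (M.Fib p).carrier) :
    (fun ζ => g ((M.Fib p).tr y ζ).1) =ᶠ[𝓝 0]
      fun ζ => g (M.tr y.1 (ContinuousLinearMap.inl ℂ ℂ V ζ)) := by
  filter_upwards [ball_mem_nhds (0 : ℂ) (M.rad_pos y.1)] with ζ hζ
  rw [M.fib_tr_val p y (mem_ball_zero_iff.1 hζ), ContinuousLinearMap.inl_apply]

/-- restriction of smooth functions to a fibre -/
theorem Smooth.fib {F : Type} [NormedAddCommGroup F] [NormedSpace ℝ F] {g : M.carrier → F}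
    {U : Set M.carrier} (hg : M.Smooth g U) :
    (M.Fib p).Smooth (fun y => g y.1) (Subtype.val ⁻¹' U) := by
  intro y hy
  have h1 := M.wirt2_fib_eventually p g y
  refine ContDiffAt.congr_of_eventuallyEq ?_ h1
  have h2 : ContDiffAt ℝ ∞ (fun v => g (M.tr y.1 v))
      ((ContinuousLinearMap.inl ℂ ℂ V).restrictScalars ℝ 0) := by
    rw [map_zero]
    exact hg y.1 hy
  exact h2.comp (0 : ℂ) ((ContinuousLinearMap.inl ℂ ℂ V).restrictScalars ℝ).contDiff.contDiffAt

theorem levi_fib {ρ : M.carrier → ℝ} {U : Set M.carrier} (hU : IsOpen U) (hρ : M.Smooth ρ U)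
    (y : (M.Fib p).carrier) (hy : y.1 ∈ U) (a : ℂ) :
    (M.Fib p).levi a (fun y => ρ y.1) y = M.levi (a, 0) ρ y.1 := by
  rw [levi_eq, levi_eq, wirt2_plevi_congr (M.wirt2_fib_eventually p ρ y)]
  have h2 : ContDiffAt ℝ 2 (fun v => ρ (M.tr y.1 v)) (ContinuousLinearMap.inl ℂ ℂ V 0) := by
    rw [map_zero]
    exact (hρ y.1 hy).of_le wirt1_two_le
  rw [plevi_comp_linear (ContinuousLinearMap.inl ℂ ℂ V) h2 a, map_zero,
    ContinuousLinearMap.inl_apply]

end Fib

end RD

end Pool.Agent.ParLeaf
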