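import Pool.Agent.H.MP_3a36cd_an.Weight1
import Pool.Agent.H.MP_3a36cd_an.Wirt2
import Pool.Agent.H.MP_3a36cd_an.Germ2

/-! MP_3a36cd_an, module Weight2: existence of weights. -/

set_option linter.unusedSectionVars false

open Set Metric Filter Topology Complex MeasureTheory
open scoped ContDiff

namespace Pool.Agent.ParLeaf


/-! ### the convex cut-off function -/

theorem weight2_prim {g : ℝ → ℝ} (hg : ContDiff ℝ ∞ g) :
    ContDiff ℝ ∞ (fun t => ∫ s in (0:ℝ)..t, g s) ∧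
      deriv (fun t => ∫ s in (0:ℝ)..t, g s) = g := by
  have hc : Continuous g := hg.continuous
  have hd : ∀ t, HasDerivAt (fun t => ∫ s in (0:ℝ)..t, g s) (g t) t := fun t =>
    intervalIntegral.integral_hasDerivAt_right (hc.intervalIntegrable _ _)
      (hc.stronglyMeasurableAtFilter _ _) hc.continuousAt
  have hder : deriv (fun t => ∫ s in (0:ℝ)..t, g s) = g := funext fun t => (hd t).deriv
  refine ⟨?_, hder⟩
  rw [contDiff_infty_iff_deriv]
  exact ⟨fun t => (hd t).differentiableAt, by rw [hder]; exact hg⟩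

theorem weight2_prim_pos {g : ℝ → ℝ} (hc : Continuous g) (h0 : ∀ t ≤ 0, g t = 0)
    (hp : ∀ t, 0 < t → 0 < g t) :
    (∀ t ≤ 0, ∫ s in (0:ℝ)..t, g s = 0) ∧ (∀ t, 0 < t → 0 < ∫ s in (0:ℝ)..t, g s) := by
  constructor
  · intro t ht
    rw [intervalIntegral.integral_symm, neg_eq_zero]
    apply intervalIntegral.integral_zero_ae
    refine Filter.Eventually.of_forall fun x hx => ?_
    rw [uIoc_of_le ht] at hx
    exact h0 x hx.2
  · intro t ht
    exact intervalIntegral.intervalIntegral_pos_of_pos_on (hc.intervalIntegrable _ _)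
      (fun x hx => hp x hx.1) ht

theorem weight2_G (a : ℝ) : ∃ G : ℝ → ℝ, ContDiff ℝ ∞ G ∧ (∀ t ≤ a, G t = 0) ∧ (∀ t, 0 ≤ G t) ∧
    (∀ t, 0 ≤ deriv G t) ∧ (∀ t, a < t → 0 < deriv G t) ∧ (∀ t, 0 ≤ deriv (deriv G) t) ∧
    (∀ t, G t ≤ 1 → t < a + 1) := by
  set g := expNegInvGlue with hgdef
  have hg : ContDiff ℝ ∞ g := expNegInvGlue.contDiff
  set F1 : ℝ → ℝ := fun t => ∫ s in (0:ℝ)..t, g s with hF1
  obtain ⟨h1, h1'⟩ := weight2_prim hg
  have h1p := weight2_prim_pos hg.continuous (fun t ht => expNegInvGlue.zero_of_nonpos ht)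
    (fun t ht => expNegInvGlue.pos_of_pos ht)
  set F2 : ℝ → ℝ := fun t => ∫ s in (0:ℝ)..t, F1 s with hF2
  obtain ⟨h2, h2'⟩ := weight2_prim h1
  have h2p := weight2_prim_pos h1.continuous h1p.1 h1p.2
  have F1n : ∀ t, 0 ≤ F1 t := fun t => by
    rcases le_or_gt t 0 with h | h
    · exact (h1p.1 t h).ge
    · exact (h1p.2 t h).le
  have F2n : ∀ t, 0 ≤ F2 t := fun t => by
    rcases le_or_gt t 0 with h | h
    · exact (h2p.1 t h).ge
    · exact (h2p.2 t h).le
  have F21 : 0 < F2 1 := h2p.2 1 one_pos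
  set K := 2 / F2 1 with hK
  have hKp : 0 < K := by positivity
  have hG' : deriv (fun t => K * F2 (t - a)) = fun t => K * F1 (t - a) := by
    funext t
    rw [deriv_const_mul_field, deriv_comp_sub_const, h2']
  have hG'' : deriv (fun t => K * F1 (t - a)) = fun t => K * g (t - a) := by
    funext t
    rw [deriv_const_mul_field, deriv_comp_sub_const, h1']
  have hmono : Monotone F2 := by
    apply monotone_of_deriv_nonneg
    · exact h2.differentiable (by simp)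
    · intro t
      rw [h2']
      exact F1n t
  refine ⟨fun t => K * F2 (t - a), ?_, ?_, ?_, ?_, ?_, ?_, ?_⟩
  · exact contDiff_const.mul (h2.comp (contDiff_id.sub contDiff_const))
  · intro t ht
    have : F2 (t - a) = 0 := h2p.1 _ (by linarith)
    simp [this]
  · intro t
    exact mul_nonneg hKp.le (F2n _)
  · intro t
    rw [hG']
    exact mul_nonneg hKp.le (F1n _)
  · intro t ht
    rw [hG']
    exact mul_pos hKp (h1p.2 _ (by linarith))
  · intro t
    rw [hG', hG'']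
    exact mul_nonneg hKp.le (expNegInvGlue.nonneg _)
  · intro t ht
    by_contra hcon
    have h3 : F2 1 ≤ F2 (t - a) := hmono (by linarith)
    have h4 : K * F2 1 = 2 := by rw [hK]; field_simp
    have h5 : K * F2 1 ≤ K * F2 (t - a) := mul_le_mul_of_nonneg_left h3 hKp.le
    simp only at ht
    linarith



/-! ### linear functionals which control the norm -/

theorem weight2_functionals (E : Type) [NormedAddCommGroup E] [NormedSpace ℂ E]
    [FiniteDimensional ℂ E] :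
    ∃ (n : ℕ) (L : Fin n → E →L[ℂ] ℂ), ∀ w, ‖w‖ ^ 2 ≤ ∑ i, ‖L i w‖ ^ 2 := by
  classical
  let b := Module.finBasis ℂ E
  set A : ℝ := Real.sqrt (∑ i, ‖b i‖ ^ 2) with hA
  have hA0 : 0 ≤ A := Real.sqrt_nonneg _
  have hA2 : A ^ 2 = ∑ i, ‖b i‖ ^ 2 := Real.sq_sqrt (Finset.sum_nonneg fun i _ => by positivity)
  refine ⟨_, fun i => (A : ℂ) • (LinearMap.toContinuousLinearMap (b.coord i)), fun w => ?_⟩
  have h1 : ‖w‖ ≤ ∑ i, ‖b.coord i w‖ * ‖b i‖ := by
    calc ‖w‖ = ‖∑ i, b.repr w i • b i‖ := by rw [b.sum_repr w]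
      _ ≤ ∑ i, ‖b.repr w i • b i‖ := norm_sum_le _ _
      _ = ∑ i, ‖b.coord i w‖ * ‖b i‖ := by
        refine Finset.sum_congr rfl fun i _ => ?_
        rw [norm_smul]; rfl
  have h2 : (∑ i, ‖b.coord i w‖ * ‖b i‖) ^ 2 ≤
      (∑ i, ‖b.coord i w‖ ^ 2) * ∑ i, ‖b i‖ ^ 2 := Finset.sum_mul_sq_le_sq_mul_sq _ _ _
  calc ‖w‖ ^ 2 ≤ (∑ i, ‖b.coord i w‖ * ‖b i‖) ^ 2 := by gcongr
    _ ≤ (∑ i, ‖b.coord i w‖ ^ 2) * ∑ i, ‖b i‖ ^ 2 := h2
    _ = ∑ i, ‖((A : ℂ) • (LinearMap.toContinuousLinearMap (b.coord i))) w‖ ^ 2 := by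
      rw [← hA2, Finset.sum_mul]
      refine Finset.sum_congr rfl fun i _ => ?_
      simp only [_root_.smul_apply, LinearMap.coe_toContinuousLinearMap', norm_smul,
        mul_pow, Complex.norm_real, Real.norm_eq_abs, sq_abs]
      ring

namespace RD

variable {E : Type} [NormedAddCommGroup E] [NormedSpace ℂ E] [FiniteDimensional ℂ E]

/-! ### sums of squares of holomorphic functions -/

theorem weight2_smooth_const_mul (M : RD E) {U : Set M.carrier} {f : M.carrier → ℝ}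
    (hf : M.Smooth f U) (c : ℝ) : M.Smooth (fun e => c * f e) U := fun e he =>
  contDiffAt_const.mul (hf e he)

theorem weight2_smooth_add (M : RD E) {U : Set M.carrier} {f g : M.carrier → ℝ}
    (hf : M.Smooth f U) (hg : M.Smooth g U) : M.Smooth (fun e => f e + g e) U := fun e he =>
  (hf e he).add (hg e he)

theorem weight2_smooth_sum (M : RD E) {U : Set M.carrier} {ι : Type} (s : Finset ι)
    {f : ι → M.carrier → ℝ} (hf : ∀ i ∈ s, M.Smooth (f i) U) :
    M.Smooth (fun e => ∑ i ∈ s, f i e) U := fun e he =>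
  ContDiffAt.sum fun i hi => hf i hi e he

theorem weight2_smooth_comp (M : RD E) {U : Set M.carrier} {f : M.carrier → ℝ}
    (hf : M.Smooth f U) {G : ℝ → ℝ} (hG : ContDiff ℝ ∞ G) : M.Smooth (fun e => G (f e)) U :=
  fun e he => ContDiffAt.comp (g := G) (f := fun v => f (M.tr e v)) 0 hG.contDiffAt (hf e he)

theorem weight2_levi_zero (M : RD E) (w : E) (e : M.carrier) :
    M.levi w (fun _ => (0 : ℝ)) e = 0 := by
  have h : M.Smooth (fun _ : M.carrier => (0 : ℝ)) univ := fun e _ => contDiffAt_const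
  have := M.levi_const_mul isOpen_univ h (mem_univ e) w 0
  simpa using this

theorem weight2_levi_sum (M : RD E) {U : Set M.carrier} (hU : IsOpen U) {ι : Type} (s : Finset ι)
    {f : ι → M.carrier → ℝ} (hf : ∀ i ∈ s, M.Smooth (f i) U) {e : M.carrier} (he : e ∈ U) (w : E) :
    M.levi w (fun e => ∑ i ∈ s, f i e) e = ∑ i ∈ s, M.levi w (f i) e := by
  classical
  induction s using Finset.induction_on with
  | empty => simpa using weight2_levi_zero M w e
  | insert a s ha ih =>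
    simp only [Finset.sum_insert ha]
    have h1 : M.Smooth (f a) U := hf a (Finset.mem_insert_self _ _)
    have h2 : ∀ i ∈ s, M.Smooth (f i) U := fun i hi => hf i (Finset.mem_insert_of_mem hi)
    rw [M.levi_add hU h1 (weight2_smooth_sum M s h2) he w, ih h2]

theorem weight2_smooth_normSq (M : RD E) {f : M.carrier → ℂ} (hf : M.Holo f) :
    M.Smooth (fun e => ‖f e‖ ^ 2) univ := fun e he =>
  (Holo.smooth M hf e he).norm_sq ℝ

theorem weight2_holo_lin (M : RD E) (L : E →L[ℂ] ℂ) : M.Holo (fun e => L (M.pr e)) := by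
  intro e
  have h : DifferentiableOn ℂ (fun v => L (M.pr e + v)) (ball 0 (M.rad e)) := by
    fun_prop
  refine h.congr fun v hv => ?_
  change L (M.pr (M.tr e v)) = L (M.pr e + v)
  rw [M.pr_tr e v (by simpa using hv)]

theorem weight2_holo_continuous (M : RD E) {f : M.carrier → ℂ} (hf : M.Holo f) : Continuous f := by
  rw [← continuousOn_univ]
  exact Smooth.continuousOn M isOpen_univ (Holo.smooth M hf)

/-! ### Taylor coefficients -/

theorem weight2_tcM_tr (M : RD E) (f : M.carrier → ℂ) (n : ℕ) (v : E) (e : M.carrier) {x : E}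
    (hx : ‖x‖ < M.rad e) :
    M.tcM f n v (M.tr e x) = tc (fun y => f (M.tr e y)) n x v := by
  unfold tcM tc
  congr 1
  apply Filter.EventuallyEq.iteratedDeriv_eq
  have h1 : ∀ᶠ ζ : ℂ in 𝓝 0, ‖ζ • v‖ < M.rad (M.tr e x) := by
    have : Continuous fun ζ : ℂ => ‖ζ • v‖ := by fun_prop
    refine this.continuousAt.eventually_lt_const ?_
    simpa using M.rad_pos _
  have h2 : ∀ᶠ ζ : ℂ in 𝓝 0, ‖x + ζ • v‖ < M.rad e := by
    have : Continuous fun ζ : ℂ => ‖x + ζ • v‖ := by fun_prop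
    refine this.continuousAt.eventually_lt_const ?_
    simpa using hx
  filter_upwards [h1, h2] with ζ h1 h2
  rw [M.tr_tr e x (ζ • v) hx h1 h2]

theorem weight2_tcM_holo (M : RD E) {f : M.carrier → ℂ} (hf : M.Holo f) (n : ℕ) (v : E) :
    M.Holo (M.tcM f n v) := by
  intro e
  refine (tc_differentiableOn isOpen_ball (hf e) n v).congr fun x hx => ?_
  exact weight2_tcM_tr M f n v e (by simpa using hx)

theorem weight2_tcM_le (M : RD E) {f : M.carrier → ℂ} (hf : M.Holo f) (n : ℕ) {v : E}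
    {e : M.carrier} {r B : ℝ} (hr : r ≤ M.rad e) (hB : ∀ y, ‖y‖ < r → ‖f (M.tr e y)‖ ≤ B)
    (hv : ‖v‖ < r) : ‖M.tcM f n v e‖ ≤ B := by
  have h0 := weight2_tcM_tr M f n v e (x := 0) (by simpa using M.rad_pos e)
  rw [M.tr_zero] at h0
  rw [h0]
  refine tc_le ((hf e).mono (ball_subset_ball hr)) (fun y hy => hB y (by simpa using hy)) n hv


/-! ### the two parts of the weight -/

/-- the sum of the squares of the coordinates -/
noncomputable def weight2_sq (M : RD E) {n : ℕ} (L : Fin n → E →L[ℂ] ℂ) (e : M.carrier) : ℝ :=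
  ∑ i, ‖L i (M.pr e)‖ ^ 2

theorem weight2_sq_smooth (M : RD E) {n : ℕ} (L : Fin n → E →L[ℂ] ℂ) :
    M.Smooth (weight2_sq M L) univ :=
  weight2_smooth_sum M _ fun i _ => weight2_smooth_normSq M (weight2_holo_lin M (L i))

theorem weight2_sq_levi (M : RD E) {n : ℕ} (L : Fin n → E →L[ℂ] ℂ) (w : E) (e : M.carrier) :
    M.levi w (weight2_sq M L) e = ∑ i, ‖L i w‖ ^ 2 := by
  have h := weight2_levi_sum M isOpen_univ (Finset.univ : Finset (Fin n))
    (f := fun i e => ‖L i (M.pr e)‖ ^ 2)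
    (fun i _ => weight2_smooth_normSq M (weight2_holo_lin M (L i))) (mem_univ e) w
  refine Eq.trans h (Finset.sum_congr rfl fun i _ => ?_)
  exact levi_pr_sq M (L i) w e

theorem weight2_sq_nonneg (M : RD E) {n : ℕ} (L : Fin n → E →L[ℂ] ℂ) (e : M.carrier) :
    0 ≤ weight2_sq M L e := Finset.sum_nonneg fun i _ => by positivity

theorem weight2_rho1 {ι : Type} (M : RD E) {f : ι → M.carrier → ℂ} (hf : M.Det f)
    {T : Set M.carrier} (hT : IsCompact T) {c : ℝ} (hc : 0 < c) (hc8 : c ≤ 1 / 8)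
    (hTr : ∀ e ∈ T, 8 * c < M.rad e) {A : Set M.carrier} (hA : IsCompact A)
    (hAr : ∀ e ∈ A, M.rad e ≤ 6 * c) {n : ℕ} (L : Fin n → E →L[ℂ] ℂ)
    (hL : ∀ w, ‖w‖ ^ 2 ≤ ∑ i, ‖L i w‖ ^ 2) :
    ∃ (ρ1 : M.carrier → ℝ) (δ : ℝ), 0 < δ ∧ M.Smooth ρ1 univ ∧
      (∀ e w, δ * ‖w‖ ^ 2 ≤ M.levi w ρ1 e) ∧ (∀ e ∈ T, ρ1 e ≤ 1 / 2) ∧ (∀ e ∈ A, 4 ≤ ρ1 e) := by
  classical
  have : ProperSpace E := FiniteDimensional.proper ℂ E
  have hB : ∀ i, ∃ B : ℝ, 1 ≤ B ∧ ∀ e ∈ T, ∀ v : E, ‖v‖ < 15 / 2 * c → ‖f i (M.tr e v)‖ ≤ B := by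
    intro i
    have hK : IsCompact (T ×ˢ closedBall (0 : E) (15 / 2 * c)) :=
      hT.prod (isCompact_closedBall _ _)
    have hcont : ContinuousOn (fun q : M.carrier × E => f i (M.tr q.1 q.2))
        (T ×ˢ closedBall (0 : E) (15 / 2 * c)) := by
      intro q hq
      have h3 : ‖q.2‖ < M.rad q.1 := by
        have h4 := hTr q.1 hq.1
        have h5 : ‖q.2‖ ≤ 15 / 2 * c := by simpa using hq.2
        linarith
      have h1 : ContinuousAt (fun q : M.carrier × E => M.tr q.1 q.2) q :=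
        M.continuousAt_tr (e := q.1) (v := q.2) h3
      have h2 : ContinuousAt (f i) (M.tr q.1 q.2) :=
        (weight2_holo_continuous M (hf.1 i)).continuousAt
      exact (ContinuousAt.comp (f := fun q : M.carrier × E => M.tr q.1 q.2) h2
        h1).continuousWithinAt
    obtain ⟨C, hC⟩ := hK.exists_bound_of_continuousOn hcont
    exact ⟨max 1 C, le_max_left _ _, fun e he v hv =>
      (hC (e, v) ⟨he, by simpa using hv.le⟩).trans (le_max_right _ _)⟩
  choose B hB1 hB using hB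
  have hex : ∀ e : A, ∃ p : ι × ℕ × E, ‖p.2.2‖ < 7 * c ∧
      4 * B p.1 < ‖M.tcM (f p.1) p.2.1 p.2.2 e.1‖ := by
    intro e
    by_contra hcon
    push Not at hcon
    have h1 := hf.2 e.1 (7 * c) (by linarith) fun i => ⟨4 * B i, fun n v hv => hcon (i, n, v) hv⟩
    have h2 := hAr e.1 e.2
    linarith
  choose p hp1 hp2 using hex
  obtain ⟨t, ht⟩ := hA.elim_nhds_subcover'
    (fun e he => {e' | 4 * B (p ⟨e, he⟩).1 <
      ‖M.tcM (f (p ⟨e, he⟩).1) (p ⟨e, he⟩).2.1 (p ⟨e, he⟩).2.2 e'‖})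
    (fun e he => by
      have h1 : Continuous (M.tcM (f (p ⟨e, he⟩).1) (p ⟨e, he⟩).2.1 (p ⟨e, he⟩).2.2) :=
        weight2_holo_continuous M (weight2_tcM_holo M (hf.1 _) _ _)
      exact (isOpen_lt continuous_const h1.norm).mem_nhds (hp2 ⟨e, he⟩))
  set N := t.card with hN
  set b : A → M.carrier → ℂ := fun j e =>
    (M.tcM (f (p j).1) (p j).2.1 (p j).2.2 e / ((2 * B (p j).1 : ℝ) : ℂ)) ^ (N + 1) with hb
  have hbH : ∀ j, M.Holo (b j) := by
    intro j e
    have h1 := weight2_tcM_holo M (hf.1 (p j).1) (p j).2.1 (p j).2.2 e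
    have h2 : DifferentiableOn ℂ (fun v : E => M.tcM (f (p j).1) (p j).2.1 (p j).2.2 (M.tr e v) /
        ((2 * B (p j).1 : ℝ) : ℂ)) (ball 0 (M.rad e)) := by
      simp only [div_eq_mul_inv]
      exact h1.mul_const _
    exact h2.pow _
  have hBp : ∀ i, 0 < B i := fun i => lt_of_lt_of_le one_pos (hB1 i)
  have hbn : ∀ j e, ‖b j e‖ =
      (‖M.tcM (f (p j).1) (p j).2.1 (p j).2.2 e‖ / (2 * B (p j).1)) ^ (N + 1) := by
    intro j e
    simp only [hb, norm_pow, norm_div, Complex.norm_real, Real.norm_eq_abs]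
    rw [abs_of_pos (by have := hBp (p j).1; positivity)]
  -- bounds on `T`
  have hbT : ∀ j, ∀ e ∈ T, ‖b j e‖ ^ 2 ≤ (1 / 4 : ℝ) ^ (N + 1) := by
    intro j e he
    have h1 : ‖M.tcM (f (p j).1) (p j).2.1 (p j).2.2 e‖ ≤ B (p j).1 := by
      refine weight2_tcM_le M (hf.1 _) _ (r := 15 / 2 * c) ?_ (fun y hy => hB _ e he y hy) ?_
      · have := hTr e he
        linarith
      · have := hp1 j
        linarith
    have h2 : ‖M.tcM (f (p j).1) (p j).2.1 (p j).2.2 e‖ / (2 * B (p j).1) ≤ 1 / 2 := by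
      rw [div_le_div_iff₀ (by have := hBp (p j).1; positivity) (by norm_num)]
      linarith
    rw [hbn, ← pow_mul, mul_comm (N + 1) 2, pow_mul]
    have h3 : (‖M.tcM (f (p j).1) (p j).2.1 (p j).2.2 e‖ / (2 * B (p j).1)) ^ 2 ≤ 1 / 4 := by
      have h4 : 0 ≤ ‖M.tcM (f (p j).1) (p j).2.1 (p j).2.2 e‖ / (2 * B (p j).1) := by
        have := hBp (p j).1; positivity
      calc _ ≤ (1 / 2 : ℝ) ^ 2 := by gcongr
        _ = 1 / 4 := by norm_num
    gcongr
  -- bounds on `A`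
  have hbA : ∀ e ∈ A, ∃ j ∈ t, 4 ≤ ‖b j e‖ ^ 2 := by
    intro e he
    obtain ⟨j, hj, hje⟩ := mem_iUnion₂.1 (ht he)
    refine ⟨j, hj, ?_⟩
    have h1 : 4 * B (p j).1 < ‖M.tcM (f (p j).1) (p j).2.1 (p j).2.2 e‖ := hje
    have h2 : 2 ≤ ‖M.tcM (f (p j).1) (p j).2.1 (p j).2.2 e‖ / (2 * B (p j).1) := by
      rw [le_div_iff₀ (by have := hBp (p j).1; positivity)]
      linarith
    have h3 : 2 ≤ ‖b j e‖ := by
      rw [hbn]
      calc (2 : ℝ) ≤ 2 ^ (N + 1) := by
            rw [pow_succ]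
            have : (1 : ℝ) ≤ 2 ^ N := one_le_pow₀ (by norm_num)
            linarith
        _ ≤ _ := by gcongr
    nlinarith
  -- the constant δ
  obtain ⟨D, hD⟩ := hT.exists_bound_of_continuousOn
    ((Smooth.continuousOn M isOpen_univ (weight2_sq_smooth M L)).mono (subset_univ T))
  set D' := max D 1 with hD'
  have hD'p : 0 < D' := lt_of_lt_of_le one_pos (le_max_right _ _)
  have hδ : 0 < 1 / (4 * D') := by positivity
  have hs1 : M.Smooth (fun e => ∑ j ∈ t, ‖b j e‖ ^ 2) univ :=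
    weight2_smooth_sum M _ fun j _ => weight2_smooth_normSq M (hbH j)
  have hs2 := weight2_smooth_const_mul M (weight2_sq_smooth M L) (1 / (4 * D'))
  refine ⟨fun e => (∑ j ∈ t, ‖b j e‖ ^ 2) + 1 / (4 * D') * weight2_sq M L e, 1 / (4 * D'), hδ,
    weight2_smooth_add M hs1 hs2, ?_, ?_, ?_⟩
  · intro e w
    rw [M.levi_add isOpen_univ hs1 hs2 (mem_univ e) w,
      M.levi_const_mul isOpen_univ (weight2_sq_smooth M L) (mem_univ e) w, weight2_sq_levi,
      weight2_levi_sum M isOpen_univ t (f := fun j e => ‖b j e‖ ^ 2)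
        (fun j _ => weight2_smooth_normSq M (hbH j)) (mem_univ e) w]
    have h1 : 0 ≤ ∑ j ∈ t, M.levi w (fun e => ‖b j e‖ ^ 2) e := by
      refine Finset.sum_nonneg fun j _ => ?_
      rw [Holo.levi_normSq M (hbH j)]
      positivity
    have h2 := mul_le_mul_of_nonneg_left (hL w) hδ.le
    linarith
  · intro e he
    have h1 : ∑ j ∈ t, ‖b j e‖ ^ 2 ≤ 1 / 4 := by
      calc ∑ j ∈ t, ‖b j e‖ ^ 2 ≤ ∑ j ∈ t, (1 / 4 : ℝ) ^ (N + 1) :=
            Finset.sum_le_sum fun j _ => hbT j e he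
        _ = N * (1 / 4 : ℝ) ^ (N + 1) := by rw [Finset.sum_const, nsmul_eq_mul]
        _ ≤ 1 / 4 := by
          have h3 : (N : ℝ) ≤ 4 ^ N := by
            exact_mod_cast (Nat.lt_pow_self (by norm_num : 1 < 4)).le
          have h4 : (1 / 4 : ℝ) ^ (N + 1) = 1 / 4 * (1 / 4 ^ N) := by
            rw [pow_succ, one_div_pow]; ring
          rw [h4]
          have h5 : (N : ℝ) * (1 / 4 ^ N) ≤ 1 := by
            rw [mul_one_div, div_le_one (by positivity)]
            exact h3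
          linarith
    have h2 : 1 / (4 * D') * weight2_sq M L e ≤ 1 / 4 := by
      have h3 : weight2_sq M L e ≤ D' :=
        (le_abs_self _).trans ((hD e he).trans (le_max_left _ _))
      calc 1 / (4 * D') * weight2_sq M L e ≤ 1 / (4 * D') * D' := by gcongr
        _ = 1 / 4 := by field_simp
    simp only
    linarith
  · intro e he
    obtain ⟨j, hj, hje⟩ := hbA e he
    have h1 : ‖b j e‖ ^ 2 ≤ ∑ j ∈ t, ‖b j e‖ ^ 2 :=
      Finset.single_le_sum (f := fun j => ‖b j e‖ ^ 2) (fun j _ => by positivity) hj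
    have h2 : 0 ≤ 1 / (4 * D') * weight2_sq M L e := mul_nonneg hδ.le (weight2_sq_nonneg M L e)
    simp only
    linarith

/-- existence of weights around any compact set in the component of `e₀` -/
theorem exists_weight {ι : Type} (M : RD E) {f : ι → M.carrier → ℂ} (hf : M.Det f)
    (e₀ : M.carrier) {T : Set M.carrier} (hT : IsCompact T)
    (hreach : ∀ e ∈ T, M.Reach e₀ e) :
    ∃ (Ω : Set M.carrier) (ρ : M.carrier → ℝ), M.IsWeight Ω ρ ∧ T ⊆ Ω ∧ ∀ e ∈ T, ρ e = 0 := by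
  obtain ⟨c, hc, hc8, Ω, ψ, S, C, hΩ, hTΩ, hT8, hΩ5, hψ, hlev, hS, hψS, hSΩ⟩ :=
    exists_stepcount M e₀ hT hreach
  obtain ⟨n, L, hL⟩ := weight2_functionals E
  have hsq : M.Smooth (weight2_sq M L) Ω := fun e _ => weight2_sq_smooth M L e (mem_univ e)
  set ρ2 : M.carrier → ℝ := fun e => ψ e + (|C| + 1) * weight2_sq M L e with hρ2
  have hsq' := weight2_smooth_const_mul M hsq (|C| + 1)
  have hρ2s : M.Smooth ρ2 Ω := weight2_smooth_add M hψ hsq'
  have hρ2l : ∀ e ∈ Ω, ∀ w, ‖w‖ ^ 2 ≤ M.levi w ρ2 e := by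
    intro e he w
    rw [hρ2, M.levi_add hΩ hψ hsq' he w, M.levi_const_mul hΩ hsq he w, weight2_sq_levi]
    have h1 := hlev e he w
    have h2 : -(|C| * ‖w‖ ^ 2) ≤ M.levi w ψ e := by
      have h3 : C * ‖w‖ ^ 2 ≤ |C| * ‖w‖ ^ 2 := by
        have := le_abs_self C
        gcongr
      have h4 := neg_abs_le (M.levi w ψ e)
      linarith
    have h5 : (|C| + 1) * ‖w‖ ^ 2 ≤ (|C| + 1) * ∑ i, ‖L i w‖ ^ 2 := by
      have := hL w
      gcongr
    linarith
  obtain ⟨K2, hK2⟩ := hT.exists_bound_of_continuousOn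
    ((Smooth.continuousOn M hΩ hρ2s).mono hTΩ)
  obtain ⟨m, hm⟩ := exists_nat_ge (K2 + 1)
  have hψρ : ∀ e, ψ e ≤ ρ2 e := by
    intro e
    have h1 : 0 ≤ (|C| + 1) * weight2_sq M L e :=
      mul_nonneg (by positivity) (weight2_sq_nonneg M L e)
    simp only [hρ2]
    linarith
  have hSm : ∀ e ∈ Ω, ρ2 e < K2 + 1 → e ∈ S (m + 1) := fun e he h =>
    hψS m e he (by have := hψρ e; linarith)
  set A : Set M.carrier := S (m + 1) ∩ {e | M.rad e ≤ 6 * c} with hAdef
  have hA : IsCompact A :=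
    (hS (m + 1)).inter_right (isClosed_le M.continuous_rad continuous_const)
  obtain ⟨ρ1, δ, hδ, hρ1s, hρ1l, hρ1T, hρ1A⟩ :=
    weight2_rho1 M hf hT hc hc8 hT8 hA (fun e he => he.2) L hL
  have hρ1s' : M.Smooth ρ1 Ω := fun e _ => hρ1s e (mem_univ e)
  obtain ⟨G1, hG1, hG1z, hG1n, hG1d, hG1p, hG1dd, hG1b⟩ := weight2_G (1 / 2)
  obtain ⟨G2, hG2, hG2z, hG2n, hG2d, hG2p, hG2dd, hG2b⟩ := weight2_G K2
  have hs1 := weight2_smooth_comp M hρ1s' hG1
  have hs2 := weight2_smooth_comp M hρ2s hG2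
  have hs := weight2_smooth_add M hs1 hs2
  have hlevi : ∀ e ∈ Ω, ∀ w, M.levi w (fun e => G1 (ρ1 e) + G2 (ρ2 e)) e =
      (deriv G1 (ρ1 e) * M.levi w ρ1 e +
        deriv (deriv G1) (ρ1 e) * ‖M.dw w (fun x => (ρ1 x : ℂ)) e‖ ^ 2) +
      (deriv G2 (ρ2 e) * M.levi w ρ2 e +
        deriv (deriv G2) (ρ2 e) * ‖M.dw w (fun x => (ρ2 x : ℂ)) e‖ ^ 2) := by
    intro e he w
    rw [M.levi_add hΩ hs1 hs2 he w, M.levi_comp hΩ hρ1s' hG1 he w, M.levi_comp hΩ hρ2s hG2 he w]
  refine ⟨Ω, fun e => G1 (ρ1 e) + G2 (ρ2 e), ⟨hΩ, hs, ?_, ?_, ?_, ?_⟩, hTΩ, ?_⟩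
  · intro e _
    exact add_nonneg (hG1n _) (hG2n _)
  · -- compactness
    set K : Set M.carrier := S (m + 1) ∩ {e | 6 * c ≤ M.rad e} with hK
    have hKc : IsCompact K :=
      (hS (m + 1)).inter_right (isClosed_le continuous_const M.continuous_rad)
    have hKΩ : K ⊆ Ω := fun e he => hSΩ (m + 1) e he.1 (by
      have : 6 * c ≤ M.rad e := he.2
      linarith)
    have hcont : ContinuousOn (fun e => G1 (ρ1 e) + G2 (ρ2 e)) K :=
      (Smooth.continuousOn M hΩ hs).mono hKΩ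
    have heq : {e | e ∈ Ω ∧ G1 (ρ1 e) + G2 (ρ2 e) ≤ 1} =
        K ∩ (fun e => G1 (ρ1 e) + G2 (ρ2 e)) ⁻¹' Iic 1 := by
      ext e
      constructor
      · rintro ⟨he, h1⟩
        have h2 : G1 (ρ1 e) ≤ 1 := by
          have := hG2n (ρ2 e)
          linarith
        have h3 : G2 (ρ2 e) ≤ 1 := by
          have := hG1n (ρ1 e)
          linarith
        have h4 := hG1b _ h2
        have h5 := hG2b _ h3
        have h6 := hSm e he h5
        refine ⟨⟨h6, ?_⟩, h1⟩
        by_contra h7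
        have h8 : M.rad e ≤ 6 * c := le_of_lt (not_le.1 h7)
        have h9 := hρ1A e ⟨h6, h8⟩
        linarith
      · rintro ⟨he, h1⟩
        exact ⟨hKΩ he, h1⟩
    rw [heq]
    exact hKc.of_isClosed_subset
      (hcont.preimage_isClosed_of_isClosed hKc.isClosed isClosed_Iic) inter_subset_left
  · intro e he w
    rw [hlevi e he w]
    have h1 : 0 ≤ M.levi w ρ1 e := le_trans (by positivity) (hρ1l e w)
    have h2 : 0 ≤ M.levi w ρ2 e := le_trans (by positivity) (hρ2l e he w)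
    have := hG1d (ρ1 e)
    have := hG2d (ρ2 e)
    have := hG1dd (ρ1 e)
    have := hG2dd (ρ2 e)
    positivity
  · intro e he hpos w hw
    rw [hlevi e he w]
    have hw2 : 0 < ‖w‖ ^ 2 := by positivity
    have h1 : 0 < M.levi w ρ1 e := lt_of_lt_of_le (by positivity) (hρ1l e w)
    have h2 : 0 < M.levi w ρ2 e := lt_of_lt_of_le hw2 (hρ2l e he w)
    have a1 := hG1d (ρ1 e)
    have a2 := hG2d (ρ2 e)
    have a3 := hG1dd (ρ1 e)
    have a4 := hG2dd (ρ2 e)
    have b1 : 0 ≤ deriv (deriv G1) (ρ1 e) * ‖M.dw w (fun x => (ρ1 x : ℂ)) e‖ ^ 2 := by positivity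
    have b2 : 0 ≤ deriv (deriv G2) (ρ2 e) * ‖M.dw w (fun x => (ρ2 x : ℂ)) e‖ ^ 2 := by positivity
    have b3 : 0 ≤ deriv G1 (ρ1 e) * M.levi w ρ1 e := by positivity
    have b4 : 0 ≤ deriv G2 (ρ2 e) * M.levi w ρ2 e := by positivity
    rcases lt_or_ge (1 / 2) (ρ1 e) with h3 | h3
    · have h4 := hG1p _ h3
      have h5 : 0 < deriv G1 (ρ1 e) * M.levi w ρ1 e := mul_pos h4 h1
      linarith
    · rcases lt_or_ge K2 (ρ2 e) with h6 | h6
      · have h4 := hG2p _ h6
        have h5 : 0 < deriv G2 (ρ2 e) * M.levi w ρ2 e := mul_pos h4 h2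
        linarith
      · exfalso
        have h7 : G1 (ρ1 e) + G2 (ρ2 e) = 0 := by rw [hG1z _ h3, hG2z _ h6, add_zero]
        exact hpos.ne' h7
  · intro e he
    have h1 := hρ1T e he
    have h2 : ρ2 e ≤ K2 := (le_abs_self _).trans (hK2 e he)
    change G1 (ρ1 e) + G2 (ρ2 e) = 0
    rw [hG1z _ h1, hG2z _ h2, add_zero]

end RD

end Pool.Agent.ParLeaf
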