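import Pool.Agent.H.MP_3a36cd_an.Local2
import Pool.Agent.H.MP_3a36cd_an.Weight2

/-! MP_3a36cd_an, module Super: the leafwise capacity is superharmonic on the Riemann domain. -/

open Set Metric Filter Topology Complex MeasureTheory Real
open scoped ContDiff

namespace Pool.Agent.ParLeaf

namespace RD

variable {V : Type} [NormedAddCommGroup V] [NormedSpace ℂ V] [FiniteDimensional ℂ V]

/-- the energy only sees the weight on the support of `g` -/
theorem Super_En_congr (R : RD ℂ) {φ φ' : R.carrier → ℝ} {g : R.carrier → ℂ}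
    (h : ∀ y ∈ tsupport g, φ y = φ' y) : R.En φ g = R.En φ' g := by
  have h1 : (fun y => ‖R.dzb g y‖ ^ 2 * Real.exp (φ y)) =
      (fun y => ‖R.dzb g y‖ ^ 2 * Real.exp (φ' y)) := by
    funext y
    by_cases hy : y ∈ tsupport g
    · rw [h y hy]
    · have h2 : (fun v : ℂ => g (R.tr y v)) =ᶠ[𝓝 0] fun _ => (0 : ℂ) := by
        have h3 : ∀ᶠ x in 𝓝 y, g x = 0 := by
          filter_upwards [(isClosed_tsupport g).isOpen_compl.mem_nhds hy] with x hx
          exact image_eq_zero_of_notMem_tsupport hx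
        rw [R.nhds_eq y, eventually_map] at h3
        exact h3
      have h4 : R.dzb g y = 0 := by
        have h5 : fderiv ℝ (fun v : ℂ => g (R.tr y v)) 0 = 0 := by
          rw [h2.fderiv_eq]
          simp
        simp only [dzb, dwb, h5]
        simp
      rw [h4]
      simp
  simp only [En]
  rw [h1]

omit [NormedSpace ℂ V] [FiniteDimensional ℂ V] in
theorem Super_NSetM_subset (M : RD (ℂ × V)) {X X' : Set M.carrier} {φ φ' : M.carrier → ℝ}
    (hX : X ⊆ X') (hφ : ∀ y ∈ X, φ y = φ' y) (r : ℝ) (e : M.carrier) :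
    M.NSetM X φ r e ⊆ M.NSetM X' φ' r e := by
  rintro t ⟨g, hg, hs, hE, rfl⟩
  refine ⟨g, hg, hs.trans (preimage_mono hX), ?_, rfl⟩
  rw [← Super_En_congr (M.Fib (M.pr e).2) (φ := fun y => φ y.1) (φ' := fun y => φ' y.1)
    (fun y hy => hφ y.1 (hs hy))]
  exact hE

omit [NormedSpace ℂ V] [FiniteDimensional ℂ V] in
theorem Super_zero_mem (M : RD (ℂ × V)) (X : Set M.carrier) (φ : M.carrier → ℝ) (r : ℝ)
    (e : M.carrier) : (0 : ℝ) ∈ M.NSetM X φ r e := by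
  refine ⟨fun _ => 0, ⟨?_, ?_⟩, ?_, ?_, ?_⟩
  · intro y _
    exact contDiffAt_const
  · exact HasCompactSupport.zero
  · have : tsupport (fun _ : (M.Fib (M.pr e).2).carrier => (0 : ℂ)) = ∅ :=
      tsupport_eq_empty_iff.2 rfl
    rw [this]
    exact empty_subset _
  · have : (fun y => ‖(M.Fib (M.pr e).2).dzb (fun _ => 0) y‖ ^ 2 *
        Real.exp ((fun y : (M.Fib (M.pr e).2).carrier => φ y.1) y)) = fun _ => (0 : ℝ) := by
      funext y
      simp [dzb, dwb]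
    simp only [En]
    rw [this]
    simp [sint]
  · simp [ell]

/-- step 1: the supports of good test functions on the fibres over the circle stay in a compact
part of the component of `e` -/
theorem Super_compact (M : RD (ℂ × V)) (e : M.carrier) (u : ℂ × V) {r : ℝ} (hr : 0 < r)
    (hru : r + 2 * ‖u‖ < M.rad e) {c : ℂ → ℝ} (hc : ContinuousOn c (sphere 0 1))
    (h : ∀ τ ∈ sphere (0 : ℂ) 1, ∃ t ∈ M.NSetM univ 0 r (M.tr e (τ • u)), c τ < t) :
    ∃ T : Set M.carrier, IsCompact T ∧ (∀ y ∈ T, M.Reach e y) ∧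
      ∀ τ ∈ sphere (0 : ℂ) 1, ∃ U, IsOpen U ∧ U ⊆ T ∧
        ∃ t ∈ M.NSetM U 0 r (M.tr e (τ • u)), c τ < t := by
  have hu0 := norm_nonneg u
  have hradτ : ∀ τ ∈ sphere (0 : ℂ) 1, ‖τ • u‖ < M.rad e ∧ r + ‖u‖ < M.rad (M.tr e (τ • u)) := by
    intro τ hτ
    have h1 : ‖τ‖ = 1 := by simpa using hτ
    have h2 : ‖τ • u‖ = ‖u‖ := by rw [norm_smul, h1, one_mul]
    have h3 : ‖τ • u‖ < M.rad e := by linarith
    have h4 := M.rad_tr e _ h3
    exact ⟨h3, by linarith⟩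
  have key : ∃ T : Set M.carrier, IsCompact T ∧ (∀ y ∈ T, M.Reach e y) ∧
      ∀ τ ∈ sphere (0 : ℂ) 1, τ ∈ sphere (0 : ℂ) 1 → ∃ U, IsOpen U ∧ U ⊆ T ∧
        ∃ t ∈ M.NSetM U 0 r (M.tr e (τ • u)), c τ < t := by
    refine IsCompact.induction_on (isCompact_sphere (0 : ℂ) 1)
      (p := fun s => ∃ T : Set M.carrier, IsCompact T ∧ (∀ y ∈ T, M.Reach e y) ∧
      ∀ τ ∈ s, τ ∈ sphere (0 : ℂ) 1 → ∃ U, IsOpen U ∧ U ⊆ T ∧
        ∃ t ∈ M.NSetM U 0 r (M.tr e (τ • u)), c τ < t) ?_ ?_ ?_ ?_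
    · exact ⟨∅, isCompact_empty, fun y hy => hy.elim, fun τ hτ => hτ.elim⟩
    · rintro s s' hss' ⟨T, hT, hTr, hTs⟩
      exact ⟨T, hT, hTr, fun τ hτ => hTs τ (hss' hτ)⟩
    · rintro s s' ⟨T, hT, hTr, hTs⟩ ⟨T', hT', hTr', hTs'⟩
      refine ⟨T ∪ T', hT.union hT', ?_, ?_⟩
      · rintro y (hy | hy)
        · exact hTr y hy
        · exact hTr' y hy
      · rintro τ (hτ | hτ) hτ1
        · obtain ⟨U, hU, hUT, hU'⟩ := hTs τ hτ hτ1
          exact ⟨U, hU, hUT.trans subset_union_left, hU'⟩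
        · obtain ⟨U, hU, hUT, hU'⟩ := hTs' τ hτ hτ1
          exact ⟨U, hU, hUT.trans subset_union_right, hU'⟩
    · intro τ₀ hτ₀
      obtain ⟨h1, h2⟩ := hradτ τ₀ hτ₀
      obtain ⟨t, ht, hct⟩ := h τ₀ hτ₀
      obtain ⟨t', ht', htt'⟩ := M.NSetM_reach (M.tr e (τ₀ • u)) hr (by linarith) ht
      have hct' : c τ₀ < t' := hct.trans_le htt'
      obtain ⟨c', hc1, hc2⟩ := exists_between hct'
      have hopen : IsOpen {e' | M.Reach (M.tr e (τ₀ • u)) e'} := (M.isClopen_reach _).2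
      obtain ⟨K, hKU, hK, δ, hδ, hlsc⟩ := M.NSetM_lsc (M.tr e (τ₀ • u)) hr (by linarith)
        hopen ht' hc2
      obtain ⟨U₀, hU₀, hKU₀, hcl, hcomp⟩ := exists_open_between_and_isCompact_closure hK hopen hKU
      have hcont : ∀ᶠ τ in 𝓝[sphere (0 : ℂ) 1] τ₀, c τ < c' :=
        (hc τ₀ hτ₀).eventually (gt_mem_nhds hc1)
      set δ' : ℝ := min 1 (δ / (‖u‖ + 1)) with hδ'
      have hδ'0 : 0 < δ' := lt_min one_pos (by positivity)
      have hball : ∀ᶠ τ in 𝓝[sphere (0 : ℂ) 1] τ₀, ‖τ - τ₀‖ < δ' := by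
        have : ball τ₀ δ' ∈ 𝓝[sphere (0 : ℂ) 1] τ₀ :=
          mem_nhdsWithin_of_mem_nhds (ball_mem_nhds _ hδ'0)
        filter_upwards [this] with τ hτ using mem_ball_iff_norm.1 hτ
      refine ⟨_, hcont.and hball, closure U₀, hcomp, ?_, ?_⟩
      · intro y hy
        exact (Relation.ReflTransGen.head ⟨τ₀ • u, h1, rfl⟩ (hcl hy) : M.Reach e y)
      · rintro τ ⟨hτc, hτb⟩ hτ1
        refine ⟨U₀, hU₀, subset_closure, ?_⟩
        have h3 : ‖(τ - τ₀) • u‖ < δ := by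
          rw [norm_smul]
          have h4 : ‖τ - τ₀‖ * ‖u‖ ≤ ‖τ - τ₀‖ * (‖u‖ + 1) := by
            apply mul_le_mul_of_nonneg_left _ (norm_nonneg _)
            linarith
          have h5 : ‖τ - τ₀‖ * (‖u‖ + 1) < δ := by
            have h6 := hτb.trans_le (min_le_right _ _)
            rwa [lt_div_iff₀ (by linarith)] at h6
          linarith
        have h3' : ‖(τ - τ₀) • u‖ ≤ ‖u‖ := by
          rw [norm_smul]
          have h6 := (hτb.trans_le (min_le_left _ _)).le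
          calc ‖τ - τ₀‖ * ‖u‖ ≤ 1 * ‖u‖ := mul_le_mul_of_nonneg_right h6 hu0
            _ = ‖u‖ := one_mul _
        obtain ⟨t'', ht'', hct''⟩ := hlsc ((τ - τ₀) • u) h3 U₀ hU₀ hKU₀
        have h7 : M.tr (M.tr e (τ₀ • u)) ((τ - τ₀) • u) = M.tr e (τ • u) := by
          have h8 : τ₀ • u + (τ - τ₀) • u = τ • u := by
            rw [← add_smul]
            congr 1
            ring
          rw [M.tr_tr e _ _ h1 (by linarith) (by rw [h8]; exact (hradτ τ hτ1).1), h8]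
        rw [h7] at ht''
        exact ⟨t'', ht'', hτc.trans hct''⟩
  obtain ⟨T, hT, hTr, hTs⟩ := key
  exact ⟨T, hT, hTr, fun τ hτ => hTs τ hτ hτ⟩

/-- **Theorem V**: `e ↦ N(e)` is superharmonic on complex discs. -/
theorem superV {ι : Type} (M : RD (ℂ × V)) {f : ι → M.carrier → ℂ} (hf : M.Det f)
    (e : M.carrier) (u : ℂ × V) {r : ℝ} (hr : 0 < r) (hru : r + 2 * ‖u‖ < M.rad e)
    {c : ℂ → ℝ} (hc : ContinuousOn c (sphere 0 1))
    (h : ∀ τ ∈ sphere (0 : ℂ) 1, ∃ t ∈ M.NSetM univ 0 r (M.tr e (τ • u)), c τ < t)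
    {B : ℝ} (hB : ∀ t ∈ M.NSetM univ 0 r e, t ≤ B) : circleAverage c 0 1 ≤ B := by
  have hu0 := norm_nonneg u
  obtain ⟨T₀, hT₀, hT₀r, hT₀s⟩ := M.Super_compact e u hr hru hc h
  have hradτ : ∀ τ : ℂ, ‖τ‖ ≤ 1 → ‖τ • u‖ ≤ ‖u‖ ∧ ‖τ • u‖ < M.rad e ∧
      r + ‖u‖ < M.rad (M.tr e (τ • u)) := by
    intro τ h1
    have h2 : ‖τ • u‖ ≤ ‖u‖ := by
      rw [norm_smul]
      calc ‖τ‖ * ‖u‖ ≤ 1 * ‖u‖ := mul_le_mul_of_nonneg_right h1 hu0
        _ = ‖u‖ := one_mul _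
    have h3 : ‖τ • u‖ < M.rad e := by linarith
    have h4 := M.rad_tr e _ h3
    exact ⟨h2, h3, by linarith⟩
  have hT₁ : IsCompact (M.tr e '' closedBall 0 (r + ‖u‖)) := M.isCompact_tr_image e (by linarith)
  obtain ⟨Ω, ρ, hρ, hTΩ, hTρ⟩ := M.exists_weight hf e (hT₀.union hT₁) (by
    rintro y (hy | ⟨v, hv, rfl⟩)
    · exact hT₀r y hy
    · refine Relation.ReflTransGen.single ⟨v, ?_, rfl⟩
      rw [mem_closedBall_zero_iff] at hv
      linarith)
  have hdisc : ∀ v : ℂ × V, ‖v‖ ≤ r + ‖u‖ → M.tr e v ∈ Ω ∧ ρ (M.tr e v) = 0 := by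
    intro v hv
    have : M.tr e v ∈ T₀ ∪ M.tr e '' closedBall 0 (r + ‖u‖) :=
      Or.inr ⟨v, mem_closedBall_zero_iff.2 hv, rfl⟩
    exact ⟨hTΩ this, hTρ _ this⟩
  obtain ⟨C, hC, hcut⟩ := Nk_cut hρ hr
  obtain ⟨Cb, hCb⟩ := NSetM_bdd hρ hr
  have hcomp : circleAverage c 0 1 ≤ M.Nk Ω ρ r 1 0 (M.tr e ((0 : ℂ) • u)) := by
    refine comparison (fun k τ => M.Nk Ω ρ r (1 / 2) k (M.tr e (τ • u)))
      (fun k τ => M.Nk Ω ρ r 1 k (M.tr e (τ • u))) C hC c hc ?_ ?_ ?_ ?_ ?_ ?_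
    · intro k τ _
      exact Nk_nonneg M Ω ρ r (1 / 2) k _
    · intro k τ hτ
      obtain ⟨_, _, h3⟩ := hradτ τ hτ
      exact Nk_anti hρ hr (by linarith) (by norm_num) k
    · intro k τ hτ
      obtain ⟨_, _, h3⟩ := hradτ τ hτ
      exact Nk_mono hρ hr (by linarith) (by norm_num) le_rfl k
    · intro k τ hτ
      obtain ⟨h1, h2, h3⟩ := hradτ τ hτ
      refine hcut _ (by linarith) ?_ k
      intro ζ hζ
      have h4 : ‖((ζ, 0) : ℂ × V)‖ ≤ r := by rwa [norm_fst]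
      have h5 := norm_add_le (τ • u) ((ζ, 0) : ℂ × V)
      rw [M.tr_tr e (τ • u) (ζ, 0) h2 (by linarith) (by linarith)]
      exact hdisc _ (by linarith)
    · intro τ₀ hτ₀
      obtain ⟨h1, h2, h3⟩ := hradτ τ₀ hτ₀.le
      set δ : ℝ := 1 - ‖τ₀‖ with hδ
      have hδ0 : 0 < δ := by linarith
      have hδ1 : δ * ‖u‖ ≤ ‖u‖ := by
        have : δ ≤ 1 := by
          have := norm_nonneg τ₀
          linarith
        calc δ * ‖u‖ ≤ 1 * ‖u‖ := mul_le_mul_of_nonneg_right this hu0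
          _ = ‖u‖ := one_mul _
      have htrans : ∀ τ : ℂ, ‖τ‖ ≤ δ → ‖τ • u‖ ≤ ‖u‖ ∧ ‖(τ₀ + τ) • u‖ ≤ ‖u‖ := by
        intro τ hτ
        constructor
        · rw [norm_smul]
          exact (mul_le_mul_of_nonneg_right hτ hu0).trans hδ1
        · refine (hradτ _ ?_).1
          have := norm_add_le τ₀ τ
          linarith
      obtain ⟨ε, hε, hεδ, n, hn⟩ := Nk_local hρ hr (M.tr e (τ₀ • u)) u hδ0 (by linarith) (by
        intro τ hτ ζ hζ
        obtain ⟨h4, h5⟩ := htrans τ hτ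
        have h6 : ‖((ζ, 0) : ℂ × V)‖ ≤ r := by rwa [norm_fst]
        have h7 := norm_add_le (τ • u) ((ζ, 0) : ℂ × V)
        have h8 : τ₀ • u + (τ • u + (ζ, 0)) = (τ₀ + τ) • u + ((ζ, 0) : ℂ × V) := by
          rw [add_smul, add_assoc]
        have h9 := norm_add_le ((τ₀ + τ) • u) ((ζ, 0) : ℂ × V)
        rw [M.tr_tr e (τ₀ • u) _ h2 (by linarith) (by rw [h8]; linarith), h8]
        exact hdisc _ (by linarith))
      refine ⟨ε, hε, fun k τ => n k (τ - τ₀), fun k => ?_⟩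
      obtain ⟨hn1, hn2, hn3⟩ := hn k
      refine ⟨?_, ?_, ?_⟩
      · refine hn1.comp (by fun_prop) ?_
        intro τ hτ
        rw [mem_ball_zero_iff]
        exact mem_ball_iff_norm.1 hτ
      · intro τ s hs hsub
        have h4 : circleAverage (fun τ => n k (τ - τ₀)) τ s = circleAverage (n k) (τ - τ₀) s := by
          rw [← circleAverage_map_add_const, ← circleAverage_map_add_const (c := τ - τ₀)]
          congr 1
          funext z
          congr 1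
          ring
        rw [h4]
        refine hn2 (τ - τ₀) s hs ?_
        intro z hz
        have h5 : z + τ₀ ∈ ball τ₀ ε := by
          apply hsub
          rw [mem_closedBall_iff_norm] at hz ⊢
          have : z + τ₀ - τ = z - (τ - τ₀) := by ring
          rw [this]
          exact hz
        rw [mem_ball_iff_norm] at h5 ⊢
        simpa using h5
      · intro τ hτ hτ1
        have h4 : ‖τ - τ₀‖ < ε := mem_ball_iff_norm.1 hτ
        have h5 := hn3 (τ - τ₀) (by rw [mem_ball_zero_iff]; exact h4)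
        obtain ⟨h6, _⟩ := htrans (τ - τ₀) (by linarith)
        have h7 : M.tr (M.tr e (τ₀ • u)) ((τ - τ₀) • u) = M.tr e (τ • u) := by
          have h8 : τ₀ • u + (τ - τ₀) • u = τ • u := by
            rw [← add_smul]
            congr 1
            ring
          rw [M.tr_tr e _ _ h2 (by linarith) (by rw [h8]; exact (hradτ τ hτ1).2.1), h8]
        rw [h7] at h5
        exact h5
    · intro τ₀ hτ₀
      obtain ⟨h1, h2, h3⟩ := hradτ τ₀ hτ₀.le
      obtain ⟨U, hU, hUT, t, ht, hct⟩ := hT₀s τ₀ (by simpa using hτ₀)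
      obtain ⟨K, hKU, hK, δ, hδ, hlsc⟩ := M.NSetM_lsc (M.tr e (τ₀ • u)) hr (by linarith)
        hU ht hct
      have hδ'0 : 0 < min 1 (δ / (‖u‖ + 1)) := lt_min one_pos (by positivity)
      refine ⟨min 1 (δ / (‖u‖ + 1)), hδ'0, ?_⟩
      intro τ hτ hτ1 k
      have hτb : ‖τ - τ₀‖ < min 1 (δ / (‖u‖ + 1)) := mem_ball_iff_norm.1 hτ
      have h4 : ‖(τ - τ₀) • u‖ < δ := by
        rw [norm_smul]
        have h4 : ‖τ - τ₀‖ * ‖u‖ ≤ ‖τ - τ₀‖ * (‖u‖ + 1) := by
          apply mul_le_mul_of_nonneg_left _ (norm_nonneg _)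
          linarith
        have h5 : ‖τ - τ₀‖ * (‖u‖ + 1) < δ := by
          have h6 := hτb.trans_le (min_le_right _ _)
          rwa [lt_div_iff₀ (by linarith)] at h6
        linarith
      have h4' : ‖(τ - τ₀) • u‖ ≤ ‖u‖ := by
        rw [norm_smul]
        have h6 := (hτb.trans_le (min_le_left _ _)).le
        calc ‖τ - τ₀‖ * ‖u‖ ≤ 1 * ‖u‖ := mul_le_mul_of_nonneg_right h6 hu0
          _ = ‖u‖ := one_mul _
      obtain ⟨t', ht', hct'⟩ := hlsc ((τ - τ₀) • u) h4 U hU hKU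
      have h7 : M.tr (M.tr e (τ₀ • u)) ((τ - τ₀) • u) = M.tr e (τ • u) := by
        have h8 : τ₀ • u + (τ - τ₀) • u = τ • u := by
          rw [← add_smul]
          congr 1
          ring
        rw [M.tr_tr e _ _ h2 (by linarith) (by rw [h8]; exact (hradτ τ hτ1).2.1), h8]
      rw [h7] at ht'
      have hsub := M.Super_NSetM_subset (X := U) (X' := {y | y ∈ Ω ∧ ρ y < 1 / 2})
        (φ := 0) (φ' := fun y => (k : ℝ) * ρ y)
        (fun y hy => ⟨hTΩ (Or.inl (hUT hy)), by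
          rw [hTρ y (Or.inl (hUT hy))]; norm_num⟩)
        (fun y hy => by
          rw [hTρ y (Or.inl (hUT hy))]; simp) r (M.tr e (τ • u))
      have hrad := (hradτ τ hτ1).2.2
      have hle : t' ≤ M.Nk Ω ρ r (1 / 2) k (M.tr e (τ • u)) := by
        refine le_csSup ⟨Cb, ?_⟩ (hsub ht')
        intro x hx
        exact hCb _ (by linarith) k (1 / 2) (by norm_num) x hx
      exact hct'.le.trans hle
  rw [zero_smul, M.tr_zero] at hcomp
  refine hcomp.trans ?_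
  refine csSup_le ⟨0, M.Super_zero_mem _ _ r e⟩ ?_
  intro t ht
  refine hB t ?_
  refine M.Super_NSetM_subset (subset_univ _) ?_ r e ht
  intro y _
  simp

end RD

end Pool.Agent.ParLeaf
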