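import Pool.Agent.H.MP_3a36cd_an.Zero
import Pool.Agent.H.MP_3a36cd_an.Super
import Pool.Agent.H.MP_3a36cd_an.NormChange
import Pool.Agent.H.MP_3a36cd_an.Polar2
import Pool.Agent.H.MP_3a36cd_an.Germ2

/-! MP_3a36cd_an, module Key1: the plurisubharmonic function. -/

open Set Metric Filter Topology Complex Real
open scoped ContDiff

namespace Pool.Agent.ParLeaf

/-- the normalising term -/
noncomputable def key1A (P : ℂ × ℂ → ℂ) (p : ℂ × ℂ) (r : ℝ) : ℝ :=
  2 / π * Real.log (1 / r) + 4 / π * Real.log ‖P p‖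

theorem key1A_change (P : ℂ × ℂ → ℂ) (p : ℂ × ℂ) {r r' : ℝ} (hr : 0 < r) (hr' : 0 < r') :
    key1A P p r' = key1A P p r + 2 / π * Real.log (r / r') := by
  unfold key1A
  rw [Real.log_div one_ne_zero hr'.ne', Real.log_div one_ne_zero hr.ne',
    Real.log_div hr.ne' hr'.ne', Real.log_one]
  ring

/-- infimum of `A - t` over `t ∈ S` -/
noncomputable def key1Inf (A : ℝ) (S : Set ℝ) : EReal := ⨅ t ∈ S, ((A - t : ℝ) : EReal)

theorem key1Inf_le_iff {A y : ℝ} {S : Set ℝ} :
    (y : EReal) ≤ key1Inf A S ↔ ∀ t ∈ S, t ≤ A - y := by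
  unfold key1Inf
  rw [le_iInf₂_iff]
  refine forall₂_congr fun t _ => ?_
  rw [EReal.coe_le_coe_iff]
  constructor <;> intro h <;> linarith

theorem key1Inf_lt_iff {A : ℝ} {S : Set ℝ} {y : EReal} :
    key1Inf A S < y ↔ ∃ t ∈ S, ((A - t : ℝ) : EReal) < y := by
  unfold key1Inf
  simp only [iInf_lt_iff, exists_prop]

theorem key1Inf_le {A t : ℝ} {S : Set ℝ} (ht : t ∈ S) : key1Inf A S ≤ ((A - t : ℝ) : EReal) :=
  iInf₂_le t ht

theorem key1Inf_eq_of {A A' : ℝ} {S S' : Set ℝ}
    (h : ∀ y : ℝ, (∀ t ∈ S, t ≤ A - y) ↔ ∀ t ∈ S', t ≤ A' - y) :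
    key1Inf A S = key1Inf A' S' := by
  refine le_antisymm ?_ ?_
  · rw [← EReal.ge_of_forall_gt_iff_ge]
    intro z hz
    exact key1Inf_le_iff.mpr ((h z).mp (key1Inf_le_iff.mp hz.le))
  · rw [← EReal.ge_of_forall_gt_iff_ge]
    intro z hz
    exact key1Inf_le_iff.mpr ((h z).mpr (key1Inf_le_iff.mp hz.le))

theorem key1Inf_eq_bot {A : ℝ} {S : Set ℝ} : key1Inf A S = ⊥ ↔ ¬ BddAbove S := by
  constructor
  · rintro h ⟨B, hB⟩
    have : ((A - B : ℝ) : EReal) ≤ key1Inf A S :=
      key1Inf_le_iff.mpr fun t ht => by have := hB ht; linarith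
    rw [h, le_bot_iff] at this
    exact EReal.coe_ne_bot _ this
  · intro h
    rw [EReal.eq_bot_iff_forall_lt]
    intro y
    by_contra hcon
    rw [not_lt] at hcon
    exact h ⟨A - y, fun t ht => key1Inf_le_iff.mp hcon t ht⟩

namespace RD

theorem key1_zero_mem (R : RD ℂ) (X : Set R.carrier) (φ : R.carrier → ℝ) (y₀ : R.carrier)
    (r : ℝ) : (0 : ℝ) ∈ R.NSet X φ y₀ r := by
  refine ⟨0, ⟨?_, HasCompactSupport.zero⟩, ?_, ?_, ?_⟩
  · intro e _
    exact contDiffAt_const (c := (0 : ℂ))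
  · rw [tsupport_eq_empty_iff.mpr rfl]
    exact empty_subset _
  · have h1 : ∀ y, R.dzb 0 y = 0 := by
      intro y
      simp [dzb, dwb]
    unfold En sint
    simp [h1]
  · simp [ell]

end RD

namespace SolDomain

variable {P Q : ℂ × ℂ → ℂ} (D : SolDomain P Q) (hP : Differentiable ℂ P) (hQ : Differentiable ℂ Q)

/-- the function computed with bumps of size `r` -/
noncomputable def key1U (p : ℂ × ℂ) (hp : P p ≠ 0) (r : ℝ) : EReal :=
  key1Inf (key1A P p r) (D.M.NSetM univ 0 r (D.base hP hQ p hp))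

theorem key1U_indep (p : ℂ × ℂ) (hp : P p ≠ 0) {r r' : ℝ} (hr' : 0 < r') (hr : r' ≤ r)
    (hr1 : r < D.M.rad (D.base hP hQ p hp)) :
    D.key1U hP hQ p hp r = D.key1U hP hQ p hp r' := by
  refine key1Inf_eq_of fun y => ⟨fun h => ?_, fun h => ?_⟩
  · have := RD.norm_change (D.M.Fib (D.M.pr (D.base hP hQ p hp)).2) ⟨D.base hP hQ p hp, rfl⟩
      hr' hr hr1 h
    intro t ht
    have h1 := this t ht
    rw [key1A_change P p (hr'.trans_le hr) hr']
    linarith
  · have := RD.norm_change' (D.M.Fib (D.M.pr (D.base hP hQ p hp)).2) ⟨D.base hP hQ p hp, rfl⟩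
      hr' hr hr1 h
    intro t ht
    have h1 := this t ht
    rw [key1A_change P p (hr'.trans_le hr) hr'] at h1
    linarith

theorem key1U_indep' (p : ℂ × ℂ) (hp : P p ≠ 0) {r r' : ℝ} (hr : 0 < r) (hr' : 0 < r')
    (hr1 : r < D.M.rad (D.base hP hQ p hp)) (hr1' : r' < D.M.rad (D.base hP hQ p hp)) :
    D.key1U hP hQ p hp r = D.key1U hP hQ p hp r' := by
  rcases le_total r' r with h | h
  · exact D.key1U_indep hP hQ p hp hr' h hr1
  · exact (D.key1U_indep hP hQ p hp hr h hr1').symm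

theorem key1_dir_norm (b : ℂ × ℂ) : ‖((b.1, b) : ℂ × ℂ × ℂ)‖ = ‖b‖ := by
  rw [Prod.norm_def]
  exact max_eq_right (norm_fst_le b)

theorem key1_cont_log (hP : Differentiable ℂ P) {p : ℂ × ℂ} (hp : P p ≠ 0) (r : ℝ) :
    ContinuousAt (fun q => key1A P q r) p := by
  unfold key1A
  refine continuousAt_const.add (continuousAt_const.mul ?_)
  exact ContinuousAt.log hP.continuous.continuousAt.norm (norm_ne_zero_iff.mpr hp)

/-- K1: the plurisubharmonic function -/
theorem exists_psh (h0 : ∃ x, P x ≠ 0) : ∃ u : ℂ × ℂ → EReal, PSH u ∧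
    ∀ p, ∀ hp : P p ≠ 0, (u p = ⊥ ↔ D.Zero hP hQ p hp) := by
  classical
  let u : ℂ × ℂ → EReal := fun p => if hp : P p ≠ 0 then
    D.key1U hP hQ p hp (D.M.rad (D.base hP hQ p hp) / 2) else 0
  have hu : ∀ p, ∀ hp : P p ≠ 0, ∀ r, 0 < r → r < D.M.rad (D.base hP hQ p hp) →
      u p = D.key1U hP hQ p hp r := by
    intro p hp r hr hr1
    have h1 := D.M.rad_pos (D.base hP hQ p hp)
    simp only [u, dif_pos hp]
    exact D.key1U_indep' hP hQ p hp (by positivity) hr (by linarith) hr1
  have hz : ∀ p, ∀ hp : P p ≠ 0, ∀ r, (0 : ℝ) ∈ D.M.NSetM univ 0 r (D.base hP hQ p hp) :=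
    fun p hp r => RD.key1_zero_mem _ _ _ _ _
  -- finiteness from above
  have hle : ∀ p, ∀ hp : P p ≠ 0, ∀ r, 0 < r → r < D.M.rad (D.base hP hQ p hp) →
      u p ≤ (key1A P p r : ℝ) := by
    intro p hp r hr hr1
    rw [hu p hp r hr hr1]
    have := key1Inf_le (A := key1A P p r) (hz p hp r)
    rwa [sub_zero] at this
  suffices hmain : ∃ v : ℂ × ℂ → EReal, PSH v ∧ ∀ p, P p ≠ 0 → v p = u p by
    obtain ⟨v, hv, hvu⟩ := hmain
    refine ⟨v, hv, fun p hp => ?_⟩
    rw [hvu p hp]
    simp only [u, dif_pos hp]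
    exact key1Inf_eq_bot
  refine psh_extension hP h0 u ?_ ?_ ?_ ?_
  · -- upper semicontinuity
    intro p hp y hy
    set e := D.base hP hQ p hp with he
    have hrad := D.M.rad_pos e
    set r := D.M.rad e / 4 with hr
    have hr0 : 0 < r := by positivity
    have hr1 : r < D.M.rad e := by linarith
    rw [hu p hp r hr0 hr1, key1U, key1Inf_lt_iff] at hy
    obtain ⟨t, ht, hty⟩ := hy
    obtain ⟨z, hz1, hz2⟩ := EReal.lt_iff_exists_real_btwn.mp hty
    rw [EReal.coe_lt_coe_iff] at hz1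
    set η := (z - (key1A P p r - t)) / 2 with hη
    have hη0 : 0 < η := by linarith
    obtain ⟨K, -, -, δ, hδ, hK⟩ := D.M.NSetM_lsc e hr0 hr1 isOpen_univ ht
      (show t - η < t by linarith)
    have hcont := key1_cont_log hP hp r
    have h1 : ∀ᶠ q in 𝓝 p, key1A P q r < key1A P p r + η :=
      hcont.eventually (gt_mem_nhds (by linarith))
    have h2 : ∀ᶠ q in 𝓝 p, ‖q - p‖ < min δ (D.M.rad e / 4) := by
      have : ball p (min δ (D.M.rad e / 4)) ∈ 𝓝 p := ball_mem_nhds p (lt_min hδ (by positivity))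
      filter_upwards [this] with q hq
      rwa [mem_ball, dist_eq_norm] at hq
    filter_upwards [h1, h2] with q hq1 hq2
    have hq3 := hq2.trans_le (min_le_left _ _)
    have hq4 := hq2.trans_le (min_le_right _ _)
    obtain ⟨hPq, hbase⟩ := D.base_add hP hQ p hp (q - p) (by rw [← he]; linarith)
    rw [← he] at hbase
    have hqp : p + (q - p) = q := by abel
    have hdir := key1_dir_norm (q - p)
    obtain ⟨t', ht', hct⟩ := hK ((q - p).1, q - p) (by rw [hdir]; exact hq3) univ isOpen_univ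
      (subset_univ _)
    rw [← hbase] at ht'
    have hradq : r < D.M.rad (D.base hP hQ (p + (q - p)) hPq) := by
      rw [hbase]
      have := D.M.rad_tr e ((q - p).1, q - p) (by rw [hdir]; linarith)
      rw [hdir] at this
      linarith
    have hfin : u (p + (q - p)) < y := by
      rw [hu (p + (q - p)) hPq r hr0 hradq, key1U, key1Inf_lt_iff]
      refine ⟨t', ht', lt_of_le_of_lt ?_ hz2⟩
      rw [EReal.coe_le_coe_iff, hqp]
      linarith
    rwa [hqp] at hfin
  · intro p hp
    have hrad := D.M.rad_pos (D.base hP hQ p hp)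
    exact (hle p hp (D.M.rad (D.base hP hQ p hp) / 2) (by positivity) (by linarith)).trans_lt
      (EReal.coe_lt_top _)
  · -- sub-mean value property
    intro p hp
    set e := D.base hP hQ p hp with he
    have hrad := D.M.rad_pos e
    set r := D.M.rad e / 4 with hr
    have hr0 : 0 < r := by positivity
    have hr1 : r < D.M.rad e := by linarith
    refine ⟨D.M.rad e / 16, by positivity, ?_⟩
    intro b hb g hg hgu
    have hball : ∀ ζ : ℂ, ‖ζ‖ ≤ 1 → ‖ζ • b‖ ≤ D.M.rad e / 16 := by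
      intro ζ hζ
      rw [norm_smul]
      calc ‖ζ‖ * ‖b‖ ≤ 1 * ‖b‖ := mul_le_mul_of_nonneg_right hζ (norm_nonneg _)
        _ ≤ _ := by rwa [one_mul]
    have hPne : ∀ ζ : ℂ, ‖ζ‖ ≤ 1 → P (p + ζ • b) ≠ 0 := by
      intro ζ hζ
      have := hball ζ hζ
      obtain ⟨h, -⟩ := D.base_add hP hQ p hp (ζ • b) (by rw [← he]; linarith)
      exact h
    have hlogavg : circleAverage (fun ζ => Real.log ‖P (p + ζ • b)‖) 0 1 = Real.log ‖P p‖ := by
      have hd : Differentiable ℂ (fun ζ : ℂ => P (p + ζ • b)) :=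
        hP.comp ((differentiable_const p).add (differentiable_id.smul_const b))
      have h1 : AnalyticOnNhd ℂ (fun ζ : ℂ => P (p + ζ • b)) (closedBall 0 |(1 : ℝ)|) :=
        fun ζ _ => hd.analyticAt ζ
      have h2 := h1.circleAverage_log_norm_of_ne_zero (fun ζ hζ => hPne ζ (by
        rw [abs_one, mem_closedBall_zero_iff] at hζ; exact hζ))
      rw [zero_smul, add_zero] at h2
      exact h2
    have hlogc : ContinuousOn (fun ζ : ℂ => Real.log ‖P (p + ζ • b)‖) (sphere 0 1) := by
      intro ζ hζ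
      rw [mem_sphere_zero_iff_norm] at hζ
      refine ContinuousAt.continuousWithinAt ?_
      refine ContinuousAt.log ?_ (norm_ne_zero_iff.mpr (hPne ζ hζ.le))
      have : Continuous (fun ζ : ℂ => P (p + ζ • b)) := hP.continuous.comp (by fun_prop)
      exact this.continuousAt.norm
    by_contra hcon
    rw [not_le] at hcon
    obtain ⟨y, hy1, hy2⟩ := EReal.lt_iff_exists_real_btwn.mp hcon
    rw [EReal.coe_lt_coe_iff] at hy1
    set ε := (y - circleAverage g 0 1) / 2 with hε
    have hε0 : 0 < ε := by linarith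
    have hB : ∀ t ∈ D.M.NSetM univ 0 r e, t ≤ key1A P p r - y := by
      rw [hu p hp r hr0 hr1, key1U] at hy2
      exact key1Inf_le_iff.mp hy2.le
    have hI1 : CircleIntegrable (fun ζ : ℂ => 4 / π * Real.log ‖P (p + ζ • b)‖) 0 1 := by
      refine ContinuousOn.circleIntegrable zero_le_one ?_
      exact continuousOn_const.mul hlogc
    have hI2 : CircleIntegrable g 0 1 := hg.continuousOn.circleIntegrable zero_le_one
    have hI3 : CircleIntegrable (fun _ : ℂ => 2 / π * Real.log (1 / r) - ε) 0 1 :=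
      continuousOn_const.circleIntegrable zero_le_one
    have havg : circleAverage (fun ζ => (2 / π * Real.log (1 / r) - ε) +
        4 / π * Real.log ‖P (p + ζ • b)‖ - g ζ) 0 1 =
        key1A P p r - ε - circleAverage g 0 1 := by
      have hI4 : CircleIntegrable (fun ζ : ℂ => (2 / π * Real.log (1 / r) - ε) +
          4 / π * Real.log ‖P (p + ζ • b)‖) 0 1 := hI3.add hI1
      rw [circleAverage_fun_sub hI4 hI2, circleAverage_fun_add hI3 hI1,
        circleAverage_const]
      have := circleAverage_fun_smul (𝕜 := ℝ) (a := 4 / π)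
        (f := fun ζ : ℂ => Real.log ‖P (p + ζ • b)‖) (c := 0) (R := 1)
      simp only [smul_eq_mul] at this
      rw [this, hlogavg, key1A]
      ring
    have hmain := D.M.superV (D.det hP hQ) e (b.1, b) hr0 (by
      rw [key1_dir_norm]; linarith)
      (c := fun ζ => (2 / π * Real.log (1 / r) - ε) +
        4 / π * Real.log ‖P (p + ζ • b)‖ - g ζ)
      ((continuousOn_const.add (continuousOn_const.mul hlogc)).sub hg.continuousOn) ?_ hB
    · rw [havg] at hmain
      linarith
    · intro τ hτ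
      rw [mem_sphere_zero_iff_norm] at hτ
      obtain ⟨-, hgτ⟩ := hgu τ hτ
      have hτb := hball τ hτ.le
      obtain ⟨hPτ, hbase⟩ := D.base_add hP hQ p hp (τ • b) (by rw [← he]; linarith)
      rw [← he] at hbase
      have hdir := key1_dir_norm (τ • b)
      have hradq : r < D.M.rad (D.base hP hQ (p + τ • b) hPτ) := by
        rw [hbase]
        have := D.M.rad_tr e ((τ • b).1, τ • b) (by rw [hdir]; linarith)
        rw [hdir] at this
        linarith
      have h1 : u (p + τ • b) < ((g τ + ε : ℝ) : EReal) :=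
        lt_of_le_of_lt hgτ (by rw [EReal.coe_lt_coe_iff]; linarith)
      rw [hu (p + τ • b) hPτ r hr0 hradq, key1U, key1Inf_lt_iff] at h1
      obtain ⟨t, ht, hty⟩ := h1
      rw [hbase] at ht
      refine ⟨t, ht, ?_⟩
      rw [EReal.coe_lt_coe_iff, key1A] at hty
      linarith
  · -- local boundedness from above
    intro a
    obtain ⟨r₀, hr₀, c, hc, hrb⟩ := D.rad_base hP hQ a
    refine ⟨r₀, hr₀, 2 / π * Real.log (2 / c), fun p hpa hp => ?_⟩
    have hrad := D.M.rad_pos (D.base hP hQ p hp)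
    refine (hle p hp (D.M.rad (D.base hP hQ p hp) / 2) (by positivity) (by linarith)).trans ?_
    rw [EReal.coe_le_coe_iff]
    have h1 := hrb p hpa hp
    have hPp : 0 < ‖P p‖ := norm_pos_iff.mpr hp
    have h2 : Real.log (1 / (D.M.rad (D.base hP hQ p hp) / 2)) ≤
        Real.log (2 / (c * ‖P p‖ ^ 2)) := by
      refine Real.log_le_log (by positivity) ?_
      rw [one_div_div]
      exact div_le_div_of_nonneg_left (by norm_num) (by positivity) h1
    have h3 : Real.log (2 / (c * ‖P p‖ ^ 2)) = Real.log (2 / c) - 2 * Real.log ‖P p‖ := by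
      rw [← div_div, Real.log_div (by positivity) (by positivity), Real.log_pow]
      push_cast
      ring
    rw [h3] at h2
    unfold key1A
    have hπ : 0 < 2 / π := by positivity
    have h4 := mul_le_mul_of_nonneg_left h2 hπ.le
    calc 2 / π * Real.log (1 / (D.M.rad (D.base hP hQ p hp) / 2)) + 4 / π * Real.log ‖P p‖
        ≤ 2 / π * (Real.log (2 / c) - 2 * Real.log ‖P p‖) + 4 / π * Real.log ‖P p‖ := by linarith
      _ = 2 / π * Real.log (2 / c) := by ring

end SolDomain

end Pool.Agent.ParLeaf
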