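import Pool.Agent.H.MP_3a36cd_an.Defs
import Pool.Agent.H.MP_3a36cd_an.Flow2

/-! MP_3a36cd_an, module Leaves1: leaves of the vector field and fibres of the Riemann domain. -/

open Set Metric Filter Topology Complex

namespace Pool.Agent.ParLeaf

/-! ### auxiliary facts -/

theorem leaves1_differentiableAt {P Q : ℂ × ℂ → ℂ} {φ : ℂ → ℂ × ℂ} {c : ℂ} {r : ℝ}
    (hφ : IsLeafDisc P Q φ c r) {x : ℂ} (hx : x ∈ ball c r) : DifferentiableAt ℂ φ x := by
  obtain ⟨-, a, -, h⟩ := hφ x hx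
  exact h.differentiableAt

theorem leaves1_fst {φ : ℂ → ℂ × ℂ} {v : ℂ × ℂ} {x : ℂ} (h : HasDerivAt φ v x) :
    HasDerivAt (fun x => (φ x).1) v.1 x :=
  (hasFDerivAt_fst (𝕜 := ℂ) (p := φ x)).comp_hasDerivAt x h

theorem leaves1_snd {φ : ℂ → ℂ × ℂ} {v : ℂ × ℂ} {x : ℂ} (h : HasDerivAt φ v x) :
    HasDerivAt (fun x => (φ x).2) v.2 x :=
  (hasFDerivAt_snd (𝕜 := ℂ) (p := φ x)).comp_hasDerivAt x h

/-- exchange of the coordinates -/
theorem leaves1_swap {P Q : ℂ × ℂ → ℂ} {φ : ℂ → ℂ × ℂ} {c : ℂ} {r : ℝ}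
    (hφ : IsLeafDisc P Q φ c r) :
    IsLeafDisc (fun q => Q q.swap) (fun q => P q.swap) (fun x => (φ x).swap) c r := by
  intro s hs
  obtain ⟨h0, a, ha, h⟩ := hφ s hs
  refine ⟨?_, a, ha, ?_⟩
  · intro hcon
    apply h0
    simp only [Prod.swap_swap, Prod.mk_eq_zero] at hcon ⊢
    exact ⟨hcon.2, hcon.1⟩
  · have h1 : HasDerivAt (fun x => (φ x).1) (a * P (φ s)) s := leaves1_fst h
    have h2 : HasDerivAt (fun x => (φ x).2) (a * Q (φ s)) s := leaves1_snd h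
    exact h2.prodMk h1

/-- near a point with `P ≠ 0` the leaf disc is a graph -/
theorem leaves1_graph {P Q : ℂ × ℂ → ℂ} (hP : Differentiable ℂ P)
    {φ : ℂ → ℂ × ℂ} {c : ℂ} {r : ℝ}
    (hφ : IsLeafDisc P Q φ c r) {s : ℂ} (hs : s ∈ ball c r) (hPs : P (φ s) ≠ 0) :
    ∃ (k : ℂ → ℂ) (a : ℂ), a ≠ 0 ∧ HasStrictDerivAt (fun x => (φ x).1) a s ∧
      HasStrictDerivAt k a⁻¹ (φ s).1 ∧ k (φ s).1 = s ∧ (∀ᶠ x in 𝓝 s, k (φ x).1 = x) ∧
      ∀ᶠ z in 𝓝 (φ s).1, (φ (k z)).1 = z ∧ P (z, (φ (k z)).2) ≠ 0 ∧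
        HasDerivAt (fun z => (φ (k z)).2)
          (Q (z, (φ (k z)).2) / P (z, (φ (k z)).2)) z := by
  set f : ℂ → ℂ := fun x => (φ x).1 with hf
  have hfd : DifferentiableOn ℂ f (ball c r) := fun x hx =>
    (differentiableAt_fst.comp x (leaves1_differentiableAt hφ hx)).differentiableWithinAt
  have hfs : ∀ x ∈ ball c r, HasStrictDerivAt f (deriv f x) x := fun x hx =>
    (hfd.analyticAt (isOpen_ball.mem_nhds hx)).hasStrictDerivAt
  have hφd : ∀ x ∈ ball c r, ∃ a : ℂ, a ≠ 0 ∧ deriv f x = a * P (φ x) ∧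
      HasDerivAt (fun x => (φ x).2) (a * Q (φ x)) x := by
    intro x hx
    obtain ⟨-, a, ha, h⟩ := hφ x hx
    have h1 : HasDerivAt f (a * P (φ x)) x := leaves1_fst h
    have h2 : HasDerivAt (fun x => (φ x).2) (a * Q (φ x)) x := leaves1_snd h
    exact ⟨a, ha, h1.deriv, h2⟩
  have hne : deriv f s ≠ 0 := by
    obtain ⟨a, ha, h1, -⟩ := hφd s hs
    rw [h1]
    exact mul_ne_zero ha hPs
  set k : ℂ → ℂ := (hfs s hs).localInverse f (deriv f s) s hne with hk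
  have hkd : HasStrictDerivAt k (deriv f s)⁻¹ (f s) := (hfs s hs).to_localInverse hne
  have hl : ∀ᶠ x in 𝓝 s, k (f x) = x := (hfs s hs).eventually_left_inverse hne
  have hr : ∀ᶠ z in 𝓝 (f s), f (k z) = z := (hfs s hs).eventually_right_inverse hne
  have hks : k (f s) = s := hl.self_of_nhds
  have hkc : Tendsto k (𝓝 (f s)) (𝓝 s) := by
    have := hkd.hasDerivAt.continuousAt
    rwa [ContinuousAt, hks] at this
  have hPc : ∀ᶠ x in 𝓝 s, P (φ x) ≠ 0 := by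
    have h1 : ContinuousAt (fun x => P (φ x)) s :=
      ContinuousAt.comp hP.continuous.continuousAt
        (leaves1_differentiableAt hφ hs).continuousAt
    exact h1.eventually_ne hPs
  have hall : ∀ᶠ x in 𝓝 s, x ∈ ball c r ∧ P (φ x) ≠ 0 ∧ ∀ᶠ y in 𝓝 x, k (f y) = y :=
    (isOpen_ball.eventually_mem hs).and (hPc.and (eventually_eventually_nhds.2 hl))
  refine ⟨k, deriv f s, hne, hfs s hs, hkd, hks, hl, ?_⟩
  filter_upwards [hr, hkc.eventually hall] with z hz hall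
  obtain ⟨hx, hPx, hy⟩ := hall
  obtain ⟨a, ha, h1, h2⟩ := hφd (k z) hx
  have h3 : deriv f (k z) ≠ 0 := by
    rw [h1]
    exact mul_ne_zero ha hPx
  have h4 : HasStrictDerivAt k (deriv f (k z))⁻¹ (f (k z)) :=
    (hfs (k z) hx).to_local_left_inverse h3 hy
  rw [hz] at h4
  have h5 : φ (k z) = (z, (φ (k z)).2) := Prod.ext hz rfl
  refine ⟨hz, by rw [← h5]; exact hPx, ?_⟩
  have h6 := h2.comp z h4.hasDerivAt
  rw [← h5]
  have h7 : Q (φ (k z)) / P (φ (k z)) = a * Q (φ (k z)) * (deriv f (k z))⁻¹ := by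
    rw [h1]
    field_simp
  rw [h7]
  exact h6

theorem leaves1_reparam {P Q : ℂ × ℂ → ℂ} (hP : Differentiable ℂ P) (hQ : Differentiable ℂ Q)
    {φ ψ : ℂ → ℂ × ℂ} {c c' : ℂ} {r r' : ℝ} (hφ : IsLeafDisc P Q φ c r)
    (hψ : IsLeafDisc P Q ψ c' r') {s s' : ℂ} (hs : s ∈ ball c r) (hs' : s' ∈ ball c' r')
    (h : φ s = ψ s') (hPs : P (φ s) ≠ 0) :
    ∃ (θ : ℂ → ℂ) (a : ℂ), a ≠ 0 ∧ HasStrictDerivAt θ a s' ∧ θ s' = s ∧
      (∀ᶠ x in 𝓝 s', ψ x = φ (θ x)) := by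
  obtain ⟨k, a, ha, h1, h2, h3, h4, h5⟩ := leaves1_graph hP hφ hs hPs
  obtain ⟨k', a', ha', h1', h2', h3', h4', h5'⟩ := leaves1_graph hP hψ hs' (by rwa [← h])
  rw [← h] at h5' h3' h2'
  obtain ⟨ε, hε, hball⟩ := Metric.eventually_nhds_iff_ball.1 (h5.and h5')
  have hEq : EqOn (fun z => (φ (k z)).2) (fun z => (ψ (k' z)).2) (ball (φ s).1 ε) := by
    refine sol_unique hP hQ isOpen_ball (convex_ball _ _).isPreconnected
      (fun z hz => (hball z hz).1.2) (fun z hz => (hball z hz).2.2) (mem_ball_self hε) ?_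
    rw [h3, h3', h]
  have hψ1 : Tendsto (fun x => (ψ x).1) (𝓝 s') (𝓝 (φ s).1) := by
    have := h1'.hasDerivAt.continuousAt
    rwa [ContinuousAt, ← h] at this
  refine ⟨fun x => k (ψ x).1, a⁻¹ * a', mul_ne_zero (inv_ne_zero ha) ha', ?_, ?_, ?_⟩
  · have h6 : HasStrictDerivAt k a⁻¹ (ψ s').1 := by rw [← h]; exact h2
    exact HasStrictDerivAt.comp s' h6 h1'
  · simp only [← h, h3]
  · filter_upwards [h4', hψ1.eventually (isOpen_ball.eventually_mem (mem_ball_self hε))]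
      with x hx hxb
    have h7 := hEq hxb
    have h8 := (hball _ hxb).1.1
    simp only [hx] at h7
    exact Prod.ext h8.symm h7.symm

/-- in a leaf disc, near a point with `P ≠ 0`, the second coordinate is a solution of the equation
as a function of the first one; two leaf discs through the same point agree up to
reparametrisation -/
theorem leafDisc_reparam {P Q : ℂ × ℂ → ℂ} (hP : Differentiable ℂ P) (hQ : Differentiable ℂ Q)
    {φ ψ : ℂ → ℂ × ℂ} {c c' : ℂ} {r r' : ℝ} (hφ : IsLeafDisc P Q φ c r)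
    (hψ : IsLeafDisc P Q ψ c' r') {s s' : ℂ} (hs : s ∈ ball c r) (hs' : s' ∈ ball c' r')
    (h : φ s = ψ s') :
    ∃ (θ : ℂ → ℂ) (a : ℂ), a ≠ 0 ∧ HasStrictDerivAt θ a s' ∧ θ s' = s ∧
      (∀ᶠ x in 𝓝 s', ψ x = φ (θ x)) := by
  by_cases hPs : P (φ s) = 0
  · have hQs : Q (φ s) ≠ 0 := by
      intro hcon
      exact (hφ s hs).1 (by simp [hPs, hcon])
    have hsw : Differentiable ℂ (Prod.swap : ℂ × ℂ → ℂ × ℂ) :=
      differentiable_snd.prodMk differentiable_fst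
    obtain ⟨θ, a, ha, h1, h2, h3⟩ := leaves1_reparam (hQ.comp hsw) (hP.comp hsw)
      (leaves1_swap hφ) (leaves1_swap hψ) hs hs' (by simp only [h]) (by simpa using hQs)
    refine ⟨θ, a, ha, h1, h2, ?_⟩
    filter_upwards [h3] with x hx
    exact Prod.swap_injective hx
  · exact leaves1_reparam hP hQ hφ hψ hs hs' h hPs

/-- leaf discs may be restricted and stay leaf discs; points of a leaf disc are in one leaf -/
theorem leafDisc_subset_leaf {P Q : ℂ × ℂ → ℂ} {φ : ℂ → ℂ × ℂ} {c : ℂ} {r : ℝ}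
    (hφ : IsLeafDisc P Q φ c r) {p : ℂ × ℂ} {s : ℂ} (hs : s ∈ ball c r)
    (h : φ s ∈ Leaf P Q p) : φ '' ball c r ⊆ Leaf P Q p := by
  intro q hq
  exact Relation.ReflTransGen.tail h ⟨φ, c, r, hφ, ⟨s, hs, rfl⟩, hq⟩

/-- a leaf disc on which `P` vanishes near one parameter -/
theorem leaves1_vanish {P Q : ℂ × ℂ → ℂ} (hP : Differentiable ℂ P)
    {φ : ℂ → ℂ × ℂ} {c : ℂ} {r : ℝ} (hφ : IsLeafDisc P Q φ c r) {s : ℂ} (hs : s ∈ ball c r)
    (h : ∀ᶠ x in 𝓝 s, P (φ x) = 0) {t : ℂ} (ht : t ∈ ball c r) :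
    ∀ᶠ x in 𝓝 t, P (φ x) = 0 := by
  have hd : DifferentiableOn ℂ (fun x => P (φ x)) (ball c r) := fun x hx =>
    (DifferentiableAt.comp x (hP (φ x)) (leaves1_differentiableAt hφ hx)).differentiableWithinAt
  have ha : AnalyticOnNhd ℂ (fun x => P (φ x)) (ball c r) := hd.analyticOnNhd isOpen_ball
  have h1 := ha.eqOn_zero_of_preconnected_of_eventuallyEq_zero
    (convex_ball c r).isPreconnected hs h
  filter_upwards [isOpen_ball.eventually_mem ht] with x hx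
  exact h1 hx

/-- on a leaf containing a point with `P ≠ 0` the zeros of `P` are isolated -/
theorem leaf_isolated {P Q : ℂ × ℂ → ℂ} (hP : Differentiable ℂ P) (hQ : Differentiable ℂ Q)
    {p : ℂ × ℂ} (hp : P p ≠ 0) {φ : ℂ → ℂ × ℂ} {c : ℂ} {r : ℝ} (hφ : IsLeafDisc P Q φ c r)
    (hL : φ '' ball c r ⊆ Leaf P Q p) {s : ℂ} (hs : s ∈ ball c r) :
    ∀ᶠ s' in 𝓝[≠] s, P (φ s') ≠ 0 := by
  have hd : DifferentiableOn ℂ (fun x => P (φ x)) (ball c r) := fun x hx =>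
    (DifferentiableAt.comp x (hP (φ x)) (leaves1_differentiableAt hφ hx)).differentiableWithinAt
  rcases (hd.analyticAt (isOpen_ball.mem_nhds hs)).eventually_eq_zero_or_eventually_ne_zero
    with h0 | h0
  · exfalso
    -- the property that is propagated along the leaf
    have key : ∀ q, Leaf P Q p q → (∃ (ψ : ℂ → ℂ × ℂ) (c' : ℂ) (r' : ℝ) (t : ℂ),
        IsLeafDisc P Q ψ c' r' ∧ t ∈ ball c' r' ∧ ψ t = q ∧ ∀ᶠ x in 𝓝 t, P (ψ x) = 0) →
        ∃ (ψ : ℂ → ℂ × ℂ) (c' : ℂ) (r' : ℝ) (t : ℂ),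
        IsLeafDisc P Q ψ c' r' ∧ t ∈ ball c' r' ∧ ψ t = p ∧ ∀ᶠ x in 𝓝 t, P (ψ x) = 0 := by
      intro q hq
      have hq' : Relation.ReflTransGen
        (fun x y => ∃ φ c r, IsLeafDisc P Q φ c r ∧ x ∈ φ '' ball c r ∧ y ∈ φ '' ball c r) p q :=
        hq
      clear hq
      induction hq' with
      | refl => exact id
      | tail _ hbc ih =>
        rename_i b q'
        rintro ⟨ψ, c', r', t, hψ, ht, htq, hev⟩
        apply ih
        obtain ⟨φ', c'', r'', hφ', ⟨u, hu, hub⟩, ⟨v, hv, hvq⟩⟩ := hbc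
        obtain ⟨θ, a, -, h1, h2, h3⟩ := leafDisc_reparam hP hQ hψ hφ' ht hv (htq.trans hvq.symm)
        have h4 : ∀ᶠ x in 𝓝 v, P (φ' x) = 0 := by
          have h5 : Tendsto θ (𝓝 v) (𝓝 t) := by
            have := h1.hasDerivAt.continuousAt
            rwa [ContinuousAt, h2] at this
          filter_upwards [h3, h5.eventually hev] with x hx hx'
          rw [hx]
          exact hx'
        exact ⟨φ', c'', r'', u, hφ', hu, hub, leaves1_vanish hP hφ' hv h4 hu⟩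
    obtain ⟨ψ, c', r', t, -, -, htp, hev⟩ := key (φ s) (hL ⟨s, hs, rfl⟩) ⟨φ, c, r, s, hφ, hs, rfl, h0⟩
    have := hev.self_of_nhds
    rw [htp] at this
    exact hp this
  · exact h0

theorem leaves1_exists {P Q : ℂ × ℂ → ℂ} (hP : Differentiable ℂ P) (hQ : Differentiable ℂ Q)
    {p : ℂ × ℂ} (hp : P p ≠ 0) : ∃ (φ : ℂ → ℂ × ℂ) (r : ℝ), 0 < r ∧
      IsLeafDisc P Q φ 0 r ∧ φ 0 = p := by
  obtain ⟨r, hr, F, hF, hF0⟩ := exists_flow_local hP hQ hp
  refine ⟨fun ζ => (p.1 + ζ, F (p.1 + ζ, p)), r, hr, ?_, ?_⟩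
  · intro s hs
    have hy : ((p.1 + s, p) : ℂ × ℂ × ℂ) ∈ ball (p.1, p) r := by
      have h1 : dist ((p.1 + s, p) : ℂ × ℂ × ℂ) (p.1, p) = ‖s‖ := by
        simp [Prod.dist_eq]
      rw [mem_ball, h1]
      simpa using hs
    obtain ⟨h1, h2⟩ := hF.2 _ hy
    simp only at h1 h2
    refine ⟨fun hcon => h1 ?_, (P (p.1 + s, F (p.1 + s, p)))⁻¹, inv_ne_zero h1, ?_⟩
    · simpa using (Prod.mk_eq_zero.1 hcon).1
    · have h3 : HasDerivAt (fun ζ : ℂ => p.1 + ζ) 1 s := by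
        simpa using (hasDerivAt_id s).const_add p.1
      have h4 := h2.comp s h3
      have h5 := h3.prodMk h4
      have h6 : (P (p.1 + s, F (p.1 + s, p)))⁻¹ • (P (p.1 + s, F (p.1 + s, p)),
          Q (p.1 + s, F (p.1 + s, p))) = ((1 : ℂ),
            Q (p.1 + s, F (p.1 + s, p)) / P (p.1 + s, F (p.1 + s, p)) * 1) := by
        rw [Prod.smul_mk, smul_eq_mul, smul_eq_mul, inv_mul_cancel₀ h1]
        refine Prod.ext rfl ?_
        field_simp
      rw [h6]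
      exact h5
  · simp only [add_zero]
    exact Prod.ext rfl (hF0 p (mem_ball_self hr))

/-- through every nonsingular point there is a leaf disc -/
theorem exists_leafDisc {P Q : ℂ × ℂ → ℂ} (hP : Differentiable ℂ P) (hQ : Differentiable ℂ Q)
    {p : ℂ × ℂ} (hp : (P p, Q p) ≠ 0) : ∃ (φ : ℂ → ℂ × ℂ) (r : ℝ), 0 < r ∧
      IsLeafDisc P Q φ 0 r ∧ φ 0 = p := by
  by_cases hPs : P p = 0
  · have hQs : Q p ≠ 0 := by
      intro hcon
      exact hp (by simp [hPs, hcon])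
    have hsw : Differentiable ℂ (Prod.swap : ℂ × ℂ → ℂ × ℂ) :=
      differentiable_snd.prodMk differentiable_fst
    obtain ⟨φ, r, hr, h1, h2⟩ := leaves1_exists (P := fun q => Q q.swap) (Q := fun q => P q.swap)
      (hQ.comp hsw) (hP.comp hsw) (p := p.swap) (by simpa using hQs)
    refine ⟨fun x => (φ x).swap, r, hr, ?_, by simp only [h2, Prod.swap_swap]⟩
    have h3 := leaves1_swap h1
    simpa using h3
  · exact leaves1_exists hP hQ hPs

end Pool.Agent.ParLeaf
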