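import Pool.Agent.H.MP_3a36cd_an.Surf2
import Pool.Agent.H.MP_3a36cd_an.Planar2
import Pool.Agent.H.MP_3a36cd_an.NormChange

/-! MP_3a36cd_an, module LiouPlane: planar estimates for the module Liouville. -/

open Set Metric Filter Topology Complex MeasureTheory Real
open scoped ContDiff ENNReal

namespace Pool.Agent.ParLeaf

/-! ### planar estimates -/

theorem liou_cs {α : Type*} [MeasurableSpace α] (μ : Measure α) {h k : α → ℝ≥0∞}
    (hh : AEMeasurable h μ) (hk : AEMeasurable k μ) :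
    (∫⁻ x, h x * k x ∂μ) ^ 2 ≤ (∫⁻ x, h x ^ 2 ∂μ) * (∫⁻ x, k x ^ 2 ∂μ) := by
  have h1 := ENNReal.lintegral_mul_le_Lp_mul_Lq μ Real.HolderConjugate.two_two hh hk
  have h2 : (∫⁻ x, h x * k x ∂μ) ^ 2 ≤
      ((∫⁻ x, h x ^ (2 : ℝ) ∂μ) ^ (1 / (2 : ℝ)) * (∫⁻ x, k x ^ (2 : ℝ) ∂μ) ^ (1 / (2 : ℝ))) ^ 2 :=
    pow_le_pow_left' h1 2
  refine h2.trans (le_of_eq ?_)
  have h3 : ∀ a : ℝ≥0∞, (a ^ (1 / (2 : ℝ))) ^ 2 = a := fun a => by
    rw [← ENNReal.rpow_natCast, ← ENNReal.rpow_mul]; norm_num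
  rw [mul_pow, h3, h3]
  simp only [ENNReal.rpow_ofNat]

theorem liou_lsq {α : Type*} [MeasurableSpace α] (μ : Measure α) {h : α → ℝ≥0∞}
    (hh : AEMeasurable h μ) :
    (∫⁻ x, h x ∂μ) ^ 2 ≤ μ univ * (∫⁻ x, h x ^ 2 ∂μ) := by
  have := liou_cs μ (h := fun _ => 1) aemeasurable_const hh
  simpa using this

theorem liou_seg1 {f : ℂ → ℂ} (hf : ContDiff ℝ 1 f) (x w : ℂ) :
    ‖f (x + w) - f x‖ₑ ≤ ‖w‖ₑ * ∫⁻ t in Icc (0 : ℝ) 1, ‖fderiv ℝ f (x + (t : ℂ) * w)‖ₑ := by
  have hd : ∀ t ∈ uIcc (0 : ℝ) 1, HasDerivAt (fun t : ℝ => f (x + (t : ℂ) * w))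
      (fderiv ℝ f (x + (t : ℂ) * w) w) t := by
    intro t _
    have h1 : HasFDerivAt f (fderiv ℝ f (x + (t : ℂ) * w)) (x + (t : ℂ) * w) :=
      (hf.differentiable (by norm_num) _).hasFDerivAt
    have h2 : HasDerivAt (fun t : ℝ => x + (t : ℂ) * w) w t := by
      have := ((Complex.ofRealCLM.hasDerivAt (x := t)).mul_const w).const_add x
      simpa using this
    exact h1.comp_hasDerivAt t h2
  have hc : Continuous (fun t : ℝ => fderiv ℝ f (x + (t : ℂ) * w)) :=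
    (hf.continuous_fderiv (by norm_num)).comp (by fun_prop)
  have hi : IntervalIntegrable (fun t : ℝ => fderiv ℝ f (x + (t : ℂ) * w) w) volume 0 1 :=
    (hc.clm_apply continuous_const).intervalIntegrable _ _
  have h3 := intervalIntegral.integral_eq_sub_of_hasDerivAt hd hi
  simp only [ofReal_one, one_mul, ofReal_zero, zero_mul, add_zero] at h3
  rw [← h3, intervalIntegral.integral_of_le zero_le_one]
  calc ‖∫ t in Ioc (0 : ℝ) 1, fderiv ℝ f (x + (t : ℂ) * w) w‖ₑ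
      ≤ ∫⁻ t in Ioc (0 : ℝ) 1, ‖fderiv ℝ f (x + (t : ℂ) * w) w‖ₑ :=
        enorm_integral_le_lintegral_enorm _
    _ ≤ ∫⁻ t in Icc (0 : ℝ) 1, ‖fderiv ℝ f (x + (t : ℂ) * w) w‖ₑ :=
        lintegral_mono_set Ioc_subset_Icc_self
    _ ≤ ∫⁻ t in Icc (0 : ℝ) 1, ‖w‖ₑ * ‖fderiv ℝ f (x + (t : ℂ) * w)‖ₑ := by
        refine lintegral_mono fun t => ?_
        exact ((fderiv ℝ f (x + (t : ℂ) * w)).le_opENorm w).trans (le_of_eq (mul_comm _ _))
    _ = _ := by
        rw [lintegral_const_mul]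
        exact hc.enorm.measurable

theorem liou_seg2 {f : ℂ → ℂ} (hf : ContDiff ℝ 1 f) (x w : ℂ) :
    ‖f (x + w) - f x‖ₑ ^ 2 ≤
      ‖w‖ₑ ^ 2 * ∫⁻ t in Icc (0 : ℝ) 1, ‖fderiv ℝ f (x + (t : ℂ) * w)‖ₑ ^ 2 := by
  have hc : Continuous (fun t : ℝ => fderiv ℝ f (x + (t : ℂ) * w)) :=
    (hf.continuous_fderiv (by norm_num)).comp (by fun_prop)
  have h1 := pow_le_pow_left' (liou_seg1 hf x w) 2
  rw [mul_pow] at h1
  refine h1.trans ?_
  gcongr
  have h2 := liou_lsq (volume.restrict (Icc (0 : ℝ) 1)) (h := fun t : ℝ => ‖fderiv ℝ f (x + (t : ℂ) * w)‖ₑ)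
    hc.enorm.measurable.aemeasurable
  simpa using h2


/-- averages against the bump -/
noncomputable def liou_avg (ρ : ℝ) (f : ℂ → ℂ) (a : ℂ) : ℂ := ∫ ζ : ℂ, (chi ζ : ℂ) * f (a + (ρ : ℂ) * ζ)

theorem liou_chi_zero {ζ : ℂ} (h : 1 ≤ ‖ζ‖) : chi ζ = 0 :=
  chi_eq_zero (Or.inr (by nlinarith [norm_nonneg ζ]))

theorem liou_chi_cs : HasCompactSupport chi :=
  HasCompactSupport.intro (isCompact_closedBall (0 : ℂ) 1) fun ζ hζ =>
    liou_chi_zero (by simpa using (not_le.1 (fun h => hζ (mem_closedBall_zero_iff.2 h))).le)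

theorem liou_chi_bound : ∃ M : ℝ, 0 < M ∧ ∀ ζ, chi ζ ≤ M := by
  obtain ⟨C, hC⟩ := contDiff_chi.continuous.bounded_above_of_compact_support liou_chi_cs
  exact ⟨max C 1, by positivity, fun ζ => (le_abs_self _).trans ((hC ζ).trans (le_max_left _ _))⟩

theorem liou_chi_int : Integrable chi :=
  contDiff_chi.continuous.integrable_of_hasCompactSupport liou_chi_cs

theorem liou_chi_lint : ∫⁻ ζ : ℂ, ENNReal.ofReal (chi ζ) = 1 := by
  rw [← ofReal_integral_eq_lintegral_ofReal liou_chi_int (ae_of_all _ chi_nonneg), integral_chi]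
  simp

theorem liou_chi_meas : Measurable (fun ζ : ℂ => ENNReal.ofReal (chi ζ)) :=
  contDiff_chi.continuous.measurable.ennreal_ofReal

/-- L¹ estimate of the integral of a nonnegative function against the rescaled bump -/
theorem liou_chi_l1 {M : ℝ} (hM : ∀ ζ, chi ζ ≤ M) {ρ : ℝ} (hρ : 0 < ρ) {h : ℂ → ℝ≥0∞}
    (hh : Measurable h) (a : ℂ) {S : ℝ} (hS : ‖a‖ + ρ ≤ S) :
    ∫⁻ ζ : ℂ, ENNReal.ofReal (chi ζ) * h (a + (ρ : ℂ) * ζ) ≤
      ENNReal.ofReal (M / ρ ^ 2) * ∫⁻ x in ball (0 : ℂ) S, h x := by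
  have h1 : ∀ ζ : ℂ, ENNReal.ofReal (chi ζ) * h (a + (ρ : ℂ) * ζ) ≤
      ENNReal.ofReal M * (ball (0 : ℂ) S).indicator h (a + (ρ : ℂ) * ζ) := by
    intro ζ
    by_cases hζ : 1 ≤ ‖ζ‖
    · rw [liou_chi_zero hζ]; simp
    · push Not at hζ
      have : a + (ρ : ℂ) * ζ ∈ ball (0 : ℂ) S := by
        rw [mem_ball_zero_iff]
        calc ‖a + (ρ : ℂ) * ζ‖ ≤ ‖a‖ + ‖(ρ : ℂ) * ζ‖ := norm_add_le _ _
          _ = ‖a‖ + ρ * ‖ζ‖ := by rw [norm_mul]; simp [abs_of_pos hρ]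
          _ < ‖a‖ + ρ := by nlinarith
          _ ≤ S := hS
      rw [indicator_of_mem this]
      gcongr
      exact hM ζ
  calc ∫⁻ ζ : ℂ, ENNReal.ofReal (chi ζ) * h (a + (ρ : ℂ) * ζ)
      ≤ ∫⁻ ζ : ℂ, ENNReal.ofReal M * (ball (0 : ℂ) S).indicator h (a + (ρ : ℂ) * ζ) :=
        lintegral_mono h1
    _ = ENNReal.ofReal M * ∫⁻ ζ : ℂ, (ball (0 : ℂ) S).indicator h (a + (ρ : ℂ) * ζ) := by
        rw [lintegral_const_mul]
        exact (hh.indicator measurableSet_ball).comp (by fun_prop)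
    _ = ENNReal.ofReal M * (ENNReal.ofReal (1 / ρ ^ 2) * ∫⁻ x : ℂ, (ball (0 : ℂ) S).indicator h x) := by
        congr 1
        have h2 : Measure.map (fun ζ : ℂ => (ρ : ℂ) * ζ) volume = ENNReal.ofReal (1 / ρ ^ 2) • volume := by
          have := Measure.map_addHaar_smul (volume : Measure ℂ) (r := ρ) hρ.ne'
          simp only [Complex.finrank_real_complex] at this
          rw [abs_of_pos (by positivity)] at this
          simpa [one_div, Complex.real_smul, Function.comp_def] using this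
        have h3 : ∫⁻ ζ : ℂ, (ball (0 : ℂ) S).indicator h (a + (ρ : ℂ) * ζ) =
            ∫⁻ x, (ball (0 : ℂ) S).indicator h (a + x) ∂(Measure.map (fun ζ : ℂ => (ρ : ℂ) * ζ) volume) := by
          rw [lintegral_map]
          · exact (hh.indicator measurableSet_ball).comp (by fun_prop)
          · fun_prop
        rw [h3, h2, lintegral_smul_measure, lintegral_add_left_eq_self (μ := (volume : Measure ℂ))
          (fun x => (ball (0 : ℂ) S).indicator h x) a, smul_eq_mul]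
    _ = _ := by
        rw [lintegral_indicator measurableSet_ball, ← mul_assoc, ← ENNReal.ofReal_mul']
        · congr 2; ring
        · positivity

theorem liou_avg_int {f : ℂ → ℂ} (hf : Continuous f) (ρ : ℝ) (a : ℂ) :
    Integrable (fun ζ : ℂ => (chi ζ : ℂ) * f (a + (ρ : ℂ) * ζ)) := by
  refine Continuous.integrable_of_hasCompactSupport ?_ ?_
  · exact (continuous_ofReal.comp contDiff_chi.continuous).mul (hf.comp (by fun_prop))
  · refine HasCompactSupport.mul_right ?_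
    exact liou_chi_cs.comp_left (g := fun x : ℝ => (x : ℂ)) (by simp)

/-- P1 -/
theorem liou_P1 {M : ℝ} (hM : ∀ ζ, chi ζ ≤ M) {ρ : ℝ} (hρ : 0 < ρ) {f : ℂ → ℂ}
    (hf : ContDiff ℝ 1 f) {a b : ℂ} {S : ℝ} (ha : ‖a‖ + ρ ≤ S) (hb : ‖b‖ + ρ ≤ S) :
    ‖liou_avg ρ f a - liou_avg ρ f b‖ₑ ≤
      ‖a - b‖ₑ * (ENNReal.ofReal (M / ρ ^ 2) * ∫⁻ x in ball (0 : ℂ) S, ‖fderiv ℝ f x‖ₑ) := by
  have hc : Continuous (fderiv ℝ f) := hf.continuous_fderiv (by norm_num)
  have h1 : liou_avg ρ f a - liou_avg ρ f b =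
      ∫ ζ : ℂ, (chi ζ : ℂ) * (f (a + (ρ : ℂ) * ζ) - f (b + (ρ : ℂ) * ζ)) := by
    rw [liou_avg, liou_avg, ← integral_sub (liou_avg_int hf.continuous ρ a) (liou_avg_int hf.continuous ρ b)]
    simp only [mul_sub]
  rw [h1]
  calc ‖∫ ζ : ℂ, (chi ζ : ℂ) * (f (a + (ρ : ℂ) * ζ) - f (b + (ρ : ℂ) * ζ))‖ₑ
      ≤ ∫⁻ ζ : ℂ, ‖(chi ζ : ℂ) * (f (a + (ρ : ℂ) * ζ) - f (b + (ρ : ℂ) * ζ))‖ₑ :=
        enorm_integral_le_lintegral_enorm _
    _ ≤ ∫⁻ ζ : ℂ, ‖a - b‖ₑ * ∫⁻ t in Icc (0 : ℝ) 1, ENNReal.ofReal (chi ζ) *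
          ‖fderiv ℝ f ((b + (t : ℂ) * (a - b)) + (ρ : ℂ) * ζ)‖ₑ := by
        refine lintegral_mono fun ζ => ?_
        rw [enorm_mul, lintegral_const_mul]
        · have h2 := liou_seg1 hf (b + (ρ : ℂ) * ζ) (a - b)
          have e1 : b + (ρ : ℂ) * ζ + (a - b) = a + (ρ : ℂ) * ζ := by ring
          rw [e1] at h2
          have e2 : ‖(chi ζ : ℂ)‖ₑ = ENNReal.ofReal (chi ζ) := by
            rw [← ofReal_norm]; simp [abs_of_nonneg (chi_nonneg ζ)]
          rw [e2]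
          calc ENNReal.ofReal (chi ζ) * ‖f (a + (ρ : ℂ) * ζ) - f (b + (ρ : ℂ) * ζ)‖ₑ
              ≤ ENNReal.ofReal (chi ζ) * (‖a - b‖ₑ * ∫⁻ t in Icc (0 : ℝ) 1,
                ‖fderiv ℝ f (b + (ρ : ℂ) * ζ + (t : ℂ) * (a - b))‖ₑ) := by gcongr
            _ = ‖a - b‖ₑ * (ENNReal.ofReal (chi ζ) * ∫⁻ t in Icc (0 : ℝ) 1,
                ‖fderiv ℝ f (b + (ρ : ℂ) * ζ + (t : ℂ) * (a - b))‖ₑ) := by ring
            _ = _ := by
                congr 3
                funext t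
                congr 2
                ring_nf
        · exact (hc.comp (by fun_prop)).enorm.measurable
    _ = ‖a - b‖ₑ * ∫⁻ ζ : ℂ, ∫⁻ t in Icc (0 : ℝ) 1, ENNReal.ofReal (chi ζ) *
          ‖fderiv ℝ f ((b + (t : ℂ) * (a - b)) + (ρ : ℂ) * ζ)‖ₑ := by
        rw [lintegral_const_mul]
        refine Measurable.lintegral_prod_right' (f := fun p : ℂ × ℝ => ENNReal.ofReal (chi p.1) *
          ‖fderiv ℝ f ((b + (p.2 : ℂ) * (a - b)) + (ρ : ℂ) * p.1)‖ₑ) ?_
        exact (liou_chi_meas.comp measurable_fst).mul (hc.comp (by fun_prop)).enorm.measurable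
    _ = ‖a - b‖ₑ * ∫⁻ t in Icc (0 : ℝ) 1, ∫⁻ ζ : ℂ, ENNReal.ofReal (chi ζ) *
          ‖fderiv ℝ f ((b + (t : ℂ) * (a - b)) + (ρ : ℂ) * ζ)‖ₑ := by
        congr 1
        refine lintegral_lintegral_swap ?_
        exact ((liou_chi_meas.comp measurable_fst).mul (hc.comp (by fun_prop)).enorm.measurable).aemeasurable
    _ ≤ ‖a - b‖ₑ * ∫⁻ _t in Icc (0 : ℝ) 1, ENNReal.ofReal (M / ρ ^ 2) *
          ∫⁻ x in ball (0 : ℂ) S, ‖fderiv ℝ f x‖ₑ := by
        gcongr 1
        refine setLIntegral_mono' measurableSet_Icc fun t ht => ?_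
        refine liou_chi_l1 hM hρ (h := fun x => ‖fderiv ℝ f x‖ₑ) hc.enorm.measurable _ ?_
        have h4 : b + (t : ℂ) * (a - b) = (1 - t : ℝ) • b + t • a := by
          simp only [Complex.real_smul]; push_cast; ring
        rw [h4]
        have h5 := norm_add_le ((1 - t : ℝ) • b) (t • a)
        rw [norm_smul, norm_smul, Real.norm_eq_abs, Real.norm_eq_abs, abs_of_nonneg ht.1,
          abs_of_nonneg (by linarith [ht.2])] at h5
        nlinarith [ht.1, ht.2]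
    _ = _ := by simp

theorem liou_sqchi (a : ℝ≥0∞) : (a ^ (1 / 2 : ℝ)) ^ 2 = a := by
  rw [← ENNReal.rpow_natCast, ← ENNReal.rpow_mul]; norm_num

theorem liou_chi_enorm (ζ : ℂ) : ‖(chi ζ : ℂ)‖ₑ = ENNReal.ofReal (chi ζ) := by
  rw [← ofReal_norm]; simp [abs_of_nonneg (chi_nonneg ζ)]

theorem liou_jensen {F : ℂ → ℂ} (hF : Measurable F) :
    ‖∫ ζ : ℂ, (chi ζ : ℂ) * F ζ‖ₑ ^ 2 ≤ ∫⁻ ζ : ℂ, ENNReal.ofReal (chi ζ) * ‖F ζ‖ₑ ^ 2 := by
  have h4 : ‖∫ ζ : ℂ, (chi ζ : ℂ) * F ζ‖ₑ ≤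
      ∫⁻ ζ : ℂ, (ENNReal.ofReal (chi ζ)) ^ (1 / 2 : ℝ) *
        ((ENNReal.ofReal (chi ζ)) ^ (1 / 2 : ℝ) * ‖F ζ‖ₑ) := by
    refine (enorm_integral_le_lintegral_enorm _).trans (le_of_eq ?_)
    refine lintegral_congr fun ζ => ?_
    have e3 : (ENNReal.ofReal (chi ζ)) ^ (1 / 2 : ℝ) * (ENNReal.ofReal (chi ζ)) ^ (1 / 2 : ℝ) =
        ENNReal.ofReal (chi ζ) := by
      rw [← ENNReal.rpow_add_of_nonneg _ _ (by norm_num) (by norm_num)]
      norm_num
    rw [enorm_mul, liou_chi_enorm, ← mul_assoc, e3]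
  have hm1 : Measurable (fun ζ : ℂ => (ENNReal.ofReal (chi ζ)) ^ (1 / 2 : ℝ)) :=
    liou_chi_meas.pow_const _
  have h5 := (pow_le_pow_left' h4 2).trans
    (liou_cs volume hm1.aemeasurable (hm1.mul hF.enorm).aemeasurable)
  simp only [mul_pow, liou_sqchi, liou_chi_lint, one_mul] at h5
  exact h5

theorem liou_P2a {ρ : ℝ} (hρ : 0 < ρ) {f : ℂ → ℂ} (hf : ContDiff ℝ 1 f) (x : ℂ) :
    ‖f x - liou_avg ρ f x‖ₑ ^ 2 ≤ ENNReal.ofReal (ρ ^ 2) *
      ∫⁻ ζ : ℂ, ENNReal.ofReal (chi ζ) * ∫⁻ t in Icc (0 : ℝ) 1,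
        ‖fderiv ℝ f (x + (t : ℂ) * ((ρ : ℂ) * ζ))‖ₑ ^ 2 := by
  have hc : Continuous (fderiv ℝ f) := hf.continuous_fderiv (by norm_num)
  have h1 : f x - liou_avg ρ f x = -∫ ζ : ℂ, (chi ζ : ℂ) * (f (x + (ρ : ℂ) * ζ) - f x) := by
    have h2 : Integrable (fun ζ : ℂ => (chi ζ : ℂ) * f x) :=
      (liou_chi_int.ofReal (𝕜 := ℂ)).mul_const _
    have h3 : ∫ ζ : ℂ, (chi ζ : ℂ) * f x = f x := by
      rw [integral_mul_const, integral_complex_ofReal, integral_chi]; simp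
    simp only [mul_sub]
    rw [integral_sub (liou_avg_int hf.continuous ρ x) h2, h3, liou_avg]
    ring
  rw [h1, enorm_neg]
  have hm2 : Measurable (fun ζ : ℂ => f (x + (ρ : ℂ) * ζ) - f x) := by
    have : Continuous (fun ζ : ℂ => f (x + (ρ : ℂ) * ζ) - f x) :=
      (hf.continuous.comp (by fun_prop)).sub continuous_const
    exact this.measurable
  refine (liou_jensen hm2).trans ?_
  have hmm : Measurable (fun ζ : ℂ => ENNReal.ofReal (chi ζ) * ∫⁻ t in Icc (0 : ℝ) 1,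
        ‖fderiv ℝ f (x + (t : ℂ) * ((ρ : ℂ) * ζ))‖ₑ ^ 2) := by
    refine liou_chi_meas.mul ?_
    refine Measurable.lintegral_prod_right' (f := fun p : ℂ × ℝ =>
      ‖fderiv ℝ f (x + (p.2 : ℂ) * ((ρ : ℂ) * p.1))‖ₑ ^ 2) ?_
    exact (hc.comp (by fun_prop)).enorm.measurable.pow_const 2
  rw [← lintegral_const_mul _ hmm]
  refine lintegral_mono fun ζ => ?_
  by_cases hζ : 1 ≤ ‖ζ‖
  · simp only [liou_chi_zero hζ, ENNReal.ofReal_zero, zero_mul, zero_le]
  · push Not at hζ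
    have h6 := liou_seg2 hf x ((ρ : ℂ) * ζ)
    have h7 : ‖(ρ : ℂ) * ζ‖ₑ ^ 2 ≤ ENNReal.ofReal (ρ ^ 2) := by
      rw [← ofReal_norm, ← ENNReal.ofReal_pow (norm_nonneg _)]
      refine ENNReal.ofReal_le_ofReal ?_
      rw [norm_mul, mul_pow, norm_real, Real.norm_eq_abs, sq_abs]
      have : ‖ζ‖ ^ 2 ≤ 1 := by nlinarith [norm_nonneg ζ]
      nlinarith [sq_nonneg ρ]
    have h8 := h6.trans (mul_le_mul_left h7 _)
    calc ENNReal.ofReal (chi ζ) * ‖f (x + (ρ : ℂ) * ζ) - f x‖ₑ ^ 2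
        ≤ ENNReal.ofReal (chi ζ) * (ENNReal.ofReal (ρ ^ 2) * ∫⁻ t in Icc (0 : ℝ) 1,
          ‖fderiv ℝ f (x + (t : ℂ) * ((ρ : ℂ) * ζ))‖ₑ ^ 2) := mul_le_mul_right h8 _
      _ = _ := by ring

/-- a Fubini inequality -/
theorem liou_fub {ρ : ℝ} (hρ : 0 < ρ) {h : ℂ → ℝ≥0∞} (hh : Measurable h) {s S : ℝ}
    (hs : s + ρ ≤ S) :
    ∫⁻ x in ball (0 : ℂ) s, ∫⁻ ζ : ℂ, ENNReal.ofReal (chi ζ) * ∫⁻ t in Icc (0 : ℝ) 1,
        h (x + (t : ℂ) * ((ρ : ℂ) * ζ)) ≤ ∫⁻ x in ball (0 : ℂ) S, h x := by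
  have hm0 : Measurable (fun p : (ℂ × ℂ) × ℝ => h (p.1.1 + (p.2 : ℂ) * ((ρ : ℂ) * p.1.2))) :=
    hh.comp (by fun_prop)
  have hm1 : Measurable (fun p : ℂ × ℂ => ∫⁻ t in Icc (0 : ℝ) 1,
      h (p.1 + (t : ℂ) * ((ρ : ℂ) * p.2))) := Measurable.lintegral_prod_right' hm0
  have hm2 : Measurable (fun p : ℂ × ℂ => ENNReal.ofReal (chi p.2) * ∫⁻ t in Icc (0 : ℝ) 1,
      h (p.1 + (t : ℂ) * ((ρ : ℂ) * p.2))) := (liou_chi_meas.comp measurable_snd).mul hm1
  rw [lintegral_lintegral_swap hm2.aemeasurable]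
  have hm3 : ∀ ζ : ℂ, Measurable (fun p : ℂ × ℝ => h (p.1 + (p.2 : ℂ) * ((ρ : ℂ) * ζ))) := fun ζ =>
    hh.comp (by fun_prop)
  have key : ∀ ζ : ℂ, ∫⁻ x in ball (0 : ℂ) s, ENNReal.ofReal (chi ζ) * ∫⁻ t in Icc (0 : ℝ) 1,
        h (x + (t : ℂ) * ((ρ : ℂ) * ζ)) ≤ ENNReal.ofReal (chi ζ) * ∫⁻ x in ball (0 : ℂ) S, h x := by
    intro ζ
    rw [lintegral_const_mul _ (Measurable.lintegral_prod_right' (hm3 ζ))]
    by_cases hζ : 1 ≤ ‖ζ‖
    · simp [liou_chi_zero hζ]
    push Not at hζ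
    refine mul_le_mul_right ?_ _
    rw [lintegral_lintegral_swap (hm3 ζ).aemeasurable]
    calc _ ≤ ∫⁻ _t in Icc (0 : ℝ) 1, ∫⁻ x in ball (0 : ℂ) S, h x := by
          refine setLIntegral_mono' measurableSet_Icc fun t ht => ?_
          have h8 : ‖(t : ℂ) * ((ρ : ℂ) * ζ)‖ ≤ ρ := by
            rw [norm_mul, norm_mul, norm_real, norm_real, Real.norm_eq_abs, Real.norm_eq_abs,
              abs_of_nonneg ht.1, abs_of_pos hρ]
            have h10 : ρ * ‖ζ‖ ≤ ρ := by nlinarith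
            have h9 : 0 ≤ ρ * ‖ζ‖ := by positivity
            nlinarith [ht.1, ht.2]
          rw [← lintegral_indicator measurableSet_ball, ← lintegral_indicator measurableSet_ball,
            ← lintegral_add_right_eq_self (μ := (volume : Measure ℂ))
              (fun x => (ball (0 : ℂ) S).indicator h x) ((t : ℂ) * ((ρ : ℂ) * ζ))]
          refine lintegral_mono fun x => ?_
          by_cases hx : x ∈ ball (0 : ℂ) s
          · have hx' : x + (t : ℂ) * ((ρ : ℂ) * ζ) ∈ ball (0 : ℂ) S := by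
              rw [mem_ball_zero_iff] at hx ⊢
              calc ‖x + (t : ℂ) * ((ρ : ℂ) * ζ)‖ ≤ ‖x‖ + ‖(t : ℂ) * ((ρ : ℂ) * ζ)‖ := norm_add_le _ _
                _ < S := by linarith
            simp only [indicator_of_mem hx, indicator_of_mem hx']
            exact le_rfl
          · simp only [indicator_of_notMem hx]
            exact zero_le
      _ = _ := by simp
  refine (lintegral_mono key).trans (le_of_eq ?_)
  rw [lintegral_mul_const _ liou_chi_meas, liou_chi_lint, one_mul]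

/-- P2 -/
theorem liou_P2 {ρ : ℝ} (hρ : 0 < ρ) {f : ℂ → ℂ} (hf : ContDiff ℝ 1 f) {s S : ℝ} (hs : s + ρ ≤ S) :
    ∫⁻ x in ball (0 : ℂ) s, ‖f x - liou_avg ρ f x‖ₑ ^ 2 ≤
      ENNReal.ofReal (ρ ^ 2) * ∫⁻ x in ball (0 : ℂ) S, ‖fderiv ℝ f x‖ₑ ^ 2 := by
  have hc : Continuous (fderiv ℝ f) := hf.continuous_fderiv (by norm_num)
  have hm : Measurable (fun x => ‖fderiv ℝ f x‖ₑ ^ 2) := hc.enorm.measurable.pow_const 2
  have h1 := liou_fub hρ hm hs
  refine (lintegral_mono fun x => liou_P2a hρ hf x).trans ?_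
  rw [lintegral_const_mul]
  · exact mul_le_mul_right h1 _
  · refine Measurable.lintegral_prod_right' (f := fun p : ℂ × ℂ => ENNReal.ofReal (chi p.2) *
      ∫⁻ t in Icc (0 : ℝ) 1, ‖fderiv ℝ f (p.1 + (t : ℂ) * ((ρ : ℂ) * p.2))‖ₑ ^ 2) ?_
    refine (liou_chi_meas.comp measurable_snd).mul ?_
    exact Measurable.lintegral_prod_right' (f := fun p : (ℂ × ℂ) × ℝ =>
      ‖fderiv ℝ f (p.1.1 + (p.2 : ℂ) * ((ρ : ℂ) * p.1.2))‖ₑ ^ 2) (hm.comp (by fun_prop))

/-! ### mollification in the plane -/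

/-- mollification with the bump -/
noncomputable def liou_moll (ε : ℝ) (V : ℂ → ℝ) (ξ : ℂ) : ℝ := ∫ ζ : ℂ, chi ζ * V (ξ + (ε : ℂ) * ζ)

theorem liou_moll_contDiff {V : ℂ → ℝ} (hV : Integrable V) {ε : ℝ} (hε : 0 < ε) :
    ContDiff ℝ (∞ : WithTop ℕ∞) (liou_moll ε V) := by
  set k : ℂ → ℝ := fun u => (ε ^ 2)⁻¹ * chi (((-ε⁻¹ : ℝ) : ℂ) * u) with hk
  have hkc : ContDiff ℝ (∞ : WithTop ℕ∞) k := by
    refine contDiff_const.mul (contDiff_chi.comp ?_)
    exact contDiff_const.mul contDiff_id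
  have hks : HasCompactSupport k := by
    refine HasCompactSupport.intro (isCompact_closedBall (0 : ℂ) ε) fun u hu => ?_
    have hu' : ε < ‖u‖ := by
      rw [mem_closedBall_zero_iff] at hu
      exact not_le.1 hu
    simp only [hk]
    rw [liou_chi_zero, mul_zero]
    rw [norm_mul, norm_real, Real.norm_eq_abs, abs_neg, abs_of_pos (by positivity)]
    rw [inv_mul_eq_div, le_div_iff₀ hε]
    linarith
  have h1 : liou_moll ε V = MeasureTheory.convolution V k (ContinuousLinearMap.lsmul ℝ ℝ) volume := by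
    funext ξ
    have h2 : ∫ ζ : ℂ, chi ζ * V (ξ + (ε : ℂ) * ζ) =
        ∫ ζ : ℂ, (fun t : ℂ => chi (((ε⁻¹ : ℝ) : ℂ) * t) * V (ξ + t)) (ε • ζ) := by
      refine integral_congr_ae (ae_of_all _ fun ζ => ?_)
      simp only [Complex.real_smul]
      congr 2
      rw [← mul_assoc, ← ofReal_mul, inv_mul_cancel₀ hε.ne']
      simp
    have h3 : ∫ t : ℂ, chi (((ε⁻¹ : ℝ) : ℂ) * t) * V (ξ + t) =
        ∫ t : ℂ, chi (((-ε⁻¹ : ℝ) : ℂ) * (ξ - t)) * V t := by
      rw [← integral_add_left_eq_self (μ := (volume : Measure ℂ))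
        (fun t : ℂ => chi (((-ε⁻¹ : ℝ) : ℂ) * (ξ - t)) * V t) ξ]
      refine integral_congr_ae (ae_of_all _ fun t => ?_)
      simp only
      congr 2
      push_cast
      ring
    have h5 := Measure.integral_comp_smul (volume : Measure ℂ)
      (fun t : ℂ => chi (((ε⁻¹ : ℝ) : ℂ) * t) * V (ξ + t)) ε
    rw [liou_moll, h2, h5, h3, Complex.finrank_real_complex,
      abs_of_pos (by positivity), smul_eq_mul, ← integral_const_mul]
    simp only [MeasureTheory.convolution, ContinuousLinearMap.lsmul_apply, smul_eq_mul, hk]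
    refine integral_congr_ae (ae_of_all _ fun t => ?_)
    simp only
    ring
  rw [h1]
  exact hks.contDiff_convolution_right _ hV.locallyIntegrable hkc

theorem liou_circ_int {f : ℂ → ℝ} (hf : Measurable f) {C : ℝ} (hC : ∀ x, |f x| ≤ C) (c : ℂ) (r : ℝ) :
    IntervalIntegrable (fun θ => f (circleMap c r θ)) volume 0 (2 * π) := by
  refine (intervalIntegrable_const (c := C)).mono_fun' ?_ (ae_of_all _ fun θ => ?_)
  · exact (hf.comp (by fun_prop : Continuous (circleMap c r)).measurable).aestronglyMeasurable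
  · show ‖f (circleMap c r θ)‖ ≤ C
    rw [Real.norm_eq_abs]; exact hC _

theorem liou_two_le : (2 : WithTop ℕ∞) ≤ (∞ : WithTop ℕ∞) := WithTop.coe_le_coe.2 (le_top : (2:ℕ∞) ≤ ⊤)
theorem liou_three_le : (3 : WithTop ℕ∞) ≤ (∞ : WithTop ℕ∞) := WithTop.coe_le_coe.2 (le_top : (3:ℕ∞) ≤ ⊤)
theorem liou_oneone_le : (1 : WithTop ℕ∞) + 1 ≤ (∞ : WithTop ℕ∞) :=
  WithTop.coe_le_coe.2 (le_top : (1:ℕ∞) + 1 ≤ ⊤)
theorem liou_one_le : (1 : WithTop ℕ∞) ≤ (∞ : WithTop ℕ∞) := WithTop.coe_le_coe.2 (le_top : (1:ℕ∞) ≤ ⊤)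

/-- a smooth function with the sub-mean property has nonnegative Laplacian -/
theorem liou_levi_nonneg {W : ℂ → ℝ} (hW : ContDiff ℝ (∞ : WithTop ℕ∞) W) {x : ℂ} {s₀ : ℝ} (hs₀ : 0 < s₀)
    (h : ∀ s, 0 < s → s < s₀ → W x ≤ circleAverage W x s) : 0 ≤ plevi 1 W x := by
  by_contra hneg
  push Not at hneg
  set c : ℝ := -plevi 1 W x / 2 with hc
  have hcpos : 0 < c := by rw [hc]; linarith
  set q : ℂ → ℝ := fun z => -W z - c * ‖z - x‖ ^ 2 with hq
  have hn : ContDiff ℝ (∞ : WithTop ℕ∞) (fun z : ℂ => ‖z - x‖ ^ 2) := by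
    exact (contDiff_id.sub contDiff_const).norm_sq ℝ
  have hqs : ContDiff ℝ (∞ : WithTop ℕ∞) q := hW.neg.sub (contDiff_const.mul hn)
  have hWl : ∀ z, plevi 1 W z = (fderiv ℝ (fderiv ℝ W) z 1 1 +
      fderiv ℝ (fderiv ℝ W) z I I) / 4 := by
    intro z
    have := plevi_eq (ρ := W) (x := z) (hW.of_le liou_two_le).contDiffAt 1
    simpa using this
  have hql : ∀ z, plevi 1 q z = -plevi 1 W z - c := by
    intro z
    have hq1 : fderiv ℝ q = fun z => -fderiv ℝ W z - c • (2 • (innerSL ℝ (z - x))) := by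
      funext z
      have h1 : HasFDerivAt W (fderiv ℝ W z) z :=
        (hW.differentiable (by simp) z).hasFDerivAt
      have h2 : HasFDerivAt (fun z : ℂ => ‖z - x‖ ^ 2) (2 • (innerSL ℝ (z - x))) z := by
        have := (((hasFDerivAt_id (𝕜 := ℝ) z).sub_const x)).norm_sq
        simpa using this
      exact (h1.neg.sub (h2.const_mul c)).fderiv
    have hq2 : HasFDerivAt (fderiv ℝ q) (-fderiv ℝ (fderiv ℝ W) z - c • (2 • (innerSL ℝ))) z := by
      rw [hq1]
      have h1 : HasFDerivAt (fderiv ℝ W) (fderiv ℝ (fderiv ℝ W) z) z := by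
        have h3 : ContDiff ℝ 1 (fderiv ℝ W) := hW.fderiv_right (m := 1) liou_oneone_le
        exact (h3.differentiable (by norm_num) z).hasFDerivAt
      have h2 : HasFDerivAt (fun z : ℂ => innerSL ℝ (z - x)) (innerSL ℝ (E := ℂ)) z := by
        exact (innerSL ℝ (E := ℂ)).hasFDerivAt.comp z ((hasFDerivAt_id (𝕜 := ℝ) z).sub_const x)
      exact h1.neg.sub ((h2.const_smul (2 : ℕ)).const_smul c)
    have hq3 := plevi_eq (ρ := q) (x := z) (hqs.of_le liou_two_le).contDiffAt 1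
    rw [hq2.fderiv] at hq3
    have i1 : (innerSL ℝ (1 : ℂ)) 1 = 1 := by
      rw [innerSL_apply_apply, real_inner_self_eq_norm_sq]; simp
    have i2 : (innerSL ℝ (I : ℂ)) I = 1 := by
      rw [innerSL_apply_apply, real_inner_self_eq_norm_sq]; simp
    rw [hq3, hWl]
    simp [i1, i2]
    ring
  have hcont : Continuous (fun z => plevi 1 W z) := by
    have h2 : Continuous (fderiv ℝ (fderiv ℝ W)) := by
      have h3 : ContDiff ℝ 1 (fderiv ℝ W) := hW.fderiv_right (m := 1) liou_oneone_le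
      exact h3.continuous_fderiv (by norm_num)
    simp only [hWl]
    fun_prop
  have hev : ∀ᶠ z in 𝓝 x, plevi 1 W z < -c := by
    refine (hcont.tendsto x).eventually_lt_const ?_
    rw [hc]; linarith
  obtain ⟨s₁, hs₁, hball⟩ := Metric.eventually_nhds_iff_ball.1 hev
  have hsub := subharmonicOn_of_contDiff (v := q) (Ω := ball x s₁) isOpen_ball
    (fun z _ => (hqs.of_le liou_three_le).contDiffAt)
    (fun z hz => by rw [hql]; linarith [hball z hz])
  set s := min s₀ s₁ / 2 with hs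
  have hspos : 0 < s := by positivity
  have h1 := hsub.2 x s hspos (closedBall_subset_ball (by
    have := min_le_right s₀ s₁
    have h0 : 0 < min s₀ s₁ := by positivity
    rw [hs]; linarith))
  have h2 := h s hspos (by
    have := min_le_left s₀ s₁
    have h0 : 0 < min s₀ s₁ := by positivity
    rw [hs]; linarith)
  have h3 : circleAverage q x s = -circleAverage W x s - c * s ^ 2 := by
    have e1 : circleAverage q x s = circleAverage (fun z => -W z - c * s ^ 2) x s := by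
      refine circleAverage_congr_sphere fun z hz => ?_
      simp only [hq]
      rw [mem_sphere_iff_norm, abs_of_pos hspos] at hz
      rw [hz]
    rw [e1, circleAverage_fun_sub, circleAverage_const]
    · congr 1
      rw [circleAverage, circleAverage]
      simp
    · exact (hW.continuous.neg.continuousOn).circleIntegrable hspos.le
    · exact (continuous_const.continuousOn).circleIntegrable hspos.le
  have h4 : q x = -W x := by simp [hq]
  rw [h3, h4] at h1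
  nlinarith [sq_nonneg s, mul_pos hcpos (pow_pos hspos 2)]


/-- sub-mean inequality for the mollification -/
theorem liou_moll_submean {V : ℂ → ℝ} (hm : Measurable V) {C : ℝ} (hC : ∀ x, |V x| ≤ C) {S : ℝ}
    (hsub : ∀ c r, 0 < r → closedBall c r ⊆ ball 0 S → V c ≤ circleAverage V c r)
    {ε : ℝ} (hε : 0 < ε) {ξ : ℂ} {s : ℝ} (hs : 0 < s) (h : ‖ξ‖ + ε + s < S) :
    liou_moll ε V ξ ≤ circleAverage (liou_moll ε V) ξ s := by
  have hm2 : Measurable (fun p : ℝ × ℂ => chi p.2 * V (circleMap (ξ + (ε : ℂ) * p.2) s p.1)) := by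
    refine (contDiff_chi.continuous.measurable.comp measurable_snd).mul (hm.comp ?_)
    refine Continuous.measurable ?_
    simp only [circleMap]
    fun_prop
  have hint : Integrable (fun p : ℝ × ℂ => chi p.2 * V (circleMap (ξ + (ε : ℂ) * p.2) s p.1))
      ((volume.restrict (uIoc 0 (2 * π))).prod volume) := by
    have h1 : Integrable (fun p : ℝ × ℂ => C * chi p.2) ((volume.restrict (uIoc 0 (2 * π))).prod volume) := by
      have : Integrable (fun p : ℝ × ℂ => (1 : ℝ) * chi p.2)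
          ((volume.restrict (uIoc 0 (2 * π))).prod volume) := by
        refine Integrable.mul_prod (f := fun _ : ℝ => (1 : ℝ)) (g := chi) ?_ liou_chi_int
        rw [uIoc_of_le (by positivity)]
        exact integrable_const _
      simpa using this.const_mul C
    refine h1.mono' hm2.aestronglyMeasurable (ae_of_all _ fun p => ?_)
    rw [Real.norm_eq_abs, abs_mul, abs_of_nonneg (chi_nonneg _), mul_comm]
    exact mul_le_mul_of_nonneg_right (hC _) (chi_nonneg _)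
  have h2 : circleAverage (liou_moll ε V) ξ s =
      ∫ ζ : ℂ, chi ζ * circleAverage V (ξ + (ε : ℂ) * ζ) s := by
    rw [circleAverage]
    have h3 : ∀ θ : ℝ, liou_moll ε V (circleMap ξ s θ) =
        ∫ ζ : ℂ, chi ζ * V (circleMap (ξ + (ε : ℂ) * ζ) s θ) := by
      intro θ
      rw [liou_moll]
      refine integral_congr_ae (ae_of_all _ fun ζ => ?_)
      simp only [circleMap]
      congr 2
      ring
    simp only [h3]
    rw [intervalIntegral_integral_swap hint, smul_eq_mul, ← integral_const_mul]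
    refine integral_congr_ae (ae_of_all _ fun ζ => ?_)
    simp only [circleAverage, smul_eq_mul, intervalIntegral.integral_const_mul]
    ring
  rw [h2, liou_moll]
  have hav : ∀ c, |circleAverage V c s| ≤ C := by
    intro c
    rw [abs_le]
    constructor
    · have := circleAverage_mono (c := c) (R := s) (f₁ := fun _ => -C) (f₂ := V)
        (by exact (continuous_const.continuousOn).circleIntegrable hs.le) (liou_circ_int hm hC c s)
        (fun x _ => (abs_le.1 (hC x)).1)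
      rwa [circleAverage_const] at this
    · have := circleAverage_mono (c := c) (R := s) (f₁ := V) (f₂ := fun _ => C)
        (liou_circ_int hm hC c s) (by exact (continuous_const.continuousOn).circleIntegrable hs.le)
        (fun x _ => (abs_le.1 (hC x)).2)
      rwa [circleAverage_const] at this
  refine integral_mono_ae ?_ ?_ (ae_of_all _ fun ζ => ?_)
  · refine (liou_chi_int.const_mul C).mono' ?_ (ae_of_all _ fun ζ => ?_)
    · exact (contDiff_chi.continuous.measurable.mul (hm.comp (by fun_prop))).aestronglyMeasurable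
    · rw [Real.norm_eq_abs, abs_mul, abs_of_nonneg (chi_nonneg _), mul_comm]
      exact mul_le_mul_of_nonneg_right (hC _) (chi_nonneg _)
  · have h5 := hint.integral_prod_right
    refine ((h5.const_mul ((2 * π)⁻¹)).congr (ae_of_all _ fun ζ => ?_))
    simp only [circleAverage, smul_eq_mul]
    rw [integral_const_mul, intervalIntegral.integral_of_le (by positivity),
      uIoc_of_le (by positivity)]
    ring
  · simp only
    by_cases hζ : 1 ≤ ‖ζ‖
    · simp [liou_chi_zero hζ]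
    · push Not at hζ
      refine mul_le_mul_of_nonneg_left (hsub _ _ hs ?_) (chi_nonneg _)
      intro x hx
      rw [mem_closedBall_iff_norm] at hx
      rw [mem_ball_zero_iff]
      have h6 : ‖(ε : ℂ) * ζ‖ ≤ ε := by
        rw [norm_mul, norm_real, Real.norm_eq_abs, abs_of_pos hε]
        nlinarith
      calc ‖x‖ = ‖(x - (ξ + (ε : ℂ) * ζ)) + (ξ + (ε : ℂ) * ζ)‖ := by congr 1; ring
        _ ≤ ‖x - (ξ + (ε : ℂ) * ζ)‖ + ‖ξ + (ε : ℂ) * ζ‖ := norm_add_le _ _
        _ ≤ s + (‖ξ‖ + ‖(ε : ℂ) * ζ‖) := add_le_add hx (norm_add_le _ _)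
        _ < S := by linarith

/-- the value is below the mollification -/
theorem liou_le_moll {V : ℂ → ℝ} (hm : Measurable V) {C : ℝ} (hC : ∀ x, |V x| ≤ C) {S : ℝ}
    (hsub : ∀ c r, 0 < r → closedBall c r ⊆ ball 0 S → V c ≤ circleAverage V c r)
    {ε : ℝ} (hε : 0 < ε) {ξ : ℂ} (h : ‖ξ‖ + ε < S) :
    V ξ ≤ liou_moll ε V ξ := by
  have hm2 : Measurable (fun p : ℝ × ℂ => chi p.2 * V (ξ + (ε : ℂ) * (Complex.exp (p.1 * I) * p.2))) := by
    refine (contDiff_chi.continuous.measurable.comp measurable_snd).mul (hm.comp ?_)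
    refine Continuous.measurable ?_
    fun_prop
  have hint : Integrable (fun p : ℝ × ℂ => chi p.2 * V (ξ + (ε : ℂ) * (Complex.exp (p.1 * I) * p.2)))
      ((volume.restrict (uIoc 0 (2 * π))).prod volume) := by
    have h1 : Integrable (fun p : ℝ × ℂ => C * chi p.2) ((volume.restrict (uIoc 0 (2 * π))).prod volume) := by
      have : Integrable (fun p : ℝ × ℂ => (1 : ℝ) * chi p.2)
          ((volume.restrict (uIoc 0 (2 * π))).prod volume) := by
        refine Integrable.mul_prod (f := fun _ : ℝ => (1 : ℝ)) (g := chi) ?_ liou_chi_int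
        rw [uIoc_of_le (by positivity)]
        exact integrable_const _
      simpa using this.const_mul C
    refine h1.mono' hm2.aestronglyMeasurable (ae_of_all _ fun p => ?_)
    rw [Real.norm_eq_abs, abs_mul, abs_of_nonneg (chi_nonneg _), mul_comm]
    exact mul_le_mul_of_nonneg_right (hC _) (chi_nonneg _)
  have hrot : ∀ θ : ℝ, liou_moll ε V ξ =
      ∫ ζ : ℂ, chi ζ * V (ξ + (ε : ℂ) * (Complex.exp (θ * I) * ζ)) := by
    intro θ
    have h1 := (rotation (Circle.exp θ)).measurePreserving.integral_comp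
      (rotation (Circle.exp θ)).toHomeomorph.measurableEmbedding
      (fun η : ℂ => chi η * V (ξ + (ε : ℂ) * η))
    rw [liou_moll, ← h1]
    refine integral_congr_ae (ae_of_all _ fun ζ => ?_)
    simp only [rotation_apply, Circle.coe_exp]
    rw [chi_radial (ζ := Complex.exp (θ * I) * ζ) (ξ := ζ)]
    rw [norm_mul, Complex.norm_exp_ofReal_mul_I, one_mul]
  have hav : ∀ ζ : ℂ, (2 * π)⁻¹ * ∫ θ in (0 : ℝ)..2 * π, V (ξ + (ε : ℂ) * (Complex.exp (θ * I) * ζ)) =
      circleAverage V ξ (ε * ‖ζ‖) := by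
    intro ζ
    rw [circleAverage_eq_integral_add (arg ζ), smul_eq_mul]
    congr 1
    refine intervalIntegral.integral_congr fun θ _ => ?_
    show V _ = V _
    congr 1
    rw [circleMap]
    congr 1
    conv_lhs => rw [← Complex.norm_mul_exp_arg_mul_I ζ]
    push_cast
    rw [add_mul, Complex.exp_add]
    ring
  have h2 : liou_moll ε V ξ = ∫ ζ : ℂ, chi ζ * circleAverage V ξ (ε * ‖ζ‖) := by
    have h3 : liou_moll ε V ξ = (2 * π)⁻¹ * ∫ _θ in (0 : ℝ)..2 * π, liou_moll ε V ξ := by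
      rw [intervalIntegral.integral_const, smul_eq_mul, sub_zero, ← mul_assoc,
        inv_mul_cancel₀ (by positivity), one_mul]
    have h4 : ∫ _θ in (0 : ℝ)..2 * π, liou_moll ε V ξ = ∫ θ in (0 : ℝ)..2 * π,
        ∫ ζ : ℂ, chi ζ * V (ξ + (ε : ℂ) * (Complex.exp (θ * I) * ζ)) :=
      intervalIntegral.integral_congr fun θ _ => hrot θ
    rw [h3, h4, intervalIntegral_integral_swap hint, ← integral_const_mul]
    refine integral_congr_ae (ae_of_all _ fun ζ => ?_)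
    simp only [intervalIntegral.integral_const_mul]
    rw [← hav ζ]
    ring
  have h5 : V ξ = ∫ ζ : ℂ, chi ζ * V ξ := by
    rw [integral_mul_const, integral_chi, one_mul]
  rw [h2]
  conv_lhs => rw [h5]
  refine integral_mono_ae (liou_chi_int.mul_const _) ?_ (ae_of_all _ fun ζ => ?_)
  · have h6 := hint.integral_prod_right
    refine ((h6.const_mul ((2 * π)⁻¹)).congr (ae_of_all _ fun ζ => ?_))
    simp only
    rw [integral_const_mul, ← hav ζ, intervalIntegral.integral_of_le (by positivity),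
      uIoc_of_le (by positivity)]
    ring
  · simp only
    by_cases hζ : 1 ≤ ‖ζ‖
    · simp [liou_chi_zero hζ]
    · push Not at hζ
      by_cases hζ0 : ‖ζ‖ ^ 2 ≤ 1 / 4
      · simp [chi_eq_zero (Or.inl hζ0)]
      · push Not at hζ0
        have hpos : 0 < ‖ζ‖ := by
          by_contra hc
          have : ‖ζ‖ = 0 := le_antisymm (not_lt.1 hc) (norm_nonneg _)
          rw [this] at hζ0
          norm_num at hζ0
        refine mul_le_mul_of_nonneg_left (hsub _ _ (by positivity) ?_) (chi_nonneg _)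
        intro x hx
        rw [mem_closedBall_iff_norm] at hx
        rw [mem_ball_zero_iff]
        calc ‖x‖ = ‖(x - ξ) + ξ‖ := by congr 1; ring
          _ ≤ ‖x - ξ‖ + ‖ξ‖ := norm_add_le _ _
          _ < S := by nlinarith

theorem liou_moll_tendsto {V : ℂ → ℝ} (hm : Measurable V) {C : ℝ} (hC : ∀ x, |V x| ≤ C) {S : ℝ}
    (hsub : ∀ c r, 0 < r → closedBall c r ⊆ ball 0 S → V c ≤ circleAverage V c r)
    (husc : UpperSemicontinuousOn V (ball 0 S)) {ξ : ℂ} (h : ‖ξ‖ < S) :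
    Tendsto (fun ε => liou_moll ε V ξ) (𝓝[>] 0) (𝓝 (V ξ)) := by
  have hξ : ξ ∈ ball (0 : ℂ) S := mem_ball_zero_iff.2 h
  refine tendsto_order.2 ⟨fun a ha => ?_, fun b hb => ?_⟩
  · have h1 : ∀ᶠ ε in 𝓝[>] (0 : ℝ), ε < S - ‖ξ‖ :=
      mem_nhdsWithin_of_mem_nhds (Iio_mem_nhds (by linarith))
    filter_upwards [h1, self_mem_nhdsWithin] with ε he1 he2
    exact lt_of_lt_of_le ha (liou_le_moll hm hC hsub he2 (by linarith))
  · obtain ⟨b', hb1, hb2⟩ := exists_between hb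
    have h1 := husc ξ hξ b' hb1
    rw [isOpen_ball.nhdsWithin_eq hξ] at h1
    obtain ⟨δ, hδ, hball⟩ := Metric.eventually_nhds_iff_ball.1 h1
    have h2 : ∀ᶠ ε in 𝓝[>] (0 : ℝ), ε < δ :=
      mem_nhdsWithin_of_mem_nhds (Iio_mem_nhds hδ)
    filter_upwards [h2, self_mem_nhdsWithin] with ε he1 he2
    have he2 : (0 : ℝ) < ε := he2
    refine lt_of_le_of_lt ?_ hb2
    have h3 : b' = ∫ ζ : ℂ, chi ζ * b' := by
      rw [integral_mul_const, integral_chi, one_mul]
    rw [h3, liou_moll]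
    refine integral_mono_ae ?_ (liou_chi_int.mul_const _) (ae_of_all _ fun ζ => ?_)
    · refine (liou_chi_int.const_mul C).mono' ?_ (ae_of_all _ fun ζ => ?_)
      · exact (contDiff_chi.continuous.measurable.mul (hm.comp (by fun_prop))).aestronglyMeasurable
      · rw [Real.norm_eq_abs, abs_mul, abs_of_nonneg (chi_nonneg _), mul_comm]
        exact mul_le_mul_of_nonneg_right (hC _) (chi_nonneg _)
    · simp only
      by_cases hζ : 1 ≤ ‖ζ‖
      · simp [liou_chi_zero hζ]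
      · push Not at hζ
        refine mul_le_mul_of_nonneg_left (hball _ ?_).le (chi_nonneg _)
        rw [mem_ball_iff_norm, add_sub_cancel_left, norm_mul, norm_real, Real.norm_eq_abs,
          abs_of_pos he2]
        nlinarith [norm_nonneg ζ]

end Pool.Agent.ParLeaf
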