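import Pool.Agent.H.MP_3a36cd_an.Surf2
import Pool.Agent.H.MP_3a36cd_an.Wirt2
import Pool.Agent.H.MP_3a36cd_an.NormChange

/-! MP_3a36cd_an, module Var1: crude bound. -/

open Set Metric Filter Topology Complex MeasureTheory Real
open scoped ContDiff

namespace Pool.Agent.ParLeaf

theorem var1_hasCompactSupport_chi : HasCompactSupport chi := by
  refine HasCompactSupport.intro (isCompact_closedBall (0 : ℂ) 1) fun ζ hζ => ?_
  apply chi_eq_zero
  right
  rw [mem_closedBall_zero_iff, not_le] at hζ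
  nlinarith

theorem var1_integrable_chi : Integrable chi :=
  contDiff_chi.continuous.integrable_of_hasCompactSupport var1_hasCompactSupport_chi

theorem var1_chi_le : ∃ C : ℝ, 0 ≤ C ∧ ∀ ζ, chi ζ ≤ C := by
  obtain ⟨C, hC⟩ := contDiff_chi.continuous.bounded_above_of_compact_support
    var1_hasCompactSupport_chi
  have h : ∀ ζ, chi ζ ≤ C := fun ζ => (le_abs_self _).trans (hC ζ)
  exact ⟨C, (chi_nonneg 0).trans (h 0), h⟩

namespace RD

variable (R : RD ℂ)

theorem var1_smooth_pr_sq : R.Smooth (fun y => ‖R.pr y‖ ^ 2) univ := by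
  intro e _
  have h1 : (fun v => ‖R.pr (R.tr e v)‖ ^ 2) =ᶠ[𝓝 0] fun v : ℂ => ‖R.pr e + v‖ ^ 2 := by
    filter_upwards [ball_mem_nhds (0 : ℂ) (R.rad_pos e)] with v hv
    rw [R.pr_tr e v (mem_ball_zero_iff.1 hv)]
  have h2 : ContDiffAt ℝ ∞ (fun v : ℂ => ‖R.pr e + v‖ ^ 2) 0 :=
    ((contDiff_const.add contDiff_id).norm_sq ℝ).contDiffAt
  exact h2.congr_of_eventuallyEq h1

theorem var1_levi_pr_sq (e : R.carrier) : R.levi 1 (fun y => ‖R.pr y‖ ^ 2) e = 1 := by
  have h := R.levi_pr_sq (ContinuousLinearMap.id ℂ ℂ) (1 : ℂ) e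
  simpa using h

/-- `∂_z̄ g` vanishes off the support of `g` -/
theorem var1_dzb_eq_zero {g : R.carrier → ℂ} {e : R.carrier} (he : e ∉ tsupport g) :
    R.dzb g e = 0 := by
  have h1 : ∀ᶠ y in 𝓝 e, g y = 0 := by
    have h2 : (tsupport g)ᶜ ∈ 𝓝 e := (isClosed_tsupport g).isOpen_compl.mem_nhds he
    filter_upwards [h2] with y hy
    exact image_eq_zero_of_notMem_tsupport hy
  rw [R.nhds_eq e, eventually_map] at h1
  have h3 : (fun v => g (R.tr e v)) =ᶠ[𝓝 0] fun _ => 0 := h1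
  simp only [dzb, dwb, h3.fderiv_eq, fderiv_fun_const, Pi.zero_apply, zero_apply, mul_zero,
    add_zero, zero_div]

theorem var1_smooth_cont {F : Type} [NormedAddCommGroup F] [NormedSpace ℝ F]
    {g : R.carrier → F} (hg : R.Smooth g univ) : Continuous g := by
  rw [← continuousOn_univ]
  exact Smooth.continuousOn R isOpen_univ hg

theorem var1_cont_energy {X : Set R.carrier} (hX : IsOpen X) {φ : R.carrier → ℝ}
    (hφ : R.Smooth φ X) {g : R.carrier → ℂ} (hg : R.Test g) (hgX : tsupport g ⊆ X) :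
    Continuous (fun y => ‖R.dzb g y‖ ^ 2 * Real.exp (φ y)) ∧
      HasCompactSupport (fun y => ‖R.dzb g y‖ ^ 2 * Real.exp (φ y)) := by
  have hd : Continuous (R.dzb g) := R.var1_smooth_cont (Smooth.dwb R isOpen_univ hg.1 1)
  have h0 : ∀ y, y ∉ tsupport g → ‖R.dzb g y‖ ^ 2 * Real.exp (φ y) = 0 := by
    intro y hy
    rw [R.var1_dzb_eq_zero hy]
    simp
  constructor
  · rw [continuous_iff_continuousAt]
    intro e
    by_cases he : e ∈ tsupport g
    · have h1 : ContinuousAt φ e :=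
        (Smooth.continuousOn R hX hφ).continuousAt (hX.mem_nhds (hgX he))
      exact (hd.continuousAt.norm.pow 2).mul (Real.continuous_exp.continuousAt.comp h1)
    · have h2 : (tsupport g)ᶜ ∈ 𝓝 e := (isClosed_tsupport g).isOpen_compl.mem_nhds he
      have h3 : (fun y => ‖R.dzb g y‖ ^ 2 * Real.exp (φ y)) =ᶠ[𝓝 e] fun _ => 0 := by
        filter_upwards [h2] with y hy
        exact h0 y hy
      exact (continuousAt_const).congr h3.symm
  · exact HasCompactSupport.intro hg.2 h0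

/-- the push-forward dominates the values on a disc -/
theorem var1_le_push {g : R.carrier → ℂ} (hg : R.Test g) {y₀ : R.carrier} {v : ℂ}
    (hv : ‖v‖ < R.rad y₀) :
    ‖g (R.tr y₀ v)‖ ^ 2 ≤ R.push (fun y => ‖g y‖ ^ 2) (R.pr y₀ + v) := by
  classical
  obtain ⟨η, hη, s, hs1, hs2⟩ := R.local_sheets hg.2 (R.pr y₀ + v)
  have hfin : (Function.support fun y : R.carrier =>
      ∑ᶠ (_ : R.pr y = R.pr y₀ + v), ‖g y‖ ^ 2).Finite := by
    refine s.finite_toSet.subset fun y hy => ?_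
    rw [Function.mem_support, finsum_eq_if] at hy
    have h1 : R.pr y = R.pr y₀ + v := by
      by_contra hne
      exact hy (if_neg hne)
    have h2 : g y ≠ 0 := by
      intro h
      apply hy
      rw [h]
      simp
    obtain ⟨y₁, hy₁, hy₁'⟩ := hs2 y (subset_tsupport _ h2) (by rw [h1, sub_self, norm_zero]; exact hη)
    rw [h1, sub_self, R.tr_zero] at hy₁'
    rw [hy₁']
    exact hy₁
  have h3 := single_le_finsum (R.tr y₀ v) hfin (fun y => finsum_nonneg fun _ => by positivity)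
  have h4 : ∑ᶠ (_ : R.pr (R.tr y₀ v) = R.pr y₀ + v), ‖g (R.tr y₀ v)‖ ^ 2
      = ‖g (R.tr y₀ v)‖ ^ 2 := by
    rw [finsum_eq_if, if_pos (R.pr_tr y₀ v hv)]
  rw [h4] at h3
  exact h3

/-- a crude bound: on open sets with `|pr| ≤ B` the functional is bounded by the energy -/
theorem bddAbove_NSet {r : ℝ} (hr : 0 < r) (B : ℝ) : ∃ C : ℝ, ∀ (R : RD ℂ) (y₀ : R.carrier),
    r < R.rad y₀ → ∀ X : Set R.carrier, IsOpen X → (∀ y ∈ X, ‖R.pr y‖ ≤ B) →
    ∀ φ : R.carrier → ℝ, (∀ y ∈ X, 0 ≤ φ y) → R.Smooth φ X →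
      ∀ t ∈ R.NSet X φ y₀ r, t ≤ C := by
  obtain ⟨Cχ, hCχ, hχ⟩ := var1_chi_le
  refine ⟨(1 / 2 + Cχ / (2 * r ^ 2) * Real.exp (B ^ 2)) ^ 2, ?_⟩
  rintro R y₀ hry X hX hB φ hφ0 hφ t ⟨g, hg, hgX, hE, rfl⟩
  have hgc : Continuous g := R.var1_smooth_cont hg.1
  have hg2c : Continuous fun y => ‖g y‖ ^ 2 := hgc.norm.pow 2
  have hg2s : HasCompactSupport fun y => ‖g y‖ ^ 2 :=
    HasCompactSupport.intro hg.2 fun y hy => by
      rw [image_eq_zero_of_notMem_tsupport hy]
      simp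
  -- the weighted integral of `|g|²`
  have hS : R.sint (fun y => ‖g y‖ ^ 2) ≤ Real.exp (B ^ 2) := by
    set ψ : R.carrier → ℝ := fun y => ‖R.pr y‖ ^ 2 with hψ
    have hψs : R.Smooth ψ univ := R.var1_smooth_pr_sq
    have hψc : Continuous ψ := R.var1_smooth_cont hψs
    have h1 := R.energy_ineq isOpen_univ hψs hg (subset_univ _)
    have h2 : (fun y => ‖g y‖ ^ 2 * Real.exp (ψ y) * R.levi 1 ψ y) =
        fun y => ‖g y‖ ^ 2 * Real.exp (ψ y) := by
      funext y
      rw [hψ, R.var1_levi_pr_sq, mul_one]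
    rw [h2] at h1
    have h3 : R.sint (fun y => ‖g y‖ ^ 2) ≤ R.sint (fun y => ‖g y‖ ^ 2 * Real.exp (ψ y)) := by
      refine R.sint_mono hg2c hg2s (hg2c.mul (Real.continuous_exp.comp hψc)) hg2s.mul_right ?_
      intro y
      have h4 : (1 : ℝ) ≤ Real.exp (ψ y) := Real.one_le_exp (by positivity)
      exact le_mul_of_one_le_right (by positivity) h4
    have h5 : R.En ψ g ≤ R.sint (fun y => ‖R.dzb g y‖ ^ 2 * Real.exp (B ^ 2 + φ y)) := by
      have hφ' : R.Smooth (fun y => B ^ 2 + φ y) X := fun e he => contDiffAt_const.add (hφ e he)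
      obtain ⟨c1, c2⟩ := R.var1_cont_energy isOpen_univ hψs hg (subset_univ _)
      obtain ⟨c3, c4⟩ := R.var1_cont_energy hX hφ' hg hgX
      refine R.sint_mono c1 c2 c3 c4 fun y => ?_
      by_cases hy : y ∈ tsupport g
      · refine mul_le_mul_of_nonneg_left (Real.exp_le_exp.2 ?_) (by positivity)
        have h6 := hB y (hgX hy)
        have h7 := hφ0 y (hgX hy)
        have h8 : ‖R.pr y‖ ^ 2 ≤ B ^ 2 := by gcongr
        rw [hψ]
        simp only
        linarith
      · rw [R.var1_dzb_eq_zero hy]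
        simp
    have h9 : R.sint (fun y => ‖R.dzb g y‖ ^ 2 * Real.exp (B ^ 2 + φ y)) =
        Real.exp (B ^ 2) * R.En φ g := by
      unfold En sint
      rw [← integral_const_mul]
      congr 1
      funext ζ
      rw [← smul_eq_mul, smul_finsum]
      refine finsum_congr fun y => ?_
      rw [smul_finsum]
      refine finsum_congr fun _ => ?_
      simp only [Real.exp_add, smul_eq_mul]
      ring
    have h10 : Real.exp (B ^ 2) * R.En φ g ≤ Real.exp (B ^ 2) * 1 :=
      mul_le_mul_of_nonneg_left hE (Real.exp_pos _).le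
    linarith
  -- the push-forward
  set p : ℂ → ℝ := R.push (fun y => ‖g y‖ ^ 2) with hp
  have hpc : Continuous p := R.continuous_push hg2c hg2s
  have hps : HasCompactSupport p := R.hasCompactSupport_push hg2s
  have hpi : Integrable p := hpc.integrable_of_hasCompactSupport hps
  have hr0 : (r : ℂ) ≠ 0 := by exact_mod_cast hr.ne'
  have hqi : Integrable fun ζ : ℂ => p (R.pr y₀ + (r : ℂ) * ζ) := by
    have h1 : Integrable fun ζ : ℂ => p (R.pr y₀ + ζ) := hpi.comp_add_left _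
    have h2 := h1.comp_smul (R := r) hr.ne'
    refine h2.congr (Eventually.of_forall fun ζ => ?_)
    simp only [Complex.real_smul]
  have hq : ∫ ζ : ℂ, p (R.pr y₀ + (r : ℂ) * ζ) = (r ^ 2)⁻¹ * R.sint (fun y => ‖g y‖ ^ 2) := by
    have h1 : ∫ ζ : ℂ, p (R.pr y₀ + (r : ℂ) * ζ) = ∫ ζ : ℂ, (fun ξ => p (R.pr y₀ + ξ)) (r • ζ) := by
      congr 1
    rw [h1, Measure.integral_comp_smul volume (fun ξ => p (R.pr y₀ + ξ)) r,
      Complex.finrank_real_complex, abs_of_pos (by positivity),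
      integral_add_left_eq_self p, smul_eq_mul]
    rfl
  have hpnn : ∀ ζ, 0 ≤ p ζ := fun ζ =>
    finsum_nonneg fun y => finsum_nonneg fun _ => by positivity
  have hell : ‖R.ell y₀ r g‖ ≤ 1 / 2 + Cχ / (2 * r ^ 2) * Real.exp (B ^ 2) := by
    have h1 : ‖R.ell y₀ r g‖ ≤
        ∫ ζ : ℂ, ((1 / 2) * chi ζ + (Cχ / 2) * p (R.pr y₀ + (r : ℂ) * ζ)) := by
      refine (norm_integral_le_integral_norm _).trans ?_
      refine integral_mono_of_nonneg (Eventually.of_forall fun ζ => norm_nonneg _)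
        ((var1_integrable_chi.const_mul _).add (hqi.const_mul _))
        (Eventually.of_forall fun ζ => ?_)
      simp only
      have hc0 := chi_nonneg ζ
      rw [norm_mul, Complex.norm_real, Real.norm_eq_abs, abs_of_nonneg hc0]
      by_cases hζ : ‖ζ‖ < 1
      · have h2 : ‖(r : ℂ) * ζ‖ < R.rad y₀ := by
          rw [norm_mul, Complex.norm_real, Real.norm_eq_abs, abs_of_pos hr]
          nlinarith [norm_nonneg ζ]
        have h3 := R.var1_le_push hg h2
        have h4 : ‖g (R.tr y₀ ((r : ℂ) * ζ))‖ ≤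
            1 / 2 + ‖g (R.tr y₀ ((r : ℂ) * ζ))‖ ^ 2 / 2 := by
          nlinarith [sq_nonneg (‖g (R.tr y₀ ((r : ℂ) * ζ))‖ - 1)]
        have h5 := mul_le_mul_of_nonneg_left h4 hc0
        have h6 : chi ζ * ‖g (R.tr y₀ ((r : ℂ) * ζ))‖ ^ 2 ≤ Cχ * p (R.pr y₀ + (r : ℂ) * ζ) :=
          mul_le_mul (hχ ζ) h3 (by positivity) hCχ
        linarith
      · have h2 : chi ζ = 0 := chi_eq_zero (Or.inr (by
          rw [not_lt] at hζ
          nlinarith))
        rw [h2, zero_mul, mul_zero, zero_add]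
        have := hpnn (R.pr y₀ + (r : ℂ) * ζ)
        positivity
    rw [integral_add (var1_integrable_chi.const_mul _) (hqi.const_mul _), integral_const_mul,
      integral_const_mul, integral_chi, hq] at h1
    have h2 : Cχ / 2 * ((r ^ 2)⁻¹ * R.sint (fun y => ‖g y‖ ^ 2)) ≤
        Cχ / (2 * r ^ 2) * Real.exp (B ^ 2) := by
      have h3 : Cχ / 2 * ((r ^ 2)⁻¹ * R.sint (fun y => ‖g y‖ ^ 2)) =
          Cχ / (2 * r ^ 2) * R.sint (fun y => ‖g y‖ ^ 2) := by
        field_simp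
      rw [h3]
      exact mul_le_mul_of_nonneg_left hS (by positivity)
    linarith
  have h0 : (0 : ℝ) ≤ ‖R.ell y₀ r g‖ := norm_nonneg _
  gcongr

end RD

end Pool.Agent.ParLeaf
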