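import Pool.Agent.H.MP_3a36cd_an.RD

/-! MP_3a36cd_an, module RDTop: topology of Riemann domains. -/

open Set Metric Filter Topology Complex
open scoped ContDiff

namespace Pool.Agent.ParLeaf

namespace RD

section
variable {E : Type} [NormedAddCommGroup E] (R : RD E)

theorem isOpen_iff {U : Set R.carrier} :
    IsOpen U ↔ ∀ e ∈ U, ∃ r > 0, ∀ v, ‖v‖ < r → R.tr e v ∈ U := Iff.rfl

theorem rdTop_lt_rad_tr {e : R.carrier} {v : E} (h : 2 * ‖v‖ < R.rad e) :
    ‖v‖ < R.rad e ∧ ‖-v‖ < R.rad (R.tr e v) := by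
  have h0 := norm_nonneg v
  have h1 : ‖v‖ < R.rad e := by linarith
  have h2 := R.rad_tr e v h1
  refine ⟨h1, ?_⟩
  rw [norm_neg]
  linarith

/-- translating back -/
theorem tr_neg {e : R.carrier} {v : E} (h : 2 * ‖v‖ < R.rad e) : R.tr (R.tr e v) (-v) = e := by
  obtain ⟨h1, h2⟩ := R.rdTop_lt_rad_tr h
  rw [R.tr_tr e v (-v) h1 h2 (by simpa using R.rad_pos e), add_neg_cancel, R.tr_zero]

theorem rad_tr_le {e : R.carrier} {v : E} (h : 2 * ‖v‖ < R.rad e) :
    R.rad (R.tr e v) ≤ R.rad e + ‖v‖ := by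
  obtain ⟨h1, h2⟩ := R.rdTop_lt_rad_tr h
  have h3 := R.rad_tr _ _ h2
  rw [R.tr_neg h, norm_neg] at h3
  linarith

theorem rdTop_isOpen_image (e : R.carrier) {r : ℝ} (hr : r ≤ R.rad e) :
    IsOpen (R.tr e '' ball 0 r) := by
  rw [isOpen_iff]
  rintro _ ⟨v, hv, rfl⟩
  rw [mem_ball_zero_iff] at hv
  refine ⟨r - ‖v‖, by linarith, fun w hw => ⟨v + w, ?_, ?_⟩⟩
  · rw [mem_ball_zero_iff]
    have := norm_add_le v w
    linarith
  · have h1 := norm_add_le v w
    have h2 := R.rad_tr e v (by linarith)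
    rw [R.tr_tr e v w (by linarith) (by linarith) (by linarith)]

theorem nhds_eq (e : R.carrier) : 𝓝 e = map (R.tr e) (𝓝 0) := by
  apply le_antisymm
  · intro s hs
    rw [mem_map, Metric.mem_nhds_iff] at hs
    obtain ⟨r, hr, h⟩ := hs
    rw [_root_.mem_nhds_iff]
    refine ⟨R.tr e '' ball 0 (min r (R.rad e)), ?_,
      R.rdTop_isOpen_image e (min_le_right _ _), ⟨0, ?_, R.tr_zero e⟩⟩
    · rintro _ ⟨v, hv, rfl⟩
      exact h (ball_subset_ball (min_le_left _ _) hv)
    · exact mem_ball_self (lt_min hr (R.rad_pos e))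
  · intro s hs
    rw [_root_.mem_nhds_iff] at hs
    obtain ⟨U, hUs, hU, heU⟩ := hs
    obtain ⟨r, hr, h⟩ := R.isOpen_iff.1 hU e heU
    rw [mem_map, Metric.mem_nhds_iff]
    exact ⟨r, hr, fun v hv => hUs (h v (mem_ball_zero_iff.1 hv))⟩

theorem rdTop_eventually (r : ℝ) (hr : 0 < r) : ∀ᶠ v : E in 𝓝 0, ‖v‖ < r := by
  filter_upwards [ball_mem_nhds (0 : E) hr] with v hv using mem_ball_zero_iff.1 hv

theorem continuous_pr : Continuous R.pr := by
  rw [continuous_iff_continuousAt]
  intro e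
  rw [ContinuousAt, nhds_eq, tendsto_map'_iff]
  have h1 : Tendsto (fun v : E => R.pr e + v) (𝓝 0) (𝓝 (R.pr e)) := by
    have : Continuous (fun v : E => R.pr e + v) := by fun_prop
    simpa using this.tendsto 0
  refine h1.congr' ?_
  filter_upwards [rdTop_eventually (R.rad e) (R.rad_pos e)] with v hv
  exact (R.pr_tr e v hv).symm

theorem continuous_rad : Continuous R.rad := by
  rw [continuous_iff_continuousAt]
  intro e
  rw [ContinuousAt, nhds_eq, tendsto_map'_iff]
  have h1 : Tendsto (fun v : E => R.rad e - ‖v‖) (𝓝 0) (𝓝 (R.rad e)) := by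
    have : Continuous (fun v : E => R.rad e - ‖v‖) := by fun_prop
    simpa using this.tendsto 0
  have h2 : Tendsto (fun v : E => R.rad e + ‖v‖) (𝓝 0) (𝓝 (R.rad e)) := by
    have : Continuous (fun v : E => R.rad e + ‖v‖) := by fun_prop
    simpa using this.tendsto 0
  have h0 := R.rad_pos e
  refine tendsto_of_tendsto_of_tendsto_of_le_of_le' h1 h2 ?_ ?_
  · filter_upwards [rdTop_eventually (R.rad e) h0] with v hv using R.rad_tr e v hv
  · filter_upwards [rdTop_eventually (R.rad e / 2) (by linarith)] with v hv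
    exact R.rad_tr_le (by linarith)

theorem continuousAt_tr {e : R.carrier} {v : E} (h : ‖v‖ < R.rad e) :
    ContinuousAt (fun q : R.carrier × E => R.tr q.1 q.2) (e, v) := by
  have h2 := R.rad_tr e v h
  have h3 : 0 < R.rad e - ‖v‖ := by linarith
  rw [ContinuousAt, nhds_prod_eq, R.nhds_eq e, R.nhds_eq (R.tr e v)]
  have hm : map (R.tr e) (𝓝 (0 : E)) ×ˢ 𝓝 v = map (fun q : E × E => (R.tr e q.1, q.2)) (𝓝 0 ×ˢ 𝓝 v) := by
    have := Filter.prod_map_map_eq (f₁ := 𝓝 (0 : E)) (f₂ := 𝓝 v) (m₁ := R.tr e) (m₂ := id)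
    rw [map_id] at this
    exact this
  rw [hm, tendsto_map'_iff]
  have hlim : Tendsto (fun q : E × E => q.1 + q.2 - v) (𝓝 0 ×ˢ 𝓝 v) (𝓝 0) := by
    have : Continuous (fun q : E × E => q.1 + q.2 - v) := by fun_prop
    have := this.tendsto (0, v)
    simpa [nhds_prod_eq] using this
  have hlim1 : Tendsto (fun q : E × E => ‖q.1‖) (𝓝 0 ×ˢ 𝓝 v) (𝓝 0) := by
    have : Continuous (fun q : E × E => ‖q.1‖) := by fun_prop
    have := this.tendsto (0, v)
    simpa [nhds_prod_eq] using this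
  have hlim2 : Tendsto (fun q : E × E => ‖q.1 + q.2‖) (𝓝 0 ×ˢ 𝓝 v) (𝓝 ‖v‖) := by
    have : Continuous (fun q : E × E => ‖q.1 + q.2‖) := by fun_prop
    have := this.tendsto (0, v)
    simpa [nhds_prod_eq] using this
  have hlim3 : Tendsto (fun q : E × E => ‖q.2‖ + ‖q.1‖) (𝓝 0 ×ˢ 𝓝 v) (𝓝 ‖v‖) := by
    have : Continuous (fun q : E × E => ‖q.2‖ + ‖q.1‖) := by fun_prop
    have := this.tendsto (0, v)
    simpa [nhds_prod_eq] using this
  refine (tendsto_map.comp hlim).congr' ?_
  have hlim0 : Tendsto (fun q : E × E => ‖q.1 + q.2 - v‖) (𝓝 0 ×ˢ 𝓝 v) (𝓝 0) := by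
    simpa using hlim.norm
  filter_upwards [hlim0.eventually (gt_mem_nhds h3), hlim1.eventually (gt_mem_nhds (R.rad_pos e)),
    hlim2.eventually (gt_mem_nhds h), hlim3.eventually (gt_mem_nhds h)] with q hq0 hq1 hq2 hq3
  obtain ⟨a, w⟩ := q
  simp only [Function.comp_apply] at *
  have e1 : R.tr (R.tr e v) (a + w - v) = R.tr e (v + (a + w - v)) := by
    apply R.tr_tr e v _ h (by linarith)
    simpa using hq2
  have h4 := R.rad_tr e a hq1
  have e2 : R.tr (R.tr e a) w = R.tr e (a + w) := by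
    apply R.tr_tr e a w hq1 (by linarith) hq2
  rw [e1, e2]
  congr 1
  abel

theorem rdTop_continuousOn (e : R.carrier) : ContinuousOn (R.tr e) (ball 0 (R.rad e)) := by
  intro v hv
  have h1 := R.continuousAt_tr (mem_ball_zero_iff.1 hv)
  have h2 : ContinuousAt (fun w : E => ((e, w) : R.carrier × E)) v := by fun_prop
  exact (ContinuousAt.comp (f := fun w : E => ((e, w) : R.carrier × E)) h1 h2).continuousWithinAt

theorem rdTop_injOn (e : R.carrier) : InjOn (R.tr e) (ball 0 (R.rad e)) := by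
  intro v hv w hw h
  have h1 := R.pr_tr e v (mem_ball_zero_iff.1 hv)
  rw [h, R.pr_tr e w (mem_ball_zero_iff.1 hw)] at h1
  exact (add_left_cancel h1).symm

instance : T2Space R.carrier := by
  refine ⟨fun e e' hne => ?_⟩
  by_cases hpr : R.pr e = R.pr e'
  · have h0 := R.rad_pos e
    have h0' := R.rad_pos e'
    refine ⟨R.tr e '' ball 0 (min (R.rad e) (R.rad e')), R.tr e' '' ball 0 (min (R.rad e) (R.rad e')),
      R.rdTop_isOpen_image e (min_le_left _ _), R.rdTop_isOpen_image e' (min_le_right _ _),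
      ⟨0, mem_ball_self (lt_min h0 h0'), R.tr_zero e⟩,
      ⟨0, mem_ball_self (lt_min h0 h0'), R.tr_zero e'⟩, ?_⟩
    rw [Set.disjoint_left]
    rintro _ ⟨v, hv, rfl⟩ ⟨w, hw, h⟩
    rw [mem_ball_zero_iff, lt_min_iff] at hv hw
    have h1 := R.pr_tr e v hv.1
    rw [← h, R.pr_tr e' w hw.2, hpr] at h1
    have h2 := add_left_cancel h1
    subst h2
    exact hne (R.inj e e' w hpr hv.1 hv.2 h.symm)
  · obtain ⟨U, V, hU, hV, h1, h2, h3⟩ := t2_separation hpr
    exact ⟨R.pr ⁻¹' U, R.pr ⁻¹' V, hU.preimage R.continuous_pr, hV.preimage R.continuous_pr, h1, h2,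
      h3.preimage _⟩

theorem isLocalHomeomorph_pr : IsLocalHomeomorph R.pr := by
  refine IsLocalHomeomorph.mk _ fun e => ?_
  refine ⟨{ toFun := R.pr
            invFun := fun x => R.tr e (x - R.pr e)
            source := R.tr e '' ball 0 (R.rad e)
            target := ball (R.pr e) (R.rad e)
            map_source' := ?_
            map_target' := ?_
            left_inv' := ?_
            right_inv' := ?_
            open_source := R.rdTop_isOpen_image e le_rfl
            open_target := isOpen_ball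
            continuousOn_toFun := R.continuous_pr.continuousOn
            continuousOn_invFun := ?_ }, ⟨0, mem_ball_self (R.rad_pos e), R.tr_zero e⟩, fun _ _ => rfl⟩
  · rintro _ ⟨v, hv, rfl⟩
    rw [R.pr_tr e v (mem_ball_zero_iff.1 hv)]
    simpa using hv
  · intro x hx
    refine ⟨x - R.pr e, ?_, rfl⟩
    rw [mem_ball_zero_iff]
    exact mem_ball_iff_norm.1 hx
  · rintro _ ⟨v, hv, rfl⟩
    rw [R.pr_tr e v (mem_ball_zero_iff.1 hv)]
    simp
  · intro x hx
    rw [R.pr_tr e _ (mem_ball_iff_norm.1 hx)]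
    simp
  · have h1 : ContinuousOn (fun x : E => x - R.pr e) (ball (R.pr e) (R.rad e)) := by fun_prop
    refine (R.rdTop_continuousOn e).comp h1 fun x hx => ?_
    rw [mem_ball_zero_iff]
    exact mem_ball_iff_norm.1 hx

/-- the component of `e₀` is open and closed -/
theorem isClopen_reach (e₀ : R.carrier) : IsClopen {e | R.Reach e₀ e} := by
  constructor
  · rw [← isOpen_compl_iff, isOpen_iff]
    intro e he
    refine ⟨R.rad e / 2, half_pos (R.rad_pos e), fun v hv hr => he ?_⟩
    have h2 : 2 * ‖v‖ < R.rad e := by linarith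
    refine Relation.ReflTransGen.tail hr ⟨-v, (R.rdTop_lt_rad_tr h2).2, (R.tr_neg h2).symm⟩
  · rw [isOpen_iff]
    intro e he
    exact ⟨R.rad e, R.rad_pos e, fun v hv => Relation.ReflTransGen.tail he ⟨v, hv, rfl⟩⟩

theorem reach_symm {e e' : R.carrier} [NormedSpace ℝ E] (h : R.Reach e e') : R.Reach e' e := by
  induction h with
  | refl => exact Relation.ReflTransGen.refl
  | @tail b c _ hbc ih =>
    obtain ⟨v, hv, rfl⟩ := hbc
    refine Relation.ReflTransGen.trans ?_ ih
    have hmaps : MapsTo (fun t : ℝ => t • v) (Icc (0 : ℝ) 1) (ball 0 (R.rad b)) := by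
      intro t ht
      rw [mem_ball_zero_iff, norm_smul, Real.norm_eq_abs, abs_of_nonneg ht.1]
      calc t * ‖v‖ ≤ 1 * ‖v‖ := mul_le_mul_of_nonneg_right ht.2 (norm_nonneg v)
        _ < R.rad b := by linarith
    have hc : ContinuousOn (fun t : ℝ => R.tr b (t • v)) (Icc 0 1) := by
      have h1 : ContinuousOn (fun t : ℝ => t • v) (Icc (0 : ℝ) 1) := by fun_prop
      exact (R.rdTop_continuousOn b).comp h1 hmaps
    have hp : IsPreconnected ((fun t : ℝ => R.tr b (t • v)) '' Icc 0 1) :=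
      isPreconnected_Icc.image _ hc
    have hsub := hp.subset_isClopen (R.isClopen_reach (R.tr b v))
      ⟨R.tr b v, ⟨1, by simp, by simp⟩, Relation.ReflTransGen.refl⟩
    exact hsub ⟨0, by simp, by simp [R.tr_zero]⟩

/-- a point is reached by arbitrarily small steps staying uniformly inside the domain -/
theorem reach_small {e e' : R.carrier} [NormedSpace ℝ E] (h : R.Reach e e') :
    ∃ c > 0, ∀ c' > 0, c' ≤ c → Relation.ReflTransGen
      (fun x y => 4 * c' ≤ R.rad x ∧ 4 * c' ≤ R.rad y ∧ ∃ v, ‖v‖ ≤ c' ∧ y = R.tr x v) e e' := by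
  induction h with
  | refl => exact ⟨1, one_pos, fun _ _ _ => Relation.ReflTransGen.refl⟩
  | @tail b c _ hbc ih =>
    obtain ⟨v, hv, rfl⟩ := hbc
    obtain ⟨c₀, hc₀, H⟩ := ih
    refine ⟨min c₀ ((R.rad b - ‖v‖) / 4), lt_min hc₀ (by linarith), fun c' hc' hle => ?_⟩
    refine (H c' hc' (hle.trans (min_le_left _ _))).trans ?_
    have h4 : 4 * c' ≤ R.rad b - ‖v‖ := by
      have := hle.trans (min_le_right _ _)
      linarith
    obtain ⟨n, hn⟩ := exists_nat_ge (‖v‖ / c')
    have hn1 : (0 : ℝ) < (n : ℝ) + 1 := by positivity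
    have hstep : ‖v‖ / ((n : ℝ) + 1) ≤ c' := by
      rw [div_le_iff₀ hc'] at hn
      rw [div_le_iff₀ hn1]
      nlinarith
    have hnorm : ∀ k : ℕ, k ≤ n + 1 → ‖((k : ℝ) / ((n : ℝ) + 1)) • v‖ ≤ ‖v‖ := by
      intro k hk
      rw [norm_smul, Real.norm_eq_abs, abs_of_nonneg (by positivity)]
      have : (k : ℝ) / ((n : ℝ) + 1) ≤ 1 := by
        rw [div_le_one hn1]
        exact_mod_cast hk
      calc _ ≤ 1 * ‖v‖ := mul_le_mul_of_nonneg_right this (norm_nonneg v)
        _ = ‖v‖ := one_mul _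
    have hrad : ∀ k : ℕ, k ≤ n + 1 →
        4 * c' ≤ R.rad (R.tr b (((k : ℝ) / ((n : ℝ) + 1)) • v)) := by
      intro k hk
      have h1 := hnorm k hk
      have h2 := R.rad_tr b (((k : ℝ) / ((n : ℝ) + 1)) • v) (by linarith)
      linarith
    have key : ∀ k : ℕ, k ≤ n + 1 → Relation.ReflTransGen
        (fun x y => 4 * c' ≤ R.rad x ∧ 4 * c' ≤ R.rad y ∧ ∃ v, ‖v‖ ≤ c' ∧ y = R.tr x v)
        b (R.tr b (((k : ℝ) / ((n : ℝ) + 1)) • v)) := by
      intro k
      induction k with
      | zero =>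
        intro _
        simp only [Nat.cast_zero, zero_div, zero_smul, R.tr_zero]
        exact Relation.ReflTransGen.refl
      | succ k ihk =>
        intro hk
        refine (ihk (by omega)).tail ⟨hrad k (by omega), hrad (k + 1) hk,
          (1 / ((n : ℝ) + 1)) • v, ?_, ?_⟩
        · rw [norm_smul, Real.norm_eq_abs, abs_of_nonneg (by positivity)]
          calc 1 / ((n : ℝ) + 1) * ‖v‖ = ‖v‖ / ((n : ℝ) + 1) := by ring
            _ ≤ c' := hstep
        · have h1 := hnorm k (by omega)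
          have h2 := hrad k (by omega)
          have h3 := hnorm (k + 1) hk
          have e1 : ((k : ℝ) / ((n : ℝ) + 1)) • v + (1 / ((n : ℝ) + 1)) • v
              = (((k + 1 : ℕ) : ℝ) / ((n : ℝ) + 1)) • v := by
            rw [← add_smul]
            congr 1
            push_cast
            ring
          have h5 : ‖(1 / ((n : ℝ) + 1)) • v‖ ≤ c' := by
            rw [norm_smul, Real.norm_eq_abs, abs_of_nonneg (by positivity)]
            calc 1 / ((n : ℝ) + 1) * ‖v‖ = ‖v‖ / ((n : ℝ) + 1) := by ring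
              _ ≤ c' := hstep
          rw [R.tr_tr b _ _ (by linarith) (by linarith) (by rw [e1]; linarith), e1]
    have hfin := key (n + 1) le_rfl
    have h1 : (((n + 1 : ℕ) : ℝ) / ((n : ℝ) + 1)) • v = v := by
      push_cast
      rw [div_self hn1.ne', one_smul]
    rwa [h1] at hfin

end

section
variable {E : Type} [NormedAddCommGroup E] [NormedSpace ℂ E] [FiniteDimensional ℂ E] (R : RD E)

theorem isCompact_tr_image (e : R.carrier) {r : ℝ} (h : r < R.rad e) :
    IsCompact (R.tr e '' closedBall 0 r) := by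
  have : ProperSpace E := FiniteDimensional.proper ℂ E
  refine (isCompact_closedBall 0 r).image_of_continuousOn ?_
  exact (R.rdTop_continuousOn e).mono (closedBall_subset_ball h)

instance : LocallyCompactSpace R.carrier := by
  refine ⟨fun e n hn => ?_⟩
  rw [R.nhds_eq, mem_map, Metric.mem_nhds_iff] at hn
  obtain ⟨r, hr, h⟩ := hn
  have h0 := R.rad_pos e
  have h1 : min (r / 2) (R.rad e / 2) < r := (min_le_left _ _).trans_lt (by linarith)
  have h2 : min (r / 2) (R.rad e / 2) < R.rad e := (min_le_right _ _).trans_lt (by linarith)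
  refine ⟨R.tr e '' closedBall 0 (min (r / 2) (R.rad e / 2)), ?_, ?_, R.isCompact_tr_image e h2⟩
  · rw [R.nhds_eq, mem_map]
    refine Filter.mem_of_superset
      (closedBall_mem_nhds (0 : E) (lt_min (half_pos hr) (half_pos h0))) ?_
    exact subset_preimage_image _ _
  · rintro _ ⟨v, hv, rfl⟩
    exact h (closedBall_subset_ball h1 hv)

end

section Fib
variable {V : Type} [NormedAddCommGroup V] (M : RD (ℂ × V)) (p : V)

theorem fib_tr_val (y : (M.Fib p).carrier) {ζ : ℂ} (h : ‖ζ‖ < M.rad y.1) :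
    ((M.Fib p).tr y ζ).1 = M.tr y.1 (ζ, 0) := by
  simp only [Fib]
  rw [dif_pos h]

/-- (stated with a lambda so that the topology of `(M.Fib p).carrier` is the one of the Riemann
domain `M.Fib p`) -/
theorem isClosedEmbedding_val :
    IsClosedEmbedding (fun y : (M.Fib p).carrier => (y.1 : M.carrier)) := by
  refine ⟨⟨?_, Subtype.val_injective⟩, ?_⟩
  · rw [isInducing_iff_nhds]
    intro y
    apply le_antisymm
    · rw [← tendsto_iff_comap, (M.Fib p).nhds_eq, tendsto_map'_iff, M.nhds_eq]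
      have h1 : Tendsto (fun ζ : ℂ => ((ζ, 0) : ℂ × V)) (𝓝 0) (𝓝 0) := by
        have : Continuous (fun ζ : ℂ => ((ζ, 0) : ℂ × V)) := by fun_prop
        exact this.tendsto 0
      refine (tendsto_map.comp h1).congr' ?_
      filter_upwards [rdTop_eventually (M.rad y.1) (M.rad_pos y.1)] with ζ hζ
      exact (M.fib_tr_val p y hζ).symm
    · intro s hs
      rw [(M.Fib p).nhds_eq, mem_map, Metric.mem_nhds_iff] at hs
      obtain ⟨r, hr, h⟩ := hs
      rw [mem_comap]
      refine ⟨M.tr y.1 '' ball 0 (min r (M.rad y.1)),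
        (M.rdTop_isOpen_image y.1 (min_le_right _ _)).mem_nhds
          ⟨0, mem_ball_self (lt_min hr (M.rad_pos _)), M.tr_zero _⟩, ?_⟩
      rintro z ⟨⟨ζ, w⟩, hv, hz⟩
      rw [mem_ball_zero_iff, lt_min_iff] at hv
      have hpr := M.pr_tr y.1 (ζ, w) hv.2
      have hw : w = 0 := by
        have h1 := congrArg Prod.snd hpr
        rw [hz, z.2] at h1
        have h2 : (M.pr y.1).2 = p := y.2
        simp only [Prod.snd_add, h2] at h1
        exact (left_eq_add.1 h1)
      subst hw
      rw [norm_fst] at hv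
      have h3 : z = (M.Fib p).tr y ζ := by
        apply Subtype.ext
        rw [M.fib_tr_val p y hv.2, hz]
      rw [h3]
      exact h (mem_ball_zero_iff.2 hv.1)
  · have : range (fun y : (M.Fib p).carrier => (y.1 : M.carrier)) = {e | (M.pr e).2 = p} := by
      ext e
      constructor
      · rintro ⟨y, rfl⟩
        exact y.2
      · intro he
        exact ⟨⟨e, he⟩, rfl⟩
    rw [this]
    exact isClosed_eq (continuous_snd.comp M.continuous_pr) continuous_const

theorem reach_of_fib {y y' : (M.Fib p).carrier} (h : (M.Fib p).Reach y y') :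
    M.Reach y.1 y'.1 := by
  induction h with
  | refl => exact Relation.ReflTransGen.refl
  | @tail b c _ hbc ih =>
    obtain ⟨ζ, hζ, rfl⟩ := hbc
    refine ih.tail ⟨(ζ, 0), ?_, M.fib_tr_val p b hζ⟩
    rw [norm_fst]
    exact hζ

end Fib

end RD

end Pool.Agent.ParLeaf
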