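import Pool.Agent.H.MP_3a36cd_an.Wirt1
import Pool.Agent.H.MP_3a36cd_an.RDTop

/-! MP_3a36cd_an, module Weight1: plurisubharmonic weights with compact sublevel sets. -/

open Set Metric Filter Topology Complex MeasureTheory
open scoped ContDiff Convolution

set_option maxSynthPendingDepth 3

namespace Pool.Agent.ParLeaf

section convR

variable {E : Type} [NormedAddCommGroup E] [NormedSpace ℝ E] [FiniteDimensional ℝ E]
  [MeasurableSpace E] [BorelSpace E]
variable {A B C : Type} [NormedAddCommGroup A] [NormedSpace ℝ A] [NormedAddCommGroup B]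
  [NormedSpace ℝ B] [NormedAddCommGroup C] [NormedSpace ℝ C]

theorem weight1_conv_step {μ : Measure E} [μ.IsAddHaarMeasure] (L : A →L[ℝ] B →L[ℝ] C) :
    ∃ L' : (E →L[ℝ] A) →L[ℝ] B →L[ℝ] (E →L[ℝ] C), ∀ φ : E → A, HasCompactSupport φ →
      ContDiff ℝ 1 φ → ∀ F : E → B, LocallyIntegrable F μ →
      fderiv ℝ (φ ⋆[L, μ] F) = (fderiv ℝ φ ⋆[L', μ] F) := by
  refine ⟨L.precompL E, ?_⟩
  intro φ hφc hφs F hF
  funext x
  exact (hφc.hasFDerivAt_convolution_left L hφs hF x).fderiv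

theorem weight1_conv_bound {μ : Measure E} [μ.IsAddHaarMeasure] (L : A →L[ℝ] B →L[ℝ] C)
    {φ : E → A} (hφc : HasCompactSupport φ) (hφs : ContDiff ℝ ∞ φ) :
    ∃ K : ℝ, ∀ F : E → B, LocallyIntegrable F μ → (∀ u, ‖F u‖ ≤ 1) →
      ∀ h, ‖fderiv ℝ (fderiv ℝ (φ ⋆[L, μ] F)) h‖ ≤ K := by
  obtain ⟨L1, hL1⟩ := weight1_conv_step (μ := μ) L
  obtain ⟨L2, hL2⟩ := weight1_conv_step (μ := μ) L1
  have hDφs : ContDiff ℝ ∞ (fderiv ℝ φ) := hφs.fderiv_right (m := ∞) le_rfl
  have hDDφs : ContDiff ℝ ∞ (fderiv ℝ (fderiv ℝ φ)) := hDφs.fderiv_right (m := ∞) le_rfl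
  have hDφc : HasCompactSupport (fderiv ℝ φ) := hφc.fderiv ℝ
  have hDDφc : HasCompactSupport (fderiv ℝ (fderiv ℝ φ)) := hDφc.fderiv ℝ
  have hDDi : Integrable (fun t => ‖L2‖ * ‖fderiv ℝ (fderiv ℝ φ) t‖) μ :=
    ((hDDφs.continuous.integrable_of_hasCompactSupport hDDφc).norm).const_mul _
  refine ⟨∫ t, ‖L2‖ * ‖fderiv ℝ (fderiv ℝ φ) t‖ ∂μ, ?_⟩
  intro F hFl hF1 h
  have hD2 : fderiv ℝ (fderiv ℝ (φ ⋆[L, μ] F)) = (fderiv ℝ (fderiv ℝ φ) ⋆[L2, μ] F) := by
    rw [hL1 φ hφc (hφs.of_le (by simp)) F hFl,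
      hL2 (fderiv ℝ φ) hDφc (hDφs.of_le (by simp)) F hFl]
  rw [hD2, convolution_def]
  refine norm_integral_le_of_norm_le hDDi (Filter.Eventually.of_forall fun t => ?_)
  refine (L2.le_opNorm₂ _ _).trans ?_
  exact mul_le_of_le_one_right (by positivity) (hF1 _)

end convR

section conv

variable {E : Type} [NormedAddCommGroup E] [NormedSpace ℂ E] [FiniteDimensional ℂ E]
  [MeasurableSpace E] [BorelSpace E]

theorem weight1_mollifier {c : ℝ} (hc : 0 < c) :
    ∃ (φ : E → ℝ) (μ : Measure E) (C : ℝ), (∀ v, c / 2 ≤ ‖v‖ → φ v = 0) ∧ Integrable φ μ ∧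
      ∫ v, φ v ∂μ = 1 ∧
      (∀ F : E → ℝ, Measurable F → (∀ u, |F u| ≤ 1) → (∀ u, F u ≠ 0 → ‖u‖ < c) →
        (∀ h, Integrable (fun v => φ v * F (h + v)) μ) ∧
        ContDiff ℝ ∞ (fun h => ∫ v, φ v * F (h + v) ∂μ) ∧
        (∀ h, |∫ v, φ v * F (h + v) ∂μ| ≤ 1) ∧
        ∀ h w, |plevi w (fun h => ∫ v, φ v * F (h + v) ∂μ) h| ≤ C * ‖w‖ ^ 2) := by
  let b : ContDiffBump (0 : E) := ⟨c / 4, c / 2, by positivity, by linarith⟩
  let μ : Measure E := Measure.addHaar
  let φ : E → ℝ := b.normed μ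
  have hφc : HasCompactSupport φ := b.hasCompactSupport_normed
  have hφs : ContDiff ℝ ∞ φ := b.contDiff_normed
  have hφ0 : ∀ v, 0 ≤ φ v := b.nonneg_normed
  have hφ1 : ∫ v, φ v ∂μ = 1 := b.integral_normed
  have hφneg : ∀ v, φ (-v) = φ v := b.normed_neg
  have hφi : Integrable φ μ := hφs.continuous.integrable_of_hasCompactSupport hφc
  have hφsupp : ∀ v, c / 2 ≤ ‖v‖ → φ v = 0 := by
    intro v hv
    have : v ∉ Function.support φ := by
      rw [b.support_normed_eq (μ := μ)]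
      rw [mem_ball_zero_iff]
      exact not_lt.mpr hv
    exact Function.notMem_support.mp this
  obtain ⟨K, hK⟩ := weight1_conv_bound (μ := μ) (ContinuousLinearMap.lsmul ℝ ℝ : ℝ →L[ℝ] ℝ →L[ℝ] ℝ) hφc hφs
  refine ⟨φ, μ, K, hφsupp, hφi, hφ1, ?_⟩
  intro F hFm hF1 hFc
  have hFi : Integrable F μ := by
    have h1 : IntegrableOn F (closedBall 0 c) μ := by
      refine Measure.integrableOn_of_bounded (M := 1) ?_ hFm.aestronglyMeasurable
        (Filter.Eventually.of_forall fun u => by rw [Real.norm_eq_abs]; exact hF1 u)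
      exact (isCompact_closedBall _ _).measure_lt_top.ne
    refine (integrableOn_iff_integrable_of_support_subset ?_).mp h1
    intro u hu
    exact mem_closedBall_zero_iff.mpr (hFc u hu).le
  have hFl : LocallyIntegrable F μ := hFi.locallyIntegrable
  have hint : ∀ h, Integrable (fun v => φ v * F (h + v)) μ := by
    intro h
    refine (hφi.mono' ?_ ?_)
    · exact (hφs.continuous.measurable.mul (hFm.comp (measurable_const_add h))).aestronglyMeasurable
    · refine Filter.Eventually.of_forall fun v => ?_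
      rw [norm_mul, Real.norm_eq_abs, Real.norm_eq_abs, abs_of_nonneg (hφ0 v)]
      exact mul_le_of_le_one_right (hφ0 v) (hF1 _)
  have hG : (fun h => ∫ v, φ v * F (h + v) ∂μ) =
      (φ ⋆[ContinuousLinearMap.lsmul ℝ ℝ, μ] F) := by
    funext h
    rw [convolution_def, ← integral_neg_eq_self (fun v => φ v * F (h + v)) μ]
    refine integral_congr_ae (Filter.Eventually.of_forall fun v => ?_)
    simp only [hφneg, ContinuousLinearMap.lsmul_apply, smul_eq_mul, ← sub_eq_add_neg]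
  have hGs : ContDiff ℝ ∞ (fun h => ∫ v, φ v * F (h + v) ∂μ) := by
    rw [hG]
    exact hφc.contDiff_convolution_left _ hφs hFl
  refine ⟨hint, hGs, ?_, ?_⟩
  · intro h
    calc |∫ v, φ v * F (h + v) ∂μ| ≤ ∫ v, φ v ∂μ := by
          rw [← Real.norm_eq_abs]
          refine norm_integral_le_of_norm_le hφi (Filter.Eventually.of_forall fun v => ?_)
          rw [norm_mul, Real.norm_eq_abs, Real.norm_eq_abs, abs_of_nonneg (hφ0 v)]
          exact mul_le_of_le_one_right (hφ0 v) (hF1 _)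
      _ = 1 := hφ1
  · intro h w
    have hK' : ‖fderiv ℝ (fderiv ℝ (fun h => ∫ v, φ v * F (h + v) ∂μ)) h‖ ≤ K := by
      rw [hG]
      exact hK F hFl (fun u => by rw [Real.norm_eq_abs]; exact hF1 u) h
    rw [plevi_eq (hGs.contDiffAt.of_le (by norm_cast)) w]
    have h1 : ∀ u : E, ‖u‖ = ‖w‖ →
        |fderiv ℝ (fderiv ℝ (fun h => ∫ v, φ v * F (h + v) ∂μ)) h u u| ≤ K * ‖w‖ ^ 2 := by
      intro u hu
      rw [← Real.norm_eq_abs]
      refine ((fderiv ℝ (fderiv ℝ (fun h => ∫ v, φ v * F (h + v) ∂μ)) h).le_opNorm₂ u u).trans ?_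
      rw [hu, mul_assoc, ← pow_two]
      exact mul_le_mul_of_nonneg_right hK' (by positivity)
    have h2 := h1 w rfl
    have h3 := h1 (I • w) (by rw [norm_smul, norm_I, one_mul])
    have hK0 : 0 ≤ K * ‖w‖ ^ 2 := (abs_nonneg _).trans h2
    rw [abs_div, abs_of_pos (by norm_num : (0 : ℝ) < 4)]
    have := abs_add_le (fderiv ℝ (fderiv ℝ (fun h => ∫ v, φ v * F (h + v) ∂μ)) h w w)
      (fderiv ℝ (fderiv ℝ (fun h => ∫ v, φ v * F (h + v) ∂μ)) h (I • w) (I • w))
    rw [div_le_iff₀ (by norm_num)]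
    linarith

end conv

namespace RD

variable {E : Type} [NormedAddCommGroup E] [NormedSpace ℂ E] [FiniteDimensional ℂ E]

/-- the weight `ρ` on the open set `Ω`: smooth, plurisubharmonic, nonnegative, strictly
plurisubharmonic where positive, with `{ρ ≤ 1}` compact -/
structure IsWeight (M : RD E) (Ω : Set M.carrier) (ρ : M.carrier → ℝ) : Prop where
  isOpen : IsOpen Ω
  smooth : M.Smooth ρ Ω
  nonneg : ∀ e ∈ Ω, 0 ≤ ρ e
  compact : IsCompact {e | e ∈ Ω ∧ ρ e ≤ 1}
  psh : ∀ e ∈ Ω, ∀ w, 0 ≤ M.levi w ρ e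
  strict : ∀ e ∈ Ω, 0 < ρ e → ∀ w, w ≠ 0 → 0 < M.levi w ρ e

/-- One step of length at most `c` between points of radius at least `4 c`. -/
def weight1Step (M : RD E) (c : ℝ) (x y : M.carrier) : Prop :=
  4 * c ≤ M.rad x ∧ 4 * c ≤ M.rad y ∧ ∃ v, ‖v‖ ≤ c ∧ y = M.tr x v

theorem weight1_segment (M : RD E) {e : M.carrier} {v : E} {c : ℝ} (hc : 0 < c)
    (hv : ‖v‖ < M.rad e) (h : 4 * c + ‖v‖ ≤ M.rad e) :
    Relation.ReflTransGen (M.weight1Step c) e (M.tr e v) := by
  obtain ⟨n, hn⟩ := exists_nat_gt (‖v‖ / c)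
  have hn0 : 0 < (n : ℝ) := lt_of_le_of_lt (by positivity) hn
  have hvn : ‖v‖ ≤ n * c := by
    rw [div_lt_iff₀ hc] at hn
    exact hn.le
  have key : ∀ j : ℕ, j ≤ n → Relation.ReflTransGen (M.weight1Step c) e
      (M.tr e (((j : ℝ) / n) • v)) := by
    intro j
    induction j with
    | zero =>
      intro _
      rw [Nat.cast_zero, zero_div, zero_smul, M.tr_zero]
    | succ j ih =>
      intro hj
      refine (ih (by omega)).tail ?_
      have hnorm : ∀ i : ℕ, i ≤ n → ‖((i : ℝ) / n) • v‖ ≤ ‖v‖ := by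
        intro i hi
        rw [norm_smul, Real.norm_eq_abs, abs_of_nonneg (by positivity)]
        refine mul_le_of_le_one_left (norm_nonneg _) ?_
        rw [div_le_one hn0]
        exact_mod_cast hi
      have hrad : ∀ i : ℕ, i ≤ n → 4 * c ≤ M.rad (M.tr e (((i : ℝ) / n) • v)) := by
        intro i hi
        have h1 := M.rad_tr e (((i : ℝ) / n) • v) ((hnorm i hi).trans_lt hv)
        have h2 := hnorm i hi
        linarith
      refine ⟨hrad j (by omega), hrad (j + 1) hj, (1 / (n : ℝ)) • v, ?_, ?_⟩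
      · rw [norm_smul, Real.norm_eq_abs, abs_of_nonneg (by positivity), one_div,
          inv_mul_le_iff₀ hn0]
        exact hvn
      · have e1 : ((j : ℝ) / n) • v + (1 / (n : ℝ)) • v = (((j + 1 : ℕ) : ℝ) / n) • v := by
          rw [← add_smul]
          congr 1
          push_cast
          ring
        rw [M.tr_tr, e1]
        · exact (hnorm j (by omega)).trans_lt hv
        · have h1 := hrad j (by omega)
          have h2 : ‖(1 / (n : ℝ)) • v‖ ≤ c := by
            rw [norm_smul, Real.norm_eq_abs, abs_of_nonneg (by positivity), one_div,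
              inv_mul_le_iff₀ hn0]
            exact hvn
          linarith
        · rw [e1]
          exact (hnorm (j + 1) hj).trans_lt hv
  have := key n le_rfl
  rwa [div_self hn0.ne', one_smul] at this

theorem weight1_unif (M : RD E) (e₀ : M.carrier) {T : Set M.carrier} (hT : IsCompact T)
    (hreach : ∀ e ∈ T, M.Reach e₀ e) :
    ∃ c₁ > 0, ∀ c > 0, c ≤ c₁ → ∀ y ∈ T, Relation.ReflTransGen (M.weight1Step c) e₀ y ∧
      8 * c < M.rad y := by
  refine hT.induction_on (p := fun s => ∃ c₁ > 0, ∀ c > 0, c ≤ c₁ → ∀ y ∈ s,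
    Relation.ReflTransGen (M.weight1Step c) e₀ y ∧ 8 * c < M.rad y) ?_ ?_ ?_ ?_
  · exact ⟨1, one_pos, fun c _ _ y hy => hy.elim⟩
  · rintro s t hst ⟨c₁, hc₁, h⟩
    exact ⟨c₁, hc₁, fun c hc hcc y hy => h c hc hcc y (hst hy)⟩
  · rintro s t ⟨c₁, hc₁, h1⟩ ⟨c₂, hc₂, h2⟩
    refine ⟨min c₁ c₂, lt_min hc₁ hc₂, fun c hc hcc y hy => ?_⟩
    rcases hy with hy | hy
    · exact h1 c hc (hcc.trans (min_le_left _ _)) y hy
    · exact h2 c hc (hcc.trans (min_le_right _ _)) y hy
  · intro e he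
    obtain ⟨c₁, hc₁, h1⟩ := M.reach_small (hreach e he)
    have hr := M.rad_pos e
    refine ⟨M.tr e '' ball 0 (M.rad e / 16), mem_nhdsWithin_of_mem_nhds ?_,
      min c₁ (M.rad e / 32), lt_min hc₁ (by positivity), ?_⟩
    · rw [M.nhds_eq, mem_map]
      exact mem_of_superset (ball_mem_nhds 0 (by positivity)) (subset_preimage_image _ _)
    · rintro c hc hcc y ⟨v, hv, rfl⟩
      rw [mem_ball_zero_iff] at hv
      have hc1 := hcc.trans (min_le_left _ _)
      have hc2 := hcc.trans (min_le_right _ _)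
      have hv' : ‖v‖ < M.rad e := by linarith
      refine ⟨Relation.ReflTransGen.trans (h1 c hc hc1)
        (M.weight1_segment hc hv' (by linarith)), ?_⟩
      have := M.rad_tr e v hv'
      linarith

/-- the sets of points reached by at most `k` steps -/
def weight1S (M : RD E) (e₀ : M.carrier) (c : ℝ) : ℕ → Set M.carrier
  | 0 => {e₀}
  | k + 1 => {y | 4 * c ≤ M.rad y ∧ ∃ x ∈ weight1S M e₀ c k, ∃ v, ‖v‖ ≤ c ∧ M.tr x v = y}

theorem weight1S_rad (M : RD E) {e₀ : M.carrier} {c : ℝ} (h0 : 4 * c ≤ M.rad e₀) (k : ℕ) :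
    ∀ y ∈ M.weight1S e₀ c k, 4 * c ≤ M.rad y := by
  cases k with
  | zero => rintro y rfl; exact h0
  | succ k => exact fun y hy => hy.1

theorem weight1S_mono (M : RD E) {e₀ : M.carrier} {c : ℝ} (hc : 0 < c) (h0 : 4 * c ≤ M.rad e₀) :
    Monotone (M.weight1S e₀ c) := by
  refine monotone_nat_of_le_succ fun k y hy => ?_
  exact ⟨M.weight1S_rad h0 k y hy, y, hy, 0, by rw [norm_zero]; exact hc.le, M.tr_zero y⟩

theorem weight1S_compact (M : RD E) {e₀ : M.carrier} {c : ℝ} (hc : 0 < c)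
    (h0 : 4 * c ≤ M.rad e₀) (k : ℕ) : IsCompact (M.weight1S e₀ c k) := by
  induction k with
  | zero => exact isCompact_singleton
  | succ k ih =>
    have h1 : IsCompact ((fun q : M.carrier × E => M.tr q.1 q.2) ''
        (M.weight1S e₀ c k ×ˢ closedBall 0 c)) := by
      refine (ih.prod (isCompact_closedBall 0 c)).image_of_continuousOn ?_
      rintro ⟨x, v⟩ ⟨hx, hv⟩
      refine (M.continuousAt_tr ?_).continuousWithinAt
      have h1 := M.weight1S_rad h0 k x hx
      have h2 : ‖v‖ ≤ c := mem_closedBall_zero_iff.mp hv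
      linarith
    have h2 : M.weight1S e₀ c (k + 1) = ((fun q : M.carrier × E => M.tr q.1 q.2) ''
        (M.weight1S e₀ c k ×ˢ closedBall 0 c)) ∩ {y | 4 * c ≤ M.rad y} := by
      ext y
      constructor
      · rintro ⟨hy, x, hx, v, hv, rfl⟩
        exact ⟨⟨(x, v), ⟨hx, mem_closedBall_zero_iff.mpr hv⟩, rfl⟩, hy⟩
      · rintro ⟨⟨⟨x, v⟩, ⟨hx, hv⟩, rfl⟩, hy⟩
        exact ⟨hy, x, hx, v, mem_closedBall_zero_iff.mp hv, rfl⟩
    rw [h2]
    exact h1.inter_right (isClosed_le continuous_const M.continuous_rad)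

/-- Step-count function (Oka's trick).  Every point of the compact set `T` is reachable from `e₀`.
`S k` is the set of points reached from `e₀` by at most `k` steps of length `≤ c` inside
`{4 c ≤ rad}`, `Ω = {5 c < rad} ∩ ⋃ S k`, `ψ` the mollified step number. -/
theorem exists_stepcount (M : RD E) (e₀ : M.carrier) {T : Set M.carrier} (hT : IsCompact T)
    (hreach : ∀ e ∈ T, M.Reach e₀ e) :
    ∃ c > 0, c ≤ 1 / 8 ∧ ∃ (Ω : Set M.carrier) (ψ : M.carrier → ℝ) (S : ℕ → Set M.carrier) (C : ℝ),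
      IsOpen Ω ∧ T ⊆ Ω ∧ (∀ e ∈ T, 8 * c < M.rad e) ∧ (∀ e ∈ Ω, 5 * c < M.rad e) ∧
      M.Smooth ψ Ω ∧ (∀ e ∈ Ω, ∀ w, |M.levi w ψ e| ≤ C * ‖w‖ ^ 2) ∧
      (∀ k, IsCompact (S k)) ∧ (∀ k : ℕ, ∀ e ∈ Ω, ψ e ≤ (k : ℝ) → e ∈ S (k + 1)) ∧
      (∀ k, ∀ e ∈ S k, 5 * c < M.rad e → e ∈ Ω) := by
  classical
  obtain ⟨c₁, hc₁, hunif⟩ := M.weight1_unif e₀ hT hreach
  have hr0 := M.rad_pos e₀
  set c := min (min c₁ (1 / 8)) (M.rad e₀ / 16) with hcdef
  have hc : 0 < c := lt_min (lt_min hc₁ (by norm_num)) (by positivity)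
  have hcc₁ : c ≤ c₁ := (min_le_left _ _).trans (min_le_left _ _)
  have hc8 : c ≤ 1 / 8 := (min_le_left _ _).trans (min_le_right _ _)
  have hc0 : 4 * c ≤ M.rad e₀ := by
    have : c ≤ M.rad e₀ / 16 := min_le_right _ _
    linarith
  clear_value c
  let S := M.weight1S e₀ c
  have hSmono : Monotone S := M.weight1S_mono hc hc0
  have hScomp : ∀ k, IsCompact (S k) := M.weight1S_compact hc hc0
  have hSrad : ∀ k, ∀ y ∈ S k, 4 * c ≤ M.rad y := M.weight1S_rad hc0
  have hSstep : ∀ k, ∀ x ∈ S k, ∀ v : E, ‖v‖ ≤ c → 4 * c ≤ M.rad (M.tr x v) →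
      M.tr x v ∈ S (k + 1) := fun k x hx v hv hr => ⟨hr, x, hx, v, hv, rfl⟩
  let Ω : Set M.carrier := {e | 5 * c < M.rad e ∧ ∃ k, e ∈ S k}
  let N : M.carrier → ℕ := fun e => sInf {k | e ∈ S k}
  have hNmem : ∀ e, (∃ k, e ∈ S k) → e ∈ S (N e) := fun e he => Nat.sInf_mem he
  have hNle : ∀ e k, e ∈ S k → N e ≤ k := fun e k he => Nat.sInf_le he
  have hNiff : ∀ e, (∃ k, e ∈ S k) → ∀ k, N e ≤ k ↔ e ∈ S k := fun e he k =>
    ⟨fun h => hSmono h (hNmem e he), hNle e k⟩
  -- behaviour of `N` under small translations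
  have hΩtr : ∀ e ∈ Ω, ∀ v : E, ‖v‖ ≤ c → (∃ k, M.tr e v ∈ S k) ∧ N (M.tr e v) ≤ N e + 1 ∧
      N e ≤ N (M.tr e v) + 1 := by
    rintro e ⟨her, hek⟩ v hv
    have hv' : ‖v‖ < M.rad e := by linarith
    have h1 := M.rad_tr e v hv'
    have h2 : M.tr e v ∈ S (N e + 1) := hSstep _ e (hNmem e hek) v hv (by linarith)
    refine ⟨⟨_, h2⟩, hNle _ _ h2, ?_⟩
    have h3 : M.tr (M.tr e v) (-v) = e := M.tr_neg (by linarith)
    have h4 := hSstep _ (M.tr e v) (hNmem _ ⟨_, h2⟩) (-v) (by rwa [norm_neg])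
      (by rw [h3]; linarith)
    rw [h3] at h4
    exact hNle _ _ h4
  letI : MeasurableSpace E := borel E
  haveI : BorelSpace E := ⟨rfl⟩
  obtain ⟨φ, μ, C, hφsupp, hφi, hφ1, hφF⟩ := weight1_mollifier (E := E) hc
  let ψ : M.carrier → ℝ := fun e => ∫ v, φ v * (N (M.tr e v) : ℝ) ∂μ
  -- the local difference function
  let F : M.carrier → E → ℝ := fun e u => if ‖u‖ < c then (N (M.tr e u) : ℝ) - N e else 0
  have hF0 : ∀ e u, F e u ≠ 0 → ‖u‖ < c := by
    intro e u h
    by_contra hu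
    exact h (if_neg hu)
  have hF1 : ∀ e ∈ Ω, ∀ u, |F e u| ≤ 1 := by
    intro e he u
    by_cases hu : ‖u‖ < c
    · simp only [F, if_pos hu]
      obtain ⟨-, h1, h2⟩ := hΩtr e he u hu.le
      have h1' : (N (M.tr e u) : ℝ) ≤ N e + 1 := by exact_mod_cast h1
      have h2' : (N e : ℝ) ≤ N (M.tr e u) + 1 := by exact_mod_cast h2
      rw [abs_le]
      constructor <;> linarith
    · simp only [F, if_neg hu, abs_zero, zero_le_one]
  have hFm : ∀ e ∈ Ω, Measurable (F e) := by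
    intro e he
    have hcont : ContinuousOn (M.tr e) (ball 0 c) := by
      intro u hu
      rw [mem_ball_zero_iff] at hu
      have hur : ‖u‖ < M.rad e := by linarith [he.1]
      have h1 := M.continuousAt_tr hur
      have h2 : ContinuousAt (fun u : E => (e, u)) u := by fun_prop
      exact (ContinuousAt.comp (f := fun u : E => (e, u)) (x := u) h1 h2).continuousWithinAt
    have hmS : ∀ k, MeasurableSet (ball (0 : E) c ∩ (M.tr e) ⁻¹' (S k)) := by
      intro k
      obtain ⟨Z, hZ, hZ'⟩ := continuousOn_iff_isClosed.mp hcont (S k) (hScomp k).isClosed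
      rw [inter_comm, hZ']
      exact hZ.measurableSet.inter measurableSet_ball
    have hn : Measurable (fun u : E => if ‖u‖ < c then N (M.tr e u) else 0) := by
      refine measurable_of_Iic fun k => ?_
      have : (fun u : E => if ‖u‖ < c then N (M.tr e u) else 0) ⁻¹' Iic k =
          (ball (0 : E) c)ᶜ ∪ (ball (0 : E) c ∩ (M.tr e) ⁻¹' (S k)) := by
        ext u
        simp only [mem_preimage, mem_Iic, mem_union, mem_compl_iff, mem_ball_zero_iff, mem_inter_iff]
        by_cases hu : ‖u‖ < c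
        · rw [if_pos hu]
          have := hNiff (M.tr e u) (hΩtr e he u hu.le).1 k
          simp only [hu, not_true, true_and, false_or]
          exact this
        · simp [hu]
      rw [this]
      exact measurableSet_ball.compl.union (hmS k)
    have h2 : F e = fun u => ((if ‖u‖ < c then N (M.tr e u) else 0 : ℕ) : ℝ) -
        (ball (0 : E) c).indicator (fun _ => (N e : ℝ)) u := by
      funext u
      by_cases hu : ‖u‖ < c
      · simp [F, hu]
      · simp [F, hu]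
    rw [h2]
    exact (measurable_from_nat.comp hn).sub (measurable_const.indicator measurableSet_ball)
  -- the local formula
  have hloc : ∀ e ∈ Ω, ∀ h : E, ‖h‖ < c / 2 →
      ψ (M.tr e h) = N e + ∫ v, φ v * F e (h + v) ∂μ := by
    intro e he h hh
    obtain ⟨hint, -⟩ := hφF (F e) (hFm e he) (hF1 e he) (hF0 e)
    have h1 : ∀ v, φ v * (N (M.tr (M.tr e h) v) : ℝ) = (N e : ℝ) * φ v + φ v * F e (h + v) := by
      intro v
      by_cases hv : ‖v‖ < c / 2
      · have her := he.1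
        have hhr : ‖h‖ < M.rad e := by linarith
        have h2 := M.rad_tr e h hhr
        have h3 : ‖h + v‖ < c := by
          have := norm_add_le h v
          linarith
        rw [M.tr_tr e h v hhr (by linarith) (by linarith)]
        simp only [F, if_pos h3]
        ring
      · rw [hφsupp v (not_lt.mp hv)]
        ring
    simp only [ψ]
    rw [integral_congr_ae (Filter.Eventually.of_forall h1)]
    rw [integral_add (hφi.const_mul _) (hint h), integral_const_mul, hφ1, mul_one]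
  have hψN : ∀ e ∈ Ω, |ψ e - N e| ≤ 1 := by
    intro e he
    obtain ⟨-, -, hb, -⟩ := hφF (F e) (hFm e he) (hF1 e he) (hF0 e)
    have := hloc e he 0 (by rw [norm_zero]; positivity)
    rw [M.tr_zero] at this
    rw [this, add_sub_cancel_left]
    exact hb 0
  have heq : ∀ e ∈ Ω, (fun h => ψ (M.tr e h)) =ᶠ[𝓝 0]
      (fun h => (N e : ℝ) + ∫ v, φ v * F e (h + v) ∂μ) := by
    intro e he
    filter_upwards [ball_mem_nhds (0 : E) (half_pos hc)] with h hh
    exact hloc e he h (mem_ball_zero_iff.mp hh)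
  refine ⟨c, hc, hc8, Ω, ψ, S, C, ?_, ?_, ?_, ?_, ?_, ?_, hScomp, ?_, ?_⟩
  · rw [M.isOpen_iff]
    rintro e ⟨her, k, hk⟩
    refine ⟨min c (M.rad e - 5 * c), lt_min hc (by linarith), fun v hv => ?_⟩
    have hv1 := hv.trans_le (min_le_left _ _)
    have hv2 := hv.trans_le (min_le_right _ _)
    have h1 := M.rad_tr e v (by linarith)
    have h2 : 5 * c < M.rad (M.tr e v) := by linarith
    exact ⟨h2, k + 1, hSstep k e hk v hv1.le (by linarith)⟩
  · intro y hy
    obtain ⟨hch, hyr⟩ := hunif c hc hcc₁ y hy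
    refine ⟨by linarith, ?_⟩
    clear hyr hy
    induction hch with
    | refl => exact ⟨0, rfl⟩
    | tail _ hstep ih =>
      obtain ⟨k, hk⟩ := ih
      obtain ⟨-, h2, v, hv, rfl⟩ := hstep
      exact ⟨k + 1, hSstep k _ hk v hv h2⟩
  · exact fun y hy => (hunif c hc hcc₁ y hy).2
  · exact fun e he => he.1
  · intro e he
    obtain ⟨-, hs, -, -⟩ := hφF (F e) (hFm e he) (hF1 e he) (hF0 e)
    exact ((contDiff_const.add hs).contDiffAt).congr_of_eventuallyEq (heq e he)
  · intro e he w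
    obtain ⟨-, hs, -, hb⟩ := hφF (F e) (hFm e he) (hF1 e he) (hF0 e)
    rw [levi_eq]
    have hs2 : ContDiff ℝ ∞ (fun h => (N e : ℝ) + ∫ v, φ v * F e (h + v) ∂μ) :=
      contDiff_const.add hs
    have h1 : ContDiffAt ℝ 2 (fun h => ψ (M.tr e h)) 0 :=
      (hs2.contDiffAt.of_le (by norm_cast)).congr_of_eventuallyEq (heq e he)
    have h2 := hb 0 w
    rw [plevi_eq (hs.contDiffAt.of_le (by norm_cast)) w] at h2
    rw [plevi_eq h1 w]
    have h3 : fderiv ℝ (fun h => ψ (M.tr e h)) =ᶠ[𝓝 0]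
        fderiv ℝ (fun h => ∫ v, φ v * F e (h + v) ∂μ) := by
      refine (heq e he).fderiv.trans ?_
      refine Filter.Eventually.of_forall fun h => ?_
      rw [fderiv_const_add]
    rw [h3.fderiv_eq]
    exact h2
  · intro k e he hk
    have h1 := hψN e he
    rw [abs_le] at h1
    have h2 : (N e : ℝ) ≤ k + 1 := by linarith
    have h3 : N e ≤ k + 1 := by exact_mod_cast h2
    exact (hNiff e he.2 _).mp h3
  · exact fun k e he her => ⟨her, k, he⟩

end RD

end Pool.Agent.ParLeaf
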