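import Pool.Agent.H.MP_3a36cd_an.Transport
import Pool.Agent.H.MP_3a36cd_an.Var1
import Pool.Agent.H.MP_3a36cd_an.Weight1
import Pool.Agent.H.MP_3a36cd_an.Wirt2

/-! MP_3a36cd_an, module Local1: the soft capacities `N_k` near one parameter. -/

open Set Metric Filter Topology Complex MeasureTheory Real
open scoped ContDiff

namespace Pool.Agent.ParLeaf

namespace RD

/-! ### Auxiliary facts -/

section Aux

theorem local1_sint_mul (R : RD ℂ) (c : ℝ) (h : R.carrier → ℝ) :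
    R.sint (fun y => c * h y) = c * R.sint h := by
  unfold sint
  rw [← integral_const_mul]
  congr 1
  funext ζ
  have h1 := smul_finsum c (fun y => ∑ᶠ (_ : R.pr y = ζ), h y)
  have h2 : ∀ y, c • (∑ᶠ (_ : R.pr y = ζ), h y) = ∑ᶠ (_ : R.pr y = ζ), c * h y := fun y => by
    rw [smul_finsum]; rfl
  simp only [h2] at h1
  simpa using h1.symm

variable {E : Type} [NormedAddCommGroup E] [NormedSpace ℂ E]

theorem local1_tr_eventuallyEq {R : RD E} {F : Type} {g h : R.carrier → F} {e : R.carrier}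
    (hgh : g =ᶠ[𝓝 e] h) : (fun v => g (R.tr e v)) =ᶠ[𝓝 0] (fun v => h (R.tr e v)) := by
  have h1 : ∀ᶠ x in 𝓝 e, g x = h x := hgh
  rw [R.nhds_eq e] at h1
  exact h1

theorem local1_dwb_congr {R : RD E} {g h : R.carrier → ℂ} {e : R.carrier}
    (hgh : g =ᶠ[𝓝 e] h) (w : E) : R.dwb w g e = R.dwb w h e := by
  unfold dwb
  rw [(local1_tr_eventuallyEq hgh).fderiv_eq]

theorem local1_smooth_congr {R : RD E} {F : Type} [NormedAddCommGroup F] [NormedSpace ℝ F]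
    {g h : R.carrier → F} {e : R.carrier} (hgh : g =ᶠ[𝓝 e] h) (hh : R.Smooth h {e}) :
    R.Smooth g {e} := by
  intro x hx
  rw [mem_singleton_iff] at hx
  subst hx
  exact (hh x rfl).congr_of_eventuallyEq (local1_tr_eventuallyEq hgh)

theorem local1_dwb_const {R : RD E} (c : ℂ) (w : E) (e : R.carrier) :
    R.dwb w (fun _ => c) e = 0 := by
  simp [dwb]

theorem local1_smooth_const {R : RD E} {F : Type} [NormedAddCommGroup F] [NormedSpace ℝ F]
    (c : F) (U : Set R.carrier) : R.Smooth (fun _ => c) U := fun _ _ => contDiffAt_const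

theorem local1_support_dzb {R : RD ℂ} (g : R.carrier → ℂ) :
    Function.support (R.dzb g) ⊆ tsupport g := by
  intro y hy
  by_contra hcon
  apply hy
  have h0 : g =ᶠ[𝓝 y] fun _ => 0 := notMem_tsupport_iff_eventuallyEq.mp hcon
  show R.dwb 1 g y = 0
  rw [local1_dwb_congr h0, local1_dwb_const]

theorem local1_continuous {Y : Type} [TopologicalSpace Y] {X : Set Y} (hX : IsOpen X) {F : Y → ℝ}
    (hF : ContinuousOn F X) (hs : tsupport F ⊆ X) : Continuous F :=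
  continuous_of_tsupport fun x hx => hF.continuousAt (hX.mem_nhds (hs hx))

/-- `χ (ζ) = 0` outside of the unit disc -/
theorem local1_chi_zero {ζ : ℂ} (h : 1 < ‖ζ‖) : chi ζ = 0 := by
  have : chi0 ζ = 0 := by
    unfold chi0
    apply bump0.zero_of_le_dist
    show (3 / 8 : ℝ) ≤ dist (‖ζ‖ ^ 2) (5 / 8)
    rw [Real.dist_eq]
    have : (1 : ℝ) ≤ ‖ζ‖ ^ 2 := by nlinarith
    rw [abs_of_nonneg (by linarith)]
    linarith
  simp [chi, this]

theorem local1_ell_congr {R : RD ℂ} {y₀ : R.carrier} {r : ℝ} {g h : R.carrier → ℂ}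
    (hgh : ∀ ζ : ℂ, ‖ζ‖ ≤ 1 → g (R.tr y₀ ((r : ℂ) * ζ)) = h (R.tr y₀ ((r : ℂ) * ζ))) :
    R.ell y₀ r g = R.ell y₀ r h := by
  unfold ell
  congr 1
  funext ζ
  by_cases h1 : ‖ζ‖ ≤ 1
  · rw [hgh ζ h1]
  · rw [local1_chi_zero (not_le.mp h1)]
    simp

theorem local1_ell_mul {R : RD ℂ} {y₀ : R.carrier} {r : ℝ} (c : ℂ) (g : R.carrier → ℂ) :
    R.ell y₀ r (fun y => c * g y) = c * R.ell y₀ r g := by
  unfold ell
  rw [← integral_const_mul]
  congr 1
  funext ζ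
  ring

theorem local1_dwb_const_mul {R : RD E} {g : R.carrier → ℂ} {e : R.carrier}
    (hg : R.Smooth g {e}) (c : ℂ) (w : E) : R.dwb w (fun x => c * g x) e = c * R.dwb w g e := by
  rw [R.dwb_mul (local1_smooth_const c {e}) hg, local1_dwb_const]
  ring

end Aux

variable {V : Type} [NormedAddCommGroup V] [NormedSpace ℂ V] [FiniteDimensional ℂ V]

/-- real version of the dual norm on the fibre through `e` with weight `k ρ`, support in
`{ρ < s} ∩ Ω` -/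
noncomputable def Nk (M : RD (ℂ × V)) (Ω : Set M.carrier) (ρ : M.carrier → ℝ) (r s : ℝ) (k : ℕ)
    (e : M.carrier) : ℝ :=
  sSup (M.NSetM {y | y ∈ Ω ∧ ρ y < s} (fun y => (k : ℝ) * ρ y) r e)

variable {M : RD (ℂ × V)} {Ω : Set M.carrier} {ρ : M.carrier → ℝ}

theorem local1_isOpen (hρ : M.IsWeight Ω ρ) (s : ℝ) : IsOpen {y | y ∈ Ω ∧ ρ y < s} := by
  have h := (Smooth.continuousOn M hρ.isOpen hρ.smooth).isOpen_inter_preimage hρ.isOpen
    (isOpen_Iio (a := s))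
  exact h

theorem local1_isOpen_fib (M : RD (ℂ × V)) (p : V) {U : Set M.carrier} (hU : IsOpen U) :
    IsOpen (X := (M.Fib p).carrier) (Subtype.val ⁻¹' U) :=
  hU.preimage (isClosedEmbedding_val M p).continuous

theorem local1_smooth_mul (hρ : M.IsWeight Ω ρ) (c : ℝ) : M.Smooth (fun y => c * ρ y) Ω :=
  fun e he => contDiffAt_const.mul (hρ.smooth e he)

theorem local1_smooth_mono {E : Type} [NormedAddCommGroup E] [NormedSpace ℂ E] {R : RD E}
    {F : Type} [NormedAddCommGroup F] [NormedSpace ℝ F]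
    {g : R.carrier → F} {U U' : Set R.carrier} (h : U ⊆ U') (hg : R.Smooth g U') :
    R.Smooth g U := fun e he => hg e (h he)

set_option linter.unusedSectionVars false

theorem NSetM_bdd (hρ : M.IsWeight Ω ρ) {r : ℝ} (hr : 0 < r) :
    ∃ C : ℝ, ∀ e, r < M.rad e → ∀ k : ℕ, ∀ s ≤ 1,
      ∀ t ∈ M.NSetM {y | y ∈ Ω ∧ ρ y < s} (fun y => (k : ℝ) * ρ y) r e, t ≤ C := by
  obtain ⟨B, hB⟩ := hρ.compact.exists_bound_of_continuousOn
    (f := fun y => (M.pr y).1) (continuous_fst.comp M.continuous_pr).continuousOn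
  obtain ⟨C, hC⟩ := bddAbove_NSet hr B
  refine ⟨C, fun e he k s hs t ht => ?_⟩
  refine hC (M.Fib (M.pr e).2) ⟨e, rfl⟩ he (Subtype.val ⁻¹' {y | y ∈ Ω ∧ ρ y < s})
    (local1_isOpen_fib M _ (local1_isOpen hρ s)) ?_ _ ?_ ?_ t ht
  · intro y hy
    exact hB y.1 ⟨hy.1, (hy.2.trans_le hs).le⟩
  · intro y hy
    exact mul_nonneg (Nat.cast_nonneg _) (hρ.nonneg _ hy.1)
  · exact Smooth.fib M _ (local1_smooth_mono (fun y hy => hy.1) (local1_smooth_mul hρ k))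

theorem Nk_nonneg (M : RD (ℂ × V)) (Ω : Set M.carrier) (ρ : M.carrier → ℝ) (r s : ℝ) (k : ℕ)
    (e : M.carrier) : 0 ≤ M.Nk Ω ρ r s k e := by
  apply Real.sSup_nonneg
  rintro t ⟨g, -, -, -, rfl⟩
  positivity

theorem local1_le_Nk (hρ : M.IsWeight Ω ρ) {r : ℝ} (hr : 0 < r) {e : M.carrier} (he : r < M.rad e)
    {s : ℝ} (hs : s ≤ 1) (k : ℕ) {t : ℝ}
    (ht : t ∈ M.NSetM {y | y ∈ Ω ∧ ρ y < s} (fun y => (k : ℝ) * ρ y) r e) :
    t ≤ M.Nk Ω ρ r s k e := by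
  obtain ⟨C, hC⟩ := NSetM_bdd hρ hr
  exact le_csSup ⟨C, fun x hx => hC e he k s hs x hx⟩ ht

/-- data on the fibre: the functions which we integrate are continuous with compact support -/
theorem local1_dens {R : RD ℂ} {X : Set R.carrier} (hX : IsOpen X) {φ : R.carrier → ℝ}
    (hφ : R.Smooth φ X) {g f : R.carrier → ℂ} (hg : R.Test g) (hgX : tsupport g ⊆ X)
    (hf : ContinuousOn f X) (hfs : Function.support f ⊆ tsupport g) :
    Continuous (fun y => ‖f y‖ ^ 2 * Real.exp (φ y)) ∧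
      HasCompactSupport (fun y => ‖f y‖ ^ 2 * Real.exp (φ y)) := by
  have hsupp : Function.support (fun y => ‖f y‖ ^ 2 * Real.exp (φ y)) ⊆ tsupport g := by
    refine Subset.trans ?_ hfs
    intro y hy
    rw [Function.mem_support] at hy ⊢
    intro h0
    apply hy
    simp [h0]
  have hts : tsupport (fun y => ‖f y‖ ^ 2 * Real.exp (φ y)) ⊆ tsupport g :=
    closure_minimal hsupp (isClosed_tsupport _)
  refine ⟨local1_continuous hX ?_ (hts.trans hgX), ?_⟩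
  · exact (hf.norm.pow 2).mul (Real.continuous_exp.comp_continuousOn
      (Smooth.continuousOn R hX hφ))
  · exact HasCompactSupport.of_support_subset_isCompact hg.2 hsupp

theorem local1_cont_dzb {R : RD ℂ} {g : R.carrier → ℂ} (hg : R.Test g) : Continuous (R.dzb g) := by
  rw [← continuousOn_univ]
  exact Smooth.continuousOn R isOpen_univ (Smooth.dwb R isOpen_univ hg.1 1)

theorem local1_En_mono {R : RD ℂ} {X : Set R.carrier} (hX : IsOpen X) {φ ψ : R.carrier → ℝ}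
    (hφ : R.Smooth φ X) (hψ : R.Smooth ψ X) {g : R.carrier → ℂ} (hg : R.Test g)
    (hgX : tsupport g ⊆ X) {c : ℝ} (hle : ∀ y ∈ tsupport g, φ y ≤ ψ y + c) :
    R.En φ g ≤ Real.exp c * R.En ψ g := by
  obtain ⟨h1, h2⟩ := local1_dens hX hφ hg hgX (local1_cont_dzb hg).continuousOn
    (local1_support_dzb g)
  obtain ⟨h3, h4⟩ := local1_dens hX hψ hg hgX (local1_cont_dzb hg).continuousOn
    (local1_support_dzb g)
  unfold En
  rw [← local1_sint_mul]
  refine R.sint_mono h1 h2 (continuous_const.mul h3) h4.mul_left ?_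
  intro y
  by_cases hy : y ∈ tsupport g
  · have h5 : Real.exp (φ y) ≤ Real.exp c * Real.exp (ψ y) := by
      rw [← Real.exp_add]
      exact Real.exp_le_exp.mpr (by linarith [hle y hy])
    calc ‖R.dzb g y‖ ^ 2 * Real.exp (φ y) ≤ ‖R.dzb g y‖ ^ 2 * (Real.exp c * Real.exp (ψ y)) :=
          mul_le_mul_of_nonneg_left h5 (by positivity)
      _ = _ := by ring
  · have h6 : R.dzb g y = 0 := by
      by_contra h7
      exact hy (local1_support_dzb g h7)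
    simp [h6]

theorem Nk_anti (hρ : M.IsWeight Ω ρ) {r : ℝ} (hr : 0 < r) {e : M.carrier} (he : r < M.rad e)
    {s : ℝ} (hs : s ≤ 1) (k : ℕ) : M.Nk Ω ρ r s (k + 1) e ≤ M.Nk Ω ρ r s k e := by
  apply Real.sSup_le _ (Nk_nonneg M Ω ρ r s k e)
  rintro t ⟨g, hg, hgX, hE, rfl⟩
  apply local1_le_Nk hρ hr he hs k
  refine ⟨g, hg, hgX, ?_, rfl⟩
  refine le_trans ?_ hE
  have h := local1_En_mono (R := M.Fib (M.pr e).2)
    (local1_isOpen_fib M _ (local1_isOpen hρ s))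
    (φ := fun y => (k : ℝ) * ρ y.1) (ψ := fun y => ((k + 1 : ℕ) : ℝ) * ρ y.1)
    (Smooth.fib M _ (local1_smooth_mono (fun y hy => hy.1) (local1_smooth_mul hρ k)))
    (Smooth.fib M _ (local1_smooth_mono (fun y hy => hy.1) (local1_smooth_mul hρ (k + 1 : ℕ))))
    hg hgX (c := 0) ?_
  · simpa using h
  · intro y hy
    have := hρ.nonneg _ (hgX hy).1
    push_cast
    nlinarith

theorem Nk_mono (hρ : M.IsWeight Ω ρ) {r : ℝ} (hr : 0 < r) {e : M.carrier} (he : r < M.rad e)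
    {s s' : ℝ} (hs : s ≤ s') (hs' : s' ≤ 1) (k : ℕ) : M.Nk Ω ρ r s k e ≤ M.Nk Ω ρ r s' k e := by
  apply Real.sSup_le _ (Nk_nonneg M Ω ρ r s' k e)
  rintro t ⟨g, hg, hgX, hE, rfl⟩
  apply local1_le_Nk hρ hr he hs' k
  exact ⟨g, hg, hgX.trans (preimage_mono fun y hy => ⟨hy.1, hy.2.trans_le hs⟩), hE, rfl⟩

theorem local1_smooth_ofReal {E : Type} [NormedAddCommGroup E] [NormedSpace ℂ E] {R : RD E}
    {φ : R.carrier → ℝ} {U : Set R.carrier} (hφ : R.Smooth φ U) :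
    R.Smooth (fun y => (φ y : ℂ)) U := fun e he =>
  Complex.ofRealCLM.contDiff.contDiffAt.comp (0 : E) (hφ e he)

theorem local1_continuousOn_levi {E : Type} [NormedAddCommGroup E] [NormedSpace ℂ E] {R : RD E}
    {φ : R.carrier → ℝ} {U : Set R.carrier} (hU : IsOpen U) (hφ : R.Smooth φ U) (w : E) :
    ContinuousOn (R.levi w φ) U :=
  Complex.continuous_re.comp_continuousOn (Smooth.continuousOn R hU
    (Smooth.dw R hU (Smooth.dwb R hU (local1_smooth_ofReal hφ) w) w))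

theorem local1_sq_ineq {a b : ℂ} {D : ℝ} (hD : 0 < D) :
    ‖a + b‖ ^ 2 ≤ (1 + D) * ‖b‖ ^ 2 + (1 + 1 / D) * ‖a‖ ^ 2 := by
  have h1 : ‖a + b‖ ^ 2 ≤ (‖a‖ + ‖b‖) ^ 2 := by
    have := norm_add_le a b
    gcongr
  have h2 : 0 ≤ (D * ‖b‖ - ‖a‖) ^ 2 / D := by positivity
  have h3 : (D * ‖b‖ - ‖a‖) ^ 2 / D = D * ‖b‖ ^ 2 - 2 * ‖a‖ * ‖b‖ + 1 / D * ‖a‖ ^ 2 := by
    field_simp
    ring
  nlinarith

theorem local1_test_mul {R : RD ℂ} {X : Set R.carrier} (hX : IsOpen X)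
    {κ : R.carrier → ℂ} (hκ : R.Smooth κ X) {g : R.carrier → ℂ} (hg : R.Test g)
    (hgX : tsupport g ⊆ X) : R.Test (fun y => κ y * g y) := by
  constructor
  · intro e _
    by_cases he : e ∈ X
    · exact (hκ e he).mul (hg.1 e (mem_univ e))
    · have h0 : g =ᶠ[𝓝 e] fun _ => 0 :=
        notMem_tsupport_iff_eventuallyEq.mp fun h => he (hgX h)
      have h1 : (fun y => κ y * g y) =ᶠ[𝓝 e] fun _ => 0 := by
        filter_upwards [h0] with y hy
        rw [hy, mul_zero]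
      exact local1_smooth_congr h1 (local1_smooth_const 0 {e}) e rfl
  · exact hg.2.mul_left

theorem local1_test_const_mul {R : RD ℂ} (c : ℂ) {g : R.carrier → ℂ} (hg : R.Test g) :
    R.Test (fun y => c * g y) :=
  ⟨fun y hy => contDiffAt_const.mul (hg.1 y hy), hg.2.mul_left⟩

theorem local1_notMem_tsupport {R : RD ℂ} {g : R.carrier → ℂ} {y : R.carrier}
    {U : Set R.carrier} (hU : IsOpen U) (hy : y ∈ U) (h : ∀ z ∈ U, g z = 0) : y ∉ tsupport g := by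
  apply notMem_tsupport_iff_eventuallyEq.mpr
  filter_upwards [hU.mem_nhds hy] with z hz
  exact h z hz

theorem local1_tsupport_mono {R : RD ℂ} {g h : R.carrier → ℂ} (hgh : ∀ y, h y ≠ 0 → g y ≠ 0) :
    tsupport h ⊆ tsupport g := closure_mono hgh

theorem local1_En_const_mul {R : RD ℂ} (φ : R.carrier → ℝ) {c : ℝ} (hc : 0 ≤ c)
    {g : R.carrier → ℂ} (hg : R.Test g) :
    R.En φ (fun y => (c : ℂ) * g y) = c ^ 2 * R.En φ g := by
  unfold En
  rw [← local1_sint_mul]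
  congr 1
  funext y
  have h2 : R.dzb (fun y => (c : ℂ) * g y) y = (c : ℂ) * R.dzb g y :=
    local1_dwb_const_mul (local1_smooth_mono (subset_univ _) hg.1) _ 1
  rw [h2, norm_mul, Complex.norm_real, Real.norm_of_nonneg hc]
  ring

theorem local1_hcs_mul {Y : Type} [TopologicalSpace Y] {h : Y → ℝ} (hs : HasCompactSupport h)
    (c : ℝ) : HasCompactSupport (fun y => c * h y) := hs.mul_left

theorem local1_cont_mul {Y : Type} [TopologicalSpace Y] {h : Y → ℝ} (hs : Continuous h)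
    (c : ℝ) : Continuous (fun y => c * h y) := continuous_const.mul hs

theorem local1_hcs_add {Y : Type} [TopologicalSpace Y] {h h' : Y → ℝ} (hs : HasCompactSupport h)
    (hs' : HasCompactSupport h') : HasCompactSupport (fun y => h y + h' y) := hs.add hs'

/-- the energy of a cut-off function -/
theorem local1_cutoff {R : RD ℂ} {X : Set R.carrier} (hX : IsOpen X) {φ φ₁ : R.carrier → ℝ}
    (hφ : R.Smooth φ X) (hφ₁ : R.Smooth φ₁ X) {κ : R.carrier → ℂ} (hκ : R.Smooth κ X)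
    (hκ1 : ∀ y ∈ X, ‖κ y‖ ≤ 1) {g : R.carrier → ℂ} (hg : R.Test g) (hgX : tsupport g ⊆ X)
    {D D₁ G : ℝ} (hD : 0 < D) (hD₁ : 0 ≤ D₁) (hDG : D₁ * G ≤ D ^ 2)
    (hA : ∀ y ∈ X, ‖R.dzb κ y‖ ^ 2 * Real.exp (φ y) ≤
      D₁ * (Real.exp (φ₁ y) * R.levi 1 φ₁ y))
    (hE₁ : R.En φ₁ g ≤ G) (hE : R.En φ g ≤ 1) :
    R.En φ (fun y => κ y * g y) ≤ (1 + D) ^ 2 := by
  have hT := local1_test_mul hX hκ hg hgX
  have hgc : ContinuousOn g X :=
    (Smooth.continuousOn R isOpen_univ hg.1).mono (subset_univ X)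
  have hsupp : Function.support (fun y => κ y * g y) ⊆ Function.support g := by
    intro y hy h0
    exact hy (by simp [h0])
  have hts : tsupport (fun y => κ y * g y) ⊆ tsupport g := closure_mono hsupp
  -- the three densities
  obtain ⟨hc1, hs1⟩ := local1_dens hX hφ hg hgX (local1_cont_dzb hg).continuousOn
    (local1_support_dzb g)
  have hκc : ContinuousOn (R.dzb κ) X :=
    Smooth.continuousOn R hX (Smooth.dwb R hX hκ 1)
  obtain ⟨hc2, hs2⟩ := local1_dens hX hφ hg hgX (f := fun y => R.dzb κ y * g y)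
    (hκc.mul hgc) (by
      intro y hy
      apply subset_tsupport g
      intro h0
      exact hy (by simp [h0]))
  obtain ⟨hc, hs⟩ := local1_dens hX hφ hg hgX (local1_cont_dzb hT).continuousOn
    ((local1_support_dzb _).trans hts)
  obtain ⟨hc3, hs3⟩ := local1_dens hX hφ₁ hg hgX (f := g) hgc (subset_tsupport g)
  have hc4 : Continuous (fun y => ‖g y‖ ^ 2 * Real.exp (φ₁ y) * R.levi 1 φ₁ y) := by
    refine local1_continuous hX (hc3.continuousOn.mul (local1_continuousOn_levi hX hφ₁ 1)) ?_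
    refine (closure_minimal ?_ (isClosed_tsupport g)).trans hgX
    intro y hy
    apply subset_tsupport g
    intro h0
    exact hy (by simp [h0])
  have hs4 : HasCompactSupport (fun y => ‖g y‖ ^ 2 * Real.exp (φ₁ y) * R.levi 1 φ₁ y) :=
    hs3.mul_right
  -- integrals
  have hI3 : R.sint (fun y => ‖g y‖ ^ 2 * Real.exp (φ₁ y) * R.levi 1 φ₁ y) ≤ R.En φ₁ g :=
    R.energy_ineq hX hφ₁ hg hgX
  have hI2 : R.sint (fun y => ‖R.dzb κ y * g y‖ ^ 2 * Real.exp (φ y)) ≤ D ^ 2 := by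
    have h1 : R.sint (fun y => ‖R.dzb κ y * g y‖ ^ 2 * Real.exp (φ y)) ≤
        R.sint (fun y => D₁ * (‖g y‖ ^ 2 * Real.exp (φ₁ y) * R.levi 1 φ₁ y)) := by
      refine R.sint_mono hc2 hs2 (local1_cont_mul hc4 _) (local1_hcs_mul hs4 _) ?_
      intro y
      by_cases hy : y ∈ X
      · have h2 := mul_le_mul_of_nonneg_left (hA y hy) (sq_nonneg ‖g y‖)
        calc ‖R.dzb κ y * g y‖ ^ 2 * Real.exp (φ y)
            = ‖g y‖ ^ 2 * (‖R.dzb κ y‖ ^ 2 * Real.exp (φ y)) := by rw [norm_mul]; ring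
          _ ≤ _ := h2
          _ = _ := by ring
      · have h0 : g y = 0 := by
          by_contra h
          exact hy (hgX (subset_tsupport g h))
        simp [h0]
    rw [local1_sint_mul] at h1
    calc _ ≤ _ := h1
      _ ≤ D₁ * G := mul_le_mul_of_nonneg_left (hI3.trans hE₁) hD₁
      _ ≤ _ := hDG
  -- conclusion
  have hmain : R.En φ (fun y => κ y * g y) ≤
      R.sint (fun y => (1 + D) * (‖R.dzb g y‖ ^ 2 * Real.exp (φ y)) +
        (1 + 1 / D) * (‖R.dzb κ y * g y‖ ^ 2 * Real.exp (φ y))) := by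
    unfold En
    refine R.sint_mono hc hs ((local1_cont_mul hc1 _).add (local1_cont_mul hc2 _))
      (local1_hcs_add (local1_hcs_mul hs1 _) (local1_hcs_mul hs2 _)) ?_
    intro y
    by_cases hy : y ∈ X
    · have h1 : R.dzb (fun y => κ y * g y) y = R.dzb κ y * g y + κ y * R.dzb g y :=
        R.dwb_mul (local1_smooth_mono (singleton_subset_iff.mpr hy) hκ)
          (local1_smooth_mono (subset_univ _) hg.1) 1
      have h2 := local1_sq_ineq (a := R.dzb κ y * g y) (b := κ y * R.dzb g y) hD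
      have h3 : ‖κ y * R.dzb g y‖ ^ 2 ≤ ‖R.dzb g y‖ ^ 2 := by
        rw [norm_mul]
        have := hκ1 y hy
        have h4 : ‖κ y‖ * ‖R.dzb g y‖ ≤ 1 * ‖R.dzb g y‖ :=
          mul_le_mul_of_nonneg_right this (norm_nonneg _)
        rw [one_mul] at h4
        gcongr
      rw [h1]
      calc ‖R.dzb κ y * g y + κ y * R.dzb g y‖ ^ 2 * Real.exp (φ y)
          ≤ ((1 + D) * ‖κ y * R.dzb g y‖ ^ 2 + (1 + 1 / D) * ‖R.dzb κ y * g y‖ ^ 2) *
            Real.exp (φ y) := mul_le_mul_of_nonneg_right h2 (Real.exp_pos _).le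
        _ ≤ ((1 + D) * ‖R.dzb g y‖ ^ 2 + (1 + 1 / D) * ‖R.dzb κ y * g y‖ ^ 2) *
            Real.exp (φ y) := by gcongr
        _ = _ := by ring
    · have h6 : R.dzb (fun y => κ y * g y) y = 0 := by
        by_contra h7
        exact hy (hgX (hts (local1_support_dzb _ h7)))
      rw [h6]
      have : 0 ≤ (1 + D) * (‖R.dzb g y‖ ^ 2 * Real.exp (φ y)) +
        (1 + 1 / D) * (‖R.dzb κ y * g y‖ ^ 2 * Real.exp (φ y)) := by positivity
      simpa using this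
  have hadd := R.sint_add (h := fun y => (1 + D) * (‖R.dzb g y‖ ^ 2 * Real.exp (φ y)))
    (h' := fun y => (1 + 1 / D) * (‖R.dzb κ y * g y‖ ^ 2 * Real.exp (φ y)))
    (local1_cont_mul hc1 _) (local1_hcs_mul hs1 _) (local1_cont_mul hc2 _) (local1_hcs_mul hs2 _)
  rw [hadd, local1_sint_mul, local1_sint_mul] at hmain
  have hE' : R.sint (fun y => ‖R.dzb g y‖ ^ 2 * Real.exp (φ y)) ≤ 1 := hE
  calc _ ≤ _ := hmain
    _ ≤ (1 + D) * 1 + (1 + 1 / D) * D ^ 2 := by gcongr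
    _ = _ := by field_simp; ring

/-- the cutoff -/
noncomputable def local1_chi (t : ℝ) : ℝ := Real.smoothTransition (3 - 8 * t)

theorem local1_chi_contDiff : ContDiff ℝ ∞ local1_chi :=
  Real.smoothTransition.contDiff.comp (contDiff_const.sub (contDiff_const.mul contDiff_id))

theorem local1_chi_one {t : ℝ} (h : t ≤ 1 / 4) : local1_chi t = 1 :=
  Real.smoothTransition.one_of_one_le (by linarith)

theorem local1_chi_zero' {t : ℝ} (h : 3 / 8 ≤ t) : local1_chi t = 0 :=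
  Real.smoothTransition.zero_of_nonpos (by linarith)

theorem local1_chi_nonneg (t : ℝ) : 0 ≤ local1_chi t := Real.smoothTransition.nonneg _

theorem local1_chi_le_one (t : ℝ) : local1_chi t ≤ 1 := Real.smoothTransition.le_one _

theorem local1_smooth_chi (hρ : M.IsWeight Ω ρ) :
    M.Smooth (fun y => ((local1_chi (ρ y) : ℝ) : ℂ)) Ω :=
  local1_smooth_ofReal fun e he => local1_chi_contDiff.contDiffAt.comp (0 : ℂ × V) (hρ.smooth e he)

/-- the cutoff function on `M` and the two constants -/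
theorem local1_consts (hρ : M.IsWeight Ω ρ) : ∃ B : ℝ, 0 < B ∧ ∀ e ∈ Ω,
    ρ e ≤ 1 → ‖M.dwb (1, 0) (fun y => ((local1_chi (ρ y) : ℝ) : ℂ)) e‖ ^ 2 ≤
      B * M.levi (1, 0) ρ e := by
  have hρc : ContinuousOn ρ Ω := Smooth.continuousOn M hρ.isOpen hρ.smooth
  have hA : ContinuousOn (M.dwb (1, 0) (fun y => ((local1_chi (ρ y) : ℝ) : ℂ))) Ω :=
    Smooth.continuousOn M hρ.isOpen (Smooth.dwb M hρ.isOpen (local1_smooth_chi hρ) _)
  obtain ⟨C, hC⟩ := hρ.compact.exists_bound_of_continuousOn (hA.mono fun e he => he.1)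
  have hK2 : IsCompact ({e | e ∈ Ω ∧ ρ e ≤ 1} ∩ ρ ⁻¹' Ici (1 / 4)) :=
    hρ.compact.of_isClosed_subset
      ((hρc.mono fun e he => he.1).preimage_isClosed_of_isClosed hρ.compact.isClosed isClosed_Ici)
      inter_subset_left
  obtain ⟨σ, hσ, hσ'⟩ := hK2.exists_forall_le' (f := M.levi (1, 0) ρ)
    ((local1_continuousOn_levi hρ.isOpen hρ.smooth _).mono fun e he => he.1.1) (a := 0)
    (fun e he => hρ.strict e he.1.1 (lt_of_lt_of_le (by norm_num) he.2) _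
      (by simp [Prod.ext_iff]))
  refine ⟨(C ^ 2 + 1) / σ, by positivity, fun e he h1 => ?_⟩
  by_cases h2 : ρ e < 1 / 4
  · have h3 : (fun y => ((local1_chi (ρ y) : ℝ) : ℂ)) =ᶠ[𝓝 e] fun _ => 1 := by
      filter_upwards [(local1_isOpen hρ (1 / 4)).mem_nhds ⟨he, h2⟩] with y hy
      rw [local1_chi_one hy.2.le, ofReal_one]
    rw [local1_dwb_congr h3, local1_dwb_const]
    have h4 := hρ.psh e he (1, 0)
    have h5 : 0 ≤ (C ^ 2 + 1) / σ * M.levi (1, 0) ρ e := mul_nonneg (by positivity) h4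
    simpa using h5
  · have h3 := hσ' e ⟨⟨he, h1⟩, not_lt.mp h2⟩
    have h4 := hC e ⟨he, h1⟩
    have h5 : ‖M.dwb (1, 0) (fun y => ((local1_chi (ρ y) : ℝ) : ℂ)) e‖ ^ 2 ≤ C ^ 2 := by
      gcongr
    calc _ ≤ C ^ 2 := h5
      _ ≤ (C ^ 2 + 1) / σ * σ := by rw [div_mul_cancel₀ _ hσ.ne']; linarith
      _ ≤ _ := mul_le_mul_of_nonneg_left h3 (by positivity)

theorem local1_dwb_fib (M : RD (ℂ × V)) (p : V) {g : M.carrier → ℂ} {U : Set M.carrier}
    (hg : M.Smooth g U) (y : (M.Fib p).carrier) (hy : y.1 ∈ U) (a : ℂ) :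
    (M.Fib p).dwb a (fun y => g y.1) y = M.dwb (a, 0) g y.1 := by
  have h1 : (fun ζ : ℂ => g ((M.Fib p).tr y ζ).1) =ᶠ[𝓝 0]
      (fun v => g (M.tr y.1 v)) ∘ (ContinuousLinearMap.inl ℝ ℂ V) := by
    have h2 : ∀ᶠ ζ : ℂ in 𝓝 0, ‖ζ‖ < M.rad y.1 := by
      have := Metric.ball_mem_nhds (0 : ℂ) (M.rad_pos y.1)
      filter_upwards [this] with ζ hζ
      simpa using hζ
    filter_upwards [h2] with ζ hζ
    show g ((M.Fib p).tr y ζ).1 = g (M.tr y.1 (ζ, 0))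
    rw [fib_tr_val M p y hζ]
  have h3 : DifferentiableAt ℝ (fun v => g (M.tr y.1 v)) (ContinuousLinearMap.inl ℝ ℂ V 0) := by
    rw [map_zero]
    exact (hg y.1 hy).differentiableAt (by simp)
  have h4 : fderiv ℝ (fun ζ : ℂ => g ((M.Fib p).tr y ζ).1) 0 =
      (fderiv ℝ (fun v => g (M.tr y.1 v)) 0).comp (ContinuousLinearMap.inl ℝ ℂ V) := by
    rw [h1.fderiv_eq, fderiv_comp (0 : ℂ) h3 (ContinuousLinearMap.differentiableAt _),
      ContinuousLinearMap.fderiv, map_zero]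
  unfold dwb
  have h5 : (fun v => (fun y : (M.Fib p).carrier => g y.1) ((M.Fib p).tr y v)) =
    (fun ζ : ℂ => g ((M.Fib p).tr y ζ).1) := rfl
  rw [h5, h4]
  have h6 : ∀ b : ℂ, ((fderiv ℝ (fun v => g (M.tr y.1 v)) 0).comp
      (ContinuousLinearMap.inl ℝ ℂ V)) b = fderiv ℝ (fun v => g (M.tr y.1 v)) 0 (b, 0) :=
    fun b => rfl
  rw [h6, h6]
  have h7 : (I • ((a, 0) : ℂ × V)) = (I • a, 0) := by simp
  rw [h7]

/-- cutting off on a fibre -/
theorem local1_cut_fib (hρ : M.IsWeight Ω ρ) {B : ℝ} (hB : 0 < B) (hBd : ∀ e ∈ Ω,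
    ρ e ≤ 1 → ‖M.dwb (1, 0) (fun y => ((local1_chi (ρ y) : ℝ) : ℂ)) e‖ ^ 2 ≤
      B * M.levi (1, 0) ρ e) (p : V) (k : ℕ) {D : ℝ} (hDpos : 0 < D)
    (hD2 : D ^ 2 = B / (k + 1) * Real.exp 1) {g : (M.Fib p).carrier → ℂ}
    (hg : (M.Fib p).Test g) (hgX : tsupport g ⊆ Subtype.val ⁻¹' {y | y ∈ Ω ∧ ρ y < 1})
    (hE : (M.Fib p).En (fun y => (k : ℝ) * ρ y.1) g ≤ 1) :
    ∃ g' : (M.Fib p).carrier → ℂ, (M.Fib p).Test g' ∧
      tsupport g' ⊆ Subtype.val ⁻¹' {y | y ∈ Ω ∧ ρ y < 1 / 2} ∧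
      (M.Fib p).En (fun y => (k : ℝ) * ρ y.1) g' ≤ 1 ∧
      ∀ y : (M.Fib p).carrier, ρ y.1 = 0 → g' y = (((1 + D)⁻¹ : ℝ) : ℂ) * g y := by
  have hk : (0 : ℝ) < k + 1 := by positivity
  have hXo : IsOpen (X := (M.Fib p).carrier) (Subtype.val ⁻¹' {y | y ∈ Ω ∧ ρ y < 1}) :=
    local1_isOpen_fib M _ (local1_isOpen hρ 1)
  have hφ : ∀ c : ℝ, (M.Fib p).Smooth (fun y => c * ρ y.1)
      (Subtype.val ⁻¹' {y | y ∈ Ω ∧ ρ y < 1}) := fun c =>
    Smooth.fib M _ (local1_smooth_mono (fun y hy => hy.1) (local1_smooth_mul hρ c))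
  have hκ : (M.Fib p).Smooth (fun y => ((local1_chi (ρ y.1) : ℝ) : ℂ))
      (Subtype.val ⁻¹' {y | y ∈ Ω ∧ ρ y < 1}) :=
    Smooth.fib M _ (local1_smooth_mono (fun y hy => hy.1) (local1_smooth_chi hρ))
  have hE₁ : (M.Fib p).En (fun y => ((k : ℝ) + 1) * ρ y.1) g ≤ Real.exp 1 := by
    have h1 := local1_En_mono hXo (hφ ((k : ℝ) + 1)) (hφ k) hg hgX (c := 1) (by
      intro y hy
      have h2 : ρ y.1 < 1 := (hgX hy).2
      nlinarith)
    calc _ ≤ _ := h1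
      _ ≤ Real.exp 1 * 1 := mul_le_mul_of_nonneg_left hE (Real.exp_pos _).le
      _ = _ := mul_one _
  have hcut : (M.Fib p).En (fun y => (k : ℝ) * ρ y.1)
      (fun y => ((local1_chi (ρ y.1) : ℝ) : ℂ) * g y) ≤ (1 + D) ^ 2 := by
    have hD1 : 0 ≤ B / ((k : ℝ) + 1) := by positivity
    refine local1_cutoff (R := M.Fib p) (X := Subtype.val ⁻¹' {y | y ∈ Ω ∧ ρ y < 1})
      (φ := fun y => (k : ℝ) * ρ y.1) (φ₁ := fun y => ((k : ℝ) + 1) * ρ y.1)
      (κ := fun y => ((local1_chi (ρ y.1) : ℝ) : ℂ)) (g := g) (D := D)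
      (D₁ := B / ((k : ℝ) + 1)) (G := Real.exp 1)
      hXo (hφ k) (hφ ((k : ℝ) + 1)) hκ ?_ hg hgX hDpos hD1 hD2.ge ?_ hE₁ hE
    · intro y _
      rw [Complex.norm_real, Real.norm_of_nonneg (local1_chi_nonneg _)]
      exact local1_chi_le_one _
    · intro y hy
      have hyΩ : y.1 ∈ Ω := hy.1
      have h1 : (M.Fib p).dzb (fun y => ((local1_chi (ρ y.1) : ℝ) : ℂ)) y =
          M.dwb (1, 0) (fun y => ((local1_chi (ρ y) : ℝ) : ℂ)) y.1 :=
        local1_dwb_fib M _ (local1_smooth_chi hρ) y hyΩ 1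
      have h2 : (M.Fib p).levi 1 (fun y => ((k : ℝ) + 1) * ρ y.1) y =
          ((k : ℝ) + 1) * M.levi (1, 0) ρ y.1 := by
        rw [← M.levi_const_mul hρ.isOpen hρ.smooth hyΩ (1, 0) ((k : ℝ) + 1)]
        exact levi_fib M _ hρ.isOpen (local1_smooth_mul hρ _) y hyΩ 1
      have h3 := hBd y.1 hyΩ (le_of_lt hy.2)
      have h4 : 0 ≤ M.levi (1, 0) ρ y.1 := hρ.psh _ hyΩ _
      have h5 : 0 ≤ ρ y.1 := hρ.nonneg _ hyΩ
      rw [h1, h2]
      calc ‖M.dwb (1, 0) (fun y => ((local1_chi (ρ y) : ℝ) : ℂ)) y.1‖ ^ 2 *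
            Real.exp ((k : ℝ) * ρ y.1)
          ≤ (B * M.levi (1, 0) ρ y.1) * Real.exp (((k : ℝ) + 1) * ρ y.1) := by
            apply mul_le_mul h3 _ (Real.exp_pos _).le (mul_nonneg hB.le h4)
            apply Real.exp_le_exp.mpr
            nlinarith
        _ = _ := by field_simp
  -- normalise
  have hT := local1_test_mul hXo hκ hg hgX
  have hc0 : (0 : ℝ) < (1 + D)⁻¹ := by positivity
  have hh : ∀ y : (M.Fib p).carrier,
      (((1 + D)⁻¹ : ℝ) : ℂ) * (((local1_chi (ρ y.1) : ℝ) : ℂ) * g y) ≠ 0 → g y ≠ 0 := by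
    intro y h1 h0
    exact h1 (by rw [h0, mul_zero, mul_zero])
  refine ⟨_, local1_test_const_mul (((1 + D)⁻¹ : ℝ) : ℂ) hT, ?_, ?_, ?_⟩
  · intro y hy
    have h1 : y ∈ tsupport g := local1_tsupport_mono hh hy
    have h2 : y.1 ∈ Ω ∧ ρ y.1 < 1 := hgX h1
    refine ⟨h2.1, ?_⟩
    by_contra hcon
    have h3 : 3 / 8 < ρ y.1 := lt_of_lt_of_le (by norm_num) (not_lt.mp hcon)
    have h4 : IsOpen (Ω ∩ ρ ⁻¹' Ioi (3 / 8)) :=
      (Smooth.continuousOn M hρ.isOpen hρ.smooth).isOpen_inter_preimage hρ.isOpen isOpen_Ioi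
    have h5 := local1_isOpen_fib M p h4
    refine local1_notMem_tsupport h5 ⟨h2.1, h3⟩ (fun z hz => ?_) hy
    have h7 : local1_chi (ρ z.1) = 0 := local1_chi_zero' (le_of_lt hz.2)
    rw [h7, ofReal_zero, zero_mul, mul_zero]
  · rw [local1_En_const_mul _ hc0.le hT]
    calc _ ≤ (1 + D)⁻¹ ^ 2 * (1 + D) ^ 2 := mul_le_mul_of_nonneg_left hcut (by positivity)
      _ = 1 := by
        rw [← mul_pow, inv_mul_cancel₀ (by positivity), one_pow]
  · intro y hy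
    have h3 : local1_chi (ρ y.1) = 1 := by
      rw [hy]
      exact local1_chi_one (by norm_num)
    rw [h3, ofReal_one, one_mul]

/-- independence of the wall, by cutting off: the energy inequality makes this cost `O(1/√k)` -/
theorem Nk_cut (hρ : M.IsWeight Ω ρ) {r : ℝ} (hr : 0 < r) :
    ∃ C : ℝ, 0 ≤ C ∧ ∀ e, r < M.rad e →
      (∀ ζ : ℂ, ‖ζ‖ ≤ r → M.tr e (ζ, 0) ∈ Ω ∧ ρ (M.tr e (ζ, 0)) = 0) →
      ∀ k : ℕ, M.Nk Ω ρ r 1 k e ≤ (1 + C / √(k + 1)) ^ 2 * M.Nk Ω ρ r (1 / 2) k e := by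
  obtain ⟨B, hB, hBd⟩ := local1_consts hρ
  refine ⟨√(B * Real.exp 1), Real.sqrt_nonneg _, fun e he hdisc k => ?_⟩
  have hk : (0 : ℝ) < k + 1 := by positivity
  obtain ⟨D, hD⟩ : ∃ D : ℝ, D = √(B * Real.exp 1) / √(k + 1) := ⟨_, rfl⟩
  have hDpos : 0 < D := by rw [hD]; positivity
  have hD2 : D ^ 2 = B / (k + 1) * Real.exp 1 := by
    rw [hD, div_pow, Real.sq_sqrt (by positivity), Real.sq_sqrt hk.le]
    ring
  rw [← hD]
  apply Real.sSup_le _ (mul_nonneg (by positivity) (Nk_nonneg M Ω ρ r _ k e))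
  rintro t ⟨g, hg, hgX, hE, rfl⟩
  obtain ⟨g', hg', hgX', hE', hgg⟩ := local1_cut_fib hρ hB hBd (M.pr e).2 k hDpos hD2 hg hgX hE
  have hc0 : (0 : ℝ) < (1 + D)⁻¹ := by positivity
  have hell : (M.Fib (M.pr e).2).ell ⟨e, rfl⟩ r g' =
      (((1 + D)⁻¹ : ℝ) : ℂ) * (M.Fib (M.pr e).2).ell ⟨e, rfl⟩ r g := by
    rw [← local1_ell_mul]
    apply local1_ell_congr
    intro ζ hζ
    have h1 : ‖(r : ℂ) * ζ‖ ≤ r := by
      rw [norm_mul, Complex.norm_real, Real.norm_of_nonneg hr.le]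
      nlinarith
    have h2 : ((M.Fib (M.pr e).2).tr ⟨e, rfl⟩ ((r : ℂ) * ζ)).1 = M.tr e ((r : ℂ) * ζ, 0) :=
      fib_tr_val M _ ⟨e, rfl⟩ (lt_of_le_of_lt h1 he)
    apply hgg
    rw [h2, (hdisc _ h1).2]
  have hfin := local1_le_Nk hρ hr he (by norm_num) k ⟨g', hg', hgX', hE', rfl⟩
  rw [hell, norm_mul, Complex.norm_real, Real.norm_of_nonneg hc0.le, mul_pow] at hfin
  have h8 := mul_le_mul_of_nonneg_left hfin (sq_nonneg (1 + D))
  rwa [← mul_assoc, ← mul_pow, mul_inv_cancel₀ (by positivity), one_pow, one_mul] at h8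

end RD

end Pool.Agent.ParLeaf
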