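import Mathlib

/-! MP_3a36cd_an, module VarT: elementary expansions for the second variation. -/

open Set Metric Filter Topology Complex
open scoped ContDiff

namespace Pool.Agent.ParLeaf

theorem exp_taylor {M : ℝ} (hM : 0 ≤ M) : ∃ K s₀ : ℝ, 0 ≤ K ∧ 0 < s₀ ∧ s₀ ≤ 1 ∧
    ∀ s, 0 < s → s < s₀ → ∀ α h D : ℝ, |α| ≤ M → |h| ≤ M →
      |D - α * s - h * s ^ 2 / 2| ≤ M * s ^ 3 →
      |Real.exp (-D) - (1 - α * s + (α ^ 2 - h) * s ^ 2 / 2)| ≤ K * s ^ 3 := by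
  refine ⟨M + 3 * M ^ 2 + 27 * M ^ 3, min 1 (1 / (3 * M + 3)), by positivity,
    lt_min one_pos (by positivity), min_le_left _ _, fun s hs hs0 α h D hα hh hD => ?_⟩
  have hs1 : s < 1 := hs0.trans_le (min_le_left _ _)
  have hs2 : s < 1 / (3 * M + 3) := hs0.trans_le (min_le_right _ _)
  have hs3 : s * (3 * M + 3) < 1 := by rwa [lt_div_iff₀ (by positivity)] at hs2
  have hss : s ^ 2 ≤ s := by nlinarith
  have hsss : s ^ 3 ≤ s := by nlinarith [mul_pos hs hs]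
  have hs32 : s ^ 3 ≤ s ^ 2 := by nlinarith [mul_pos hs hs]
  have h1 : |α * s| ≤ M * s := by
    rw [abs_mul, abs_of_pos hs]; exact mul_le_mul_of_nonneg_right hα hs.le
  have h2 : |h * s ^ 2 / 2| ≤ M * s ^ 2 / 2 := by
    rw [abs_div, abs_mul, abs_of_pos (pow_pos hs 2), abs_two]
    have := mul_le_mul_of_nonneg_right hh (sq_nonneg s)
    linarith
  have hDα : |D - α * s| ≤ 3 / 2 * M * s ^ 2 := by
    have e : D - α * s = (D - α * s - h * s ^ 2 / 2) + h * s ^ 2 / 2 := by ring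
    rw [e]
    refine (abs_add_le _ _).trans ?_
    have := mul_le_mul_of_nonneg_left hs32 hM
    linarith
  have hDb : |D| ≤ 3 * M * s := by
    have e : D = (D - α * s) + α * s := by ring
    rw [e]
    refine (abs_add_le _ _).trans ?_
    have := mul_le_mul_of_nonneg_left hss hM
    nlinarith
  have hD1 : |D| ≤ 1 := by nlinarith
  have h3 : |Real.exp (-D) - (1 - D + D ^ 2 / 2)| ≤ |D| ^ 3 := by
    have := Real.exp_bound (x := -D) (by rwa [abs_neg]) (n := 3) (by norm_num)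
    have e : ∑ m ∈ Finset.range 3, (-D) ^ m / (Nat.factorial m : ℝ) = 1 - D + D ^ 2 / 2 := by
      simp [Finset.sum_range_succ, Nat.factorial]
      ring
    rw [e, abs_neg] at this
    refine this.trans ?_
    have h0 : 0 ≤ |D| ^ 3 := by positivity
    have e2 : ((Nat.succ 3 : ℕ) : ℝ) / ((Nat.factorial 3 : ℕ) * ((3 : ℕ) : ℝ)) ≤ 1 := by
      norm_num [Nat.factorial]
    calc |D| ^ 3 * (((Nat.succ 3 : ℕ) : ℝ) / ((Nat.factorial 3 : ℕ) * ((3 : ℕ) : ℝ)))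
        ≤ |D| ^ 3 * 1 := mul_le_mul_of_nonneg_left e2 h0
      _ = |D| ^ 3 := mul_one _
  have h4 : |D| ^ 3 ≤ 27 * M ^ 3 * s ^ 3 := by
    calc |D| ^ 3 ≤ (3 * M * s) ^ 3 := pow_le_pow_left₀ (abs_nonneg _) hDb 3
      _ = 27 * M ^ 3 * s ^ 3 := by ring
  have h5 : |D ^ 2 / 2 - (α * s) ^ 2 / 2| ≤ 3 * M ^ 2 * s ^ 3 := by
    have e : D ^ 2 / 2 - (α * s) ^ 2 / 2 = (D - α * s) * (D + α * s) / 2 := by ring
    rw [e, abs_div, abs_mul, abs_two]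
    have h6 : |D + α * s| ≤ 4 * M * s := (abs_add_le _ _).trans (by linarith)
    have h7 : |D - α * s| * |D + α * s| ≤ (3 / 2 * M * s ^ 2) * (4 * M * s) :=
      mul_le_mul hDα h6 (abs_nonneg _) (by positivity)
    have e2 : (3 / 2 * M * s ^ 2) * (4 * M * s) = 6 * M ^ 2 * s ^ 3 := by ring
    rw [e2] at h7
    linarith
  have e : Real.exp (-D) - (1 - α * s + (α ^ 2 - h) * s ^ 2 / 2) =
      (Real.exp (-D) - (1 - D + D ^ 2 / 2)) - (D - α * s - h * s ^ 2 / 2) +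
        (D ^ 2 / 2 - (α * s) ^ 2 / 2) := by ring
  rw [e]
  refine (abs_add_le _ _).trans ?_
  have := abs_sub (Real.exp (-D) - (1 - D + D ^ 2 / 2)) (D - α * s - h * s ^ 2 / 2)
  nlinarith

theorem term_aux {V E T κ N : ℝ} (hV : 0 ≤ V) (hVN : V ≤ 2 * N) (h : E - T ≤ κ) (hκ : 0 ≤ κ) :
    V * E ≤ V * T + 2 * N * κ := by
  have h1 : V * (E - T) ≤ V * κ := mul_le_mul_of_nonneg_left h hV
  have h2 : V * κ ≤ 2 * N * κ := mul_le_mul_of_nonneg_right hVN hκ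
  linarith

theorem sq_aux {a b s : ℝ} (hs : s ^ 2 ≤ 1) : (a + s * b) ^ 2 ≤ 2 * (a ^ 2 + b ^ 2) := by
  have h1 : (s * b) ^ 2 ≤ b ^ 2 := by
    rw [mul_pow]; exact mul_le_of_le_one_left (sq_nonneg b) hs
  have h2 := sq_nonneg (a - s * b)
  have e1 : (a + s * b) ^ 2 + (a - s * b) ^ 2 = 2 * (a ^ 2 + (s * b) ^ 2) := by ring
  linarith

theorem sq_aux' {a b s : ℝ} (hs : s ^ 2 ≤ 1) : (a - s * b) ^ 2 ≤ 2 * (a ^ 2 + b ^ 2) := by
  have := sq_aux (a := a) (b := -b) hs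
  have e : a + s * -b = a - s * b := by ring
  rw [e] at this
  simpa using this

theorem poly_aux {M s α β h k N2 N1 : ℝ} (hM : 0 ≤ M) (hs : 0 < s) (hs1 : s ≤ 1) (hα : |α| ≤ M)
    (hβ : |β| ≤ M) (hh : |h| ≤ M) (hk : |k| ≤ M) (h1 : 0 ≤ N1) (h2 : 0 ≤ N2) :
    ((α ^ 2 - h) / 2 + (β ^ 2 - k) / 2) / 2 * s ^ 4 * N2 ≤ (M ^ 2 + M) * s ^ 3 * (N1 + N2) := by
  have hα2 : α ^ 2 ≤ M ^ 2 := by rw [← sq_abs]; exact pow_le_pow_left₀ (abs_nonneg _) hα 2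
  have hβ2 : β ^ 2 ≤ M ^ 2 := by rw [← sq_abs]; exact pow_le_pow_left₀ (abs_nonneg _) hβ 2
  have hh2 := (abs_le.1 hh).1
  have hk2 := (abs_le.1 hk).1
  have hM2 : 0 ≤ M ^ 2 := sq_nonneg M
  have g1 : ((α ^ 2 - h) / 2 + (β ^ 2 - k) / 2) / 2 ≤ M ^ 2 + M := by linarith
  have g2 : s ^ 4 ≤ s ^ 3 := pow_le_pow_of_le_one hs.le hs1 (by norm_num)
  have g3 : 0 ≤ s ^ 4 * N2 := by positivity
  have g4 : s ^ 4 * N2 ≤ s ^ 3 * (N1 + N2) :=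
    mul_le_mul g2 (by linarith) h2 (by positivity)
  calc _ = ((α ^ 2 - h) / 2 + (β ^ 2 - k) / 2) / 2 * (s ^ 4 * N2) := by ring
    _ ≤ (M ^ 2 + M) * (s ^ 4 * N2) := mul_le_mul_of_nonneg_right g1 g3
    _ ≤ (M ^ 2 + M) * (s ^ 3 * (N1 + N2)) :=
        mul_le_mul_of_nonneg_left g4 (by positivity)
    _ = _ := by ring

theorem ident_aux (a1 a2 b1 b2 α β h k s : ℝ) :
    (((a1 + s * b1) ^ 2 + (a2 + s * b2) ^ 2) * (1 - α * s + (α ^ 2 - h) * s ^ 2 / 2) +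
      ((a1 - s * b1) ^ 2 + (a2 - s * b2) ^ 2) * (1 - -α * s + ((-α) ^ 2 - h) * s ^ 2 / 2) +
      ((a1 + s * b2) ^ 2 + (a2 - s * b1) ^ 2) * (1 - β * s + (β ^ 2 - k) * s ^ 2 / 2) +
      ((a1 - s * b2) ^ 2 + (a2 + s * b1) ^ 2) * (1 - -β * s + ((-β) ^ 2 - k) * s ^ 2 / 2)) / 4 =
      (a1 ^ 2 + a2 ^ 2) + s ^ 2 * (((b1 - (α * a1 - β * a2) / 2) ^ 2 +
        (b2 - (α * a2 + β * a1) / 2) ^ 2) - (h + k) / 4 * (a1 ^ 2 + a2 ^ 2)) +
      ((α ^ 2 - h) / 2 + (β ^ 2 - k) / 2) / 2 * s ^ 4 * (b1 ^ 2 + b2 ^ 2) := by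
  ring

theorem four_pt {M : ℝ} (hM : 0 ≤ M) : ∃ K s₀ : ℝ, 0 ≤ K ∧ 0 < s₀ ∧
    ∀ s, 0 < s → s < s₀ → ∀ (α β h k D₁ D₂ E₁ E₂ : ℝ), |α| ≤ M → |β| ≤ M → |h| ≤ M → |k| ≤ M →
      |D₁ - α * s - h * s ^ 2 / 2| ≤ M * s ^ 3 → |D₂ - (-α) * s - h * s ^ 2 / 2| ≤ M * s ^ 3 →
      |E₁ - β * s - k * s ^ 2 / 2| ≤ M * s ^ 3 → |E₂ - (-β) * s - k * s ^ 2 / 2| ≤ M * s ^ 3 →
      ∀ A B : ℂ,
        (‖A + s * B‖ ^ 2 * Real.exp (-D₁) + ‖A - s * B‖ ^ 2 * Real.exp (-D₂) +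
          ‖A - s * I * B‖ ^ 2 * Real.exp (-E₁) + ‖A + s * I * B‖ ^ 2 * Real.exp (-E₂)) / 4 ≤
        ‖A‖ ^ 2 + s ^ 2 * (‖B - (α + β * I) / 2 * A‖ ^ 2 - (h + k) / 4 * ‖A‖ ^ 2) +
          K * s ^ 3 * (‖A‖ ^ 2 + ‖B‖ ^ 2) := by
  obtain ⟨K, s₀, hK, hs₀, hs₀1, H⟩ := exp_taylor hM
  refine ⟨2 * K + (M ^ 2 + M), s₀, by positivity, hs₀, fun s hs hss α β h k D₁ D₂ E₁ E₂ hα hβ hh hk
    h1 h2 h3 h4 A B => ?_⟩
  have hs1 : s ≤ 1 := (hss.trans_le hs₀1).le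
  have H1 := (abs_le.1 (H s hs hss α h D₁ hα hh h1)).2
  have H2 := (abs_le.1 (H s hs hss (-α) h D₂ (by rwa [abs_neg]) hh h2)).2
  have H3 := (abs_le.1 (H s hs hss β k E₁ hβ hk h3)).2
  have H4 := (abs_le.1 (H s hs hss (-β) k E₂ (by rwa [abs_neg]) hk h4)).2
  obtain ⟨a1, a2⟩ := A
  obtain ⟨b1, b2⟩ := B
  simp only [← Complex.normSq_eq_norm_sq]
  have n1 : normSq ((⟨a1, a2⟩ : ℂ) + s * ⟨b1, b2⟩) = (a1 + s * b1) ^ 2 + (a2 + s * b2) ^ 2 := by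
    simp [normSq_apply]; ring
  have n2 : normSq ((⟨a1, a2⟩ : ℂ) - s * ⟨b1, b2⟩) = (a1 - s * b1) ^ 2 + (a2 - s * b2) ^ 2 := by
    simp [normSq_apply]; ring
  have n3 : normSq ((⟨a1, a2⟩ : ℂ) - s * I * ⟨b1, b2⟩) =
      (a1 + s * b2) ^ 2 + (a2 - s * b1) ^ 2 := by
    simp [normSq_apply]; ring
  have n4 : normSq ((⟨a1, a2⟩ : ℂ) + s * I * ⟨b1, b2⟩) =
      (a1 - s * b2) ^ 2 + (a2 + s * b1) ^ 2 := by
    simp [normSq_apply]; ring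
  have n5 : normSq ((⟨b1, b2⟩ : ℂ) - (α + β * I) / 2 * ⟨a1, a2⟩) =
      (b1 - (α * a1 - β * a2) / 2) ^ 2 + (b2 - (α * a2 + β * a1) / 2) ^ 2 := by
    simp [normSq_apply]; ring
  have n6 : normSq (⟨a1, a2⟩ : ℂ) = a1 ^ 2 + a2 ^ 2 := by simp [normSq_apply]; ring
  have n7 : normSq (⟨b1, b2⟩ : ℂ) = b1 ^ 2 + b2 ^ 2 := by simp [normSq_apply]; ring
  rw [n1, n2, n3, n4, n5, n6, n7]
  have hs2 : s ^ 2 ≤ 1 := by
    calc s ^ 2 ≤ 1 ^ 2 := pow_le_pow_left₀ hs.le hs1 2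
      _ = 1 := one_pow 2
  have hκ : 0 ≤ K * s ^ 3 := by positivity
  have q1 := term_aux (N := a1 ^ 2 + a2 ^ 2 + (b1 ^ 2 + b2 ^ 2))
    (by positivity : 0 ≤ (a1 + s * b1) ^ 2 + (a2 + s * b2) ^ 2)
    (by have := sq_aux (a := a1) (b := b1) hs2; have := sq_aux (a := a2) (b := b2) hs2; linarith)
    H1 hκ
  have q2 := term_aux (N := a1 ^ 2 + a2 ^ 2 + (b1 ^ 2 + b2 ^ 2))
    (by positivity : 0 ≤ (a1 - s * b1) ^ 2 + (a2 - s * b2) ^ 2)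
    (by have := sq_aux' (a := a1) (b := b1) hs2; have := sq_aux' (a := a2) (b := b2) hs2; linarith)
    H2 hκ
  have q3 := term_aux (N := a1 ^ 2 + a2 ^ 2 + (b1 ^ 2 + b2 ^ 2))
    (by positivity : 0 ≤ (a1 + s * b2) ^ 2 + (a2 - s * b1) ^ 2)
    (by have := sq_aux (a := a1) (b := b2) hs2; have := sq_aux' (a := a2) (b := b1) hs2; linarith)
    H3 hκ
  have q4 := term_aux (N := a1 ^ 2 + a2 ^ 2 + (b1 ^ 2 + b2 ^ 2))
    (by positivity : 0 ≤ (a1 - s * b2) ^ 2 + (a2 + s * b1) ^ 2)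
    (by have := sq_aux' (a := a1) (b := b2) hs2; have := sq_aux (a := a2) (b := b1) hs2; linarith)
    H4 hκ
  have q5 := poly_aux (N1 := a1 ^ 2 + a2 ^ 2) (N2 := b1 ^ 2 + b2 ^ 2) hM hs hs1 hα hβ hh hk
    (by positivity) (by positivity)
  have key := ident_aux a1 a2 b1 b2 α β h k s
  generalize Real.exp (-D₁) = X1 at *
  generalize Real.exp (-D₂) = X2 at *
  generalize Real.exp (-E₁) = X3 at *
  generalize Real.exp (-E₂) = X4 at *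
  linarith

/-- third order Taylor estimate -/
theorem taylor3 {f f1 f2 f3 : ℝ → ℝ} {δ M : ℝ} (h0 : ∀ t, |t| < δ → HasDerivAt f (f1 t) t)
    (h1 : ∀ t, |t| < δ → HasDerivAt f1 (f2 t) t) (h2 : ∀ t, |t| < δ → HasDerivAt f2 (f3 t) t)
    (hM : ∀ t, |t| < δ → |f3 t| ≤ M) {t : ℝ} (ht : |t| < δ) :
    |f t - f 0 - f1 0 * t - f2 0 * t ^ 2 / 2| ≤ M * |t| ^ 3 := by
  have hM0 : 0 ≤ M := (abs_nonneg _).trans (hM t ht)
  have hconv : Convex ℝ (closedBall (0 : ℝ) |t|) := convex_closedBall _ _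
  have hin : ∀ x ∈ closedBall (0 : ℝ) |t|, |x| < δ := by
    intro x hx
    have : |x| ≤ |t| := by simpa using hx
    exact this.trans_lt ht
  have hx0 : (0 : ℝ) ∈ closedBall (0 : ℝ) |t| := by simp
  have s1 : ∀ x ∈ closedBall (0 : ℝ) |t|, |f2 x - f2 0| ≤ M * |t| := by
    intro x hx
    have := hconv.norm_image_sub_le_of_norm_hasDerivWithin_le (f := f2) (f' := f3) (C := M)
      (fun z hz => (h2 z (hin z hz)).hasDerivWithinAt) (fun z hz => hM z (hin z hz)) hx0 hx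
    have hx' : |x| ≤ |t| := by simpa using hx
    calc |f2 x - f2 0| ≤ M * |x - 0| := by simpa [Real.norm_eq_abs] using this
      _ ≤ M * |t| := by rw [sub_zero]; exact mul_le_mul_of_nonneg_left hx' hM0
  have s2 : ∀ x ∈ closedBall (0 : ℝ) |t|, |f1 x - f1 0 - f2 0 * x| ≤ M * |t| * |t| := by
    intro x hx
    have hd : ∀ z ∈ closedBall (0 : ℝ) |t|, HasDerivWithinAt (fun z => f1 z - f2 0 * z)
        (f2 z - f2 0) (closedBall (0 : ℝ) |t|) z := by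
      intro z hz
      have h3 := (h1 z (hin z hz)).sub ((hasDerivAt_id z).const_mul (f2 0))
      refine (h3.congr_deriv ?_).hasDerivWithinAt
      simp
    have := hconv.norm_image_sub_le_of_norm_hasDerivWithin_le (C := M * |t|) hd
      (fun z hz => s1 z hz) hx0 hx
    have hx' : |x| ≤ |t| := by simpa using hx
    have e : f1 x - f1 0 - f2 0 * x = (f1 x - f2 0 * x) - (f1 0 - f2 0 * 0) := by ring
    rw [e]
    calc _ ≤ M * |t| * |x - 0| := by simpa [Real.norm_eq_abs] using this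
      _ ≤ M * |t| * |t| := by
        rw [sub_zero]; exact mul_le_mul_of_nonneg_left hx' (by positivity)
  have htt : t ∈ closedBall (0 : ℝ) |t| := by simp
  have hd : ∀ z ∈ closedBall (0 : ℝ) |t|, HasDerivWithinAt
      (fun z => f z - f1 0 * z - f2 0 * z ^ 2 / 2)
      (f1 z - f1 0 - f2 0 * z) (closedBall (0 : ℝ) |t|) z := by
    intro z hz
    have h3 := ((h0 z (hin z hz)).sub ((hasDerivAt_id z).const_mul (f1 0))).sub
      (((hasDerivAt_pow 2 z).const_mul (f2 0)).div_const 2)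
    refine (h3.congr_deriv ?_).hasDerivWithinAt
    simp
    ring
  have := hconv.norm_image_sub_le_of_norm_hasDerivWithin_le (C := M * |t| * |t|) hd
    (fun z hz => s2 z hz) hx0 htt
  have e : f t - f 0 - f1 0 * t - f2 0 * t ^ 2 / 2 =
    (f t - f1 0 * t - f2 0 * t ^ 2 / 2) - (f 0 - f1 0 * 0 - f2 0 * 0 ^ 2 / 2) := by ring
  rw [e]
  calc _ ≤ M * |t| * |t| * |t - 0| := by simpa [Real.norm_eq_abs] using this
    _ = M * |t| ^ 3 := by rw [sub_zero]; ring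

end Pool.Agent.ParLeaf
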