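import Pool.Agent.H.MP_3a36cd_an.Wirt1
import Pool.Agent.H.MP_3a36cd_an.VarT

/-! MP_3a36cd_an, module VarC: local calculus for a smooth family of weights. -/

open Set Metric Filter Topology Complex
open scoped ContDiff

namespace Pool.Agent.ParLeaf

section D1

variable {E : Type} [NormedAddCommGroup E] [NormedSpace ℝ E]

/-- directional derivative -/
noncomputable def D1 (w : E) (F : E → ℝ) (q : E) : ℝ := fderiv ℝ F q w

theorem D1_contDiffAt {F : E → ℝ} {x : E} (w : E) (h : ContDiffAt ℝ ∞ F x) :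
    ContDiffAt ℝ ∞ (D1 w F) x := by
  have h1 : ContDiffAt ℝ ∞ (fderiv ℝ F) x := h.fderiv_right (by simp)
  exact h1.clm_apply contDiffAt_const

theorem D1_congr {F G : E → ℝ} {c : E} (w : E) (h : F =ᶠ[𝓝 0] fun q => G (q + c)) :
    D1 w F =ᶠ[𝓝 0] fun q => D1 w G (q + c) := by
  filter_upwards [h.fderiv (𝕜 := ℝ)] with q hq
  simp only [D1]
  rw [hq, fderiv_comp_add_right]

theorem D1_hasDerivAt {F : E → ℝ} {x : E} (h : ContDiffAt ℝ ∞ F x) (w : E) :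
    ∀ᶠ z in 𝓝 x, HasDerivAt (fun t : ℝ => F (z + t • w)) (D1 w F z) 0 := by
  have h1 : ContDiffAt ℝ 1 F x := h.of_le (by exact_mod_cast le_top)
  filter_upwards [h1.eventually (by simp)] with z hz
  have h2 : HasFDerivAt F (fderiv ℝ F z) z := (hz.differentiableAt (by simp)).hasFDerivAt
  have h3 : HasDerivAt (fun t : ℝ => z + t • w) w 0 := by
    have := ((hasDerivAt_id (0 : ℝ)).smul_const w).const_add z
    simpa using this
  have h4 : HasFDerivAt F (fderiv ℝ F z) (z + (0 : ℝ) • w) := by simpa using h2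
  exact h4.comp_hasDerivAt (0 : ℝ) h3

end D1

namespace RD

variable (R : RD ℂ)

/-- the local expression of a family of functions near `(τ, y)` -/
def Fy (Φ : ℂ → R.carrier → ℝ) (τ : ℂ) (y : R.carrier) : ℂ × ℂ → ℝ :=
  fun q => Φ (τ + q.1) (R.tr y q.2)

/-- first derivative with respect to the parameter -/
noncomputable def A1 (Φ : ℂ → R.carrier → ℝ) (τ e : ℂ) (y : R.carrier) : ℝ :=
  D1 (e, 0) (R.Fy Φ τ y) 0

/-- second derivative with respect to the parameter -/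
noncomputable def A2 (Φ : ℂ → R.carrier → ℝ) (τ e : ℂ) (y : R.carrier) : ℝ :=
  D1 (e, 0) (D1 (e, 0) (R.Fy Φ τ y)) 0

theorem Fy_shift (Φ : ℂ → R.carrier → ℝ) (τ σ : ℂ) {y : R.carrier} {v : ℂ}
    (hv : ‖v‖ < R.rad y) :
    R.Fy Φ (τ + σ) (R.tr y v) =ᶠ[𝓝 0] fun q => R.Fy Φ τ y (q + (σ, v)) := by
  have h1 : ∀ᶠ q : ℂ × ℂ in 𝓝 0, ‖q.2‖ < R.rad (R.tr y v) := by
    have hc : Continuous (fun q : ℂ × ℂ => ‖q.2‖) := by fun_prop
    have : Tendsto (fun q : ℂ × ℂ => ‖q.2‖) (𝓝 0) (𝓝 0) := by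
      simpa using hc.tendsto 0
    exact this.eventually_lt_const (R.rad_pos _)
  have h2 : ∀ᶠ q : ℂ × ℂ in 𝓝 0, ‖v + q.2‖ < R.rad y := by
    have hc : Continuous (fun q : ℂ × ℂ => ‖v + q.2‖) := by fun_prop
    have : Tendsto (fun q : ℂ × ℂ => ‖v + q.2‖) (𝓝 0) (𝓝 ‖v‖) := by
      simpa using hc.tendsto 0
    exact this.eventually_lt_const hv
  filter_upwards [h1, h2] with q hq1 hq2
  simp only [Fy, Prod.fst_add, Prod.snd_add]
  rw [R.tr_tr y v q.2 hv hq1 hq2]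
  congr 1
  · ring
  · congr 1; ring

theorem A1_tr (Φ : ℂ → R.carrier → ℝ) (τ e : ℂ) {y : R.carrier} {v : ℂ}
    (hv : ‖v‖ < R.rad y) : R.A1 Φ τ e (R.tr y v) = D1 (e, 0) (R.Fy Φ τ y) (0, v) := by
  have h := D1_congr (e, 0) (R.Fy_shift Φ τ 0 hv)
  have := h.self_of_nhds
  simpa [A1] using this

theorem A2_tr (Φ : ℂ → R.carrier → ℝ) (τ e : ℂ) {y : R.carrier} {v : ℂ}
    (hv : ‖v‖ < R.rad y) :
    R.A2 Φ τ e (R.tr y v) = D1 (e, 0) (D1 (e, 0) (R.Fy Φ τ y)) (0, v) := by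
  have h := D1_congr (e, 0) (D1_congr (e, 0) (R.Fy_shift Φ τ 0 hv))
  have := h.self_of_nhds
  simpa [A2] using this

/-- local uniform Taylor estimate -/
theorem taylor_local {Φ : ℂ → R.carrier → ℝ} {τ : ℂ} {y : R.carrier}
    (h : ContDiffAt ℝ ∞ (R.Fy Φ τ y) 0) (e : ℂ) (he : ‖e‖ = 1) :
    ∃ δ > 0, ∃ M : ℝ, 0 ≤ M ∧ ∀ v, ‖v‖ < δ →
      |R.A1 Φ τ e (R.tr y v)| ≤ M ∧ |R.A2 Φ τ e (R.tr y v)| ≤ M ∧ ∀ t : ℝ, |t| < δ →
        |Φ (τ + t * e) (R.tr y v) - Φ τ (R.tr y v) - R.A1 Φ τ e (R.tr y v) * t -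
          R.A2 Φ τ e (R.tr y v) * t ^ 2 / 2| ≤ M * |t| ^ 3 := by
  set F := R.Fy Φ τ y with hF
  set w : ℂ × ℂ := (e, 0) with hw
  have hF1 := D1_contDiffAt w h
  have hF2 := D1_contDiffAt w hF1
  have hF3 := D1_contDiffAt w hF2
  -- bounds near zero
  have hb : ∀ G : ℂ × ℂ → ℝ, ContDiffAt ℝ ∞ G 0 → ∀ᶠ z in 𝓝 (0 : ℂ × ℂ), |G z| ≤ |G 0| + 1 := by
    intro G hG
    have := (hG.continuousAt.abs).eventually_lt_const (lt_add_one |G 0|)
    filter_upwards [this] with z hz using hz.le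
  have hall : ∀ᶠ z in 𝓝 (0 : ℂ × ℂ),
      (HasDerivAt (fun t : ℝ => F (z + t • w)) (D1 w F z) 0 ∧
       HasDerivAt (fun t : ℝ => D1 w F (z + t • w)) (D1 w (D1 w F) z) 0 ∧
       HasDerivAt (fun t : ℝ => D1 w (D1 w F) (z + t • w)) (D1 w (D1 w (D1 w F)) z) 0) ∧
      |D1 w F z| ≤ |D1 w F 0| + 1 ∧ |D1 w (D1 w F) z| ≤ |D1 w (D1 w F) 0| + 1 ∧
      |D1 w (D1 w (D1 w F)) z| ≤ |D1 w (D1 w (D1 w F)) 0| + 1 := by
    filter_upwards [D1_hasDerivAt h w, D1_hasDerivAt hF1 w, D1_hasDerivAt hF2 w, hb _ hF1, hb _ hF2,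
      hb _ hF3] with z h1 h2 h3 h4 h5 h6
    exact ⟨⟨h1, h2, h3⟩, h4, h5, h6⟩
  obtain ⟨δ, hδ, hball⟩ := Metric.eventually_nhds_iff.1 hall
  set M := (|D1 w F 0| + 1) + (|D1 w (D1 w F) 0| + 1) + (|D1 w (D1 w (D1 w F)) 0| + 1) with hM
  have hM0 : 0 ≤ M := by positivity
  refine ⟨min δ (R.rad y), lt_min hδ (R.rad_pos y), M, hM0, fun v hv => ?_⟩
  have hv1 : ‖v‖ < δ := hv.trans_le (min_le_left _ _)
  have hv2 : ‖v‖ < R.rad y := hv.trans_le (min_le_right _ _)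
  have hmem : ∀ t : ℝ, |t| < δ → dist (((0 : ℂ), v) + t • w) 0 < δ := by
    intro t ht
    rw [dist_zero_right, hw]
    simp only [Prod.smul_mk, Prod.mk_add_mk, Prod.norm_def]
    refine max_lt ?_ (by simpa using hv1)
    simp [he, ht]
  have hmem0 : dist ((0 : ℂ), v) 0 < δ := by simpa using hmem 0 (by simpa using hδ)
  have B := hball hmem0
  have e1 := R.A1_tr Φ τ e hv2
  have e2 := R.A2_tr Φ τ e hv2
  rw [e1, e2]
  have p1 : 0 ≤ |D1 w F 0| + 1 := by positivity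
  have p2 : 0 ≤ |D1 w (D1 w F) 0| + 1 := by positivity
  have p3 : 0 ≤ |D1 w (D1 w (D1 w F)) 0| + 1 := by positivity
  refine ⟨B.2.1.trans (by linarith), B.2.2.1.trans (by linarith), fun t ht => ?_⟩
  have ht' : |t| < δ := ht.trans_le (min_le_left _ _)
  have shift : ∀ G G' : ℂ × ℂ → ℝ, ∀ s : ℝ,
      HasDerivAt (fun t : ℝ => G (((0 : ℂ), v) + s • w + t • w)) (G' (((0 : ℂ), v) + s • w)) 0 →
      HasDerivAt (fun t : ℝ => G (((0 : ℂ), v) + t • w)) (G' (((0 : ℂ), v) + s • w)) s := by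
    intro G G' s hs
    have h1 : HasDerivAt (fun t : ℝ => t - s) 1 s := by
      simpa using (hasDerivAt_id s).sub_const s
    have h2 : HasDerivAt (fun t : ℝ => G (((0 : ℂ), v) + s • w + t • w))
      (G' (((0 : ℂ), v) + s • w)) (s - s) := by simpa using hs
    have h3 := HasDerivAt.comp (h := fun t : ℝ => t - s) s h2 h1
    rw [mul_one] at h3
    refine h3.congr_of_eventuallyEq (Eventually.of_forall fun t => ?_)
    simp only [Function.comp]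
    congr 1
    rw [sub_smul]
    abel
  have T := taylor3 (f := fun t : ℝ => F (((0 : ℂ), v) + t • w))
    (f1 := fun t : ℝ => D1 w F (((0 : ℂ), v) + t • w))
    (f2 := fun t : ℝ => D1 w (D1 w F) (((0 : ℂ), v) + t • w))
    (f3 := fun t : ℝ => D1 w (D1 w (D1 w F)) (((0 : ℂ), v) + t • w)) (δ := δ) (M := M)
    (fun s hs => shift F (D1 w F) s (hball (hmem s hs)).1.1)
    (fun s hs => shift (D1 w F) (D1 w (D1 w F)) s (hball (hmem s hs)).1.2.1)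
    (fun s hs => shift (D1 w (D1 w F)) (D1 w (D1 w (D1 w F))) s (hball (hmem s hs)).1.2.2)
    (fun s hs => (hball (hmem s hs)).2.2.2.trans (by linarith)) ht'
  have f0 : F (((0 : ℂ), v) + t • w) = Φ (τ + t * e) (R.tr y v) := by
    simp [hF, Fy, hw]
  have f1 : F (((0 : ℂ), v) + (0 : ℝ) • w) = Φ τ (R.tr y v) := by
    simp [hF, Fy]
  have f2 : D1 w F (((0 : ℂ), v) + (0 : ℝ) • w) = D1 w F (0, v) := by simp
  have f3 : D1 w (D1 w F) (((0 : ℂ), v) + (0 : ℝ) • w) = D1 w (D1 w F) (0, v) := by simp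
  simp only [f0, f1, f2, f3] at T
  exact T

/-- uniform Taylor estimate on a compact set -/
theorem taylor_compact {Φ : ℂ → R.carrier → ℝ} {τ : ℂ} {K : Set R.carrier} (hK : IsCompact K)
    (h : ∀ y ∈ K, ContDiffAt ℝ ∞ (R.Fy Φ τ y) 0) (e : ℂ) (he : ‖e‖ = 1) :
    ∃ δ > 0, ∃ M : ℝ, 0 ≤ M ∧ ∀ y ∈ K,
      |R.A1 Φ τ e y| ≤ M ∧ |R.A2 Φ τ e y| ≤ M ∧ ∀ t : ℝ, |t| < δ →
        |Φ (τ + t * e) y - Φ τ y - R.A1 Φ τ e y * t - R.A2 Φ τ e y * t ^ 2 / 2| ≤ M * |t| ^ 3 := by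
  refine hK.induction_on (p := fun S => ∃ δ > 0, ∃ M : ℝ, 0 ≤ M ∧ ∀ y ∈ S,
      |R.A1 Φ τ e y| ≤ M ∧ |R.A2 Φ τ e y| ≤ M ∧ ∀ t : ℝ, |t| < δ →
        |Φ (τ + t * e) y - Φ τ y - R.A1 Φ τ e y * t - R.A2 Φ τ e y * t ^ 2 / 2| ≤ M * |t| ^ 3)
    ⟨1, one_pos, 0, le_rfl, by simp⟩ ?_ ?_ ?_
  · rintro s t hst ⟨δ, hδ, M, hM, H⟩
    exact ⟨δ, hδ, M, hM, fun y hy => H y (hst hy)⟩
  · rintro s t ⟨δ, hδ, M, hM, H⟩ ⟨δ', hδ', M', hM', H'⟩
    refine ⟨min δ δ', lt_min hδ hδ', max M M', hM.trans (le_max_left _ _), fun y hy => ?_⟩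
    rcases hy with hy | hy
    · obtain ⟨h1, h2, h3⟩ := H y hy
      refine ⟨h1.trans (le_max_left _ _), h2.trans (le_max_left _ _), fun t ht =>
        (h3 t (ht.trans_le (min_le_left _ _))).trans ?_⟩
      exact mul_le_mul_of_nonneg_right (le_max_left _ _) (by positivity)
    · obtain ⟨h1, h2, h3⟩ := H' y hy
      refine ⟨h1.trans (le_max_right _ _), h2.trans (le_max_right _ _), fun t ht =>
        (h3 t (ht.trans_le (min_le_right _ _))).trans ?_⟩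
      exact mul_le_mul_of_nonneg_right (le_max_right _ _) (by positivity)
  · intro y hy
    obtain ⟨δ, hδ, M, hM, H⟩ := R.taylor_local (h y hy) e he
    refine ⟨R.tr y '' ball 0 δ, ?_, δ, hδ, M, hM, ?_⟩
    · apply mem_nhdsWithin_of_mem_nhds
      rw [R.nhds_eq]
      exact image_mem_map (ball_mem_nhds 0 hδ)
    · rintro _ ⟨v, hv, rfl⟩
      exact H v (by simpa using hv)

/-- uniform Lipschitz estimate on a compact set -/
theorem lip_compact {Φ : ℂ → R.carrier → ℝ} {τ : ℂ} {K : Set R.carrier} (hK : IsCompact K)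
    (h : ∀ y ∈ K, ContDiffAt ℝ ∞ (R.Fy Φ τ y) 0) :
    ∃ δ > 0, ∃ M : ℝ, 0 ≤ M ∧ ∀ y ∈ K, ∀ σ : ℂ, ‖σ‖ < δ → |Φ (τ + σ) y - Φ τ y| ≤ M * ‖σ‖ := by
  refine hK.induction_on (p := fun S => ∃ δ > 0, ∃ M : ℝ, 0 ≤ M ∧ ∀ y ∈ S, ∀ σ : ℂ, ‖σ‖ < δ →
    |Φ (τ + σ) y - Φ τ y| ≤ M * ‖σ‖) ⟨1, one_pos, 0, le_rfl, by simp⟩ ?_ ?_ ?_
  · rintro s t hst ⟨δ, hδ, M, hM, H⟩
    exact ⟨δ, hδ, M, hM, fun y hy => H y (hst hy)⟩
  · rintro s t ⟨δ, hδ, M, hM, H⟩ ⟨δ', hδ', M', hM', H'⟩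
    refine ⟨min δ δ', lt_min hδ hδ', max M M', hM.trans (le_max_left _ _), fun y hy σ hσ => ?_⟩
    rcases hy with hy | hy
    · exact (H y hy σ (hσ.trans_le (min_le_left _ _))).trans
        (mul_le_mul_of_nonneg_right (le_max_left _ _) (norm_nonneg _))
    · exact (H' y hy σ (hσ.trans_le (min_le_right _ _))).trans
        (mul_le_mul_of_nonneg_right (le_max_right _ _) (norm_nonneg _))
  · intro y hy
    have h1 : ContDiffAt ℝ 1 (R.Fy Φ τ y) 0 := (h y hy).of_le (by exact_mod_cast le_top)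
    obtain ⟨C, s, hs, hL⟩ := h1.exists_lipschitzOnWith
    obtain ⟨δ, hδ, hδs⟩ := Metric.mem_nhds_iff.1 hs
    refine ⟨R.tr y '' ball 0 δ, ?_, δ, hδ, C, C.2, ?_⟩
    · apply mem_nhdsWithin_of_mem_nhds
      rw [R.nhds_eq]
      exact image_mem_map (ball_mem_nhds 0 hδ)
    · rintro _ ⟨v, hv, rfl⟩ σ hσ
      have hv' : ‖v‖ < δ := by simpa using hv
      have m1 : ((σ, v) : ℂ × ℂ) ∈ s := hδs (by
        rw [mem_ball_zero_iff, Prod.norm_def]; exact max_lt hσ hv')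
      have m2 : ((0, v) : ℂ × ℂ) ∈ s := hδs (by
        rw [mem_ball_zero_iff, Prod.norm_def]; exact max_lt (by simpa using hδ) hv')
      have := hL.dist_le_mul _ m1 _ m2
      rw [Real.dist_eq] at this
      have e1 : dist ((σ, v) : ℂ × ℂ) (0, v) = ‖σ‖ := by simp [Prod.dist_eq]
      rw [e1] at this
      simpa [Fy] using this

/-- complex derivative with respect to the parameter -/
noncomputable def At (Φ : ℂ → R.carrier → ℝ) (τ : ℂ) (y : R.carrier) : ℂ :=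
  ((R.A1 Φ τ 1 y : ℂ) - I * (R.A1 Φ τ I y : ℂ)) / 2

/-- `∂_τ ∂_τ̄ Φ` -/
noncomputable def Ct (Φ : ℂ → R.carrier → ℝ) (τ : ℂ) (y : R.carrier) : ℝ :=
  (R.A2 Φ τ 1 y + R.A2 Φ τ I y) / 4

theorem A1_smooth {Φ : ℂ → R.carrier → ℝ} {τ : ℂ} {X : Set R.carrier}
    (h : ∀ y ∈ X, ContDiffAt ℝ ∞ (R.Fy Φ τ y) 0) (e : ℂ) : R.Smooth (R.A1 Φ τ e) X := by
  intro y hy
  have h1 : ContDiffAt ℝ ∞ (fun v : ℂ => D1 (e, 0) (R.Fy Φ τ y) (0, v)) 0 := by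
    have h2 : ContDiffAt ℝ ∞ (fun v : ℂ => ((0 : ℂ), v)) 0 := by fun_prop
    exact ContDiffAt.comp (0 : ℂ) (D1_contDiffAt (e, 0) (h y hy)) h2
  refine h1.congr_of_eventuallyEq ?_
  filter_upwards [ball_mem_nhds (0 : ℂ) (R.rad_pos y)] with v hv
  exact R.A1_tr Φ τ e (by simpa using hv)

theorem A2_smooth {Φ : ℂ → R.carrier → ℝ} {τ : ℂ} {X : Set R.carrier}
    (h : ∀ y ∈ X, ContDiffAt ℝ ∞ (R.Fy Φ τ y) 0) (e : ℂ) : R.Smooth (R.A2 Φ τ e) X := by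
  intro y hy
  have h1 : ContDiffAt ℝ ∞ (fun v : ℂ => D1 (e, 0) (D1 (e, 0) (R.Fy Φ τ y)) (0, v)) 0 := by
    have h2 : ContDiffAt ℝ ∞ (fun v : ℂ => ((0 : ℂ), v)) 0 := by fun_prop
    exact ContDiffAt.comp (0 : ℂ) (D1_contDiffAt (e, 0) (D1_contDiffAt (e, 0) (h y hy))) h2
  refine h1.congr_of_eventuallyEq ?_
  filter_upwards [ball_mem_nhds (0 : ℂ) (R.rad_pos y)] with v hv
  exact R.A2_tr Φ τ e (by simpa using hv)

theorem At_smooth {Φ : ℂ → R.carrier → ℝ} {τ : ℂ} {X : Set R.carrier}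
    (h : ∀ y ∈ X, ContDiffAt ℝ ∞ (R.Fy Φ τ y) 0) : R.Smooth (R.At Φ τ) X := by
  intro y hy
  have h1 := R.A1_smooth h 1 y hy
  have h2 := R.A1_smooth h I y hy
  have h3 : ContDiffAt ℝ ∞ (fun v => ((R.A1 Φ τ 1 (R.tr y v) : ℝ) : ℂ)) 0 :=
    ofRealCLM.contDiff.contDiffAt.comp 0 h1
  have h4 : ContDiffAt ℝ ∞ (fun v => ((R.A1 Φ τ I (R.tr y v) : ℝ) : ℂ)) 0 :=
    ofRealCLM.contDiff.contDiffAt.comp 0 h2
  exact (h3.sub (contDiffAt_const.mul h4)).div_const 2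

theorem weight_smooth {Φ : ℂ → R.carrier → ℝ} {τ : ℂ} {X : Set R.carrier}
    (h : ∀ y ∈ X, ContDiffAt ℝ ∞ (R.Fy Φ τ y) 0) : R.Smooth (Φ τ) X := by
  intro y hy
  have h1 : ContDiffAt ℝ ∞ (fun v : ℂ => R.Fy Φ τ y (0, v)) 0 := by
    have h2 : ContDiffAt ℝ ∞ (fun v : ℂ => ((0 : ℂ), v)) 0 := by fun_prop
    exact ContDiffAt.comp (0 : ℂ) (h y hy) h2
  simpa [Fy] using h1

/-- the inequality `|∂_z̄ ∂_τ Φ|² ≤ ∂_τ∂_τ̄ Φ · ∂_z∂_z̄ Φ` -/
theorem psh_ineq {Φ : ℂ → R.carrier → ℝ} {τ : ℂ} {y : R.carrier}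
    (h : ContDiffAt ℝ ∞ (R.Fy Φ τ y) 0)
    (hp : ∀ w : ℂ × ℂ, 0 ≤ plevi w (R.Fy Φ τ y) 0) :
    0 ≤ R.levi 1 (Φ τ) y ∧ 0 ≤ R.Ct Φ τ y ∧
      ‖R.dzb (R.At Φ τ) y‖ ^ 2 ≤ R.Ct Φ τ y * R.levi 1 (Φ τ) y := by
  set F := R.Fy Φ τ y with hF
  have h2 : ContDiffAt ℝ 2 F 0 := mod_cast (contDiffAt_infty.1 h 2)
  set B := fderiv ℝ (fderiv ℝ F) 0 with hB
  have hsymm : ∀ v w, B v w = B w v := by
    intro v w
    exact (h2.isSymmSndFDerivAt (by simp)).eq v w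
  have hpl : ∀ w : ℂ × ℂ, 0 ≤ B w w + B (I • w) (I • w) := by
    intro w
    have := hp w
    rw [plevi_eq h2] at this
    linarith
  have hfd : DifferentiableAt ℝ (fderiv ℝ F) 0 := by
    have : ContDiffAt ℝ 1 (fderiv ℝ F) 0 := h2.fderiv_right (by norm_num)
    exact this.differentiableAt (by simp)
  have hD2 : ∀ v w : ℂ × ℂ, D1 v (D1 w F) 0 = B v w := by
    intro v w
    have e : D1 w F = fun y => fderiv ℝ F y w := rfl
    simp only [e, D1]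
    rw [fderiv_clm_apply hfd (differentiableAt_const w)]
    simp [hB]
  have hDF : ∀ w : ℂ × ℂ, DifferentiableAt ℝ (D1 w F) 0 := fun w =>
    (D1_contDiffAt w h).differentiableAt (by simp)
  -- the three quantities
  have eC : R.Ct Φ τ y = (B (1, 0) (1, 0) + B (I, 0) (I, 0)) / 4 := by
    simp only [Ct, A2, ← hF, hD2]
  have eL : R.levi 1 (Φ τ) y = (B (0, 1) (0, 1) + B (0, I) (0, I)) / 4 := by
    rw [R.levi_eq]
    have e1 : (fun v => Φ τ (R.tr y v)) = fun v => F (ContinuousLinearMap.inr ℂ ℂ ℂ v) := by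
      ext v; simp [hF, Fy]
    have h3 : ContDiffAt ℝ 2 F ((ContinuousLinearMap.inr ℂ ℂ ℂ) 0) := by
      rw [map_zero]; exact h2
    rw [e1, plevi_comp_linear (ContinuousLinearMap.inr ℂ ℂ ℂ) h3]
    rw [show (ContinuousLinearMap.inr ℂ ℂ ℂ) (0 : ℂ) = 0 by simp, plevi_eq h2]
    simp [hB]
  have eM : R.dzb (R.At Φ τ) y = ((B (0, 1) (1, 0) + B (0, I) (I, 0) : ℝ) +
      I * (B (0, I) (1, 0) - B (0, 1) (I, 0) : ℝ)) / 4 := by
    simp only [dzb, dwb]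
    have e1 : (fun v => R.At Φ τ (R.tr y v)) =ᶠ[𝓝 0] fun v : ℂ =>
        ((D1 (1, 0) F (0, v) : ℂ) - I * (D1 (I, 0) F (0, v) : ℂ)) / 2 := by
      filter_upwards [ball_mem_nhds (0 : ℂ) (R.rad_pos y)] with v hv
      have hv' : ‖v‖ < R.rad y := by simpa using hv
      simp only [At]
      rw [R.A1_tr Φ τ 1 hv', R.A1_tr Φ τ I hv']
    rw [e1.fderiv_eq]
    have hg : ∀ w : ℂ × ℂ, HasFDerivAt (fun v : ℂ => ((D1 w F ((0 : ℂ), v) : ℝ) : ℂ))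
        (ofRealCLM.comp ((fderiv ℝ (D1 w F) 0).comp (ContinuousLinearMap.inr ℝ ℂ ℂ))) 0 := by
      intro w
      have h1 : HasFDerivAt (fun v : ℂ => ((0 : ℂ), v)) (ContinuousLinearMap.inr ℝ ℂ ℂ) 0 :=
        (ContinuousLinearMap.inr ℝ ℂ ℂ).hasFDerivAt
      have h2 : HasFDerivAt (D1 w F) (fderiv ℝ (D1 w F) 0) ((fun v : ℂ => ((0 : ℂ), v)) 0) :=
        (hDF w).hasFDerivAt
      exact ofRealCLM.hasFDerivAt.comp 0 (h2.comp 0 h1)
    have hd := (((hg (1, 0)).sub ((hg (I, 0)).const_mul I)).mul_const (2⁻¹ : ℂ)).fderiv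
    have e2 : (fun v : ℂ => ((D1 (1, 0) F (0, v) : ℂ) - I * (D1 (I, 0) F (0, v) : ℂ)) / 2) =
        fun v : ℂ => ((D1 (1, 0) F (0, v) : ℂ) - I * (D1 (I, 0) F (0, v) : ℂ)) * 2⁻¹ := by
      ext v; rw [div_eq_mul_inv]
    rw [e2]
    have hBv : ∀ v w : ℂ × ℂ, fderiv ℝ (D1 w F) 0 v = B v w := fun v w => hD2 v w
    have hd' : ∀ z : ℂ, fderiv ℝ (fun v : ℂ => ((D1 (1, 0) F (0, v) : ℂ) -
        I * (D1 (I, 0) F (0, v) : ℂ)) * 2⁻¹) 0 z =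
        2⁻¹ * ((B (0, z) (1, 0) : ℂ) - I * (B (0, z) (I, 0) : ℂ)) := by
      intro z
      rw [show (fun v : ℂ => ((D1 (1, 0) F (0, v) : ℂ) -
        I * (D1 (I, 0) F (0, v) : ℂ)) * 2⁻¹) = (fun v : ℂ => (((fun v : ℂ => (D1 (1, 0) F (0, v) : ℂ)) -
        (fun v : ℂ => I * (D1 (I, 0) F (0, v) : ℂ))) v) * 2⁻¹) from rfl, hd]
      simp [hBv]
    rw [hd', hd']
    simp only [smul_eq_mul, mul_one]
    push_cast
    linear_combination (-(B (0, I) (I, 0) : ℂ) / 4) * I_sq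
  set p := B (0, 1) (1, 0) + B (0, I) (I, 0) with hp'
  set q := B (0, I) (1, 0) - B (0, 1) (I, 0) with hq'
  have hC0 : 0 ≤ B (1, 0) (1, 0) + B (I, 0) (I, 0) := by
    have := hpl (1, 0); simpa using this
  have hL0 : 0 ≤ B (0, 1) (0, 1) + B (0, I) (0, I) := by
    have := hpl (0, 1); simpa using this
  set C := B (1, 0) (1, 0) + B (I, 0) (I, 0) with hC'
  set L := B (0, 1) (0, 1) + B (0, I) (0, I) with hL'
  have hquad : ∀ s t : ℝ, 0 ≤ s ^ 2 * (p ^ 2 + q ^ 2) * C + t ^ 2 * L - 2 * s * t * (p ^ 2 + q ^ 2) := by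
    intro s t
    have e1 : (((-(s * p) : ℝ) : ℂ) + ((s * q : ℝ) : ℂ) * I, (t : ℂ)) =
        (-(s * p)) • ((1 : ℂ), (0 : ℂ)) + (s * q) • (I, (0 : ℂ)) + t • ((0 : ℂ), (1 : ℂ)) := by
      ext <;> simp
    have e2 : I • ((((-(s * p) : ℝ) : ℂ) + ((s * q : ℝ) : ℂ) * I, (t : ℂ)) : ℂ × ℂ) =
        (-(s * q)) • ((1 : ℂ), (0 : ℂ)) + (-(s * p)) • (I, (0 : ℂ)) + t • ((0 : ℂ), I) := by
      refine Prod.ext ?_ ?_
      · simp
        linear_combination ((s : ℂ) * q) * I_sq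
      · simp
        ring
    have := hpl (((-(s * p) : ℝ) : ℂ) + ((s * q : ℝ) : ℂ) * I, (t : ℂ))
    rw [e2, e1] at this
    simp only [map_add, map_smul, _root_.add_apply, _root_.smul_apply, smul_eq_mul] at this
    have s1 := hsymm (1, 0) (0, 1)
    have s2 := hsymm (I, 0) (0, 1)
    have s3 := hsymm (1, 0) (0, I)
    have s4 := hsymm (I, 0) (0, I)
    have s5 := hsymm (1, 0) (I, 0)
    rw [s1, s2, s3, s4, s5] at this
    rw [hp', hq', hC', hL'] at *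
    nlinarith [this]
  rw [eL, eC, eM]
  refine ⟨by linarith, by linarith, ?_⟩
  have hn : ‖(((p : ℝ) : ℂ) + I * ((q : ℝ) : ℂ)) / 4‖ ^ 2 = (p ^ 2 + q ^ 2) / 16 := by
    rw [← Complex.normSq_eq_norm_sq, map_div₀]
    simp [normSq_apply]
    ring
  rw [hn]
  have hN : p ^ 2 + q ^ 2 ≤ C * L := by
    set N := p ^ 2 + q ^ 2 with hN
    have hN0 : 0 ≤ N := by positivity
    rcases hL0.lt_or_eq with hL1 | hL1
    · rcases hN0.lt_or_eq with hN1 | hN1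
      · have := hquad L N
        have h3 : 0 ≤ L * N * (L * C - N) := by nlinarith
        have h4 : 0 ≤ L * C - N := by
          by_contra hcon
          push Not at hcon
          have := mul_neg_of_pos_of_neg (mul_pos hL1 hN1) hcon
          linarith
        linarith
      · rw [← hN1]; positivity
    · have h5 := hquad 1 C
      have h6 := hquad 1 (C + 1)
      rw [← hL1] at h5 h6
      rw [← hL1]
      nlinarith
  nlinarith

end RD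

end Pool.Agent.ParLeaf
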