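import Pool.Agent.H.MP_3a36cd_an.Surf1

/-! MP_3a36cd_an, module Vol: the area measure. -/

open Set Metric Filter Topology Complex MeasureTheory
open scoped ContDiff

namespace Pool.Agent.ParLeaf

namespace RD

variable (R : RD ℂ)

noncomputable instance : MeasurableSpace R.carrier := borel _
instance : BorelSpace R.carrier := ⟨rfl⟩

/-- the push-forward commutes with continuous linear maps -/
theorem vol_push_comp {F G : Type} [NormedAddCommGroup F] [NormedSpace ℝ F]
    [NormedAddCommGroup G] [NormedSpace ℝ G] (L : F →L[ℝ] G) {h : R.carrier → F}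
    (hs : HasCompactSupport h) (ζ : ℂ) :
    R.push (fun y => L (h y)) ζ = L (R.push h ζ) := by
  have := (L : F →+ G).map_finsum_mem' (s := {y | R.pr y = ζ}) (f := h) (R.finite_fibre hs ζ)
  exact this.symm

theorem vol_sint_comp {F G : Type} [NormedAddCommGroup F] [NormedSpace ℝ F] [CompleteSpace F]
    [NormedAddCommGroup G] [NormedSpace ℝ G] [CompleteSpace G] (L : F →L[ℝ] G)
    {h : R.carrier → F} (hc : Continuous h) (hs : HasCompactSupport h) :
    R.sint (fun y => L (h y)) = L (R.sint h) := by
  rw [sint_eq, sint_eq, ← L.integral_comp_comm (R.integrable_push hc hs)]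
  exact integral_congr_ae (Eventually.of_forall fun ζ => R.vol_push_comp L hs ζ)

open scoped CompactlySupported in
/-- integration as a positive linear functional -/
noncomputable def volFun : C_c(R.carrier, ℝ) →ₚ[ℝ] ℝ :=
  PositiveLinearMap.mk₀
    { toFun := fun f => R.sint (fun y => f y)
      map_add' := fun f g => R.sint_add f.continuous f.hasCompactSupport g.continuous
        g.hasCompactSupport
      map_smul' := fun c f => by
        have := R.vol_sint_comp (c • ContinuousLinearMap.id ℝ ℝ) f.continuous
          f.hasCompactSupport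
        simpa using this }
    (fun f hf => R.sint_nonneg (fun y => hf y))

/-- a measure representing integration assigns the right value to open subsets of discs -/
theorem vol_open {μ : Measure R.carrier} [μ.Regular]
    (hμ : ∀ h : R.carrier → ℝ, Continuous h → HasCompactSupport h → ∫ y, h y ∂μ = R.sint h)
    {y₀ : R.carrier} {r : ℝ} (hr : r ≤ R.rad y₀) {V : Set R.carrier} (hV : IsOpen V)
    (hVD : V ⊆ R.tr y₀ '' ball 0 r) :
    μ V = volume (ball (0 : ℂ) r ∩ R.tr y₀ ⁻¹' V) := by
  have hcont : ContinuousOn (R.tr y₀) (ball 0 r) :=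
    (R.rdTop_continuousOn y₀).mono (ball_subset_ball hr)
  have hO : IsOpen (ball (0 : ℂ) r ∩ R.tr y₀ ⁻¹' V) := hcont.isOpen_inter_preimage isOpen_ball hV
  have hsupp : ∀ f : C(R.carrier, ℝ), tsupport f ⊆ V → ∀ y, f y ≠ 0 →
      ∃ ζ, ‖ζ‖ < r ∧ y = R.tr y₀ ζ := by
    intro f hf y hy
    obtain ⟨ζ, hζ, rfl⟩ := hVD (hf (subset_tsupport f hy))
    exact ⟨ζ, mem_ball_zero_iff.1 hζ, rfl⟩
  have hint : ∀ f : C(R.carrier, ℝ), HasCompactSupport f → tsupport f ⊆ V →
      ∫ y, f y ∂μ = ∫ ζ in ball (0 : ℂ) r, f (R.tr y₀ ζ) := by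
    intro f hf hfV
    rw [hμ f f.continuous hf]
    exact R.sint_disc hr (hsupp f hfV)
  apply le_antisymm
  · rw [hV.measure_eq_iSup_isCompact]
    refine iSup_le fun K => iSup_le fun hKV => iSup_le fun hK => ?_
    obtain ⟨f, hf1, hf2, hf3, hf4⟩ := exists_continuousMap_one_of_isCompact_subset_isOpen hK hV hKV
    have hfs : HasCompactSupport f := hf2
    have hlt : μ K < ⊤ := hK.measure_lt_top
    have hfin : volume (ball (0 : ℂ) r ∩ R.tr y₀ ⁻¹' V) < ⊤ :=
      (measure_mono inter_subset_left).trans_lt measure_ball_lt_top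
    rw [← ENNReal.ofReal_toReal hlt.ne, ← ENNReal.ofReal_toReal hfin.ne]
    apply ENNReal.ofReal_le_ofReal
    have h1 : (μ K).toReal ≤ ∫ y, f y ∂μ := by
      have e : (μ K).toReal = ∫ y, K.indicator 1 y ∂μ :=
        (integral_indicator_one hK.measurableSet).symm
      rw [e]
      refine integral_mono ?_ (f.continuous.integrable_of_hasCompactSupport hfs) (fun y => ?_)
      · exact (continuousOn_const.integrableOn_compact hK).integrable_indicator hK.measurableSet
      · by_cases hy : y ∈ K
        · simp [hy, hf1 hy]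
        · simp [hy, (hf4 y).1]
    refine h1.trans ?_
    rw [hint f hfs hf3]
    have e2 : (volume (ball (0 : ℂ) r ∩ R.tr y₀ ⁻¹' V)).toReal =
        ∫ ζ in ball (0 : ℂ) r, (ball (0 : ℂ) r ∩ R.tr y₀ ⁻¹' V).indicator (fun _ => (1 : ℝ)) ζ := by
      rw [setIntegral_indicator hO.measurableSet, setIntegral_const, smul_eq_mul, mul_one]
      congr 2
      rw [← inter_assoc, inter_self]
    rw [e2]
    refine integral_mono_of_nonneg (Eventually.of_forall fun ζ => (hf4 _).1) ?_ ?_
    · exact (integrable_indicator_iff hO.measurableSet).2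
        ((integrableOn_const (by
          rw [Measure.restrict_apply hO.measurableSet]
          exact ((measure_mono inter_subset_right).trans_lt measure_ball_lt_top).ne)))
    · filter_upwards [ae_restrict_mem measurableSet_ball] with ζ hζ
      by_cases hy : R.tr y₀ ζ ∈ V
      · have hmem : ζ ∈ ball (0 : ℂ) r ∩ R.tr y₀ ⁻¹' V := ⟨hζ, hy⟩
        rw [indicator_of_mem hmem]
        exact (hf4 _).2
      · rw [indicator_of_notMem (fun h => hy h.2)]
        exact (image_eq_zero_of_notMem_tsupport (fun h => hy (hf3 h))).le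
  · rw [hO.measure_eq_iSup_isCompact]
    refine iSup_le fun L => iSup_le fun hLO => iSup_le fun hL => ?_
    have hKc : IsCompact (R.tr y₀ '' L) :=
      hL.image_of_continuousOn (hcont.mono (hLO.trans inter_subset_left))
    have hKV : R.tr y₀ '' L ⊆ V := by
      rintro _ ⟨ζ, hζ, rfl⟩
      exact (hLO hζ).2
    obtain ⟨f, hf1, hf2, hf3, hf4⟩ := exists_continuousMap_one_of_isCompact_subset_isOpen hKc hV hKV
    have hfs : HasCompactSupport f := hf2
    have hlt : volume L < ⊤ := hL.measure_lt_top
    have h1 : (volume L).toReal ≤ ∫ ζ in ball (0 : ℂ) r, f (R.tr y₀ ζ) := by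
      have e2 : (volume L).toReal =
          ∫ ζ in ball (0 : ℂ) r, L.indicator (fun _ => (1 : ℝ)) ζ := by
        rw [setIntegral_indicator hL.measurableSet, setIntegral_const, smul_eq_mul, mul_one]
        congr 2
        exact (inter_eq_right.2 (hLO.trans inter_subset_left)).symm
      rw [e2]
      refine integral_mono_of_nonneg (Eventually.of_forall fun ζ => ?_) ?_ ?_
      · exact indicator_nonneg (fun _ _ => zero_le_one) _
      · have hm : AEStronglyMeasurable (fun ζ => f (R.tr y₀ ζ)) (volume.restrict (ball (0 : ℂ) r)) :=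
          (f.continuous.comp_continuousOn hcont).aestronglyMeasurable measurableSet_ball
        have : IsFiniteMeasure (volume.restrict (ball (0 : ℂ) r)) :=
          ⟨by rw [Measure.restrict_apply_univ]; exact measure_ball_lt_top⟩
        refine Integrable.of_bound hm 1 (Eventually.of_forall fun ζ => ?_)
        rw [Real.norm_eq_abs, abs_of_nonneg (hf4 _).1]
        exact (hf4 _).2
      · refine Eventually.of_forall fun ζ => ?_
        by_cases hy : ζ ∈ L
        · rw [indicator_of_mem hy]
          exact (hf1 ⟨ζ, hy, rfl⟩).ge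
        · rw [indicator_of_notMem hy]
          exact (hf4 _).1
    rw [← hint f hfs hf3] at h1
    -- compare with `μ V`
    by_cases hVt : μ V = ⊤
    · rw [hVt]; exact le_top
    rw [← ENNReal.ofReal_toReal hlt.ne, ← ENNReal.ofReal_toReal hVt]
    apply ENNReal.ofReal_le_ofReal
    refine h1.trans ?_
    have e : (μ V).toReal = ∫ y, V.indicator 1 y ∂μ := (integral_indicator_one hV.measurableSet).symm
    rw [e]
    refine integral_mono (f.continuous.integrable_of_hasCompactSupport hfs) ?_ (fun y => ?_)
    · exact (integrable_indicator_iff hV.measurableSet).2 (integrableOn_const hVt)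
    · by_cases hy : y ∈ V
      · simp [hy, (hf4 y).2]
      · simp [hy, image_eq_zero_of_notMem_tsupport (fun h => hy (hf3 h))]

/-- the area measure -/
theorem exists_vol : ∃ μ : Measure R.carrier, μ.Regular ∧
    (∀ h : R.carrier → ℝ, Continuous h → HasCompactSupport h → ∫ y, h y ∂μ = R.sint h) ∧
    (∀ h : R.carrier → ℂ, Continuous h → HasCompactSupport h → ∫ y, h y ∂μ = R.sint h) ∧
    (∀ (y₀ : R.carrier) (r : ℝ), 0 < r → r ≤ R.rad y₀ →
      μ.restrict (R.tr y₀ '' ball 0 r) = (volume.restrict (ball (0 : ℂ) r)).map (R.tr y₀)) := by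
  have hreg : (RealRMK.rieszMeasure R.volFun).Regular := RealRMK.regular_rieszMeasure _
  have h1 : ∀ h : R.carrier → ℝ, Continuous h → HasCompactSupport h →
      ∫ y, h y ∂(RealRMK.rieszMeasure R.volFun) = R.sint h := by
    intro h hc hs
    exact RealRMK.integral_rieszMeasure R.volFun ⟨⟨h, hc⟩, hs⟩
  refine ⟨RealRMK.rieszMeasure R.volFun, hreg, h1, ?_, ?_⟩
  · intro h hc hs
    have hI : Integrable h (RealRMK.rieszMeasure R.volFun) := hc.integrable_of_hasCompactSupport hs
    apply Complex.ext
    · have e1 := reCLM.integral_comp_comm hI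
      have e2 := R.vol_sint_comp reCLM hc hs
      have e3 := h1 (fun y => reCLM (h y)) (reCLM.continuous.comp hc)
        (hs.comp_left (g := reCLM) (map_zero _))
      rw [e2] at e3
      exact e1.symm.trans e3
    · have e1 := imCLM.integral_comp_comm hI
      have e2 := R.vol_sint_comp imCLM hc hs
      have e3 := h1 (fun y => imCLM (h y)) (imCLM.continuous.comp hc)
        (hs.comp_left (g := imCLM) (map_zero _))
      rw [e2] at e3
      exact e1.symm.trans e3
  · intro y₀ r hr hrad
    have hcont : ContinuousOn (R.tr y₀) (ball 0 r) :=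
      (R.rdTop_continuousOn y₀).mono (ball_subset_ball hrad)
    have hae : AEMeasurable (R.tr y₀) (volume.restrict (ball (0 : ℂ) r)) :=
      hcont.aemeasurable measurableSet_ball
    have hD : IsOpen (R.tr y₀ '' ball 0 r) := R.rdTop_isOpen_image y₀ hrad
    have key : ∀ W : Set R.carrier, IsOpen W →
        (RealRMK.rieszMeasure R.volFun).restrict (R.tr y₀ '' ball 0 r) W =
          ((volume.restrict (ball (0 : ℂ) r)).map (R.tr y₀)) W := by
      intro W hW
      rw [Measure.restrict_apply hW.measurableSet, Measure.map_apply_of_aemeasurable hae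
        hW.measurableSet, R.vol_open h1 hrad (hW.inter hD) inter_subset_right,
        Measure.restrict_apply₀' measurableSet_ball.nullMeasurableSet]
      congr 1
      ext ζ
      constructor
      · rintro ⟨h2, h3⟩
        exact ⟨h3.1, h2⟩
      · rintro ⟨h2, h3⟩
        exact ⟨h3, h2, ζ, h3, rfl⟩
    have hfin : IsFiniteMeasure
        ((RealRMK.rieszMeasure R.volFun).restrict (R.tr y₀ '' ball 0 r)) := by
      refine ⟨?_⟩
      rw [key univ isOpen_univ, Measure.map_apply_of_aemeasurable hae MeasurableSet.univ,
        preimage_univ, Measure.restrict_apply_univ]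
      exact measure_ball_lt_top
    exact ext_of_generate_finite {s | IsOpen s} (BorelSpace.measurable_eq (α := R.carrier))
      isPiSystem_isOpen key (key univ isOpen_univ)

end RD

end Pool.Agent.ParLeaf
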