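import Pool.Agent.H.MP_3a36cd_an.Var1
import Pool.Agent.H.MP_3a36cd_an.Vol
import Pool.Agent.H.MP_3a36cd_an.VarC

/-! MP_3a36cd_an, module VarH: the Hilbert space part of the second variation. -/

open Set Metric Filter Topology Complex MeasureTheory Real
open scoped ContDiff

namespace Pool.Agent.ParLeaf

/-- a bounded functional of `T g` is represented by a vector -/
theorem exists_riesz {𝒢 H : Type*} [AddCommGroup 𝒢] [Module ℂ 𝒢] [NormedAddCommGroup H]
    [InnerProductSpace ℂ H] [CompleteSpace H] (T : 𝒢 →ₗ[ℂ] H) (l : 𝒢 →ₗ[ℂ] ℂ) {C : ℝ}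
    (hC : 0 ≤ C) (h : ∀ g, ‖l g‖ ≤ C * ‖T g‖) :
    ∃ G : H, ‖G‖ ≤ C ∧ ∀ g, inner ℂ G (T g) = l g := by
  obtain ⟨S, hS⟩ := T.rangeRestrict.exists_rightInverse_of_surjective (LinearMap.range_rangeRestrict T)
  have hTS : ∀ x, T (S x) = x := by
    intro x
    have := congrArg (fun f => ((f x : LinearMap.range T) : H)) hS
    simpa using this
  have hker : ∀ g, l g = l (S (T.rangeRestrict g)) := by
    intro g
    have h1 := h (g - S (T.rangeRestrict g))
    have h2 : T (g - S (T.rangeRestrict g)) = 0 := by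
      rw [map_sub, hTS]; simp
    rw [h2, norm_zero, mul_zero, map_sub] at h1
    exact sub_eq_zero.1 (norm_le_zero_iff.1 h1)
  set ψ : LinearMap.range T →L[ℂ] ℂ := (l.comp S).mkContinuous C (fun x => by
    have := h (S x)
    rwa [hTS] at this) with hψ
  obtain ⟨f, hf, hfn⟩ := exists_extension_norm_eq (LinearMap.range T) ψ
  refine ⟨(InnerProductSpace.toDual ℂ H).symm f, ?_, fun g => ?_⟩
  · rw [LinearIsometryEquiv.norm_map, hfn]
    exact LinearMap.mkContinuous_norm_le _ hC _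
  · rw [InnerProductSpace.toDual_symm_apply, hker g]
    have := hf (T.rangeRestrict g)
    simpa [hψ] using this

/-- distance to the orthogonal complement -/
theorem exists_orth {𝒢 H : Type*} [AddCommGroup 𝒢] [Module ℂ 𝒢] [NormedAddCommGroup H]
    [InnerProductSpace ℂ H] [CompleteSpace H] (T : 𝒢 →ₗ[ℂ] H) (v : H) {C : ℝ}
    (hC : 0 ≤ C) (h : ∀ g, ‖inner ℂ v (T g)‖ ≤ C * ‖T g‖) :
    ∃ η : H, ‖η - v‖ ≤ C ∧ ∀ g, inner ℂ η (T g) = 0 := by
  obtain ⟨G, hG, hGT⟩ := exists_riesz T ((innerSL ℂ v).toLinearMap.comp T) hC (by simpa using h)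
  refine ⟨v - G, by simpa using hG, fun g => ?_⟩
  rw [inner_sub_left, hGT g]
  simp

theorem L2_norm_sq {α : Type*} [MeasurableSpace α] {ν : Measure α} (F : Lp ℂ 2 ν) :
    ‖F‖ ^ 2 = ∫ a, ‖F a‖ ^ 2 ∂ν := by
  have h1 : inner ℂ F F = ((‖F‖ ^ 2 : ℝ) : ℂ) := by
    rw [inner_self_eq_norm_sq_to_K]; norm_cast
  have h2 : inner ℂ F F = ((∫ a, ‖F a‖ ^ 2 ∂ν : ℝ) : ℂ) := by
    rw [L2.inner_def, ← integral_complex_ofReal]
    congr 1
    ext a
    rw [inner_self_eq_norm_sq_to_K]; norm_cast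
  exact_mod_cast h1.symm.trans h2

theorem L2_sq_integrable {α : Type*} [MeasurableSpace α] {ν : Measure α} (F : Lp ℂ 2 ν) :
    Integrable (fun a => ‖F a‖ ^ 2) ν :=
  (Lp.memLp F).integrable_norm_pow (by norm_num)

theorem le_of_amgm {x A : ℝ} (hx : 0 ≤ x) (hA : 0 ≤ A) (h : ∀ s > 0, x ≤ s / 2 * A + 1 / (2 * s)) :
    x ^ 2 ≤ A := by
  rcases hx.eq_or_lt with h0 | h0
  · rw [← h0]; simpa using hA
  · have := h (1 / x) (by positivity)
    have e : 1 / x / 2 * A + 1 / (2 * (1 / x)) = (A / x + x) / 2 := by field_simp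
    rw [e] at this
    have h2 : x ≤ A / x := by linarith
    rw [le_div_iff₀ h0] at h2
    nlinarith

namespace RD

variable (R : RD ℂ)

theorem dzb_add {f g : R.carrier → ℂ} (hf : R.Test f) (hg : R.Test g) (y : R.carrier) :
    R.dzb (fun y => f y + g y) y = R.dzb f y + R.dzb g y :=
  R.surf2_dwb_add (fun e _ => hf.1 e (mem_univ _)) (fun e _ => hg.1 e (mem_univ _)) 1

theorem dzb_smul (c : ℂ) {g : R.carrier → ℂ} (hg : R.Test g) (y : R.carrier) :
    R.dzb (fun y => c * g y) y = c * R.dzb g y := nc_dwb_smul c hg y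

theorem ell_add (y₀ : R.carrier) {s : ℝ} (hs : 0 < s) (hs1 : s < R.rad y₀) {f g : R.carrier → ℂ}
    (hf : R.Test f) (hg : R.Test g) :
    R.ell y₀ s (fun y => f y + g y) = R.ell y₀ s f + R.ell y₀ s g := by
  have hW := R.nc_W_test y₀ hs hs1
  rw [R.nc_ell_eq y₀ hs hs1, R.nc_ell_eq y₀ hs hs1, R.nc_ell_eq y₀ hs hs1,
    ← nc_sint_add (nc_test_mul hW hf) (nc_test_mul hW hg)]
  congr 1; funext y; ring

theorem sint_const_mul (c : ℝ) (f : R.carrier → ℝ) :
    R.sint (fun y => c * f y) = c * R.sint f := by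
  have h := R.nc_sint_smul (c : ℂ) (fun y => (f y : ℂ))
  have h2 := R.nc_sint_ofReal (fun y => c * f y)
  simp only [Complex.ofReal_mul] at h2
  rw [h2, R.nc_sint_ofReal] at h
  exact_mod_cast h

theorem En_smul (φ : R.carrier → ℝ) (c : ℂ) {g : R.carrier → ℂ} (hg : R.Test g) :
    R.En φ (fun y => c * g y) = ‖c‖ ^ 2 * R.En φ g := by
  unfold En
  rw [← R.sint_const_mul]
  congr 1
  funext y
  rw [R.dzb_smul c hg, norm_mul]
  ring

theorem En_nonneg (φ : R.carrier → ℝ) (g : R.carrier → ℂ) : 0 ≤ R.En φ g :=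
  R.sint_nonneg (fun y => by positivity)

theorem tsupport_smul (c : ℂ) {g : R.carrier → ℂ} {X : Set R.carrier} (h : tsupport g ⊆ X) :
    tsupport (fun y => c * g y) ⊆ X :=
  (closure_mono (fun y hy => by
    intro h0; exact hy (by simp [h0]))).trans h

theorem zero_mem_NSet {X : Set R.carrier} {φ : R.carrier → ℝ} {y₀ : R.carrier} {r : ℝ} :
    (0 : ℝ) ∈ R.NSet X φ y₀ r := by
  refine ⟨fun _ => 0, ⟨fun e _ => contDiffAt_const, HasCompactSupport.zero⟩, ?_, ?_, ?_⟩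
  · have : tsupport (fun _ : R.carrier => (0 : ℂ)) = ∅ := by
      rw [tsupport_eq_empty_iff]; rfl
    rw [this]; exact empty_subset _
  · have : R.En φ (fun _ => 0) = 0 := by
      unfold En
      have : (fun y => ‖R.dzb (fun _ => (0 : ℂ)) y‖ ^ 2 * Real.exp (φ y)) = fun _ => 0 := by
        funext y
        have : R.dzb (fun _ => (0 : ℂ)) y = 0 := R.nc_dwb_zero y 1
        rw [this]; simp
      rw [this]
      simp [sint]
    rw [this]; exact zero_le_one
  · simp [ell]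

theorem NR_nonneg {X : Set R.carrier} {φ : R.carrier → ℝ} {y₀ : R.carrier} {r : ℝ}
    (hb : BddAbove (R.NSet X φ y₀ r)) : 0 ≤ R.NR X φ y₀ r :=
  le_csSup hb R.zero_mem_NSet

theorem ell_le_NR {X : Set R.carrier} {φ : R.carrier → ℝ} {y₀ : R.carrier} {r : ℝ}
    (hb : BddAbove (R.NSet X φ y₀ r)) {g : R.carrier → ℂ} (hg : R.Test g) (hgX : tsupport g ⊆ X) :
    ‖R.ell y₀ r g‖ ^ 2 ≤ R.NR X φ y₀ r * R.En φ g := by
  have h : ∀ t ∈ R.NSet X φ y₀ r, t ≤ R.NR X φ y₀ r := fun t ht => le_csSup hb ht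
  have hE := R.En_nonneg φ g
  rcases eq_or_lt_of_le hE with h0 | hpos
  · by_contra hcon
    push Not at hcon
    rw [← h0, mul_zero] at hcon
    have h1 : ∀ c : ℝ, c ^ 2 * ‖R.ell y₀ r g‖ ^ 2 ≤ R.NR X φ y₀ r := by
      intro c
      apply h
      refine ⟨fun y => (c : ℂ) * g y, nc_test_smul c hg, R.tsupport_smul _ hgX, ?_, ?_⟩
      · rw [En_smul R φ _ hg, ← h0]; simp
      · rw [nc_ell_smul, norm_mul, mul_pow, Complex.norm_real, Real.norm_eq_abs, sq_abs]
    have hB := R.NR_nonneg hb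
    have h2 := h1 (√((R.NR X φ y₀ r + 1) / ‖R.ell y₀ r g‖ ^ 2))
    rw [Real.sq_sqrt (by positivity), div_mul_cancel₀ _ hcon.ne'] at h2
    linarith
  · have h1 : (1 / R.En φ g) * ‖R.ell y₀ r g‖ ^ 2 ≤ R.NR X φ y₀ r := by
      apply h
      refine ⟨fun y => ((√(1 / R.En φ g) : ℝ) : ℂ) * g y, nc_test_smul _ hg,
        R.tsupport_smul _ hgX, ?_, ?_⟩
      · rw [En_smul R φ _ hg, Complex.norm_real, Real.norm_eq_abs, sq_abs,
          Real.sq_sqrt (by positivity)]
        rw [one_div, inv_mul_cancel₀ hpos.ne']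
      · rw [nc_ell_smul, norm_mul, mul_pow, Complex.norm_real, Real.norm_eq_abs, sq_abs,
          Real.sq_sqrt (by positivity)]
    rw [one_div, ← div_eq_inv_mul, div_le_iff₀ hpos] at h1
    exact h1

/-- test functions supported in `X` -/
def TS (X : Set R.carrier) : Submodule ℂ (R.carrier → ℂ) where
  carrier := {g | R.Test g ∧ tsupport g ⊆ X}
  add_mem' := by
    rintro f g ⟨hf, hfX⟩ ⟨hg, hgX⟩
    exact ⟨nc_test_add hf hg, (tsupport_add f g).trans (union_subset hfX hgX)⟩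
  zero_mem' := by
    refine ⟨⟨fun e _ => contDiffAt_const, HasCompactSupport.zero⟩, ?_⟩
    have : tsupport (0 : R.carrier → ℂ) = ∅ := by
      rw [tsupport_eq_empty_iff]
    rw [this]; exact empty_subset _
  smul_mem' := by
    rintro c g ⟨hg, hgX⟩
    exact ⟨nc_test_smul c hg, R.tsupport_smul c hgX⟩

/-- `ℓ` as a linear functional -/
noncomputable def ellL (X : Set R.carrier) (y₀ : R.carrier) {r : ℝ} (hr : 0 < r)
    (hr1 : r < R.rad y₀) : R.TS X →ₗ[ℂ] ℂ where
  toFun g := R.ell y₀ r g.1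
  map_add' f g := R.ell_add y₀ hr hr1 f.2.1 g.2.1
  map_smul' c g := R.nc_ell_smul y₀ r c g.1

theorem cont_dzb_exp {X : Set R.carrier} (hX : IsOpen X) {φ : R.carrier → ℝ}
    (hφ : R.Smooth φ X) {g : R.carrier → ℂ} (hg : R.Test g) (hgX : tsupport g ⊆ X) :
    Continuous (fun y => R.dzb g y * Real.exp (φ y / 2)) ∧
      HasCompactSupport (fun y => R.dzb g y * (Real.exp (φ y / 2) : ℂ)) := by
  have hd : Continuous (R.dzb g) := R.var1_smooth_cont (Smooth.dwb R isOpen_univ hg.1 1)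
  have h0 : ∀ y, y ∉ tsupport g → R.dzb g y * (Real.exp (φ y / 2) : ℂ) = 0 := by
    intro y hy
    rw [R.var1_dzb_eq_zero hy]
    simp
  constructor
  · refine R.surf2_continuous hX hgX ?_ h0
    have h1 : ContinuousOn φ X := Smooth.continuousOn R hX hφ
    refine hd.continuousOn.mul ?_
    exact Complex.continuous_ofReal.comp_continuousOn
      (Real.continuous_exp.comp_continuousOn (h1.div_const 2))
  · exact HasCompactSupport.intro hg.2 h0

/-- the map `g ↦ ∂_z̄ g e^{φ/2}` -/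
noncomputable def TL {X : Set R.carrier} (hX : IsOpen X) {φ : R.carrier → ℝ}
    (hφ : R.Smooth φ X) (ν : Measure R.carrier) [IsFiniteMeasureOnCompacts ν] :
    R.TS X →ₗ[ℂ] Lp ℂ 2 ν where
  toFun g := ((R.cont_dzb_exp hX hφ g.2.1 g.2.2).1.memLp_of_hasCompactSupport
    (R.cont_dzb_exp hX hφ g.2.1 g.2.2).2).toLp
  map_add' f g := by
    rw [← MemLp.toLp_add]
    congr 1
    funext y
    have := R.dzb_add f.2.1 g.2.1 y
    have e : ((f + g : R.TS X) : R.carrier → ℂ) = fun y => f.1 y + g.1 y := rfl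
    simp only [Pi.add_apply, e, this]
    ring
  map_smul' c g := by
    rw [RingHom.id_apply, ← MemLp.toLp_const_smul]
    congr 1
    funext y
    have := R.dzb_smul c g.2.1 y
    have e : ((c • g : R.TS X) : R.carrier → ℂ) = fun y => c * g.1 y := rfl
    simp only [Pi.smul_apply, e, this, smul_eq_mul]
    ring

theorem TL_ae {X : Set R.carrier} (hX : IsOpen X) {φ : R.carrier → ℝ}
    (hφ : R.Smooth φ X) (ν : Measure R.carrier) [IsFiniteMeasureOnCompacts ν] (g : R.TS X) :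
    (R.TL hX hφ ν g : R.carrier → ℂ) =ᵐ[ν] fun y => R.dzb g.1 y * Real.exp (φ y / 2) :=
  MemLp.coeFn_toLp ((R.cont_dzb_exp hX hφ g.2.1 g.2.2).1.memLp_of_hasCompactSupport
    (R.cont_dzb_exp hX hφ g.2.1 g.2.2).2)

theorem restrict_integral {X : Set R.carrier} {μ : Measure R.carrier}
    (hμ : ∀ h : R.carrier → ℝ, Continuous h → HasCompactSupport h → ∫ y, h y ∂μ = R.sint h)
    {h : R.carrier → ℝ} (hc : Continuous h) (hs : HasCompactSupport h)
    (h0 : ∀ y, y ∉ X → h y = 0) : ∫ y in X, h y ∂μ = R.sint h := by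
  rw [setIntegral_eq_integral_of_forall_compl_eq_zero h0, hμ h hc hs]

theorem TL_norm_sq {X : Set R.carrier} (hX : IsOpen X) {φ : R.carrier → ℝ}
    (hφ : R.Smooth φ X) (μ : Measure R.carrier) [IsFiniteMeasureOnCompacts (μ.restrict X)]
    (hμ : ∀ h : R.carrier → ℝ, Continuous h → HasCompactSupport h → ∫ y, h y ∂μ = R.sint h)
    (g : R.TS X) : ‖R.TL hX hφ (μ.restrict X) g‖ ^ 2 = R.En φ g.1 := by
  obtain ⟨c1, c2⟩ := R.var1_cont_energy hX hφ g.2.1 g.2.2
  rw [L2_norm_sq]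
  unfold En
  rw [← R.restrict_integral hμ c1 c2]
  · apply integral_congr_ae
    filter_upwards [R.TL_ae hX hφ (μ.restrict X) g] with y hy
    rw [hy, norm_mul, mul_pow, Complex.norm_real, Real.norm_eq_abs, sq_abs, ← Real.exp_nat_mul]
    congr 2
    push_cast
    ring
  · intro y hy
    rw [R.var1_dzb_eq_zero (fun h => hy (g.2.2 h))]
    simp

theorem inner_TL {X : Set R.carrier} (hX : IsOpen X) {φ : R.carrier → ℝ}
    (hφ : R.Smooth φ X) (ν : Measure R.carrier) [IsFiniteMeasureOnCompacts ν] (G : Lp ℂ 2 ν)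
    (g : R.TS X) : inner ℂ G (R.TL hX hφ ν g) =
      ∫ y, (starRingEnd ℂ) (G y) * (R.dzb g.1 y * Real.exp (φ y / 2)) ∂ν := by
  rw [L2.inner_def]
  apply integral_congr_ae
  filter_upwards [R.TL_ae hX hφ ν g] with y hy
  rw [hy, RCLike.inner_apply, mul_comm]

theorem integrable_weight {X : Set R.carrier} (hX : IsOpen X) {μ : Measure R.carrier}
    (G : Lp ℂ 2 (μ.restrict X)) {D : R.carrier → ℝ} (hD : ContinuousOn D X) {C : ℝ}
    (hC : ∀ y ∈ X, |D y| ≤ C) :
    Integrable (fun y => ‖G y‖ ^ 2 * D y) (μ.restrict X) := by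
  refine (L2_sq_integrable G).mul_bdd (c := C) (hD.aestronglyMeasurable hX.measurableSet) ?_
  filter_upwards [ae_restrict_mem hX.measurableSet] with y hy
  exact hC y hy

/-- the dual estimate for another weight -/
theorem NR_le {X : Set R.carrier} (hX : IsOpen X) {φ φ1 : R.carrier → ℝ}
    (hφ : R.Smooth φ X) (hφ1 : R.Smooth φ1 X) (μ : Measure R.carrier)
    [IsFiniteMeasureOnCompacts (μ.restrict X)]
    (hμ : ∀ h : R.carrier → ℝ, Continuous h → HasCompactSupport h → ∫ y, h y ∂μ = R.sint h)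
    {y₀ : R.carrier} {r : ℝ} (hr : 0 < r) (hr1 : r < R.rad y₀) (G : Lp ℂ 2 (μ.restrict X))
    (hG : ∀ g, inner ℂ G (R.TL hX hφ (μ.restrict X) g) = R.ellL X y₀ hr hr1 g) {C : ℝ}
    (hC : ∀ y ∈ X, |φ1 y - φ y| ≤ C) :
    R.NR X φ1 y₀ r ≤ ∫ y in X, ‖G y‖ ^ 2 * Real.exp (-(φ1 y - φ y)) ∂μ := by
  have hA : 0 ≤ ∫ y in X, ‖G y‖ ^ 2 * Real.exp (-(φ1 y - φ y)) ∂μ :=
    integral_nonneg fun y => by positivity
  refine csSup_le ⟨0, R.zero_mem_NSet⟩ ?_
  rintro t ⟨g, hg, hgX, hE, rfl⟩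
  refine le_of_amgm (norm_nonneg _) hA fun s hs => ?_
  have h1 := hG ⟨g, hg, hgX⟩
  rw [R.inner_TL] at h1
  have h2 : R.ellL X y₀ hr hr1 ⟨g, hg, hgX⟩ = R.ell y₀ r g := rfl
  rw [← h2, ← h1]
  obtain ⟨c1, c2⟩ := R.var1_cont_energy hX hφ1 hg hgX
  have hφc : ContinuousOn φ X := Smooth.continuousOn R hX hφ
  have hφ1c : ContinuousOn φ1 X := Smooth.continuousOn R hX hφ1
  have i1 : Integrable (fun y => ‖G y‖ ^ 2 * Real.exp (-(φ1 y - φ y))) (μ.restrict X) := by
    refine R.integrable_weight hX G (C := Real.exp C) ?_ ?_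
    · exact Real.continuous_exp.comp_continuousOn (hφ1c.sub hφc).neg
    · intro y hy
      rw [abs_of_pos (Real.exp_pos _)]
      exact Real.exp_le_exp.2 ((neg_le_abs _).trans (hC y hy))
  have i2 : Integrable (fun y => ‖R.dzb g y‖ ^ 2 * Real.exp (φ1 y)) (μ.restrict X) :=
    c1.integrable_of_hasCompactSupport c2
  have e2 : ∫ y in X, ‖R.dzb g y‖ ^ 2 * Real.exp (φ1 y) ∂μ = R.En φ1 g := by
    unfold En
    rw [← R.restrict_integral hμ c1 c2]
    intro y hy
    rw [R.var1_dzb_eq_zero (fun h => hy (hgX h))]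
    simp
  calc ‖∫ y in X, (starRingEnd ℂ) (G y) * (R.dzb g y * Real.exp (φ y / 2)) ∂μ‖
      ≤ ∫ y in X, ‖(starRingEnd ℂ) (G y) * (R.dzb g y * Real.exp (φ y / 2))‖ ∂μ :=
        norm_integral_le_integral_norm _
    _ ≤ ∫ y in X, (s / 2 * (‖G y‖ ^ 2 * Real.exp (-(φ1 y - φ y))) +
          1 / (2 * s) * (‖R.dzb g y‖ ^ 2 * Real.exp (φ1 y))) ∂μ := by
        refine integral_mono_of_nonneg (Eventually.of_forall fun y => norm_nonneg _)
          ((i1.const_mul _).add (i2.const_mul _)) (Eventually.of_forall fun y => ?_)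
        simp only [norm_mul, RCLike.norm_conj, Complex.norm_real, Real.norm_eq_abs,
          abs_of_pos (Real.exp_pos _)]
        set a := ‖G y‖ * Real.exp (-(φ1 y - φ y) / 2) with ha
        set b := ‖R.dzb g y‖ * Real.exp (φ1 y / 2) with hb
        have e3 : ‖G y‖ * (‖R.dzb g y‖ * Real.exp (φ y / 2)) = a * b := by
          rw [ha, hb]
          have : Real.exp (φ y / 2) = Real.exp (-(φ1 y - φ y) / 2) * Real.exp (φ1 y / 2) := by
            rw [← Real.exp_add]; congr 1; ring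
          rw [this]; ring
        have e4 : ‖G y‖ ^ 2 * Real.exp (-(φ1 y - φ y)) = a ^ 2 := by
          rw [ha, mul_pow, ← Real.exp_nat_mul]; congr 2; push_cast; ring
        have e5 : ‖R.dzb g y‖ ^ 2 * Real.exp (φ1 y) = b ^ 2 := by
          rw [hb, mul_pow, ← Real.exp_nat_mul]; congr 2; push_cast; ring
        rw [e3, e4, e5]
        have h5 : 0 ≤ (s * a - b) ^ 2 / (2 * s) := by positivity
        have h6 : (s * a - b) ^ 2 / (2 * s) = s / 2 * a ^ 2 + 1 / (2 * s) * b ^ 2 - a * b := by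
          field_simp; ring
        linarith
    _ = s / 2 * (∫ y in X, ‖G y‖ ^ 2 * Real.exp (-(φ1 y - φ y)) ∂μ) + 1 / (2 * s) * R.En φ1 g := by
        rw [integral_add (i1.const_mul _) (i2.const_mul _), integral_const_mul,
          integral_const_mul, e2]
    _ ≤ _ := by
        have : 1 / (2 * s) * R.En φ1 g ≤ 1 / (2 * s) * 1 :=
          mul_le_mul_of_nonneg_left hE (by positivity)
        linarith

end RD

end Pool.Agent.ParLeaf
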