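import Pool.Agent.H.MP_3a36cd_an.Var1
import Pool.Agent.H.MP_3a36cd_an.Vol
import Pool.Agent.H.MP_3a36cd_an.Planar1
import Pool.Agent.H.MP_3a36cd_an.Four
import Pool.Agent.H.MP_3a36cd_an.VarH

/-! MP_3a36cd_an, module Var2: the second variation; superharmonicity of the soft capacity. -/

open Set Metric Filter Topology Complex MeasureTheory Real
open scoped ContDiff

namespace Pool.Agent.ParLeaf

theorem le_of_amgm2 {x A E : ℝ} (hx : 0 ≤ x) (hA : 0 ≤ A) (hE : 0 ≤ E)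
    (h : ∀ s > 0, x ≤ s / 2 * A + 1 / (2 * s) * E) : x ^ 2 ≤ A * E := by
  rcases hx.eq_or_lt with h0 | h0
  · rw [← h0]; simp; positivity
  rcases hA.eq_or_lt with hA0 | hA0
  · exfalso
    have := h ((E + 1) / (2 * x)) (by positivity)
    rw [← hA0, mul_zero, zero_add] at this
    have e : 1 / (2 * ((E + 1) / (2 * x))) * E = x * (E / (E + 1)) := by field_simp
    rw [e] at this
    have h2 : E / (E + 1) < 1 := by rw [div_lt_one (by positivity)]; linarith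
    nlinarith
  · have := h (x / A) (by positivity)
    have e : x / A / 2 * A + 1 / (2 * (x / A)) * E = x / 2 + A * E / (2 * x) := by field_simp
    rw [e] at this
    have h2 : x / 2 ≤ A * E / (2 * x) := by linarith
    rw [le_div_iff₀ (by positivity)] at h2
    nlinarith

theorem int4_aux {α : Type*} [MeasurableSpace α] {ν : Measure α} {f1 f2 f3 f4 : α → ℝ}
    (h1 : Integrable f1 ν) (h2 : Integrable f2 ν) (h3 : Integrable f3 ν) (h4 : Integrable f4 ν) :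
    ∫ y, (f1 y + f2 y + f3 y + f4 y) / 4 ∂ν =
      ((∫ y, f1 y ∂ν) + (∫ y, f2 y ∂ν) + (∫ y, f3 y ∂ν) + ∫ y, f4 y ∂ν) / 4 := by
  have e1 : ∫ y, (f1 y + f2 y) ∂ν = (∫ y, f1 y ∂ν) + ∫ y, f2 y ∂ν := integral_add h1 h2
  have e2 : ∫ y, (f1 y + f2 y + f3 y) ∂ν = (∫ y, (f1 y + f2 y) ∂ν) + ∫ y, f3 y ∂ν :=
    integral_add (f := fun y => f1 y + f2 y) (h1.add h2) h3
  have e3 : ∫ y, (f1 y + f2 y + f3 y + f4 y) ∂ν = (∫ y, (f1 y + f2 y + f3 y) ∂ν) + ∫ y, f4 y ∂ν :=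
    integral_add (f := fun y => f1 y + f2 y + f3 y) ((h1.add h2).add h3) h4
  rw [integral_div, e3, e2, e1]

theorem int5_aux {α : Type*} [MeasurableSpace α] {ν : Measure α} {p q w u : α → ℝ} {s k : ℝ}
    (hp : Integrable p ν) (hq : Integrable q ν) (hw : Integrable w ν) (hu : Integrable u ν) :
    ∫ y, (p y + s * (q y - w y) + k * (p y + u y)) ∂ν =
      (∫ y, p y ∂ν) + s * ((∫ y, q y ∂ν) - ∫ y, w y ∂ν) + k * ((∫ y, p y ∂ν) + ∫ y, u y ∂ν) := by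
  have e1 : ∫ y, (q y - w y) ∂ν = (∫ y, q y ∂ν) - ∫ y, w y ∂ν := integral_sub hq hw
  have e2 : ∫ y, (p y + u y) ∂ν = (∫ y, p y ∂ν) + ∫ y, u y ∂ν := integral_add hp hu
  have e3 : ∫ y, s * (q y - w y) ∂ν = s * ∫ y, (q y - w y) ∂ν := integral_const_mul _ _
  have e4 : ∫ y, k * (p y + u y) ∂ν = k * ∫ y, (p y + u y) ∂ν := integral_const_mul _ _
  have e5 : ∫ y, (p y + s * (q y - w y)) ∂ν = (∫ y, p y ∂ν) + ∫ y, s * (q y - w y) ∂ν :=
    integral_add (g := fun y => s * (q y - w y)) hp ((hq.sub hw).const_mul s)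
  have e6 : ∫ y, (p y + s * (q y - w y) + k * (p y + u y)) ∂ν =
      (∫ y, (p y + s * (q y - w y)) ∂ν) + ∫ y, k * (p y + u y) ∂ν :=
    integral_add (f := fun y => p y + s * (q y - w y)) (g := fun y => k * (p y + u y))
      (hp.add ((hq.sub hw).const_mul s)) ((hp.add hu).const_mul k)
  rw [e6, e5, e4, e3, e2, e1]

namespace RD

/-- the product of a test function with a smooth function -/
theorem mul_TS (R : RD ℂ) {X : Set R.carrier} {a : R.carrier → ℂ} (ha : R.Smooth a X)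
    {g : R.carrier → ℂ} (hg : R.Test g) (hgX : tsupport g ⊆ X) :
    R.Test (fun y => a y * g y) ∧ tsupport (fun y => a y * g y) ⊆ X := by
  have h0 : ∀ y, y ∉ tsupport g → a y * g y = 0 := by
    intro y hy
    rw [image_eq_zero_of_notMem_tsupport hy, mul_zero]
  refine ⟨⟨R.surf2_smooth_univ hgX ?_ h0, HasCompactSupport.intro hg.2 h0⟩, ?_⟩
  · exact R.surf2_smooth_mul ha (fun e _ => hg.1 e (mem_univ _))
  · refine (closure_minimal (fun y hy => ?_) (isClosed_tsupport g)).trans hgX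
    by_contra hcon
    exact hy (h0 y hcon)

/-- the key estimate: `|⟨ā G, T g⟩|² ≤ ∫ c |G|² · En g` -/
theorem key_bound (R : RD ℂ) {X : Set R.carrier} (hX : IsOpen X) {φ : R.carrier → ℝ}
    (hφ : R.Smooth φ X) (μ : Measure R.carrier) [IsFiniteMeasureOnCompacts (μ.restrict X)]
    (hμ : ∀ h : R.carrier → ℝ, Continuous h → HasCompactSupport h → ∫ y, h y ∂μ = R.sint h)
    {y₀ : R.carrier} {r : ℝ} (hr : 0 < r) (hr1 : r < R.rad y₀) (G : Lp ℂ 2 (μ.restrict X))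
    (hG : ∀ g, inner ℂ G (R.TL hX hφ (μ.restrict X) g) = R.ellL X y₀ hr hr1 g)
    {a : R.carrier → ℂ} (ha : R.Smooth a X) (ha0 : ∀ ζ, ‖ζ‖ ≤ r → a (R.tr y₀ ζ) = 0)
    {c : R.carrier → ℝ} (hc : ContinuousOn c X) {M : ℝ} (hcM : ∀ y ∈ X, |c y| ≤ M)
    (hineq : ∀ y ∈ X, 0 ≤ R.levi 1 φ y ∧ 0 ≤ c y ∧ ‖R.dzb a y‖ ^ 2 ≤ c y * R.levi 1 φ y)
    (v : Lp ℂ 2 (μ.restrict X))
    (hv : (v : R.carrier → ℂ) =ᵐ[μ.restrict X] fun y => (starRingEnd ℂ) (a y) * G y) (g : R.TS X) :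
    ‖inner ℂ v (R.TL hX hφ (μ.restrict X) g)‖ ^ 2 ≤
      (∫ y in X, ‖G y‖ ^ 2 * c y ∂μ) * ‖R.TL hX hφ (μ.restrict X) g‖ ^ 2 := by
  obtain ⟨t1, t2⟩ := R.mul_TS ha g.2.1 g.2.2
  set ag : R.TS X := ⟨fun y => a y * g.1 y, t1, t2⟩ with hag
  have hE0 := R.En_nonneg φ g.1
  have hA : 0 ≤ ∫ y in X, ‖G y‖ ^ 2 * c y ∂μ := by
    refine setIntegral_nonneg hX.measurableSet fun y hy => ?_
    have := (hineq y hy).2.1
    positivity
  -- `ℓ (a g) = 0`
  have hell : R.ellL X y₀ hr hr1 ag = 0 := by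
    show R.ell y₀ r (fun y => a y * g.1 y) = 0
    unfold ell
    refine (integral_congr_ae (Eventually.of_forall fun ζ => ?_)).trans (integral_zero _ _)
    by_cases hζ : ‖ζ‖ ≤ 1
    · have : ‖(r : ℂ) * ζ‖ ≤ r := by
        rw [norm_mul, Complex.norm_real, Real.norm_eq_abs, abs_of_pos hr]
        nlinarith
      simp only [ha0 _ this, zero_mul, mul_zero]
    · have : chi ζ = 0 := chi_eq_zero (Or.inr (by
        push Not at hζ
        nlinarith))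
      simp [this]
  have h1 := hG ag
  rw [hell] at h1
  -- the difference of the two inner products
  have i1 : Integrable (fun y => (starRingEnd ℂ) (G y) * (R.dzb ag.1 y * Real.exp (φ y / 2))) (μ.restrict X) := by
    have := L2.integrable_inner (𝕜 := ℂ) G (R.TL hX hφ (μ.restrict X) ag)
    refine this.congr ?_
    filter_upwards [R.TL_ae hX hφ (μ.restrict X) ag] with y hy
    rw [hy, RCLike.inner_apply, mul_comm]
  have i2 : Integrable (fun y => a y * ((starRingEnd ℂ) (G y)) *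
      (R.dzb g.1 y * Real.exp (φ y / 2))) (μ.restrict X) := by
    have := L2.integrable_inner (𝕜 := ℂ) v (R.TL hX hφ (μ.restrict X) g)
    refine this.congr ?_
    filter_upwards [R.TL_ae hX hφ (μ.restrict X) g, hv] with y hy hy2
    rw [hy, hy2, RCLike.inner_apply, map_mul, Complex.conj_conj, mul_comm]
  have e2 : inner ℂ v (R.TL hX hφ (μ.restrict X) g) = ∫ y, a y * ((starRingEnd ℂ) (G y)) *
      (R.dzb g.1 y * Real.exp (φ y / 2)) ∂(μ.restrict X) := by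
    rw [R.inner_TL]
    apply integral_congr_ae
    filter_upwards [hv] with y hy2
    rw [hy2, map_mul, Complex.conj_conj]
  rw [R.inner_TL] at h1
  have e3 : inner ℂ v (R.TL hX hφ (μ.restrict X) g) = - ∫ y in X, (starRingEnd ℂ) (G y) *
      (R.dzb a y * g.1 y * Real.exp (φ y / 2)) ∂μ := by
    have h2 : ∫ y, ((starRingEnd ℂ) (G y) * (R.dzb ag.1 y * Real.exp (φ y / 2)) -
        a y * ((starRingEnd ℂ) (G y)) * (R.dzb g.1 y * Real.exp (φ y / 2))) ∂(μ.restrict X) =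
        ∫ y in X, (starRingEnd ℂ) (G y) * (R.dzb a y * g.1 y * Real.exp (φ y / 2)) ∂μ := by
      refine setIntegral_congr_fun hX.measurableSet fun y hy => ?_
      have h3 : R.dzb ag.1 y = R.dzb a y * g.1 y + a y * R.dzb g.1 y :=
        R.dwb_mul (fun e he => ha e (by rw [he]; exact hy)) (fun e _ => g.2.1.1 e (mem_univ _)) 1
      simp only [h3]
      ring
    rw [integral_sub i1 i2, h1, ← e2, zero_sub] at h2
    rw [← h2, neg_neg]
  rw [R.TL_norm_sq hX hφ μ hμ g]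
  refine le_of_amgm2 (norm_nonneg _) hA hE0 fun s hs => ?_
  rw [e3, norm_neg]
  have hφc : ContinuousOn φ X := Smooth.continuousOn R hX hφ
  -- the Levi term
  have hlev : ContinuousOn (R.levi 1 φ) X := by
    have h5 := Smooth.dw R hX (Smooth.dwb R hX (R.surf2_smooth_ofReal hφ) 1) 1
    have h6 := Smooth.continuousOn R hX h5
    exact Complex.continuous_re.comp_continuousOn h6
  have hgc : Continuous g.1 := nc_test_continuous g.2.1
  have h0 : ∀ y, y ∉ tsupport g.1 → ‖g.1 y‖ ^ 2 * Real.exp (φ y) * R.levi 1 φ y = 0 := by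
    intro y hy
    rw [image_eq_zero_of_notMem_tsupport hy]; simp
  have c1 : Continuous (fun y => ‖g.1 y‖ ^ 2 * Real.exp (φ y) * R.levi 1 φ y) := by
    refine R.surf2_continuous hX g.2.2 ?_ h0
    exact ((hgc.norm.pow 2).continuousOn.mul (Real.continuous_exp.comp_continuousOn hφc)).mul hlev
  have c2 : HasCompactSupport (fun y => ‖g.1 y‖ ^ 2 * Real.exp (φ y) * R.levi 1 φ y) :=
    HasCompactSupport.intro g.2.1.2 h0
  have j1 : Integrable (fun y => ‖g.1 y‖ ^ 2 * Real.exp (φ y) * R.levi 1 φ y) (μ.restrict X) :=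
    c1.integrable_of_hasCompactSupport c2
  have j2 : Integrable (fun y => ‖G y‖ ^ 2 * c y) (μ.restrict X) := R.integrable_weight hX G hc hcM
  have e4 : ∫ y in X, ‖g.1 y‖ ^ 2 * Real.exp (φ y) * R.levi 1 φ y ∂μ ≤ R.En φ g.1 := by
    rw [R.restrict_integral hμ c1 c2]
    · exact R.energy_ineq hX hφ g.2.1 g.2.2
    · intro y hy
      exact h0 y (fun h => hy (g.2.2 h))
  calc ‖∫ y in X, (starRingEnd ℂ) (G y) * (R.dzb a y * g.1 y * Real.exp (φ y / 2)) ∂μ‖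
      ≤ ∫ y in X, ‖(starRingEnd ℂ) (G y) * (R.dzb a y * g.1 y * Real.exp (φ y / 2))‖ ∂μ :=
        norm_integral_le_integral_norm _
    _ ≤ ∫ y in X, (s / 2 * (‖G y‖ ^ 2 * c y) +
          1 / (2 * s) * (‖g.1 y‖ ^ 2 * Real.exp (φ y) * R.levi 1 φ y)) ∂μ := by
        refine integral_mono_of_nonneg (Eventually.of_forall fun y => norm_nonneg _)
          ((j2.const_mul _).add (j1.const_mul _)) ?_
        filter_upwards [ae_restrict_mem hX.measurableSet] with y hy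
        simp only [norm_mul, RCLike.norm_conj, Complex.norm_real, Real.norm_eq_abs,
          abs_of_pos (Real.exp_pos _)]
        obtain ⟨k1, k2, k3⟩ := hineq y hy
        set L := R.levi 1 φ y with hL
        have k4 : ‖R.dzb a y‖ ≤ √(c y) * √L := by
          rw [← Real.sqrt_mul k2, ← Real.sqrt_sq (norm_nonneg (R.dzb a y))]
          exact Real.sqrt_le_sqrt k3
        set p := ‖G y‖ * √(c y) with hp
        set q := ‖g.1 y‖ * Real.exp (φ y / 2) * √L with hq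
        have e5 : ‖G y‖ ^ 2 * c y = p ^ 2 := by
          rw [hp, mul_pow, Real.sq_sqrt k2]
        have e6 : ‖g.1 y‖ ^ 2 * Real.exp (φ y) * L = q ^ 2 := by
          rw [hq, mul_pow, mul_pow, Real.sq_sqrt k1, ← Real.exp_nat_mul]
          congr 3; push_cast; ring
        have e7 : ‖G y‖ * (‖R.dzb a y‖ * ‖g.1 y‖ * Real.exp (φ y / 2)) ≤ p * q := by
          have : p * q = ‖G y‖ * ((√(c y) * √L) * ‖g.1 y‖ * Real.exp (φ y / 2)) := by
            rw [hp, hq]; ring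
          rw [this]
          gcongr
        rw [e5, e6]
        refine e7.trans ?_
        have h5 : 0 ≤ (s * p - q) ^ 2 / (2 * s) := by positivity
        have h6 : (s * p - q) ^ 2 / (2 * s) = s / 2 * p ^ 2 + 1 / (2 * s) * q ^ 2 - p * q := by
          field_simp; ring
        linarith
    _ = s / 2 * (∫ y in X, ‖G y‖ ^ 2 * c y ∂μ) +
          1 / (2 * s) * (∫ y in X, ‖g.1 y‖ ^ 2 * Real.exp (φ y) * R.levi 1 φ y ∂μ) := by
        rw [integral_add (j2.const_mul _) (j1.const_mul _), integral_const_mul,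
          integral_const_mul]
    _ ≤ _ := by
        have : 1 / (2 * s) * (∫ y in X, ‖g.1 y‖ ^ 2 * Real.exp (φ y) * R.levi 1 φ y ∂μ) ≤
          1 / (2 * s) * R.En φ g.1 := mul_le_mul_of_nonneg_left e4 (by positivity)
        linarith

theorem At_zero (R : RD ℂ) {Φ : ℂ → R.carrier → ℝ} {τ : ℂ} {y : R.carrier}
    (h : ContDiffAt ℝ ∞ (R.Fy Φ τ y) 0) (hz : ∀ᶠ τ' in 𝓝 τ, Φ τ' y = 0) : R.At Φ τ y = 0 := by
  have key : ∀ e : ℂ, R.A1 Φ τ e y = 0 := by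
    intro e
    have h1 := (D1_hasDerivAt h (e, 0)).self_of_nhds
    have h2 : (fun t : ℝ => R.Fy Φ τ y (0 + t • (e, (0 : ℂ)))) =ᶠ[𝓝 0] fun _ => (0 : ℝ) := by
      have hc : Tendsto (fun t : ℝ => τ + t • e) (𝓝 0) (𝓝 τ) := by
        have : Continuous (fun t : ℝ => τ + t • e) := by fun_prop
        simpa using this.tendsto 0
      filter_upwards [hc.eventually hz] with t ht
      simp only [Fy, zero_add, Prod.smul_mk, smul_zero, R.tr_zero]
      exact ht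
    have h3 : HasDerivAt (fun t : ℝ => R.Fy Φ τ y (0 + t • (e, (0 : ℂ)))) 0 0 :=
      (hasDerivAt_const (0 : ℝ) (0 : ℝ)).congr_of_eventuallyEq h2
    exact h1.unique h3
  simp [At, key]

/-- the four-point inequality at one parameter -/
theorem four_var (R : RD ℂ) (y₀ : R.carrier) {r : ℝ} (hr : 0 < r) (hr1 : r < R.rad y₀)
    {X : Set R.carrier} (hX : IsOpen X) (hXc : IsCompact (closure X))
    (hdisc : ∀ ζ, ‖ζ‖ ≤ r → R.tr y₀ ζ ∈ X) (Φ : ℂ → R.carrier → ℝ) {ε : ℝ}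
    (hsm : ∀ τ ∈ ball (0 : ℂ) ε, ∀ y ∈ closure X, ContDiffAt ℝ ∞ (R.Fy Φ τ y) 0)
    (hb : ∀ τ ∈ ball (0 : ℂ) ε, BddAbove (R.NSet X (Φ τ) y₀ r))
    (hpsh : ∀ τ ∈ ball (0 : ℂ) ε, ∀ y ∈ X, ∀ w : ℂ × ℂ, 0 ≤ plevi w (R.Fy Φ τ y) 0)
    (hz : ∀ τ ∈ ball (0 : ℂ) ε, ∀ ζ, ‖ζ‖ ≤ r → Φ τ (R.tr y₀ ζ) = 0) {τ : ℂ}
    (hτ : τ ∈ ball (0 : ℂ) ε) :
    ∃ C : ℝ, ∃ s₀ > 0, ∀ s, 0 < s → s < s₀ →
      four (fun τ => R.NR X (Φ τ) y₀ r) τ s ≤ R.NR X (Φ τ) y₀ r + C * s ^ 3 := by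
  obtain ⟨μ, hreg, hμ, -, -⟩ := R.exists_vol
  have : IsFiniteMeasureOnCompacts (μ.restrict X) := inferInstance
  have hφ : R.Smooth (Φ τ) X := R.weight_smooth (fun y hy => hsm τ hτ y (subset_closure hy))
  have hn0 := R.NR_nonneg (hb τ hτ)
  set n0 := R.NR X (Φ τ) y₀ r with hn0'
  -- the Riesz vector
  obtain ⟨G, hGn, hG⟩ := exists_riesz (R.TL hX hφ (μ.restrict X)) (R.ellL X y₀ hr hr1)
    (C := √n0) (Real.sqrt_nonneg _) (fun g => by
      have h1 := R.ell_le_NR (hb τ hτ) g.2.1 g.2.2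
      rw [← R.TL_norm_sq hX hφ μ hμ g, ← hn0'] at h1
      have h2 : ‖R.ell y₀ r g.1‖ ≤ √(n0 * ‖R.TL hX hφ (μ.restrict X) g‖ ^ 2) :=
        Real.le_sqrt_of_sq_le h1
      rwa [Real.sqrt_mul hn0, Real.sqrt_sq (norm_nonneg _)] at h2)
  have hGsq : ‖G‖ ^ 2 ≤ n0 := by
    have := pow_le_pow_left₀ (norm_nonneg _) hGn 2
    rwa [Real.sq_sqrt hn0] at this
  -- calculus
  have hsmX : ∀ y ∈ X, ContDiffAt ℝ ∞ (R.Fy Φ τ y) 0 := fun y hy =>
    hsm τ hτ y (subset_closure hy)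
  obtain ⟨δ₁, hδ₁, M₁, hM₁, T1⟩ := R.taylor_compact hXc (hsm τ hτ) 1 (by simp)
  obtain ⟨δ₂, hδ₂, M₂, hM₂, T2⟩ := R.taylor_compact hXc (hsm τ hτ) I (by simp)
  obtain ⟨δ₃, hδ₃, M₃, hM₃, T3⟩ := R.lip_compact hXc (hsm τ hτ)
  have ha := R.At_smooth hsmX
  have hc : ContinuousOn (R.Ct Φ τ) X :=
    ((Smooth.continuousOn R hX (R.A2_smooth hsmX 1)).add
      (Smooth.continuousOn R hX (R.A2_smooth hsmX I))).div_const 4
  have hcM : ∀ y ∈ X, |R.Ct Φ τ y| ≤ M₁ + M₂ := by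
    intro y hy
    have h1 := (T1 y (subset_closure hy)).2.1
    have h2 := (T2 y (subset_closure hy)).2.1
    unfold Ct
    rw [abs_div]
    have := abs_add_le (R.A2 Φ τ 1 y) (R.A2 Φ τ I y)
    rw [show |(4 : ℝ)| = 4 by norm_num, div_le_iff₀ (by norm_num)]
    linarith
  have haM : ∀ y ∈ X, ‖R.At Φ τ y‖ ≤ M₁ + M₂ := by
    intro y hy
    have h1 := (T1 y (subset_closure hy)).1
    have h2 := (T2 y (subset_closure hy)).1
    unfold At
    rw [norm_div]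
    have h3 := norm_sub_le (R.A1 Φ τ 1 y : ℂ) (I * (R.A1 Φ τ I y : ℂ))
    rw [norm_mul, Complex.norm_I, one_mul, Complex.norm_real, Complex.norm_real] at h3
    simp only [Real.norm_eq_abs] at h3
    rw [show ‖(2 : ℂ)‖ = 2 by simp, div_le_iff₀ (by norm_num)]
    linarith
  have ha0 : ∀ ζ, ‖ζ‖ ≤ r → R.At Φ τ (R.tr y₀ ζ) = 0 := by
    intro ζ hζ
    apply R.At_zero (hsmX _ (hdisc ζ hζ))
    filter_upwards [isOpen_ball.mem_nhds hτ] with τ' hτ'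
    exact hz τ' hτ' ζ hζ
  have hineq : ∀ y ∈ X, 0 ≤ R.levi 1 (Φ τ) y ∧ 0 ≤ R.Ct Φ τ y ∧
      ‖R.dzb (R.At Φ τ) y‖ ^ 2 ≤ R.Ct Φ τ y * R.levi 1 (Φ τ) y :=
    fun y hy => R.psh_ineq (hsmX y hy) (hpsh τ hτ y hy)
  -- the vector `v = ā G`
  have hac : ContinuousOn (fun y => (starRingEnd ℂ) (R.At Φ τ y)) X :=
    Complex.continuous_conj.comp_continuousOn (Smooth.continuousOn R hX ha)
  have hvm : MemLp (fun y => (starRingEnd ℂ) (R.At Φ τ y) * G y) 2 (μ.restrict X) := by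
    refine (Lp.memLp G).of_le_mul (c := M₁ + M₂)
      ((hac.aestronglyMeasurable hX.measurableSet).mul (Lp.aestronglyMeasurable G)) ?_
    filter_upwards [ae_restrict_mem hX.measurableSet] with y hy
    rw [norm_mul, RCLike.norm_conj]
    exact mul_le_mul_of_nonneg_right (haM y hy) (norm_nonneg _)
  have hv := hvm.coeFn_toLp
  set v := hvm.toLp with hv'
  set A := ∫ y in X, ‖G y‖ ^ 2 * R.Ct Φ τ y ∂μ with hA'
  have hA : 0 ≤ A := by
    refine setIntegral_nonneg hX.measurableSet fun y hy => ?_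
    have := (hineq y hy).2.1
    positivity
  have hkey := R.key_bound hX hφ μ hμ hr hr1 G hG ha ha0 hc hcM hineq v hv
  obtain ⟨η, hη, hηT⟩ := exists_orth (R.TL hX hφ (μ.restrict X)) v (C := √A) (Real.sqrt_nonneg _)
    (fun g => by
      have h2 := Real.le_sqrt_of_sq_le (hkey g)
      rwa [Real.sqrt_mul hA, Real.sqrt_sq (norm_nonneg _)] at h2)
  have hηsq : ‖η - v‖ ^ 2 ≤ A := by
    have := pow_le_pow_left₀ (norm_nonneg _) hη 2
    rwa [Real.sq_sqrt hA] at this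
  -- the dual estimates
  have hdual : ∀ c' σ : ℂ, τ + σ ∈ ball (0 : ℂ) ε → ‖σ‖ < δ₃ →
      Integrable (fun y => ‖G y + c' * η y‖ ^ 2 * Real.exp (-(Φ (τ + σ) y - Φ τ y)))
        (μ.restrict X) ∧
      R.NR X (Φ (τ + σ)) y₀ r ≤
        ∫ y in X, ‖G y + c' * η y‖ ^ 2 * Real.exp (-(Φ (τ + σ) y - Φ τ y)) ∂μ := by
    intro c' σ hσ hσ'
    have hG' : ∀ g, inner ℂ (G + c' • η) (R.TL hX hφ (μ.restrict X) g) = R.ellL X y₀ hr hr1 g := by
      intro g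
      rw [inner_add_left, inner_smul_left, hηT g, mul_zero, add_zero, hG g]
    have hφ1 : R.Smooth (Φ (τ + σ)) X :=
      R.weight_smooth (fun y hy => hsm _ hσ y (subset_closure hy))
    have hC : ∀ y ∈ X, |Φ (τ + σ) y - Φ τ y| ≤ M₃ * ‖σ‖ := fun y hy =>
      T3 y (subset_closure hy) σ hσ'
    have h1 := R.NR_le hX hφ hφ1 μ hμ hr hr1 (G + c' • η) hG' hC
    have hae : ((G + c' • η : Lp ℂ 2 (μ.restrict X)) : R.carrier → ℂ) =ᵐ[μ.restrict X]
        fun y => G y + c' * η y := by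
      filter_upwards [Lp.coeFn_add G (c' • η), Lp.coeFn_smul c' η] with y h2 h3
      rw [h2, Pi.add_apply, h3]; rfl
    have hexp : ContinuousOn (fun y => Real.exp (-(Φ (τ + σ) y - Φ τ y))) X :=
      Real.continuous_exp.comp_continuousOn
        ((Smooth.continuousOn R hX hφ1).sub (Smooth.continuousOn R hX hφ)).neg
    have hi := R.integrable_weight hX (G + c' • η) hexp (C := Real.exp (M₃ * ‖σ‖)) (by
      intro y hy
      rw [abs_of_pos (Real.exp_pos _)]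
      exact Real.exp_le_exp.2 ((neg_le_abs _).trans (hC y hy)))
    refine ⟨hi.congr ?_, h1.trans (le_of_eq (integral_congr_ae ?_))⟩
    · filter_upwards [hae] with y hy
      rw [hy]
    · filter_upwards [hae] with y hy
      rw [hy]
  -- the pointwise estimate
  set M := max M₁ M₂ with hM
  have hM0 : 0 ≤ M := hM₁.trans (le_max_left _ _)
  obtain ⟨K, s₁, hK, hs₁, hfour⟩ := four_pt hM0
  obtain ⟨δ₄, hδ₄, hδ₄'⟩ := Metric.isOpen_iff.1 isOpen_ball τ hτ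
  refine ⟨K * (‖G‖ ^ 2 + ‖η‖ ^ 2), min (min s₁ (min δ₁ δ₂)) (min δ₃ δ₄),
    lt_min (lt_min hs₁ (lt_min hδ₁ hδ₂)) (lt_min hδ₃ hδ₄), fun s hs hss => ?_⟩
  have b1 : s < s₁ := hss.trans_le ((min_le_left _ _).trans (min_le_left _ _))
  have b2 : s < δ₁ := hss.trans_le ((min_le_left _ _).trans
    ((min_le_right _ _).trans (min_le_left _ _)))
  have b3 : s < δ₂ := hss.trans_le ((min_le_left _ _).trans
    ((min_le_right _ _).trans (min_le_right _ _)))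
  have b4 : s < δ₃ := hss.trans_le ((min_le_right _ _).trans (min_le_left _ _))
  have b5 : s < δ₄ := hss.trans_le ((min_le_right _ _).trans (min_le_right _ _))
  have m1 : ‖(s : ℂ)‖ = s := by simp [abs_of_pos hs]
  have m2 : ‖-(s : ℂ)‖ = s := by simp [abs_of_pos hs]
  have m3 : ‖(s : ℂ) * I‖ = s := by simp [abs_of_pos hs]
  have m4 : ‖-((s : ℂ) * I)‖ = s := by simp [abs_of_pos hs]
  have hmem : ∀ σ : ℂ, ‖σ‖ = s → τ + σ ∈ ball (0 : ℂ) ε := by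
    intro σ hσ
    apply hδ₄'
    simpa [dist_eq_norm, hσ] using b5
  obtain ⟨I1, N1⟩ := hdual s s (hmem _ m1) (m1.trans_lt b4)
  obtain ⟨I2, N2⟩ := hdual (-s) (-s) (hmem _ m2) (m2.trans_lt b4)
  obtain ⟨I3, N3⟩ := hdual (-(s * I)) (s * I) (hmem _ m3) (m3.trans_lt b4)
  obtain ⟨I4, N4⟩ := hdual (s * I) (-(s * I)) (hmem _ m4) (m4.trans_lt b4)
  have hvη : (((η - v : Lp ℂ 2 (μ.restrict X))) : R.carrier → ℂ) =ᵐ[μ.restrict X]
      fun y => η y - (starRingEnd ℂ) (R.At Φ τ y) * G y := by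
    filter_upwards [Lp.coeFn_sub η v, hv] with y h2 h3
    rw [h2, Pi.sub_apply, h3]
  have J1 : Integrable (fun y => ‖G y‖ ^ 2) (μ.restrict X) := L2_sq_integrable G
  have J2 : Integrable (fun y => ‖η y‖ ^ 2) (μ.restrict X) := L2_sq_integrable η
  have J3 : Integrable (fun y => ‖η y - (starRingEnd ℂ) (R.At Φ τ y) * G y‖ ^ 2)
      (μ.restrict X) := by
    refine (L2_sq_integrable (η - v)).congr ?_
    filter_upwards [hvη] with y hy
    rw [hy]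
  have J4 : Integrable (fun y => ‖G y‖ ^ 2 * R.Ct Φ τ y) (μ.restrict X) :=
    R.integrable_weight hX G hc hcM
  have L1 : ∫ y in X, ‖G y‖ ^ 2 ∂μ = ‖G‖ ^ 2 := (L2_norm_sq G).symm
  have L2 : ∫ y in X, ‖η y‖ ^ 2 ∂μ = ‖η‖ ^ 2 := (L2_norm_sq η).symm
  have L3 : ∫ y in X, ‖η y - (starRingEnd ℂ) (R.At Φ τ y) * G y‖ ^ 2 ∂μ = ‖η - v‖ ^ 2 := by
    rw [L2_norm_sq]
    apply integral_congr_ae
    filter_upwards [hvη] with y hy
    rw [hy]
  have step : ∫ y in X, (‖G y + s * η y‖ ^ 2 * Real.exp (-(Φ (τ + s) y - Φ τ y)) +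
      ‖G y + -s * η y‖ ^ 2 * Real.exp (-(Φ (τ + -s) y - Φ τ y)) +
      ‖G y + -(s * I) * η y‖ ^ 2 * Real.exp (-(Φ (τ + s * I) y - Φ τ y)) +
      ‖G y + s * I * η y‖ ^ 2 * Real.exp (-(Φ (τ + -(s * I)) y - Φ τ y))) / 4 ∂μ ≤
      ∫ y in X, (‖G y‖ ^ 2 + s ^ 2 * (‖η y - (starRingEnd ℂ) (R.At Φ τ y) * G y‖ ^ 2 -
        ‖G y‖ ^ 2 * R.Ct Φ τ y) + K * s ^ 3 * (‖G y‖ ^ 2 + ‖η y‖ ^ 2)) ∂μ := by
    refine integral_mono_ae ((((I1.add I2).add I3).add I4).div_const 4)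
      ((J1.add ((J3.sub J4).const_mul _)).add ((J1.add J2).const_mul _)) ?_
    filter_upwards [ae_restrict_mem hX.measurableSet] with y hy
    obtain ⟨t1, t2, t3⟩ := T1 y (subset_closure hy)
    obtain ⟨t4, t5, t6⟩ := T2 y (subset_closure hy)
    have hM1 : M₁ ≤ M := le_max_left _ _
    have hM2 : M₂ ≤ M := le_max_right _ _
    have hs3 : 0 ≤ s ^ 3 := by positivity
    have u1 := t3 s (by rwa [abs_of_pos hs])
    have u2 := t3 (-s) (by rwa [abs_neg, abs_of_pos hs])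
    have u3 := t6 s (by rwa [abs_of_pos hs])
    have u4 := t6 (-s) (by rwa [abs_neg, abs_of_pos hs])
    rw [abs_of_pos hs] at u1 u3
    rw [abs_neg, abs_of_pos hs] at u2 u4
    have e1 : τ + (s : ℂ) * 1 = τ + s := by ring
    have e2 : τ + ((-s : ℝ) : ℂ) * 1 = τ + -s := by push_cast; ring
    have e3 : τ + ((-s : ℝ) : ℂ) * I = τ + -(s * I) := by push_cast; ring
    rw [e1] at u1
    rw [e2] at u2
    rw [e3] at u4
    have w1 : |(Φ (τ + s) y - Φ τ y) - R.A1 Φ τ 1 y * s - R.A2 Φ τ 1 y * s ^ 2 / 2| ≤ M * s ^ 3 :=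
      u1.trans (mul_le_mul_of_nonneg_right hM1 hs3)
    have w2 : |(Φ (τ + -s) y - Φ τ y) - (-R.A1 Φ τ 1 y) * s - R.A2 Φ τ 1 y * s ^ 2 / 2| ≤
        M * s ^ 3 := by
      refine le_trans (le_of_eq ?_) (u2.trans (mul_le_mul_of_nonneg_right hM1 hs3))
      congr 1; ring
    have w3 : |(Φ (τ + s * I) y - Φ τ y) - R.A1 Φ τ I y * s - R.A2 Φ τ I y * s ^ 2 / 2| ≤
        M * s ^ 3 := u3.trans (mul_le_mul_of_nonneg_right hM2 hs3)
    have w4 : |(Φ (τ + -(s * I)) y - Φ τ y) - (-R.A1 Φ τ I y) * s - R.A2 Φ τ I y * s ^ 2 / 2| ≤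
        M * s ^ 3 := by
      refine le_trans (le_of_eq ?_) (u4.trans (mul_le_mul_of_nonneg_right hM2 hs3))
      congr 1; ring
    have := hfour s hs b1 _ _ _ _ _ _ _ _ (t1.trans hM1) (t4.trans hM2) (t2.trans hM1)
      (t5.trans hM2) w1 w2 w3 w4 (G y) (η y)
    have g1 : G y + -s * η y = G y - s * η y := by ring
    have g2 : G y + -(s * I) * η y = G y - s * I * η y := by ring
    have g3 : (starRingEnd ℂ) (R.At Φ τ y) = ((R.A1 Φ τ 1 y : ℂ) + (R.A1 Φ τ I y : ℂ) * I) / 2 := by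
      simp only [At, map_div₀, map_sub, map_mul, Complex.conj_ofReal, Complex.conj_I,
        Complex.conj_ofNat]
      ring
    have g4 : (R.A2 Φ τ 1 y + R.A2 Φ τ I y) / 4 = R.Ct Φ τ y := rfl
    simp only [g1, g2, g3]
    rw [g4] at this
    linarith
  have lhs : ∫ y in X, (‖G y + s * η y‖ ^ 2 * Real.exp (-(Φ (τ + s) y - Φ τ y)) +
      ‖G y + -s * η y‖ ^ 2 * Real.exp (-(Φ (τ + -s) y - Φ τ y)) +
      ‖G y + -(s * I) * η y‖ ^ 2 * Real.exp (-(Φ (τ + s * I) y - Φ τ y)) +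
      ‖G y + s * I * η y‖ ^ 2 * Real.exp (-(Φ (τ + -(s * I)) y - Φ τ y))) / 4 ∂μ =
      ((∫ y in X, ‖G y + s * η y‖ ^ 2 * Real.exp (-(Φ (τ + s) y - Φ τ y)) ∂μ) +
      (∫ y in X, ‖G y + -s * η y‖ ^ 2 * Real.exp (-(Φ (τ + -s) y - Φ τ y)) ∂μ) +
      (∫ y in X, ‖G y + -(s * I) * η y‖ ^ 2 * Real.exp (-(Φ (τ + s * I) y - Φ τ y)) ∂μ) +
      ∫ y in X, ‖G y + s * I * η y‖ ^ 2 * Real.exp (-(Φ (τ + -(s * I)) y - Φ τ y)) ∂μ) / 4 := by
    exact int4_aux I1 I2 I3 I4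
  have rhs : ∫ y in X, (‖G y‖ ^ 2 + s ^ 2 * (‖η y - (starRingEnd ℂ) (R.At Φ τ y) * G y‖ ^ 2 -
        ‖G y‖ ^ 2 * R.Ct Φ τ y) + K * s ^ 3 * (‖G y‖ ^ 2 + ‖η y‖ ^ 2)) ∂μ =
      ‖G‖ ^ 2 + s ^ 2 * (‖η - v‖ ^ 2 - A) + K * s ^ 3 * (‖G‖ ^ 2 + ‖η‖ ^ 2) := by
    rw [int5_aux J1 J3 J4 J2, L1, L2, L3]
  rw [lhs, rhs] at step
  unfold four
  have hf : (R.NR X (Φ (τ + s)) y₀ r + R.NR X (Φ (τ - s)) y₀ r + R.NR X (Φ (τ + s * I)) y₀ r +
      R.NR X (Φ (τ - s * I)) y₀ r) / 4 ≤ n0 + K * (‖G‖ ^ 2 + ‖η‖ ^ 2) * s ^ 3 := by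
    rw [sub_eq_add_neg τ (s : ℂ), sub_eq_add_neg τ ((s : ℂ) * I)]
    have h5 : s ^ 2 * (‖η - v‖ ^ 2 - A) ≤ 0 :=
      mul_nonpos_of_nonneg_of_nonpos (by positivity) (by linarith)
    linarith
  exact hf

/-- **Superharmonic variation** of `N` for soft plurisubharmonic weights on a fixed surface. -/
theorem var (R : RD ℂ) (y₀ : R.carrier) {r : ℝ} (hr : 0 < r) (hr1 : r < R.rad y₀)
    {X : Set R.carrier} (hX : IsOpen X) (hXc : IsCompact (closure X))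
    (hdisc : ∀ ζ, ‖ζ‖ ≤ r → R.tr y₀ ζ ∈ X) (Φ : ℂ → R.carrier → ℝ) {ε : ℝ} (hε : 0 < ε)
    (hsm : ∀ τ ∈ ball (0 : ℂ) ε, ∀ y ∈ closure X,
      ContDiffAt ℝ ∞ (fun q : ℂ × ℂ => Φ (τ + q.1) (R.tr y q.2)) 0)
    (hpos : ∀ τ ∈ ball (0 : ℂ) ε, ∀ y ∈ X, 0 ≤ Φ τ y)
    (hpsh : ∀ τ ∈ ball (0 : ℂ) ε, ∀ y ∈ X, ∀ w : ℂ × ℂ,
      0 ≤ plevi w (fun q : ℂ × ℂ => Φ (τ + q.1) (R.tr y q.2)) 0)
    (hz : ∀ τ ∈ ball (0 : ℂ) ε, ∀ ζ, ‖ζ‖ ≤ r → Φ τ (R.tr y₀ ζ) = 0) :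
    ContinuousOn (fun τ => R.NR X (Φ τ) y₀ r) (ball 0 ε) ∧
      ∀ τ s, 0 < s → closedBall τ s ⊆ ball (0 : ℂ) ε →
        circleAverage (fun τ => R.NR X (Φ τ) y₀ r) τ s ≤ R.NR X (Φ τ) y₀ r := by
  obtain ⟨B, hB⟩ := hXc.exists_bound_of_continuousOn R.continuous_pr.continuousOn
  obtain ⟨C, hC⟩ := bddAbove_NSet hr B
  have hsm' : ∀ τ ∈ ball (0 : ℂ) ε, ∀ y ∈ closure X, ContDiffAt ℝ ∞ (R.Fy Φ τ y) 0 := hsm
  have hb : ∀ τ ∈ ball (0 : ℂ) ε, BddAbove (R.NSet X (Φ τ) y₀ r) := by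
    intro τ hτ
    refine ⟨C, fun t ht => hC R y₀ hr1 X hX (fun y hy => hB y (subset_closure hy)) (Φ τ)
      (hpos τ hτ) (R.weight_smooth (fun y hy => hsm' τ hτ y (subset_closure hy))) t ht⟩
  have hcont : ContinuousOn (fun τ => R.NR X (Φ τ) y₀ r) (ball 0 ε) := by
    intro τ hτ
    apply ContinuousAt.continuousWithinAt
    obtain ⟨δ, hδ, M, hM, T⟩ := R.lip_compact hXc (hsm' τ hτ)
    have hφ : ∀ τ' ∈ ball (0 : ℂ) ε, R.Smooth (Φ τ') X := fun τ' hτ' =>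
      R.weight_smooth (fun y hy => hsm' τ' hτ' y (subset_closure hy))
    -- comparison of energies
    have comp : ∀ τ₁ ∈ ball (0 : ℂ) ε, ∀ τ₂ ∈ ball (0 : ℂ) ε, ∀ κ : ℝ,
        (∀ y ∈ X, Φ τ₁ y ≤ Φ τ₂ y + κ) →
        R.NR X (Φ τ₂) y₀ r ≤ Real.exp κ * R.NR X (Φ τ₁) y₀ r := by
      intro τ₁ h₁ τ₂ h₂ κ hκ
      refine csSup_le ⟨0, R.zero_mem_NSet⟩ ?_
      rintro t ⟨g, hg, hgX, hE, rfl⟩
      have h3 := R.ell_le_NR (hb τ₁ h₁) hg hgX
      have h4 : R.En (Φ τ₁) g ≤ Real.exp κ * R.En (Φ τ₂) g := by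
        unfold En
        rw [← R.sint_const_mul]
        obtain ⟨c1, c2⟩ := R.var1_cont_energy hX (hφ τ₁ h₁) hg hgX
        obtain ⟨c3, c4⟩ := R.var1_cont_energy hX (hφ τ₂ h₂) hg hgX
        refine R.sint_mono c1 c2 (continuous_const.mul c3) c4.mul_left fun y => ?_
        by_cases hy : y ∈ tsupport g
        · have h5 := Real.exp_le_exp.2 (hκ y (hgX hy))
          rw [Real.exp_add] at h5
          have h6 := mul_le_mul_of_nonneg_left h5 (sq_nonneg ‖R.dzb g y‖)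
          linarith
        · rw [R.var1_dzb_eq_zero hy]; simp
      have h7 : R.En (Φ τ₁) g ≤ Real.exp κ := by
        refine h4.trans ?_
        have := mul_le_mul_of_nonneg_left hE (Real.exp_pos κ).le
        linarith
      calc ‖R.ell y₀ r g‖ ^ 2 ≤ R.NR X (Φ τ₁) y₀ r * R.En (Φ τ₁) g := h3
        _ ≤ R.NR X (Φ τ₁) y₀ r * Real.exp κ :=
          mul_le_mul_of_nonneg_left h7 (R.NR_nonneg (hb τ₁ h₁))
        _ = _ := mul_comm _ _
    rw [ContinuousAt]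
    have hball : ∀ᶠ τ' in 𝓝 τ, τ' ∈ ball (0 : ℂ) ε ∧ ‖τ' - τ‖ < δ := by
      filter_upwards [ball_mem_nhds τ hδ, isOpen_ball.mem_nhds hτ] with τ' h h'
      exact ⟨h', by simpa [dist_eq_norm] using h⟩
    have hlo : Tendsto (fun τ' : ℂ => Real.exp (-(M * ‖τ' - τ‖)) * R.NR X (Φ τ) y₀ r) (𝓝 τ)
        (𝓝 (R.NR X (Φ τ) y₀ r)) := by
      have : Continuous (fun τ' : ℂ => Real.exp (-(M * ‖τ' - τ‖)) * R.NR X (Φ τ) y₀ r) := by
        fun_prop
      simpa using this.tendsto τ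
    have hhi : Tendsto (fun τ' : ℂ => Real.exp (M * ‖τ' - τ‖) * R.NR X (Φ τ) y₀ r) (𝓝 τ)
        (𝓝 (R.NR X (Φ τ) y₀ r)) := by
      have : Continuous (fun τ' : ℂ => Real.exp (M * ‖τ' - τ‖) * R.NR X (Φ τ) y₀ r) := by
        fun_prop
      simpa using this.tendsto τ
    refine tendsto_of_tendsto_of_tendsto_of_le_of_le' hlo hhi ?_ ?_
    · filter_upwards [hball] with τ' h
      have h5 := comp τ' h.1 τ hτ (M * ‖τ' - τ‖) (fun y hy => by
        have := T y (subset_closure hy) (τ' - τ) h.2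
        rw [add_sub_cancel] at this
        have := (abs_le.1 this).2
        linarith)
      rw [Real.exp_neg, inv_mul_le_iff₀ (Real.exp_pos _)]
      exact h5
    · filter_upwards [hball] with τ' h
      exact comp τ hτ τ' h.1 (M * ‖τ' - τ‖) (fun y hy => by
        have := T y (subset_closure hy) (τ' - τ) h.2
        rw [add_sub_cancel] at this
        have := (abs_le.1 this).1
        linarith)
  refine ⟨hcont, ?_⟩
  exact superharmonic_of_four isOpen_ball hcont (fun τ hτ =>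
    R.four_var y₀ hr hr1 hX hXc hdisc Φ hsm' hb hpsh hz hτ)

end RD

end Pool.Agent.ParLeaf
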