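import Pool.Agent.H.MP_3a36cd_an.Local1
import Pool.Agent.H.MP_3a36cd_an.Var2

/-! MP_3a36cd_an, module Local2: local superharmonic functions. -/

open Set Metric Filter Topology Complex MeasureTheory Real
open scoped ContDiff

namespace Pool.Agent.ParLeaf

section Local2Aux
variable {E : Type} [NormedAddCommGroup E] [NormedSpace ℂ E]

theorem local2_pwb_congr {F G : E → ℂ} {x : E} (h : F =ᶠ[𝓝 x] G) (w : E) :
    pwb w F =ᶠ[𝓝 x] pwb w G := by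
  filter_upwards [h.fderiv (𝕜 := ℝ)] with y hy
  simp only [pwb, hy]

theorem local2_pw_congr {F G : E → ℂ} {x : E} (h : F =ᶠ[𝓝 x] G) (w : E) :
    pw w F x = pw w G x := by
  simp only [pw, (h.fderiv (𝕜 := ℝ)).eq_of_nhds]

theorem local2_plevi_congr {f g : E → ℝ} {x : E} (h : f =ᶠ[𝓝 x] g) (w : E) :
    plevi w f x = plevi w g x := by
  have h1 : (fun y => (f y : ℂ)) =ᶠ[𝓝 x] fun y => (g y : ℂ) := by
    filter_upwards [h] with y hy
    rw [hy]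
  simp only [plevi, local2_pw_congr (local2_pwb_congr h1 w) w]

end Local2Aux

namespace RD

variable {V : Type} [NormedAddCommGroup V] [NormedSpace ℂ V] [FiniteDimensional ℂ V]

variable {M : RD (ℂ × V)} {Ω : Set M.carrier} {ρ : M.carrier → ℝ}

theorem local2_NSetM_mono (M : RD (ℂ × V)) {X X' : Set M.carrier} (h : X ⊆ X')
    (φ : M.carrier → ℝ) (r : ℝ) (e : M.carrier) :
    M.NSetM X φ r e ⊆ M.NSetM X' φ r e := by
  rintro t ⟨g, hg, hs, hE, ht⟩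
  exact ⟨g, hg, hs.trans (preimage_mono h), hE, ht⟩

theorem local2_zero_mem (M : RD (ℂ × V)) (X : Set M.carrier)
    (φ : M.carrier → ℝ) (r : ℝ) (e : M.carrier) : (0 : ℝ) ∈ M.NSetM X φ r e := by
  refine ⟨fun _ => 0, ⟨fun _ _ => contDiffAt_const, HasCompactSupport.zero⟩, ?_, ?_, ?_⟩
  · simp [tsupport, Function.support]
  · have h1 : ∀ y, (M.Fib (M.pr e).2).dzb (fun _ => (0 : ℂ)) y = 0 := by
      intro y
      simp [dzb, dwb]
    simp only [En, sint]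
    simp [h1]
  · simp [ell]

theorem local2_continuousOn (hρ : M.IsWeight Ω ρ) : ContinuousOn ρ Ω :=
  Smooth.continuousOn M hρ.isOpen hρ.smooth

theorem local2_unif (hρ : M.IsWeight Ω ρ) (u : ℂ × V) :
    ∃ ε > 0, ∀ τ : ℂ, ‖τ‖ < ε → ∀ y ∈ {e | e ∈ Ω ∧ ρ e ≤ 1},
      2 * ‖τ • u‖ < M.rad y ∧ M.tr y (τ • u) ∈ Ω ∧ |ρ (M.tr y (τ • u)) - ρ y| < 1 / 8 := by
  have hev : ∀ᶠ τ : ℂ in 𝓝 0, ∀ y ∈ {e | e ∈ Ω ∧ ρ e ≤ 1},
      2 * ‖τ • u‖ < M.rad y ∧ M.tr y (τ • u) ∈ Ω ∧ |ρ (M.tr y (τ • u)) - ρ y| < 1 / 8 := by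
    apply hρ.compact.eventually_forall_of_forall_eventually
    intro y hy
    have hy0 : M.tr y ((0 : ℂ) • u) = y := by rw [zero_smul]; exact M.tr_zero y
    -- the map `(τ, y) ↦ tr y (τ • u)` is continuous at `(0, y)`
    have hc : ContinuousAt (fun q : ℂ × M.carrier => M.tr q.2 (q.1 • u)) (0, y) := by
      have h1 : ContinuousAt (fun q : M.carrier × (ℂ × V) => M.tr q.1 q.2) (y, (0 : ℂ) • u) := by
        apply M.continuousAt_tr
        rw [zero_smul, norm_zero]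
        exact M.rad_pos y
      exact ContinuousAt.comp (x := ((0 : ℂ), y)) (f := fun q : ℂ × M.carrier => (q.2, q.1 • u))
        (g := fun q : M.carrier × (ℂ × V) => M.tr q.1 q.2) h1 (by fun_prop)
    have hΩ : ∀ᶠ q : ℂ × M.carrier in 𝓝 ((0 : ℂ), y), M.tr q.2 (q.1 • u) ∈ Ω := by
      apply hc.eventually_mem
      simp only [hy0]
      exact hρ.isOpen.mem_nhds hy.1
    have hρy : ContinuousAt ρ y := (local2_continuousOn hρ).continuousAt (hρ.isOpen.mem_nhds hy.1)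
    have hρ1 : ContinuousAt (fun q : ℂ × M.carrier => ρ (M.tr q.2 (q.1 • u)) - ρ q.2) (0, y) := by
      apply ContinuousAt.sub
      · refine ContinuousAt.comp (g := ρ) ?_ hc
        simp only [hy0]
        exact hρy
      · exact ContinuousAt.comp (x := ((0 : ℂ), y)) (g := ρ) hρy continuousAt_snd
    have h3 : ∀ᶠ q : ℂ × M.carrier in 𝓝 ((0 : ℂ), y),
        |ρ (M.tr q.2 (q.1 • u)) - ρ q.2| < 1 / 8 := by
      have := hρ1.abs
      apply this.eventually_lt continuousAt_const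
      simp only [hy0]
      norm_num
    have h4 : ∀ᶠ q : ℂ × M.carrier in 𝓝 ((0 : ℂ), y), 2 * ‖q.1 • u‖ < M.rad q.2 := by
      have h5 : Continuous (fun q : ℂ × M.carrier => 2 * ‖q.1 • u‖) := by fun_prop
      have h6 : Continuous (fun q : ℂ × M.carrier => M.rad q.2) :=
        M.continuous_rad.comp continuous_snd
      apply h5.continuousAt.eventually_lt h6.continuousAt
      simpa using M.rad_pos y
    filter_upwards [hΩ, h3, h4] with q h1 h2 h3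
    exact ⟨h3, h1, h2⟩
  obtain ⟨ε, hε, h⟩ := Metric.eventually_nhds_iff.mp hev
  exact ⟨ε, hε, fun τ hτ => h (by simpa [dist_eq_norm] using hτ)⟩

theorem local2_germ (M : RD (ℂ × V)) (p : V) (u : ℂ × V) (τ : ℂ) (y : (M.Fib p).carrier)
    (h : 2 * ‖τ • u‖ < M.rad y.1) :
    ∀ᶠ q : ℂ × ℂ in 𝓝 0, M.tr ((M.Fib p).tr y q.2).1 ((τ + q.1) • u) =
      M.tr (M.tr y.1 (τ • u)) ((q.2, 0) + q.1 • u) := by
  have hr := M.rad_pos y.1
  have h1 : ∀ᶠ q : ℂ × ℂ in 𝓝 0, ‖q.2‖ < M.rad y.1 / 8 := by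
    have : Continuous (fun q : ℂ × ℂ => ‖q.2‖) := by fun_prop
    apply this.continuousAt.eventually_lt continuousAt_const
    simpa using hr
  have h2 : ∀ᶠ q : ℂ × ℂ in 𝓝 0, ‖q.1 • u‖ < M.rad y.1 / 8 := by
    have : Continuous (fun q : ℂ × ℂ => ‖q.1 • u‖) := by fun_prop
    apply this.continuousAt.eventually_lt continuousAt_const
    simpa using hr
  filter_upwards [h1, h2] with q hq1 hq2
  have hn : ‖((q.2, 0) : ℂ × V)‖ = ‖q.2‖ := norm_fst _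
  have hs : ‖(τ + q.1) • u‖ ≤ ‖τ • u‖ + ‖q.1 • u‖ := by
    rw [add_smul]; exact norm_add_le _ _
  have hL : ‖((q.2, 0) : ℂ × V) + q.1 • u‖ ≤ ‖q.2‖ + ‖q.1 • u‖ := by
    refine (norm_add_le _ _).trans ?_
    rw [hn]
  have hsum : ‖((q.2, 0) : ℂ × V) + (τ + q.1) • u‖ ≤ ‖q.2‖ + ‖(τ + q.1) • u‖ := by
    refine (norm_add_le _ _).trans ?_
    rw [hn]
  have hsum' : ‖τ • u + (((q.2, 0) : ℂ × V) + q.1 • u)‖ ≤ ‖τ • u‖ +
      ‖((q.2, 0) : ℂ × V) + q.1 • u‖ := norm_add_le _ _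
  have hr1 := M.rad_tr y.1 (q.2, 0) (by rw [hn]; linarith)
  have hr2 := M.rad_tr y.1 (τ • u) (by linarith)
  rw [hn] at hr1
  have hnn := norm_nonneg (τ • u)
  rw [fib_tr_val M p y (by linarith)]
  rw [M.tr_tr y.1 (q.2, 0) ((τ + q.1) • u) (by rw [hn]; linarith) (by linarith) (by linarith)]
  rw [M.tr_tr y.1 (τ • u) ((q.2, 0) + q.1 • u) (by linarith) (by linarith) (by linarith)]
  congr 1
  rw [add_smul]
  abel

/-- the linear map `q ↦ (q.2, 0) + q.1 • u` -/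
noncomputable def local2_L (u : ℂ × V) : (ℂ × ℂ) →L[ℂ] (ℂ × V) :=
  (ContinuousLinearMap.inl ℂ ℂ V).comp (ContinuousLinearMap.snd ℂ ℂ ℂ) +
    (ContinuousLinearMap.fst ℂ ℂ ℂ).smulRight u

theorem local2_L_apply (u : ℂ × V) (q : ℂ × ℂ) : local2_L u q = (q.2, 0) + q.1 • u := by
  simp [local2_L]

/-- local superharmonic functions between `Nk (1/2)` and `Nk 1` -/
theorem Nk_local (hρ : M.IsWeight Ω ρ) {r : ℝ} (hr : 0 < r) (e : M.carrier) (u : ℂ × V)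
    {δ : ℝ} (hδ : 0 < δ) (hre : r + δ * ‖u‖ < M.rad e)
    (hz : ∀ τ : ℂ, ‖τ‖ ≤ δ → ∀ ζ : ℂ, ‖ζ‖ ≤ r →
      M.tr e (τ • u + (ζ, 0)) ∈ Ω ∧ ρ (M.tr e (τ • u + (ζ, 0))) = 0) :
    ∃ ε > 0, ε ≤ δ ∧ ∃ n : ℕ → ℂ → ℝ, ∀ k, ContinuousOn (n k) (ball 0 ε) ∧
      (∀ τ s, 0 < s → closedBall τ s ⊆ ball (0 : ℂ) ε → circleAverage (n k) τ s ≤ n k τ) ∧
      ∀ τ ∈ ball (0 : ℂ) ε, M.Nk Ω ρ r (1 / 2) k (M.tr e (τ • u)) ≤ n k τ ∧
        n k τ ≤ M.Nk Ω ρ r 1 k (M.tr e (τ • u)) := by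
  obtain ⟨ε₀, hε₀, hunif⟩ := local2_unif hρ u
  have hcont := local2_continuousOn hρ
  set X : Set M.carrier := {y | y ∈ Ω ∧ ρ y < 3 / 4} with hXdef
  have hXo : IsOpen X := hcont.isOpen_inter_preimage hρ.isOpen isOpen_Iio
  set p : V := (M.pr e).2 with hp
  set R : RD ℂ := M.Fib p with hR
  set y₀ : R.carrier := ⟨e, rfl⟩ with hy₀
  -- the closure of `X`
  have hKc := hρ.compact
  set Kc : Set M.carrier := {e | e ∈ Ω ∧ ρ e ≤ 1} with hKcdef
  have hcl34 : IsClosed (Kc ∩ ρ ⁻¹' Iic (3 / 4)) :=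
    (hcont.mono fun y hy => hy.1).preimage_isClosed_of_isClosed hKc.isClosed isClosed_Iic
  have hXsub : X ⊆ Kc ∩ ρ ⁻¹' Iic (3 / 4) := by
    rintro y ⟨hy1, hy2⟩
    exact ⟨⟨hy1, by linarith⟩, hy2.le⟩
  have hclX : ∀ y : R.carrier, y ∈ closure (Subtype.val ⁻¹' X : Set R.carrier) →
      y.1 ∈ Ω ∧ ρ y.1 ≤ 3 / 4 := by
    intro y hy
    have h1 : closure (Subtype.val ⁻¹' X : Set R.carrier) ⊆
        Subtype.val ⁻¹' (Kc ∩ ρ ⁻¹' Iic (3 / 4)) := by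
      apply closure_minimal (preimage_mono hXsub)
      exact hcl34.preimage (isClosedEmbedding_val M p).continuous
    exact ⟨(h1 hy).1.1, (h1 hy).2⟩
  have hXc : IsCompact (closure (Subtype.val ⁻¹' X : Set R.carrier)) := by
    have h1 : IsCompact (Subtype.val ⁻¹' Kc : Set R.carrier) :=
      (isClosedEmbedding_val M p).isCompact_preimage hKc
    apply h1.of_isClosed_subset isClosed_closure
    intro y hy
    obtain ⟨h2, h3⟩ := hclX y hy
    exact ⟨h2, by linarith⟩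
  have hnu := norm_nonneg u
  -- choice of `ε`
  refine ⟨min ε₀ δ, lt_min hε₀ hδ, min_le_right _ _,
    fun k τ => R.NR (Subtype.val ⁻¹' X) (fun y => (k : ℝ) * ρ (M.tr y.1 (τ • u))) y₀ r, ?_⟩
  have hτu : ∀ τ : ℂ, ‖τ‖ < min ε₀ δ → ‖τ • u‖ ≤ δ * ‖u‖ := by
    intro τ hτ
    rw [norm_smul]
    have := (lt_min_iff.mp hτ).2.le
    gcongr
  intro k
  have hvar := R.var y₀ hr (show r < R.rad y₀ by
      have : 0 ≤ δ * ‖u‖ := by positivity
      show r < M.rad e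
      linarith)
    (hXo.preimage (isClosedEmbedding_val M p).continuous) hXc
    (by
      intro ζ hζ
      show (R.tr y₀ ζ).1 ∈ X
      have h0 : 0 ≤ δ * ‖u‖ := by positivity
      rw [fib_tr_val M p y₀ (show ‖ζ‖ < M.rad y₀.1 by
        show ‖ζ‖ < M.rad e
        linarith)]
      have h1 := hz 0 (by simpa using hδ.le) ζ hζ
      rw [zero_smul, zero_add] at h1
      exact ⟨h1.1, by rw [h1.2]; norm_num⟩)
    (fun τ y => (k : ℝ) * ρ (M.tr y.1 (τ • u))) (ε := min ε₀ δ) (lt_min hε₀ hδ)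
    (by
      -- smoothness
      intro τ hτ y hy
      rw [mem_ball_zero_iff] at hτ
      obtain ⟨hy1, hy2⟩ := hclX y hy
      obtain ⟨hu1, hu2, hu3⟩ := hunif τ (lt_min_iff.mp hτ).1 y.1 ⟨hy1, by linarith⟩
      have hgerm := local2_germ M p u τ y hu1
      have h1 : (fun q : ℂ × ℂ => (k : ℝ) * ρ (M.tr (R.tr y q.2).1 ((τ + q.1) • u))) =ᶠ[𝓝 0]
          fun q => (k : ℝ) * ρ (M.tr (M.tr y.1 (τ • u)) (local2_L u q)) := by
        filter_upwards [hgerm] with q hq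
        rw [local2_L_apply, hq]
      refine ContDiffAt.congr_of_eventuallyEq ?_ h1
      refine contDiffAt_const.mul ?_
      have h2 := hρ.smooth _ hu2
      have h3 : ContDiffAt ℝ ∞ (fun q : ℂ × ℂ => local2_L u q) 0 :=
        ((local2_L u).restrictScalars ℝ).contDiff.contDiffAt
      exact ContDiffAt.comp (x := (0 : ℂ × ℂ))
        (g := fun v => ρ (M.tr (M.tr y.1 (τ • u)) v)) (f := fun q => local2_L u q)
        (by simpa using h2) h3)
    (by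
      -- nonnegativity
      intro τ hτ y hy
      rw [mem_ball_zero_iff] at hτ
      obtain ⟨hy1, hy2⟩ : y.1 ∈ Ω ∧ ρ y.1 < 3 / 4 := hy
      obtain ⟨hu1, hu2, hu3⟩ := hunif τ (lt_min_iff.mp hτ).1 y.1 ⟨hy1, by linarith⟩
      exact mul_nonneg (Nat.cast_nonneg k) (hρ.nonneg _ hu2))
    (by
      -- plurisubharmonicity
      intro τ hτ y hy w
      rw [mem_ball_zero_iff] at hτ
      obtain ⟨hy1, hy2⟩ : y.1 ∈ Ω ∧ ρ y.1 < 3 / 4 := hy
      obtain ⟨hu1, hu2, hu3⟩ := hunif τ (lt_min_iff.mp hτ).1 y.1 ⟨hy1, by linarith⟩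
      have hgerm := local2_germ M p u τ y hu1
      have h1 : (fun q : ℂ × ℂ => (k : ℝ) * ρ (M.tr (R.tr y q.2).1 ((τ + q.1) • u))) =ᶠ[𝓝 0]
          fun q => (k : ℝ) * ρ (M.tr (M.tr y.1 (τ • u)) (local2_L u q)) := by
        filter_upwards [hgerm] with q hq
        rw [local2_L_apply, hq]
      rw [local2_plevi_congr h1]
      have h2 := hρ.smooth _ hu2
      have h3 : ContDiffAt ℝ 2 (fun v => (k : ℝ) * ρ (M.tr (M.tr y.1 (τ • u)) v))
          (local2_L u 0) := by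
        rw [map_zero]
        exact contDiffAt_const.mul (h2.of_le (by norm_cast))
      rw [plevi_comp_linear (local2_L u) (ρ := fun v => (k : ℝ) * ρ (M.tr (M.tr y.1 (τ • u)) v))
        h3 w, map_zero, ← M.levi_eq (fun y => (k : ℝ) * ρ y)]
      rw [M.levi_const_mul hρ.isOpen hρ.smooth hu2]
      exact mul_nonneg (Nat.cast_nonneg k) (hρ.psh _ hu2 _))
    (by
      -- vanishing on the bump disc
      intro τ hτ ζ hζ
      rw [mem_ball_zero_iff] at hτ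
      have h0 : 0 ≤ δ * ‖u‖ := by positivity
      have h1 := hτu τ hτ
      have hζ' : ‖((ζ, 0) : ℂ × V)‖ = ‖ζ‖ := norm_fst ζ
      have h2 := M.rad_tr e (ζ, 0) (by rw [hζ']; linarith)
      rw [hζ'] at h2
      have h3 : ‖((ζ, 0) : ℂ × V) + τ • u‖ ≤ ‖ζ‖ + ‖τ • u‖ := by
        refine (norm_add_le _ _).trans ?_
        rw [hζ']
      show (k : ℝ) * ρ (M.tr (R.tr y₀ ζ).1 (τ • u)) = 0
      rw [fib_tr_val M p y₀ (show ‖ζ‖ < M.rad y₀.1 by
        show ‖ζ‖ < M.rad e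
        linarith)]
      show (k : ℝ) * ρ (M.tr (M.tr e (ζ, 0)) (τ • u)) = 0
      rw [M.tr_tr e (ζ, 0) (τ • u) (by rw [hζ']; linarith) (by linarith) (by linarith),
        add_comm, (hz τ (lt_min_iff.mp hτ).2.le ζ hζ).2, mul_zero])
  refine ⟨hvar.1, hvar.2, ?_⟩
  intro τ hτ
  rw [mem_ball_zero_iff] at hτ
  have h0 : 0 ≤ δ * ‖u‖ := by positivity
  have hτ1 := hτu τ hτ
  have hτ0 := (lt_min_iff.mp hτ).1
  -- transport
  have htr := NSetM_transport M e (τ • u) hr (by linarith) hXo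
    (fun y hy => by
      have := (hunif τ hτ0 y ⟨hy.1, by linarith [hy.2]⟩).1
      have := norm_nonneg (τ • u)
      linarith) (fun y => (k : ℝ) * ρ y)
  have hn : R.NR (Subtype.val ⁻¹' X) (fun y => (k : ℝ) * ρ (M.tr y.1 (τ • u))) y₀ r =
      sSup (M.NSetM ((fun y => M.tr y (τ • u)) '' X) (fun y => (k : ℝ) * ρ y) r
        (M.tr e (τ • u))) := by
    rw [htr]
    rfl
  have hsub1 : (fun y => M.tr y (τ • u)) '' X ⊆ {y | y ∈ Ω ∧ ρ y < 1} := by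
    rintro _ ⟨y, ⟨hy1, hy2⟩, rfl⟩
    obtain ⟨hu1, hu2, hu3⟩ := hunif τ hτ0 y ⟨hy1, by linarith⟩
    refine ⟨hu2, ?_⟩
    have := (abs_lt.mp hu3).2
    show ρ (M.tr y (τ • u)) < 1
    linarith
  have hsub2 : {y | y ∈ Ω ∧ ρ y < 1 / 2} ⊆ (fun y => M.tr y (τ • u)) '' X := by
    rintro y ⟨hy1, hy2⟩
    obtain ⟨hu1, hu2, hu3⟩ := hunif (-τ) (by rwa [norm_neg]) y ⟨hy1, by linarith⟩
    refine ⟨M.tr y ((-τ) • u), ⟨hu2, ?_⟩, ?_⟩
    · have := (abs_lt.mp hu3).2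
      linarith
    · have := M.tr_neg hu1
      rw [← neg_smul, neg_neg] at this
      exact this
  have hrad : r < M.rad (M.tr e (τ • u)) := by
    have := M.rad_tr e (τ • u) (by linarith)
    linarith
  obtain ⟨C, hC⟩ := NSetM_bdd (M := M) hρ hr
  have hbdd : BddAbove (M.NSetM {y | y ∈ Ω ∧ ρ y < 1} (fun y => (k : ℝ) * ρ y) r
      (M.tr e (τ • u))) := ⟨C, fun t ht => hC _ hrad k 1 le_rfl t ht⟩
  have hm1 := local2_NSetM_mono M hsub1 (fun y => (k : ℝ) * ρ y) r (M.tr e (τ • u))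
  have hm2 := local2_NSetM_mono M hsub2 (fun y => (k : ℝ) * ρ y) r (M.tr e (τ • u))
  show M.Nk Ω ρ r (1 / 2) k (M.tr e (τ • u)) ≤ R.NR (Subtype.val ⁻¹' X)
      (fun y => (k : ℝ) * ρ (M.tr y.1 (τ • u))) y₀ r ∧ R.NR (Subtype.val ⁻¹' X)
      (fun y => (k : ℝ) * ρ (M.tr y.1 (τ • u))) y₀ r ≤ M.Nk Ω ρ r 1 k (M.tr e (τ • u))
  rw [hn]
  constructor
  · exact csSup_le_csSup (hbdd.mono hm1) ⟨0, local2_zero_mem _ _ _ _ _⟩ hm2
  · exact csSup_le_csSup hbdd ⟨0, local2_zero_mem _ _ _ _ _⟩ hm1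

end RD

end Pool.Agent.ParLeaf
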