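import Pool.Agent.H.MP_3a36cd_an.Defs

/-! MP_3a36cd_an, module Polar1: plurisubharmonic functions and pluripolar sets in `ℂ²`. -/

open Set Metric Filter Topology Complex MeasureTheory Real

namespace Pool.Agent.ParLeaf

/-! ### Elementary facts -/

theorem polar1_cases {t : EReal} (ht : t < ⊤) : t = ⊥ ∨ ∃ r : ℝ, t = r := by
  induction t using EReal.rec with
  | bot => exact Or.inl rfl
  | coe r => exact Or.inr ⟨r, rfl⟩
  | top => exact absurd ht (lt_irrefl _)

theorem polar1_exists_real_gt {t : EReal} (ht : t < ⊤) : ∃ r : ℝ, t < r := by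
  obtain ⟨r, hr, -⟩ := EReal.lt_iff_exists_real_btwn.mp ht
  exact ⟨r, hr⟩

theorem polar1_exists_bound {u : ℂ × ℂ → EReal} (hu : PSH u) {K : Set (ℂ × ℂ)}
    (hK : IsCompact K) : ∃ B : ℝ, ∀ x ∈ K, u x ≤ B := by
  rcases K.eq_empty_or_nonempty with h | h
  · exact ⟨0, by simp [h]⟩
  · obtain ⟨a, -, hmax⟩ := (hu.1.upperSemicontinuousOn K).exists_isMaxOn h hK
    obtain ⟨B, hB⟩ := polar1_exists_real_gt (hu.2.1 a)
    exact ⟨B, fun x hx => (hmax hx).trans hB.le⟩

theorem polar1_aff_lt {c d r : ℝ} (hc : 0 < c) {t : EReal} (ht : t < ⊤) :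
    (c : EReal) * t + d < r ↔ t < ((r - d) / c : ℝ) := by
  rcases polar1_cases ht with rfl | ⟨s, rfl⟩
  · rw [EReal.coe_mul_bot_of_pos hc, EReal.bot_add]
    exact iff_of_true (EReal.bot_lt_coe _) (EReal.bot_lt_coe _)
  · rw [← EReal.coe_mul, ← EReal.coe_add, EReal.coe_lt_coe_iff, EReal.coe_lt_coe_iff,
      lt_div_iff₀ hc]
    constructor <;> intro h <;> linarith

theorem polar1_aff_le {c d r : ℝ} (hc : 0 < c) {t : EReal} (ht : t < ⊤) :
    (c : EReal) * t + d ≤ r ↔ t ≤ ((r - d) / c : ℝ) := by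
  rcases polar1_cases ht with rfl | ⟨s, rfl⟩
  · rw [EReal.coe_mul_bot_of_pos hc, EReal.bot_add]
    exact iff_of_true bot_le bot_le
  · rw [← EReal.coe_mul, ← EReal.coe_add, EReal.coe_le_coe_iff, EReal.coe_le_coe_iff,
      le_div_iff₀ hc]
    constructor <;> intro h <;> linarith

theorem polar1_circleIntegrable {g : ℂ → ℝ} (hg : Continuous g) : CircleIntegrable g 0 1 :=
  hg.continuousOn.circleIntegrable zero_le_one

/-- positive affine images of psh functions -/
theorem PSH.aff {u : ℂ × ℂ → EReal} (hu : PSH u) {c d : ℝ} (hc : 0 < c) :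
    PSH (fun x => (c : EReal) * u x + d) := by
  have hlt : ∀ x, (c : EReal) * u x + d < ⊤ := by
    intro x
    obtain ⟨r, hr⟩ := polar1_exists_real_gt (hu.2.1 x)
    have : (c : EReal) * u x + d < ((c * r + d : ℝ) : EReal) := by
      rw [polar1_aff_lt hc (hu.2.1 x)]
      have e : (c * r + d - d) / c = r := by field_simp; ring
      rw [e]; exact hr
    exact this.trans (EReal.coe_lt_top _)
  refine ⟨?_, hlt, ?_⟩
  · intro x
    refine upperSemicontinuousAt_iff.mpr fun y hy => ?_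
    obtain ⟨r, hr1, hr2⟩ := EReal.lt_iff_exists_real_btwn.mp hy
    rw [polar1_aff_lt hc (hu.2.1 x)] at hr1
    filter_upwards [upperSemicontinuousAt_iff.mp (hu.1 x) _ hr1] with x' hx'
    exact ((polar1_aff_lt hc (hu.2.1 x')).mpr hx').trans hr2
  · intro a b g hg hle
    have h1 : ∀ ζ : ℂ, ‖ζ‖ = 1 → u (a + ζ • b) ≤ (fun ζ => (g ζ - d) / c) ζ := fun ζ hζ => by
      have := hle ζ hζ
      rw [polar1_aff_le hc (hu.2.1 _)] at this
      exact this
    have h2 := hu.2.2 a b (fun ζ => (g ζ - d) / c) (by fun_prop) h1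
    rw [polar1_aff_le hc (hu.2.1 a)]
    refine h2.trans (EReal.coe_le_coe_iff.mpr (le_of_eq ?_))
    have e : (fun ζ : ℂ => (g ζ - d) / c) = (fun ζ => c⁻¹ • (g ζ - d)) := by
      funext ζ; rw [smul_eq_mul]; ring
    rw [e, circleAverage_fun_smul, circleAverage_fun_sub (polar1_circleIntegrable hg)
      (polar1_circleIntegrable continuous_const), circleAverage_const, smul_eq_mul]
    ring

theorem polar1_zero : PSH (fun _ => 0) := by
  refine ⟨upperSemicontinuous_const, fun _ => EReal.zero_lt_top, fun a b g hg hle => ?_⟩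
  have h1 : ∀ ζ : ℂ, ‖ζ‖ = 1 → (0 : ℝ) ≤ g ζ := fun ζ hζ => by
    have := hle ζ hζ
    exact EReal.coe_le_coe_iff.mp (by simpa using this)
  have h2 : 0 ≤ circleAverage g 0 1 := by
    apply circleAverage_nonneg_of_nonneg
    intro ζ hζ
    exact h1 ζ (by simpa using hζ)
  exact EReal.coe_le_coe_iff.mpr h2

/-- a continuous majorant on the circle with prescribed value at one point -/
theorem polar1_cone {u : ℂ × ℂ → EReal} (hu : PSH u) (a b : ℂ × ℂ) (ζ₀ : ℂ) {c : ℝ}
    (hc : u (a + ζ₀ • b) < c) : ∃ h : ℂ → ℝ, Continuous h ∧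
      (∀ ζ : ℂ, ‖ζ‖ = 1 → u (a + ζ • b) ≤ h ζ) ∧ h ζ₀ = c := by
  have hK : IsCompact ((fun ζ : ℂ => a + ζ • b) '' sphere (0 : ℂ) 1) :=
    (isCompact_sphere _ _).image (by fun_prop)
  obtain ⟨B, hB⟩ := polar1_exists_bound hu hK
  have h1 : ∀ᶠ ζ in 𝓝 ζ₀, u (a + ζ • b) < c := by
    have h2 := upperSemicontinuousAt_iff.mp (hu.1 (a + ζ₀ • b))
    have h3 : Tendsto (fun ζ : ℂ => a + ζ • b) (𝓝 ζ₀) (𝓝 (a + ζ₀ • b)) :=
      Continuous.tendsto (by fun_prop) _
    exact h3.eventually (h2 _ hc)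
  obtain ⟨δ, hδ, hball⟩ := Metric.eventually_nhds_iff.mp h1
  refine ⟨fun ζ => c + (|B - c| / δ) * dist ζ ζ₀, by fun_prop, fun ζ hζ => ?_, by simp⟩
  by_cases hd : dist ζ ζ₀ < δ
  · refine (hball hd).le.trans (EReal.coe_le_coe_iff.mpr ?_)
    have : 0 ≤ |B - c| / δ * dist ζ ζ₀ := by positivity
    linarith
  · refine (hB _ ⟨ζ, by simpa using hζ, rfl⟩).trans (EReal.coe_le_coe_iff.mpr ?_)
    push Not at hd
    have h3 : |B - c| ≤ |B - c| / δ * dist ζ ζ₀ := by
      rw [div_mul_eq_mul_div, le_div_iff₀ hδ]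
      exact mul_le_mul_of_nonneg_left hd (abs_nonneg _)
    linarith [le_abs_self (B - c)]

/-- to prove the submean value inequality it suffices to have it up to `ε` -/
theorem polar1_of_eps {t : EReal} {A : ℝ} (h : ∀ ε > 0, t ≤ ((A + ε : ℝ) : EReal)) : t ≤ A := by
  by_contra hc
  push Not at hc
  obtain ⟨y, h1, h2⟩ := EReal.lt_iff_exists_real_btwn.mp hc
  have h3 : A < y := EReal.coe_lt_coe_iff.mp h1
  have h4 := h (y - A) (by linarith)
  have h5 : A + (y - A) = y := by ring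
  rw [h5] at h4
  exact absurd h2 (not_lt.mpr h4)

/-- usc functions below continuous functions -/
theorem polar1_eventually_lt {X : Type*} [TopologicalSpace X] {f : X → EReal} {g : X → ℝ} {x : X}
    (hf : UpperSemicontinuousAt f x) (hg : ContinuousAt g x) (h : f x < g x) :
    ∀ᶠ y in 𝓝 x, f y < g y := by
  obtain ⟨r, h1, h2⟩ := EReal.lt_iff_exists_real_btwn.mp h
  rw [upperSemicontinuousAt_iff] at hf
  have h3 : ∀ᶠ y in 𝓝 x, r < g y := hg.eventually (lt_mem_nhds (EReal.coe_lt_coe_iff.mp h2))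
  filter_upwards [hf _ h1, h3] with y h4 h5
  exact h4.trans (EReal.coe_lt_coe_iff.mpr h5)

theorem polar1_usc_line {u : ℂ × ℂ → EReal} (hu : UpperSemicontinuous u) (a b : ℂ × ℂ) (ζ : ℂ) :
    UpperSemicontinuousAt (fun ζ : ℂ => u (a + ζ • b)) ζ :=
  (hu (a + ζ • b)).comp (g := fun ζ : ℂ => a + ζ • b) (by fun_prop)

/-- sums of psh functions are psh -/
theorem PSH.add {u v : ℂ × ℂ → EReal} (hu : PSH u) (hv : PSH v) : PSH (fun x => u x + v x) := by
  refine ⟨?_, fun x => EReal.add_lt_top (hu.2.1 x).ne (hv.2.1 x).ne, ?_⟩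
  · refine hu.1.add' hv.1 fun x => ?_
    exact EReal.continuousAt_add (.inl (hu.2.1 x).ne) (.inr (hv.2.1 x).ne)
  · intro a b g hg hle
    apply polar1_of_eps
    intro ε hε
    have hind := (isCompact_sphere (0 : ℂ) 1).induction_on (p := fun s => ∃ h : ℂ → ℝ,
      Continuous h ∧ (∀ ζ : ℂ, ‖ζ‖ = 1 → u (a + ζ • b) ≤ h ζ) ∧
        ∀ ζ ∈ s, ‖ζ‖ = 1 → v (a + ζ • b) < ((g ζ + ε - h ζ : ℝ) : EReal)) ?_ ?_ ?_ ?_
    · obtain ⟨h, hh, h1, h2⟩ := hind
      have i1 := hu.2.2 a b h hh h1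
      have i2 := hv.2.2 a b (fun ζ => g ζ + ε - h ζ) (by fun_prop)
        (fun ζ hζ => (h2 ζ (by simpa using hζ) hζ).le)
      have e : circleAverage (fun ζ => g ζ + ε - h ζ) 0 1 =
          circleAverage g 0 1 + ε - circleAverage h 0 1 := by
        rw [circleAverage_fun_sub (polar1_circleIntegrable (by fun_prop))
          (polar1_circleIntegrable hh), circleAverage_fun_add (polar1_circleIntegrable hg)
          (polar1_circleIntegrable continuous_const), circleAverage_const]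
      rw [e] at i2
      calc u a + v a ≤ ((circleAverage h 0 1 : ℝ) : EReal) +
            ((circleAverage g 0 1 + ε - circleAverage h 0 1 : ℝ) : EReal) := add_le_add i1 i2
        _ = ((circleAverage g 0 1 + ε : ℝ) : EReal) := by
          rw [← EReal.coe_add]; congr 1; ring
    · obtain ⟨c, hc⟩ := polar1_exists_real_gt (hu.2.1 (a + (0 : ℂ) • b))
      obtain ⟨h, hh, h1, -⟩ := polar1_cone hu a b 0 hc
      exact ⟨h, hh, h1, by simp⟩
    · rintro s t hst ⟨h, hh, h1, h2⟩
      exact ⟨h, hh, h1, fun ζ hζ => h2 ζ (hst hζ)⟩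
    · rintro s t ⟨h, hh, h1, h2⟩ ⟨k, hk, k1, k2⟩
      refine ⟨fun ζ => min (h ζ) (k ζ), hh.min hk, fun ζ hζ => ?_, ?_⟩
      · change u (a + ζ • b) ≤ ((min (h ζ) (k ζ) : ℝ) : EReal)
        rcases min_choice (h ζ) (k ζ) with h3 | h3
        · rw [h3]; exact h1 ζ hζ
        · rw [h3]; exact k1 ζ hζ
      · rintro ζ (hζ | hζ) hn
        · refine (h2 ζ hζ hn).trans_le (EReal.coe_le_coe_iff.mpr ?_)
          linarith [min_le_left (h ζ) (k ζ)]
        · refine (k2 ζ hζ hn).trans_le (EReal.coe_le_coe_iff.mpr ?_)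
          linarith [min_le_right (h ζ) (k ζ)]
    · intro ζ₀ hζ₀
      have hn : ‖ζ₀‖ = 1 := by simpa using hζ₀
      have hsum : u (a + ζ₀ • b) + v (a + ζ₀ • b) ≤ g ζ₀ := hle ζ₀ hn
      have hex : ∃ c : ℝ, u (a + ζ₀ • b) < c ∧
          v (a + ζ₀ • b) < ((g ζ₀ + ε - c : ℝ) : EReal) := by
        rcases polar1_cases (hv.2.1 (a + ζ₀ • b)) with hb | ⟨r, hr⟩
        · obtain ⟨c, hc⟩ := polar1_exists_real_gt (hu.2.1 (a + ζ₀ • b))
          exact ⟨c, hc, by rw [hb]; exact EReal.bot_lt_coe _⟩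
        · rcases polar1_cases (hu.2.1 (a + ζ₀ • b)) with hb | ⟨s, hs⟩
          · exact ⟨g ζ₀ + ε / 2 - r, by rw [hb]; exact EReal.bot_lt_coe _, by
              rw [hr, EReal.coe_lt_coe_iff]; linarith⟩
          · rw [hr, hs, ← EReal.coe_add, EReal.coe_le_coe_iff] at hsum
            refine ⟨s + ε / 2, ?_, ?_⟩
            · rw [hs, EReal.coe_lt_coe_iff]; linarith
            · rw [hr, EReal.coe_lt_coe_iff]; linarith
      obtain ⟨c, hc1, hc2⟩ := hex
      obtain ⟨h, hh, h1, h2⟩ := polar1_cone hu a b ζ₀ hc1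
      refine ⟨{ζ | v (a + ζ • b) < ((g ζ + ε - h ζ : ℝ) : EReal)}, ?_, h, hh, h1,
        fun ζ hζ _ => hζ⟩
      apply mem_nhdsWithin_of_mem_nhds
      refine polar1_eventually_lt (f := fun ζ : ℂ => v (a + ζ • b))
        (g := fun ζ => g ζ + ε - h ζ) (polar1_usc_line hv.1 a b ζ₀) (by fun_prop) ?_
      rw [h2]; exact hc2

/-! ### Finiteness almost everywhere -/

theorem polar1_measurableSet {u : ℂ × ℂ → EReal} (hu : PSH u) : MeasurableSet {x | u x = ⊥} :=
  hu.1.measurable (measurableSet_singleton ⊥)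

theorem polar1_circle_ae {u : ℂ × ℂ → EReal} (hu : PSH u) {a b : ℂ × ℂ} (h : u a ≠ ⊥) :
    ∀ᵐ θ : ℝ ∂(volume.restrict (Ioo (-π) π)), u (a + circleMap 0 1 θ • b) ≠ ⊥ := by
  set E : Set ℝ := {θ | u (a + circleMap 0 1 θ • b) = ⊥} ∩ Ioo (-π) π with hE
  have hEm : MeasurableSet E := by
    refine MeasurableSet.inter ?_ measurableSet_Ioo
    have hc : Continuous (fun θ : ℝ => a + circleMap 0 1 θ • b) := by fun_prop
    exact hc.measurable (polar1_measurableSet hu)
  have hgoal : volume E = 0 := by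
    by_contra hne
    obtain ⟨K, hKE, hK, hKpos⟩ := hEm.exists_lt_isCompact (pos_iff_ne_zero.mpr hne)
    have hKfin : volume K ≠ ⊤ := hK.measure_ne_top
    set m := (volume K).toReal with hm
    have hmpos : 0 < m := ENNReal.toReal_pos hKpos.ne' hKfin
    obtain ⟨c, hc⟩ : ∃ c : ℝ, u a = c := (polar1_cases (hu.2.1 a)).resolve_left h
    obtain ⟨B, hB⟩ := polar1_exists_bound hu
      ((isCompact_sphere (0 : ℂ) 1).image (f := fun ζ : ℂ => a + ζ • b) (by fun_prop))
    -- the inequality for all large `N`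
    have key : ∀ N : ℝ, 0 ≤ B + N → c ≤ B - (2 * π)⁻¹ * ((B + N) * m) := by
      intro N hN
      have hopen : IsOpen {ζ : ℂ | u (a + ζ • b) < ((-N : ℝ) : EReal)} := by
        rw [isOpen_iff_mem_nhds]
        intro ζ hζ
        exact polar1_eventually_lt (f := fun ζ : ℂ => u (a + ζ • b)) (g := fun _ => -N)
          (polar1_usc_line hu.1 a b ζ) continuousAt_const hζ
      have hK' : IsCompact (circleMap 0 1 '' K) := hK.image (continuous_circleMap 0 1)
      have hdisj : Disjoint {ζ : ℂ | u (a + ζ • b) < ((-N : ℝ) : EReal)}ᶜ (circleMap 0 1 '' K) := by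
        rw [Set.disjoint_left]
        rintro _ h1 ⟨θ, hθ, rfl⟩
        apply h1
        have := (hKE hθ).1
        simp only [mem_ofPred_eq] at this ⊢
        rw [this]
        exact EReal.bot_lt_coe _
      obtain ⟨f, f0, f1, f01⟩ := exists_continuous_zero_one_of_isClosed hopen.isClosed_compl
        hK'.isClosed hdisj
      have hmaj : ∀ ζ : ℂ, ‖ζ‖ = 1 → u (a + ζ • b) ≤ (fun ζ => B - (B + N) * f ζ) ζ := by
        intro ζ hζ
        by_cases hz : ζ ∈ {ζ : ℂ | u (a + ζ • b) < ((-N : ℝ) : EReal)}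
        · refine (le_of_lt hz).trans (EReal.coe_le_coe_iff.mpr ?_)
          nlinarith [(f01 ζ).2]
        · have h0 : f ζ = 0 := f0 hz
          simp only [h0, mul_zero, sub_zero]
          exact hB _ ⟨ζ, by simpa using hζ, rfl⟩
      have h3 := hu.2.2 a b (fun ζ => B - (B + N) * f ζ) (by fun_prop) hmaj
      rw [hc, EReal.coe_le_coe_iff] at h3
      have hfc : Continuous (fun θ : ℝ => f (circleMap 0 1 θ)) := by fun_prop
      have h4 : circleAverage (fun ζ => B - (B + N) * f ζ) 0 1 =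
          B - (2 * π)⁻¹ * ((B + N) * ∫ θ in (-π)..π, f (circleMap 0 1 θ)) := by
        have e1 : circleAverage (fun ζ => (B + N) * f ζ) 0 1 =
            (2 * π)⁻¹ * ((B + N) * ∫ θ in (-π)..π, f (circleMap 0 1 θ)) := by
          rw [circleAverage_def, smul_eq_mul]
          congr 1
          rw [intervalIntegral.integral_const_mul]
          congr 1
          have hp : Function.Periodic (fun θ : ℝ => f (circleMap 0 1 θ)) (2 * π) := fun θ => by
            simp only [periodic_circleMap 0 1 θ]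
          have := hp.intervalIntegral_add_eq 0 (-π)
          rw [zero_add] at this
          rw [this]
          congr 1; ring
        rw [circleAverage_fun_sub (polar1_circleIntegrable continuous_const)
          (polar1_circleIntegrable (by fun_prop)), circleAverage_const, e1]
      have h5 : m ≤ ∫ θ in (-π)..π, f (circleMap 0 1 θ) := by
        rw [intervalIntegral.integral_of_le (by linarith [pi_pos])]
        have hKs : K ⊆ Ioc (-π) π := fun θ hθ => Ioo_subset_Ioc_self (hKE hθ).2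
        calc m = ∫ θ in K, (1 : ℝ) := by simp [hm, measureReal_def]
          _ = ∫ θ in K, f (circleMap 0 1 θ) := by
            apply setIntegral_congr_fun hK.measurableSet
            intro θ hθ
            exact (f1 ⟨θ, hθ, rfl⟩).symm
          _ ≤ ∫ θ in Ioc (-π) π, f (circleMap 0 1 θ) := by
            apply setIntegral_mono_set
            · exact (hfc.continuousOn.integrableOn_Icc).mono_set Ioc_subset_Icc_self
            · exact Eventually.of_forall fun θ => (f01 _).1
            · exact hKs.eventuallyLE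
      rw [h4] at h3
      have h6 : (2 * π)⁻¹ * ((B + N) * m) ≤
          (2 * π)⁻¹ * ((B + N) * ∫ θ in (-π)..π, f (circleMap 0 1 θ)) := by gcongr
      linarith
    -- contradiction
    have hpi := pi_pos
    set N := (|B - c| + 1) * (2 * π) / m - B with hN
    have hBN : B + N = (|B - c| + 1) * (2 * π) / m := by rw [hN]; ring
    have h7 := key N (by rw [hBN]; positivity)
    have h8 : (2 * π)⁻¹ * ((B + N) * m) = |B - c| + 1 := by
      rw [hBN]; field_simp
    rw [h8] at h7
    linarith [le_abs_self (B - c), neg_abs_le (B - c)]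
  rw [ae_iff, Measure.restrict_apply' measurableSet_Ioo]
  have e : {θ : ℝ | ¬ u (a + circleMap 0 1 θ • b) ≠ ⊥} ∩ Ioo (-π) π = E := by
    ext θ
    simp [hE]
  rw [e]
  exact hgoal

theorem polar1_line_ae {u : ℂ × ℂ → EReal} (hu : PSH u) {a b : ℂ × ℂ} (h : u a ≠ ⊥) :
    ∀ᵐ ζ : ℂ, u (a + ζ • b) ≠ ⊥ := by
  have hc : Continuous (fun ζ : ℂ => a + ζ • b) := by fun_prop
  have hm : MeasurableSet {ζ : ℂ | u (a + ζ • b) = ⊥} := hc.measurable (polar1_measurableSet hu)
  set N : Set ℂ := {ζ : ℂ | u (a + ζ • b) = ⊥} with hN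
  have hmain : ∀ᵐ p : ℝ × ℝ ∂(volume.restrict polarCoord.target),
      Complex.polarCoord.symm p ∉ N := by
    have e : (volume.restrict polarCoord.target : Measure (ℝ × ℝ)) =
        (volume.restrict (Ioi (0 : ℝ))).prod (volume.restrict (Ioo (-π) π)) := by
      rw [Measure.prod_restrict]; rfl
    rw [e, Measure.ae_prod_iff_ae_ae]
    · refine (ae_restrict_iff' measurableSet_Ioi).mpr (Eventually.of_forall fun r hr => ?_)
      filter_upwards [polar1_circle_ae hu (a := a) (b := (r : ℂ) • b) h] with θ hθ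
      intro hmem
      apply hθ
      have e2 : a + circleMap 0 1 θ • ((r : ℂ) • b) = a + Complex.polarCoord.symm (r, θ) • b := by
        rw [smul_smul, Complex.polarCoord_symm_apply, circleMap, Complex.exp_mul_I]
        congr 2
        push_cast
        ring
      rw [e2]
      exact hmem
    · have hcp : Measurable Complex.polarCoord.symm := by
        have : (Complex.polarCoord.symm : ℝ × ℝ → ℂ) =
            fun p => (p.1 : ℂ) * (Real.cos p.2 + Real.sin p.2 * I) := by
          funext p; exact Complex.polarCoord_symm_apply p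
        rw [this]
        fun_prop
      exact (hcp hm).compl
  have h0 : volume N = 0 := by
    rw [← lintegral_indicator_one hm, ← Complex.lintegral_comp_polarCoord_symm]
    rw [lintegral_congr_ae (g := fun _ => 0)]
    · simp
    · filter_upwards [hmain] with p hp
      rw [indicator_of_notMem hp, smul_zero]
  rw [ae_iff]
  have e : {ζ : ℂ | ¬ u (a + ζ • b) ≠ ⊥} = N := by
    ext ζ
    simp [hN]
  rw [e]
  exact h0

/-- a psh function which is not `≡ -∞` is finite almost everywhere -/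
theorem psh_ae_ne_bot {u : ℂ × ℂ → EReal} (hu : PSH u) {x₀ : ℂ × ℂ} (h : u x₀ ≠ ⊥) :
    ∀ᵐ x : ℂ × ℂ, u x ≠ ⊥ := by
  have hm : MeasurableSet {x : ℂ × ℂ | u x ≠ ⊥} := (polar1_measurableSet hu).compl
  change ∀ᵐ x ∂((volume : Measure ℂ).prod (volume : Measure ℂ)), u x ≠ ⊥
  rw [Measure.ae_prod_iff_ae_ae hm]
  have h1 := (measurePreserving_sub_right (volume : Measure ℂ) x₀.1).quasiMeasurePreserving.ae
    (polar1_line_ae hu (b := (1, 0)) h)
  filter_upwards [h1] with z hz
  have h2 := (measurePreserving_sub_right (volume : Measure ℂ) x₀.2).quasiMeasurePreserving.ae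
    (polar1_line_ae hu (b := (0, 1)) hz)
  filter_upwards [h2] with w hw
  have e : x₀ + (z - x₀.1) • ((1 : ℂ), (0 : ℂ)) + (w - x₀.2) • ((0 : ℂ), (1 : ℂ)) = (z, w) := by
    ext <;> simp
  rw [e] at hw
  exact hw

theorem Pluripolar.mono {E F : Set (ℂ × ℂ)} (h : Pluripolar F) (hEF : E ⊆ F) : Pluripolar E := by
  obtain ⟨u, hu, hx, hE⟩ := h
  exact ⟨u, hu, hx, fun x hx => hE x (hEF hx)⟩

/-! ### Countable unions -/

/-- decreasing limits -/
theorem polar1_limit {S : ℕ → ℂ × ℂ → EReal} (hS : ∀ N, PSH (S N))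
    (hanti : ∀ N : ℕ, ∀ x ∈ closedBall (0 : ℂ × ℂ) N, S (N + 1) x ≤ S N x)
    {u : ℂ × ℂ → EReal} (hu : ∀ x, u x = limsup (fun N => S N x) atTop) : PSH u := by
  have hanti' : ∀ R : ℕ, ∀ x ∈ closedBall (0 : ℂ × ℂ) R, Antitone fun N => S (N + R) x := by
    intro R x hx
    refine antitone_nat_of_succ_le fun N => ?_
    have h1 : N + 1 + R = N + R + 1 := by ring
    rw [h1]
    exact hanti (N + R) x (closedBall_subset_closedBall (by push_cast; linarith [N.cast_nonneg (α := ℝ)]) hx)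
  have hinf : ∀ R : ℕ, ∀ x ∈ closedBall (0 : ℂ × ℂ) R, u x = ⨅ N, S (N + R) x := by
    intro R x hx
    rw [hu x, ← limsup_nat_add _ R]
    exact (tendsto_atTop_iInf (hanti' R x hx)).limsup_eq
  have hbd : ∀ x : ℂ × ℂ, ∃ R : ℕ, x ∈ ball (0 : ℂ × ℂ) R := fun x => by
    obtain ⟨R, hR⟩ := exists_nat_gt ‖x‖
    exact ⟨R, by simpa using hR⟩
  refine ⟨fun x => ?_, fun x => ?_, ?_⟩
  · obtain ⟨R, hR⟩ := hbd x
    refine upperSemicontinuousAt_iff.mpr fun y hy => ?_
    rw [hinf R x (ball_subset_closedBall hR), iInf_lt_iff] at hy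
    obtain ⟨N, hN⟩ := hy
    filter_upwards [upperSemicontinuousAt_iff.mp ((hS (N + R)).1 x) _ hN,
      isOpen_ball.mem_nhds hR] with x' h1 h2
    rw [hinf R x' (ball_subset_closedBall h2)]
    exact (iInf_le _ N).trans_lt h1
  · obtain ⟨R, hR⟩ := hbd x
    rw [hinf R x (ball_subset_closedBall hR)]
    exact (iInf_le _ 0).trans_lt ((hS _).2.1 x)
  · intro a b g hg hle
    obtain ⟨R, hR⟩ := exists_nat_gt (‖a‖ + ‖b‖)
    have hmem : ∀ ζ : ℂ, ‖ζ‖ = 1 → a + ζ • b ∈ closedBall (0 : ℂ × ℂ) R := fun ζ hζ => by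
      rw [mem_closedBall_zero_iff]
      refine (norm_add_le _ _).trans ?_
      rw [norm_smul, hζ, one_mul]
      exact hR.le
    apply polar1_of_eps
    intro ε hε
    have hind := (isCompact_sphere (0 : ℂ) 1).induction_on (p := fun s => ∃ N : ℕ,
      ∀ ζ ∈ s, ‖ζ‖ = 1 → S (N + R) (a + ζ • b) < ((g ζ + ε : ℝ) : EReal)) ?_ ?_ ?_ ?_
    · obtain ⟨N, hN⟩ := hind
      have i1 := (hS (N + R)).2.2 a b (fun ζ => g ζ + ε) (by fun_prop)
        (fun ζ hζ => (hN ζ (by simpa using hζ) hζ).le)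
      rw [circleAverage_fun_add (polar1_circleIntegrable hg)
        (polar1_circleIntegrable continuous_const), circleAverage_const] at i1
      refine le_trans ?_ i1
      have ha : a ∈ closedBall (0 : ℂ × ℂ) R := by
        rw [mem_closedBall_zero_iff]
        linarith [norm_nonneg b]
      rw [hinf R a ha]
      exact iInf_le _ N
    · exact ⟨0, by simp⟩
    · rintro s t hst ⟨N, hN⟩
      exact ⟨N, fun ζ hζ => hN ζ (hst hζ)⟩
    · rintro s t ⟨N, hN⟩ ⟨N', hN'⟩
      refine ⟨max N N', ?_⟩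
      rintro ζ (hζ | hζ) hn
      · exact (hanti' R _ (hmem ζ hn) (le_max_left N N')).trans_lt (hN ζ hζ hn)
      · exact (hanti' R _ (hmem ζ hn) (le_max_right N N')).trans_lt (hN' ζ hζ hn)
    · intro ζ₀ hζ₀
      have hn : ‖ζ₀‖ = 1 := by simpa using hζ₀
      have h1 : u (a + ζ₀ • b) < ((g ζ₀ + ε : ℝ) : EReal) :=
        (hle ζ₀ hn).trans_lt (EReal.coe_lt_coe_iff.mpr (by linarith))
      rw [hinf R _ (hmem ζ₀ hn), iInf_lt_iff] at h1
      obtain ⟨N, hN⟩ := h1
      refine ⟨{ζ | S (N + R) (a + ζ • b) < ((g ζ + ε : ℝ) : EReal)}, ?_, N, fun ζ hζ _ => hζ⟩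
      apply mem_nhdsWithin_of_mem_nhds
      exact polar1_eventually_lt (f := fun ζ : ℂ => S (N + R) (a + ζ • b))
        (g := fun ζ => g ζ + ε) (polar1_usc_line (hS (N + R)).1 a b ζ₀) (by fun_prop) hN

/-- a countable union of pluripolar sets is pluripolar -/
theorem pluripolar_iUnion {E : ℕ → Set (ℂ × ℂ)} (h : ∀ n, Pluripolar (E n)) :
    Pluripolar (⋃ n, E n) := by
  choose v hv hx hE using h
  -- a common point of finiteness
  have hae : ∀ᵐ x : ℂ × ℂ, ∀ n, v n x ≠ ⊥ := by
    rw [ae_all_iff]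
    intro n
    obtain ⟨x, hx⟩ := hx n
    exact psh_ae_ne_bot (hv n) hx
  obtain ⟨x₀, hx₀⟩ := hae.exists
  have hr : ∀ n, ∃ r : ℝ, v n x₀ = r := fun n =>
    (polar1_cases ((hv n).2.1 x₀)).resolve_left (hx₀ n)
  choose r hr using hr
  have hM : ∀ n : ℕ, ∃ M : ℝ, ∀ x ∈ closedBall (0 : ℂ × ℂ) n, v n x ≤ M := fun n =>
    polar1_exists_bound (hv n) (isCompact_closedBall _ _)
  choose M hM using hM
  set c : ℕ → ℝ := fun n => (1 / 2) ^ n / (1 + |M n - r n|) with hc
  have hcpos : ∀ n, 0 < c n := fun n => by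
    simp only [hc]; positivity
  set w : ℕ → ℂ × ℂ → EReal := fun n x => (c n : EReal) * v n x + ((-(c n * M n) : ℝ) : EReal)
    with hw
  have hwP : ∀ n, PSH (w n) := fun n => (hv n).aff (hcpos n)
  set S : ℕ → ℂ × ℂ → EReal := fun N => Nat.rec (fun _ => 0) (fun n f x => f x + w n x) N with hS
  have hS0 : ∀ x, S 0 x = 0 := fun x => rfl
  have hS1 : ∀ N x, S (N + 1) x = S N x + w N x := fun N x => rfl
  have hSP : ∀ N, PSH (S N) := by
    intro N
    induction N with
    | zero => exact polar1_zero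
    | succ N ih => exact ih.add (hwP N)
  have hwle : ∀ n : ℕ, ∀ x ∈ closedBall (0 : ℂ × ℂ) n, w n x ≤ ((0 : ℝ) : EReal) := by
    intro n x hx
    simp only [hw]
    rw [polar1_aff_le (hcpos n) ((hv n).2.1 x)]
    have e : (0 - -(c n * M n)) / c n = M n := by
      have := (hcpos n).ne'
      field_simp; ring
    rw [e]
    exact hM n x hx
  have hanti : ∀ N : ℕ, ∀ x ∈ closedBall (0 : ℂ × ℂ) N, S (N + 1) x ≤ S N x := by
    intro N x hx
    rw [hS1]
    calc S N x + w N x ≤ S N x + 0 := by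
          have := hwle N x hx
          rw [EReal.coe_zero] at this
          gcongr
      _ = S N x := add_zero _
  refine ⟨fun x => limsup (fun N => S N x) atTop, polar1_limit hSP hanti fun x => rfl, ⟨x₀, ?_⟩, ?_⟩
  · -- finiteness at `x₀`
    have hwx : ∀ n, ((-(1 / 2) ^ n : ℝ) : EReal) ≤ w n x₀ := by
      intro n
      simp only [hw]
      rw [hr n, ← EReal.coe_mul, ← EReal.coe_add, EReal.coe_le_coe_iff]
      have h1 : c n * (1 + |M n - r n|) = (1 / 2) ^ n := by
        simp only [hc]; field_simp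
      have h2 : c n * (M n - r n) ≤ c n * (1 + |M n - r n|) :=
        mul_le_mul_of_nonneg_left (by linarith [le_abs_self (M n - r n)]) (hcpos n).le
      nlinarith
    have hSx : ∀ N, ((-2 + 2 * (1 / 2) ^ N : ℝ) : EReal) ≤ S N x₀ := by
      intro N
      induction N with
      | zero => rw [hS0]; norm_num
      | succ N ih =>
        rw [hS1]
        calc ((-2 + 2 * (1 / 2) ^ (N + 1) : ℝ) : EReal)
            = ((-2 + 2 * (1 / 2) ^ N : ℝ) : EReal) + ((-(1 / 2) ^ N : ℝ) : EReal) := by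
              rw [← EReal.coe_add]; congr 1; rw [pow_succ]; ring
          _ ≤ S N x₀ + w N x₀ := add_le_add ih (hwx N)
    have h2 : ((-2 : ℝ) : EReal) ≤ limsup (fun N => S N x₀) atTop := by
      refine le_limsup_of_frequently_le (Frequently.of_forall fun N => ?_)
      refine le_trans (EReal.coe_le_coe_iff.mpr ?_) (hSx N)
      have : (0 : ℝ) ≤ (1 / 2) ^ N := by positivity
      linarith
    intro hbot
    simp only at hbot
    rw [hbot] at h2
    exact absurd (EReal.bot_lt_coe (-2)) (not_lt.mpr h2)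
  · intro x hx
    obtain ⟨n, hn⟩ := mem_iUnion.mp hx
    have hwn : w n x = ⊥ := by
      simp only [hw]
      rw [hE n x hn, EReal.coe_mul_bot_of_pos (hcpos n), EReal.bot_add]
    have hSn : ∀ N, S (n + 1 + N) x = ⊥ := by
      intro N
      induction N with
      | zero => rw [add_zero, hS1, hwn, EReal.add_bot]
      | succ N ih =>
        rw [← add_assoc, hS1, ih, EReal.bot_add]
    have h3 : (fun N => S N x) =ᶠ[atTop] fun _ => ⊥ := by
      filter_upwards [eventually_ge_atTop (n + 1)] with N hN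
      obtain ⟨k, rfl⟩ := Nat.exists_eq_add_of_le hN
      exact hSn k
    change limsup (fun N => S N x) atTop = ⊥
    rw [limsup_congr h3, limsup_const]

end Pool.Agent.ParLeaf
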