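import Pool.Agent.H.MP_3a36cd_an.Defs

/-! MP_3a36cd_an, auxiliary module for Polar3: logarithms of entire functions. -/

open Set Metric Filter Topology Complex MeasureTheory Real

namespace Pool.Agent.ParLeaf

/-! ### Logarithm with values in `EReal` -/

/-- logarithm of a real number with values in `EReal` -/
noncomputable def polar3L (t : ℝ) : EReal := ENNReal.log (ENNReal.ofReal t)

theorem polar3L_continuous : Continuous polar3L :=
  ENNReal.continuous_log.comp ENNReal.continuous_ofReal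

theorem polar3L_lt_top (t : ℝ) : polar3L t < ⊤ := by
  unfold polar3L
  rw [ENNReal.log_lt_top_iff]
  exact ENNReal.ofReal_lt_top

theorem polar3L_exp (c : ℝ) : polar3L (Real.exp c) = (c : EReal) := by
  unfold polar3L
  rw [ENNReal.log_ofReal_of_pos (Real.exp_pos c), Real.log_exp]

theorem polar3L_le_iff {t c : ℝ} : polar3L t ≤ (c : EReal) ↔ t ≤ Real.exp c := by
  rw [← polar3L_exp c]
  unfold polar3L
  rw [ENNReal.log_le_log_iff, ENNReal.ofReal_le_ofReal_iff (Real.exp_pos c).le]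

theorem polar3L_lt_iff {t c : ℝ} : polar3L t < (c : EReal) ↔ t < Real.exp c := by
  rw [← polar3L_exp c]
  unfold polar3L
  rw [ENNReal.log_lt_log_iff, ENNReal.ofReal_lt_ofReal_iff (Real.exp_pos c)]

theorem polar3L_mono : Monotone polar3L := fun _ _ h =>
  ENNReal.log_monotone (ENNReal.ofReal_le_ofReal h)

/-! ### Jensen's inequality with a continuous majorant -/

theorem polar3_jensen {f : ℂ → ℂ} (hf : Differentiable ℂ f) (h0 : f 0 ≠ 0) :
    Real.log ‖f 0‖ ≤ circleAverage (fun ζ => Real.log ‖f ζ‖) 0 1 := by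
  have hA : AnalyticOnNhd ℂ f (closedBall (0 : ℂ) |1|) := fun z _ => hf.analyticAt z
  have := AnalyticOnNhd.circleAverage_log_norm (c := 0) (R := 1) one_ne_zero hA h0
  rw [this]
  have : 0 ≤ ∑ᶠ u, (MeromorphicOn.divisor f (closedBall (0 : ℂ) |1|) u : ℝ)
      * Real.log (1 * ‖(0 : ℂ) - u‖⁻¹) := by
    apply finsum_nonneg
    intro u
    by_cases hu : u ∈ closedBall (0 : ℂ) |1|
    · apply mul_nonneg
      · have : (0 : ℤ) ≤ MeromorphicOn.divisor f (closedBall (0 : ℂ) |1|) u :=
          MeromorphicOn.AnalyticOnNhd.divisor_nonneg hA u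
        exact_mod_cast this
      · have hu1 : ‖u‖ ≤ 1 := by simpa using hu
        rw [zero_sub, norm_neg, one_mul, Real.log_inv]
        have := Real.log_nonpos (norm_nonneg u) hu1
        linarith
    · rw [Function.locallyFinsuppWithin.apply_eq_zero_of_notMem _ hu]
      simp
  linarith

theorem polar3_zeros_finite {f : ℂ → ℂ} (hf : Differentiable ℂ f) (h0 : f 0 ≠ 0) :
    {z : ℂ | z ∈ sphere (0 : ℂ) |1| ∧ f z ≠ 0} ∈ codiscreteWithin (sphere (0 : ℂ) |1|) := by
  have hA : AnalyticOnNhd ℂ f Set.univ := fun z _ => hf.analyticAt z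
  have h1 := hA.preimage_zero_mem_codiscrete h0
  have h2 : f ⁻¹' {0}ᶜ ∈ codiscreteWithin (sphere (0 : ℂ) |1|) :=
    codiscreteWithin.mono (Set.subset_univ _) h1
  have h3 : sphere (0 : ℂ) |1| ∈ codiscreteWithin (sphere (0 : ℂ) |1|) := self_mem_codiscreteWithin _
  filter_upwards [h2, h3] with z hz hz'
  exact ⟨hz', hz⟩

theorem polar3_majorant {f : ℂ → ℂ} (hf : Differentiable ℂ f) {g : ℂ → ℝ} (hg : Continuous g)
    (h : ∀ ζ : ℂ, ‖ζ‖ = 1 → ‖f ζ‖ ≤ Real.exp (g ζ)) :
    ‖f 0‖ ≤ Real.exp (circleAverage g 0 1) := by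
  by_cases h0 : f 0 = 0
  · rw [h0, norm_zero]; positivity
  have h1 := polar3_jensen hf h0
  rw [← Real.log_le_iff_le_exp (norm_pos_iff.mpr h0)]
  refine h1.trans ?_
  set φ : ℂ → ℝ := fun ζ => Real.log ‖f ζ‖ with hφ
  set ψ : ℂ → ℝ := fun ζ => if f ζ = 0 then min (φ ζ) (g ζ) else φ ζ with hψ
  have hcod : φ =ᶠ[codiscreteWithin (sphere (0 : ℂ) |1|)] ψ := by
    filter_upwards [polar3_zeros_finite hf h0] with z hz
    simp [hψ, hz.2]
  have hA : MeromorphicOn f (sphere (0 : ℂ) |1|) := fun z _ => (hf.analyticAt z).meromorphicAt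
  have hφi : CircleIntegrable φ 0 1 := hA.circleIntegrable_log_norm
  have hψi : CircleIntegrable ψ 0 1 := hφi.congr_codiscreteWithin hcod
  rw [circleAverage_congr_codiscreteWithin hcod one_ne_zero]
  apply circleAverage_mono hψi (hg.continuousOn.circleIntegrable')
  intro z hz
  have hz1 : ‖z‖ = 1 := by simpa using hz
  by_cases hfz : f z = 0
  · simp [hψ, hfz]
  · simp only [hψ, hfz, if_false]
    rw [hφ]
    simp only
    rw [Real.log_le_iff_le_exp (norm_pos_iff.mpr hfz)]
    exact h z hz1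

end Pool.Agent.ParLeaf
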