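import Mathlib

/-! MP_3a36cd_an, auxiliary module for Polar3: Mahler measures of iterated products. -/

open Set Metric Filter Topology Complex MeasureTheory Real

namespace Pool.Agent.ParLeaf

theorem polar3_mahler_le (P : Polynomial ℂ) {m : ℝ} (h : ∀ w : ℂ, ‖w‖ = 1 → ‖P.eval w‖ ≤ m) :
    P.mahlerMeasure ≤ m := by
  by_contra hlt
  push Not at hlt
  have hm0 : 0 ≤ m := (norm_nonneg _).trans (h 1 (by simp))
  have hPpos : 0 < P.mahlerMeasure := lt_of_le_of_lt hm0 hlt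
  obtain ⟨m', hm1, hm2⟩ := exists_between hlt
  have hm'pos : 0 < m' := lt_of_le_of_lt hm0 hm1
  have hP0 : P ≠ 0 := by
    intro h0
    rw [h0, Polynomial.mahlerMeasure_zero] at hPpos
    exact lt_irrefl _ hPpos
  set Q : Polynomial ℂ := Polynomial.C ((m'⁻¹ : ℝ) : ℂ) * P with hQ
  have hQ0 : Q ≠ 0 := by
    apply mul_ne_zero _ hP0
    rw [Ne, Polynomial.C_eq_zero]
    exact_mod_cast (inv_pos.mpr hm'pos).ne'
  have hQm : Q.mahlerMeasure = m'⁻¹ * P.mahlerMeasure := by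
    rw [hQ, Polynomial.mahlerMeasure_mul, Polynomial.mahlerMeasure_const]
    congr 1
    rw [Complex.norm_real, Real.norm_of_nonneg (inv_pos.mpr hm'pos).le]
  have h1 : Q.logMahlerMeasure ≤ 0 := by
    rw [Polynomial.logMahlerMeasure_def]
    apply circleAverage_mono_on_of_le_circle
    · exact Q.intervalIntegrable_mahlerMeasure
    · intro x hx
      have hx1 : ‖x‖ = 1 := by simpa using hx
      apply Real.log_nonpos (norm_nonneg _)
      rw [hQ, Polynomial.eval_mul, Polynomial.eval_C, norm_mul, Complex.norm_real,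
        Real.norm_of_nonneg (inv_pos.mpr hm'pos).le]
      have := h x hx1
      rw [inv_mul_le_iff₀ hm'pos]
      linarith
  rw [Polynomial.logMahlerMeasure_eq_log_MahlerMeasure, hQm] at h1
  have h2 : 1 < m'⁻¹ * P.mahlerMeasure := by
    rw [inv_mul_eq_div, one_lt_div hm'pos]
    exact hm2
  have := Real.log_pos h2
  linarith

theorem polar3_exists_eval (P : Polynomial ℂ) :
    ∃ w : ℂ, ‖w‖ = 1 ∧ P.mahlerMeasure ≤ ‖P.eval w‖ := by
  obtain ⟨w, hw, hmax⟩ := (isCompact_sphere (0 : ℂ) 1).exists_isMaxOn ⟨1, by simp⟩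
    (f := fun w => ‖P.eval w‖) (P.continuous.norm.continuousOn)
  refine ⟨w, by simpa using hw, polar3_mahler_le P fun v hv => ?_⟩
  exact hmax (by simpa using hv : v ∈ sphere (0 : ℂ) 1)

theorem polar3_coeff_le {P : Polynomial ℂ} {N : ℕ} (hN : P.natDegree ≤ N) (n : ℕ) :
    ‖P.coeff n‖ * (2⁻¹ : ℝ) ^ N ≤ P.mahlerMeasure := by
  have h1 := Polynomial.norm_coeff_le_choose_mul_mahlerMeasure n P
  have h2 : ((P.natDegree.choose n : ℕ) : ℝ) ≤ 2 ^ N := by
    have h3 : P.natDegree.choose n ≤ 2 ^ P.natDegree := Nat.choose_le_two_pow _ _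
    have h4 : 2 ^ P.natDegree ≤ 2 ^ N := Nat.pow_le_pow_right (by norm_num) hN
    exact_mod_cast h3.trans h4
  have h5 : ‖P.coeff n‖ ≤ 2 ^ N * P.mahlerMeasure := by
    refine h1.trans ?_
    have := P.mahlerMeasure_nonneg
    gcongr
  calc ‖P.coeff n‖ * (2⁻¹ : ℝ) ^ N ≤ (2 ^ N * P.mahlerMeasure) * (2⁻¹ : ℝ) ^ N := by gcongr
    _ = P.mahlerMeasure := by
      rw [inv_pow]
      field_simp

/-- the iterated product `x₀^(4^n) x₁^(4^(n-1)) ⋯ x_n` -/
def polar3R {M : Type*} [Monoid M] (W : ℕ → M) : ℕ → M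
  | 0 => W 0
  | n + 1 => (polar3R W n) ^ 4 * W (n + 1)

theorem polar3R_map {M M' : Type*} [Monoid M] [Monoid M'] (φ : M → M')
    (hφ : ∀ x y, φ (x * y) = φ x * φ y) (W : ℕ → M) (n : ℕ) :
    φ (polar3R W n) = polar3R (fun k => φ (W k)) n := by
  induction n with
  | zero => rfl
  | succ n ih =>
    simp only [polar3R]
    rw [hφ, ← ih]
    congr 1
    simp only [pow_succ, pow_zero, one_mul, hφ]

theorem polar3R_mul {M : Type*} [CommMonoid M] (U V : ℕ → M) (n : ℕ) :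
    polar3R (fun k => U k * V k) n = polar3R U n * polar3R V n := by
  induction n with
  | zero => rfl
  | succ n ih =>
    simp only [polar3R]
    rw [ih, mul_pow]
    exact mul_mul_mul_comm _ _ _ _

theorem polar3R_nonneg {U : ℕ → ℝ} (h : ∀ k, 0 ≤ U k) (n : ℕ) : 0 ≤ polar3R U n := by
  induction n with
  | zero => exact h 0
  | succ n ih => exact mul_nonneg (pow_nonneg ih 4) (h _)

theorem polar3R_le {U V : ℕ → ℝ} (h0 : ∀ k, 0 ≤ U k) (h : ∀ k, U k ≤ V k) (n : ℕ) :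
    polar3R U n ≤ polar3R V n := by
  induction n with
  | zero => exact h 0
  | succ n ih =>
    have h1 := polar3R_nonneg h0 n
    have h2 : 0 ≤ polar3R V n := h1.trans ih
    simp only [polar3R]
    exact mul_le_mul (pow_le_pow_left₀ h1 ih 4) (h _) (h0 _) (pow_nonneg h2 4)

theorem polar3R_pow (x : ℝ) (n : ℕ) :
    polar3R (fun k => x ^ (2 ^ k)) n * x ^ (2 ^ n) = x ^ (2 * 4 ^ n) := by
  induction n with
  | zero => simp [polar3R]; ring
  | succ n ih =>
    simp only [polar3R]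
    calc polar3R (fun k => x ^ 2 ^ k) n ^ 4 * x ^ 2 ^ (n + 1) * x ^ 2 ^ (n + 1)
        = (polar3R (fun k => x ^ 2 ^ k) n * x ^ (2 ^ n)) ^ 4 := by
          rw [mul_pow, ← pow_mul, mul_assoc, ← pow_add]
          congr 2
          ring
      _ = x ^ (2 * 4 ^ (n + 1)) := by
          rw [ih, ← pow_mul]
          congr 1
          ring

theorem polar3R_pow4 (q : ℝ) (n : ℕ) :
    polar3R (fun k => q ^ (4 ^ k)) n = q ^ ((n + 1) * 4 ^ n) := by
  induction n with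
  | zero => simp [polar3R]
  | succ n ih =>
    simp only [polar3R]
    rw [ih, ← pow_mul, ← pow_add]
    congr 1
    ring

theorem polar3R_half (n : ℕ) :
    (2⁻¹ : ℝ) ^ (2 * 4 ^ n) ≤ polar3R (fun k => (2⁻¹ : ℝ) ^ (2 ^ k)) n := by
  rw [← polar3R_pow]
  have h1 : 0 ≤ polar3R (fun k => (2⁻¹ : ℝ) ^ (2 ^ k)) n := polar3R_nonneg (fun k => by positivity) n
  have h2 : (2⁻¹ : ℝ) ^ (2 ^ n) ≤ 1 := pow_le_one₀ (by norm_num) (by norm_num)
  exact mul_le_of_le_one_right h1 h2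

theorem polar3R_big {D : ℝ} (hD : 1 ≤ D) (n : ℕ) :
    polar3R (fun k => D ^ (2 ^ k)) n ≤ D ^ (2 * 4 ^ n) := by
  rw [← polar3R_pow]
  have h1 : 0 ≤ polar3R (fun k => D ^ (2 ^ k)) n := polar3R_nonneg (fun k => by positivity) n
  have h2 : 1 ≤ D ^ (2 ^ n) := one_le_pow₀ hD
  exact le_mul_of_one_le_right h1 h2

/-! ### two-variable polynomials -/

/-- the polynomial function with coefficient matrix `A` -/
noncomputable def polar3F (N : ℕ) (A : ℕ → ℕ → ℂ) (z w : ℂ) : ℂ :=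
  ∑ j ∈ Finset.range N, (∑ i ∈ Finset.range N, A i j * z ^ i) * w ^ j

/-- as a polynomial in `w` -/
noncomputable def polar3W (N : ℕ) (A : ℕ → ℕ → ℂ) (z : ℂ) : Polynomial ℂ :=
  ∑ j ∈ Finset.range N, Polynomial.C (∑ i ∈ Finset.range N, A i j * z ^ i) * Polynomial.X ^ j

/-- the coefficients as polynomials in `z` -/
noncomputable def polar3Z (N : ℕ) (A : ℕ → ℕ → ℂ) (j : ℕ) : Polynomial ℂ :=
  ∑ i ∈ Finset.range N, Polynomial.C (A i j) * Polynomial.X ^ i

theorem polar3_poly_coeff (N : ℕ) (a : ℕ → ℂ) {n : ℕ} (hn : n < N) :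
    (∑ j ∈ Finset.range N, Polynomial.C (a j) * Polynomial.X ^ j : Polynomial ℂ).coeff n = a n := by
  rw [Polynomial.finsetSum_coeff]
  simp only [Polynomial.coeff_C_mul_X_pow]
  rw [Finset.sum_ite_eq, if_pos (Finset.mem_range.mpr hn)]

theorem polar3_poly_natDegree (N : ℕ) (a : ℕ → ℂ) :
    (∑ j ∈ Finset.range N, Polynomial.C (a j) * Polynomial.X ^ j : Polynomial ℂ).natDegree ≤ N := by
  apply Polynomial.natDegree_sum_le_of_forall_le
  intro i hi
  exact (Polynomial.natDegree_C_mul_X_pow_le _ _).trans (Finset.mem_range.mp hi).le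

theorem polar3W_eval (N : ℕ) (A : ℕ → ℕ → ℂ) (z w : ℂ) :
    (polar3W N A z).eval w = polar3F N A z w := by
  simp [polar3W, polar3F, Polynomial.eval_finsetSum]

theorem polar3Z_eval (N : ℕ) (A : ℕ → ℕ → ℂ) (j : ℕ) (z : ℂ) :
    (polar3Z N A j).eval z = ∑ i ∈ Finset.range N, A i j * z ^ i := by
  simp [polar3Z, Polynomial.eval_finsetSum]

theorem polar3W_mahler (N : ℕ) (A : ℕ → ℕ → ℂ) (z : ℂ) {j : ℕ} (hj : j < N) :
    ‖(polar3Z N A j).eval z‖ * (2⁻¹ : ℝ) ^ N ≤ (polar3W N A z).mahlerMeasure := by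
  have h1 := polar3_coeff_le (polar3_poly_natDegree N fun j => ∑ i ∈ Finset.range N, A i j * z ^ i) j
  rw [polar3_poly_coeff N _ hj] at h1
  rw [polar3Z_eval]
  exact h1

theorem polar3Z_mahler (N : ℕ) (A : ℕ → ℕ → ℂ) {i j : ℕ} (hi : i < N) (h : ‖A i j‖ = 1) :
    (2⁻¹ : ℝ) ^ N ≤ (polar3Z N A j).mahlerMeasure := by
  have h1 := polar3_coeff_le (polar3_poly_natDegree N fun i => A i j) i
  rw [polar3_poly_coeff N _ hi, h, one_mul] at h1
  exact h1

/-- a point of the torus where the iterated product is large -/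
theorem polar3_torus (A : ℕ → ℕ → ℕ → ℂ) (I J : ℕ → ℕ) (hI : ∀ k, I k < 2 ^ k)
    (hJ : ∀ k, J k < 2 ^ k) (hA : ∀ k, ‖A k (I k) (J k)‖ = 1) (n : ℕ) :
    ∃ z w : ℂ, ‖z‖ = 1 ∧ ‖w‖ = 1 ∧
      (2⁻¹ : ℝ) ^ (4 * 4 ^ n) ≤ ‖polar3R (fun k => polar3F (2 ^ k) (A k) z w) n‖ := by
  have hZ : (2⁻¹ : ℝ) ^ (2 * 4 ^ n)
      ≤ (polar3R (fun k => polar3Z (2 ^ k) (A k) (J k)) n).mahlerMeasure := by
    rw [polar3R_map Polynomial.mahlerMeasure Polynomial.mahlerMeasure_mul]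
    refine (polar3R_half n).trans (polar3R_le (fun k => by positivity) (fun k => ?_) n)
    exact polar3Z_mahler _ _ (hI k) (hA k)
  obtain ⟨z, hz, hz'⟩ := polar3_exists_eval (polar3R (fun k => polar3Z (2 ^ k) (A k) (J k)) n)
  have hW : ‖(polar3R (fun k => polar3Z (2 ^ k) (A k) (J k)) n).eval z‖ * (2⁻¹ : ℝ) ^ (2 * 4 ^ n)
      ≤ (polar3R (fun k => polar3W (2 ^ k) (A k) z) n).mahlerMeasure := by
    rw [polar3R_map Polynomial.mahlerMeasure Polynomial.mahlerMeasure_mul]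
    rw [polar3R_map (fun P : Polynomial ℂ => ‖P.eval z‖) (fun x y => by simp)]
    have h1 : polar3R (fun k => ‖(polar3Z (2 ^ k) (A k) (J k)).eval z‖ * (2⁻¹ : ℝ) ^ (2 ^ k)) n
        ≤ polar3R (fun k => (polar3W (2 ^ k) (A k) z).mahlerMeasure) n :=
      polar3R_le (fun k => by positivity) (fun k => polar3W_mahler _ _ _ (hJ k)) n
    rw [polar3R_mul] at h1
    refine le_trans ?_ h1
    exact mul_le_mul_of_nonneg_left (polar3R_half n) (polar3R_nonneg (fun k => norm_nonneg _) n)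
  obtain ⟨w, hw, hw'⟩ := polar3_exists_eval (polar3R (fun k => polar3W (2 ^ k) (A k) z) n)
  refine ⟨z, w, hz, hw, ?_⟩
  have e : polar3R (fun k => polar3F (2 ^ k) (A k) z w) n
      = (polar3R (fun k => polar3W (2 ^ k) (A k) z) n).eval w := by
    rw [polar3R_map (fun P : Polynomial ℂ => P.eval w) (fun x y => by simp)]
    simp only [polar3W_eval]
  rw [e]
  refine le_trans ?_ (hW.trans hw')
  have h2 : (2⁻¹ : ℝ) ^ (2 * 4 ^ n)
      ≤ ‖(polar3R (fun k => polar3Z (2 ^ k) (A k) (J k)) n).eval z‖ := hZ.trans hz'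
  calc (2⁻¹ : ℝ) ^ (4 * 4 ^ n) = (2⁻¹ : ℝ) ^ (2 * 4 ^ n) * (2⁻¹ : ℝ) ^ (2 * 4 ^ n) := by
        rw [← pow_add]; congr 1; ring
    _ ≤ _ := by gcongr

theorem polar3F_le (N : ℕ) (A : ℕ → ℕ → ℂ) (hA : ∀ i j, ‖A i j‖ ≤ 1) (z w : ℂ) :
    ‖polar3F N A z w‖ ≤ Real.exp ((N : ℝ) * (‖z‖ ^ 2 + ‖w‖ ^ 2 + 2)) := by
  have hexp : ∀ t : ℝ, 0 ≤ t → max 1 t ≤ Real.exp (t ^ 2) := by
    intro t ht
    have h1 := Real.add_one_le_exp (t ^ 2)
    apply max_le
    · nlinarith [sq_nonneg t]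
    · nlinarith [sq_nonneg (t - 1), sq_nonneg (t + 1)]
  have hz := hexp ‖z‖ (norm_nonneg _)
  have hw := hexp ‖w‖ (norm_nonneg _)
  have hpow : ∀ (t : ℝ), 0 ≤ t → ∀ i ∈ Finset.range N, t ^ i ≤ (max 1 t) ^ N := by
    intro t ht i hi
    calc t ^ i ≤ (max 1 t) ^ i := by gcongr; exact le_max_right _ _
      _ ≤ (max 1 t) ^ N := pow_le_pow_right₀ (le_max_left _ _) (Finset.mem_range.mp hi).le
  have hN : (N : ℝ) ≤ Real.exp N := by
    have := Real.add_one_le_exp (N : ℝ)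
    linarith
  calc ‖polar3F N A z w‖
      ≤ ∑ j ∈ Finset.range N, ∑ i ∈ Finset.range N, (max 1 ‖z‖) ^ N * (max 1 ‖w‖) ^ N := by
        unfold polar3F
        refine norm_sum_le_of_le _ fun j hj => ?_
        rw [norm_mul, norm_pow]
        calc ‖∑ i ∈ Finset.range N, A i j * z ^ i‖ * ‖w‖ ^ j
            ≤ (∑ i ∈ Finset.range N, (max 1 ‖z‖) ^ N) * (max 1 ‖w‖) ^ N := by
              apply mul_le_mul _ (hpow _ (norm_nonneg _) j hj) (by positivity)
                (Finset.sum_nonneg fun _ _ => by positivity)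
              refine norm_sum_le_of_le _ fun i hi => ?_
              rw [norm_mul, norm_pow]
              calc ‖A i j‖ * ‖z‖ ^ i ≤ 1 * (max 1 ‖z‖) ^ N := by
                    apply mul_le_mul (hA i j) (hpow _ (norm_nonneg _) i hi) (by positivity)
                      zero_le_one
                _ = _ := one_mul _
          _ = _ := by rw [Finset.sum_mul]
    _ = (N : ℝ) * N * ((max 1 ‖z‖) ^ N * (max 1 ‖w‖) ^ N) := by
        simp only [Finset.sum_const, Finset.card_range, nsmul_eq_mul]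
        ring
    _ ≤ Real.exp N * Real.exp N * ((Real.exp (‖z‖ ^ 2)) ^ N * (Real.exp (‖w‖ ^ 2)) ^ N) := by
        gcongr
    _ = Real.exp ((N : ℝ) * (‖z‖ ^ 2 + ‖w‖ ^ 2 + 2)) := by
        rw [← Real.exp_nat_mul, ← Real.exp_nat_mul, ← Real.exp_add, ← Real.exp_add,
          ← Real.exp_add]
        congr 1
        ring

end Pool.Agent.ParLeaf
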