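import Mathlib

/-! Riemann domains (local translation structures). -/

open Set Metric Filter Topology Real Complex
open scoped ContDiff

namespace Pool.Agent.ParLeaf

/-- A Riemann domain spread over the normed space `E`, described by its local translations:
`tr e v` is the point `e ⊕ v`, defined (meaningful) for `‖v‖ < rad e`. -/
structure RD (E : Type) [NormedAddCommGroup E] where
  carrier : Type
  pr : carrier → E
  rad : carrier → ℝ
  tr : carrier → E → carrier
  rad_pos : ∀ e, 0 < rad e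
  tr_zero : ∀ e, tr e 0 = e
  pr_tr : ∀ e v, ‖v‖ < rad e → pr (tr e v) = pr e + v
  rad_tr : ∀ e v, ‖v‖ < rad e → rad e - ‖v‖ ≤ rad (tr e v)
  tr_tr : ∀ e v w, ‖v‖ < rad e → ‖w‖ < rad (tr e v) → ‖v + w‖ < rad e →
    tr (tr e v) w = tr e (v + w)
  inj : ∀ e e' v, pr e = pr e' → ‖v‖ < rad e → ‖v‖ < rad e' → tr e v = tr e' v → e = e'

namespace RD

section Top

variable {E : Type} [NormedAddCommGroup E]

instance (R : RD E) : TopologicalSpace R.carrier where
  IsOpen U := ∀ e ∈ U, ∃ r > 0, ∀ v, ‖v‖ < r → R.tr e v ∈ U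
  isOpen_univ := fun _ _ => ⟨1, one_pos, fun _ _ => mem_univ _⟩
  isOpen_inter := fun U V hU hV e he => by
    obtain ⟨r, hr, h⟩ := hU e he.1
    obtain ⟨s, hs, h'⟩ := hV e he.2
    exact ⟨min r s, lt_min hr hs, fun v hv =>
      ⟨h v (hv.trans_le (min_le_left _ _)), h' v (hv.trans_le (min_le_right _ _))⟩⟩
  isOpen_sUnion := fun S hS e ⟨U, hU, he⟩ => by
    obtain ⟨r, hr, h⟩ := hS U hU e he
    exact ⟨r, hr, fun v hv => ⟨U, hU, h v hv⟩⟩

/-- `e'` can be reached from `e` by finitely many admissible translations. -/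
def Reach (R : RD E) : R.carrier → R.carrier → Prop :=
  Relation.ReflTransGen (fun e e' => ∃ v, ‖v‖ < R.rad e ∧ e' = R.tr e v)

end Top

section Smooth

variable {E : Type} [NormedAddCommGroup E] [NormedSpace ℂ E]
variable {F : Type} [NormedAddCommGroup F] [NormedSpace ℝ F]

/-- smooth (real `C^∞`) functions on a subset of a Riemann domain -/
def Smooth (R : RD E) (g : R.carrier → F) (U : Set R.carrier) : Prop :=
  ∀ e ∈ U, ContDiffAt ℝ ∞ (fun v => g (R.tr e v)) 0

/-- holomorphic functions on a Riemann domain -/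
def Holo (R : RD E) (g : R.carrier → ℂ) : Prop :=
  ∀ e, DifferentiableOn ℂ (fun v => g (R.tr e v)) (ball 0 (R.rad e))

/-- the (complex) derivative `∂_w` in the direction `w` -/
noncomputable def dw (R : RD E) (w : E) (g : R.carrier → ℂ) (e : R.carrier) : ℂ :=
  (fderiv ℝ (fun v => g (R.tr e v)) 0 w - I * fderiv ℝ (fun v => g (R.tr e v)) 0 (I • w)) / 2

/-- the derivative `∂̄_w` in the direction `w` -/
noncomputable def dwb (R : RD E) (w : E) (g : R.carrier → ℂ) (e : R.carrier) : ℂ :=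
  (fderiv ℝ (fun v => g (R.tr e v)) 0 w + I * fderiv ℝ (fun v => g (R.tr e v)) 0 (I • w)) / 2

/-- the Levi form `∂_w ∂̄_w ρ` -/
noncomputable def levi (R : RD E) (w : E) (ρ : R.carrier → ℝ) (e : R.carrier) : ℝ :=
  (R.dw w (R.dwb w (fun e => (ρ e : ℂ))) e).re

end Smooth

theorem norm_fst {V : Type} [NormedAddCommGroup V] (ζ : ℂ) : ‖((ζ, 0) : ℂ × V)‖ = ‖ζ‖ := by
  simp [Prod.norm_def]

/-- The fibre `{e | (pr e).2 = p}` of a Riemann domain over `ℂ × V`, a Riemann surface spread over `ℂ`. -/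
noncomputable def Fib {V : Type} [NormedAddCommGroup V] (M : RD (ℂ × V)) (p : V) : RD ℂ where
  carrier := {e : M.carrier // (M.pr e).2 = p}
  pr e := (M.pr e.1).1
  rad e := M.rad e.1
  tr e ζ := by
    classical
    exact if h : ‖ζ‖ < M.rad e.1 then ⟨M.tr e.1 (ζ, 0), by
      rw [M.pr_tr e.1 (ζ, 0) (by rwa [norm_fst])]; simp [e.2]⟩ else e
  rad_pos e := M.rad_pos e.1
  tr_zero e := by
    have h : ‖(0 : ℂ)‖ < M.rad e.1 := by simpa using M.rad_pos e.1
    rw [dif_pos h]
    exact Subtype.ext (M.tr_zero e.1)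
  pr_tr e v hv := by
    rw [dif_pos hv]
    simp [M.pr_tr e.1 (v, 0) (by rwa [norm_fst])]
  rad_tr e v hv := by
    rw [dif_pos hv]
    have := M.rad_tr e.1 (v, 0) (by rwa [norm_fst])
    rwa [norm_fst] at this
  tr_tr e v w hv hw hvw := by
    simp only [dif_pos hv] at hw ⊢
    rw [dif_pos hw, dif_pos hvw]
    apply Subtype.ext
    have h0 := M.rad_pos e.1
    have := M.tr_tr e.1 (v, 0) (w, 0) (by rwa [norm_fst]) (by rwa [norm_fst])
      (by simpa using hvw)
    simpa using this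
  inj e e' v hp hv hv' h := by
    rw [dif_pos hv, dif_pos hv'] at h
    apply Subtype.ext
    refine M.inj e.1 e'.1 (v, 0) (Prod.ext hp (e.2.trans e'.2.symm)) ?_ ?_ (congrArg Subtype.val h)
    · rwa [norm_fst]
    · rwa [norm_fst]

/-! ### Surfaces -/

section Surface

/-- test functions on a surface spread over `ℂ` -/
def Test (R : RD ℂ) (g : R.carrier → ℂ) : Prop := R.Smooth g univ ∧ HasCompactSupport g

/-- `∂_z` -/
noncomputable def dz (R : RD ℂ) (g : R.carrier → ℂ) : R.carrier → ℂ := R.dw 1 g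

/-- `∂_z̄` -/
noncomputable def dzb (R : RD ℂ) (g : R.carrier → ℂ) : R.carrier → ℂ := R.dwb 1 g

/-- the integral of a (compactly supported) function over a surface spread over `ℂ` -/
noncomputable def sint {F : Type} [NormedAddCommGroup F] [NormedSpace ℝ F] (R : RD ℂ)
    (h : R.carrier → F) : F :=
  ∫ ζ : ℂ, ∑ᶠ (y : R.carrier) (_ : R.pr y = ζ), h y

/-- the weighted energy `∫ |∂_z̄ g|² e^φ` -/
noncomputable def En (R : RD ℂ) (φ : R.carrier → ℝ) (g : R.carrier → ℂ) : ℝ :=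
  R.sint (fun y => ‖R.dzb g y‖ ^ 2 * Real.exp (φ y))

end Surface

end RD

/-- a fixed smooth radial bump on `ℂ`, supported in `{1/2 < |ζ| < 1}` -/
noncomputable def bump0 : ContDiffBump (5 / 8 : ℝ) := ⟨1 / 8, 3 / 8, by norm_num, by norm_num⟩

/-- radial bump, before normalisation -/
noncomputable def chi0 (ζ : ℂ) : ℝ := bump0 (‖ζ‖ ^ 2)

/-- normalised radial bump: `χ ≥ 0`, smooth, radial, `∫ χ = 1`, supported in `{1/2 ≤ |ζ| ≤ 1}` -/
noncomputable def chi (ζ : ℂ) : ℝ := chi0 ζ / ∫ ξ : ℂ, chi0 ξ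

namespace RD

/-- the average of `g` against the bump of size `r` around `y₀` -/
noncomputable def ell (R : RD ℂ) (y₀ : R.carrier) (r : ℝ) (g : R.carrier → ℂ) : ℂ :=
  ∫ ζ : ℂ, (chi ζ : ℂ) * g (R.tr y₀ ((r : ℂ) * ζ))

/-- the set of the values `|ℓ(g)|²`, `g` test function supported in `X` of weighted energy `≤ 1` -/
def NSet (R : RD ℂ) (X : Set R.carrier) (φ : R.carrier → ℝ) (y₀ : R.carrier) (r : ℝ) : Set ℝ :=
  {t | ∃ g, R.Test g ∧ tsupport g ⊆ X ∧ R.En φ g ≤ 1 ∧ t = ‖R.ell y₀ r g‖ ^ 2}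

/-- the squared dual norm of `ℓ`, real version (used when bounded) -/
noncomputable def NR (R : RD ℂ) (X : Set R.carrier) (φ : R.carrier → ℝ) (y₀ : R.carrier)
    (r : ℝ) : ℝ := sSup (R.NSet X φ y₀ r)

/-- `c < N(e)`: the fibre through `e` carries a test function of energy `≤ 1` with `|ℓ(g)|² > c`. -/
def NLt {V : Type} [NormedAddCommGroup V] (M : RD (ℂ × V)) (r : ℝ) (e : M.carrier) (c : ℝ) : Prop :=
  ∃ t ∈ (M.Fib (M.pr e).2).NSet univ 0 ⟨e, rfl⟩ r, c < t

/-- the squared dual norm of the bump functional at `e` on the fibre of `M` through `e` -/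
noncomputable def NM {V : Type} [NormedAddCommGroup V] (M : RD (ℂ × V)) (r : ℝ)
    (e : M.carrier) : EReal :=
  ⨆ t ∈ (M.Fib (M.pr e).2).NSet univ 0 ⟨e, rfl⟩ r, (t : EReal)

end RD

end Pool.Agent.ParLeaf
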