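import Pool.Agent.H.MP_3a36cd_an.Wirt1

/-! MP_3a36cd_an, module Surf1: integration on surfaces spread over `ℂ`. -/

open Set Metric Filter Topology Complex MeasureTheory
open scoped ContDiff

namespace Pool.Agent.ParLeaf

namespace RD

theorem surf1_exists_lt {α : Type*} (t : Finset α) (f : α → ℝ) (hf : ∀ a ∈ t, 0 < f a) :
    ∃ η > 0, ∀ a ∈ t, η < f a := by
  classical
  induction t using Finset.induction with
  | empty => exact ⟨1, one_pos, by simp⟩
  | insert a t ha ih =>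
    obtain ⟨η, hη, h⟩ := ih fun b hb => hf b (Finset.mem_insert_of_mem hb)
    have ha' := hf a (Finset.mem_insert_self a t)
    refine ⟨min η (f a / 2), lt_min hη (by linarith), ?_⟩
    intro b hb
    rcases Finset.mem_insert.1 hb with rfl | hb
    · exact (min_le_right _ _).trans_lt (by linarith)
    · exact (min_le_left _ _).trans_lt (h b hb)

variable (R : RD ℂ)

theorem surf1_tendsto_tr (y : R.carrier) : Tendsto (R.tr y) (𝓝 0) (𝓝 y) := by
  rw [R.nhds_eq y]
  exact tendsto_map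

/-- local structure over a point of the plane, for a compact set -/
theorem local_sheets {K : Set R.carrier} (hK : IsCompact K) (ζ₀ : ℂ) :
    ∃ η > 0, ∃ s : Finset R.carrier, (∀ y ∈ s, R.pr y = ζ₀ ∧ η < R.rad y) ∧
      ∀ y ∈ K, ‖R.pr y - ζ₀‖ < η → ∃ y₀ ∈ s, y = R.tr y₀ (R.pr y - ζ₀) := by
  classical
  obtain ⟨t, -, ht⟩ := hK.elim_nhds_subcover
    (fun y => if R.pr y = ζ₀ then R.tr y '' ball 0 (R.rad y) else
      {x | ‖R.pr y - ζ₀‖ / 2 < ‖R.pr x - ζ₀‖}) (by
      intro y _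
      by_cases hy : R.pr y = ζ₀
      · simp only [hy, if_true]
        rw [R.nhds_eq y]
        exact image_mem_map (ball_mem_nhds 0 (R.rad_pos y))
      · simp only [hy, if_false]
        have hc : Continuous fun x => ‖R.pr x - ζ₀‖ := (R.continuous_pr.sub continuous_const).norm
        have hpos : 0 < ‖R.pr y - ζ₀‖ := norm_pos_iff.2 (sub_ne_zero.2 hy)
        exact (isOpen_lt continuous_const hc).mem_nhds (by
          show ‖R.pr y - ζ₀‖ / 2 < ‖R.pr y - ζ₀‖
          linarith))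
  obtain ⟨η, hη, hη'⟩ := surf1_exists_lt t
    (fun y => if R.pr y = ζ₀ then R.rad y else ‖R.pr y - ζ₀‖ / 2) (by
      intro y _
      by_cases hy : R.pr y = ζ₀
      · simp only [hy, if_true]
        exact R.rad_pos y
      · simp only [hy, if_false]
        have hpos : 0 < ‖R.pr y - ζ₀‖ := norm_pos_iff.2 (sub_ne_zero.2 hy)
        linarith)
  refine ⟨η, hη, t.filter (fun y => R.pr y = ζ₀), ?_, ?_⟩
  · intro y hy
    obtain ⟨hy1, hy2⟩ := Finset.mem_filter.1 hy
    refine ⟨hy2, ?_⟩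
    have := hη' y hy1
    simpa only [hy2, if_true] using this
  · intro y hy hlt
    obtain ⟨x, hx, hyx⟩ := mem_iUnion₂.1 (ht hy)
    by_cases hxζ : R.pr x = ζ₀
    · simp only [hxζ, if_true] at hyx
      obtain ⟨v, hv, rfl⟩ := hyx
      refine ⟨x, Finset.mem_filter.2 ⟨hx, hxζ⟩, ?_⟩
      rw [R.pr_tr x v (mem_ball_zero_iff.1 hv), hxζ, add_sub_cancel_left]
    · simp only [hxζ, if_false] at hyx
      have hyx := (show ‖R.pr x - ζ₀‖ / 2 < ‖R.pr y - ζ₀‖ from hyx)
      have := hη' x hx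
      simp only [hxζ, if_false] at this
      linarith

/-- push-forward of a compactly supported function to the plane -/
noncomputable def push {F : Type} [NormedAddCommGroup F] [NormedSpace ℝ F] (h : R.carrier → F)
    (ζ : ℂ) : F := ∑ᶠ (y : R.carrier) (_ : R.pr y = ζ), h y

/-- local description of the push-forward -/
theorem push_local {F : Type} [NormedAddCommGroup F] [NormedSpace ℝ F] {h : R.carrier → F}
    {η : ℝ} {s : Finset R.carrier} {ζ₀ : ℂ} (hs : ∀ y ∈ s, R.pr y = ζ₀ ∧ η < R.rad y)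
    (hs' : ∀ y, h y ≠ 0 → ‖R.pr y - ζ₀‖ < η → ∃ y₀ ∈ s, y = R.tr y₀ (R.pr y - ζ₀))
    {ζ : ℂ} (hζ : ‖ζ - ζ₀‖ < η) : R.push h ζ = ∑ y ∈ s, h (R.tr y (ζ - ζ₀)) := by
  classical
  have h1 : R.push h ζ = ∑ y ∈ s.image (fun y => R.tr y (ζ - ζ₀)), h y := by
    show ∑ᶠ (y : R.carrier) (_ : y ∈ {y | R.pr y = ζ}), h y = _
    apply finsum_mem_eq_sum_of_inter_support_eq
    ext y
    constructor
    · rintro ⟨hy, hy'⟩
      refine ⟨?_, hy'⟩
      have hy1 : R.pr y = ζ := hy
      obtain ⟨y₀, hy₀, hyy⟩ := hs' y hy' (by rw [hy1]; exact hζ)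
      rw [hy1] at hyy
      exact Finset.mem_coe.2 (Finset.mem_image.2 ⟨y₀, hy₀, hyy.symm⟩)
    · rintro ⟨hy, hy'⟩
      refine ⟨?_, hy'⟩
      obtain ⟨y₀, hy₀, rfl⟩ := Finset.mem_image.1 (Finset.mem_coe.1 hy)
      show R.pr (R.tr y₀ (ζ - ζ₀)) = ζ
      rw [R.pr_tr y₀ _ (hζ.trans (hs y₀ hy₀).2), (hs y₀ hy₀).1, add_sub_cancel]
  rw [h1, Finset.sum_image]
  intro y hy y' hy' hyy
  exact R.inj y y' (ζ - ζ₀) ((hs y hy).1.trans (hs y' hy').1.symm) (hζ.trans (hs y hy).2)
    (hζ.trans (hs y' hy').2) hyy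

theorem exists_push_local {F : Type} [NormedAddCommGroup F] [NormedSpace ℝ F] {h : R.carrier → F}
    (hs : HasCompactSupport h) (ζ₀ : ℂ) :
    ∃ η > 0, ∃ s : Finset R.carrier, (∀ y ∈ s, R.pr y = ζ₀ ∧ η < R.rad y) ∧
      ∀ ζ, ‖ζ - ζ₀‖ < η → R.push h ζ = ∑ y ∈ s, h (R.tr y (ζ - ζ₀)) := by
  obtain ⟨η, hη, s, h1, h2⟩ := R.local_sheets hs.isCompact ζ₀
  exact ⟨η, hη, s, h1, fun ζ hζ => R.push_local h1
    (fun y hy hlt => h2 y (subset_tsupport h hy) hlt) hζ⟩

theorem continuous_push {F : Type} [NormedAddCommGroup F] [NormedSpace ℝ F] {h : R.carrier → F}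
    (hc : Continuous h) (hs : HasCompactSupport h) : Continuous (R.push h) := by
  rw [continuous_iff_continuousAt]
  intro ζ₀
  obtain ⟨η, hη, s, h1, h2⟩ := R.exists_push_local hs ζ₀
  have hev : R.push h =ᶠ[𝓝 ζ₀] fun ζ => ∑ y ∈ s, h (R.tr y (ζ - ζ₀)) := by
    filter_upwards [ball_mem_nhds ζ₀ hη] with ζ hζ
    exact h2 ζ (mem_ball_iff_norm.1 hζ)
  rw [continuousAt_congr hev]
  apply tendsto_finsetSum
  intro y _
  have h3 : Tendsto (fun ζ : ℂ => ζ - ζ₀) (𝓝 ζ₀) (𝓝 0) := by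
    have : Tendsto (fun ζ : ℂ => ζ - ζ₀) (𝓝 ζ₀) (𝓝 (ζ₀ - ζ₀)) :=
      (continuous_id.sub continuous_const).continuousAt
    rwa [sub_self] at this
  have h4 : Tendsto (fun ζ : ℂ => R.tr y (ζ - ζ₀)) (𝓝 ζ₀) (𝓝 y) := (R.surf1_tendsto_tr y).comp h3
  rw [sub_self, R.tr_zero]
  exact (hc.tendsto y).comp h4

theorem hasCompactSupport_push {F : Type} [NormedAddCommGroup F] [NormedSpace ℝ F]
    {h : R.carrier → F} (hs : HasCompactSupport h) : HasCompactSupport (R.push h) := by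
  apply HasCompactSupport.intro (hs.isCompact.image R.continuous_pr)
  intro ζ hζ
  apply finsum_mem_eq_zero_of_forall_eq_zero
  intro y hy
  by_contra hne
  exact hζ ⟨y, subset_tsupport h hne, hy⟩

theorem sint_eq {F : Type} [NormedAddCommGroup F] [NormedSpace ℝ F] (h : R.carrier → F) :
    R.sint h = ∫ ζ : ℂ, R.push h ζ := rfl

theorem integrable_push {F : Type} [NormedAddCommGroup F] [NormedSpace ℝ F] {h : R.carrier → F}
    (hc : Continuous h) (hs : HasCompactSupport h) : Integrable (R.push h) :=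
  (R.continuous_push hc hs).integrable_of_hasCompactSupport (R.hasCompactSupport_push hs)

theorem finite_fibre {F : Type} [NormedAddCommGroup F] [NormedSpace ℝ F] {h : R.carrier → F}
    (hs : HasCompactSupport h) (ζ : ℂ) : ({y | R.pr y = ζ} ∩ Function.support h).Finite := by
  obtain ⟨η, hη, s, h1, h2⟩ := R.local_sheets hs.isCompact ζ
  apply s.finite_toSet.subset
  rintro y ⟨hy, hy'⟩
  have hy1 : R.pr y = ζ := hy
  obtain ⟨y₀, hy₀, hyy⟩ := h2 y (subset_tsupport h hy') (by rw [hy1, sub_self, norm_zero]; exact hη)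
  rw [hy1, sub_self, R.tr_zero] at hyy
  rw [hyy]
  exact hy₀

theorem push_add {F : Type} [NormedAddCommGroup F] [NormedSpace ℝ F] {h h' : R.carrier → F}
    (hs : HasCompactSupport h) (hs' : HasCompactSupport h') (ζ : ℂ) :
    R.push (fun y => h y + h' y) ζ = R.push h ζ + R.push h' ζ :=
  finsum_mem_add_distrib' (R.finite_fibre hs ζ) (R.finite_fibre hs' ζ)

theorem sint_add {F : Type} [NormedAddCommGroup F] [NormedSpace ℝ F] {h h' : R.carrier → F}
    (hc : Continuous h) (hs : HasCompactSupport h) (hc' : Continuous h')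
    (hs' : HasCompactSupport h') : R.sint (fun y => h y + h' y) = R.sint h + R.sint h' := by
  rw [sint_eq, sint_eq, sint_eq, ← integral_add (R.integrable_push hc hs)
    (R.integrable_push hc' hs')]
  exact integral_congr_ae (Eventually.of_forall fun ζ => R.push_add hs hs' ζ)

theorem sint_nonneg {h : R.carrier → ℝ} (h0 : ∀ y, 0 ≤ h y) : 0 ≤ R.sint h :=
  integral_nonneg fun _ => finsum_nonneg fun y => finsum_nonneg fun _ => h0 y

theorem sint_mono {h h' : R.carrier → ℝ} (hc : Continuous h) (hs : HasCompactSupport h)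
    (hc' : Continuous h') (hs' : HasCompactSupport h') (hle : ∀ y, h y ≤ h' y) :
    R.sint h ≤ R.sint h' := by
  have h1 := R.sint_add hc hs (hc'.sub hc) (hs'.sub hs)
  have h2 : R.sint (fun y => h y + (h' - h) y) = R.sint h' := by
    congr 1
    funext y
    simp
  rw [h2] at h1
  rw [h1]
  have := R.sint_nonneg (h := h' - h) fun y => sub_nonneg.2 (hle y)
  linarith

/-- functions supported in a disc -/
theorem sint_disc {F : Type} [NormedAddCommGroup F] [NormedSpace ℝ F] [CompleteSpace F]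
    {h : R.carrier → F} {y₀ : R.carrier} {r : ℝ} (hr : r ≤ R.rad y₀)
    (hs : ∀ y, h y ≠ 0 → ∃ ζ, ‖ζ‖ < r ∧ y = R.tr y₀ ζ) :
    R.sint h = ∫ ζ in ball (0 : ℂ) r, h (R.tr y₀ ζ) := by
  classical
  have h1 : ∀ ζ, R.push h ζ =
      (ball (0 : ℂ) r).indicator (fun ζ => h (R.tr y₀ ζ)) (ζ - R.pr y₀) := by
    intro ζ
    by_cases hζ : ‖ζ - R.pr y₀‖ < r
    · rw [indicator_of_mem (mem_ball_zero_iff.2 hζ)]
      have h2 : R.push h ζ = ∑ y ∈ {R.tr y₀ (ζ - R.pr y₀)}, h y := by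
        show ∑ᶠ (y : R.carrier) (_ : y ∈ {y | R.pr y = ζ}), h y = _
        apply finsum_mem_eq_sum_of_inter_support_eq
        ext y
        constructor
        · rintro ⟨hy, hy'⟩
          refine ⟨?_, hy'⟩
          have hy1 : R.pr y = ζ := hy
          obtain ⟨ξ, hξ, rfl⟩ := hs y hy'
          rw [R.pr_tr y₀ ξ (hξ.trans_le hr)] at hy1
          rw [← hy1]
          simp
        · rintro ⟨hy, hy'⟩
          refine ⟨?_, hy'⟩
          rw [Finset.coe_singleton, mem_singleton_iff] at hy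
          rw [hy]
          show R.pr (R.tr y₀ (ζ - R.pr y₀)) = ζ
          rw [R.pr_tr y₀ _ (hζ.trans_le hr), add_sub_cancel]
      rw [h2, Finset.sum_singleton]
    · rw [indicator_of_notMem (by rwa [mem_ball_zero_iff])]
      apply finsum_mem_eq_zero_of_forall_eq_zero
      intro y hy
      by_contra hne
      obtain ⟨ξ, hξ, rfl⟩ := hs y hne
      have hy1 : R.pr (R.tr y₀ ξ) = ζ := hy
      rw [R.pr_tr y₀ ξ (hξ.trans_le hr)] at hy1
      apply hζ
      rw [← hy1, add_sub_cancel_left]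
      exact hξ
  rw [sint_eq]
  simp_rw [h1]
  rw [integral_sub_right_eq_self (fun ζ => (ball (0 : ℂ) r).indicator
    (fun ζ => h (R.tr y₀ ζ)) ζ) (R.pr y₀), integral_indicator measurableSet_ball]

end RD

end Pool.Agent.ParLeaf
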