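import Pool.Agent.H.MP_3a36cd_an.Surf1

/-! MP_3a36cd_an, module Surf2: integration by parts and the energy inequality. -/

open Set Metric Filter Topology Complex MeasureTheory
open scoped ContDiff

namespace Pool.Agent.ParLeaf

namespace RD

variable (R : RD ℂ)

/-! ### the push-forward of a compactly supported function, locally -/

theorem surf2_push_eq_sum {F : Type} [NormedAddCommGroup F] [NormedSpace ℝ F] {K : Set R.carrier}
    {h : R.carrier → F} (hK : ∀ y, h y ≠ 0 → y ∈ K) {ζ₀ : ℂ} {η : ℝ} {s : Finset R.carrier}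
    (hs : ∀ y ∈ s, R.pr y = ζ₀ ∧ η < R.rad y)
    (hKs : ∀ y ∈ K, ‖R.pr y - ζ₀‖ < η → ∃ y₀ ∈ s, y = R.tr y₀ (R.pr y - ζ₀))
    {ζ : ℂ} (hζ : ‖ζ - ζ₀‖ < η) :
    R.push h ζ = ∑ y₀ ∈ s, h (R.tr y₀ (ζ - ζ₀)) := by
  classical
  have hinj : InjOn (fun y₀ => R.tr y₀ (ζ - ζ₀)) (s : Set R.carrier) := by
    intro a ha b hb hab
    exact R.inj a b (ζ - ζ₀) ((hs a ha).1.trans (hs b hb).1.symm) (hζ.trans (hs a ha).2)
      (hζ.trans (hs b hb).2) hab
  have h1 : R.push h ζ = ∑ y ∈ s.image (fun y₀ => R.tr y₀ (ζ - ζ₀)), h y := by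
    refine finsum_mem_eq_sum_of_inter_support_eq (s := {y | R.pr y = ζ}) h ?_
    ext y
    simp only [mem_inter_iff, Set.mem_ofPred_eq, Function.mem_support, Finset.coe_image, mem_image,
      Finset.mem_coe]
    constructor
    · rintro ⟨hy, hne⟩
      refine ⟨?_, hne⟩
      obtain ⟨y₀, hy₀, he⟩ := hKs y (hK y hne) (by rwa [hy])
      exact ⟨y₀, hy₀, by rw [← hy]; exact he.symm⟩
    · rintro ⟨⟨y₀, hy₀, rfl⟩, hne⟩
      refine ⟨?_, hne⟩
      rw [R.pr_tr y₀ _ (hζ.trans (hs y₀ hy₀).2), (hs y₀ hy₀).1]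
      ring
  rw [h1, Finset.sum_image hinj]

theorem surf2_eventuallyEq {F : Type} [Zero F] {g : R.carrier → F} {y : R.carrier}
    (hy : y ∉ tsupport g) : (fun v => g (R.tr y v)) =ᶠ[𝓝 0] fun _ => 0 := by
  have h1 : ∀ᶠ x in 𝓝 y, g x = 0 := by
    have := (isClosed_tsupport g).isOpen_compl.mem_nhds hy
    filter_upwards [this] with x hx using image_eq_zero_of_notMem_tsupport hx
  rw [R.nhds_eq, eventually_map] at h1
  exact h1

theorem surf2_dw_zero {g : R.carrier → ℂ} {y : R.carrier} (hy : y ∉ tsupport g) (w : ℂ) :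
    R.dw w g y = 0 := by
  have h := (R.surf2_eventuallyEq hy).fderiv_eq (𝕜 := ℝ)
  unfold RD.dw
  rw [h]
  simp

theorem surf2_dwb_zero {g : R.carrier → ℂ} {y : R.carrier} (hy : y ∉ tsupport g) (w : ℂ) :
    R.dwb w g y = 0 := by
  have h := (R.surf2_eventuallyEq hy).fderiv_eq (𝕜 := ℝ)
  unfold RD.dwb
  rw [h]
  simp

theorem surf2_push_eventuallyEq {g : R.carrier → ℂ} (hg : R.Test g) (ζ₀ : ℂ) :
    ∃ s : Finset R.carrier, (∀ h : R.carrier → ℂ, (∀ y, h y ≠ 0 → y ∈ tsupport g) →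
      R.push h =ᶠ[𝓝 ζ₀] fun ζ => ∑ y₀ ∈ s, h (R.tr y₀ (ζ - ζ₀))) := by
  obtain ⟨η, hη, s, hs, hK⟩ := R.local_sheets hg.2 ζ₀
  refine ⟨s, fun h hh => ?_⟩
  filter_upwards [ball_mem_nhds ζ₀ hη] with ζ hζ
  exact R.surf2_push_eq_sum hh hs hK (mem_ball_iff_norm.1 hζ)

theorem surf2_contDiff_push {g : R.carrier → ℂ} (hg : R.Test g) : ContDiff ℝ ∞ (R.push g) := by
  rw [contDiff_iff_contDiffAt]
  intro ζ₀
  obtain ⟨s, hs⟩ := R.surf2_push_eventuallyEq hg ζ₀
  refine ContDiffAt.congr_of_eventuallyEq ?_ (hs g fun y hy => subset_tsupport g hy)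
  refine ContDiffAt.sum fun y _ => ?_
  have h1 : ContDiffAt ℝ ∞ (fun v => g (R.tr y v)) (ζ₀ - ζ₀) := by
    rw [sub_self]
    exact hg.1 y (mem_univ y)
  exact h1.comp ζ₀ (f := fun ζ : ℂ => ζ - ζ₀) (by fun_prop)

theorem surf2_fderiv_push {g : R.carrier → ℂ} (hg : R.Test g) {ζ₀ : ℂ} {s : Finset R.carrier}
    (hs : R.push g =ᶠ[𝓝 ζ₀] fun ζ => ∑ y₀ ∈ s, g (R.tr y₀ (ζ - ζ₀))) :
    fderiv ℝ (R.push g) ζ₀ = ∑ y₀ ∈ s, fderiv ℝ (fun v => g (R.tr y₀ v)) 0 := by
  rw [hs.fderiv_eq]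
  have h1 : ∀ y : R.carrier, HasFDerivAt (fun ζ : ℂ => g (R.tr y (ζ - ζ₀)))
      (fderiv ℝ (fun v => g (R.tr y v)) 0) ζ₀ := by
    intro y
    have h2 : HasFDerivAt (fun v => g (R.tr y v)) (fderiv ℝ (fun v => g (R.tr y v)) 0) (ζ₀ - ζ₀) := by
      rw [sub_self]
      exact ((hg.1 y (mem_univ y)).differentiableAt (by simp)).hasFDerivAt
    have h3 : HasFDerivAt (fun ζ : ℂ => ζ - ζ₀) (ContinuousLinearMap.id ℝ ℂ) ζ₀ :=
      (hasFDerivAt_id ζ₀).sub_const ζ₀
    have h4 := h2.comp (f := fun ζ : ℂ => ζ - ζ₀) ζ₀ h3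
    rw [ContinuousLinearMap.comp_id] at h4
    exact h4
  exact (HasFDerivAt.fun_sum fun y _ => h1 y).fderiv

theorem surf2_push_dw {g : R.carrier → ℂ} (hg : R.Test g) (w : ℂ) (ζ₀ : ℂ) :
    R.push (R.dw w g) ζ₀ = pw w (R.push g) ζ₀ := by
  obtain ⟨s, hs⟩ := R.surf2_push_eventuallyEq hg ζ₀
  have h1 := (hs (R.dw w g) fun y hy => by
    by_contra hc
    exact hy (R.surf2_dw_zero hc w)).self_of_nhds
  rw [h1, pw, R.surf2_fderiv_push hg (hs g fun y hy => subset_tsupport g hy)]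
  simp only [sub_self, R.tr_zero, RD.dw, _root_.sum_apply]
  rw [← Finset.sum_div, Finset.sum_sub_distrib, Finset.mul_sum]

theorem surf2_push_dwb {g : R.carrier → ℂ} (hg : R.Test g) (w : ℂ) (ζ₀ : ℂ) :
    R.push (R.dwb w g) ζ₀ = pwb w (R.push g) ζ₀ := by
  obtain ⟨s, hs⟩ := R.surf2_push_eventuallyEq hg ζ₀
  have h1 := (hs (R.dwb w g) fun y hy => by
    by_contra hc
    exact hy (R.surf2_dwb_zero hc w)).self_of_nhds
  rw [h1, pwb, R.surf2_fderiv_push hg (hs g fun y hy => subset_tsupport g hy)]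
  simp only [sub_self, R.tr_zero, RD.dwb, _root_.sum_apply]
  rw [← Finset.sum_div, Finset.sum_add_distrib, Finset.mul_sum]

theorem surf2_integrable_fderiv {G : ℂ → ℂ} (hG : ContDiff ℝ ∞ G) (hs : HasCompactSupport G)
    (v : ℂ) : Integrable (fun x => fderiv ℝ G x v) ∧ ∫ x, fderiv ℝ G x v = 0 := by
  have hc : Continuous (fun x => fderiv ℝ G x v) := by
    have := hG.continuous_fderiv (by simp)
    fun_prop
  have hsup : HasCompactSupport (fun x => fderiv ℝ G x v) := by
    have h1 := hs.fderiv (𝕜 := ℝ)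
    exact h1.comp_left (g := fun L : ℂ →L[ℝ] ℂ => L v) (by simp)
  have hint : Integrable (fun x => fderiv ℝ G x v) := hc.integrable_of_hasCompactSupport hsup
  refine ⟨hint, ?_⟩
  have := integral_smul_fderiv_eq_neg_fderiv_smul_of_integrable (μ := (volume : Measure ℂ))
    (𝕜 := ℝ) (f := fun _ : ℂ => (1 : ℝ)) (g := G) (v := v) (by simp)
    (by simpa using hint) (by simpa using hG.continuous.integrable_of_hasCompactSupport hs)
    (fun x _ => by fun_prop) (fun x _ => (hG.differentiable (by simp)).differentiableAt)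
  simpa using this

/-- integration by parts -/
theorem sint_dz {g : R.carrier → ℂ} (hg : R.Test g) : R.sint (R.dz g) = 0 := by
  have h0 : R.sint (R.dz g) = ∫ ζ : ℂ, pw 1 (R.push g) ζ :=
    integral_congr_ae (ae_of_all _ fun ζ => R.surf2_push_dw hg 1 ζ)
  obtain ⟨h1, h2⟩ := surf2_integrable_fderiv (R.surf2_contDiff_push hg)
    (R.hasCompactSupport_push hg.2) 1
  obtain ⟨h3, h4⟩ := surf2_integrable_fderiv (R.surf2_contDiff_push hg)
    (R.hasCompactSupport_push hg.2) (I • 1)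
  rw [h0]
  unfold pw
  rw [integral_div, integral_sub h1 (h3.const_mul I), integral_const_mul, h2, h4]
  simp

theorem sint_dzb {g : R.carrier → ℂ} (hg : R.Test g) : R.sint (R.dzb g) = 0 := by
  have h0 : R.sint (R.dzb g) = ∫ ζ : ℂ, pwb 1 (R.push g) ζ :=
    integral_congr_ae (ae_of_all _ fun ζ => R.surf2_push_dwb hg 1 ζ)
  obtain ⟨h1, h2⟩ := surf2_integrable_fderiv (R.surf2_contDiff_push hg)
    (R.hasCompactSupport_push hg.2) 1
  obtain ⟨h3, h4⟩ := surf2_integrable_fderiv (R.surf2_contDiff_push hg)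
    (R.hasCompactSupport_push hg.2) (I • 1)
  rw [h0]
  unfold pwb
  rw [integral_div, integral_add h1 (h3.const_mul I), integral_const_mul, h2, h4]
  simp

/-! ### closure properties of smooth functions -/

theorem surf2_smooth_mul {g h : R.carrier → ℂ} {U : Set R.carrier} (hg : R.Smooth g U)
    (hh : R.Smooth h U) : R.Smooth (fun y => g y * h y) U :=
  fun e he => (hg e he).mul (hh e he)

theorem surf2_smooth_add {g h : R.carrier → ℂ} {U : Set R.carrier} (hg : R.Smooth g U)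
    (hh : R.Smooth h U) : R.Smooth (fun y => g y + h y) U :=
  fun e he => (hg e he).add (hh e he)

theorem surf2_smooth_neg {g : R.carrier → ℂ} {U : Set R.carrier} (hg : R.Smooth g U) :
    R.Smooth (fun y => - g y) U :=
  fun e he => (hg e he).neg

theorem surf2_smooth_conj {g : R.carrier → ℂ} {U : Set R.carrier} (hg : R.Smooth g U) :
    R.Smooth (fun y => (starRingEnd ℂ) (g y)) U :=
  fun e he => Complex.conjCLE.contDiff.contDiffAt.comp (0 : ℂ) (hg e he)

theorem surf2_smooth_ofReal {φ : R.carrier → ℝ} {U : Set R.carrier} (hφ : R.Smooth φ U) :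
    R.Smooth (fun y => (φ y : ℂ)) U :=
  fun e he => Complex.ofRealCLM.contDiff.contDiffAt.comp (0 : ℂ) (hφ e he)

theorem surf2_smooth_exp {g : R.carrier → ℂ} {U : Set R.carrier} (hg : R.Smooth g U) :
    R.Smooth (fun y => Complex.exp (g y)) U :=
  fun e he => (hg e he).cexp

theorem surf2_dw_add {g h : R.carrier → ℂ} {e : R.carrier} (hg : R.Smooth g {e})
    (hh : R.Smooth h {e}) (w : ℂ) :
    R.dw w (fun x => g x + h x) e = R.dw w g e + R.dw w h e := by
  have h1 := (hg e rfl).differentiableAt (by simp)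
  have h2 := (hh e rfl).differentiableAt (by simp)
  unfold RD.dw
  rw [fderiv_fun_add h1 h2]
  simp only [_root_.add_apply]
  ring

theorem surf2_dwb_add {g h : R.carrier → ℂ} {e : R.carrier} (hg : R.Smooth g {e})
    (hh : R.Smooth h {e}) (w : ℂ) :
    R.dwb w (fun x => g x + h x) e = R.dwb w g e + R.dwb w h e := by
  have h1 := (hg e rfl).differentiableAt (by simp)
  have h2 := (hh e rfl).differentiableAt (by simp)
  unfold RD.dwb
  rw [fderiv_fun_add h1 h2]
  simp only [_root_.add_apply]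
  ring

theorem surf2_dwb_neg {g : R.carrier → ℂ} {e : R.carrier} (w : ℂ) :
    R.dwb w (fun x => - g x) e = - R.dwb w g e := by
  unfold RD.dwb
  rw [fderiv_fun_neg]
  simp only [_root_.neg_apply]
  ring

theorem surf2_dw_exp {g : R.carrier → ℂ} {e : R.carrier} (hg : R.Smooth g {e}) (w : ℂ) :
    R.dw w (fun x => Complex.exp (g x)) e = Complex.exp (g e) * R.dw w g e := by
  have h1 := ((hg e rfl).differentiableAt (by simp)).hasFDerivAt.cexp
  unfold RD.dw
  rw [h1.fderiv]
  simp only [_root_.smul_apply, smul_eq_mul, R.tr_zero]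
  ring

theorem surf2_dwb_exp {g : R.carrier → ℂ} {e : R.carrier} (hg : R.Smooth g {e}) (w : ℂ) :
    R.dwb w (fun x => Complex.exp (g x)) e = Complex.exp (g e) * R.dwb w g e := by
  have h1 := ((hg e rfl).differentiableAt (by simp)).hasFDerivAt.cexp
  unfold RD.dwb
  rw [h1.fderiv]
  simp only [_root_.smul_apply, smul_eq_mul, R.tr_zero]
  ring

/-- extension by zero of smooth functions -/
theorem surf2_smooth_univ {X : Set R.carrier} {g h : R.carrier → ℂ} (hgX : tsupport g ⊆ X)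
    (hh : R.Smooth h X) (h0 : ∀ y, y ∉ tsupport g → h y = 0) : R.Smooth h univ := by
  intro y _
  by_cases hy : y ∈ tsupport g
  · exact hh y (hgX hy)
  · have h1 : (fun v => h (R.tr y v)) =ᶠ[𝓝 0] fun _ => 0 := by
      have h2 : ∀ᶠ x in 𝓝 y, h x = 0 := by
        filter_upwards [(isClosed_tsupport g).isOpen_compl.mem_nhds hy] with x hx using h0 x hx
      rw [R.nhds_eq, eventually_map] at h2
      exact h2
    exact contDiffAt_const.congr_of_eventuallyEq h1

theorem surf2_compact {F : Type} [Zero F] {g : R.carrier → ℂ} {h : R.carrier → F}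
    (hg : HasCompactSupport g) (h0 : ∀ y, y ∉ tsupport g → h y = 0) : HasCompactSupport h := by
  refine HasCompactSupport.of_support_subset_isCompact hg fun y hy => ?_
  by_contra hc
  exact hy (h0 y hc)

theorem surf2_continuous {F : Type} [TopologicalSpace F] [Zero F] {X : Set R.carrier}
    (hX : IsOpen X) {g : R.carrier → ℂ} {h : R.carrier → F} (hgX : tsupport g ⊆ X)
    (hh : ContinuousOn h X) (h0 : ∀ y, y ∉ tsupport g → h y = 0) : Continuous h := by
  rw [continuous_iff_continuousAt]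
  intro y
  by_cases hy : y ∈ tsupport g
  · exact hh.continuousAt (hX.mem_nhds (hgX hy))
  · have h1 : h =ᶠ[𝓝 y] fun _ => 0 := by
      filter_upwards [(isClosed_tsupport g).isOpen_compl.mem_nhds hy] with x hx using h0 x hx
    exact continuousAt_const.congr h1.symm

theorem surf2_mono {F : Type} [NormedAddCommGroup F] [NormedSpace ℝ F] {g : R.carrier → F}
    {U V : Set R.carrier} (hg : R.Smooth g U) (h : V ⊆ U) : R.Smooth g V :=
  fun e he => hg e (h he)

/-- the pointwise identity behind the energy inequality -/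
theorem surf2_identity {X : Set R.carrier} (hX : IsOpen X) {φ : R.carrier → ℝ}
    (hφ : R.Smooth φ X) {g : R.carrier → ℂ} (hg : R.Smooth g univ) {y : R.carrier} (hy : y ∈ X) :
    R.dz (fun y => (starRingEnd ℂ) (g y) * R.dzb g y * Complex.exp (φ y)) y +
      R.dzb (fun y => - ((starRingEnd ℂ) (g y) *
        (R.dz g y + R.dz (fun y => (φ y : ℂ)) y * g y) * Complex.exp (φ y))) y =
    ((‖R.dzb g y‖ ^ 2 * Real.exp (φ y) -
      ‖R.dz g y + R.dz (fun y => (φ y : ℂ)) y * g y‖ ^ 2 * Real.exp (φ y) -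
      ‖g y‖ ^ 2 * Real.exp (φ y) * R.levi 1 φ y : ℝ) : ℂ) := by
  have hyX : ({y} : Set R.carrier) ⊆ X := singleton_subset_iff.2 hy
  have hgX : R.Smooth g X := R.surf2_mono hg (subset_univ _)
  have hφc : R.Smooth (fun y => (φ y : ℂ)) X := R.surf2_smooth_ofReal hφ
  have s1 : R.Smooth (fun y => (starRingEnd ℂ) (g y)) X := R.surf2_smooth_conj hgX
  have s2 : R.Smooth (R.dw 1 g) X := Smooth.dw R hX hgX 1
  have s3 : R.Smooth (R.dwb 1 g) X := Smooth.dwb R hX hgX 1
  have s4 : R.Smooth (R.dw 1 (fun y => (φ y : ℂ))) X := Smooth.dw R hX hφc 1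
  have s5 : R.Smooth (fun y => Complex.exp (φ y)) X := R.surf2_smooth_exp hφc
  have s6 := R.surf2_smooth_mul s4 hgX
  have s7 := R.surf2_smooth_add s2 s6
  have s8 := R.surf2_smooth_mul s1 s3
  have s9 := R.surf2_smooth_mul s1 s7
  simp only [RD.dz, RD.dzb]
  rw [R.surf2_dwb_neg, R.dw_mul (R.surf2_mono s8 hyX) (R.surf2_mono s5 hyX),
    R.dw_mul (R.surf2_mono s1 hyX) (R.surf2_mono s3 hyX),
    R.dwb_mul (R.surf2_mono s9 hyX) (R.surf2_mono s5 hyX),
    R.dwb_mul (R.surf2_mono s1 hyX) (R.surf2_mono s7 hyX),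
    R.surf2_dwb_add (R.surf2_mono s2 hyX) (R.surf2_mono s6 hyX),
    R.dwb_mul (R.surf2_mono s4 hyX) (R.surf2_mono hgX hyX),
    R.surf2_dw_exp (R.surf2_mono hφc hyX), R.surf2_dwb_exp (R.surf2_mono hφc hyX),
    R.dw_conj, R.dwb_conj, R.dw_dwb_comm hX hgX hy, ← R.dw_dwb_comm hX hφc hy,
    R.levi_ofReal hX hφ hy]
  have hconj : R.dwb 1 (fun y => (φ y : ℂ)) y =
      (starRingEnd ℂ) (R.dw 1 (fun y => (φ y : ℂ)) y) := by
    rw [← R.dwb_conj]
    simp only [Complex.conj_ofReal]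
  rw [hconj]
  push_cast
  rw [← Complex.conj_mul', ← Complex.conj_mul', ← Complex.conj_mul']
  simp only [map_add, map_mul]
  ring

theorem surf2_push_ofReal {g : R.carrier → ℂ} (hg : R.Test g) {h : R.carrier → ℝ}
    (h0 : ∀ y, y ∉ tsupport g → h y = 0) :
    R.sint (fun y => (h y : ℂ)) = ((R.sint h : ℝ) : ℂ) := by
  have h1 : ∀ ζ, R.push (fun y => (h y : ℂ)) ζ = ((R.push h ζ : ℝ) : ℂ) := by
    intro ζ
    obtain ⟨η, hη, s, hs, hK⟩ := R.local_sheets hg.2 ζ
    rw [R.surf2_push_eq_sum (K := tsupport g) (h := fun y => (h y : ℂ)) (fun y hy => by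
        by_contra hc
        exact hy (by simp [h0 y hc])) hs hK (ζ := ζ) (by simpa using hη),
      R.surf2_push_eq_sum (K := tsupport g) (h := h) (fun y hy => by
        by_contra hc
        exact hy (h0 y hc)) hs hK (ζ := ζ) (by simpa using hη)]
    push_cast
    rfl
  have h2 : R.sint (fun y => (h y : ℂ)) = ∫ ζ : ℂ, ((R.push h ζ : ℝ) : ℂ) :=
    integral_congr_ae (ae_of_all _ fun ζ => h1 ζ)
  rw [h2, integral_complex_ofReal]
  rfl

/-- the basic energy inequality `∫ φ_{z z̄} |g|² e^φ ≤ ∫ |∂_z̄ g|² e^φ` -/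
theorem energy_ineq {X : Set R.carrier} (hX : IsOpen X) {φ : R.carrier → ℝ} (hφ : R.Smooth φ X)
    {g : R.carrier → ℂ} (hg : R.Test g) (hgX : tsupport g ⊆ X) :
    R.sint (fun y => ‖g y‖ ^ 2 * Real.exp (φ y) * R.levi 1 φ y) ≤ R.En φ g := by
  have hgs := hg.1
  have hgX' : R.Smooth g X := R.surf2_mono hgs (subset_univ _)
  have hφc : R.Smooth (fun y => (φ y : ℂ)) X := R.surf2_smooth_ofReal hφ
  have s1 : R.Smooth (fun y => (starRingEnd ℂ) (g y)) X := R.surf2_smooth_conj hgX'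
  have s2 : R.Smooth (R.dw 1 g) X := Smooth.dw R hX hgX' 1
  have s3 : R.Smooth (R.dwb 1 g) X := Smooth.dwb R hX hgX' 1
  have s4 : R.Smooth (R.dw 1 (fun y => (φ y : ℂ))) X := Smooth.dw R hX hφc 1
  have s5 : R.Smooth (fun y => Complex.exp (φ y)) X := R.surf2_smooth_exp hφc
  have s6 := R.surf2_smooth_mul s4 hgX'
  have s7 := R.surf2_smooth_add s2 s6
  have hg0 : ∀ y, y ∉ tsupport g → g y = 0 := fun y hy => image_eq_zero_of_notMem_tsupport hy
  -- the two test functions
  set G1 : R.carrier → ℂ := fun y => (starRingEnd ℂ) (g y) * R.dzb g y * Complex.exp (φ y) with hG1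
  set G2 : R.carrier → ℂ := fun y => - ((starRingEnd ℂ) (g y) *
        (R.dz g y + R.dz (fun y => (φ y : ℂ)) y * g y) * Complex.exp (φ y)) with hG2
  have z1 : ∀ y, y ∉ tsupport g → G1 y = 0 := fun y hy => by simp [hG1, hg0 y hy]
  have z2 : ∀ y, y ∉ tsupport g → G2 y = 0 := fun y hy => by simp [hG2, hg0 y hy]
  have T1 : R.Test G1 := ⟨R.surf2_smooth_univ hgX
    (R.surf2_smooth_mul (R.surf2_smooth_mul s1 s3) s5) z1, R.surf2_compact hg.2 z1⟩
  have T2 : R.Test G2 := ⟨R.surf2_smooth_univ hgX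
    (R.surf2_smooth_neg (R.surf2_smooth_mul (R.surf2_smooth_mul s1 s7) s5)) z2,
    R.surf2_compact hg.2 z2⟩
  have i1 := R.sint_dz T1
  have i2 := R.sint_dzb T2
  -- real functions
  set A : R.carrier → ℝ := fun y => ‖R.dzb g y‖ ^ 2 * Real.exp (φ y) with hA
  set B : R.carrier → ℝ := fun y =>
    ‖R.dz g y + R.dz (fun y => (φ y : ℂ)) y * g y‖ ^ 2 * Real.exp (φ y) with hB
  set C : R.carrier → ℝ := fun y => ‖g y‖ ^ 2 * Real.exp (φ y) * R.levi 1 φ y with hC
  have zd : ∀ y, y ∉ tsupport g → R.dz g y = 0 := fun y hy => R.surf2_dw_zero hy 1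
  have zdb : ∀ y, y ∉ tsupport g → R.dzb g y = 0 := fun y hy => R.surf2_dwb_zero hy 1
  have zA : ∀ y, y ∉ tsupport g → A y = 0 := fun y hy => by simp [hA, zdb y hy]
  have zB : ∀ y, y ∉ tsupport g → B y = 0 := fun y hy => by simp [hB, zd y hy, hg0 y hy]
  have zC : ∀ y, y ∉ tsupport g → C y = 0 := fun y hy => by simp [hC, hg0 y hy]
  have cφ : ContinuousOn φ X := Smooth.continuousOn R hX hφ
  have cg : ContinuousOn g X := Smooth.continuousOn R hX hgX'
  have c2 : ContinuousOn (R.dw 1 g) X := Smooth.continuousOn R hX s2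
  have c3 : ContinuousOn (R.dwb 1 g) X := Smooth.continuousOn R hX s3
  have c4 : ContinuousOn (R.dw 1 (fun y => (φ y : ℂ))) X := Smooth.continuousOn R hX s4
  have c5 : ContinuousOn (fun y => R.levi 1 φ y) X := by
    have h1 : R.Smooth (R.dwb 1 (fun y => (φ y : ℂ))) X := Smooth.dwb R hX hφc 1
    have h2 : R.Smooth (R.dw 1 (R.dwb 1 (fun y => (φ y : ℂ)))) X := Smooth.dw R hX h1 1
    exact Complex.continuous_re.comp_continuousOn (Smooth.continuousOn R hX h2)
  have cE : ContinuousOn (fun y => Real.exp (φ y)) X := Real.continuous_exp.comp_continuousOn cφ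
  have cA : Continuous A := R.surf2_continuous hX hgX ((c3.norm.pow 2).mul cE) zA
  have cB : Continuous B := R.surf2_continuous hX hgX
    (((c2.add (c4.mul cg)).norm.pow 2).mul cE) zB
  have cC : Continuous C := R.surf2_continuous hX hgX (((cg.norm.pow 2).mul cE).mul c5) zC
  have kA : HasCompactSupport A := R.surf2_compact hg.2 zA
  have kB : HasCompactSupport B := R.surf2_compact hg.2 zB
  have kC : HasCompactSupport C := R.surf2_compact hg.2 zC
  -- the identity
  have hid : ∀ y, R.dz G1 y + R.dzb G2 y = ((A y - B y - C y : ℝ) : ℂ) := by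
    intro y
    by_cases hy : y ∈ tsupport g
    · exact R.surf2_identity hX hφ hgs (hgX hy)
    · have t1 : y ∉ tsupport G1 := fun h => hy (by
        have : tsupport G1 ⊆ tsupport g := closure_minimal (fun x hx => by
          by_contra hc
          exact hx (z1 x hc)) (isClosed_tsupport g)
        exact this h)
      have t2 : y ∉ tsupport G2 := fun h => hy (by
        have : tsupport G2 ⊆ tsupport g := closure_minimal (fun x hx => by
          by_contra hc
          exact hx (z2 x hc)) (isClosed_tsupport g)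
        exact this h)
      rw [zA y hy, zB y hy, zC y hy]
      have e1 : R.dz G1 y = 0 := R.surf2_dw_zero t1 1
      have e2 : R.dzb G2 y = 0 := R.surf2_dwb_zero t2 1
      rw [e1, e2]
      simp
  have d1 : R.Smooth (R.dz G1) univ := Smooth.dw R isOpen_univ T1.1 1
  have d2 : R.Smooth (R.dzb G2) univ := Smooth.dwb R isOpen_univ T2.1 1
  have cd1 : Continuous (R.dz G1) := by
    rw [← continuousOn_univ]
    exact Smooth.continuousOn R isOpen_univ d1
  have cd2 : Continuous (R.dzb G2) := by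
    rw [← continuousOn_univ]
    exact Smooth.continuousOn R isOpen_univ d2
  have kd1 : HasCompactSupport (R.dz G1) := R.surf2_compact T1.2 fun y hy => R.surf2_dw_zero hy 1
  have kd2 : HasCompactSupport (R.dzb G2) := R.surf2_compact T2.2 fun y hy => R.surf2_dwb_zero hy 1
  have hsum : R.sint (fun y => R.dz G1 y + R.dzb G2 y) = 0 := by
    rw [R.sint_add cd1 kd1 cd2 kd2, i1, i2, add_zero]
  have hzero : R.sint (fun y => A y - B y - C y) = 0 := by
    have h1 : R.sint (fun y => ((A y - B y - C y : ℝ) : ℂ)) = 0 := by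
      rw [← hsum]
      congr 1
      funext y
      exact (hid y).symm
    rw [R.surf2_push_ofReal hg (fun y hy => by rw [zA y hy, zB y hy, zC y hy]; simp)] at h1
    exact_mod_cast h1
  have hAB : R.sint (fun y => A y - B y - C y + C y) = R.sint (fun y => A y - B y - C y) +
      R.sint C := by
    refine R.sint_add ((cA.sub cB).sub cC) ?_ cC kC
    exact R.surf2_compact hg.2 fun y hy => by simp [zA y hy, zB y hy, zC y hy]
  have hle : R.sint (fun y => A y - B y - C y + C y) ≤ R.sint A := by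
    refine R.sint_mono (((cA.sub cB).sub cC).add cC) ?_ cA kA ?_
    · exact R.surf2_compact hg.2 fun y hy => by simp [zA y hy, zB y hy, zC y hy]
    · intro y
      have : 0 ≤ B y := by positivity
      linarith
  rw [hzero, zero_add] at hAB
  rw [hAB] at hle
  exact hle

end RD

end Pool.Agent.ParLeaf
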