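import Pool.Agent.H.MP_3a36cd_an.Surf1

/-! MP_3a36cd_an, module Transport: moving test functions between fibres. -/

open Set Metric Filter Topology Complex MeasureTheory
open scoped ContDiff

namespace Pool.Agent.ParLeaf

namespace RD

theorem transport_chi_zero {ζ : ℂ} (h : 1 ≤ ‖ζ‖) : chi ζ = 0 := by
  unfold chi chi0
  have : bump0 (‖ζ‖ ^ 2) = 0 := by
    apply ContDiffBump.zero_of_le_dist
    have h1 : (1:ℝ) ≤ ‖ζ‖ ^ 2 := by nlinarith
    rw [Real.dist_eq]
    have : (3/8 : ℝ) ≤ ‖ζ‖ ^ 2 - 5/8 := by linarith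
    exact this.trans (le_abs_self _)
  rw [this]; simp

/-- an isomorphism between open subsets of two surfaces spread over `ℂ`, compatible with the
projections up to a translation -/
structure TransportIso (R₁ R₂ : RD ℂ) where
  T : R₁.carrier → R₂.carrier
  S : R₂.carrier → R₁.carrier
  X₁ : Set R₁.carrier
  X₂ : Set R₂.carrier
  c : ℂ
  open₁ : IsOpen X₁
  open₂ : IsOpen X₂
  mapT : ∀ y ∈ X₁, T y ∈ X₂
  mapS : ∀ z ∈ X₂, S z ∈ X₁
  ST : ∀ y ∈ X₁, S (T y) = y
  TS : ∀ z ∈ X₂, T (S z) = z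
  prT : ∀ y ∈ X₁, R₂.pr (T y) = R₁.pr y + c
  trT : ∀ y ∈ X₁, ∀ᶠ ζ in 𝓝 (0:ℂ), T (R₁.tr y ζ) = R₂.tr (T y) ζ
  trS : ∀ z ∈ X₂, ∀ᶠ ζ in 𝓝 (0:ℂ), S (R₂.tr z ζ) = R₁.tr (S z) ζ

/-- the inverse isomorphism -/
def TransportIso.symm {R₁ R₂ : RD ℂ} (J : TransportIso R₁ R₂) : TransportIso R₂ R₁ where
  T := J.S
  S := J.T
  X₁ := J.X₂
  X₂ := J.X₁
  c := -J.c
  open₁ := J.open₂
  open₂ := J.open₁
  mapT := J.mapS
  mapS := J.mapT
  ST := J.TS
  TS := J.ST
  prT := fun z hz => by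
    have := J.prT (J.S z) (J.mapS z hz)
    rw [J.TS z hz] at this
    rw [this]; ring
  trT := J.trS
  trS := J.trT

theorem transport_continuousAt {R₁ R₂ : RD ℂ} (J : TransportIso R₁ R₂) {y : R₁.carrier}
    (hy : y ∈ J.X₁) : ContinuousAt J.T y := by
  unfold ContinuousAt
  rw [R₁.nhds_eq y, tendsto_map'_iff]
  have h : Tendsto (R₂.tr (J.T y)) (𝓝 0) (𝓝 (J.T y)) := by
    rw [R₂.nhds_eq (J.T y)]; exact tendsto_map
  refine h.congr' ?_
  filter_upwards [J.trT y hy] with ζ hζ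
  exact hζ.symm

theorem transport_eventually_mem {R : RD ℂ} {X : Set R.carrier} (hX : IsOpen X) {y : R.carrier}
    (hy : y ∈ X) : ∀ᶠ ζ in 𝓝 (0:ℂ), R.tr y ζ ∈ X := by
  have : X ∈ 𝓝 y := hX.mem_nhds hy
  rw [R.nhds_eq y] at this
  exact this

theorem transport_sub {R₁ R₂ : RD ℂ} (J : TransportIso R₁ R₂) {φ₁ : R₁.carrier → ℝ}
    {φ₂ : R₂.carrier → ℝ} (hφ : ∀ z ∈ J.X₂, φ₂ z = φ₁ (J.S z)) {y₀ : R₁.carrier}
    {z₀ : R₂.carrier} {r : ℝ} (hr : 0 < r)
    (hell : ∀ ζ : ℂ, ‖ζ‖ < r → (R₁.tr y₀ ζ ∈ J.X₁ ∧ R₂.tr z₀ ζ = J.T (R₁.tr y₀ ζ)) ∨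
      (R₁.tr y₀ ζ ∉ J.X₁ ∧ R₂.tr z₀ ζ ∉ J.X₂)) :
    R₁.NSet J.X₁ φ₁ y₀ r ⊆ R₂.NSet J.X₂ φ₂ z₀ r := by
  classical
  rintro t ⟨g, ⟨hgs, hgc⟩, hgX, hgE, rfl⟩
  set K₂ : Set R₂.carrier := J.T '' tsupport g with hK₂
  have hK₂c : IsCompact K₂ := hgc.isCompact.image_of_continuousOn
    (fun y hy => (transport_continuousAt J (hgX hy)).continuousWithinAt)
  have hK₂cl : IsClosed K₂ := hK₂c.isClosed
  have hK₂X : K₂ ⊆ J.X₂ := by
    rintro _ ⟨y, hy, rfl⟩
    exact J.mapT y (hgX hy)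
  set g' : R₂.carrier → ℂ := J.X₂.indicator (fun z => g (J.S z)) with hg'
  have hg'0 : ∀ z, z ∉ K₂ → g' z = 0 := by
    intro z hz
    by_cases hz2 : z ∈ J.X₂
    · rw [hg', indicator_of_mem hz2]
      by_contra hne
      exact hz ⟨J.S z, subset_tsupport _ hne, J.TS z hz2⟩
    · rw [hg', indicator_of_notMem hz2]
  have hg'1 : ∀ y ∈ J.X₁, g' (J.T y) = g y := by
    intro y hy
    rw [hg', indicator_of_mem (J.mapT y hy), J.ST y hy]
  have hts : tsupport g' ⊆ K₂ := by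
    apply closure_minimal _ hK₂cl
    intro z hz
    by_contra hne
    exact hz (hg'0 z hne)
  -- local form
  have hloc : ∀ z ∈ J.X₂, (fun ζ => g' (R₂.tr z ζ)) =ᶠ[𝓝 0] fun ζ => g (R₁.tr (J.S z) ζ) := by
    intro z hz
    filter_upwards [J.trS z hz, transport_eventually_mem J.open₂ hz] with ζ h1 h2
    rw [hg', indicator_of_mem h2, h1]
  have hloc0 : ∀ z, z ∉ K₂ → (fun ζ => g' (R₂.tr z ζ)) =ᶠ[𝓝 0] fun _ => (0:ℂ) := by
    intro z hz
    filter_upwards [transport_eventually_mem hK₂cl.isOpen_compl (show z ∈ K₂ᶜ from hz)] with ζ h1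
    exact hg'0 _ h1
  have hdz : ∀ z ∈ J.X₂, R₂.dzb g' z = R₁.dzb g (J.S z) := by
    intro z hz
    unfold dzb dwb
    rw [(hloc z hz).fderiv_eq]
  have hdz0 : ∀ z, z ∉ K₂ → R₂.dzb g' z = 0 := by
    intro z hz
    unfold dzb dwb
    rw [(hloc0 z hz).fderiv_eq]
    simp
  have hdz1 : ∀ y, y ∉ tsupport g → R₁.dzb g y = 0 := by
    intro y hy
    have : (fun ζ => g (R₁.tr y ζ)) =ᶠ[𝓝 0] fun _ => (0:ℂ) := by
      filter_upwards [transport_eventually_mem (isClosed_tsupport g).isOpen_compl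
        (show y ∈ (tsupport g)ᶜ from hy)] with ζ h1
      exact image_eq_zero_of_notMem_tsupport h1
    unfold dzb dwb
    rw [this.fderiv_eq]
    simp
  have hsm : R₂.Smooth g' univ := by
    intro z _
    by_cases hz : z ∈ J.X₂
    · exact (hgs (J.S z) (mem_univ _)).congr_of_eventuallyEq (hloc z hz)
    · have hz' : z ∉ K₂ := fun h => hz (hK₂X h)
      exact contDiffAt_const.congr_of_eventuallyEq (hloc0 z hz')
  have hcs : HasCompactSupport g' := HasCompactSupport.intro hK₂c hg'0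
  have hEn : R₂.En φ₂ g' = R₁.En φ₁ g := by
    unfold En sint
    rw [← integral_add_right_eq_self _ J.c]
    refine integral_congr_ae (Eventually.of_forall fun ζ => ?_)
    simp only
    have e1 : ∑ᶠ (z : R₂.carrier) (_ : R₂.pr z = ζ + J.c),
        ‖R₂.dzb g' z‖ ^ 2 * Real.exp (φ₂ z) =
        ∑ᶠ (z : R₂.carrier) (_ : z ∈ {z | z ∈ J.X₂ ∧ R₂.pr z = ζ + J.c}),
        ‖R₂.dzb g' z‖ ^ 2 * Real.exp (φ₂ z) := by
      refine finsum_mem_inter_support_eq _ {z | R₂.pr z = ζ + J.c} _ ?_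
      ext z
      simp only [mem_inter_iff, mem_ofPred_eq, Function.mem_support, ne_eq]
      constructor
      · rintro ⟨h1, h2⟩
        refine ⟨⟨?_, h1⟩, h2⟩
        by_contra h3
        apply h2
        rw [hdz0 z (fun h => h3 (hK₂X h))]
        simp
      · rintro ⟨⟨_, h1⟩, h2⟩
        exact ⟨h1, h2⟩
    have e2 : ∑ᶠ (y : R₁.carrier) (_ : R₁.pr y = ζ),
        ‖R₁.dzb g y‖ ^ 2 * Real.exp (φ₁ y) =
        ∑ᶠ (y : R₁.carrier) (_ : y ∈ {y | y ∈ J.X₁ ∧ R₁.pr y = ζ}),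
        ‖R₁.dzb g y‖ ^ 2 * Real.exp (φ₁ y) := by
      refine finsum_mem_inter_support_eq _ {z | R₁.pr z = ζ} _ ?_
      ext z
      simp only [mem_inter_iff, mem_ofPred_eq, Function.mem_support, ne_eq]
      constructor
      · rintro ⟨h1, h2⟩
        refine ⟨⟨?_, h1⟩, h2⟩
        by_contra h3
        apply h2
        rw [hdz1 z (fun h => h3 (hgX h))]
        simp
      · rintro ⟨⟨_, h1⟩, h2⟩
        exact ⟨h1, h2⟩
    rw [e1, e2]
    symm
    refine finsum_mem_eq_of_bijOn J.T ⟨?_, ?_, ?_⟩ ?_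
    · rintro y ⟨hy, hp⟩
      refine ⟨J.mapT y hy, ?_⟩
      rw [J.prT y hy, hp]
    · rintro y ⟨hy, _⟩ y' ⟨hy', _⟩ hh
      have := congrArg J.S hh
      rwa [J.ST y hy, J.ST y' hy'] at this
    · rintro z ⟨hz, hp⟩
      refine ⟨J.S z, ⟨J.mapS z hz, ?_⟩, J.TS z hz⟩
      have := J.prT (J.S z) (J.mapS z hz)
      rw [J.TS z hz, hp] at this
      exact (add_right_cancel this).symm
    · rintro y ⟨hy, _⟩
      rw [hdz _ (J.mapT y hy), hφ _ (J.mapT y hy), J.ST y hy]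
  have hl : R₂.ell z₀ r g' = R₁.ell y₀ r g := by
    unfold ell
    refine integral_congr_ae (Eventually.of_forall fun ζ => ?_)
    simp only
    by_cases h1 : ‖ζ‖ < 1
    · have h2 : ‖(r:ℂ) * ζ‖ < r := by
        rw [norm_mul, Complex.norm_real, Real.norm_of_nonneg hr.le]
        nlinarith
      congr 1
      rcases hell _ h2 with ⟨h3, h4⟩ | ⟨h3, h4⟩
      · rw [h4, hg'1 _ h3]
      · rw [hg', indicator_of_notMem h4]
        by_contra hne
        exact h3 (hgX (subset_tsupport _ (Ne.symm hne)))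
    · rw [transport_chi_zero (not_lt.mp h1)]
      simp
  exact ⟨g', ⟨hsm, hcs⟩, hts.trans hK₂X, hEn.le.trans hgE, by rw [hl]⟩

theorem transport_eq {R₁ R₂ : RD ℂ} (J : TransportIso R₁ R₂) {φ₁ : R₁.carrier → ℝ}
    {φ₂ : R₂.carrier → ℝ} (hφ : ∀ y ∈ J.X₁, φ₂ (J.T y) = φ₁ y) {y₀ : R₁.carrier}
    {z₀ : R₂.carrier} {r : ℝ} (hr : 0 < r)
    (hell : ∀ ζ : ℂ, ‖ζ‖ < r → (R₁.tr y₀ ζ ∈ J.X₁ ∧ R₂.tr z₀ ζ = J.T (R₁.tr y₀ ζ)) ∨
      (R₁.tr y₀ ζ ∉ J.X₁ ∧ R₂.tr z₀ ζ ∉ J.X₂)) :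
    R₂.NSet J.X₂ φ₂ z₀ r = R₁.NSet J.X₁ φ₁ y₀ r := by
  apply Subset.antisymm
  · refine transport_sub J.symm (φ₁ := φ₂) (φ₂ := φ₁) (fun y hy => (hφ y hy).symm) hr ?_
    intro ζ hζ
    rcases hell ζ hζ with ⟨h1, h2⟩ | ⟨h1, h2⟩
    · left
      refine ⟨?_, ?_⟩
      · rw [h2]; exact J.mapT _ h1
      · rw [h2]; exact (J.ST _ h1).symm
    · exact Or.inr ⟨h2, h1⟩
  · refine transport_sub J (fun z hz => ?_) hr hell
    rw [← hφ _ (J.mapS z hz), J.TS z hz]


theorem transport_tr_comm {E : Type} [NormedAddCommGroup E] (R : RD E) {y : R.carrier} {v w : E}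
    (h : ‖v‖ + ‖w‖ < R.rad y) : R.tr (R.tr y v) w = R.tr (R.tr y w) v := by
  have hv : ‖v‖ < R.rad y := by have := norm_nonneg w; linarith
  have hw : ‖w‖ < R.rad y := by have := norm_nonneg v; linarith
  have h1 := R.rad_tr y v hv
  have h2 := R.rad_tr y w hw
  have h3 : ‖v + w‖ < R.rad y := (norm_add_le _ _).trans_lt h
  rw [R.tr_tr y v w hv (by linarith) h3, R.tr_tr y w v hw (by linarith) (by rwa [add_comm]),
    add_comm]

section
set_option linter.unusedSectionVars false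

variable {V : Type} [NormedAddCommGroup V] [NormedSpace ℂ V] [FiniteDimensional ℂ V]

/-- the set of values on the fibre through `e`, for test functions supported in `X` -/
def NSetM (M : RD (ℂ × V)) (X : Set M.carrier) (φ : M.carrier → ℝ) (r : ℝ) (e : M.carrier) :
    Set ℝ :=
  (M.Fib (M.pr e).2).NSet (Subtype.val ⁻¹' X) (fun y => φ y.1) ⟨e, rfl⟩ r

theorem transport_snd_tr (M : RD (ℂ × V)) {y : M.carrier} {v : ℂ × V} (h : ‖v‖ < M.rad y) :
    (M.pr (M.tr y v)).2 = (M.pr y).2 + v.2 := by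
  rw [M.pr_tr y v h]; rfl

theorem transport_injOn (M : RD (ℂ × V)) (v : ℂ × V) {y y' : M.carrier} (h : ‖v‖ < M.rad y)
    (h' : ‖v‖ < M.rad y') (hh : M.tr y v = M.tr y' v) : y = y' := by
  refine M.inj y y' v ?_ h h' hh
  have h1 := M.pr_tr y v h
  have h2 := M.pr_tr y' v h'
  rw [hh, h2] at h1
  exact (add_right_cancel h1).symm

theorem transport_open (M : RD (ℂ × V)) (v : ℂ × V) {X : Set M.carrier} (hX : IsOpen X)
    (hXv : ∀ y ∈ X, ‖v‖ < M.rad y) : IsOpen ((fun y => M.tr y v) '' X) := by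
  rw [RD.isOpen_iff]
  rintro _ ⟨y, hy, rfl⟩
  obtain ⟨s, hs, hs'⟩ := (RD.isOpen_iff M).1 hX y hy
  refine ⟨min s (M.rad y - ‖v‖), lt_min hs (by linarith [hXv y hy]), fun w hw => ?_⟩
  refine ⟨M.tr y w, hs' w (hw.trans_le (min_le_left _ _)), ?_⟩
  have := hw.trans_le (min_le_right _ _)
  exact (transport_tr_comm M (by linarith)).symm

open Classical in
/-- translation of a fibre -/
noncomputable def transportT (M : RD (ℂ × V)) (v : ℂ × V) {p p' : V} (hp : p' = p + v.2)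
    (d : (M.Fib p').carrier) (y : (M.Fib p).carrier) : (M.Fib p').carrier :=
  if h : ‖v‖ < M.rad y.1 then ⟨M.tr y.1 v, (transport_snd_tr M h).trans
    ((congrArg (· + v.2) y.2).trans hp.symm)⟩ else d

theorem transportT_val (M : RD (ℂ × V)) (v : ℂ × V) {p p' : V} (hp : p' = p + v.2)
    (d : (M.Fib p').carrier) (y : (M.Fib p).carrier) (h : ‖v‖ < M.rad y.1) :
    (transportT M v hp d y).1 = M.tr y.1 v :=
  congrArg Subtype.val (dif_pos h)

open Classical in
/-- inverse translation of a fibre -/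
noncomputable def transportS (M : RD (ℂ × V)) (v : ℂ × V) {p p' : V} (hp : p' = p + v.2)
    (X : Set M.carrier) (hXv : ∀ y ∈ X, ‖v‖ < M.rad y)
    (d : (M.Fib p).carrier) (z : (M.Fib p').carrier) : (M.Fib p).carrier :=
  if h : ∃ y ∈ X, M.tr y v = z.1 then ⟨h.choose, by
    have h1 := transport_snd_tr M (hXv _ h.choose_spec.1)
    have h2 : (M.pr (M.tr h.choose v)).2 = p' :=
      (congrArg (fun x => (M.pr x).2) h.choose_spec.2).trans z.2
    exact add_right_cancel ((h1.symm.trans h2).trans hp)⟩ else d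

theorem transportS_spec (M : RD (ℂ × V)) (v : ℂ × V) {p p' : V} (hp : p' = p + v.2)
    (X : Set M.carrier) (hXv : ∀ y ∈ X, ‖v‖ < M.rad y)
    (d : (M.Fib p).carrier) (z : (M.Fib p').carrier) (h : ∃ y ∈ X, M.tr y v = z.1) :
    (transportS M v hp X hXv d z).1 ∈ X ∧ M.tr (transportS M v hp X hXv d z).1 v = z.1 := by
  have : (transportS M v hp X hXv d z).1 = h.choose := congrArg Subtype.val (dif_pos h)
  rw [this]
  exact h.choose_spec

theorem transport_small {a : ℝ} (ha : 0 < a) : ∀ᶠ ζ in 𝓝 (0:ℂ), ‖ζ‖ < a := by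
  have : Tendsto (fun ζ : ℂ => ‖ζ‖) (𝓝 0) (𝓝 0) := by
    simpa using (continuous_norm (E := ℂ)).tendsto 0
  exact this.eventually (gt_mem_nhds ha)

/-- the isomorphism of fibres given by a translation -/
noncomputable def transportFib (M : RD (ℂ × V)) (v : ℂ × V) {p p' : V} (hp : p' = p + v.2)
    (d : (M.Fib p).carrier) (d' : (M.Fib p').carrier)
    {X : Set M.carrier} (hX : IsOpen X) (hXv : ∀ y ∈ X, ‖v‖ < M.rad y) :
    TransportIso (M.Fib p) (M.Fib p') where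
  T := transportT M v hp d'
  S := transportS M v hp X hXv d
  X₁ := (fun y : (M.Fib p).carrier => (y.1 : M.carrier)) ⁻¹' X
  X₂ := (fun y : (M.Fib p').carrier => (y.1 : M.carrier)) ⁻¹' ((fun y => M.tr y v) '' X)
  c := v.1
  open₁ := hX.preimage (isClosedEmbedding_val M _).continuous
  open₂ := (transport_open M v hX hXv).preimage (isClosedEmbedding_val M _).continuous
  mapT y hy := by
    change (transportT M v hp d' y).1 ∈ ((fun y => M.tr y v) '' X)
    rw [transportT_val M v hp d' y (hXv _ hy)]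
    exact ⟨y.1, hy, rfl⟩
  mapS z hz := (transportS_spec M v _ X hXv _ z hz).1
  ST y hy := by
    have h1 : ‖v‖ < M.rad y.1 := hXv _ hy
    have h0 := transportT_val M v hp d' y h1
    have h2 := transportS_spec M v hp X hXv d (transportT M v hp d' y) ⟨y.1, hy, h0.symm⟩
    apply Subtype.ext
    exact transport_injOn M v (hXv _ h2.1) h1 (h2.2.trans h0)
  TS z hz := by
    have h2 := transportS_spec M v hp X hXv d z hz
    apply Subtype.ext
    exact (transportT_val M v _ _ _ (hXv _ h2.1)).trans h2.2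
  prT y hy := by
    change (M.pr (transportT M v hp d' y).1).1 = (M.pr y.1).1 + v.1
    rw [transportT_val M v hp d' y (hXv _ hy), M.pr_tr _ _ (hXv _ hy)]; rfl
  trT y hy := by
    have h1 : ‖v‖ < M.rad y.1 := hXv _ hy
    filter_upwards [transport_small (show 0 < M.rad y.1 - ‖v‖ by linarith)] with ζ hζ
    have hv0 := norm_nonneg v
    have h3 : ‖ζ‖ < M.rad y.1 := by linarith
    have h3' := fib_tr_val M _ y h3
    have h4 : ‖v‖ < M.rad (((M.Fib p).tr y ζ).1) := by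
      rw [h3']
      have := M.rad_tr y.1 (ζ, 0) (by rwa [norm_fst])
      rw [norm_fst] at this
      linarith
    have h0 := transportT_val M v hp d' y h1
    have h5 : ‖ζ‖ < M.rad (transportT M v hp d' y).1 := by
      rw [h0]
      have := M.rad_tr y.1 v h1
      linarith
    apply Subtype.ext
    rw [fib_tr_val M _ _ h5, h0, transportT_val M v hp d' _ h4, h3']
    exact (transport_tr_comm M (by rw [norm_fst]; linarith)).symm
  trS z hz := by
    obtain ⟨hyX, hyz⟩ := transportS_spec M v hp X hXv d z hz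
    have h1 : ‖v‖ < M.rad (transportS M v hp X hXv d z).1 := hXv _ hyX
    obtain ⟨s, hs, hs'⟩ := (RD.isOpen_iff M).1 hX _ hyX
    filter_upwards [transport_small hs,
      transport_small (show 0 < M.rad (transportS M v hp X hXv d z).1 - ‖v‖ by linarith)]
      with ζ hζ1 hζ2
    have hv0 := norm_nonneg v
    have h3 : ‖ζ‖ < M.rad (transportS M v hp X hXv d z).1 := by linarith
    have h5 : ‖ζ‖ < M.rad z.1 := by
      rw [← hyz]
      have := M.rad_tr _ v h1
      linarith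
    have h6 : M.tr (transportS M v hp X hXv d z).1 (ζ, 0) ∈ X := hs' _ (by rwa [norm_fst])
    have h7 : M.tr (M.tr (transportS M v hp X hXv d z).1 (ζ, 0)) v = M.tr z.1 (ζ, 0) := by
      rw [← hyz]
      exact (transport_tr_comm M (by rw [norm_fst]; linarith)).symm
    have h8' := fib_tr_val M _ z h5
    have h8 : ∃ y' ∈ X, M.tr y' v = ((M.Fib p').tr z ζ).1 :=
      ⟨_, h6, h7.trans h8'.symm⟩
    have h9 := transportS_spec M v hp X hXv d _ h8
    apply Subtype.ext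
    rw [fib_tr_val M _ _ h3]
    refine transport_injOn M v (hXv _ h9.1) (hXv _ h6) ?_
    rw [h9.2, h8']
    exact h7.symm

/-- transport by a translation -/
theorem NSetM_transport (M : RD (ℂ × V)) (e : M.carrier) (v : ℂ × V) {r : ℝ} (hr : 0 < r)
    (hrv : r + ‖v‖ < M.rad e) {X : Set M.carrier} (hX : IsOpen X) (hXv : ∀ y ∈ X, ‖v‖ < M.rad y)
    (φ : M.carrier → ℝ) :
    M.NSetM ((fun y => M.tr y v) '' X) φ r (M.tr e v) =
      M.NSetM X (fun y => φ (M.tr y v)) r e := by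
  have hv : ‖v‖ < M.rad e := by linarith
  set e1 : (M.Fib (M.pr e).2).carrier := ⟨e, rfl⟩ with he1
  set e2 : (M.Fib (M.pr (M.tr e v)).2).carrier := ⟨M.tr e v, rfl⟩ with he2
  set J := transportFib M v (transport_snd_tr M hv) e1 e2 hX hXv with hJ
  have hφ : ∀ y ∈ J.X₁, (fun z : (M.Fib (M.pr (M.tr e v)).2).carrier => φ z.1)
        (J.T y) = (fun y : (M.Fib (M.pr e).2).carrier => φ (M.tr y.1 v)) y := by
    intro y hy
    exact congrArg φ (transportT_val M v (transport_snd_tr M hv) e2 y (hXv _ hy))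
  refine transport_eq J hφ (y₀ := e1) (z₀ := e2) hr ?_
  intro ζ hζ
  have h3 : ‖ζ‖ < M.rad e := by have := norm_nonneg v; linarith
  have h4 : ‖ζ‖ < M.rad (M.tr e v) := by
    have := M.rad_tr e v hv
    linarith
  have h5 : ‖v‖ < M.rad (M.tr e (ζ, 0)) := by
    have := M.rad_tr e (ζ, 0) (by rwa [norm_fst])
    rw [norm_fst] at this
    linarith
  have h7 : M.tr (M.tr e (ζ, 0)) v = M.tr (M.tr e v) (ζ, 0) :=
    (transport_tr_comm M (by rw [norm_fst]; linarith)).symm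
  have h8 : ((M.Fib (M.pr e).2).tr e1 ζ).1 = M.tr e (ζ, 0) := fib_tr_val M _ e1 h3
  have h9 : ((M.Fib (M.pr (M.tr e v)).2).tr e2 ζ).1 = M.tr (M.tr e v) (ζ, 0) :=
    fib_tr_val M _ e2 h4
  by_cases hX1 : M.tr e (ζ, 0) ∈ X
  · left
    refine ⟨?_, ?_⟩
    · change ((M.Fib (M.pr e).2).tr e1 ζ).1 ∈ X
      rwa [h8]
    · apply Subtype.ext
      rw [h9]
      refine Eq.trans ?_ (transportT_val M v (transport_snd_tr M hv) e2
        ((M.Fib (M.pr e).2).tr e1 ζ) (by rw [h8]; exact h5)).symm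
      rw [h8]
      exact h7.symm
  · right
    refine ⟨?_, ?_⟩
    · change ¬ ((M.Fib (M.pr e).2).tr e1 ζ).1 ∈ X
      rwa [h8]
    · change ¬ ((M.Fib (M.pr (M.tr e v)).2).tr e2 ζ).1 ∈ ((fun y => M.tr y v) '' X)
      rw [h9]
      rintro ⟨y, hy, hyy⟩
      apply hX1
      have : y = M.tr e (ζ, 0) := by
        refine transport_injOn M v (hXv _ hy) h5 ?_
        rw [h7]; exact hyy
      rwa [← this]

theorem NSetM_mono (M : RD (ℂ × V)) {X Y : Set M.carrier} (h : X ⊆ Y) (φ : M.carrier → ℝ) (r : ℝ)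
    (e : M.carrier) : M.NSetM X φ r e ⊆ M.NSetM Y φ r e := by
  rintro t ⟨g, h1, h2, h3, h4⟩
  exact ⟨g, h1, h2.trans (preimage_mono h), h3, h4⟩

/-- lower semicontinuity -/
theorem NSetM_lsc (M : RD (ℂ × V)) (e : M.carrier) {r : ℝ} (hr : 0 < r) (hre : r < M.rad e)
    {U : Set M.carrier} (hU : IsOpen U) {t c : ℝ} (ht : t ∈ M.NSetM U 0 r e) (hc : c < t) :
    ∃ K ⊆ U, IsCompact K ∧ ∃ δ > 0, ∀ v, ‖v‖ < δ → ∀ U', IsOpen U' → K ⊆ U' →
      ∃ t' ∈ M.NSetM U' 0 r (M.tr e v), c < t' := by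
  have : ProperSpace V := FiniteDimensional.proper ℂ V
  obtain ⟨g, ⟨hgs, hgc⟩, hgX, hgE, htt⟩ := ht
  set K₀ : Set M.carrier := (fun y : (M.Fib (M.pr e).2).carrier => (y.1 : M.carrier)) '' tsupport g
    with hK₀
  have hK₀c : IsCompact K₀ := hgc.isCompact.image (isClosedEmbedding_val M _).continuous
  have hK₀U : K₀ ⊆ U := by
    rintro _ ⟨y, hy, rfl⟩
    exact hgX hy
  set N : Set (M.carrier × (ℂ × V)) := {q | ‖q.2‖ < M.rad q.1 ∧ M.tr q.1 q.2 ∈ U} with hN
  have hNo : IsOpen N := by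
    rw [isOpen_iff_mem_nhds]
    rintro q ⟨h1, h2⟩
    have h3 : ∀ᶠ q' : M.carrier × (ℂ × V) in 𝓝 q, ‖q'.2‖ < M.rad q'.1 :=
      (isOpen_lt (continuous_snd.norm) (M.continuous_rad.comp continuous_fst)).mem_nhds h1
    have h4 : ContinuousAt (fun q : M.carrier × (ℂ × V) => M.tr q.1 q.2) q :=
      M.continuousAt_tr (e := q.1) (v := q.2) h1
    have h5 := h4.eventually (hU.mem_nhds h2)
    filter_upwards [h3, h5] with q' h6 h7
    exact ⟨h6, h7⟩
  obtain ⟨u, w, hu, hw, hK₀u, h0w, huw⟩ := generalized_tube_lemma hK₀c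
    (isCompact_singleton (x := (0 : ℂ × V))) hNo (by
      rintro ⟨y, v⟩ ⟨hy, hv⟩
      rw [mem_singleton_iff] at hv
      simp only at hv hy
      subst hv
      refine ⟨?_, ?_⟩
      · simpa using M.rad_pos y
      · simp only [M.tr_zero]; exact hK₀U hy)
  obtain ⟨δ₀, hδ₀, hball⟩ := Metric.isOpen_iff.1 hw 0 (h0w rfl)
  set δ := min (δ₀ / 2) (M.rad e - r) with hδ
  have hδ0 : 0 < δ := lt_min (by linarith) (by linarith)
  have hδ1 : ∀ v : ℂ × V, ‖v‖ ≤ δ → v ∈ w := by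
    intro v hv
    apply hball
    rw [mem_ball_zero_iff]
    have : δ ≤ δ₀ / 2 := min_le_left _ _
    linarith
  refine ⟨(fun q : M.carrier × (ℂ × V) => M.tr q.1 q.2) '' (K₀ ×ˢ closedBall 0 δ), ?_, ?_, δ, hδ0,
    ?_⟩
  · rintro _ ⟨⟨y, v⟩, ⟨hy, hv⟩, rfl⟩
    simp only [mem_closedBall_zero_iff] at hv
    exact (huw ⟨hK₀u hy, hδ1 v hv⟩).2
  · refine (hK₀c.prod (isCompact_closedBall 0 δ)).image_of_continuousOn ?_
    rintro ⟨y, v⟩ ⟨hy, hv⟩
    simp only [mem_closedBall_zero_iff] at hv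
    exact (M.continuousAt_tr (huw ⟨hK₀u hy, hδ1 v hv⟩).1).continuousWithinAt
  · intro v hv U' hU' hKU'
    set X : Set M.carrier := {y | ‖v‖ < M.rad y ∧ M.tr y v ∈ U'} with hX
    have hXo : IsOpen X := by
      rw [isOpen_iff_mem_nhds]
      rintro y ⟨h1, h2⟩
      have h3 : ∀ᶠ y' : M.carrier in 𝓝 y, ‖v‖ < M.rad y' :=
        (isOpen_lt continuous_const M.continuous_rad).mem_nhds h1
      have h4 : ContinuousAt (fun y : M.carrier => M.tr y v) y :=
        ContinuousAt.comp (f := fun y : M.carrier => (y, v)) (M.continuousAt_tr h1)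
          (by fun_prop)
      have h5 := h4.eventually (hU'.mem_nhds h2)
      filter_upwards [h3, h5] with q' h6 h7
      exact ⟨h6, h7⟩
    have htX : t ∈ M.NSetM X 0 r e := by
      refine ⟨g, ⟨hgs, hgc⟩, ?_, hgE, htt⟩
      intro y hy
      have hy' : y.1 ∈ K₀ := ⟨y, hy, rfl⟩
      have h6 : ((y.1, v) : M.carrier × (ℂ × V)) ∈ N := huw ⟨hK₀u hy', hδ1 v hv.le⟩
      refine ⟨h6.1, hKU' ⟨((y.1 : M.carrier), v), ⟨hy', ?_⟩, rfl⟩⟩
      simp only [mem_closedBall_zero_iff]; exact hv.le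
    have h1 : r + ‖v‖ < M.rad e := by
      have : δ ≤ M.rad e - r := min_le_right _ _
      linarith
    have h2 := NSetM_transport M e v hr h1 hXo (fun y hy => hy.1) 0
    refine ⟨t, ?_, hc⟩
    refine NSetM_mono M (X := (fun y => M.tr y v) '' X) ?_ 0 r _ ?_
    · rintro _ ⟨y, hy, rfl⟩
      exact hy.2
    · rw [h2]; exact htX

theorem transport_indicator (R : RD ℂ) {C : Set R.carrier} (hC : IsClopen C) {g : R.carrier → ℂ}
    (hg : R.Test g) : R.Test (C.indicator g) ∧ tsupport (C.indicator g) ⊆ C ∧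
      R.En 0 (C.indicator g) ≤ R.En 0 g := by
  have hloc : ∀ y ∈ C, (fun ζ => C.indicator g (R.tr y ζ)) =ᶠ[𝓝 0] fun ζ => g (R.tr y ζ) := by
    intro y hy
    filter_upwards [transport_eventually_mem hC.isOpen hy] with ζ h
    rw [indicator_of_mem h]
  have hloc' : ∀ y, y ∉ C → (fun ζ => C.indicator g (R.tr y ζ)) =ᶠ[𝓝 0] fun _ => (0:ℂ) := by
    intro y hy
    filter_upwards [transport_eventually_mem hC.isClosed.isOpen_compl (show y ∈ Cᶜ from hy)]
      with ζ h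
    rw [indicator_of_notMem h]
  have hd : ∀ y ∈ C, R.dzb (C.indicator g) y = R.dzb g y := by
    intro y hy
    unfold dzb dwb
    rw [(hloc y hy).fderiv_eq]
  have hd' : ∀ y, y ∉ C → R.dzb (C.indicator g) y = 0 := by
    intro y hy
    unfold dzb dwb
    rw [(hloc' y hy).fderiv_eq]
    simp
  have hT : R.Test (C.indicator g) := by
    refine ⟨?_, ?_⟩
    · intro y _
      by_cases hy : y ∈ C
      · exact (hg.1 y (mem_univ _)).congr_of_eventuallyEq (hloc y hy)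
      · exact contDiffAt_const.congr_of_eventuallyEq (hloc' y hy)
    · refine HasCompactSupport.intro (K := tsupport g) hg.2.isCompact ?_
      intro y hy
      have := image_eq_zero_of_notMem_tsupport hy
      by_cases hy' : y ∈ C
      · rw [indicator_of_mem hy', this]
      · rw [indicator_of_notMem hy']
  have key : ∀ f : R.carrier → ℂ, R.Test f →
      Continuous (fun y => ‖R.dzb f y‖ ^ 2 * Real.exp ((0 : R.carrier → ℝ) y)) ∧
      HasCompactSupport (fun y => ‖R.dzb f y‖ ^ 2 * Real.exp ((0 : R.carrier → ℝ) y)) := by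
    intro f hf
    have h1 : Continuous (R.dzb f) := by
      have := Smooth.continuousOn R isOpen_univ (Smooth.dwb R isOpen_univ hf.1 1)
      rwa [← continuousOn_univ]
    refine ⟨by
      simp only [Pi.zero_apply, Real.exp_zero, mul_one]
      exact h1.norm.pow 2, ?_⟩
    refine HasCompactSupport.intro (K := tsupport f) hf.2.isCompact ?_
    intro y hy
    have h2 : (fun ζ => f (R.tr y ζ)) =ᶠ[𝓝 0] fun _ => (0:ℂ) := by
      filter_upwards [transport_eventually_mem (isClosed_tsupport f).isOpen_compl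
        (show y ∈ (tsupport f)ᶜ from hy)] with ζ h1
      exact image_eq_zero_of_notMem_tsupport h1
    have h3 : R.dzb f y = 0 := by
      unfold dzb dwb
      rw [h2.fderiv_eq]
      simp
    rw [h3]; simp
  refine ⟨hT, ?_, ?_⟩
  · apply closure_minimal _ hC.isClosed
    intro y hy
    by_contra hne
    exact hy (indicator_of_notMem hne _)
  · refine R.sint_mono (key _ hT).1 (key _ hT).2 (key _ hg).1 (key _ hg).2 ?_
    intro y
    by_cases hy : y ∈ C
    · rw [hd y hy]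
    · rw [hd' y hy]
      simp only [norm_zero, ne_eq, OfNat.ofNat_ne_zero, not_false_eq_true, zero_pow, zero_mul]
      positivity

/-- test functions may be restricted to the component of the base point -/
theorem NSetM_reach (M : RD (ℂ × V)) (e : M.carrier) {r : ℝ} (hr : 0 < r) (hre : r < M.rad e)
    {t : ℝ} (ht : t ∈ M.NSetM univ 0 r e) : ∃ t' ∈ M.NSetM {e' | M.Reach e e'} 0 r e, t ≤ t' := by
  obtain ⟨g, hg, -, hgE, rfl⟩ := ht
  set e1 : (M.Fib (M.pr e).2).carrier := ⟨e, rfl⟩ with he1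
  set C : Set (M.Fib (M.pr e).2).carrier :=
    (fun y : (M.Fib (M.pr e).2).carrier => (y.1 : M.carrier)) ⁻¹' {e' | M.Reach e e'} with hC
  have hCc : IsClopen C := (M.isClopen_reach e).preimage (isClosedEmbedding_val M _).continuous
  obtain ⟨h1, h2, h3⟩ := transport_indicator (M.Fib (M.pr e).2) hCc hg
  have hl : (M.Fib (M.pr e).2).ell e1 r (C.indicator g) = (M.Fib (M.pr e).2).ell e1 r g := by
    unfold ell
    refine integral_congr_ae (Eventually.of_forall fun ζ => ?_)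
    simp only
    by_cases h4 : ‖ζ‖ < 1
    · have h5 : ‖(r:ℂ) * ζ‖ < r := by
        rw [norm_mul, Complex.norm_real, Real.norm_of_nonneg hr.le]
        nlinarith
      have h6 : ‖(r:ℂ) * ζ‖ < M.rad e := h5.trans hre
      rw [indicator_of_mem]
      change M.Reach e ((M.Fib (M.pr e).2).tr e1 ((r:ℂ) * ζ)).1
      rw [fib_tr_val M _ e1 h6]
      exact Relation.ReflTransGen.single ⟨_, by rwa [norm_fst], rfl⟩
    · rw [transport_chi_zero (not_lt.mp h4)]
      simp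
  exact ⟨_, ⟨C.indicator g, h1, h2, h3.trans hgE, rfl⟩, by rw [hl]⟩

end

end RD

end Pool.Agent.ParLeaf
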