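import Pool.Agent.H.MP_3a36cd_an.Germ3
import Pool.Agent.H.MP_3a36cd_an.Transport

/-! MP_3a36cd_an, module Zero: capacity zero. -/

open Set Metric Filter Topology Complex Real
open scoped ContDiff

namespace Pool.Agent.ParLeaf

namespace SolDomain

variable {P Q : ℂ × ℂ → ℂ} (D : SolDomain P Q) (hP : Differentiable ℂ P) (hQ : Differentiable ℂ Q)

/-- capacity zero of the fibre through `p`, with bump size `rad / 2` -/
def Zero (p : ℂ × ℂ) (hp : P p ≠ 0) : Prop :=
  ¬ BddAbove (D.M.NSetM univ 0 (D.M.rad (D.base hP hQ p hp) / 2) (D.base hP hQ p hp))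

end SolDomain

end Pool.Agent.ParLeaf
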